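import Pool.Agent.TH476.Good

set_option autoImplicit false

open Classical Asymptotics Filter

namespace Pool.Agent.TH476

open Pool.Agent.W979.TE Pool.Agent.W979.TE4 Pool.Agent.W979.TE5

/-- the exponents -/
theorem exponents (g q j : ℕ) (hg : 1 ≤ g) (hq : 1 ≤ q) :
    ∃ k : ℕ, ∃ H : SimpleGraph (Fin k), H.Colorable 2 ∧
      (fun n : ℕ => (SimpleGraph.extremalNumber n H : ℝ)) =Θ[atTop]
        (fun n : ℕ => (n : ℝ) ^ (2 - (1 + g + g * q : ℝ) /
          ((1 + g + 2 * g * q) + j * (1 + g + g * q)))) := by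
  have hgq : 0 < g * q := Nat.mul_pos (by omega) (by omega)
  have h := theta_of_good (m := 1 + g + g * q) (e := 1 + g + 2 * (g * q) + j * (1 + g + g * q))
    (by omega) (by omega) (good_iter (by omega) (by omega) (good g q (by omega) (by omega)) j)
  have e1 : ((1 + g + g * q : ℕ) : ℝ) = 1 + g + g * q := by push_cast; ring
  have e2 : ((1 + g + 2 * (g * q) + j * (1 + g + g * q) : ℕ) : ℝ) =
      (1 + g + 2 * g * q) + j * (1 + g + g * q) := by push_cast; ring
  rw [e1, e2] at h
  exact h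

/-- the standard vertex set -/
abbrev SV (g q : ℕ) : Type := Option (Fin g × Option (Fin q)) ⊕ Option (Fin g × Fin q)

/-- relabelling -/
def re (g q : ℕ) : TV g q ≃ SV g q where
  toFun
    | .f => Sum.inr none
    | .x => Sum.inl none
    | .y b => Sum.inl (some (b, none))
    | .m b j => Sum.inl (some (b, some j))
    | .r b j => Sum.inr (some (b, j))
  invFun
    | Sum.inr none => .f
    | Sum.inl none => .x
    | Sum.inl (some (b, none)) => .y b
    | Sum.inl (some (b, some j)) => .m b j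
    | Sum.inr (some (b, j)) => .r b j
  left_inv v := by cases v <;> rfl
  right_inv v := by
    rcases v with (_ | ⟨b, _ | j⟩) | (_ | ⟨b, j⟩) <;> rfl

/-- the tree on the standard vertex set -/
def ST (g q : ℕ) : SimpleGraph (SV g q) :=
  SimpleGraph.fromRel (fun u v => (u = Sum.inl none ∧ v = Sum.inr none) ∨ ∃ b : Fin g,
    (u = Sum.inl none ∧ v = Sum.inl (some (b, none))) ∨ ∃ j : Fin q,
      (u = Sum.inl (some (b, none)) ∧ v = Sum.inl (some (b, some j))) ∨
      (u = Sum.inl (some (b, some j)) ∧ v = Sum.inr (some (b, j))))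

lemma ST_adj {g q : ℕ} (u v : TV g q) : (ST g q).Adj (re g q u) (re g q v) ↔ (TG g q).Adj u v := by
  rw [TG_adj]
  unfold ST
  rw [SimpleGraph.fromRel_adj]
  cases u <;> cases v <;> simp [re, par, eq_comm]

/-- transport of copies of blowups along an isomorphism -/
lemma hasBU_iso {V V' W : Type} (T : SimpleGraph V) (T' : SimpleGraph V') (e : V ≃ V')
    (he : ∀ u v, T'.Adj (e u) (e v) ↔ T.Adj u v) (R : Set V) (R' : Set V')
    (hR : ∀ v, e v ∈ R' ↔ v ∈ R) (t : ℕ) (G : SimpleGraph W) (h : HasBU T R t G) :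
    HasBU T' R' t G := by
  obtain ⟨f, hf, hadj⟩ := h
  have hR' : ∀ v, v ∈ R' ↔ e.symm v ∈ R := fun v => by rw [← hR, Equiv.apply_symm_apply]
  have he' : ∀ u v, T.Adj (e.symm u) (e.symm v) ↔ T'.Adj u v := fun u v => by
    rw [← he, Equiv.apply_symm_apply, Equiv.apply_symm_apply]
  let π : BV V' R' t → BV V R t := fun p => ⟨(e.symm p.1.1, p.1.2), p.2.1, fun h =>
    p.2.2 ((hR' _).mpr h)⟩
  refine ⟨fun p => f (π p), ?_, ?_⟩
  · intro p p' hpp
    have h1 := congrArg Subtype.val (hf hpp)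
    simp only [π, Prod.mk.injEq, EmbeddingLike.apply_eq_iff_eq] at h1
    exact Subtype.ext (Prod.ext h1.1 h1.2)
  · intro a b hab
    apply hadj
    unfold BU at hab ⊢
    rw [SimpleGraph.fromRel_adj] at hab ⊢
    refine ⟨fun h => hab.1 ?_, ?_⟩
    · have h1 := congrArg Subtype.val h
      simp only [π, Prod.mk.injEq, EmbeddingLike.apply_eq_iff_eq] at h1
      exact Subtype.ext (Prod.ext h1.1 h1.2)
    · simp only [π, he', ← hR']
      exact hab.2

lemma eS_iso {V V' : Type} (T : SimpleGraph V) (T' : SimpleGraph V') (e : V ≃ V')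
    (he : ∀ u v, T'.Adj (e u) (e v) ↔ T.Adj u v) (S : Set V') : eS T' S = eS T (e ⁻¹' S) := by
  unfold eS
  rw [← Set.ncard_image_of_injective (f := Sym2.map e) _ (Sym2.map.injective e.injective)]
  congr 1
  ext z
  induction z using Sym2.ind with
  | _ u v =>
    simp only [Set.mem_ofPred_eq, SimpleGraph.mem_edgeSet, Set.mem_image]
    constructor
    · rintro ⟨h1, w, hw, h2⟩
      refine ⟨s(e.symm u, e.symm v), ⟨?_, e.symm w, ?_, ?_⟩, ?_⟩
      · rw [SimpleGraph.mem_edgeSet, ← he, Equiv.apply_symm_apply, Equiv.apply_symm_apply]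
        exact h1
      · rw [Set.mem_preimage, Equiv.apply_symm_apply]
        exact hw
      · rw [Sym2.mem_iff] at h2 ⊢
        rcases h2 with rfl | rfl
        · exact Or.inl rfl
        · exact Or.inr rfl
      · simp
    · rintro ⟨z, ⟨h1, w, hw, h2⟩, h3⟩
      induction z using Sym2.ind with
      | _ a b =>
        rw [SimpleGraph.mem_edgeSet] at h1
        rw [Sym2.map_mk] at h3
        refine ⟨?_, e w, hw, ?_⟩
        · rw [← SimpleGraph.mem_edgeSet, ← h3, SimpleGraph.mem_edgeSet, he]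
          exact h1
        · rw [← h3, Sym2.mem_iff]
          rw [Sym2.mem_iff] at h2
          rcases h2 with rfl | rfl
          · exact Or.inl rfl
          · exact Or.inr rfl

lemma edgeSet_ncard_TG (g q : ℕ) : (TG g q).edgeSet.ncard = 1 + g + 2 * (g * q) := by
  rw [← eS_compl]
  unfold eS
  congr 1
  ext z
  induction z using Sym2.ind with
  | _ u v =>
    simp only [Set.mem_ofPred_eq, SimpleGraph.mem_edgeSet, Sym2.mem_iff]
    constructor
    · intro h
      refine ⟨h, ?_⟩
      have key : ∀ w : TV g q, w ≠ .x → ∃ z, z ∈ ((RS g q : Set (TV g q))ᶜ) ∧ (z = w ∨ z = par w) := by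
        intro w hw
        cases w with
        | f => exact ⟨.x, x_nmem g q, Or.inr rfl⟩
        | x => exact absurd rfl hw
        | y b => exact ⟨.x, x_nmem g q, Or.inr rfl⟩
        | m b j => exact ⟨.y b, y_nmem b, Or.inr rfl⟩
        | r b j => exact ⟨.m b j, m_nmem b j, Or.inr rfl⟩
      rcases (TG_adj u v).mp h with ⟨h1, rfl⟩ | ⟨h1, rfl⟩
      · obtain ⟨z, hz, h2⟩ := key v h1
        exact ⟨z, hz, h2.symm⟩
      · obtain ⟨z, hz, h2⟩ := key u h1
        exact ⟨z, hz, h2⟩
    · exact fun h => h.1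

lemma TG_isTree (g q : ℕ) : (TG g q).IsTree := by
  rw [SimpleGraph.isTree_iff_connected_and_card]
  refine ⟨TG_conn g q, ?_⟩
  have h1 : Nat.card (TG g q).edgeSet = (TG g q).edgeSet.ncard := rfl
  rw [h1, edgeSet_ncard_TG, Nat.card_eq_fintype_card, card_TV]
  ring

lemma ST_isTree (g q : ℕ) : (ST g q).IsTree := by
  have iso : TG g q ≃g ST g q := ⟨re g q, by intro u v; exact ST_adj u v⟩
  exact iso.isTree_iff.mp (TG_isTree g q)

lemma mem_range_re {g q : ℕ} (v : TV g q) :
    re g q v ∈ (Set.range Sum.inr : Set (SV g q)) ↔ v ∈ (RS g q : Set (TV g q)) := by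
  cases v <;> simp [re, RS]

lemma compl_ST (g q : ℕ) : ((Set.range Sum.inr : Set (SV g q))ᶜ).ncard = 1 + g + g * q := by
  rw [← ncard_compl_RS, ← Set.ncard_image_of_injective _ (re g q).injective]
  congr 1
  ext v
  obtain ⟨u, rfl⟩ := (re g q).surjective v
  rw [Set.mem_compl_iff, mem_range_re, (re g q).injective.mem_set_image]
  rfl

/-- all the statements about the tree, on the standard vertex set -/
theorem tree_all (g q : ℕ) (hg : 1 ≤ g) (hq : 1 ≤ q) :
    (ST g q).IsTree ∧
    ((Set.range Sum.inr : Set (SV g q))ᶜ).ncard = 1 + g + g * q ∧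
    eS (ST g q) (Set.range Sum.inr : Set (SV g q))ᶜ = 1 + g + 2 * (g * q) ∧
    (∀ S : Set (SV g q), S ⊆ (Set.range Sum.inr)ᶜ →
      (1 + g + 2 * (g * q)) * S.ncard ≤ (1 + g + g * q) * eS (ST g q) S) ∧
    ∀ t : ℕ, 0 < t → ∃ C : ℝ, ∀ n : ℕ, ∀ G : SimpleGraph (Fin n),
      ¬ HasBU (ST g q) (Set.range Sum.inr) t G → (G.edgeSet.ncard : ℝ) ≤
        C * (n : ℝ) ^ (2 - ((1 + g + g * q : ℕ) : ℝ) / ((1 + g + 2 * (g * q) : ℕ) : ℝ)) := by
  refine ⟨ST_isTree g q, compl_ST g q, ?_, ?_, ?_⟩
  · rw [eS_iso (TG g q) (ST g q) (re g q) ST_adj, ← eS_compl]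
    congr 1
    ext v
    rw [Set.mem_preimage, Set.mem_compl_iff, mem_range_re]
    rfl
  · intro S hS
    rw [eS_iso (TG g q) (ST g q) (re g q) ST_adj]
    have h1 : S.ncard = (re g q ⁻¹' S).ncard := by
      rw [← Set.ncard_image_of_injective _ (re g q).injective]
      congr 1
      exact ((re g q).image_preimage S).symm
    rw [h1]
    refine balanced g q hg _ ?_
    intro v hv hv'
    exact hS hv ((mem_range_re v).mpr hv')
  · intro t ht
    obtain ⟨C, hC⟩ := upper g q t hg hq ht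
    refine ⟨C, fun n G hG => hC n G fun h => hG ?_⟩
    exact hasBU_iso (TG g q) (ST g q) (re g q) ST_adj _ _ mem_range_re t G
      (hasBU_of_rich (TG g q) (RS g q) t G h)

end Pool.Agent.TH476
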