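import Pool.Agent.TH476.EGood
import Pool.Agent.TH476.Fin

set_option autoImplicit false

open Classical Asymptotics Filter

namespace Pool.Agent.TH476

open Pool.Agent.W979.TE Pool.Agent.W979.TE4 Pool.Agent.W979.TE5

lemma PT_isTree {ι : Type} [Fintype ι] (p : ι → ι) (u0 : ι) (rk : ι → ℕ)
    (hp : ∀ v, v ≠ u0 → rk (p v) < rk v) : (PT p u0).IsTree := by
  rw [SimpleGraph.isTree_iff_connected_and_card]
  refine ⟨PT_conn p u0 rk hp, ?_⟩
  have h1 : Nat.card (PT p u0).edgeSet = eS (PT p u0) Set.univ := by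
    show (PT p u0).edgeSet.ncard = _
    unfold eS
    congr 1
    ext z
    induction z using Sym2.ind with
    | _ u v =>
      simp only [Set.mem_ofPred_eq, SimpleGraph.mem_edgeSet, Sym2.mem_iff]
      exact ⟨fun h => ⟨h, u, Set.mem_univ _, Or.inl rfl⟩, fun h => h.1⟩
  have h2 := eS_PT p u0 rk hp Set.univ
  simp only [Set.mem_univ, or_self, and_true] at h2
  rw [Finset.filter_ne', Finset.card_erase_of_mem (Finset.mem_univ _), Finset.card_univ] at h2
  rw [h1, h2, Nat.card_eq_fintype_card]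
  have : 0 < Fintype.card ι := Fintype.card_pos_iff.mpr ⟨u0⟩
  omega

/-- transport of all the statements along a relabelling -/
lemma transfer {ι κ : Type} [Fintype ι] [Fintype κ] (T : SimpleGraph ι) (R : Finset ι)
    (T' : SimpleGraph κ) (R' : Set κ) (e : ι ≃ κ) (he : ∀ u v, T'.Adj (e u) (e v) ↔ T.Adj u v)
    (hR : ∀ v, e v ∈ R' ↔ v ∈ (R : Set ι)) (m b : ℕ) (h1 : T.IsTree)
    (h2 : ((R : Set ι)ᶜ).ncard = m) (h3 : eS T ((R : Set ι)ᶜ) = b)
    (h4 : ∀ S : Set ι, S ⊆ (R : Set ι)ᶜ → b * S.ncard ≤ m * eS T S)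
    (h5 : ∀ t : ℕ, 0 < t → ∃ C : ℝ, ∀ n : ℕ, ∀ G : SimpleGraph (Fin n),
      (¬ ∃ φ, Rich {φ | Emb T G φ} t R φ) → (G.edgeSet.ncard : ℝ) ≤
        C * (n : ℝ) ^ (2 - (m : ℝ) / (b : ℝ))) :
    T'.IsTree ∧ (R'ᶜ).ncard = m ∧ eS T' R'ᶜ = b ∧
    (∀ S : Set κ, S ⊆ R'ᶜ → b * S.ncard ≤ m * eS T' S) ∧
    ∀ t : ℕ, 0 < t → ∃ C : ℝ, ∀ n : ℕ, ∀ G : SimpleGraph (Fin n),
      ¬ HasBU T' R' t G → (G.edgeSet.ncard : ℝ) ≤ C * (n : ℝ) ^ (2 - (m : ℝ) / (b : ℝ)) := by
  have iso : T ≃g T' := ⟨e, by intro u v; exact he u v⟩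
  have hpre : e ⁻¹' R'ᶜ = (R : Set ι)ᶜ := by
    ext v
    rw [Set.mem_preimage, Set.mem_compl_iff, hR]
    rfl
  have hcard : ∀ S : Set κ, S.ncard = (e ⁻¹' S).ncard := by
    intro S
    rw [← Set.ncard_image_of_injective _ e.injective]
    congr 1
    exact (e.image_preimage S).symm
  refine ⟨iso.isTree_iff.mp h1, ?_, ?_, ?_, ?_⟩
  · rw [hcard, hpre, h2]
  · rw [eS_iso T T' e he, hpre, h3]
  · intro S hS
    rw [eS_iso T T' e he, hcard S]
    refine h4 _ ?_
    rw [← hpre]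
    exact Set.preimage_mono hS
  · intro t ht
    obtain ⟨C, hC⟩ := h5 t ht
    refine ⟨C, fun n G hG => hC n G fun h => hG ?_⟩
    exact hasBU_iso T T' e he _ _ hR t G (hasBU_of_rich T R t G h)

/-- the standard vertex set -/
abbrev SU (g k s : ℕ) : Type :=
  (Option (Fin g × Option (Fin k)) ⊕ Fin s) ⊕ (Option (Fin g × Fin k) ⊕ Fin s)

/-- the edges of the tree on the standard vertex set, oriented away from the centre -/
def SUR (g k s : ℕ) (u v : SU g k s) : Prop :=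
  (u = Sum.inl (Sum.inl none) ∧ v = Sum.inr (Sum.inl none)) ∨
    (∃ b : Fin g, (u = Sum.inl (Sum.inl none) ∧ v = Sum.inl (Sum.inl (some (b, none)))) ∨
      ∃ j : Fin k,
        (u = Sum.inl (Sum.inl (some (b, none))) ∧ v = Sum.inl (Sum.inl (some (b, some j)))) ∨
        (u = Sum.inl (Sum.inl (some (b, some j))) ∧ v = Sum.inr (Sum.inl (some (b, j))))) ∨
    ∃ l : Fin s,
      (l.val = 0 ∧ u = Sum.inl (Sum.inl none) ∧ v = Sum.inl (Sum.inr l)) ∨
      (u = Sum.inl (Sum.inr l) ∧ v = Sum.inr (Sum.inr l)) ∨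
      ∃ i : Fin s, i.val = 0 ∧ l.val ≠ 0 ∧ u = Sum.inl (Sum.inr i) ∧ v = Sum.inl (Sum.inr l)

/-- the tree on the standard vertex set -/
def SUT (g k s : ℕ) : SimpleGraph (SU g k s) := SimpleGraph.fromRel (SUR g k s)

/-- relabelling for s = 0 -/
def reV (g k : ℕ) : TV g k ≃ SU g k 0 where
  toFun
    | .f => Sum.inr (Sum.inl none)
    | .x => Sum.inl (Sum.inl none)
    | .y b => Sum.inl (Sum.inl (some (b, none)))
    | .m b j => Sum.inl (Sum.inl (some (b, some j)))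
    | .r b j => Sum.inr (Sum.inl (some (b, j)))
  invFun
    | Sum.inr (Sum.inl none) => .f
    | Sum.inl (Sum.inl none) => .x
    | Sum.inl (Sum.inl (some (b, none))) => .y b
    | Sum.inl (Sum.inl (some (b, some j))) => .m b j
    | Sum.inr (Sum.inl (some (b, j))) => .r b j
    | Sum.inl (Sum.inr l) => l.elim0
    | Sum.inr (Sum.inr l) => l.elim0
  left_inv v := by cases v <;> rfl
  right_inv v := by
    rcases v with ((_ | ⟨b, _ | j⟩) | l) | ((_ | ⟨b, j⟩) | l)
    · rfl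
    · rfl
    · rfl
    · exact l.elim0
    · rfl
    · rfl
    · exact l.elim0

/-- relabelling for s = e + 1 -/
def reW (g k e : ℕ) : TW g k e ≃ SU g k (e + 1) where
  toFun
    | .f => Sum.inr (Sum.inl none)
    | .p => Sum.inr (Sum.inr 0)
    | .x => Sum.inl (Sum.inl none)
    | .z => Sum.inl (Sum.inr 0)
    | .y b => Sum.inl (Sum.inl (some (b, none)))
    | .m b j => Sum.inl (Sum.inl (some (b, some j)))
    | .r b j => Sum.inr (Sum.inl (some (b, j)))
    | .n l => Sum.inl (Sum.inr l.succ)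
    | .u l => Sum.inr (Sum.inr l.succ)
  invFun
    | Sum.inr (Sum.inl none) => .f
    | Sum.inl (Sum.inl none) => .x
    | Sum.inl (Sum.inl (some (b, none))) => .y b
    | Sum.inl (Sum.inl (some (b, some j))) => .m b j
    | Sum.inr (Sum.inl (some (b, j))) => .r b j
    | Sum.inl (Sum.inr l) => Fin.cases .z .n l
    | Sum.inr (Sum.inr l) => Fin.cases .p .u l
  left_inv v := by cases v <;> rfl
  right_inv v := by
    rcases v with ((_ | ⟨b, _ | j⟩) | l) | ((_ | ⟨b, j⟩) | l)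
    · rfl
    · rfl
    · rfl
    · refine Fin.cases ?_ (fun l => ?_) l <;> rfl
    · rfl
    · rfl
    · refine Fin.cases ?_ (fun l => ?_) l <;> rfl

lemma SUR_V {g k : ℕ} (u v : TV g k) :
    SUR g k 0 (reV g k u) (reV g k v) ↔ (v ≠ TV.x ∧ u = par v) := by
  unfold SUR
  cases u <;> cases v <;> simp [reV, par]
  exact eq_comm

lemma SUR_W {g k e : ℕ} (u v : TW g k e) :
    SUR g k (e + 1) (reW g k e u) (reW g k e v) ↔ (v ≠ TW.x ∧ u = parW v) := by
  unfold SUR
  cases u <;> cases v <;> simp [reW, parW]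
  · exact eq_comm
  · exact (Fin.succ_ne_zero _).symm
  · exact eq_comm

lemma SUT_V {g k : ℕ} (u v : TV g k) :
    (SUT g k 0).Adj (reV g k u) (reV g k v) ↔ (TG g k).Adj u v := by
  rw [TG_adj]
  unfold SUT
  rw [SimpleGraph.fromRel_adj, SUR_V, SUR_V]
  constructor
  · exact fun h => h.2
  · intro h
    refine ⟨fun he => ?_, h⟩
    rw [(reV g k).injective he] at h
    rcases h with h | h
    · have := dpt_par v h.1
      rw [← h.2] at this
      omega
    · have := dpt_par v h.1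
      rw [← h.2] at this
      omega

lemma SUT_W {g k e : ℕ} (u v : TW g k e) :
    (SUT g k (e + 1)).Adj (reW g k e u) (reW g k e v) ↔ (WG g k e).Adj u v := by
  rw [WG_adj]
  unfold SUT
  rw [SimpleGraph.fromRel_adj, SUR_W, SUR_W]
  constructor
  · exact fun h => h.2
  · intro h
    refine ⟨fun he => ?_, h⟩
    rw [(reW g k e).injective he] at h
    rcases h with h | h
    · have := dpt_parW v h.1
      rw [← h.2] at this
      omega
    · have := dpt_parW v h.1
      rw [← h.2] at this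
      omega

/-- all the statements about the trees, on the standard vertex set -/
theorem tree_allU (g k s : ℕ) (hg : 1 ≤ g) (hk : 1 ≤ k) (hs : s ≤ k) :
    (SUT g k s).IsTree ∧
    ((Set.range Sum.inr : Set (SU g k s))ᶜ).ncard = 1 + g + g * k + s ∧
    eS (SUT g k s) (Set.range Sum.inr : Set (SU g k s))ᶜ = 1 + g + 2 * (g * k) + 2 * s ∧
    (∀ S : Set (SU g k s), S ⊆ (Set.range Sum.inr)ᶜ →
      (1 + g + 2 * (g * k) + 2 * s) * S.ncard ≤ (1 + g + g * k + s) * eS (SUT g k s) S) ∧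
    ∀ t : ℕ, 0 < t → ∃ C : ℝ, ∀ n : ℕ, ∀ G : SimpleGraph (Fin n),
      ¬ HasBU (SUT g k s) (Set.range Sum.inr) t G → (G.edgeSet.ncard : ℝ) ≤
        C * (n : ℝ) ^ (2 - ((1 + g + g * k + s : ℕ) : ℝ) /
          ((1 + g + 2 * (g * k) + 2 * s : ℕ) : ℝ)) := by
  rcases Nat.eq_zero_or_pos s with rfl | hspos
  · refine transfer (TG g k) (RS g k) (SUT g k 0) (Set.range Sum.inr) (reV g k) SUT_V ?_
      (1 + g + g * k + 0) (1 + g + 2 * (g * k) + 2 * 0) (TG_isTree g k) (ncard_compl_RS g k)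
      (eS_compl g k) (balanced g k hg) (fun t ht => upper g k t hg hk ht)
    intro v
    cases v <;> simp [reV, RS]
  · obtain ⟨e, rfl⟩ : ∃ e, s = e + 1 := ⟨s - 1, by omega⟩
    have e1 : 1 + g + g * k + (e + 1) = 2 + g + g * k + e := by ring
    have e2 : 1 + g + 2 * (g * k) + 2 * (e + 1) = 3 + g + 2 * (g * k) + 2 * e := by ring
    rw [e1, e2]
    refine transfer (WG g k e) (RW g k e) (SUT g k (e + 1)) (Set.range Sum.inr) (reW g k e) SUT_W
      ?_ (2 + g + g * k + e) (3 + g + 2 * (g * k) + 2 * e) (PT_isTree parW TW.x dptW dpt_parW)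
      (ncard_compl_RW g k e) (eS_complW g k e) (balancedW g k e hg (by omega))
      (fun t ht => upperW g k e t hg (by omega) ht)
    intro v
    cases v <;> simp [reW, RW]

/-- realizability in the form of densities -/
theorem goodU (g k s : ℕ) (hg : 1 ≤ g) (hk : 1 ≤ k) (hs : s ≤ k) :
    Good (1 + g + g * k + s) (1 + g + 2 * (g * k) + 2 * s) := by
  rcases Nat.eq_zero_or_pos s with rfl | hspos
  · exact good g k hg hk
  · obtain ⟨e, rfl⟩ : ∃ e, s = e + 1 := ⟨s - 1, by omega⟩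
    have e1 : 1 + g + g * k + (e + 1) = 2 + g + g * k + e := by ring
    have e2 : 1 + g + 2 * (g * k) + 2 * (e + 1) = 3 + g + 2 * (g * k) + 2 * e := by ring
    rw [e1, e2]
    exact goodW g k e hg (by omega)

/-- the exponents -/
theorem exponentsU (h a b : ℕ) (hh : 2 ≤ h) (hha : h < a) (hab : a < b) (hdvd : a ∣ b + h)
    (hcond : (h - 1) ^ 2 < a ∨ (a - h) % (h - 1) ≤ (a - h) / (h - 1)) :
    ∃ k : ℕ, ∃ H : SimpleGraph (Fin k), H.Colorable 2 ∧
      (fun n : ℕ => (SimpleGraph.extremalNumber n H : ℝ)) =Θ[atTop]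
        (fun n : ℕ => (n : ℝ) ^ (2 - (a : ℝ) / (b : ℝ))) := by
  obtain ⟨g, rfl⟩ : ∃ g, h = g + 1 := ⟨h - 1, by omega⟩
  rw [Nat.add_sub_cancel] at hcond
  have hg : 1 ≤ g := by omega
  obtain ⟨S, rfl⟩ : ∃ S, a = g + 1 + S := ⟨a - (g + 1), by omega⟩
  rw [Nat.add_sub_cancel_left] at hcond
  have hS : 1 ≤ S := by omega
  have hmod := Nat.mod_lt S hg
  have hdm := Nat.div_add_mod S g
  have hc : S % g ≤ S / g := by
    rcases hcond with h1 | h1
    · by_contra hlt
      push Not at hlt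
      have h2 : S / g + 2 ≤ g := by omega
      obtain ⟨c, hc⟩ : ∃ c, g = S / g + 2 + c := ⟨g - (S / g + 2), by omega⟩
      have h3 : g * (S / g) + 2 * g ≤ g * g := by
        calc g * (S / g) + 2 * g = g * (S / g + 2) := by ring
          _ ≤ g * g := Nat.mul_le_mul_left _ h2
      have h4 : g ^ 2 = g * g := sq g
      omega
    · exact h1
  have hk : 1 ≤ S / g := by
    by_contra hlt
    have h0 : S / g = 0 := by omega
    rw [h0] at hc hdm
    omega
  obtain ⟨k, hkdef⟩ : ∃ k, k = S / g := ⟨_, rfl⟩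
  obtain ⟨s, hsdef⟩ : ∃ s, s = S % g := ⟨_, rfl⟩
  rw [← hkdef, ← hsdef] at hc hdm
  rw [← hkdef] at hk
  obtain ⟨M, hM⟩ := hdvd
  have hM2 : 2 ≤ M := by
    by_contra hlt
    have : M ≤ 1 := by omega
    have h5 : (g + 1 + S) * M ≤ (g + 1 + S) * 1 := Nat.mul_le_mul_left _ this
    omega
  obtain ⟨j, rfl⟩ : ∃ j, M = j + 2 := ⟨M - 2, by omega⟩
  have hgk : 0 < g * k := Nat.mul_pos (by omega) (by omega)
  have h6 := theta_of_good (m := 1 + g + g * k + s)
    (e := 1 + g + 2 * (g * k) + 2 * s + j * (1 + g + g * k + s))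
    (by omega) (by omega) (good_iter (by omega) (by omega) (goodU g k s hg hk hc) j)
  have e1 : 1 + g + g * k + s = g + 1 + S := by omega
  have e2 : 1 + g + 2 * (g * k) + 2 * s + j * (1 + g + g * k + s) = b := by
    have h7 : (g + 1 + S) * (j + 2) = j * (1 + g + g * k + s) + 2 * (g + 1 + S) := by
      rw [← e1]; ring
    rw [h7] at hM
    omega
  rw [e1] at h6
  rw [e1] at e2
  rw [e2] at h6
  exact h6

end Pool.Agent.TH476
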