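import Pool.Agent.TH476.KStm2
import Pool.Agent.TH476.EFin

set_option autoImplicit false

open Classical

namespace Pool.Agent.TH476.KK.KGtd

open Pool.Agent.TH476 Pool.Agent.W979.TE Pool.Agent.W979.TE4 Pool.Agent.W979.TE5

/-- vertices of the tree: the nodes and the roots of the Q-nodes which are not children of the
top -/
abbrev VT {k : ℕ} {ι : Type} (T : TE k ι) : Type := ι ⊕ {q : ι // T.Qn q ∧ T.par q ≠ T.top}

/-- parent -/
def pa {k : ℕ} {ι : Type} (T : TE k ι) : VT T → VT T
  | Sum.inl x => Sum.inl (T.par x)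
  | Sum.inr q => Sum.inl q.1

/-- rank -/
def rk {k : ℕ} {ι : Type} (T : TE k ι) : VT T → ℕ
  | Sum.inl x => T.dp x
  | Sum.inr q => T.dp q.1 + 1

/-- the root of the tree -/
def u0 {k : ℕ} {ι : Type} (T : TE k ι) : VT T := Sum.inl T.top

/-- the tree -/
def TT {k : ℕ} {ι : Type} (T : TE k ι) : SimpleGraph (VT T) := PT (pa T) (u0 T)

/-- layer -/
noncomputable def lay {k : ℕ} {ι : Type} (T : TE k ι) (s0 : ι) : VT T → ℕ
  | Sum.inl x => if x = T.top then (if T.kb s0 then k else 1) else
      (if T.kb x then k + 1 - T.ps x else T.ps x)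
  | Sum.inr q => if T.Cn q.1 then (if T.kb q.1 then k else 1) else (if T.kb q.1 then 0 else k + 1)

/-- colour -/
noncomputable def col {k : ℕ} {ι : Type} (T : TE k ι) (s0 : ι) (v : VT T) : Bool :=
  decide (lay T s0 v % 2 = 0)

/-- indicator -/
noncomputable def ind (P : Prop) : ℕ := if P then 1 else 0

lemma ind_congr {P Q : Prop} (h : P ↔ Q) : ind P = ind Q := by
  rw [propext h]

lemma card_ind {α : Type} [Fintype α] (P : α → Prop) [DecidablePred P] :
    (Finset.univ.filter P).card = ∑ x, ind (P x) := by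
  rw [Finset.card_filter]
  refine Finset.sum_congr rfl fun x _ => ?_
  unfold ind
  by_cases h : P x <;> simp [h]

lemma card_ind' {α : Type} [Fintype α] (B : Finset α) (P : α → Prop) [DecidablePred P] :
    (B.filter P).card = ∑ x, ind (x ∈ B ∧ P x) := by
  rw [← card_ind]
  congr 1
  ext x
  simp

lemma card_ind'' {α : Type} [Fintype α] (B : Finset α) : B.card = ∑ x, ind (x ∈ B) := by
  rw [← card_ind]
  congr 1
  ext x
  simp

section

variable {k : ℕ} {ι : Type} [Fintype ι] (T : TE k ι)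

/-- roots -/
noncomputable def RT : Finset (VT T) :=
  Finset.univ.filter (fun c => ∀ x, c = Sum.inl x → x = T.top)

lemma inl_mem (x : ι) : (Sum.inl x : VT T) ∈ RT T ↔ x = T.top := by
  unfold RT
  simp

lemma inr_mem (q : {q : ι // T.Qn q ∧ T.par q ≠ T.top}) : (Sum.inr q : VT T) ∈ RT T := by
  unfold RT
  simp

omit [Fintype ι] in
lemma rk_pa (v : VT T) (hv : v ≠ u0 T) : rk T (pa T v) < rk T v := by
  rcases v with x | q
  · have hx : x ≠ T.top := fun h => hv (by rw [h]; rfl)
    exact T.dp_par x hx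
  · exact Nat.lt_succ_self _

omit [Fintype ι] in
lemma TT_adj (u v : VT T) : (TT T).Adj u v ↔
    (v ≠ u0 T ∧ u = pa T v) ∨ (u ≠ u0 T ∧ v = pa T u) :=
  PT_adj (pa T) (u0 T) (rk T) (rk_pa T) u v

omit [Fintype ι] in
lemma inl_ne {x : ι} (hx : x ≠ T.top) : (Sum.inl x : VT T) ≠ u0 T := by
  intro h
  exact hx (Sum.inl_injective h)

omit [Fintype ι] in
lemma ne_inl {x : ι} (hx : (Sum.inl x : VT T) ≠ u0 T) : x ≠ T.top := by
  rintro rfl
  exact hx rfl

omit [Fintype ι] in
lemma topP : ¬ T.Qn T.top := fun h => h.elim T.top_C T.top_L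

omit [Fintype ι] in
lemma qn_ne {q : ι} (hq : T.Qn q) : q ≠ T.top := by
  rintro rfl
  exact topP T hq

omit [Fintype ι] in
lemma child_qn {q : ι} (hq : q ≠ T.top) (h : T.par q = T.top) : T.Qn q :=
  Or.inl (T.topc q hq h)

omit [Fintype ι] in
lemma lay_step (hk : 1 ≤ k) (s0 : ι) (hs0 : s0 ≠ T.top) (hs0t : T.par s0 = T.top)
    (v : VT T) (hv : v ≠ u0 T) :
    lay T s0 v = lay T s0 (pa T v) + 1 ∨ lay T s0 (pa T v) = lay T s0 v + 1 := by
  rcases v with x | q
  · have hx : x ≠ T.top := ne_inl T hv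
    by_cases hp : T.par x = T.top
    · have h1 : x = s0 := T.top1 x s0 hx hs0 hp hs0t
      have h2 := T.C_ps x (T.topc x hx hp)
      subst h1
      simp only [lay, pa, hp, if_true, if_neg hx, h2]
      cases T.kb x <;> simp
    · by_cases hc : T.Cn x
      · obtain ⟨h3, h4, h5, h6⟩ := T.C_par x hc hp
        have h2 := T.C_ps x hc
        simp only [lay, pa, if_neg hx, if_neg hp, h2, h5, h6]
        cases T.kb (T.par x) <;> simp
      · obtain ⟨h3, h4, h5⟩ := T.N_ps x hx hc
        simp only [lay, pa, if_neg hx, if_neg hp, h3, h5]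
        cases T.kb (T.par x)
        · simp
        · simp
          omega
  · have hq : q.1 ≠ T.top := qn_ne T q.2.1
    by_cases hc : T.Cn q.1
    · have h2 := T.C_ps q.1 hc
      simp only [lay, pa, if_pos hc, if_neg hq, h2]
      cases T.kb q.1 <;> simp
    · have hl : T.Ln q.1 := q.2.1.resolve_left hc
      have h2 := ((T.L_iff q.1).1 hl).2.2
      simp only [lay, pa, if_neg hc, if_neg hq, h2]
      cases T.kb q.1 <;> simp

omit [Fintype ι] in
lemma col_step (hk : 1 ≤ k) (s0 : ι) (hs0 : s0 ≠ T.top) (hs0t : T.par s0 = T.top)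
    (v : VT T) (hv : v ≠ u0 T) : col T s0 v ≠ col T s0 (pa T v) := by
  intro h
  unfold col at h
  rw [decide_eq_decide] at h
  rcases lay_step T hk s0 hs0 hs0t v hv with h1 | h1 <;> omega

lemma gadm (hk : 1 ≤ k) (s0 : ι) (hs0 : s0 ≠ T.top) (hs0t : T.par s0 = T.top)
    (hy : ∃ y, y ≠ T.top ∧ y ≠ s0) :
    Adm (TT T) (RT T : Set (VT T)) (col T s0) := by
  refine ⟨PT_conn (pa T) (u0 T) (rk T) (rk_pa T), ⟨u0 T, ?_⟩, ?_, ?_⟩
  · exact (inl_mem T T.top).mpr rfl
  · intro u v huv
    rcases (TT_adj T u v).mp huv with ⟨h1, rfl⟩ | ⟨h1, rfl⟩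
    · exact (col_step T hk s0 hs0 hs0t v h1).symm
    · exact col_step T hk s0 hs0 hs0t u h1
  · -- a child of the first centre
    obtain ⟨y, hyt, hys, hyp⟩ : ∃ y, y ≠ T.top ∧ y ≠ s0 ∧ T.par y = s0 := by
      obtain ⟨y, hy1, hy2⟩ := hy
      have key : ∀ (n : ℕ) (y : ι), y ≠ T.top → y ≠ s0 → T.dp y ≤ n →
          ∃ y, y ≠ T.top ∧ y ≠ s0 ∧ T.par y = s0 := by
        intro n
        induction n with
        | zero =>
          intro y hy _ h
          have := T.dp_par y hy
          omega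
        | succ n ih =>
          intro y hy hys h
          have h1 := T.dp_par y hy
          by_cases h2 : T.par y = s0
          · exact ⟨y, hy, hys, h2⟩
          · have h3 : T.par y ≠ T.top := fun h4 => hys (T.top1 y s0 hy hs0 h4 hs0t)
            exact ih _ h3 h2 (by omega)
      exact key _ y hy1 hy2 le_rfl
    have hc := col_step T hk s0 hs0 hs0t (Sum.inl y) (inl_ne T hyt)
    have hc2 : pa T (Sum.inl y) = Sum.inl s0 := by
      show Sum.inl (T.par y) = _
      rw [hyp]
    rw [hc2] at hc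
    intro b
    by_cases h1 : col T s0 (Sum.inl y) = b
    · exact ⟨Sum.inl y, fun h => hyt ((inl_mem T y).mp h), h1⟩
    · refine ⟨Sum.inl s0, fun h => hs0 ((inl_mem T s0).mp h), ?_⟩
      revert h1 hc
      cases col T s0 (Sum.inl y) <;> cases col T s0 (Sum.inl s0) <;> cases b <;> simp

/-- a child of the top -/
lemma exists_child (h : ∃ y, y ≠ T.top) : ∃ q, q ≠ T.top ∧ T.par q = T.top := by
  obtain ⟨y, hy⟩ := h
  have key : ∀ (k : ℕ) (y : ι), y ≠ T.top → T.dp y ≤ k → ∃ q, q ≠ T.top ∧ T.par q = T.top := by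
    intro k
    induction k with
    | zero =>
      intro y hy h
      have := T.dp_par y hy
      omega
    | succ k ih =>
      intro y hy h
      have h1 := T.dp_par y hy
      by_cases h2 : T.par y = T.top
      · exact ⟨y, hy, h2⟩
      · exact ih _ h2 (by omega)
  exact key _ y hy le_rfl

lemma compl_RT : (RT T : Set (VT T))ᶜ = Sum.inl '' ((Finset.univ.erase T.top : Finset ι) : Set ι) := by
  ext v
  rcases v with x | q
  · rw [Set.mem_compl_iff, Finset.mem_coe, inl_mem]
    simp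
  · rw [Set.mem_compl_iff, Finset.mem_coe]
    simp [inr_mem]

lemma ncard_compl : ((RT T : Set (VT T))ᶜ).ncard = Fintype.card ι - 1 := by
  rw [compl_RT, Set.ncard_image_of_injective _ Sum.inl_injective, Set.ncard_coe_finset,
    Finset.card_erase_of_mem (Finset.mem_univ _), Finset.card_univ]

/-- edges meeting a set of non-roots -/
lemma eS_TT (A : Finset ι) : eS (TT T) (Sum.inl '' (A : Set ι)) =
    (Finset.univ.filter (fun x : ι => x ≠ T.top ∧ (x ∈ A ∨ T.par x ∈ A))).card +
      (A.filter (fun q => T.Qn q ∧ T.par q ≠ T.top)).card := by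
  have h1 := eS_PT (pa T) (u0 T) (rk T) (rk_pa T) (Sum.inl '' (A : Set ι))
  unfold TT
  rw [h1, card_ind, Fintype.sum_sum_type]
  congr 1
  · rw [card_ind]
    refine Finset.sum_congr rfl fun x _ => ?_
    refine ind_congr ?_
    constructor
    · rintro ⟨h2, h3⟩
      refine ⟨ne_inl T h2, ?_⟩
      rcases h3 with ⟨y, hy, h3⟩ | ⟨y, hy, h3⟩
      · rw [Sum.inl_injective h3] at hy
        exact Or.inl hy
      · have h4 : y = T.par x := Sum.inl_injective h3
        rw [h4] at hy
        exact Or.inr hy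
    · rintro ⟨h2, h3⟩
      refine ⟨inl_ne T h2, ?_⟩
      rcases h3 with h3 | h3
      · exact Or.inl ⟨x, h3, rfl⟩
      · exact Or.inr ⟨_, h3, rfl⟩
  · rw [← card_ind (fun q : {q : ι // T.Qn q ∧ T.par q ≠ T.top} => (Sum.inr q : VT T) ≠ u0 T ∧
      ((Sum.inr q : VT T) ∈ (Sum.inl '' (A : Set ι) : Set (VT T)) ∨
        pa T (Sum.inr q) ∈ (Sum.inl '' (A : Set ι) : Set (VT T))))]
    refine Finset.card_bij (fun q _ => q.1) ?_ ?_ ?_
    · intro q hq
      obtain ⟨_, _, h3⟩ := Finset.mem_filter.mp hq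
      refine Finset.mem_filter.mpr ⟨?_, q.2⟩
      rcases h3 with ⟨y, hy, h3⟩ | ⟨y, hy, h3⟩
      · cases h3
      · have h4 : y = q.1 := Sum.inl_injective h3
        rw [h4] at hy
        exact hy
    · intro q _ q' _ h
      exact Subtype.ext h
    · intro q hq
      obtain ⟨h2, h3⟩ := Finset.mem_filter.mp hq
      refine ⟨⟨q, h3⟩, Finset.mem_filter.mpr ⟨Finset.mem_univ _, ?_, Or.inr ⟨q, h2, rfl⟩⟩, rfl⟩
      intro h
      cases h

/-- number of edges meeting a set of non-roots, in terms of the complement -/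
lemma count (A U : Finset ι) (hA : T.top ∉ A) (hU : ∀ x, x ∈ U ↔ x ≠ T.top ∧ x ∉ A) :
    eS (TT T) (Sum.inl '' (A : Set ι)) + (U.filter (fun x => T.Qn x ∧ T.par x ∈ U)).card + U.card =
      (Finset.univ.filter (fun x : ι => x ≠ T.top)).card +
      (Finset.univ.filter (fun x : ι => T.Qn x ∧ T.par x ≠ T.top)).card +
      (U.filter (fun x => ¬ T.Qn x ∧ T.par x ∉ U)).card := by
  have k2 := card_ind (fun x : ι => x ≠ T.top ∧ (x ∈ A ∨ T.par x ∈ A))
  have k3 := card_ind' A (fun q => T.Qn q ∧ T.par q ≠ T.top)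
  have k4 := card_ind' U (fun x => T.Qn x ∧ T.par x ∈ U)
  have k5 := card_ind (fun x : ι => x ≠ T.top)
  have k6 := card_ind (fun x : ι => T.Qn x ∧ T.par x ≠ T.top)
  have k7 := card_ind' U (fun x => ¬ T.Qn x ∧ T.par x ∉ U)
  have key : (∑ x, ind (x ≠ T.top ∧ (x ∈ A ∨ T.par x ∈ A))) +
      (∑ x, ind (x ∈ A ∧ (T.Qn x ∧ T.par x ≠ T.top))) +
      (∑ x, ind (x ∈ U ∧ (T.Qn x ∧ T.par x ∈ U))) +
      (∑ x, ind (x ∈ U)) =
      (∑ x, ind (x ≠ T.top)) + (∑ x, ind (T.Qn x ∧ T.par x ≠ T.top)) +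
      (∑ x, ind (x ∈ U ∧ (¬ T.Qn x ∧ T.par x ∉ U))) := by
    rw [← Finset.sum_add_distrib, ← Finset.sum_add_distrib, ← Finset.sum_add_distrib,
      ← Finset.sum_add_distrib, ← Finset.sum_add_distrib]
    refine Finset.sum_congr rfl fun x _ => ?_
    unfold ind
    by_cases hx : x = T.top
    · subst hx
      have h1 : T.top ∉ U := fun h => ((hU _).mp h).1 rfl
      simp [hA, h1, topP T]
    · by_cases hxA : x ∈ A
      · have h1 : x ∉ U := fun h => ((hU _).mp h).2 hxA
        simp [hx, hxA, h1]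
      · have h1 : x ∈ U := (hU _).mpr ⟨hx, hxA⟩
        by_cases hp : T.par x = T.top
        · have h2 := child_qn T hx hp
          have h3 : T.top ∉ U := fun h => ((hU _).mp h).1 rfl
          simp [hx, hxA, h1, hp, h2, h3, hA]
        · by_cases hpA : T.par x ∈ A
          · have h3 : T.par x ∉ U := fun h => ((hU _).mp h).2 hpA
            by_cases hq : T.Qn x
            · simp [hx, hxA, h1, hp, hpA, h3, hq]
            · simp [hx, hxA, h1, hp, hpA, h3, hq]
          · have h3 : T.par x ∈ U := (hU _).mpr ⟨hp, hpA⟩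
            by_cases hq : T.Qn x
            · simp [hx, hxA, h1, hp, hpA, h3, hq]
            · simp [hx, hxA, h1, hp, hpA, h3, hq]
  rw [eS_TT T A, k2, k3, k4, card_ind'' U, k5, k6, k7]
  exact key

/-- blowups of the nodes give blowups of the tree -/
lemma bu_of {n : ℕ} (G : SimpleGraph (Fin n)) (t : ℕ) (ht : 0 < t) (q0 : ι) (hq0 : q0 ≠ T.top)
    (hq0t : T.par q0 = T.top) (w : Fin n)
    (h : BUat T (fun _ => G.Adj) (fun _ => G.Adj) (Finset.univ.erase T.top) (fun _ => w) t
      (fun _ => True) ∅) :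
    BUP (TT T) (RT T) t G := by
  obtain ⟨ψ, r, hb, hg, _, hinj, hr, hrr, _, _⟩ := h
  have hF : ∀ x, x ∈ Finset.univ.erase T.top ↔ x ≠ T.top := fun x => by simp
  have htop : T.top ∉ Finset.univ.erase T.top := fun h => (hF _).mp h rfl
  have hbw : ∀ q, q ≠ T.top → T.par q = T.top → r q = w := by
    intro q hq hqt
    exact hb q ((hF q).mpr hq) (by rw [hqt]; exact htop)
  have hw : r q0 = w := hbw q0 hq0 hq0t
  have hq0Q : T.Qn q0 := child_qn T hq0 hq0t
  refine BUP_of (TT T) (RT T) t G ht ?_ (Sum.elim (fun _ => w) (fun q => r q.1))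
    (fun i => Sum.elim (ψ i) (fun q => r q.1)) ?_ ?_ ?_ ?_ ?_
  · intro u hu v hv huv
    have key : ∀ v : VT T, v ≠ u0 T → v ∈ RT T → pa T v ∉ RT T := by
      intro v hv0 hv hpv
      rcases v with x | q
      · exact ne_inl T hv0 ((inl_mem T x).mp hv)
      · exact qn_ne T q.2.1 ((inl_mem T q.1).mp hpv)
    rcases (TT_adj T u v).mp huv with ⟨h1, rfl⟩ | ⟨h1, rfl⟩
    · exact key v h1 hv hu
    · exact key u h1 hu hv
  · intro i u v hu hv huv
    have key : ∀ v : VT T, v ≠ u0 T → v ∉ RT T → pa T v ∉ RT T →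
        G.Adj (Sum.elim (ψ i) (fun q => r q.1) (pa T v))
          (Sum.elim (ψ i) (fun q => r q.1) v) := by
      intro v hv0 hv hpv
      rcases v with x | q
      · have h1 : x ≠ T.top := ne_inl T hv0
        have h2 : T.par x ≠ T.top := fun h => hpv ((inl_mem T (T.par x)).mpr h)
        show G.Adj (ψ i (T.par x)) (ψ i x)
        exact (hg i).2 x ((hF x).mpr h1) ((hF _).mpr h2)
      · exact absurd (inr_mem T q) hv
    rcases (TT_adj T u v).mp huv with ⟨h1, rfl⟩ | ⟨h1, rfl⟩
    · exact key v h1 hv hu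
    · exact (key u h1 hu hv).symm
  · intro i u v hu hv huv
    rcases (TT_adj T u v).mp huv with ⟨h1, rfl⟩ | ⟨h1, rfl⟩
    · rcases v with x | q
      · exact absurd ((inl_mem T x).mp hv) (ne_inl T h1)
      · show G.Adj (ψ i q.1) (r q.1)
        exact ((hg i).1 q.1 ((hF _).mpr (qn_ne T q.2.1)) q.2.1).symm
    · rcases u with x | q
      · have h2 : x ≠ T.top := ne_inl T h1
        have h3 : T.par x = T.top := (inl_mem T (T.par x)).mp hv
        show G.Adj (ψ i x) w
        rw [← hbw x h2 h3]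
        exact ((hg i).1 x ((hF x).mpr h2) (child_qn T h2 h3)).symm
      · exact absurd (inr_mem T q) hu
  · intro u hu v hv huv
    have key : ∀ (x : ι) (q : {q : ι // T.Qn q ∧ T.par q ≠ T.top}), w = r q.1 → False := by
      intro _ q h
      have h1 := hrr q0 q.1 ((hF _).mpr hq0) ((hF _).mpr (qn_ne T q.2.1)) hq0Q q.2.1
        (by rw [hw]; exact h)
      exact q.2.2 (by rw [← h1]; exact hq0t)
    rcases u with x | q <;> rcases v with y | q'
    · rw [(inl_mem T x).mp hu, (inl_mem T y).mp hv]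
    · exact (key x q' huv).elim
    · exact (key y q huv.symm).elim
    · have h1 := hrr q.1 q'.1 ((hF _).mpr (qn_ne T q.2.1)) ((hF _).mpr (qn_ne T q'.2.1)) q.2.1
        q'.2.1 huv
      rw [Subtype.ext h1]
  · intro i u v hu hv huv
    rcases u with x | q
    · have h1 : x ≠ T.top := fun h => hu ((inl_mem T x).mpr h)
      rcases v with y | q'
      · refine hr i x q0 ((hF x).mpr h1) ((hF _).mpr hq0) hq0Q ?_
        rw [hw]
        exact huv
      · exact hr i x q'.1 ((hF x).mpr h1) ((hF _).mpr (qn_ne T q'.2.1)) q'.2.1 huv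
    · exact hu (inr_mem T q)
  · intro i j u v hu hv huv
    rcases u with x | q
    · rcases v with y | q'
      · have h1 : x ≠ T.top := fun h => hu ((inl_mem T x).mpr h)
        have h2 : y ≠ T.top := fun h => hv ((inl_mem T y).mpr h)
        obtain ⟨h3, h4⟩ := hinj i j x y ((hF x).mpr h1) ((hF y).mpr h2) huv
        exact ⟨h3, by rw [h4]⟩
      · exact absurd (inr_mem T q') hv
    · exact absurd (inr_mem T q) hu

lemma arith (a p A u fr pi E : ℕ) (h1 : E + fr + u = a + p + pi) (h2 : A + u = a)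
    (h3 : a * fr ≤ p * u + a * pi) : (a + p) * A ≤ a * E := by
  have e1 : a * E + a * fr + a * u = a * (a + p) + a * pi := by
    rw [← mul_add, ← mul_add, h1]
    ring
  have e2 : (a + p) * A + (a + p) * u = (a + p) * a := by
    rw [← mul_add, h2]
  have e3 : (a + p) * u = a * u + p * u := by ring
  have e4 : (a + p) * a = a * (a + p) := by ring
  omega

end

end Pool.Agent.TH476.KK.KGtd

namespace Pool.Agent.TH476.KK

open Pool.Agent.TH476 Pool.Agent.W979.TE Pool.Agent.W979.TE4 Pool.Agent.W979.TE5 KGtd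

theorem gtd_holds : S_GTD := by
  intro hmain k hk ι _ T a p ha hp hcard hCn hQ hbal
  have hne : ∃ y, y ≠ T.top := by
    obtain ⟨x, hx⟩ := hCn
    exact ⟨x, fun h => T.top_C (h ▸ hx)⟩
  obtain ⟨q0, hq0, hq0t⟩ := exists_child T hne
  have hq0Q : T.Qn q0 := child_qn T hq0 hq0t
  have hT1 : (Finset.univ.erase T.top).card = a := by
    rw [Finset.card_erase_of_mem (Finset.mem_univ _), Finset.card_univ, hcard]
    omega
  have hy : ∃ y, y ≠ T.top ∧ y ≠ q0 := by
    by_contra hcon
    push Not at hcon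
    have h1 : (Finset.univ.erase T.top) ⊆ {q0} := by
      intro y hy
      rw [Finset.mem_singleton]
      exact hcon y (Finset.mem_erase.1 hy).1
    have h2 := Finset.card_le_card h1
    rw [hT1, Finset.card_singleton] at h2
    omega
  have hT : (Finset.univ.filter (fun x : ι => x ≠ T.top)).card = a := by
    rw [Finset.filter_ne', hT1]
  have hQ1 : (Finset.univ.filter (fun x : ι => T.Qn x ∧ T.par x ≠ T.top)).card = p := by
    have h1 : (Finset.univ.filter (fun x : ι => T.Qn x ∧ T.par x ≠ T.top)) =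
        (Finset.univ.filter (fun x : ι => T.Qn x)).erase q0 := by
      ext x
      simp only [Finset.mem_filter, Finset.mem_univ, true_and, Finset.mem_erase]
      constructor
      · rintro ⟨h1, h2⟩
        refine ⟨?_, h1⟩
        rintro rfl
        exact h2 hq0t
      · rintro ⟨h1, h2⟩
        refine ⟨h2, fun h3 => h1 ?_⟩
        exact T.top1 x q0 (qn_ne T h2) hq0 h3 hq0t
    rw [h1, Finset.card_erase_of_mem (Finset.mem_filter.mpr ⟨Finset.mem_univ _, hq0Q⟩), hQ]
    rfl
  refine ⟨VT T, inferInstance, TT T, (RT T : Set (VT T)), col T q0,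
    gadm T hk q0 hq0 hq0t hy, ?_, ?_, ?_, ?_⟩
  · rw [ncard_compl, hcard]
    omega
  · rw [compl_RT]
    have h1 := count T (Finset.univ.erase T.top) ∅ (fun h => (Finset.mem_erase.mp h).1 rfl)
      (fun x => by simp)
    rw [hT, hQ1] at h1
    simp only [Finset.filter_empty, Finset.card_empty, add_zero] at h1
    exact h1
  · intro S' hS'
    obtain ⟨A, hAdef⟩ : ∃ A : Finset ι, A = Finset.univ.filter (fun x => (Sum.inl x : VT T) ∈ S') :=
      ⟨_, rfl⟩
    have hmem : ∀ x, x ∈ A ↔ (Sum.inl x : VT T) ∈ S' := fun x => by rw [hAdef]; simp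
    have hA : T.top ∉ A := fun h => hS' ((hmem _).mp h) ((inl_mem T T.top).mpr rfl)
    have hS2 : S' = Sum.inl '' (A : Set ι) := by
      ext v
      rcases v with x | q
      · constructor
        · intro hv
          exact ⟨x, (hmem x).mpr hv, rfl⟩
        · rintro ⟨y, hy, h1⟩
          rw [← h1]
          exact (hmem y).mp hy
      · constructor
        · intro hv
          exact absurd (inr_mem T q) (hS' hv)
        · rintro ⟨y, hy, h1⟩
          cases h1
    have hU : ∀ x, x ∈ (Finset.univ.erase T.top) \ A ↔ x ≠ T.top ∧ x ∉ A := fun x => by simp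
    have h1 := count T A ((Finset.univ.erase T.top) \ A) hA hU
    rw [hT, hQ1] at h1
    have h2 : A.card + ((Finset.univ.erase T.top) \ A).card = a := by
      rw [← hT1, add_comm]
      refine Finset.card_sdiff_add_card_eq_card ?_
      intro x hx
      exact Finset.mem_erase.mpr ⟨fun h => hA (h ▸ hx), Finset.mem_univ _⟩
    have h3 := hbal ((Finset.univ.erase T.top) \ A) (fun h => ((hU _).mp h).1 rfl)
    rw [hS2, Set.ncard_image_of_injective _ Sum.inl_injective, Set.ncard_coe_finset]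
    exact arith a p _ _ _ _ _ h1 h2 h3
  · intro t ht
    have hF : ∀ U : Finset ι, AdmF T U → a * frc T U ≤ p * U.card := by
      intro U hU
      have h1 := hbal U hU.1
      have h2 : (U.filter (fun x => ¬ T.Qn x ∧ T.par x ∉ U)) = ∅ := by
        refine Finset.filter_eq_empty_iff.mpr ?_
        rintro x hx ⟨h3, h4⟩
        exact h4 (hU.2 x hx (fun h5 => h3 (Or.inl h5)))
      rw [h2, Finset.card_empty, mul_zero, add_zero] at h1
      exact h1
    obtain ⟨C, hC⟩ := hmain k hk ι T a p hp hcard hCn hQ hF t ht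
    refine ⟨C, fun n G hG => ?_⟩
    rw [one_div_div]
    refine hC n G ?_
    rintro ⟨w, hw⟩
    exact hG (hasBU_of_rich (TT T) (RT T) t G (bu_of T G t ht q0 hq0 hq0t w hw))

end Pool.Agent.TH476.KK
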