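import Pool.Agent.TH476.KStm2

set_option autoImplicit false

open Classical

namespace Pool.Agent.TH476.KK.KIsb

open Pool.Agent.TH476 Pool.Agent.TH476.KK

variable {V : Type}

lemma pthV_congr (G : SimpleGraph V) (B B' : ℕ → V → V → Prop) (j : ℕ)
    (h : ∀ i, i < j → ∀ x y, (B i x y ↔ B' i x y)) (p : ℕ → V) (hp : PthV G B j p) :
    PthV G B' j p := by
  refine ⟨hp.1, hp.2.1, ?_⟩
  intro a b hab hb h2 hlt hB
  exact hp.2.2 a b hab hb h2 hlt ((h (b - a) hlt _ _).2 hB)

lemma disj_congr (G : SimpleGraph V) (B B' : ℕ → V → V → Prop) (j M : ℕ)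
    (h : ∀ i, i < j → ∀ x y, (B i x y ↔ B' i x y)) (x y : V) (hd : Disj G B j M x y) :
    Disj G B' j M x y := by
  obtain ⟨P, hP, hD⟩ := hd
  exact ⟨P, fun l => ⟨(hP l).1, (hP l).2.1, pthV_congr G B B' j h _ (hP l).2.2⟩, hD⟩

/-- the family of pairs, by recursion on the length -/
noncomputable def Bf (G : SimpleGraph V) (k : ℕ) (L : ℕ → ℕ) (j : ℕ) : V → V → Prop :=
  fun x y => 2 ≤ j ∧ j ≤ k + 1 ∧
    Disj G (fun i a b => if _h : i < j then Bf G k L i a b else False) j (L j) x y
termination_by j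

lemma bf_isB (G : SimpleGraph V) (k : ℕ) (L : ℕ → ℕ) : IsB G k L (Bf G k L) := by
  intro j x y
  have e : Bf G k L j x y ↔ (2 ≤ j ∧ j ≤ k + 1 ∧
      Disj G (fun i a b => if _h : i < j then Bf G k L i a b else False) j (L j) x y) := by
    rw [Bf]
  rw [e]
  constructor
  · rintro ⟨h1, h2, h3⟩
    refine ⟨h1, h2, disj_congr G _ _ j (L j) ?_ x y h3⟩
    intro i hi a b
    simp [hi]
  · rintro ⟨h1, h2, h3⟩
    refine ⟨h1, h2, disj_congr G _ _ j (L j) ?_ x y h3⟩
    intro i hi a b
    simp [hi]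

lemma pthV_rev (G : SimpleGraph V) (B : ℕ → V → V → Prop) (j : ℕ)
    (h : ∀ i, i < j → ∀ x y, B i x y → B i y x) (p : ℕ → V) (hp : PthV G B j p) :
    PthV G B j (fun i => p (j - i)) := by
  refine ⟨?_, ?_, ?_⟩
  · intro i hi
    have h1 := hp.1 (j - (i + 1)) (by omega)
    have e : j - (i + 1) + 1 = j - i := by omega
    rw [e] at h1
    exact h1.symm
  · intro i i' hi hi' he
    have := hp.2.1 (j - i) (j - i') (by omega) (by omega) he
    omega
  · intro a b hab hb h2 hlt hB
    have e : (j - a) - (j - b) = b - a := by omega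
    refine hp.2.2 (j - b) (j - a) (by omega) (by omega) (by omega) (by omega) ?_
    rw [e]
    exact h (b - a) hlt _ _ hB

lemma disj_symm (G : SimpleGraph V) (B : ℕ → V → V → Prop) (j M : ℕ)
    (h : ∀ i, i < j → ∀ x y, B i x y → B i y x) (x y : V) (hd : Disj G B j M x y) :
    Disj G B j M y x := by
  obtain ⟨P, hP, hD⟩ := hd
  refine ⟨fun l i => P l (j - i), ?_, ?_⟩
  · intro l
    refine ⟨?_, ?_, pthV_rev G B j h _ (hP l).2.2⟩
    · show P l (j - 0) = y
      rw [Nat.sub_zero]; exact (hP l).2.1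
    · show P l (j - j) = x
      rw [Nat.sub_self]; exact (hP l).1
  · intro l l' i i' hll hi1 hi hi1' hi'
    exact hD l l' (j - i) (j - i') hll (by omega) (by omega) (by omega) (by omega)

lemma isB_symm (G : SimpleGraph V) (k : ℕ) (L : ℕ → ℕ) (B : ℕ → V → V → Prop)
    (hB : IsB G k L B) : BSy B := by
  intro j
  induction j using Nat.strong_induction_on with
  | _ j ih =>
    intro x y h
    obtain ⟨h1, h2, h3⟩ := (hB j x y).1 h
    exact (hB j y x).2 ⟨h1, h2, disj_symm G B j (L j) ih x y h3⟩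

lemma ex_apply (j : ℕ) (p : Fin (j + 1) → V) (i : ℕ) (hi : i ≤ j) :
    ex j p i = p ⟨i, Nat.lt_succ_of_le hi⟩ := by
  unfold ex
  congr 1
  exact Fin.ext (Nat.min_eq_left hi)

/-- light paths of length j from x to y -/
def LP (G : SimpleGraph V) (B : ℕ → V → V → Prop) (j : ℕ) (x y : V) (p : Fin (j + 1) → V) :
    Prop :=
  PthV G B j (ex j p) ∧ (2 ≤ j → ¬ B j x y) ∧ ex j p 0 = x ∧ ex j p j = y

lemma pthV_sub (G : SimpleGraph V) (B : ℕ → V → V → Prop) (j : ℕ) (p : ℕ → V)
    (hp : PthV G B j p) (s t : ℕ) (hs : s + t ≤ j) (ht : t < j) :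
    PthV G B t (fun i => p (s + i)) ∧ (2 ≤ t → ¬ B t (p s) (p (s + t))) := by
  refine ⟨⟨?_, ?_, ?_⟩, ?_⟩
  · intro i hi
    exact hp.1 (s + i) (by omega)
  · intro i i' hi hi' he
    have := hp.2.1 (s + i) (s + i') (by omega) (by omega) he
    omega
  · intro a b hab hb h2 hlt hB
    have e : (s + b) - (s + a) = b - a := by omega
    refine hp.2.2 (s + a) (s + b) (by omega) (by omega) (by omega) (by omega) ?_
    rw [e]
    exact hB
  · intro h2 hB
    have e : (s + t) - s = t := by omega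
    refine hp.2.2 s (s + t) (by omega) hs (by omega) (by omega) ?_
    rw [e]
    exact hB

lemma pthV_ext (G : SimpleGraph V) (B : ℕ → V → V → Prop) (j : ℕ) (p p' : ℕ → V)
    (h : ∀ i, i ≤ j → p i = p' i) (hp : PthV G B j p) : PthV G B j p' := by
  refine ⟨?_, ?_, ?_⟩
  · intro i hi
    rw [← h i (by omega), ← h (i + 1) (by omega)]
    exact hp.1 i hi
  · intro i i' hi hi' he
    rw [← h i hi, ← h i' hi'] at he
    exact hp.2.1 i i' hi hi' he
  · intro a b hab hb h2 hlt
    rw [← h a (by omega), ← h b hb]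
    exact hp.2.2 a b hab hb h2 hlt

/-- counting paths through a given inner vertex -/
lemma split_card [Fintype V] (G : SimpleGraph V) (B : ℕ → V → V → Prop) (i m : ℕ)
    (hi : 1 ≤ i) (hm : 1 ≤ m) (x y c : V) (g1 g2 : ℕ)
    (h1 : (Finset.univ.filter (fun p => LP G B i x c p)).card ≤ g1)
    (h2 : (Finset.univ.filter (fun p => LP G B m c y p)).card ≤ g2) :
    (Finset.univ.filter (fun p : Fin (i + m + 1) → V => PthV G B (i + m) (ex (i + m) p) ∧
      ex (i + m) p 0 = x ∧ ex (i + m) p (i + m) = y ∧ ex (i + m) p i = c)).card ≤ g1 * g2 := by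
  refine le_trans ?_ (Nat.mul_le_mul h1 h2)
  rw [← Finset.card_product]
  refine Finset.card_le_card_of_injOn
    (fun p => ((fun a : Fin (i + 1) => p ⟨a.1, by omega⟩),
      (fun a : Fin (m + 1) => p ⟨i + a.1, by omega⟩))) ?_ ?_
  · intro p hp
    have hp' := (Finset.mem_filter.1 (Finset.mem_coe.1 hp)).2
    obtain ⟨hP, h0, hj, hc⟩ := hp'
    have key1 : ∀ a, a ≤ i → ex i (fun a : Fin (i + 1) => p ⟨a.1, by omega⟩) a =
        ex (i + m) p a := by
      intro a ha
      rw [ex_apply _ _ _ ha, ex_apply _ _ _ (by omega)]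
    have key2 : ∀ a, a ≤ m → ex m (fun a : Fin (m + 1) => p ⟨i + a.1, by omega⟩) a =
        ex (i + m) p (i + a) := by
      intro a ha
      rw [ex_apply _ _ _ ha, ex_apply _ _ _ (by omega)]
    have s1 := pthV_sub G B (i + m) _ hP 0 i (by omega) (by omega)
    have s2 := pthV_sub G B (i + m) _ hP i m (by omega) (by omega)
    refine Finset.mem_coe.2 (Finset.mem_product.2 ⟨?_, ?_⟩)
    · refine Finset.mem_filter.2 ⟨Finset.mem_univ _, ?_, ?_, ?_, ?_⟩
      · refine pthV_ext G B i _ _ ?_ s1.1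
        intro a ha
        rw [key1 a ha, Nat.zero_add]
      · intro h2 hB
        refine s1.2 h2 ?_
        rw [Nat.zero_add, h0, hc]
        exact hB
      · rw [key1 0 (Nat.zero_le _), h0]
      · rw [key1 i le_rfl, hc]
    · refine Finset.mem_filter.2 ⟨Finset.mem_univ _, ?_, ?_, ?_, ?_⟩
      · refine pthV_ext G B m _ _ ?_ s2.1
        intro a ha
        rw [key2 a ha]
      · intro h2 hB
        refine s2.2 h2 ?_
        rw [hc, hj]
        exact hB
      · rw [key2 0 (Nat.zero_le _), Nat.add_zero, hc]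
      · rw [key2 m le_rfl, hj]
  · intro p _ p' _ he
    have e1 := congrArg Prod.fst he
    have e2 := congrArg Prod.snd he
    funext a
    by_cases ha : a.1 ≤ i
    · exact congrFun e1 ⟨a.1, by omega⟩
    · have h3 := congrFun e2 ⟨a.1 - i, by omega⟩
      have e : (⟨i + (a.1 - i), by omega⟩ : Fin (i + m + 1)) = a := Fin.ext (by
        show i + (a.1 - i) = a.1
        omega)
      have h4 : p ⟨i + (a.1 - i), by omega⟩ = p' ⟨i + (a.1 - i), by omega⟩ := h3
      rw [e] at h4
      exact h4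

lemma split_card' [Fintype V] (G : SimpleGraph V) (B : ℕ → V → V → Prop) (j i m : ℕ)
    (hj : j = i + m) (hi : 1 ≤ i) (hm : 1 ≤ m) (x y c : V) (g1 g2 : ℕ)
    (h1 : (Finset.univ.filter (fun p => LP G B i x c p)).card ≤ g1)
    (h2 : (Finset.univ.filter (fun p => LP G B m c y p)).card ≤ g2) :
    (Finset.univ.filter (fun p : Fin (j + 1) → V => PthV G B j (ex j p) ∧
      ex j p 0 = x ∧ ex j p j = y ∧ ex j p i = c)).card ≤ g1 * g2 := by
  subst hj
  exact split_card G B i m hi hm x y c g1 g2 h1 h2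

/-- the bound -/
def gb (L : ℕ → ℕ) : ℕ → ℕ
  | 0 => 1
  | (j + 1) => gb L j + (j + 1) * (L (j + 1) * (j + 1)) * (gb L j * gb L j)

lemma gb_mono (L : ℕ → ℕ) {i j : ℕ} (h : i ≤ j) : gb L i ≤ gb L j := by
  induction h with
  | refl => exact le_rfl
  | step _ ih =>
    rename_i m _
    refine ih.trans ?_
    show gb L m ≤ gb L m + _
    exact Nat.le_add_right _ _

lemma gb_congr (L L' : ℕ → ℕ) (j : ℕ) (h : ∀ i, i ≤ j → L' i = L i) : gb L' j = gb L j := by
  induction j with
  | zero => rfl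
  | succ m ih =>
    show gb L' m + (m + 1) * (L' (m + 1) * (m + 1)) * (gb L' m * gb L' m) =
      gb L m + (m + 1) * (L (m + 1) * (m + 1)) * (gb L m * gb L m)
    rw [ih (fun i hi => h i (by omega)), h (m + 1) le_rfl]

/-- a maximal disjoint family -/
lemma exists_max (G : SimpleGraph V) (B : ℕ → V → V → Prop) (j n : ℕ) (x y : V)
    (h : ¬ Disj G B j n x y) : ∃ M, M < n ∧ Disj G B j M x y ∧ ¬ Disj G B j (M + 1) x y := by
  induction n with
  | zero =>
    exfalso
    exact h ⟨fun l => l.elim0, fun l => l.elim0, fun l => l.elim0⟩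
  | succ n ih =>
    by_cases hn : Disj G B j n x y
    · exact ⟨n, Nat.lt_succ_self n, hn, h⟩
    · obtain ⟨M, h1, h2, h3⟩ := ih hn
      exact ⟨M, by omega, h2, h3⟩

/-- a path meets a maximal disjoint family -/
lemma meets (G : SimpleGraph V) (B : ℕ → V → V → Prop) (j M : ℕ) (x y : V)
    (P : Fin M → ℕ → V) (hP : ∀ l, P l 0 = x ∧ P l j = y ∧ PthV G B j (P l))
    (hD : ∀ l l' i i', l ≠ l' → 1 ≤ i → i < j → 1 ≤ i' → i' < j → P l i ≠ P l' i')
    (hM : ¬ Disj G B j (M + 1) x y) (p : ℕ → V) (h0 : p 0 = x) (hj : p j = y)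
    (hp : PthV G B j p) : ∃ i, 1 ≤ i ∧ i < j ∧ ∃ l i', 1 ≤ i' ∧ i' < j ∧ p i = P l i' := by
  by_contra hcon
  push Not at hcon
  apply hM
  refine ⟨Fin.cases p P, ?_, ?_⟩
  · intro l
    refine Fin.cases ?_ ?_ l
    · exact ⟨h0, hj, hp⟩
    · intro l'
      exact hP l'
  · intro l l' i i' hll hi1 hi hi1' hi'
    revert hll
    refine Fin.cases ?_ ?_ l
    · refine Fin.cases ?_ ?_ l'
      · intro h; exact absurd rfl h
      · intro l2 _
        exact hcon i hi1 hi l2 i' hi1' hi'
    · intro l1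
      refine Fin.cases ?_ ?_ l'
      · intro _ he
        exact hcon i' hi1' hi' l1 i hi1 hi he.symm
      · intro l2 h
        exact hD l1 l2 i i' (fun h' => h (congrArg Fin.succ h')) hi1 hi hi1' hi'

lemma main [Fintype V] (G : SimpleGraph V) (k : ℕ) (L : ℕ → ℕ) (B : ℕ → V → V → Prop)
    (hB : IsB G k L B) (j : ℕ) (hj1 : 1 ≤ j) (hj : j ≤ k + 1) :
    ∀ x y, (Finset.univ.filter (fun p => LP G B j x y p)).card ≤ gb L j := by
  induction j using Nat.strong_induction_on with
  | _ j ih =>
    intro x y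
    rcases Nat.lt_or_ge j 2 with h2 | h2
    · have e : j = 1 := by omega
      subst e
      have h1 : (Finset.univ.filter (fun p => LP G B 1 x y p)).card ≤ 1 := by
        rw [Finset.card_le_one]
        intro p hp p' hp'
        have q := (Finset.mem_filter.1 hp).2
        have q' := (Finset.mem_filter.1 hp').2
        have a0 : p 0 = p' 0 := by
          have e1 := q.2.2.1
          have e2 := q'.2.2.1
          rw [ex_apply _ _ _ (Nat.zero_le _)] at e1 e2
          exact e1.trans e2.symm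
        have a1 : p 1 = p' 1 := by
          have e1 := q.2.2.2
          have e2 := q'.2.2.2
          rw [ex_apply _ _ _ le_rfl] at e1 e2
          exact e1.trans e2.symm
        funext a
        fin_cases a
        · exact a0
        · exact a1
      exact h1.trans (gb_mono L (Nat.zero_le 1) : gb L 0 ≤ gb L 1)
    · by_cases hBj : B j x y
      · have e : (Finset.univ.filter (fun p => LP G B j x y p)) = ∅ := by
          rw [Finset.filter_eq_empty_iff]
          intro p _ hp
          exact hp.2.1 h2 hBj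
        rw [e]
        exact Nat.zero_le _
      · have hnd : ¬ Disj G B j (L j) x y := fun h => hBj ((hB j x y).2 ⟨h2, hj, h⟩)
        obtain ⟨M, hML, ⟨P, hP, hD⟩, hmax⟩ := exists_max G B j (L j) x y hnd
        obtain ⟨m, rfl⟩ : ∃ m, j = m + 1 := ⟨j - 1, by omega⟩
        have hsub : (Finset.univ.filter (fun p => LP G B (m + 1) x y p)) ⊆
            (((Finset.range (m + 1)) ×ˢ ((Finset.univ : Finset (Fin M)) ×ˢ
              (Finset.range (m + 1)))).biUnion (fun t =>
              Finset.univ.filter (fun p : Fin (m + 1 + 1) → V =>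
                (1 ≤ t.1 ∧ t.1 < m + 1) ∧ PthV G B (m + 1) (ex (m + 1) p) ∧
                ex (m + 1) p 0 = x ∧ ex (m + 1) p (m + 1) = y ∧
                ex (m + 1) p t.1 = P t.2.1 t.2.2))) := by
          intro p hp
          have q := (Finset.mem_filter.1 hp).2
          obtain ⟨i, hi1, hi, l, i', hi1', hi', he⟩ := meets G B (m + 1) M x y P hP hD hmax
            (ex (m + 1) p) q.2.2.1 q.2.2.2 q.1
          refine Finset.mem_biUnion.2 ⟨(i, (l, i')), ?_, ?_⟩
          · exact Finset.mem_product.2 ⟨Finset.mem_range.2 hi, Finset.mem_product.2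
              ⟨Finset.mem_univ _, Finset.mem_range.2 hi'⟩⟩
          · exact Finset.mem_filter.2 ⟨Finset.mem_univ _, ⟨hi1, hi⟩, q.1, q.2.2.1, q.2.2.2, he⟩
        have hbu := (Finset.card_le_card hsub).trans
          (Finset.card_biUnion_le_card_mul _ _ (gb L m * gb L m) ?_)
        · refine hbu.trans ?_
          rw [Finset.card_product, Finset.card_product, Finset.card_range, Finset.card_univ,
            Fintype.card_fin]
          show (m + 1) * (M * (m + 1)) * (gb L m * gb L m) ≤
            gb L m + (m + 1) * (L (m + 1) * (m + 1)) * (gb L m * gb L m)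
          refine le_trans ?_ (Nat.le_add_left _ _)
          refine Nat.mul_le_mul_right _ (Nat.mul_le_mul_left _ (Nat.mul_le_mul_right _ hML.le))
        · intro t _
          by_cases ht : 1 ≤ t.1 ∧ t.1 < m + 1
          · obtain ⟨n, hn⟩ : ∃ n, m + 1 = t.1 + n := ⟨m + 1 - t.1, by omega⟩
            have hn1 : 1 ≤ n := by omega
            have r1 := ih t.1 ht.2 ht.1 (by omega) x (P t.2.1 t.2.2)
            have r2 := ih n (by omega) hn1 (by omega) (P t.2.1 t.2.2) y
            have r1' := r1.trans (gb_mono L (by omega : t.1 ≤ m))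
            have r2' := r2.trans (gb_mono L (by omega : n ≤ m))
            have sc := split_card' G B (m + 1) t.1 n hn ht.1 hn1 x y (P t.2.1 t.2.2) _ _ r1' r2'
            refine (Finset.card_le_card ?_).trans sc
            intro p hp
            have q := (Finset.mem_filter.1 hp).2
            exact Finset.mem_filter.2 ⟨Finset.mem_univ _, q.2⟩
          · have e : (Finset.univ.filter (fun p : Fin (m + 1 + 1) → V =>
                (1 ≤ t.1 ∧ t.1 < m + 1) ∧ PthV G B (m + 1) (ex (m + 1) p) ∧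
                ex (m + 1) p 0 = x ∧ ex (m + 1) p (m + 1) = y ∧
                ex (m + 1) p t.1 = P t.2.1 t.2.2)) = ∅ := by
              rw [Finset.filter_eq_empty_iff]
              intro p _ hp
              exact ht hp.1
            rw [e]
            exact Nat.zero_le _

end Pool.Agent.TH476.KK.KIsb

namespace Pool.Agent.TH476.KK

open Pool.Agent.TH476

theorem isb_holds : S_ISB := by
  intro V G k L
  exact ⟨KIsb.Bf G k L, KIsb.bf_isB G k L, KIsb.isB_symm G k L _ (KIsb.bf_isB G k L)⟩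

theorem bnd_holds : S_BND := by
  intro k l L hl
  refine ⟨KIsb.gb L l, ?_⟩
  intro L' hL' V _ G B hB j hj1 hj x y
  have h1 := KIsb.main G k L' B hB j hj1 (by omega) x y
  have e : KIsb.gb L' j = KIsb.gb L j := KIsb.gb_congr L L' j (fun i hi => hL' i (by omega))
  rw [e] at h1
  refine le_trans (Finset.card_le_card ?_) (h1.trans (KIsb.gb_mono L hj.le))
  intro p hp
  exact Finset.mem_filter.2 ⟨Finset.mem_univ _, (Finset.mem_filter.1 hp).2⟩

end Pool.Agent.TH476.KK
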