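import Pool.Agent.TH476.KEnd1
import Pool.Agent.TH476.KIsb
import Pool.Agent.TH667.KExt

set_option autoImplicit false

open Classical Asymptotics Filter

namespace Pool.Agent.TH476.KK

theorem main_holds : S_MAIN := main_of Pool.Agent.TH667.KK.ext_holds isb_holds bnd_holds

/-- all rational exponents between 1 and 2 -/
theorem rational_exponents : ∀ p q : ℕ, 0 < p → p < q →
      ∃ k : ℕ, ∃ H : SimpleGraph (Fin k), H.Colorable 2 ∧
        (fun n : ℕ => (SimpleGraph.extremalNumber n H : ℝ)) =Θ[atTop]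
          (fun n : ℕ => (n : ℝ) ^ (1 + (p : ℝ) / (q : ℝ))) :=
  rat_of Pool.Agent.TH667.KK.ext_holds isb_holds bnd_holds

end Pool.Agent.TH476.KK
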