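import Pool.Agent.TH476.KStm

set_option autoImplicit false

open Classical

namespace Pool.Agent.TH476.KK

open Pool.Agent.TH476 Pool.Agent.W979.TE Pool.Agent.W979.TE4 Pool.Agent.W979.TE5

/-- few rich walks -/
def Few {V : Type} [Fintype V] (G : SimpleGraph V) (k : ℕ) (B : ℕ → V → V → Prop)
    (He : V → V → Prop) (Q' D : ℕ) : Prop :=
  ∀ j, 2 ≤ j → j ≤ k + 1 → (RCs G B j).card * Q' ≤ Fintype.card V * D ^ j ∨
    (j % 2 = 1 ∧ (RCh G B He j).card * Q' ≤ Fintype.card V * D ^ j)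

/-- the main claim on families of copies -/
def S_CLAIM : Prop := ∀ (k : ℕ), 1 ≤ k → ∀ (ι : Type) [Fintype ι] (T : TE k ι) (K : ℕ), 0 < K →
    ∀ Q : ℕ, 0 < Q → ∃ Q' : ℕ, 0 < Q' ∧ ∀ L ζ L1 : ℕ, 0 < L → ∃ C : ℕ,
    ∀ (U F : Finset ι), AncC T U → FreeC T U → F ⊆ U → AdmF T F →
    (∀ x ∈ U, x ≠ T.top → T.par x ∈ F → x ∈ F) →
    ∀ (V : Type) [Fintype V] [Nonempty V] (G : SimpleGraph V) (D : ℕ), AR G D K →
    CntH T C (Fintype.card V) D →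
    ∀ (E Rt : ι → V → V → Prop), RSok T G E Rt → ∀ B : ℕ → V → V → Prop, BSy B →
    BSp G k L1 B → ∀ (v0 : V) (Ω : Type) (b : Ω → ι → V)
    (Γ : Ω → (ι → V) → Prop) (Ωs : Finset Ω) (S : ℕ), 0 < S →
    (∀ q ∈ F, T.par q ∉ F → ∀ w, (Ωs.filter (fun ω => b ω q = w)).card ≤ S) →
    ∀ 𝓟 : Finset (Ω × (ι ⊕ ι → V)),
    (∀ p ∈ 𝓟, p.1 ∈ Ωs ∧ Fam T G E Rt B v0 F (b p.1) (Γ p.1) p.2) →
    Fintype.card V * S * D ^ (FC T F).card ≤ Q * 𝓟.card →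
    (∃ u ∈ F, ¬ T.Cn u ∧ T.Cn (T.par u) ∧ Fintype.card V ≤
      Q' * (Finset.univ.filter (fun w => PopW T E Rt (Dsc T U u) u L ζ Q' D w)).card) ∨
    Fintype.card V * S ≤
      Q' * (Ωs.filter (fun ω => ∀ Z : Finset V, Z.card ≤ ζ → BUat T E Rt F (b ω) L (Γ ω) Z)).card

/-- pruning layered relations -/
def S_PRN : Prop := ∀ k K : ℕ, 0 < K → ∀ Q : ℕ, 0 < Q → ∃ Q' : ℕ, 0 < Q' ∧
    ∀ (V : Type) [Fintype V] [Nonempty V] (G : SimpleGraph V) (D : ℕ), AR G D K → 0 < D →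
    ∀ (He : V → V → Prop) (R : ℕ → V → V → Prop), Hst G He k R →
    Fintype.card V * D ^ (k + 1) ≤ Q * WW k R →
    ∃ (R' : ℕ → V → V → Prop) (m : ℕ), (∀ i a b, R' i a b → R i a b) ∧ MinD k R' m ∧
      D ≤ Q' * m ∧ Fintype.card V * D ^ (k + 1) ≤ Q' * WW k R'

/-- dense host relations give dense layered relations -/
def S_DEN : Prop := ∀ k K : ℕ, 0 < K → ∀ Q : ℕ, 0 < Q → ∃ Q' : ℕ, 0 < Q' ∧
    ∀ (V : Type) [Fintype V] [Nonempty V] (G : SimpleGraph V) (D : ℕ), AR G D K → 0 < D →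
    ∀ (He : V → V → Prop), (∀ a b, He a b → G.Adj a b) →
    Fintype.card V * D ≤ Q * gc He → ∃ R : ℕ → V → V → Prop, Hst G He k R ∧
      Fintype.card V * D ^ (k + 1) ≤ Q' * WW k R

/-- the initial family -/
def S_INIT : Prop := ∀ (k : ℕ), 1 ≤ k → ∀ (ι : Type) [Fintype ι] (T : TE k ι) (K : ℕ), 0 < K →
    ∀ Q : ℕ, 0 < Q → ∃ Q' D0 : ℕ, 0 < Q' ∧
    ∀ (U : Finset ι), AncC T U → ∀ (V : Type) [Fintype V] [Nonempty V] (G : SimpleGraph V)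
    (D : ℕ), AR G D K → D0 ≤ D → ∀ (He : V → V → Prop) (R : ℕ → V → V → Prop),
    Hst G He k R → ∀ m : ℕ, MinD k R m → D ≤ Q * m →
    Fintype.card V * D ^ (k + 1) ≤ Q * WW k R → ∀ B : ℕ → V → V → Prop, BSy B →
    Few G k B He Q' D → ∀ v0 : V,
    ∃ 𝓟 : Finset (V × (ι ⊕ ι → V)), (∀ p ∈ 𝓟, Fam T G (ER T R) (RR T R) B v0 (U.erase T.top)
      (fun _ => p.1) (fun _ => True) p.2) ∧
    Fintype.card V * D ^ (FC T (U.erase T.top)).card ≤ Q' * 𝓟.card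

/-- from popular vertices to a smaller tree -/
def S_RED : Prop := ∀ (k : ℕ), 1 ≤ k → ∀ (ι : Type) [Fintype ι] (T : TE k ι) (K : ℕ), 0 < K →
    ∀ L : ℕ, 0 < L → ∀ Q : ℕ, 0 < Q → ∃ L' ζ' Q'' : ℕ, L ≤ L' ∧ 0 < Q'' ∧
    ∀ (U : Finset ι) (u : ι), AncC T U → u ∈ U → u ≠ T.top → ¬ T.Cn u → T.Cn (T.par u) →
    ∀ (V : Type) [Fintype V] [Nonempty V] (G : SimpleGraph V) (D : ℕ), AR G D K → 0 < D →
    ∀ (He : V → V → Prop) (R : ℕ → V → V → Prop), Hst G He k R → ∀ m : ℕ, MinD k R m →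
    D ≤ Q * m → Fintype.card V ≤ Q * (Finset.univ.filter (fun w =>
      PopW T (ER T R) (RR T R) (Dsc T U u) u L' ζ' Q D w)).card →
    ∃ R' : ℕ → V → V → Prop, (∀ i a b, R' i a b → R i a b) ∧
      Fintype.card V * D ^ (k + 1) ≤ Q'' * WW k R' ∧
      ∀ w, BUat T (ER T R') (RR T R') ((U \ Dsc T U u).erase T.top) (fun _ => w) L
          (fun _ => True) ∅ →
        BUat T (ER T R) (RR T R) (U.erase T.top) (fun _ => w) L (fun _ => True) ∅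

/-- blowups in dense layered relations with few rich walks -/
def S_IND : Prop := ∀ (k : ℕ), 1 ≤ k → ∀ (ι : Type) [Fintype ι] (T : TE k ι) (K : ℕ), 0 < K →
    ∀ n Q L : ℕ, 0 < Q → 0 < L → ∃ Q' : ℕ, 0 < Q' ∧ ∀ L1 : ℕ, ∃ C : ℕ,
    ∀ (U : Finset ι), U.card ≤ n → T.top ∈ U → AncC T U → FreeC T U →
    ∀ (V : Type) [Fintype V] [Nonempty V] (G : SimpleGraph V) (D : ℕ), AR G D K →
    C ≤ D → CntH T C (Fintype.card V) D → ∀ (He : V → V → Prop) (R : ℕ → V → V → Prop),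
    Hst G He k R → Fintype.card V * D ^ (k + 1) ≤ Q * WW k R → ∀ B : ℕ → V → V → Prop, BSy B →
    BSp G k L1 B → Few G k B He Q' D →
    ∃ w, BUat T (ER T R) (RR T R) (U.erase T.top) (fun _ => w) L (fun _ => True) ∅

/-- upper bound for balanced trees -/
def S_MAIN : Prop := ∀ (k : ℕ), 1 ≤ k → ∀ (ι : Type) [Fintype ι] (T : TE k ι) (a p : ℕ),
    1 ≤ p → Fintype.card ι = a + 1 → (∃ x, T.Cn x) →
    (Finset.univ.filter (fun x => T.Qn x)).card = p + 1 →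
    (∀ U : Finset ι, AdmF T U → a * frc T U ≤ p * U.card) →
    ∀ t : ℕ, 0 < t → ∃ C : ℝ, ∀ n : ℕ, ∀ G : SimpleGraph (Fin n),
      (¬ ∃ w, BUat T (fun _ => G.Adj) (fun _ => G.Adj) (Finset.univ.erase T.top) (fun _ => w) t
        (fun _ => True) ∅) →
      (G.edgeSet.ncard : ℝ) ≤ C * (n : ℝ) ^ (2 - (a : ℝ) / ((a + p : ℕ) : ℝ))

/-- balanced caterpillars for all parameters -/
def S_CAT : Prop := ∀ k p c : ℕ, 1 ≤ k → 1 ≤ c → c ≤ p →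
    ∃ (ι : Type) (_ : Fintype ι) (T : TE k ι),
      Fintype.card ι = k * p + c + 1 ∧ (∃ x, T.Cn x) ∧
      (Finset.univ.filter (fun x => T.Qn x)).card = p + 1 ∧
      ∀ U : Finset ι, T.top ∉ U →
        (k * p + c) * frc T U ≤
          p * U.card + (k * p + c) * (U.filter (fun x => ¬ T.Qn x ∧ T.par x ∉ U)).card

/-- from tree data to a good pair -/
def S_GTD : Prop := S_MAIN → ∀ (k : ℕ), 1 ≤ k → ∀ (ι : Type) [Fintype ι] (T : TE k ι)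
    (a p : ℕ), 2 ≤ a → 1 ≤ p → Fintype.card ι = a + 1 → (∃ x, T.Cn x) →
    (Finset.univ.filter (fun x => T.Qn x)).card = p + 1 →
    (∀ U : Finset ι, T.top ∉ U →
        a * frc T U ≤ p * U.card + a * (U.filter (fun x => ¬ T.Qn x ∧ T.par x ∉ U)).card) →
    Good a (a + p)

/-- families of pairs: B is determined by the thresholds L -/
def IsB {V : Type} (G : SimpleGraph V) (k : ℕ) (L : ℕ → ℕ) (B : ℕ → V → V → Prop) : Prop :=
  ∀ j x y, (B j x y ↔ 2 ≤ j ∧ j ≤ k + 1 ∧ Disj G B j (L j) x y)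

/-- existence -/
def S_ISB : Prop := ∀ (V : Type) (G : SimpleGraph V) (k : ℕ) (L : ℕ → ℕ),
    ∃ B : ℕ → V → V → Prop, IsB G k L B ∧ BSy B

/-- the number of light paths is bounded; the bound for length less than l only depends on the
values of L below l -/
def S_BND : Prop := ∀ (k l : ℕ) (L : ℕ → ℕ), l ≤ k + 1 → ∃ F0 : ℕ, ∀ L' : ℕ → ℕ,
    (∀ j, j < l → L' j = L j) → ∀ (V : Type) [Fintype V] (G : SimpleGraph V)
    (B : ℕ → V → V → Prop), IsB G k L' B → BNd G B l F0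

/-- the upper bound from the pieces -/
def S_FIN : Prop := S_EMB → S_ISB → S_BND → (∀ k l, 1 ≤ k → 2 ≤ l → l ≤ k + 1 →
    ¬ (k = 3 ∧ l = 3) → S_MV k l) → S_MV3 → S_IND → S_DEN → S_MAIN

/-- assembly in the first case -/
def S_ASMT : Prop := ∀ (k : ℕ) (ι : Type) [Fintype ι] (T : TE k ι) (F N : Finset ι), N ⊆ F →
    AdmF T F → (∀ x ∈ N, T.par x ∈ F → T.par x ∈ N) →
    (∀ x ∈ F, x ∉ N → T.par x ∈ N → T.Cn x) →
    (∀ q ∈ F, ∀ q' ∈ F, q ∉ N → q' ∉ N → T.par q ∈ N → T.par q = T.par q' → q = q') →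
    ∀ (V : Type) (G : SimpleGraph V) (E Rt : ι → V → V → Prop), RSok T G E Rt →
    ∀ (b : ι → V) (φ : ι ⊕ ι → V),
    (∀ c ∈ UC T F, ∀ c' ∈ UC T F, φ c = φ c' → c = c') →
    (∀ q ∈ F, T.par q ∉ F → φ (Sum.inr q) = b q) → ∀ Z : Finset V,
    (∀ c ∈ FC T F, φ c ∉ Z) → ∀ (L Lk : ℕ) (Γ : (ι → V) → Prop),
    Z.card + (2 * L + 2) * Fintype.card ι < Lk →
    BUat T E Rt (F \ N) (fun q => if T.par q ∈ N then φ (Sum.inl (T.par q)) else b q) L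
      (Att T E Rt N (F \ N) (fun q => φ (Sum.inr q)) Lk Γ)
      (Z ∪ N.image (fun q => φ (Sum.inr q))) →
    BUat T E Rt F b L Γ Z

/-- assembly in the second case -/
def S_ASMU : Prop := ∀ (k : ℕ) (ι : Type) [Fintype ι] (T : TE k ι) (E0 N : Finset ι) (u : ι),
    N ⊆ E0 → u ∈ N → T.top ∉ E0 → T.par u ∉ E0 → ¬ T.Cn u → T.Cn (T.par u) →
    (∀ x ∈ E0, x ≠ u → T.par x ∈ E0) →
    (∀ x ∈ N, x ≠ u → T.par x ∈ N) → (∀ y ∈ E0, T.par y = u → y ∈ N) →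
    (∀ x ∈ E0, x ∉ N → T.par x ∈ N → T.Cn x) →
    (∀ q ∈ E0, ∀ q' ∈ E0, q ∉ N → q' ∉ N → T.par q ∈ N → T.par q = T.par q' → q = q') →
    ∀ (V : Type) [Fintype V] (G : SimpleGraph V) (E Rt : ι → V → V → Prop), RSok T G E Rt →
    ∀ (φ : ι ⊕ ι → V),
    (∀ c ∈ UC T N, ∀ c' ∈ UC T N, φ c = φ c' → c = c') → ∀ Z : Finset V,
    (∀ c ∈ UC T N, c ≠ Sum.inl u → φ c ∉ Z) → ∀ (L L2 Lk Q D K : ℕ) (w : V), 0 < L → 0 < Q →
    0 < K →
    (Finset.univ.filter (fun y => Rt (T.par u) w y)).card ≤ K * D →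
    2 * L * K * Q ≤ L2 → L * Fintype.card ι * 2 < Lk →
    BUat T E Rt (E0 \ N) (fun q => φ (Sum.inl (T.par q))) L2
      (fun ψ => D ≤ Q * (Finset.univ.filter (fun y => Rt (T.par u) w y ∧
        Att T E Rt N (E0 \ N) (fun q => φ (Sum.inr q)) Lk (fun ψ' => E u y (ψ' u)) ψ)).card)
      (Z ∪ (UC T N).image φ) →
    ∃ ρ : ι → V, (∀ q ∈ E0, ∀ q' ∈ E0, T.Qn q → T.Qn q' → ρ q = ρ q' → q = q') ∧
      (∀ q ∈ E0, T.Qn q → ρ q ∉ Z) ∧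
      D ≤ 2 * Q * (Finset.univ.filter (fun y => Rt (T.par u) w y ∧
        RichAt T E Rt E0 u L y ρ)).card

/-- restriction of members of a family -/
def S_RES : Prop := ∀ (k : ℕ) (ι : Type) [Fintype ι] (T : TE k ι) (V : Type) [Fintype V]
    (G : SimpleGraph V) (E Rt : ι → V → V → Prop), RSok T G E Rt → ∀ (B : ℕ → V → V → Prop)
    (v0 : V) (F : Finset ι) (b : ι → V)
    (Γ : (ι → V) → Prop) (φ : ι ⊕ ι → V), Fam T G E Rt B v0 F b Γ φ → AdmF T F →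
    ∀ N D' : Finset ι, N ⊆ F → D' ⊆ F → (∀ x ∈ D', x ∉ N) → AdmF T D' →
    (∀ q ∈ D', T.par q ∈ F → T.par q ∈ D' ∨ T.par q ∈ N) →
    (∀ q ∈ D', ∀ q' ∈ D', T.par q ∈ N → T.par q = T.par q' → q = q') →
    ∀ Γ' : (ι → V) → Prop, Γ' (fun x => resD T N D' v0 φ (Sum.inl x)) →
    Fam T G E Rt B v0 D' (fun q => if T.par q ∈ N then φ (Sum.inl (T.par q)) else b q) Γ'
      (resD T N D' v0 φ)

end Pool.Agent.TH476.KK
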