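import Pool.Agent.TH476.CaseC2

set_option autoImplicit false

open Classical

namespace Pool.Agent.TH476

/-- a nondegenerate tuple contained in many of the given dense sets of tuples -/
lemma choose_gen {κ β : Type} [Fintype κ] [DecidableEq κ] [Fintype β] (n : ℕ)
    (hκ : Fintype.card κ = n) (hn : 0 < n) (t K Q D π δ M : ℕ) (hM : M = 2 * t * (Q * K ^ n))
    (hK : 0 < K) (hQ : 0 < Q) (ht : 0 < t) (hD : 0 < D) (B : Finset β) (hB : B.card ≤ K * D)
    (P : β → Prop) (R : β → β → Prop)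
    (hπ : (B.filter P).card ≤ π) (hδ : ∀ a ∈ B, (B.filter (fun b => R a b)).card ≤ δ)
    (E : Fin M → (κ → β) → Prop)
    (hE : ∀ i, D ^ n ≤ Q * ((Fintype.piFinset (fun _ : κ => B)).filter (E i)).card)
    (hDb : 2 * Q * ((n * π + n ^ 2 * δ) * K ^ (n - 1)) ≤ D) :
    ∃ ρ : κ → β, (∀ u, ρ u ∈ B) ∧ (∀ u, ¬ P (ρ u)) ∧ (∀ u v, u ≠ v → ¬ R (ρ u) (ρ v)) ∧
      ∃ σ : Fin t → Fin M, Function.Injective σ ∧ ∀ i, E (σ i) ρ := by
  set U : Finset (κ → β) := Fintype.piFinset (fun _ => B) with hU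
  obtain ⟨Bad, hBad⟩ : ∃ Bad : Finset (κ → β), Bad =
    U.filter (fun ρ => (∃ u, P (ρ u)) ∨ ∃ u v, u ≠ v ∧ R (ρ u) (ρ v)) := ⟨_, rfl⟩
  have hbad : Bad.card ≤ (n * π + n ^ 2 * δ) * B.card ^ (n - 1) := by
    have := pi_bad' (κ := κ) B P R π δ hπ hδ
    rw [hκ] at this
    refine le_trans (Finset.card_le_card ?_) this
    intro ρ hρ
    rw [hBad] at hρ
    exact Finset.mem_filter.mpr (Finset.mem_filter.mp hρ)
  by_contra hcon
  push Not at hcon
  have hfew : ∀ ρ ∈ U, ρ ∉ Bad →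
      ((Finset.univ : Finset (Fin M)).filter (fun i => E i ρ)).card ≤ t - 1 := by
    intro ρ hρ hnb
    by_contra hlt
    push Not at hlt
    have h1 : ¬ ((∃ u, P (ρ u)) ∨ ∃ u v, u ≠ v ∧ R (ρ u) (ρ v)) := fun h =>
      hnb (by rw [hBad]; exact Finset.mem_filter.mpr ⟨hρ, h⟩)
    push Not at h1
    obtain ⟨h2, h3⟩ := h1
    have hcard : t ≤ ((Finset.univ : Finset (Fin M)).filter (fun i => E i ρ)).card := by
      omega
    obtain ⟨T, hT1, hT2⟩ := Finset.exists_subset_card_eq hcard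
    let σ : Fin t → Fin M := fun i => (T.equivFinOfCardEq hT2).symm i
    obtain ⟨i, h4⟩ := hcon ρ (fun u => by
      rw [hU, Fintype.mem_piFinset] at hρ
      exact hρ u) h2 h3 σ (by
      intro a b hab
      exact (T.equivFinOfCardEq hT2).symm.injective (Subtype.ext hab))
    apply h4
    have h5 : σ i ∈ T := ((T.equivFinOfCardEq hT2).symm i).2
    exact (Finset.mem_filter.mp (hT1 h5)).2
  -- double counting
  have hsum : ∑ i : Fin M, (U.filter (fun ρ => E i ρ)).card =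
      ∑ ρ ∈ U, ((Finset.univ : Finset (Fin M)).filter (fun i => E i ρ)).card := by
    simp only [Finset.card_filter]
    rw [Finset.sum_comm]
  have hUc : U.card ≤ (K * D) ^ n := by
    rw [hU, Fintype.card_piFinset, Finset.prod_const, Finset.card_univ, hκ]
    exact Nat.pow_le_pow_left hB n
  have hle : ∑ ρ ∈ U, ((Finset.univ : Finset (Fin M)).filter (fun i => E i ρ)).card ≤
      Bad.card * M + (K * D) ^ n * (t - 1) := by
    rw [← Finset.sum_filter_add_sum_filter_not U (fun ρ => ρ ∈ Bad)]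
    refine Nat.add_le_add ?_ ?_
    · calc _ ≤ ∑ ρ ∈ U.filter (fun ρ => ρ ∈ Bad), M := Finset.sum_le_sum fun ρ _ => by
            refine (Finset.card_le_univ _).trans ?_
            rw [Fintype.card_fin]
        _ ≤ _ := by
            rw [Finset.sum_const, smul_eq_mul]
            refine Nat.mul_le_mul_right _ (Finset.card_le_card ?_)
            intro ρ hρ
            exact (Finset.mem_filter.mp hρ).2
    · calc _ ≤ ∑ ρ ∈ U.filter (fun ρ => ρ ∉ Bad), (t - 1) := Finset.sum_le_sum fun ρ hρ =>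
            hfew ρ (Finset.mem_filter.mp hρ).1 (Finset.mem_filter.mp hρ).2
        _ ≤ _ := by
            rw [Finset.sum_const, smul_eq_mul]
            exact Nat.mul_le_mul_right _ ((Finset.card_filter_le _ _).trans hUc)
  have h1 : M * D ^ n ≤ Q * (Bad.card * M + (K * D) ^ n * (t - 1)) := by
    calc M * D ^ n = ∑ i : Fin M, D ^ n := by
          rw [Finset.sum_const, Finset.card_univ, Fintype.card_fin, smul_eq_mul]
      _ ≤ ∑ i : Fin M, Q * (U.filter (fun ρ => E i ρ)).card :=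
          Finset.sum_le_sum fun i _ => hE i
      _ = Q * ∑ i : Fin M, (U.filter (fun ρ => E i ρ)).card := by
          rw [Finset.mul_sum]
      _ ≤ _ := Nat.mul_le_mul_left _ (hsum ▸ hle)
  have h2 : 2 * Q * Bad.card ≤ D ^ n := by
    calc 2 * Q * Bad.card ≤ 2 * Q * ((n * π + n ^ 2 * δ) * B.card ^ (n - 1)) :=
          Nat.mul_le_mul_left _ hbad
      _ ≤ 2 * Q * ((n * π + n ^ 2 * δ) * (K * D) ^ (n - 1)) :=
          Nat.mul_le_mul_left _ (Nat.mul_le_mul_left _ (Nat.pow_le_pow_left hB _))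
      _ = 2 * Q * ((n * π + n ^ 2 * δ) * K ^ (n - 1)) * D ^ (n - 1) := by rw [mul_pow]; ring
      _ ≤ D * D ^ (n - 1) := Nat.mul_le_mul_right _ hDb
      _ = D ^ n := by
          rw [← pow_succ', Nat.sub_add_cancel hn]
  have h3 : 2 * (Q * (K * D) ^ n * (t - 1)) + (2 * (Q * K ^ n) * D ^ n) = M * D ^ n := by
    obtain ⟨t', rfl⟩ : ∃ t', t = t' + 1 := ⟨t - 1, by omega⟩
    rw [hM, Nat.add_sub_cancel, mul_pow K D]
    ring
  have h4 : 0 < (Q * K ^ n) * D ^ n := by positivity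
  have h5 : 2 * (M * D ^ n) ≤ M * D ^ n + 2 * (Q * (K * D) ^ n * (t - 1)) := by
    calc 2 * (M * D ^ n) ≤ 2 * (Q * (Bad.card * M + (K * D) ^ n * (t - 1))) :=
          Nat.mul_le_mul_left _ h1
      _ = M * (2 * Q * Bad.card) + 2 * (Q * (K * D) ^ n * (t - 1)) := by ring
      _ ≤ M * D ^ n + 2 * (Q * (K * D) ^ n * (t - 1)) :=
          Nat.add_le_add_right (Nat.mul_le_mul_left _ h2) _
  have h6 : 2 * (Q * K ^ n) * D ^ n = 2 * ((Q * K ^ n) * D ^ n) := by ring
  omega

/-- L disjoint spiders with centre adjacent to x and legs ending in r -/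
def SR {V : Type} (G : SimpleGraph V) (q L : ℕ) (x : V) (r : Fin q → V) : Prop :=
  ∃ (y : Fin L → V) (m : Fin L → Fin q → V), (∀ i, G.Adj x (y i)) ∧
    (∀ i j, G.Adj (y i) (m i j)) ∧ (∀ i j, G.Adj (m i j) (r j)) ∧
    (∀ i, Function.Injective (m i)) ∧
    (∀ i i', i ≠ i' → y i ≠ y i' ∧ (∀ j, y i ≠ m i' j) ∧ ∀ j j', m i j ≠ m i' j')

/-- pairs (m, r) with m adjacent to w and r adjacent to m -/
noncomputable def Lg {V : Type} [Fintype V] (G : SimpleGraph V) (w : V) : Finset (V × V) :=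
  Finset.univ.filter (fun p : V × V => G.Adj w p.1 ∧ G.Adj p.1 p.2)

lemma Lg_card {V : Type} [Fintype V] (G : SimpleGraph V) (D K : ℕ) (hG : AR G D K) (w : V) :
    (Lg G w).card ≤ K ^ 2 * D ^ 2 := by
  have hsub : Lg G w ⊆ (nb G w).biUnion (fun m => (nb G m).image (fun r => (m, r))) := by
    rintro ⟨m, r⟩ h
    unfold Lg at h
    obtain ⟨_, h1, h2⟩ := Finset.mem_filter.mp h
    exact Finset.mem_biUnion.mpr ⟨m, (mem_nb _ _ _).mpr h1, Finset.mem_image.mpr
      ⟨r, (mem_nb _ _ _).mpr h2, rfl⟩⟩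
  refine (Finset.card_le_card hsub).trans ((Finset.card_biUnion_le_card_mul _ _ (K * D)
    (fun m _ => Finset.card_image_le.trans (hG.hi m))).trans ?_)
  calc (nb G w).card * (K * D) ≤ (K * D) * (K * D) := Nat.mul_le_mul_right _ (hG.hi w)
    _ = _ := by ring

/-- legs ending in a given small set are few -/
lemma Lg_end {V : Type} [Fintype V] (G : SimpleGraph V) (D K : ℕ) (hG : AR G D K) (w : V)
    (Z : Finset V) (P : V × V → Prop) (hP : ∀ p, P p → p.2 ∈ Z) :
    ((Lg G w).filter P).card ≤ Z.card * (K * D) := by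
  have hsub : (Lg G w).filter P ⊆ Z.biUnion (fun z => (nb G w).image (fun m => (m, z))) := by
    rintro ⟨m, r⟩ h
    obtain ⟨h0, h3⟩ := Finset.mem_filter.mp h
    unfold Lg at h0
    obtain ⟨_, h1, h2⟩ := Finset.mem_filter.mp h0
    exact Finset.mem_biUnion.mpr ⟨r, hP _ h3, Finset.mem_image.mpr
      ⟨m, (mem_nb _ _ _).mpr h1, rfl⟩⟩
  exact (Finset.card_le_card hsub).trans (Finset.card_biUnion_le_card_mul _ _ (K * D)
    (fun m _ => Finset.card_image_le.trans (hG.hi w)))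

/-- the legs of spiders centred at w, with x and the ends rich -/
noncomputable def Ld {V : Type} [Fintype V] (G : SimpleGraph V) (q L : ℕ) (w x : V) :
    Finset (Fin q → V × V) :=
  (Fintype.piFinset (fun _ : Fin q => Lg G w)).filter (fun l => SR G q L x (fun j => (l j).2))

theorem caseA (Q K g q t : ℕ) (hQ : 0 < Q) (hK : 0 < K) (hgq : 0 < g * q) (ht : 0 < t) :
    ∃ L D0 : ℕ, ∀ (V : Type) [Fintype V] [Nonempty V] (G : SimpleGraph V) (D : ℕ), AR G D K →
    D0 ≤ D → Fintype.card V * D ^ (1 + 2 * q) ≤ Q * ∑ w : V, ∑ x ∈ nb G w, (Ld G q L w x).card →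
    TB G g q t := by
  obtain ⟨n, hn⟩ : ∃ n, n = g * q := ⟨_, rfl⟩
  obtain ⟨Q3, hQ3⟩ : ∃ Q3, Q3 = 2 * Q * K := ⟨_, rfl⟩
  obtain ⟨M, hM⟩ : ∃ M, M = 2 * t * (Q3 ^ g * (K ^ 2) ^ n) := ⟨_, rfl⟩
  refine ⟨1 + M + n + (t * g) * (1 + q) + 1, 2 * Q * K ^ (2 * q) * M +
    2 * Q3 ^ g * ((n * ((1 + M) * K) + n ^ 2 * K) * (K ^ 2) ^ (n - 1)) + 1, ?_⟩
  intro V _ _ G D hG hD hcount
  obtain ⟨L, hL⟩ : ∃ L, L = 1 + M + n + (t * g) * (1 + q) + 1 := ⟨_, rfl⟩
  rw [← hL] at hcount
  have hQ3pos : 0 < Q3 := by rw [hQ3]; positivity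
  have hDpos : 0 < D := by omega
  obtain ⟨w, hw⟩ := avg _ Q _ hcount
  -- typical x
  set A' := (nb G w).filter (fun x => D ^ (2 * q) ≤ Q3 * (Ld G q L w x).card) with hA'
  have hLd : ∀ x, (Ld G q L w x).card ≤ K ^ (2 * q) * D ^ (2 * q) := by
    intro x
    unfold Ld
    refine (Finset.card_filter_le _ _).trans ?_
    rw [Fintype.card_piFinset, Finset.prod_const, Finset.card_univ, Fintype.card_fin]
    calc (Lg G w).card ^ q ≤ (K ^ 2 * D ^ 2) ^ q := Nat.pow_le_pow_left (Lg_card G D K hG w) q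
      _ = _ := by rw [mul_pow, ← pow_mul, ← pow_mul]
  have hMA : M ≤ A'.card := by
    have h1 := Finset.sum_filter_add_sum_filter_not (nb G w)
      (fun x => D ^ (2 * q) ≤ Q3 * (Ld G q L w x).card) (fun x => (Ld G q L w x).card)
    rw [← hA'] at h1
    have h2 : Q3 * ∑ x ∈ (nb G w).filter (fun x => ¬ D ^ (2 * q) ≤ Q3 * (Ld G q L w x).card),
        (Ld G q L w x).card ≤ K * D * D ^ (2 * q) := by
      rw [Finset.mul_sum]
      calc _ ≤ ∑ x ∈ (nb G w).filter (fun x => ¬ D ^ (2 * q) ≤ Q3 * (Ld G q L w x).card),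
            D ^ (2 * q) := by
            refine Finset.sum_le_sum fun x hx => ?_
            have := (Finset.mem_filter.mp hx).2
            omega
        _ ≤ _ := by
            rw [Finset.sum_const, smul_eq_mul]
            exact Nat.mul_le_mul_right _ ((Finset.card_filter_le _ _).trans (hG.hi w))
    have h3 : 2 * Q * ∑ x ∈ (nb G w).filter (fun x => ¬ D ^ (2 * q) ≤ Q3 * (Ld G q L w x).card),
        (Ld G q L w x).card ≤ D ^ (1 + 2 * q) := by
      refine Nat.le_of_mul_le_mul_left ?_ hK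
      calc K * (2 * Q * _) = Q3 * _ := by rw [hQ3]; ring
        _ ≤ _ := h2
        _ = _ := by rw [pow_add, pow_one]; ring
    have h4 : ∑ x ∈ A', (Ld G q L w x).card ≤ A'.card * (K ^ (2 * q) * D ^ (2 * q)) := by
      rw [← smul_eq_mul, ← Finset.sum_const]
      exact Finset.sum_le_sum fun x _ => hLd x
    have h5 : D ^ (1 + 2 * q) ≤ 2 * Q * (A'.card * (K ^ (2 * q) * D ^ (2 * q))) := by
      have h6 : 2 * (Q * ∑ x ∈ nb G w, (Ld G q L w x).card) =
          2 * Q * ∑ x ∈ A', (Ld G q L w x).card + 2 * Q * ∑ x ∈ (nb G w).filter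
            (fun x => ¬ D ^ (2 * q) ≤ Q3 * (Ld G q L w x).card), (Ld G q L w x).card := by
        rw [← h1]; ring
      have h7 := Nat.mul_le_mul_left (2 * Q) h4
      omega
    have h6 : D ≤ 2 * Q * K ^ (2 * q) * A'.card := by
      refine Nat.le_of_mul_le_mul_left ?_ (show 0 < D ^ (2 * q) by positivity)
      calc D ^ (2 * q) * D = D ^ (1 + 2 * q) := by rw [pow_add, pow_one]; ring
        _ ≤ _ := h5
        _ = _ := by ring
    by_contra hlt
    push Not at hlt
    have h7 : 2 * Q * K ^ (2 * q) * A'.card ≤ 2 * Q * K ^ (2 * q) * M :=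
      Nat.mul_le_mul_left _ hlt.le
    omega
  obtain ⟨T, hT1, hT2⟩ := Finset.exists_subset_card_eq hMA
  let x : Fin M → V := fun i => ((T.equivFinOfCardEq hT2).symm i).1
  have hx : Function.Injective x := fun a b hab =>
    (T.equivFinOfCardEq hT2).symm.injective (Subtype.ext hab)
  have hxT : ∀ i, G.Adj w (x i) ∧ D ^ (2 * q) ≤ Q3 * (Ld G q L w (x i)).card := by
    intro i
    have := Finset.mem_filter.mp (hT1 ((T.equivFinOfCardEq hT2).symm i).2)
    exact ⟨(mem_nb _ _ _).mp this.1, this.2⟩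
  obtain ⟨Z1, hZ1⟩ : ∃ Z1 : Finset V, Z1 = insert w (Finset.univ.image x) := ⟨_, rfl⟩
  have hZ1c : Z1.card ≤ 1 + M := by
    rw [hZ1]
    refine (Finset.card_insert_le _ _).trans ?_
    have : (Finset.univ.image x).card ≤ M := Finset.card_image_le.trans (by simp)
    omega
  obtain ⟨P, hP⟩ : ∃ P : V × V → Prop, ∀ p, P p ↔ p.2 ∈ Z1 := ⟨_, fun _ => Iff.rfl⟩
  obtain ⟨E, hE⟩ : ∃ E : Fin M → (Fin g × Fin q → V × V) → Prop, ∀ i l, E i l ↔
      ∀ b, SR G q L (x i) (fun j => (l (b, j)).2) := ⟨_, fun _ _ => Iff.rfl⟩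
  have hEcard : ∀ i, (D ^ 2) ^ n ≤ Q3 ^ g * ((Fintype.piFinset (fun _ : Fin g × Fin q =>
      Lg G w)).filter (E i)).card := by
    intro i
    have h1 : (Fintype.piFinset (fun _ : Fin g => Ld G q L w (x i))).card ≤
        ((Fintype.piFinset (fun _ : Fin g × Fin q =>
      Lg G w)).filter (E i)).card := by
      refine Finset.card_le_card_of_injOn (fun l p => l p.1 p.2) ?_ ?_
      · intro l hl
        rw [Finset.mem_coe, Fintype.mem_piFinset] at hl
        unfold Ld at hl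
        rw [Finset.mem_coe, Finset.mem_filter, Fintype.mem_piFinset]
        refine ⟨fun p => ?_, (hE i _).mpr fun b => (Finset.mem_filter.mp (hl b)).2⟩
        exact Fintype.mem_piFinset.mp (Finset.mem_filter.mp (hl p.1)).1 p.2
      · intro l _ l' _ h
        funext b j
        exact congrFun h (b, j)
    rw [Fintype.card_piFinset, Finset.prod_const, Finset.card_univ, Fintype.card_fin] at h1
    calc (D ^ 2) ^ n = (D ^ (2 * q)) ^ g := by
          rw [hn, ← pow_mul, ← pow_mul]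
          congr 1
          ring
      _ ≤ (Q3 * (Ld G q L w (x i)).card) ^ g := Nat.pow_le_pow_left (hxT i).2 g
      _ = Q3 ^ g * (Ld G q L w (x i)).card ^ g := mul_pow _ _ _
      _ ≤ _ := Nat.mul_le_mul_left _ h1
  obtain ⟨l, hl1, hl2, hl3, σ, hσ1, hσ2⟩ := choose_gen (κ := Fin g × Fin q) n (by simp [hn])
    (by omega) t (K ^ 2) (Q3 ^ g) (D ^ 2) ((1 + M) * (K * D)) (K * D) M hM (by positivity)
    (by positivity) ht (by positivity) (Lg G w) (Lg_card G D K hG w) P
    (fun a b => a.2 = b.2)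
    ((Lg_end G D K hG w Z1 P (fun p hp => (hP p).mp hp)).trans (Nat.mul_le_mul_right _ hZ1c))
    (fun a _ => by
      have := Lg_end G D K hG w {a.2} (fun b => a.2 = b.2)
        (fun p hp => Finset.mem_singleton.mpr hp.symm)
      simpa using this)
    E hEcard (by
      have e1 : 2 * Q3 ^ g * ((n * ((1 + M) * (K * D)) + n ^ 2 * (K * D)) * (K ^ 2) ^ (n - 1)) =
        2 * Q3 ^ g * ((n * ((1 + M) * K) + n ^ 2 * K) * (K ^ 2) ^ (n - 1)) * D := by ring
      rw [e1, sq D]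
      exact Nat.mul_le_mul_right _ (by omega))
  obtain ⟨Z2, hZ2⟩ : ∃ Z2 : Finset V, Z2 = Z1 ∪ Finset.univ.image (fun p => (l p).2) := ⟨_, rfl⟩
  have hZ2c : Z2.card ≤ 1 + M + n := by
    rw [hZ2]
    refine (Finset.card_union_le _ _).trans ?_
    have : (Finset.univ.image (fun p => (l p).2)).card ≤ n :=
      Finset.card_image_le.trans (by simp [hn])
    omega
  obtain ⟨a, ha1, ha2, ha3⟩ := greedy (κ := Fin t × Fin g) (α := V × (Fin q → V))
    (fun _ a => insert a.1 (Finset.univ.image a.2)) (1 + q)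
    (fun p a => G.Adj (x (σ p.1)) a.1 ∧ (∀ j, G.Adj a.1 (a.2 j)) ∧
      (∀ j, G.Adj (a.2 j) (l (p.2, j)).2) ∧ Function.Injective a.2) Z2
    (fun _ a _ => by
      refine (Finset.card_insert_le _ _).trans ?_
      have : (Finset.univ.image a.2).card ≤ q := Finset.card_image_le.trans (by simp)
      omega)
    (by
      rintro ⟨i, b⟩ Z hZ
      obtain ⟨y, m, h1, h2, h3, h4, h5⟩ := (hE _ _).mp (hσ2 i) b
      have hc : Fintype.card (Fin t × Fin g) = t * g := by simp
      rw [hc] at hZ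
      obtain ⟨k, hk⟩ := avoid (fun k : Fin L => insert (y k) (Finset.univ.image (m k))) (by
        intro k k' hkk'
        obtain ⟨h6, h7, h8⟩ := h5 k k' hkk'
        obtain ⟨_, h7', _⟩ := h5 k' k (Ne.symm hkk')
        rw [Finset.disjoint_left]
        intro z hz hz'
        rcases Finset.mem_insert.mp hz with rfl | hz
        · rcases Finset.mem_insert.mp hz' with h | hz'
          · exact h6 h
          · obtain ⟨j, _, hj⟩ := Finset.mem_image.mp hz'
            exact h7 j hj.symm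
        · obtain ⟨j, _, hj⟩ := Finset.mem_image.mp hz
          rcases Finset.mem_insert.mp hz' with h | hz'
          · exact h7' j (by rw [hj, h])
          · obtain ⟨j', _, hj'⟩ := Finset.mem_image.mp hz'
            exact h8 j j' (by rw [hj, hj'])) Z (by omega)
      exact ⟨(y k, m k), ⟨h1 k, h2 k, h3 k, h4 k⟩, hk⟩)
  have hwZ : w ∈ Z1 := by rw [hZ1]; exact Finset.mem_insert_self _ _
  have hxZ : ∀ i, x i ∈ Z1 := fun i => by
    rw [hZ1]; exact Finset.mem_insert_of_mem (Finset.mem_image_of_mem _ (Finset.mem_univ _))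
  have h12 : ∀ z ∈ Z1, z ∈ Z2 := fun z hz => by rw [hZ2]; exact Finset.mem_union_left _ hz
  have hlZ : ∀ p, (l p).2 ∈ Z2 := fun p => by
    rw [hZ2]; exact Finset.mem_union_right _ (Finset.mem_image_of_mem (fun p => (l p).2)
      (Finset.mem_univ _))
  have hlZ1 : ∀ p, (l p).2 ∉ Z1 := fun p h => hl2 p ((hP _).mpr h)
  have hy : ∀ p, (a p).1 ∉ Z2 := fun p h =>
    Finset.disjoint_left.mp (ha2 p) (Finset.mem_insert_self _ _) h
  have hm : ∀ p j, (a p).2 j ∉ Z2 := fun p j h =>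
    Finset.disjoint_left.mp (ha2 p) (Finset.mem_insert_of_mem
      (Finset.mem_image_of_mem _ (Finset.mem_univ _))) h
  refine TB_of G g q t w (fun p => (l p).2) (fun i => x (σ i)) (fun p => (a p).1)
    (fun p => (a (p.1, p.2.1)).2 p.2.2) ?_ ?_ ?_ ?_ ?_ (hx.comp hσ1) ?_ ?_ ?_ ?_ ?_ ?_ ?_ ?_ ?_
    ?_ ?_ ?_
  · exact fun i => (hxT (σ i)).1.symm
  · exact fun i b => (ha1 (i, b)).1
  · exact fun i b j => (ha1 (i, b)).2.1 j
  · exact fun i b j => (ha1 (i, b)).2.2.1 j
  · intro p p' h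
    by_contra hne
    exact hl3 p p' hne h
  · intro p p' h
    by_contra hne
    exact Finset.disjoint_left.mp (ha3 p p' hne) (Finset.mem_insert_self _ _)
      (by
        have h' : (a p).1 = (a p').1 := h
        rw [h']
        exact Finset.mem_insert_self _ _)
  · rintro ⟨i, b, j⟩ ⟨i', b', j'⟩ h
    simp only at h
    by_cases hne : (i, b) = (i', b')
    · simp only [Prod.mk.injEq] at hne
      obtain ⟨rfl, rfl⟩ := hne
      rw [(ha1 (i, b)).2.2.2 h]
    · exfalso
      refine Finset.disjoint_left.mp (ha3 _ _ hne) (Finset.mem_insert_of_mem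
        (Finset.mem_image_of_mem (a (i, b)).2 (Finset.mem_univ j))) ?_
      rw [h]
      exact Finset.mem_insert_of_mem (Finset.mem_image_of_mem _ (Finset.mem_univ _))
  · intro p h
    exact hlZ1 p (h ▸ hwZ)
  · intro i h
    exact (hxT (σ i)).1.ne h
  · intro p h
    exact hy p (h ▸ h12 _ hwZ)
  · intro p h
    exact hm _ _ (h ▸ h12 _ hwZ)
  · intro p i h
    exact hlZ1 p (h ▸ hxZ _)
  · intro p i h
    exact hy i (h ▸ hlZ p)
  · intro p i h
    exact hm _ _ (h ▸ hlZ p)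
  · intro p i h
    exact hy i (h ▸ h12 _ (hxZ _))
  · intro p i h
    exact hm _ _ (h ▸ h12 _ (hxZ _))
  · rintro ⟨i, b⟩ ⟨i', b', j'⟩ h
    simp only at h
    by_cases hne : (i, b) = (i', b')
    · simp only [Prod.mk.injEq] at hne
      obtain ⟨rfl, rfl⟩ := hne
      exact ((ha1 (i, b)).2.1 j').ne h
    · refine Finset.disjoint_left.mp (ha3 _ _ hne) (Finset.mem_insert_self _ _) ?_
      rw [h]
      exact Finset.mem_insert_of_mem (Finset.mem_image_of_mem _ (Finset.mem_univ _))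

end Pool.Agent.TH476
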