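import Pool.Agent.TH476.CaseA

set_option autoImplicit false

open Classical

namespace Pool.Agent.TH476

section fibre

variable {ι V : Type} [Fintype ι] [Fintype V]

/-- number of restrictions of homs to a subtree -/
lemma image_res (p : ι → ι) (u0 : ι) (rk : ι → ℕ) (hp : ∀ v, v ≠ u0 → rk (p v) < rk v)
    (hr : ∀ v, v ≠ u0 → rk u0 < rk v) (G : SimpleGraph V) (D K : ℕ) (hG : AR G D K)
    (S : Finset ι) (hu0 : u0 ∈ S) (hcl : ∀ v ∈ S, v ≠ u0 → p v ∈ S) (𝓢 : Finset (ι → V))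
    (h1 : ∀ φ ∈ 𝓢, Hom (PT p u0) G φ) :
    (𝓢.image (fun (φ : ι → V) (v : ι) => if v ∈ S then φ v else φ u0)).card ≤
      Fintype.card V * (K * D) ^ (S.card - 1) := by
  have hsub : 𝓢.image (fun (φ : ι → V) (v : ι) => if v ∈ S then φ v else φ u0) ⊆
      (Finset.univ : Finset V).biUnion (fun z => EX (fun (v : ι) (φ : ι → V) =>
        if v ∈ S then nb G (φ (p v)) else {φ u0}) {u0} (fun _ => z)) := by
    intro ψ hψ
    obtain ⟨φ, hφ, rfl⟩ := Finset.mem_image.mp hψ
    refine Finset.mem_biUnion.mpr ⟨φ u0, Finset.mem_univ _, ?_⟩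
    rw [mem_EX]
    refine ⟨fun u hu => ?_, fun v hv => ?_⟩
    · rw [Finset.mem_singleton.mp hu]
      simp [hu0]
    · have hv' : v ≠ u0 := by simpa using hv
      by_cases hvS : v ∈ S
      · simp only [hvS, if_true, hcl v hvS hv']
        rw [mem_nb]
        exact (hom_PT p u0 rk hp G φ).mp (h1 φ hφ) v hv'
      · simp only [hvS, if_false, hu0, if_true]
        exact Finset.mem_singleton_self _
  refine (Finset.card_le_card hsub).trans ?_
  rw [← Finset.card_univ (α := V)]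
  refine Finset.card_biUnion_le_card_mul _ _ _ fun z _ => ?_
  have h := ext_le rk (fun (v : ι) (φ : ι → V) => if v ∈ S then nb G (φ (p v)) else {φ u0})
    (fun v => if v ∈ S then K * D else 1) ({u0} : Finset ι)ᶜ.card {u0} (fun _ => z) rfl
    (fun v hv φ ψ h => by
      have hv' : v ≠ u0 := by simpa using hv
      show (if v ∈ S then nb G (φ (p v)) else {φ u0}) = (if v ∈ S then nb G (ψ (p v)) else {ψ u0})
      rw [h (p v) (hp v hv'), h u0 (hr v hv')])
    (fun v _ φ => by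
      show (if v ∈ S then nb G (φ (p v)) else {φ u0}).card ≤ if v ∈ S then K * D else 1
      by_cases hvS : v ∈ S
      · simp only [hvS, if_true]
        exact hG.hi _
      · simp only [hvS, if_false]
        simp)
  rw [Finset.prod_ite, Finset.prod_const, Finset.prod_const_one, mul_one] at h
  refine h.trans (le_of_eq ?_)
  congr 1
  have : ({u0} : Finset ι)ᶜ.filter (fun v => v ∈ S) = S.erase u0 := by
    ext v
    simp only [Finset.mem_filter, Finset.mem_compl, Finset.mem_singleton, Finset.mem_erase]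
  rw [this, Finset.card_erase_of_mem hu0]

/-- a large fibre of the restriction to a subtree -/
lemma big_fibre [Nonempty V] (p : ι → ι) (u0 : ι) (rk : ι → ℕ) (hp : ∀ v, v ≠ u0 → rk (p v) < rk v)
    (hr : ∀ v, v ≠ u0 → rk u0 < rk v) (G : SimpleGraph V) (D K Q : ℕ) (hK : 0 < K) (hD : 0 < D)
    (hG : AR G D K) (S : Finset ι) (hu0 : u0 ∈ S) (hcl : ∀ v ∈ S, v ≠ u0 → p v ∈ S)
    (𝓢 : Finset (ι → V)) (h1 : ∀ φ ∈ 𝓢, Hom (PT p u0) G φ) (k : ℕ)
    (h2 : Fintype.card V * D ^ (S.card - 1 + k) ≤ Q * 𝓢.card) :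
    ∃ ψ ∈ 𝓢, D ^ k ≤ Q * K ^ (S.card - 1) * (𝓢.filter (fun φ => ∀ u ∈ S, φ u = ψ u)).card := by
  by_contra hcon
  push Not at hcon
  set s := S.card - 1 with hs
  have hV : 0 < Fintype.card V := Fintype.card_pos
  have h3 : Q * K ^ s * 𝓢.card ≤ (D ^ k - 1) *
      (𝓢.image (fun (φ : ι → V) (v : ι) => if v ∈ S then φ v else φ u0)).card := by
    have e1 := Finset.card_eq_sum_card_image (fun (φ : ι → V) (v : ι) =>
      if v ∈ S then φ v else φ u0) 𝓢
    rw [e1, Finset.mul_sum, mul_comm (D ^ k - 1), ← smul_eq_mul (a := Finset.card _),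
      ← Finset.sum_const]
    refine Finset.sum_le_sum fun ψ' hψ' => ?_
    obtain ⟨ψ, hψ, rfl⟩ := Finset.mem_image.mp hψ'
    have h4 := hcon ψ hψ
    have h5 : (𝓢.filter (fun φ : ι → V => (fun (v : ι) => if v ∈ S then φ v else φ u0) =
        (fun (v : ι) => if v ∈ S then ψ v else ψ u0))).card ≤
        (𝓢.filter (fun φ => ∀ u ∈ S, φ u = ψ u)).card := by
      refine Finset.card_le_card ?_
      intro φ hφ
      obtain ⟨h6, h7⟩ := Finset.mem_filter.mp hφ
      refine Finset.mem_filter.mpr ⟨h6, fun u hu => ?_⟩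
      have := congrFun h7 u
      simpa [hu] using this
    have h6 := Nat.mul_le_mul_left (Q * K ^ s) h5
    omega
  have h4 := image_res p u0 rk hp hr G D K hG S hu0 hcl 𝓢 h1
  rw [← hs] at h4
  have h5 : Fintype.card V * K ^ s * D ^ s * D ^ k ≤ Fintype.card V * K ^ s * D ^ s * (D ^ k - 1) := by
    calc Fintype.card V * K ^ s * D ^ s * D ^ k = K ^ s * (Fintype.card V * D ^ (s + k)) := by
          rw [pow_add]; ring
      _ ≤ K ^ s * (Q * 𝓢.card) := Nat.mul_le_mul_left _ h2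
      _ = Q * K ^ s * 𝓢.card := by ring
      _ ≤ _ := h3
      _ ≤ (D ^ k - 1) * (Fintype.card V * (K * D) ^ s) := Nat.mul_le_mul_left _ h4
      _ = _ := by rw [mul_pow]; ring
  have h6 : 0 < Fintype.card V * K ^ s * D ^ s := by positivity
  have h7 := Nat.le_of_mul_le_mul_left h5 h6
  have h8 : 0 < D ^ k := by positivity
  omega

omit [Fintype V] in
/-- product sets: tuples meeting Z are few -/
lemma pi_meet {κ : Type} [Fintype κ] (A : κ → Finset V) (X : ℕ) (hA : ∀ i, (A i).card ≤ X)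
    (𝓜 : Finset (κ → V)) (h𝓜 : ∀ τ ∈ 𝓜, ∀ i, τ i ∈ A i) (Z : Finset V)
    (hZ : ∀ τ ∈ 𝓜, ∃ i, τ i ∈ Z) :
    𝓜.card ≤ Fintype.card κ * (Z.card * X ^ (Fintype.card κ - 1)) := by
  have hsub : 𝓜 ⊆ (Finset.univ : Finset κ).biUnion (fun i =>
      Fintype.piFinset (fun j => if j = i then Z else A j)) := by
    intro τ hτ
    obtain ⟨i, hi⟩ := hZ τ hτ
    refine Finset.mem_biUnion.mpr ⟨i, Finset.mem_univ _, ?_⟩
    rw [Fintype.mem_piFinset]
    intro j
    by_cases hj : j = i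
    · rw [if_pos hj, hj]
      exact hi
    · rw [if_neg hj]
      exact h𝓜 τ hτ j
  refine (Finset.card_le_card hsub).trans ?_
  rw [← Finset.card_univ (α := κ)]
  refine Finset.card_biUnion_le_card_mul _ _ _ fun i _ => ?_
  rw [Fintype.card_piFinset, ← Finset.mul_prod_erase _ _ (Finset.mem_univ i), if_pos rfl]
  refine Nat.mul_le_mul_left _ ?_
  refine (Finset.prod_le_prod (fun _ _ => Nat.zero_le _) (g := fun _ => X) fun j hj => ?_).trans ?_
  · rw [if_neg (Finset.ne_of_mem_erase hj)]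
    exact hA j
  · rw [Finset.prod_const, Finset.card_erase_of_mem (Finset.mem_univ i)]

end fibre

/-- the mids and roots with index in Pd -/
noncomputable def MR {g q : ℕ} (Pd : Finset (Fin g × Fin q)) : Finset (TV g q) :=
  Pd.image (fun p => TV.m p.1 p.2) ∪ Pd.image (fun p => TV.r p.1 p.2)

lemma mem_MR {g q : ℕ} (Pd : Finset (Fin g × Fin q)) (v : TV g q) :
    v ∈ MR Pd ↔ (∃ p ∈ Pd, v = TV.m p.1 p.2) ∨ ∃ p ∈ Pd, v = TV.r p.1 p.2 := by
  unfold MR
  simp only [Finset.mem_union, Finset.mem_image]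
  constructor
  · rintro (⟨p, h1, h2⟩ | ⟨p, h1, h2⟩)
    · exact Or.inl ⟨p, h1, h2.symm⟩
    · exact Or.inr ⟨p, h1, h2.symm⟩
  · rintro (⟨p, h1, h2⟩ | ⟨p, h1, h2⟩)
    · exact Or.inl ⟨p, h1, h2.symm⟩
    · exact Or.inr ⟨p, h1, h2.symm⟩

lemma inj_r {g q : ℕ} : Function.Injective (fun p : Fin g × Fin q => (TV.r p.1 p.2 : TV g q)) := by
  rintro ⟨a, b⟩ ⟨c, d⟩ h
  simp only [TV.r.injEq] at h
  exact Prod.ext h.1 h.2

lemma inj_m {g q : ℕ} : Function.Injective (fun p : Fin g × Fin q => (TV.m p.1 p.2 : TV g q)) := by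
  rintro ⟨a, b⟩ ⟨c, d⟩ h
  simp only [TV.m.injEq] at h
  exact Prod.ext h.1 h.2

lemma card_MR {g q : ℕ} (Pd : Finset (Fin g × Fin q)) : (MR Pd).card = 2 * Pd.card := by
  unfold MR
  rw [Finset.card_union_of_disjoint, Finset.card_image_of_injective _ inj_m,
    Finset.card_image_of_injective _ inj_r]
  · ring
  · rw [Finset.disjoint_left]
    intro v h1 h2
    obtain ⟨p, _, rfl⟩ := Finset.mem_image.mp h1
    obtain ⟨p', _, h⟩ := Finset.mem_image.mp h2
    simp at h

end Pool.Agent.TH476
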