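import Pool.Agent.TH476.CaseB

set_option autoImplicit false

open Classical

namespace Pool.Agent.TH476

/-- in a large fibre there are tuples of mids avoiding a small set -/
lemma avoid_mids {V : Type} [Fintype V] {g q : ℕ} (G : SimpleGraph V) (D K Q1 ζ : ℕ) (hK : 0 < K)
    (hD : 0 < D) (hG : AR G D K) (Pd : Finset (Fin g × Fin q)) (hPd : Pd.Nonempty)
    (𝓢 : Finset (TV g q → V)) (h1 : ∀ φ ∈ 𝓢, Hom (TG g q) G φ) (ψ0 : TV g q → V)
    (h2 : ∀ φ ∈ 𝓢, ∀ u, u ∉ MR Pd → φ u = ψ0 u) (h3 : D ^ (2 * Pd.card) ≤ Q1 * 𝓢.card)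
    (h4 : Q1 * K ^ (2 * (g * q)) * (g * q) * ζ < D) (Z : Finset V) (hZ : Z.card ≤ ζ) :
    ∃ φ ∈ 𝓢, ∀ p ∈ Pd, φ (.m p.1 p.2) ∉ Z := by
  by_contra hcon
  push Not at hcon
  have hk : 0 < Pd.card := Finset.card_pos.mpr hPd
  have hkn : Pd.card ≤ g * q := by
    have := Finset.card_le_univ Pd
    simpa using this
  set k := Pd.card with hkdef
  let res : (TV g q → V) → (Pd → V) := fun φ p => φ (.m p.1.1 p.1.2)
  have hSne : ((Pd.image (fun p => (TV.r p.1 p.2 : TV g q)))ᶜ).Nonempty :=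
    ⟨TV.x, by simp⟩
  have h5 := proj_le (TG g q) (TG_conn g q) G D K hG ((Pd.image (fun p => (TV.r p.1 p.2 : TV g q)))ᶜ)
    hSne 𝓢 h1 res (by
      intro φ hφ ψ hψ hres u hu
      by_cases hum : u ∈ MR Pd
      · rcases (mem_MR Pd u).mp hum with ⟨p, hp, rfl⟩ | ⟨p, hp, rfl⟩
        · exact congrFun hres ⟨p, hp⟩
        · exact absurd (Finset.mem_image.mpr ⟨p, hp, rfl⟩) (Finset.mem_compl.mp hu)
      · rw [h2 φ hφ u hum, h2 ψ hψ u hum])
  rw [compl_compl, Finset.card_image_of_injective _ inj_r, ← hkdef] at h5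
  replace h5 : 𝓢.card ≤ (K * D) ^ k * (𝓢.image res).card :=
    h5.trans (Nat.mul_le_mul_left _ (image_inst _ _ res 𝓢).le)
  have h6 := pi_meet (κ := Pd) (fun p => nb G (ψ0 (.y p.1.1))) (K * D) (fun _ => hG.hi _)
    (𝓢.image res) (by
      intro τ hτ p
      obtain ⟨φ, hφ, rfl⟩ := Finset.mem_image.mp hτ
      have h7 := ((hom_TG G φ).mp (h1 φ hφ)).2.2.1 p.1.1 p.1.2
      rw [h2 φ hφ (.y p.1.1) (by rw [mem_MR]; simp)] at h7
      exact (mem_nb _ _ _).mpr h7) Z (by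
      intro τ hτ
      obtain ⟨φ, hφ, rfl⟩ := Finset.mem_image.mp hτ
      obtain ⟨p, hp, h8⟩ := hcon φ hφ
      exact ⟨⟨p, hp⟩, h8⟩)
  rw [Fintype.card_coe, ← hkdef] at h6
  have h7 : D ^ (2 * k) ≤ Q1 * (K ^ (2 * k - 1) * k * Z.card) * D ^ (2 * k - 1) := by
    calc D ^ (2 * k) ≤ Q1 * 𝓢.card := h3
      _ ≤ Q1 * ((K * D) ^ k * (𝓢.image res).card) := Nat.mul_le_mul_left _ h5
      _ ≤ Q1 * ((K * D) ^ k * (k * (Z.card * (K * D) ^ (k - 1)))) :=
          Nat.mul_le_mul_left _ (Nat.mul_le_mul_left _ h6)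
      _ = Q1 * (((K * D) ^ k * (K * D) ^ (k - 1)) * k * Z.card) := by ring
      _ = _ := by
          rw [← pow_add, show k + (k - 1) = 2 * k - 1 by omega, mul_pow]
          ring
  have h8 : D ≤ Q1 * (K ^ (2 * k - 1) * k * Z.card) := by
    refine Nat.le_of_mul_le_mul_right ?_ (show 0 < D ^ (2 * k - 1) by positivity)
    calc D * D ^ (2 * k - 1) = D ^ (2 * k) := by
          rw [← pow_succ', show 2 * k - 1 + 1 = 2 * k by omega]
      _ ≤ _ := h7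
  have h9 : Q1 * (K ^ (2 * k - 1) * k * Z.card) ≤ Q1 * K ^ (2 * (g * q)) * (g * q) * ζ := by
    calc Q1 * (K ^ (2 * k - 1) * k * Z.card) ≤ Q1 * (K ^ (2 * (g * q)) * (g * q) * ζ) := by
          gcongr
          omega
      _ = _ := by ring
  omega

theorem caseB (Q K g q t : ℕ) (hK : 0 < K) :
    ∃ L D0 : ℕ, ∀ (V : Type) [Fintype V] [Nonempty V] (G : SimpleGraph V) (D : ℕ), AR G D K →
    D0 ≤ D → ∀ (Pd : Finset (Fin g × Fin q)), Pd.Nonempty →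
    (∀ p ∈ Pd, ∀ p' ∈ Pd, p.1 = p'.1 → p = p') → ∀ (Y : Finset (TV g q)),
    (∀ v, v ∈ Y ↔ v ∈ RS g q ∨ ∃ p ∈ Pd, v = TV.m p.1 p.2) →
    Fintype.card V * D ^ (1 + g + 2 * (g * q)) ≤ Q * (Finset.univ.filter
      (fun φ : TV g q → V => Emb (TG g q) G φ ∧ Rich {φ | Emb (TG g q) G φ} L Y φ)).card →
    TB G g q t := by
  obtain ⟨N, hN⟩ : ∃ N, N = 2 + g + 2 * (g * q) := ⟨_, rfl⟩
  refine ⟨N + t * N + t * N + 1, Q * K ^ N * K ^ (2 * (g * q)) * (g * q) * (N + t * N) + 1, ?_⟩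
  intro V _ _ G D hG hD Pd hPd hPd1 Y hY hcount
  obtain ⟨L, hL⟩ : ∃ L, L = N + t * N + t * N + 1 := ⟨_, rfl⟩
  rw [← hL] at hcount
  have hDpos : 0 < D := by omega
  have hcN : Fintype.card (TV g q) = N := by rw [card_TV, hN]
  obtain ⟨𝓢, h𝓢⟩ : ∃ 𝓢, 𝓢 = Finset.univ.filter
      (fun φ : TV g q → V => Emb (TG g q) G φ ∧ Rich {φ | Emb (TG g q) G φ} L Y φ) := ⟨_, rfl⟩
  rw [← h𝓢] at hcount
  have hS1 : ∀ φ ∈ 𝓢, Emb (TG g q) G φ ∧ Rich {φ | Emb (TG g q) G φ} L Y φ := fun φ hφ => by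
    rw [h𝓢] at hφ
    exact (Finset.mem_filter.mp hφ).2
  obtain ⟨S0, hS0⟩ : ∃ S0 : Finset (TV g q), S0 = (MR Pd)ᶜ := ⟨_, rfl⟩
  have hS0c : S0.card + 2 * Pd.card = N := by
    rw [hS0, Finset.card_compl, card_MR, hcN]
    have := Finset.card_le_univ (MR Pd)
    rw [card_MR, hcN] at this
    omega
  have hxS : (TV.x : TV g q) ∈ S0 := by rw [hS0, Finset.mem_compl, mem_MR]; simp
  have hS0pos : 0 < S0.card := Finset.card_pos.mpr ⟨_, hxS⟩
  obtain ⟨ψ0, hψ0, hbig⟩ := big_fibre par TV.x dpt dpt_par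
    (fun v hv => by cases v <;> simp_all [dpt]) G D K Q hK hDpos hG S0 hxS
    (by
      intro v hv hvx
      rw [hS0, Finset.mem_compl, mem_MR] at hv ⊢
      push Not at hv ⊢
      cases v with
      | f => simp [par]
      | x => exact absurd rfl hvx
      | y b => simp [par]
      | m b j => simp [par]
      | r b j =>
        refine ⟨fun p hp h => hv.2 p hp ?_, fun p _ h => by simp [par] at h⟩
        simp only [par, TV.m.injEq] at h
        rw [h.1, h.2]) 𝓢 (fun φ hφ => (hS1 φ hφ).1.1) (2 * Pd.card) (by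
      have : S0.card - 1 + 2 * Pd.card = 1 + g + 2 * (g * q) := by omega
      rw [this]
      exact hcount)
  obtain ⟨𝓢0, h𝓢0⟩ : ∃ 𝓢0, 𝓢0 = 𝓢.filter (fun φ => ∀ u ∈ S0, φ u = ψ0 u) := ⟨_, rfl⟩
  rw [← h𝓢0] at hbig
  have hS2 : ∀ φ ∈ 𝓢0, φ ∈ 𝓢 ∧ ∀ u ∈ S0, φ u = ψ0 u := fun φ hφ => by
    rw [h𝓢0] at hφ
    exact Finset.mem_filter.mp hφ
  have hbig' : D ^ (2 * Pd.card) ≤ (Q * K ^ N) * 𝓢0.card := by
    refine hbig.trans (Nat.mul_le_mul_right _ (Nat.mul_le_mul_left _ ?_))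
    exact Nat.pow_le_pow_right hK (by omega)
  have hav := avoid_mids G D K (Q * K ^ N) (N + t * N) hK hDpos hG Pd hPd 𝓢0
    (fun φ hφ => (hS1 φ (hS2 φ hφ).1).1.1) ψ0
    (fun φ hφ u hu => (hS2 φ hφ).2 u (by rw [hS0]; exact Finset.mem_compl.mpr hu)) hbig' (by omega)
  obtain ⟨Z0, hZ0⟩ : ∃ Z0 : Finset V, Z0 = Finset.univ.image ψ0 := ⟨_, rfl⟩
  have hZ0c : Z0.card ≤ N := by
    rw [hZ0]
    refine Finset.card_image_le.trans ?_
    rw [Finset.card_univ, hcN]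
  have hPdN : Pd.card ≤ N := by omega
  obtain ⟨φ, hφ1, hφ2, hφ3⟩ := greedy (κ := Fin t) (α := TV g q → V)
    (fun _ φ => Pd.image (fun p => φ (.m p.1 p.2))) N (fun _ φ => φ ∈ 𝓢0) Z0
    (fun _ φ _ => Finset.card_image_le.trans hPdN) (by
      intro i Z hZ
      rw [Fintype.card_fin] at hZ
      obtain ⟨φ, h1, h2⟩ := hav Z (by omega)
      refine ⟨φ, h1, ?_⟩
      rw [Finset.disjoint_left]
      intro z hz hz'
      obtain ⟨p, hp, rfl⟩ := Finset.mem_image.mp hz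
      exact h2 p hp hz')
  obtain ⟨Z1, hZ1⟩ : ∃ Z1 : Finset V, Z1 = Z0 ∪ Finset.univ.biUnion
      (fun i : Fin t => Pd.image (fun p => φ i (.m p.1 p.2))) := ⟨_, rfl⟩
  have hZ1c : Z1.card ≤ N + t * N := by
    rw [hZ1]
    refine (Finset.card_union_le _ _).trans (Nat.add_le_add hZ0c ?_)
    refine (Finset.card_biUnion_le_card_mul _ _ N
      (fun i _ => Finset.card_image_le.trans hPdN)).trans ?_
    rw [Finset.card_univ, Fintype.card_fin]
  obtain ⟨ψ, hψ1, hψ2, hψ3⟩ := greedy (κ := Fin t) (α := TV g q → V)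
    (fun _ a => Yᶜ.image a) N (fun i a => Emb (TG g q) G a ∧ ∀ u ∈ Y, a u = φ i u) Z1
    (fun _ a _ => Finset.card_image_le.trans ((Finset.card_le_univ _).trans_eq hcN)) (by
      intro i Z hZ
      rw [Fintype.card_fin] at hZ
      obtain ⟨F, h1, h2, h3⟩ := (hS1 _ (hS2 _ (hφ1 i)).1).2
      obtain ⟨k, hk⟩ := avoid (fun k : Fin L => Yᶜ.image (F k)) (by
        intro k k' hkk'
        rw [Finset.disjoint_left]
        intro z hz hz'
        obtain ⟨u, hu, rfl⟩ := Finset.mem_image.mp hz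
        obtain ⟨u', hu', h4⟩ := Finset.mem_image.mp hz'
        exact h3 k k' hkk' u (Finset.mem_compl.mp hu) u' (Finset.mem_compl.mp hu') h4.symm) Z
        (by omega)
      exact ⟨F k, ⟨h1 k, h2 k⟩, hk⟩)
  -- basic facts
  have hYm : ∀ p ∈ Pd, (TV.m p.1 p.2 : TV g q) ∈ Y := fun p hp => (hY _).mpr (Or.inr ⟨p, hp, rfl⟩)
  have hagree : ∀ i u, u ∈ S0 → φ i u = ψ0 u := fun i u hu => (hS2 _ (hφ1 i)).2 u hu
  have hroot : ∀ i u, u ∈ RS g q → u ∈ S0 → ψ i u = ψ0 u := fun i u hu hu' => by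
    rw [(hψ1 i).2 u ((hY u).mpr (Or.inl hu)), hagree i u hu']
  have hZ0mem : ∀ u, ψ0 u ∈ Z0 := fun u => by
    rw [hZ0]; exact Finset.mem_image_of_mem _ (Finset.mem_univ _)
  have h01 : ∀ z ∈ Z0, z ∈ Z1 := fun z hz => by rw [hZ1]; exact Finset.mem_union_left _ hz
  have hmid1 : ∀ i, ∀ p ∈ Pd, φ i (.m p.1 p.2) ∈ Z1 := fun i p hp => by
    rw [hZ1]
    exact Finset.mem_union_right _ (Finset.mem_biUnion.mpr ⟨i, Finset.mem_univ _,
      Finset.mem_image.mpr ⟨p, hp, rfl⟩⟩)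
  -- values of ψ i on non-roots
  have hval : ∀ i u, u ∉ RS g q → (∃ p ∈ Pd, u = TV.m p.1 p.2 ∧ ψ i u = φ i u) ∨
      (u ∉ Y ∧ ψ i u ∉ Z1) := by
    intro i u hu
    by_cases huY : u ∈ Y
    · rcases (hY u).mp huY with h | ⟨p, hp, h⟩
      · exact absurd h hu
      · exact Or.inl ⟨p, hp, h, (hψ1 i).2 u huY⟩
    · exact Or.inr ⟨huY, fun h => Finset.disjoint_left.mp (hψ2 i) (Finset.mem_image.mpr
        ⟨u, Finset.mem_compl.mpr huY, rfl⟩) h⟩
  have fact2 : ∀ i u, u ∉ RS g q → ψ i u ∉ Z0 := by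
    intro i u hu hz
    rcases hval i u hu with ⟨p, hp, h1, h2⟩ | ⟨_, h2⟩
    · rw [h2, h1] at hz
      exact Finset.disjoint_left.mp (hφ2 i) (Finset.mem_image.mpr ⟨p, hp, rfl⟩) hz
    · exact h2 (h01 _ hz)
  have fact1 : ∀ i i' u v, u ∉ RS g q → v ∉ RS g q → ψ i u = ψ i' v → i = i' ∧ u = v := by
    intro i i' u v hu hv h
    by_cases hii : i = i'
    · subst hii
      exact ⟨rfl, (hψ1 i).1.2 h⟩
    · exfalso
      rcases hval i u hu with ⟨p, hp, h1, h2⟩ | ⟨h1, h2⟩ <;>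
      rcases hval i' v hv with ⟨p', hp', h1', h2'⟩ | ⟨h1', h2'⟩
      · rw [h2, h2', h1, h1'] at h
        exact Finset.disjoint_left.mp (hφ3 i i' hii) (Finset.mem_image.mpr ⟨p, hp, rfl⟩)
          (Finset.mem_image.mpr ⟨p', hp', h.symm⟩)
      · apply h2'
        rw [← h, h2, h1]
        exact hmid1 i p hp
      · apply h2
        rw [h, h2', h1']
        exact hmid1 i' p' hp'
      · exact Finset.disjoint_left.mp (hψ3 i i' hii) (Finset.mem_image.mpr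
          ⟨u, Finset.mem_compl.mpr h1, rfl⟩) (Finset.mem_image.mpr
          ⟨v, Finset.mem_compl.mpr h1', h.symm⟩)
  have hψ0inj : Function.Injective ψ0 := (hS1 ψ0 hψ0).1.2
  have hnm : ∀ p, p ∉ Pd → (TV.r p.1 p.2 : TV g q) ∈ S0 := by
    intro p hp
    rw [hS0, Finset.mem_compl, mem_MR]
    push Not
    refine ⟨fun p' _ h => by simp at h, fun p' hp' h => hp ?_⟩
    have := inj_r h
    rw [this]
    exact hp'
  have hfS : (TV.f : TV g q) ∈ S0 := by rw [hS0, Finset.mem_compl, mem_MR]; simp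
  have hyS : ∀ b, (TV.y b : TV g q) ∈ S0 := fun b => by rw [hS0, Finset.mem_compl, mem_MR]; simp
  let ro : Fin g × Fin q → V := fun p => if p ∈ Pd then ψ0 (.y p.1) else ψ0 (.r p.1 p.2)
  have hroZ : ∀ p, ro p ∈ Z0 := by
    intro p
    show (if p ∈ Pd then ψ0 (.y p.1) else ψ0 (.r p.1 p.2)) ∈ Z0
    split <;> exact hZ0mem _
  have hhom : ∀ i, _ := fun i => (hom_TG G (ψ i)).mp (hψ1 i).1.1
  refine TB_of G g q t (ψ0 .f) ro (fun i => ψ i .x) (fun p => ψ p.1 (.y p.2))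
    (fun p => ψ p.1 (.m p.2.1 p.2.2)) ?_ ?_ ?_ ?_ ?_ ?_ ?_ ?_ ?_ ?_ ?_ ?_ ?_ ?_ ?_ ?_ ?_ ?_
  · intro i
    have := (hhom i).1
    rwa [hroot i .f (f_mem g q) hfS] at this
  · exact fun i b => (hhom i).2.1 b
  · exact fun i b j => (hhom i).2.2.1 b j
  · intro i b j
    show G.Adj (ψ i (.m b j)) (if (b, j) ∈ Pd then ψ0 (.y b) else ψ0 (.r b j))
    by_cases hp : (b, j) ∈ Pd
    · rw [if_pos hp, (hψ1 i).2 _ (hYm _ hp), ← hagree i _ (hyS b)]
      have := ((hom_TG G (φ i)).mp (hS1 _ (hS2 _ (hφ1 i)).1).1.1).2.2.1 b j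
      exact this.symm
    · rw [if_neg hp]
      have := (hhom i).2.2.2 b j
      rwa [hroot i _ (r_mem b j) (hnm (b, j) hp)] at this
  · intro p p' h
    simp only [ro] at h
    by_cases hp : p ∈ Pd <;> by_cases hp' : p' ∈ Pd
    · rw [if_pos hp, if_pos hp'] at h
      have := hψ0inj h
      simp only [TV.y.injEq] at this
      exact hPd1 p hp p' hp' this
    · rw [if_pos hp, if_neg hp'] at h
      have := hψ0inj h
      simp at this
    · rw [if_neg hp, if_pos hp'] at h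
      have := hψ0inj h
      simp at this
    · rw [if_neg hp, if_neg hp'] at h
      exact inj_r (hψ0inj h)
  · intro i i' h
    exact (fact1 i i' _ _ (x_nmem g q) (x_nmem g q) h).1
  · rintro ⟨i, b⟩ ⟨i', b'⟩ h
    obtain ⟨h1, h2⟩ := fact1 i i' _ _ (y_nmem b) (y_nmem b') h
    simp only [TV.y.injEq] at h2
    exact Prod.ext h1 h2
  · rintro ⟨i, b, j⟩ ⟨i', b', j'⟩ h
    obtain ⟨h1, h2⟩ := fact1 i i' _ _ (m_nmem b j) (m_nmem b' j') h
    simp only [TV.m.injEq] at h2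
    rw [h1, h2.1, h2.2]
  · intro p h
    simp only [ro] at h
    split at h
    · have := hψ0inj h
      simp at this
    · have := hψ0inj h
      simp at this
  · intro i h
    exact fact2 i _ (x_nmem g q) (h ▸ hZ0mem _)
  · intro p h
    exact fact2 p.1 _ (y_nmem p.2) (h ▸ hZ0mem _)
  · intro p h
    exact fact2 p.1 _ (m_nmem p.2.1 p.2.2) (h ▸ hZ0mem _)
  · intro p i h
    exact fact2 i _ (x_nmem g q) (h ▸ hroZ p)
  · intro p i h
    exact fact2 i.1 _ (y_nmem i.2) (h ▸ hroZ p)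
  · intro p i h
    exact fact2 i.1 _ (m_nmem i.2.1 i.2.2) (h ▸ hroZ p)
  · intro p i h
    have := (fact1 p i.1 _ _ (x_nmem g q) (y_nmem i.2) h).2
    simp at this
  · intro p i h
    have := (fact1 p i.1 _ _ (x_nmem g q) (m_nmem i.2.1 i.2.2) h).2
    simp at this
  · intro p i h
    have := (fact1 p.1 i.1 _ _ (y_nmem p.2) (m_nmem i.2.1 i.2.2) h).2
    simp at this

end Pool.Agent.TH476
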