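import Pool.Agent.TH476.Tree

set_option autoImplicit false

open Classical

namespace Pool.Agent.TH476

lemma avg {V : Type} [Fintype V] [Nonempty V] (X Q : ℕ) (f : V → ℕ)
    (h : Fintype.card V * X ≤ Q * ∑ v, f v) : ∃ v, X ≤ Q * f v := by
  by_contra hcon
  push Not at hcon
  have h1 : ∑ v : V, Q * f v < ∑ _v : V, X :=
    Finset.sum_lt_sum_of_nonempty Finset.univ_nonempty (fun v _ => hcon v)
  rw [← Finset.mul_sum, Finset.sum_const, Finset.card_univ, smul_eq_mul] at h1
  omega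

/-- typical vertices -/
lemma typical {V : Type} [Fintype V] (Γ : V → V → Prop) (hΓ : ∀ a b, Γ a b → Γ b a) (A : Finset V)
    (D K Q : ℕ) (hK : 0 < K) (hD : 0 < D) (hA : A.card ≤ K * D)
    (h : D ^ 2 ≤ Q * ∑ p ∈ A, (A.filter (fun p' => Γ p p')).card) :
    ∃ A' ⊆ A, ∃ f ∈ A, (∀ p ∈ A', D ≤ 2 * Q * K * (A.filter (fun p' => Γ p p')).card) ∧
      D ≤ 2 * Q * K * (A'.filter (fun p => Γ f p)).card := by
  set A' := A.filter (fun p => D ≤ 2 * Q * K * (A.filter (fun p' => Γ p p')).card) with hA'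
  have h1 : ∑ p ∈ A, (A.filter (fun p' => Γ p p')).card =
      ∑ p ∈ A', (A.filter (fun p' => Γ p p')).card +
      ∑ p ∈ A.filter (fun p => ¬ D ≤ 2 * Q * K * (A.filter (fun p' => Γ p p')).card),
        (A.filter (fun p' => Γ p p')).card := (Finset.sum_filter_add_sum_filter_not A _ _).symm
  have h2 : 2 * Q * K * ∑ p ∈ A.filter (fun p => ¬ D ≤ 2 * Q * K *
      (A.filter (fun p' => Γ p p')).card), (A.filter (fun p' => Γ p p')).card ≤ K * D * D := by
    rw [Finset.mul_sum]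
    calc _ ≤ ∑ p ∈ A.filter (fun p => ¬ D ≤ 2 * Q * K *
      (A.filter (fun p' => Γ p p')).card), D := by
          refine Finset.sum_le_sum fun p hp => ?_
          have := (Finset.mem_filter.mp hp).2
          omega
      _ ≤ K * D * D := by
          rw [Finset.sum_const, smul_eq_mul]
          exact Nat.mul_le_mul_right _ ((Finset.card_filter_le _ _).trans hA)
  have h3 : 2 * Q * ∑ p ∈ A.filter (fun p => ¬ D ≤ 2 * Q * K *
      (A.filter (fun p' => Γ p p')).card), (A.filter (fun p' => Γ p p')).card ≤ D * D := by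
    refine Nat.le_of_mul_le_mul_left ?_ hK
    calc _ = _ := by ring
      _ ≤ _ := h2
      _ = _ := by ring
  have h4 : D ^ 2 ≤ 2 * Q * ∑ p ∈ A', (A.filter (fun p' => Γ p p')).card := by
    have h5 : D ^ 2 = D * D := sq D
    have h6 : 2 * (Q * ∑ p ∈ A, (A.filter (fun p' => Γ p p')).card) =
      2 * Q * ∑ p ∈ A', (A.filter (fun p' => Γ p p')).card +
      2 * Q * ∑ p ∈ A.filter (fun p => ¬ D ≤ 2 * Q * K * (A.filter (fun p' => Γ p p')).card),
        (A.filter (fun p' => Γ p p')).card := by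
      rw [h1]; ring
    omega
  have h5 : ∑ p ∈ A', (A.filter (fun p' => Γ p p')).card =
      ∑ f ∈ A, (A'.filter (fun p => Γ f p)).card := by
    have e1 : ∀ p ∈ A', (A.filter (fun p' => Γ p p')).card = ∑ f ∈ A, if Γ f p then 1 else 0 := by
      intro p _
      rw [Finset.card_filter]
      refine Finset.sum_congr rfl fun f _ => ?_
      by_cases hf : Γ p f
      · rw [if_pos hf, if_pos (hΓ _ _ hf)]
      · rw [if_neg hf, if_neg (fun h => hf (hΓ _ _ h))]
    rw [Finset.sum_congr rfl e1, Finset.sum_comm]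
    refine Finset.sum_congr rfl fun f _ => ?_
    rw [Finset.card_filter]
  refine ⟨A', Finset.filter_subset _ _, ?_⟩
  by_contra hcon
  push Not at hcon
  have h6 : ∀ f ∈ A, 2 * Q * K * (A'.filter (fun p => Γ f p)).card < D := fun f hf =>
    hcon f hf (fun p hp => (Finset.mem_filter.mp hp).2)
  have hne : A.Nonempty := by
    rw [Finset.nonempty_iff_ne_empty]
    rintro rfl
    simp at h
    omega
  have h7 : ∑ f ∈ A, 2 * Q * K * (A'.filter (fun p => Γ f p)).card < ∑ f ∈ A, D :=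
    Finset.sum_lt_sum_of_nonempty hne h6
  rw [← Finset.mul_sum, ← h5, Finset.sum_const, smul_eq_mul] at h7
  have h8 : A.card * D ≤ K * D * D := Nat.mul_le_mul_right _ hA
  have h9 : K * D * D ≤ 2 * Q * K * ∑ p ∈ A', (A.filter (fun p' => Γ p p')).card := by
    calc K * D * D = K * D ^ 2 := by ring
      _ ≤ K * (2 * Q * ∑ p ∈ A', (A.filter (fun p' => Γ p p')).card) := Nat.mul_le_mul_left _ h4
      _ = _ := by ring
  omega

/-- many neighbours of f with many neighbours in A' -/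
lemma many_nb {V : Type} [Fintype V] (G : SimpleGraph V) (D K Q2 L M0 s0 : ℕ) (hG : AR G D K)
    (hD : 0 < D) (f : V) (A' P : Finset V) (hA' : A'.card ≤ K * D) (hP : P ⊆ A')
    (h1 : D ≤ Q2 * P.card) (h2 : ∀ p ∈ P, L ≤ (nb G f ∩ nb G p).card)
    (hL : Q2 * K * (M0 + s0) < L) :
    M0 ≤ ((nb G f).filter (fun v => s0 ≤ (nb G v ∩ A').card)).card := by
  by_contra hcon
  push Not at hcon
  have h3 : ∑ p ∈ P, (nb G f ∩ nb G p).card = ∑ v ∈ nb G f, (nb G v ∩ P).card := by
    have e1 : ∀ p ∈ P, (nb G f ∩ nb G p).card = ∑ v ∈ nb G f, if G.Adj v p then 1 else 0 := by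
      intro p _
      rw [← Finset.card_filter]
      congr 1
      ext v
      simp only [Finset.mem_inter, mem_nb, Finset.mem_filter, G.adj_comm p v]
    rw [Finset.sum_congr rfl e1, Finset.sum_comm]
    refine Finset.sum_congr rfl fun v _ => ?_
    rw [← Finset.card_filter]
    congr 1
    ext p
    simp only [Finset.mem_inter, mem_nb, Finset.mem_filter, and_comm]
  have h4 : P.card * L ≤ ∑ p ∈ P, (nb G f ∩ nb G p).card := by
    rw [← smul_eq_mul, ← Finset.sum_const]
    exact Finset.sum_le_sum h2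
  have h5 : ∑ v ∈ nb G f, (nb G v ∩ P).card ≤
      ((nb G f).filter (fun v => s0 ≤ (nb G v ∩ A').card)).card * (K * D) + (nb G f).card * s0 := by
    rw [← Finset.sum_filter_add_sum_filter_not (nb G f) (fun v => s0 ≤ (nb G v ∩ A').card)]
    refine Nat.add_le_add ?_ ?_
    · rw [← smul_eq_mul, ← Finset.sum_const]
      refine Finset.sum_le_sum fun v _ => ?_
      exact (Finset.card_le_card Finset.inter_subset_right).trans
        ((Finset.card_le_card hP).trans hA')
    · calc _ ≤ ∑ v ∈ (nb G f).filter (fun v => ¬ s0 ≤ (nb G v ∩ A').card), s0 := by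
            refine Finset.sum_le_sum fun v hv => ?_
            have h6 := (Finset.mem_filter.mp hv).2
            have h7 : (nb G v ∩ P).card ≤ (nb G v ∩ A').card :=
              Finset.card_le_card (Finset.inter_subset_inter_left hP)
            omega
        _ ≤ _ := by
            rw [Finset.sum_const, smul_eq_mul]
            exact Nat.mul_le_mul_right _ (Finset.card_filter_le _ _)
  set M := ((nb G f).filter (fun v => s0 ≤ (nb G v ∩ A').card)).card with hM
  have h6 : D * L ≤ Q2 * K * (M + s0) * D := by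
    calc D * L ≤ Q2 * P.card * L := Nat.mul_le_mul_right _ h1
      _ = Q2 * (P.card * L) := by ring
      _ ≤ Q2 * (M * (K * D) + (nb G f).card * s0) := Nat.mul_le_mul_left _ (h4.trans (h3 ▸ h5))
      _ ≤ Q2 * (M * (K * D) + (K * D) * s0) :=
          Nat.mul_le_mul_left _ (Nat.add_le_add_left (Nat.mul_le_mul_right _ (hG.hi f)) _)
      _ = Q2 * K * (M + s0) * D := by ring
  have h7 : L ≤ Q2 * K * (M + s0) := by
    refine Nat.le_of_mul_le_mul_left ?_ hD
    calc D * L ≤ _ := h6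
      _ = _ := by ring
  have h8 : Q2 * K * (M + s0) ≤ Q2 * K * (M0 + s0) := Nat.mul_le_mul_left _ (by omega)
  omega

/-- choice of the roots -/
lemma choose_roots {V : Type} [Fintype V] {g q : ℕ} (n : ℕ) (hn : n = g * q) (hgq : 0 < n)
    (t K Q2 D ζ M : ℕ) (hM : M = 2 * t * (Q2 * K) ^ n)
    (hK : 0 < K) (hQ2 : 0 < Q2) (ht : 0 < t) (hD : 0 < D) (A : Finset V) (hA : A.card ≤ K * D)
    (B : Fin M → Fin g → Finset V) (hB : ∀ i b, B i b ⊆ A)
    (hBc : ∀ i b, D ≤ Q2 * (B i b).card) (Z : Finset V) (hZ : Z.card ≤ ζ)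
    (hDb : 2 * Q2 ^ n * ((n * ζ + n ^ 2) * K ^ (n - 1)) ≤ D) :
    ∃ ρ : Fin g × Fin q → V, Function.Injective ρ ∧ (∀ p, ρ p ∉ Z) ∧
      ∃ σ : Fin t → Fin M, Function.Injective σ ∧
        ∀ i b j, ρ (b, j) ∈ B (σ i) b := by
  have hκ : Fintype.card (Fin g × Fin q) = n := by simp [hn]
  set U : Finset (Fin g × Fin q → V) := Fintype.piFinset (fun _ => A) with hU
  obtain ⟨Pz, hPz⟩ : ∃ P : V → Prop, ∀ z, P z ↔ z ∈ Z := ⟨_, fun _ => Iff.rfl⟩
  set Bad := U.filter (fun ρ => (∃ u, Pz (ρ u)) ∨ ∃ u v, u ≠ v ∧ ρ u = ρ v) with hBad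
  have hbad : Bad.card ≤ (n * ζ + n ^ 2 * 1) * A.card ^ (n - 1) := by
    have := pi_bad' (κ := Fin g × Fin q) A Pz (fun a b => a = b) ζ 1
      ((Finset.card_le_card (by
        intro z hz
        exact (hPz z).mp (Finset.mem_filter.mp hz).2)).trans hZ)
      (fun a _ => Finset.card_le_one.mpr fun b hb c hc => by
        rw [← (Finset.mem_filter.mp hb).2, ← (Finset.mem_filter.mp hc).2])
    rw [hκ] at this
    refine le_trans (Finset.card_le_card ?_) this
    intro ρ hρ
    exact Finset.mem_filter.mpr (Finset.mem_filter.mp hρ)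
  by_contra hcon
  push Not at hcon
  have hfew : ∀ ρ ∈ U, ρ ∉ Bad →
      ((Finset.univ : Finset (Fin M)).filter (fun i => ∀ p, ρ p ∈ B i p.1)).card ≤ t - 1 := by
    intro ρ hρ hnb
    by_contra hlt
    push Not at hlt
    have h1 : ¬ ((∃ u, Pz (ρ u)) ∨ ∃ u v, u ≠ v ∧ ρ u = ρ v) := fun h =>
      hnb (Finset.mem_filter.mpr ⟨hρ, h⟩)
    push Not at h1
    obtain ⟨h2', h3⟩ := h1
    have h2 : ∀ u, ρ u ∉ Z := fun u h => h2' u ((hPz _).mpr h)
    have hinj : Function.Injective ρ := by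
      intro u v huv
      by_contra hne
      exact h3 u v hne huv
    have hcard : t ≤ ((Finset.univ : Finset (Fin M)).filter (fun i => ∀ p, ρ p ∈ B i p.1)).card := by
      omega
    obtain ⟨T, hT1, hT2⟩ := Finset.exists_subset_card_eq hcard
    let σ : Fin t → Fin M := fun i => (T.equivFinOfCardEq hT2).symm i
    obtain ⟨i, b, j, h4⟩ := hcon ρ hinj h2 σ (by
      intro a b hab
      exact (T.equivFinOfCardEq hT2).symm.injective (Subtype.ext hab))
    apply h4
    have h5 : σ i ∈ T := ((T.equivFinOfCardEq hT2).symm i).2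
    exact (Finset.mem_filter.mp (hT1 h5)).2 (b, j)
  -- double counting
  have hgood : ∀ i, D ^ n ≤ Q2 ^ n * (U.filter (fun ρ => ∀ p, ρ p ∈ B i p.1)).card := by
    intro i
    have e1 : U.filter (fun ρ => ∀ p, ρ p ∈ B i p.1) = Fintype.piFinset (fun p => B i p.1) := by
      ext ρ
      simp only [hU, Finset.mem_filter, Fintype.mem_piFinset]
      exact ⟨fun h => h.2, fun h => ⟨fun p => hB i p.1 (h p), h⟩⟩
    rw [e1, Fintype.card_piFinset, ← hκ]
    rw [← Finset.card_univ (α := Fin g × Fin q), ← Finset.prod_const, ← Finset.prod_const,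
      ← Finset.prod_mul_distrib]
    exact Finset.prod_le_prod (fun _ _ => Nat.zero_le _) (fun p _ => hBc i p.1)
  have hsum : ∑ i : Fin M, (U.filter (fun ρ => ∀ p, ρ p ∈ B i p.1)).card =
      ∑ ρ ∈ U, ((Finset.univ : Finset (Fin M)).filter (fun i => ∀ p, ρ p ∈ B i p.1)).card := by
    simp only [Finset.card_filter]
    rw [Finset.sum_comm]
  have hUc : U.card ≤ (K * D) ^ n := by
    rw [hU, Fintype.card_piFinset, Finset.prod_const, Finset.card_univ, hκ]
    exact Nat.pow_le_pow_left hA n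
  have hle : ∑ ρ ∈ U, ((Finset.univ : Finset (Fin M)).filter (fun i => ∀ p, ρ p ∈ B i p.1)).card ≤
      Bad.card * M + (K * D) ^ n * (t - 1) := by
    rw [← Finset.sum_filter_add_sum_filter_not U (fun ρ => ρ ∈ Bad)]
    refine Nat.add_le_add ?_ ?_
    · calc _ ≤ ∑ ρ ∈ U.filter (fun ρ => ρ ∈ Bad), M := Finset.sum_le_sum fun ρ _ => by
            refine (Finset.card_le_univ _).trans ?_
            rw [Fintype.card_fin]
        _ ≤ _ := by
            rw [Finset.sum_const, smul_eq_mul]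
            refine Nat.mul_le_mul_right _ (Finset.card_le_card ?_)
            intro ρ hρ
            exact (Finset.mem_filter.mp hρ).2
    · calc _ ≤ ∑ ρ ∈ U.filter (fun ρ => ρ ∉ Bad), (t - 1) := Finset.sum_le_sum fun ρ hρ =>
            hfew ρ (Finset.mem_filter.mp hρ).1 (Finset.mem_filter.mp hρ).2
        _ ≤ _ := by
            rw [Finset.sum_const, smul_eq_mul]
            exact Nat.mul_le_mul_right _ ((Finset.card_filter_le _ _).trans hUc)
  have h1 : M * D ^ n ≤ Q2 ^ n * (Bad.card * M + (K * D) ^ n * (t - 1)) := by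
    calc M * D ^ n = ∑ i : Fin M, D ^ n := by
          rw [Finset.sum_const, Finset.card_univ, Fintype.card_fin, smul_eq_mul]
      _ ≤ ∑ i : Fin M, Q2 ^ n * (U.filter (fun ρ => ∀ p, ρ p ∈ B i p.1)).card :=
          Finset.sum_le_sum fun i _ => hgood i
      _ = Q2 ^ n * ∑ i : Fin M, (U.filter (fun ρ => ∀ p, ρ p ∈ B i p.1)).card := by
          rw [Finset.mul_sum]
      _ ≤ _ := Nat.mul_le_mul_left _ (hsum ▸ hle)
  have h2 : 2 * Q2 ^ n * Bad.card ≤ D ^ n := by
    calc 2 * Q2 ^ n * Bad.card ≤ 2 * Q2 ^ n * ((n * ζ + n ^ 2 * 1) * A.card ^ (n - 1)) :=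
          Nat.mul_le_mul_left _ hbad
      _ ≤ 2 * Q2 ^ n * ((n * ζ + n ^ 2 * 1) * (K * D) ^ (n - 1)) :=
          Nat.mul_le_mul_left _ (Nat.mul_le_mul_left _ (Nat.pow_le_pow_left hA _))
      _ = 2 * Q2 ^ n * ((n * ζ + n ^ 2) * K ^ (n - 1)) * D ^ (n - 1) := by rw [mul_pow]; ring
      _ ≤ D * D ^ (n - 1) := Nat.mul_le_mul_right _ hDb
      _ = D ^ n := by
          rw [← pow_succ', Nat.sub_add_cancel hgq]
  have h3 : 2 * (Q2 ^ n * (K * D) ^ n * (t - 1)) + (2 * (Q2 * K) ^ n * D ^ n) = M * D ^ n := by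
    obtain ⟨t', rfl⟩ : ∃ t', t = t' + 1 := ⟨t - 1, by omega⟩
    rw [hM, Nat.add_sub_cancel, mul_pow K D, mul_pow Q2 K]
    ring
  have h4 : 0 < (Q2 * K) ^ n * D ^ n := by positivity
  have h5 : 2 * (M * D ^ n) ≤ M * D ^ n + 2 * (Q2 ^ n * (K * D) ^ n * (t - 1)) := by
    calc 2 * (M * D ^ n) ≤ 2 * (Q2 ^ n * (Bad.card * M + (K * D) ^ n * (t - 1))) :=
          Nat.mul_le_mul_left _ h1
      _ = M * (2 * Q2 ^ n * Bad.card) + 2 * (Q2 ^ n * (K * D) ^ n * (t - 1)) := by ring
      _ ≤ M * D ^ n + 2 * (Q2 ^ n * (K * D) ^ n * (t - 1)) :=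
          Nat.add_le_add_right (Nat.mul_le_mul_left _ h2) _
  have h6 : 2 * (Q2 * K) ^ n * D ^ n = 2 * ((Q2 * K) ^ n * D ^ n) := by ring
  omega

end Pool.Agent.TH476
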