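import Pool.Agent.TH476.CaseC

set_option autoImplicit false

open Classical

namespace Pool.Agent.TH476

/-- greedy choice of distinct vertices -/
lemma greedy1 {κ V : Type} [Fintype κ] (P : κ → V → Prop) (Z₀ : Finset V)
    (h : ∀ i, ∀ Z : Finset V, Z.card ≤ Z₀.card + Fintype.card κ → ∃ a, P i a ∧ a ∉ Z) :
    ∃ a : κ → V, (∀ i, P i (a i)) ∧ (∀ i, a i ∉ Z₀) ∧ Function.Injective a := by
  obtain ⟨a, h1, h2, h3⟩ := greedy (fun (_ : κ) (a : V) => ({a} : Finset V)) 1 P Z₀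
    (fun _ _ _ => by simp) (fun i Z hZ => by
      obtain ⟨a, h1, h2⟩ := h i Z (by simpa using hZ)
      exact ⟨a, h1, by simpa using h2⟩)
  refine ⟨a, h1, fun i => by simpa using h2 i, ?_⟩
  intro i j hij
  by_contra hne
  have := h3 i j hne
  rw [Finset.disjoint_singleton_left] at this
  exact this (by rw [hij]; exact Finset.mem_singleton_self _)

lemma exists_notMem {V : Type} (A Z : Finset V) (h : Z.card < A.card) : ∃ a ∈ A, a ∉ Z := by
  by_contra hcon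
  push Not at hcon
  exact absurd (Finset.card_le_card hcon) (by omega)

/-- large codegree -/
def Cd {V : Type} [Fintype V] (G : SimpleGraph V) (L : ℕ) (p p' : V) : Prop :=
  L ≤ (nb G p ∩ nb G p').card

/-- the pairs of neighbours of h with large codegree -/
lemma hub {V : Type} [Fintype V] [Nonempty V] (G : SimpleGraph V) (D Q L : ℕ)
    (h : Fintype.card V * D ^ 2 ≤ Q * (Finset.univ.filter (fun z : V × V × V =>
      G.Adj z.2.1 z.1 ∧ G.Adj z.2.1 z.2.2 ∧ Cd G L z.1 z.2.2)).card) :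
    ∃ w, D ^ 2 ≤ Q * ∑ p ∈ nb G w, ((nb G w).filter (fun p' => Cd G L p p')).card := by
  refine avg (D ^ 2) Q (fun w => ∑ p ∈ nb G w, ((nb G w).filter (fun p' => Cd G L p p')).card) (h.trans (Nat.mul_le_mul_left _ ?_))
  have hsub : (Finset.univ.filter (fun z : V × V × V =>
      G.Adj z.2.1 z.1 ∧ G.Adj z.2.1 z.2.2 ∧ Cd G L z.1 z.2.2)) ⊆
      (Finset.univ : Finset V).biUnion (fun w => (nb G w).biUnion (fun p =>
        ((nb G w).filter (fun p' => Cd G L p p')).image (fun p' => (p, w, p')))) := by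
    rintro ⟨p, w, p'⟩ hz
    simp only [Finset.mem_filter, Finset.mem_univ, true_and] at hz
    refine Finset.mem_biUnion.mpr ⟨w, Finset.mem_univ _, Finset.mem_biUnion.mpr ⟨p,
      (mem_nb _ _ _).mpr hz.1, Finset.mem_image.mpr ⟨p', Finset.mem_filter.mpr
        ⟨(mem_nb _ _ _).mpr hz.2.1, hz.2.2⟩, rfl⟩⟩⟩
  refine (Finset.card_le_card hsub).trans (Finset.card_biUnion_le.trans ?_)
  refine Finset.sum_le_sum fun w _ => Finset.card_biUnion_le.trans ?_
  exact Finset.sum_le_sum fun p _ => Finset.card_image_le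

theorem caseC (Q K g q t : ℕ) (hQ : 0 < Q) (hK : 0 < K) (hgq : 0 < g * q) (ht : 0 < t) :
    ∃ L D0 : ℕ, ∀ (V : Type) [Fintype V] [Nonempty V] (G : SimpleGraph V) (D : ℕ), AR G D K →
    D0 ≤ D → Fintype.card V * D ^ 2 ≤ Q * (Finset.univ.filter (fun z : V × V × V =>
      G.Adj z.2.1 z.1 ∧ G.Adj z.2.1 z.2.2 ∧ Cd G L z.1 z.2.2)).card →
    TB G g q t := by
  obtain ⟨n, hn⟩ : ∃ n, n = g * q := ⟨_, rfl⟩
  obtain ⟨Q2, hQ2⟩ : ∃ Q2, Q2 = 2 * Q * K := ⟨_, rfl⟩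
  obtain ⟨M, hM⟩ : ∃ M, M = 2 * t * (Q2 * K) ^ n := ⟨_, rfl⟩
  obtain ⟨ζ, hζ⟩ : ∃ ζ, ζ = 1 + M + M * g := ⟨_, rfl⟩
  refine ⟨Q2 * K * (M + (ζ + 1)) + 1 + (ζ + n + t * (g * q) + 1),
    2 * Q2 ^ n * ((n * ζ + n ^ 2) * K ^ (n - 1)) + 1, ?_⟩
  intro V _ _ G D hG hD hcount
  have hQ2pos : 0 < Q2 := by rw [hQ2]; positivity
  have hDpos : 0 < D := by omega
  obtain ⟨L, hL⟩ : ∃ L, L = Q2 * K * (M + (ζ + 1)) + 1 + (ζ + n + t * (g * q) + 1) := ⟨_, rfl⟩
  rw [← hL] at hcount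
  obtain ⟨w, hw⟩ := hub G D Q L hcount
  obtain ⟨A', hA', f, hf, h1, h2⟩ := typical (fun p p' => Cd G L p p')
    (fun a b h => by unfold Cd at h ⊢; rw [Finset.inter_comm]; exact h) (nb G w) D K Q hK hDpos (hG.hi w) hw
  rw [← hQ2] at h2
  have h1' : ∀ p ∈ A', D ≤ Q2 * ((nb G w).filter (fun p' => Cd G L p p')).card := by
    intro p hp
    rw [hQ2]
    exact h1 p hp
  have h3 := many_nb G D K Q2 L M (ζ + 1) hG hDpos f A'
    (A'.filter (fun p => Cd G L f p))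
    ((Finset.card_le_card hA').trans (hG.hi w)) (Finset.filter_subset _ _) h2
    (fun p hp => (Finset.mem_filter.mp hp).2) (by omega)
  obtain ⟨T, hT1, hT2⟩ := Finset.exists_subset_card_eq h3
  let v : Fin M → V := fun i => ((T.equivFinOfCardEq hT2).symm i).1
  have hv : Function.Injective v := fun a b hab =>
    (T.equivFinOfCardEq hT2).symm.injective (Subtype.ext hab)
  have hvT : ∀ i, G.Adj f (v i) ∧ ζ + 1 ≤ (nb G (v i) ∩ A').card := by
    intro i
    have := Finset.mem_filter.mp (hT1 ((T.equivFinOfCardEq hT2).symm i).2)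
    exact ⟨(mem_nb _ _ _).mp this.1, this.2⟩
  obtain ⟨Z1, hZ1⟩ : ∃ Z1 : Finset V, Z1 = insert f (Finset.univ.image v) := ⟨_, rfl⟩
  have hZ1c : Z1.card ≤ 1 + M := by
    rw [hZ1]
    refine (Finset.card_insert_le _ _).trans ?_
    have : (Finset.univ.image v).card ≤ M := Finset.card_image_le.trans (by simp)
    omega
  obtain ⟨y, hy1, hy2, hy3⟩ := greedy1 (κ := Fin M × Fin g)
    (fun p a => a ∈ nb G (v p.1) ∩ A') Z1 (by
      intro p Z hZ
      refine exists_notMem _ _ (lt_of_lt_of_le ?_ (hvT p.1).2)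
      have : Fintype.card (Fin M × Fin g) = M * g := by simp
      rw [this] at hZ
      omega)
  obtain ⟨Z2, hZ2⟩ : ∃ Z2 : Finset V, Z2 = Z1 ∪ Finset.univ.image y := ⟨_, rfl⟩
  have hZ2c : Z2.card ≤ ζ := by
    rw [hZ2]
    refine (Finset.card_union_le _ _).trans ?_
    have : (Finset.univ.image y).card ≤ M * g := Finset.card_image_le.trans (by simp)
    omega
  obtain ⟨ρ, hρ1, hρ2, σ, hσ1, hσ2⟩ := choose_roots n hn (by omega) t K Q2 D ζ M hM hK hQ2pos ht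
    hDpos (nb G w) (hG.hi w)
    (fun i b => (nb G w).filter (fun p' => Cd G L (y (i, b)) p'))
    (fun i b => Finset.filter_subset _ _)
    (fun i b => h1' _ (Finset.mem_of_mem_inter_right (hy1 (i, b)))) Z2 hZ2c (by omega)
  obtain ⟨Z3, hZ3⟩ : ∃ Z3 : Finset V, Z3 = Z2 ∪ Finset.univ.image ρ := ⟨_, rfl⟩
  have hZ3c : Z3.card ≤ ζ + n := by
    rw [hZ3]
    refine (Finset.card_union_le _ _).trans ?_
    have : (Finset.univ.image ρ).card ≤ n := Finset.card_image_le.trans (by simp [hn])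
    omega
  obtain ⟨m, hm1, hm2, hm3⟩ := greedy1 (κ := Fin t × Fin g × Fin q)
    (fun p a => a ∈ nb G (y (σ p.1, p.2.1)) ∩ nb G (ρ p.2)) Z3 (by
      intro p Z hZ
      have h5 := (Finset.mem_filter.mp (hσ2 p.1 p.2.1 p.2.2)).2
      refine exists_notMem _ _ (lt_of_lt_of_le ?_ h5)
      have : Fintype.card (Fin t × Fin g × Fin q) = t * (g * q) := by simp
      rw [this] at hZ
      omega)
  have hfZ : f ∈ Z1 := by rw [hZ1]; exact Finset.mem_insert_self _ _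
  have hvZ : ∀ i, v i ∈ Z1 := fun i => by
    rw [hZ1]; exact Finset.mem_insert_of_mem (Finset.mem_image_of_mem _ (Finset.mem_univ _))
  have hyZ : ∀ i, y i ∈ Z2 := fun i => by
    rw [hZ2]; exact Finset.mem_union_right _ (Finset.mem_image_of_mem _ (Finset.mem_univ _))
  have h12 : ∀ z ∈ Z1, z ∈ Z2 := fun z hz => by rw [hZ2]; exact Finset.mem_union_left _ hz
  have h23 : ∀ z ∈ Z2, z ∈ Z3 := fun z hz => by rw [hZ3]; exact Finset.mem_union_left _ hz
  have hρZ : ∀ i, ρ i ∈ Z3 := fun i => by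
    rw [hZ3]; exact Finset.mem_union_right _ (Finset.mem_image_of_mem _ (Finset.mem_univ _))
  refine TB_of G g q t f ρ (fun i => v (σ i)) (fun p => y (σ p.1, p.2)) m ?_ ?_ ?_ ?_ hρ1
    (hv.comp hσ1) ?_ hm3 ?_ ?_ ?_ ?_ ?_ ?_ ?_ ?_ ?_ ?_
  · exact fun i => (hvT (σ i)).1.symm
  · intro i b
    exact (mem_nb _ _ _).mp (Finset.mem_of_mem_inter_left (hy1 (σ i, b)))
  · intro i b j
    exact (mem_nb _ _ _).mp (Finset.mem_of_mem_inter_left (hm1 (i, b, j)))
  · intro i b j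
    exact ((mem_nb _ _ _).mp (Finset.mem_of_mem_inter_right (hm1 (i, b, j)))).symm
  · rintro ⟨i, b⟩ ⟨i', b'⟩ h
    have := hy3 h
    simp only [Prod.mk.injEq] at this
    exact Prod.ext (hσ1 this.1) this.2
  · intro p h
    exact hρ2 p (h ▸ h12 _ hfZ)
  · intro i h
    -- f ≠ v i since f is adjacent to v i
    exact (hvT (σ i)).1.ne h
  · intro p h
    exact hy2 (σ p.1, p.2) (h ▸ hfZ)
  · intro p h
    exact hm2 p (h ▸ h23 _ (h12 _ hfZ))
  · intro p i h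
    exact hρ2 p (h ▸ h12 _ (hvZ _))
  · intro p i h
    exact hρ2 p (h ▸ hyZ _)
  · intro p i h
    exact hm2 i (h ▸ hρZ _)
  · intro p i h
    exact hy2 (σ i.1, i.2) (h ▸ hvZ _)
  · intro p i h
    exact hm2 i (h ▸ h23 _ (h12 _ (hvZ _)))
  · intro p i h
    exact hm2 i (h ▸ h23 _ (hyZ _))

end Pool.Agent.TH476
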