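import Pool.Agent.TH476.CaseB2

set_option autoImplicit false

open Classical

namespace Pool.Agent.TH476

lemma Rich.mono {ι V : Type} [Fintype ι] {𝓕 : Set (ι → V)} {L L' : ℕ} {Y : Finset ι} {φ : ι → V}
    (h : Rich 𝓕 L Y φ) (hL : L' ≤ L) : Rich 𝓕 L' Y φ := by
  obtain ⟨F, h1, h2, h3⟩ := h
  refine ⟨fun i => F (Fin.castLE hL i), fun i => h1 _, fun i => h2 _, fun i j hij => h3 _ _ ?_⟩
  intro h
  exact hij (Fin.castLE_injective hL h)

lemma cd_of_rich {ι V : Type} [Fintype ι] [Fintype V] {T : SimpleGraph ι} {G : SimpleGraph V} {L : ℕ}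
    {Y : Finset ι} {φ : ι → V} (h : Rich {φ | Emb T G φ} L Y φ) {u v w : ι} (hv : v ∉ Y)
    (hu : u ∈ Y) (hw : w ∈ Y) (huv : T.Adj u v) (hvw : T.Adj v w) : Cd G L (φ u) (φ w) := by
  obtain ⟨F, h1, h2, h3⟩ := h
  unfold Cd
  have hinj : Function.Injective (fun i => F i v) := by
    intro i j hij
    by_contra hne
    exact h3 i j hne v hv v hv hij
  have h4 : (Finset.univ.image (fun i => F i v)).card = L := by
    rw [Finset.card_image_of_injective _ hinj, Finset.card_univ, Fintype.card_fin]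
  rw [← h4]
  refine Finset.card_le_card ?_
  intro z hz
  obtain ⟨i, _, rfl⟩ := Finset.mem_image.mp hz
  rw [Finset.mem_inter, mem_nb, mem_nb, ← h2 i u hu, ← h2 i w hw]
  exact ⟨(h1 i).1 _ _ huv, ((h1 i).1 _ _ hvw).symm⟩

/-- case C from rich embeddings -/
lemma useC {V : Type} [Fintype V] {g q : ℕ} (G : SimpleGraph V) (D K Q L L' : ℕ) (hD : 0 < D)
    (hG : AR G D K) (hL : L' ≤ L) (Y : Finset (TV g q)) (u v w : TV g q) (hv : v ∉ Y) (hu : u ∈ Y)
    (hw : w ∈ Y) (huw : u ≠ w) (huv : (TG g q).Adj u v) (hvw : (TG g q).Adj v w)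
    (n : ℕ) (hn : Fintype.card (TV g q) = n + 3)
    (h : Fintype.card V * D ^ (n + 2) ≤ Q * (Finset.univ.filter (fun φ : TV g q → V =>
      Emb (TG g q) G φ ∧ Rich {φ | Emb (TG g q) G φ} L Y φ)).card) :
    Fintype.card V * D ^ 2 ≤ (Q * K ^ n) * (Finset.univ.filter (fun z : V × V × V =>
      G.Adj z.2.1 z.1 ∧ G.Adj z.2.1 z.2.2 ∧ Cd G L' z.1 z.2.2)).card := by
  obtain ⟨𝓢, h𝓢⟩ : ∃ 𝓢, 𝓢 = Finset.univ.filter (fun φ : TV g q → V =>
      Emb (TG g q) G φ ∧ Rich {φ | Emb (TG g q) G φ} L Y φ) := ⟨_, rfl⟩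
  rw [← h𝓢] at h
  have hS1 : ∀ φ ∈ 𝓢, Emb (TG g q) G φ ∧ Rich {φ | Emb (TG g q) G φ} L Y φ := fun φ hφ => by
    rw [h𝓢] at hφ
    exact (Finset.mem_filter.mp hφ).2
  have huv' : u ≠ v := fun e => hv (e ▸ hu)
  have hwv' : v ≠ w := fun e => hv (e ▸ hw)
  have h1 := proj_le (TG g q) (TG_conn g q) G D K hG {u, v, w} ⟨u, by simp⟩ 𝓢
    (fun φ hφ => (hS1 φ hφ).1.1) (fun φ => (φ u, φ v, φ w)) (by
      intro φ _ ψ _ he z hz
      simp only [Prod.mk.injEq] at he
      simp only [Finset.mem_insert, Finset.mem_singleton] at hz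
      rcases hz with rfl | rfl | rfl
      · exact he.1
      · exact he.2.1
      · exact he.2.2)
  have hc : ({u, v, w} : Finset (TV g q))ᶜ.card = n := by
    rw [Finset.card_compl, hn, Finset.card_insert_of_notMem (by simp [huv', huw]),
      Finset.card_pair hwv']
    omega
  rw [hc] at h1
  replace h1 : 𝓢.card ≤ (K * D) ^ n * (𝓢.image (fun φ => (φ u, φ v, φ w))).card :=
    h1.trans (Nat.mul_le_mul_left _ (image_inst _ _ _ 𝓢).le)
  have h2 : (𝓢.image (fun φ => (φ u, φ v, φ w))).card ≤ (Finset.univ.filter (fun z : V × V × V =>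
      G.Adj z.2.1 z.1 ∧ G.Adj z.2.1 z.2.2 ∧ Cd G L' z.1 z.2.2)).card := by
    refine Finset.card_le_card ?_
    intro z hz
    obtain ⟨φ, hφ, rfl⟩ := Finset.mem_image.mp hz
    obtain ⟨h3, h4⟩ := hS1 φ hφ
    refine Finset.mem_filter.mpr ⟨Finset.mem_univ _, (h3.1 _ _ huv).symm, h3.1 _ _ hvw, ?_⟩
    exact cd_of_rich (h4.mono hL) hv hu hw huv hvw
  have hpos : 0 < D ^ n := by positivity
  refine Nat.le_of_mul_le_mul_right ?_ hpos
  calc Fintype.card V * D ^ 2 * D ^ n = Fintype.card V * D ^ (n + 2) := by rw [pow_add]; ring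
    _ ≤ Q * 𝓢.card := h
    _ ≤ Q * ((K * D) ^ n * (𝓢.image (fun φ => (φ u, φ v, φ w))).card) :=
        Nat.mul_le_mul_left _ h1
    _ ≤ Q * ((K * D) ^ n * (Finset.univ.filter (fun z : V × V × V =>
      G.Adj z.2.1 z.1 ∧ G.Adj z.2.1 z.2.2 ∧ Cd G L' z.1 z.2.2)).card) :=
        Nat.mul_le_mul_left _ (Nat.mul_le_mul_left _ h2)
    _ = _ := by rw [mul_pow]; ring

/-- the vertices of the branch b, with x -/
noncomputable def Br {g : ℕ} (q : ℕ) (b : Fin g) : Finset (TV g q) :=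
  {TV.x, TV.y b} ∪ ((Finset.univ : Finset (Fin q)).image (fun j => TV.m b j) ∪
    (Finset.univ : Finset (Fin q)).image (fun j => TV.r b j))

lemma Br_card {g : ℕ} (q : ℕ) (b : Fin g) : (Br q b).card = 2 + 2 * q := by
  unfold Br
  rw [Finset.card_union_of_disjoint, Finset.card_union_of_disjoint, Finset.card_pair (by simp),
    Finset.card_image_of_injective, Finset.card_image_of_injective, Finset.card_univ,
    Fintype.card_fin]
  · ring
  · intro a c h
    simpa using h
  · intro a c h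
    simpa using h
  · rw [Finset.disjoint_left]
    intro v h1 h2
    obtain ⟨p, _, rfl⟩ := Finset.mem_image.mp h1
    obtain ⟨p', _, h⟩ := Finset.mem_image.mp h2
    simp at h
  · rw [Finset.disjoint_left]
    intro v h1 h2
    simp only [Finset.mem_insert, Finset.mem_singleton] at h1
    simp only [Finset.mem_union, Finset.mem_image, Finset.mem_univ, true_and] at h2
    rcases h1 with rfl | rfl <;> rcases h2 with ⟨j, h2⟩ | ⟨j, h2⟩ <;> simp at h2

/-- case A from rich embeddings -/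
lemma useA {V : Type} [Fintype V] {g q : ℕ} (G : SimpleGraph V) (D K Q L L' : ℕ) (hD : 0 < D)
    (hG : AR G D K) (hL : L' ≤ L) (Y : Finset (TV g q)) (b : Fin g) (hx : TV.x ∈ Y)
    (hr : ∀ j, TV.r b j ∈ Y) (hy : TV.y b ∉ Y) (hm : ∀ j, TV.m b j ∉ Y)
    (n : ℕ) (hn : Fintype.card (TV g q) = n + (2 + 2 * q))
    (h : Fintype.card V * D ^ (n + (1 + 2 * q)) ≤ Q * (Finset.univ.filter (fun φ : TV g q → V =>
      Emb (TG g q) G φ ∧ Rich {φ | Emb (TG g q) G φ} L Y φ)).card) :
    Fintype.card V * D ^ (1 + 2 * q) ≤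
      (Q * K ^ n) * ∑ w : V, ∑ x ∈ nb G w, (Ld G q L' w x).card := by
  obtain ⟨𝓢, h𝓢⟩ : ∃ 𝓢, 𝓢 = Finset.univ.filter (fun φ : TV g q → V =>
      Emb (TG g q) G φ ∧ Rich {φ | Emb (TG g q) G φ} L Y φ) := ⟨_, rfl⟩
  rw [← h𝓢] at h
  have hS1 : ∀ φ ∈ 𝓢, Emb (TG g q) G φ ∧ Rich {φ | Emb (TG g q) G φ} L Y φ := fun φ hφ => by
    rw [h𝓢] at hφ
    exact (Finset.mem_filter.mp hφ).2
  let res : (TV g q → V) → V × V × (Fin q → V × V) := fun φ =>
    (φ (.y b), φ .x, fun j => (φ (.m b j), φ (.r b j)))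
  have h1 := proj_le (TG g q) (TG_conn g q) G D K hG (Br q b) ⟨TV.x, by simp [Br]⟩ 𝓢
    (fun φ hφ => (hS1 φ hφ).1.1) res (by
      intro φ _ ψ _ he z hz
      simp only [res, Prod.mk.injEq] at he
      unfold Br at hz
      simp only [Finset.mem_union, Finset.mem_insert, Finset.mem_singleton, Finset.mem_image,
        Finset.mem_univ, true_and] at hz
      rcases hz with (rfl | rfl) | ⟨j, rfl⟩ | ⟨j, rfl⟩
      · exact he.2.1
      · exact he.1
      · exact (Prod.mk.inj (congrFun he.2.2 j)).1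
      · exact (Prod.mk.inj (congrFun he.2.2 j)).2)
  have hc : (Br q b)ᶜ.card = n := by
    rw [Finset.card_compl, hn, Br_card]
    omega
  rw [hc] at h1
  replace h1 : 𝓢.card ≤ (K * D) ^ n * (𝓢.image res).card :=
    h1.trans (Nat.mul_le_mul_left _ (image_inst _ _ res 𝓢).le)
  have h2 : (𝓢.image res).card ≤ ∑ w : V, ∑ x ∈ nb G w, (Ld G q L' w x).card := by
    have hsub : 𝓢.image res ⊆ (Finset.univ : Finset V).biUnion (fun w => (nb G w).biUnion (fun x =>
        (Ld G q L' w x).image (fun l => (w, x, l)))) := by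
      intro z hz
      obtain ⟨φ, hφ, rfl⟩ := Finset.mem_image.mp hz
      obtain ⟨h3, h4⟩ := hS1 φ hφ
      have h5 := (hom_TG G φ).mp h3.1
      refine Finset.mem_biUnion.mpr ⟨φ (.y b), Finset.mem_univ _, Finset.mem_biUnion.mpr
        ⟨φ .x, (mem_nb _ _ _).mpr (h5.2.1 b).symm, Finset.mem_image.mpr ⟨_, ?_, rfl⟩⟩⟩
      unfold Ld
      rw [Finset.mem_filter, Fintype.mem_piFinset]
      refine ⟨fun j => ?_, ?_⟩
      · unfold Lg
        exact Finset.mem_filter.mpr ⟨Finset.mem_univ _, h5.2.2.1 b j, h5.2.2.2 b j⟩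
      · obtain ⟨F, h6, h7, h8⟩ := h4.mono hL
        have h9 : ∀ i, _ := fun i => (hom_TG G (F i)).mp (h6 i).1
        refine ⟨fun i => F i (.y b), fun i j => F i (.m b j), ?_, ?_, ?_, ?_, ?_⟩
        · intro i
          rw [← h7 i _ hx]
          exact (h9 i).2.1 b
        · exact fun i j => (h9 i).2.2.1 b j
        · intro i j
          show G.Adj (F i (.m b j)) (φ (.r b j))
          rw [← h7 i _ (hr j)]
          exact (h9 i).2.2.2 b j
        · intro i j j' hjj
          have := (h6 i).2 hjj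
          simpa using this
        · intro i i' hii
          exact ⟨h8 i i' hii _ hy _ hy, fun j => h8 i i' hii _ hy _ (hm j),
            fun j j' => h8 i i' hii _ (hm j) _ (hm j')⟩
    refine (Finset.card_le_card hsub).trans (Finset.card_biUnion_le.trans ?_)
    refine Finset.sum_le_sum fun w _ => Finset.card_biUnion_le.trans ?_
    exact Finset.sum_le_sum fun x _ => Finset.card_image_le
  have hpos : 0 < D ^ n := by positivity
  refine Nat.le_of_mul_le_mul_right ?_ hpos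
  calc Fintype.card V * D ^ (1 + 2 * q) * D ^ n = Fintype.card V * D ^ (n + (1 + 2 * q)) := by
        rw [pow_add]; ring
    _ ≤ Q * 𝓢.card := h
    _ ≤ Q * ((K * D) ^ n * (𝓢.image res).card) := Nat.mul_le_mul_left _ h1
    _ ≤ Q * ((K * D) ^ n * (∑ w : V, ∑ x ∈ nb G w, (Ld G q L' w x).card)) :=
        Nat.mul_le_mul_left _ (Nat.mul_le_mul_left _ h2)
    _ = _ := by rw [mul_pow]; ring

/-- the core theorem: almost regular graphs of large degree contain the blowup -/
theorem core (K g q t : ℕ) (hK : 0 < K) (hg : 0 < g) (hq : 0 < q) (ht : 0 < t) :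
    ∃ C : ℕ, ∀ (V : Type) [Fintype V] [Nonempty V] (G : SimpleGraph V) (D : ℕ), AR G D K →
    C ≤ D → C * Fintype.card V ^ (1 + g * q) ≤ Fintype.card V * D ^ (1 + g + 2 * (g * q)) →
    TB G g q t := by
  have hgq : 0 < g * q := Nat.mul_pos hg hq
  obtain ⟨N, hN⟩ : ∃ N, N = 2 + g + 2 * (g * q) := ⟨_, rfl⟩
  have hqle : q ≤ g * q := Nat.le_mul_of_pos_left q hg
  obtain ⟨L1, D1, hC⟩ := caseC (4 * 2 ^ N * K ^ (N - 3)) K g q t (by positivity) hK hgq ht
  obtain ⟨L2, D2, hA⟩ := caseA (4 * 2 ^ N * K ^ (N - (2 + 2 * q))) K g q t (by positivity) hK hgq ht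
  obtain ⟨L3, D3, hB⟩ := caseB (4 * 2 ^ N) K g q t hK
  obtain ⟨L, hL⟩ : ∃ L, L = L1 + L2 + L3 + t := ⟨_, rfl⟩
  refine ⟨4 * kc L (1 + g + g * q) + D1 + D2 + D3 + 2 * N ^ 2 * K ^ (N - 2) + 1, ?_⟩
  intro V _ _ G D hG hD hcount
  have hD0 : 0 < D := by omega
  have hcN : Fintype.card (TV g q) = N := by rw [card_TV, hN]
  have hRc : (RS g q)ᶜ.card = 1 + g + g * q := by
    rw [Finset.card_compl, card_RS, card_TV]
    omega
  obtain ⟨Y, hY1, hY2, hY3⟩ := master par TV.x dpt dpt_par G D K L hG (by omega)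
    (by rw [hcN]; omega) (RS g q) (by omega) hD0 (by
      rw [hRc, card_RS, hcN, show N - 1 = 1 + g + 2 * (g * q) by omega]
      refine le_trans (Nat.mul_le_mul_right _ ?_) hcount
      omega)
  rw [hcN, show N - 1 = 1 + g + 2 * (g * q) by omega] at hY3
  have hVpos : 0 < Fintype.card V := Fintype.card_pos
  -- blowup directly
  by_cases hYR : Y = RS g q
  · have hne : (Finset.univ.filter (fun φ : TV g q → V => Emb (PT par TV.x) G φ ∧
          Rich {φ | Emb (PT par TV.x) G φ} L Y φ)).Nonempty := by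
      rw [← Finset.card_pos]
      by_contra h0
      have h0' : (Finset.univ.filter (fun φ : TV g q → V => Emb (PT par TV.x) G φ ∧
          Rich {φ | Emb (PT par TV.x) G φ} L Y φ)).card = 0 := by omega
      rw [h0', Nat.mul_zero] at hY3
      have : 0 < Fintype.card V * D ^ (1 + g + 2 * (g * q)) := by positivity
      omega
    obtain ⟨φ, hφ⟩ := hne
    obtain ⟨_, _, h1⟩ := Finset.mem_filter.mp hφ
    rw [hYR] at h1
    exact ⟨φ, h1.mono (by omega)⟩
  -- a vertex outside Y with two neighbours in Y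
  by_cases h2 : ∃ u v w, v ∉ Y ∧ u ∈ Y ∧ w ∈ Y ∧ u ≠ w ∧ (TG g q).Adj u v ∧ (TG g q).Adj v w
  · obtain ⟨u, v, w, hv, hu, hw, huw, huv, hvw⟩ := h2
    refine hC V G D hG (by omega) ?_
    refine useC G D K (4 * 2 ^ N) L L1 hD0 hG (by omega) Y u v w hv hu hw huw huv hvw (N - 3)
      (by rw [hcN]; omega) ?_
    rw [show N - 3 + 2 = 1 + g + 2 * (g * q) by omega]
    exact hY3
  push Not at h2
  have hR : ∀ v ∈ RS g q, v ∈ Y := fun v hv => hY1 hv
  have hmy : ∀ b j, TV.y b ∈ Y → TV.m b j ∈ Y := by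
    intro b j hy
    by_contra hm
    exact h2 (.y b) (.m b j) (.r b j) hm hy (hR _ (r_mem b j)) (by simp) (adj_ym b j) (adj_mr b j)
  have hmy' : ∀ b j, TV.x ∈ Y → TV.m b j ∈ Y → TV.y b ∈ Y := by
    intro b j hx hm
    by_contra hy
    exact h2 .x (.y b) (.m b j) hy hx hm (by simp) (adj_xy b) (adj_ym b j)
  have hmm : ∀ b j j', TV.y b ∉ Y → TV.m b j ∈ Y → TV.m b j' ∈ Y → j = j' := by
    intro b j j' hy hm hm'
    by_contra hjj
    exact h2 (.m b j) (.y b) (.m b j') hy hm hm' (by simpa using hjj) (adj_ym b j).symm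
      (adj_ym b j')
  by_cases hx : TV.x ∈ Y
  · -- case A
    have hb : ∃ b, TV.y b ∉ Y := by
      by_contra hall
      push Not at hall
      apply hY2
      rw [Finset.eq_univ_iff_forall]
      intro v
      cases v with
      | f => exact hR _ (f_mem g q)
      | x => exact hx
      | y b => exact hall b
      | m b j => exact hmy b j (hall b)
      | r b j => exact hR _ (r_mem b j)
    obtain ⟨b, hb⟩ := hb
    have hm : ∀ j, TV.m b j ∉ Y := fun j h => hb (hmy' b j hx h)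
    refine hA V G D hG (by omega) ?_
    refine useA G D K (4 * 2 ^ N) L L2 hD0 hG (by omega) Y b hx (fun j => hR _ (r_mem b j)) hb hm
      (N - (2 + 2 * q)) (by rw [hcN]; omega) ?_
    rw [show N - (2 + 2 * q) + (1 + 2 * q) = 1 + g + 2 * (g * q) by omega]
    exact hY3
  · -- case B
    have hy : ∀ b, TV.y b ∉ Y := by
      intro b hy
      exact h2 .f .x (.y b) hx (hR _ (f_mem g q)) hy (by simp) (adj_fx g q).symm (adj_xy b)
    obtain ⟨Pd, hPd⟩ : ∃ Pd : Finset (Fin g × Fin q), ∀ p, p ∈ Pd ↔ TV.m p.1 p.2 ∈ Y :=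
      ⟨Finset.univ.filter (fun p => TV.m p.1 p.2 ∈ Y), fun p => by simp⟩
    have hPne : Pd.Nonempty := by
      by_contra hemp
      rw [Finset.not_nonempty_iff_eq_empty] at hemp
      apply hYR
      refine Finset.Subset.antisymm ?_ hY1
      intro v hv
      cases v with
      | f => exact f_mem g q
      | x => exact absurd hv hx
      | y b => exact absurd hv (hy b)
      | m b j =>
        exfalso
        have := (hPd (b, j)).mpr hv
        rw [hemp] at this
        exact absurd this (Finset.notMem_empty _)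
      | r b j => exact r_mem b j
    refine hB V G D hG (by omega) Pd hPne ?_ Y ?_ ?_
    · rintro ⟨b, j⟩ hp ⟨b', j'⟩ hp' h
      simp only at h
      subst h
      rw [hmm b j j' (hy b) ((hPd _).mp hp) ((hPd _).mp hp')]
    · intro v
      constructor
      · intro hv
        cases v with
        | f => exact Or.inl (f_mem g q)
        | x => exact absurd hv hx
        | y b => exact absurd hv (hy b)
        | m b j => exact Or.inr ⟨(b, j), (hPd _).mpr hv, rfl⟩
        | r b j => exact Or.inl (r_mem b j)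
      · rintro (h | ⟨p, hp, rfl⟩)
        · exact hR v h
        · exact (hPd p).mp hp
    · refine le_trans hY3 (Nat.mul_le_mul_left _ (Finset.card_le_card ?_))
      intro φ hφ
      obtain ⟨_, h3, h4⟩ := Finset.mem_filter.mp hφ
      exact Finset.mem_filter.mpr ⟨Finset.mem_univ _, h3, h4.mono (by omega)⟩

end Pool.Agent.TH476
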