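import Pool.Agent.TH476.ECaseB

set_option autoImplicit false

open Classical

namespace Pool.Agent.TH476

/-- a vertex which is good for A and not bad for B -/
lemma pick {V : Type} [Fintype V] [Nonempty V] (A B : V → ℕ) (X Y Q M Q' : ℕ) (hX : 0 < X)
    (hY : 0 < Y) (hA : Fintype.card V * X ≤ Q * ∑ w, A w) (hAM : ∀ w, A w ≤ M * X)
    (hB : (2 * Q * M + 1) * Q' * ∑ w, B w ≤ Fintype.card V * Y) :
    ∃ w, X ≤ 2 * Q * A w ∧ Q' * B w ≤ Y := by
  by_contra hcon
  push Not at hcon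
  obtain ⟨N, hN⟩ : ∃ N, N = Fintype.card V := ⟨_, rfl⟩
  have hNpos : 0 < N := by rw [hN]; exact Fintype.card_pos
  set W := (Finset.univ : Finset V).filter (fun w => Y < Q' * B w) with hW
  have hWN : W.card ≤ N := by rw [hN]; exact Finset.card_le_univ _
  have h1 : W.card * Y ≤ Q' * ∑ w, B w := by
    calc W.card * Y = ∑ w ∈ W, Y := by rw [Finset.sum_const, smul_eq_mul]
      _ ≤ ∑ w ∈ W, Q' * B w := Finset.sum_le_sum fun w hw => (Finset.mem_filter.mp hw).2.le
      _ ≤ ∑ w, Q' * B w := Finset.sum_le_sum_of_subset (Finset.subset_univ _)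
      _ = Q' * ∑ w, B w := by rw [Finset.mul_sum]
  have h2 : (2 * Q * M + 1) * W.card ≤ N := by
    refine Nat.le_of_mul_le_mul_right ?_ hY
    calc (2 * Q * M + 1) * W.card * Y = (2 * Q * M + 1) * (W.card * Y) := by ring
      _ ≤ (2 * Q * M + 1) * (Q' * ∑ w, B w) := Nat.mul_le_mul_left _ h1
      _ = (2 * Q * M + 1) * Q' * ∑ w, B w := by ring
      _ ≤ N * Y := by rw [hN]; exact hB
  have h3 : 2 * Q * ∑ w, A w ≤ (N - W.card) * (X - 1) + W.card * (2 * Q * (M * X)) := by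
    rw [Finset.mul_sum, ← Finset.sum_filter_not_add_sum_filter (Finset.univ : Finset V)
      (fun w => Y < Q' * B w)]
    refine Nat.add_le_add ?_ ?_
    · have e1 : ((Finset.univ : Finset V).filter (fun w => ¬ Y < Q' * B w)).card = N - W.card := by
        rw [Finset.filter_not, ← hW, Finset.card_sdiff_of_subset (Finset.filter_subset _ _),
          Finset.card_univ, ← hN]
      rw [← e1, ← smul_eq_mul (a := Finset.card _), ← Finset.sum_const]
      refine Finset.sum_le_sum fun w hw => ?_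
      have h4 := (Finset.mem_filter.mp hw).2
      have h5 : 2 * Q * A w < X := by
        by_contra h6
        exact h4 (hcon w (not_lt.mp h6))
      omega
    · rw [← smul_eq_mul (a := Finset.card _), ← Finset.sum_const]
      exact Finset.sum_le_sum fun w _ => Nat.mul_le_mul_left _ (hAM w)
  have h4 : 2 * (N * X) ≤ 2 * Q * ∑ w, A w := by
    calc 2 * (N * X) ≤ 2 * (Q * ∑ w, A w) := Nat.mul_le_mul_left _ (by rw [hN]; exact hA)
      _ = _ := by ring
  have h5 : W.card * (2 * Q * (M * X)) ≤ N * X := by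
    calc W.card * (2 * Q * (M * X)) = (2 * Q * M * W.card) * X := by ring
      _ ≤ ((2 * Q * M + 1) * W.card) * X := by gcongr; omega
      _ ≤ N * X := Nat.mul_le_mul_right _ h2
  have h6 : (N - W.card) * (X - 1) ≤ N * (X - 1) := Nat.mul_le_mul_right _ (by omega)
  have h7 : N * (X - 1) < N * X := Nat.mul_lt_mul_of_pos_left (by omega) hNpos
  omega

/-- a nondegenerate tuple contained in linearly many of the given dense sets of tuples -/
lemma choose_lin {α κ β : Type} [Fintype κ] [DecidableEq κ] [Fintype β] (n : ℕ)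
    (hκ : Fintype.card κ = n) (hn : 0 < n) (K Q D π δ Qx D' : ℕ)
    (hK : 0 < K) (hD : 0 < D) (hD' : 0 < D') (B : Finset β) (hB : B.card ≤ K * D)
    (P : β → Prop) (R : β → β → Prop)
    (hπ : (B.filter P).card ≤ π) (hδ : ∀ a ∈ B, (B.filter (fun b => R a b)).card ≤ δ)
    (X : Finset α) (hX : D' ≤ Qx * X.card)
    (E : α → (κ → β) → Prop)
    (hE : ∀ i ∈ X, D ^ n ≤ Q * ((Fintype.piFinset (fun _ : κ => B)).filter (E i)).card)
    (hDb : 2 * Q * ((n * π + n ^ 2 * δ) * K ^ (n - 1)) ≤ D) :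
    ∃ ρ : κ → β, (∀ u, ρ u ∈ B) ∧ (∀ u, ¬ P (ρ u)) ∧ (∀ u v, u ≠ v → ¬ R (ρ u) (ρ v)) ∧
      D' ≤ 2 * Q * K ^ n * Qx * (X.filter (fun x => E x ρ)).card := by
  set U : Finset (κ → β) := Fintype.piFinset (fun _ => B) with hU
  obtain ⟨Bad, hBad⟩ : ∃ Bad : Finset (κ → β), Bad =
    U.filter (fun ρ => (∃ u, P (ρ u)) ∨ ∃ u v, u ≠ v ∧ R (ρ u) (ρ v)) := ⟨_, rfl⟩
  have hbad : Bad.card ≤ (n * π + n ^ 2 * δ) * B.card ^ (n - 1) := by
    have := pi_bad' (κ := κ) B P R π δ hπ hδ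
    rw [hκ] at this
    refine le_trans (Finset.card_le_card ?_) this
    intro ρ hρ
    rw [hBad] at hρ
    exact Finset.mem_filter.mpr (Finset.mem_filter.mp hρ)
  by_contra hcon
  push Not at hcon
  have hfew : ∀ ρ ∈ U, ρ ∉ Bad →
      2 * Q * K ^ n * Qx * (X.filter (fun x => E x ρ)).card ≤ D' - 1 := by
    intro ρ hρ hnb
    have h1 : ¬ ((∃ u, P (ρ u)) ∨ ∃ u v, u ≠ v ∧ R (ρ u) (ρ v)) := fun h =>
      hnb (by rw [hBad]; exact Finset.mem_filter.mpr ⟨hρ, h⟩)
    push Not at h1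
    obtain ⟨h2, h3⟩ := h1
    have := hcon ρ (fun u => by
      rw [hU, Fintype.mem_piFinset] at hρ
      exact hρ u) h2 h3
    omega
  have hsum : ∑ i ∈ X, (U.filter (fun ρ => E i ρ)).card =
      ∑ ρ ∈ U, (X.filter (fun i => E i ρ)).card := by
    simp only [Finset.card_filter]
    rw [Finset.sum_comm]
  have hUc : U.card ≤ (K * D) ^ n := by
    rw [hU, Fintype.card_piFinset, Finset.prod_const, Finset.card_univ, hκ]
    exact Nat.pow_le_pow_left hB n
  set S2 := ∑ ρ ∈ U.filter (fun ρ => ρ ∉ Bad), (X.filter (fun i => E i ρ)).card with hS2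
  have hle : ∑ ρ ∈ U, (X.filter (fun i => E i ρ)).card ≤ Bad.card * X.card + S2 := by
    rw [← Finset.sum_filter_add_sum_filter_not U (fun ρ => ρ ∈ Bad)]
    refine Nat.add_le_add ?_ le_rfl
    calc _ ≤ ∑ ρ ∈ U.filter (fun ρ => ρ ∈ Bad), X.card := Finset.sum_le_sum fun ρ _ =>
            Finset.card_filter_le _ _
      _ ≤ _ := by
          rw [Finset.sum_const, smul_eq_mul]
          refine Nat.mul_le_mul_right _ (Finset.card_le_card ?_)
          intro ρ hρ
          exact (Finset.mem_filter.mp hρ).2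
  have hS2le : 2 * Q * K ^ n * Qx * S2 ≤ (K * D) ^ n * (D' - 1) := by
    rw [hS2, Finset.mul_sum]
    calc _ ≤ ∑ ρ ∈ U.filter (fun ρ => ρ ∉ Bad), (D' - 1) := Finset.sum_le_sum fun ρ hρ =>
            hfew ρ (Finset.mem_filter.mp hρ).1 (Finset.mem_filter.mp hρ).2
      _ ≤ _ := by
          rw [Finset.sum_const, smul_eq_mul]
          exact Nat.mul_le_mul_right _ ((Finset.card_filter_le _ _).trans hUc)
  have h1 : X.card * D ^ n ≤ Q * (Bad.card * X.card + S2) := by
    calc X.card * D ^ n = ∑ i ∈ X, D ^ n := by rw [Finset.sum_const, smul_eq_mul]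
      _ ≤ ∑ i ∈ X, Q * (U.filter (fun ρ => E i ρ)).card :=
          Finset.sum_le_sum fun i hi => hE i hi
      _ = Q * ∑ i ∈ X, (U.filter (fun ρ => E i ρ)).card := by
          rw [Finset.mul_sum]
      _ ≤ _ := Nat.mul_le_mul_left _ (hsum ▸ hle)
  have h2 : 2 * Q * Bad.card ≤ D ^ n := by
    calc 2 * Q * Bad.card ≤ 2 * Q * ((n * π + n ^ 2 * δ) * B.card ^ (n - 1)) :=
          Nat.mul_le_mul_left _ hbad
      _ ≤ 2 * Q * ((n * π + n ^ 2 * δ) * (K * D) ^ (n - 1)) :=
          Nat.mul_le_mul_left _ (Nat.mul_le_mul_left _ (Nat.pow_le_pow_left hB _))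
      _ = 2 * Q * ((n * π + n ^ 2 * δ) * K ^ (n - 1)) * D ^ (n - 1) := by rw [mul_pow]; ring
      _ ≤ D * D ^ (n - 1) := Nat.mul_le_mul_right _ hDb
      _ = D ^ n := by
          rw [← pow_succ', Nat.sub_add_cancel hn]
  have h3 : X.card * D ^ n ≤ 2 * Q * S2 := by
    have h4 : 2 * (X.card * D ^ n) ≤ X.card * D ^ n + 2 * Q * S2 := by
      calc 2 * (X.card * D ^ n) ≤ 2 * (Q * (Bad.card * X.card + S2)) := Nat.mul_le_mul_left _ h1
        _ = X.card * (2 * Q * Bad.card) + 2 * Q * S2 := by ring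
        _ ≤ X.card * D ^ n + 2 * Q * S2 :=
            Nat.add_le_add_right (Nat.mul_le_mul_left _ h2) _
    omega
  -- contradiction
  have h5 : K ^ n * Qx * (X.card * D ^ n) ≤ (K * D) ^ n * (D' - 1) := by
    calc K ^ n * Qx * (X.card * D ^ n) ≤ K ^ n * Qx * (2 * Q * S2) := Nat.mul_le_mul_left _ h3
      _ = 2 * Q * K ^ n * Qx * S2 := by ring
      _ ≤ _ := hS2le
  have h6 : (K * D) ^ n * D' ≤ K ^ n * Qx * (X.card * D ^ n) := by
    calc (K * D) ^ n * D' ≤ (K * D) ^ n * (Qx * X.card) := Nat.mul_le_mul_left _ hX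
      _ = _ := by rw [mul_pow]; ring
  have h7 : (K * D) ^ n * (D' - 1) < (K * D) ^ n * D' :=
    Nat.mul_lt_mul_of_pos_left (by omega) (by positivity)
  omega

/-- typical x at a vertex w with many rich spiders -/
lemma typical_x {V : Type} [Fintype V] (G : SimpleGraph V) (D K Q k L : ℕ)
    (hK : 0 < K) (hD : 0 < D) (hG : AR G D K) (w : V)
    (hw : D ^ (1 + 2 * k) ≤ Q * ∑ x ∈ nb G w, (Ld G k L w x).card) :
    D ≤ 2 * Q * K ^ (2 * k) *
      ((nb G w).filter (fun x => D ^ (2 * k) ≤ 2 * Q * K * (Ld G k L w x).card)).card := by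
  set Q3 := 2 * Q * K with hQ3
  set A' := (nb G w).filter (fun x => D ^ (2 * k) ≤ Q3 * (Ld G k L w x).card) with hA'
  have hLd : ∀ x, (Ld G k L w x).card ≤ K ^ (2 * k) * D ^ (2 * k) := by
    intro x
    unfold Ld
    refine (Finset.card_filter_le _ _).trans ?_
    rw [Fintype.card_piFinset, Finset.prod_const, Finset.card_univ, Fintype.card_fin]
    calc (Lg G w).card ^ k ≤ (K ^ 2 * D ^ 2) ^ k := Nat.pow_le_pow_left (Lg_card G D K hG w) k
      _ = _ := by rw [mul_pow, ← pow_mul, ← pow_mul]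
  have h1 := Finset.sum_filter_add_sum_filter_not (nb G w)
    (fun x => D ^ (2 * k) ≤ Q3 * (Ld G k L w x).card) (fun x => (Ld G k L w x).card)
  rw [← hA'] at h1
  have h2 : Q3 * ∑ x ∈ (nb G w).filter (fun x => ¬ D ^ (2 * k) ≤ Q3 * (Ld G k L w x).card),
      (Ld G k L w x).card ≤ K * D * D ^ (2 * k) := by
    rw [Finset.mul_sum]
    calc _ ≤ ∑ x ∈ (nb G w).filter (fun x => ¬ D ^ (2 * k) ≤ Q3 * (Ld G k L w x).card),
          D ^ (2 * k) := by
          refine Finset.sum_le_sum fun x hx => ?_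
          have := (Finset.mem_filter.mp hx).2
          omega
      _ ≤ _ := by
          rw [Finset.sum_const, smul_eq_mul]
          exact Nat.mul_le_mul_right _ ((Finset.card_filter_le _ _).trans (hG.hi w))
  have h3 : 2 * Q * ∑ x ∈ (nb G w).filter (fun x => ¬ D ^ (2 * k) ≤ Q3 * (Ld G k L w x).card),
      (Ld G k L w x).card ≤ D ^ (1 + 2 * k) := by
    refine Nat.le_of_mul_le_mul_left ?_ hK
    calc K * (2 * Q * _) = Q3 * _ := by rw [hQ3]; ring
      _ ≤ _ := h2
      _ = _ := by rw [pow_add, pow_one]; ring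
  have h4 : ∑ x ∈ A', (Ld G k L w x).card ≤ A'.card * (K ^ (2 * k) * D ^ (2 * k)) := by
    rw [← smul_eq_mul, ← Finset.sum_const]
    exact Finset.sum_le_sum fun x _ => hLd x
  have h5 : D ^ (1 + 2 * k) ≤ 2 * Q * (A'.card * (K ^ (2 * k) * D ^ (2 * k))) := by
    have h6 : 2 * (Q * ∑ x ∈ nb G w, (Ld G k L w x).card) =
        2 * Q * ∑ x ∈ A', (Ld G k L w x).card + 2 * Q * ∑ x ∈ (nb G w).filter
          (fun x => ¬ D ^ (2 * k) ≤ Q3 * (Ld G k L w x).card), (Ld G k L w x).card := by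
      rw [← h1]; ring
    have h7 := Nat.mul_le_mul_left (2 * Q) h4
    omega
  refine Nat.le_of_mul_le_mul_left ?_ (show 0 < D ^ (2 * k) by positivity)
  calc D ^ (2 * k) * D = D ^ (1 + 2 * k) := by rw [pow_add, pow_one]; ring
    _ ≤ _ := h5
    _ = _ := by ring

/-- dense sets of leg tuples for all branches -/
lemma dense_legs {V : Type} [Fintype V] {g k : ℕ} (G : SimpleGraph V) (D Q3 L : ℕ) (w x : V)
    (h : D ^ (2 * k) ≤ Q3 * (Ld G k L w x).card) (E : (Fin g × Fin k → V × V) → Prop)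
    (hE : ∀ l, E l ↔ ∀ b, SR G k L x (fun j => (l (b, j)).2)) :
    (D ^ 2) ^ (g * k) ≤ Q3 ^ g *
      ((Fintype.piFinset (fun _ : Fin g × Fin k => Lg G w)).filter E).card := by
  have h1 : (Fintype.piFinset (fun _ : Fin g => Ld G k L w x)).card ≤
      ((Fintype.piFinset (fun _ : Fin g × Fin k => Lg G w)).filter E).card := by
    refine Finset.card_le_card_of_injOn (fun l p => l p.1 p.2) ?_ ?_
    · intro l hl
      rw [Finset.mem_coe, Fintype.mem_piFinset] at hl
      unfold Ld at hl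
      rw [Finset.mem_coe, Finset.mem_filter, Fintype.mem_piFinset]
      refine ⟨fun p => ?_, (hE _).mpr fun b => (Finset.mem_filter.mp (hl b)).2⟩
      exact Fintype.mem_piFinset.mp (Finset.mem_filter.mp (hl p.1)).1 p.2
    · intro l _ l' _ h
      funext b j
      exact congrFun h (b, j)
  rw [Fintype.card_piFinset, Finset.prod_const, Finset.card_univ, Fintype.card_fin] at h1
  calc (D ^ 2) ^ (g * k) = (D ^ (2 * k)) ^ g := by
        rw [← pow_mul, ← pow_mul]
        congr 1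
        ring
    _ ≤ (Q3 * (Ld G k L w x).card) ^ g := Nat.pow_le_pow_left h g
    _ = Q3 ^ g * (Ld G k L w x).card ^ g := mul_pow _ _ _
    _ ≤ _ := Nat.mul_le_mul_left _ h1

end Pool.Agent.TH476
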