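import Pool.Agent.TH476.ECaseA

set_option autoImplicit false

open Classical

namespace Pool.Agent.TH476

section rooted

variable {ι V : Type} [Fintype ι] [Fintype V]

lemma hom_eq_le1 (T : SimpleGraph ι) (G : SimpleGraph V) (D K : ℕ) (hG : AR G D K) (r a b : ι)
    (hab : a ≠ b) (hbr : b ≠ r) (w : V) (p : ι → ι) (rk : ι → ℕ)
    (hp : ∀ v, v ≠ r → T.Adj (p v) v ∧ rk (p v) < rk v) (hle : rk a ≤ rk b) :
    (Finset.univ.filter (fun φ : ι → V => Hom T G φ ∧ φ r = w ∧ φ a = φ b)).card ≤
      (K * D) ^ (Fintype.card ι - 2) := by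
  have h := ext_le (fun v => 2 * rk v + if v = b then 1 else 0)
    (fun v (φ : ι → V) => if v = b then {φ a} else nb G (φ (p v)))
    (fun v => if v = b then 1 else K * D) ({r} : Finset ι)ᶜ.card {r} (fun _ => w) rfl
    (fun v hv φ ψ h => by
      have hvr : v ≠ r := by simpa using hv
      by_cases hvb : v = b
      · subst hvb
        simp only [if_true]
        rw [h a (by simp only [if_neg hab, if_true]; omega)]
      · simp only [if_neg hvb]
        have h1 := (hp v hvr).2
        rw [h (p v) (by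
          simp only [if_neg hvb]
          split <;> omega)])
    (fun v hv φ => by
      by_cases hvb : v = b
      · simp only [if_pos hvb, Finset.card_singleton, le_refl]
      · simp only [if_neg hvb]
        exact hG.hi _)
  have hb : b ∈ ({r} : Finset ι)ᶜ := by simpa using hbr
  rw [← Finset.mul_prod_erase _ _ hb, if_pos rfl, one_mul,
    Finset.prod_congr rfl (g := fun _ => K * D)
      (fun v hv => if_neg (Finset.ne_of_mem_erase hv)), Finset.prod_const,
    Finset.card_erase_of_mem hb, Finset.card_compl, Finset.card_singleton, Nat.sub_sub] at h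
  refine (Finset.card_le_card ?_).trans h
  intro φ hφ
  obtain ⟨_, h1, h2, h3⟩ := Finset.mem_filter.mp hφ
  rw [mem_EX]
  refine ⟨fun u hu => by rw [Finset.mem_singleton.mp hu, h2], fun v hv => ?_⟩
  have hvr : v ≠ r := by simpa using hv
  show φ v ∈ if v = b then {φ a} else nb G (φ (p v))
  split
  · rename_i hvb
    rw [hvb, h3]
    exact Finset.mem_singleton_self _
  · rw [mem_nb]
    exact h1 _ _ (hp v hvr).1

lemma hom_eq_le (T : SimpleGraph ι) (hT : T.Connected) (G : SimpleGraph V) (D K : ℕ)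
    (hG : AR G D K) (r a b : ι) (hab : a ≠ b) (w : V) :
    (Finset.univ.filter (fun φ : ι → V => Hom T G φ ∧ φ r = w ∧ φ a = φ b)).card ≤
      (K * D) ^ (Fintype.card ι - 2) := by
  obtain ⟨p, rk, hp⟩ := exists_parent T hT r
  obtain ⟨rk0, hrk0⟩ : ∃ rk0 : ι → ℕ, rk0 = fun v => if v = r then 0 else rk v + 1 := ⟨_, rfl⟩
  have hrr : rk0 r = 0 := by rw [hrk0]; simp
  have hrn : ∀ v, v ≠ r → 0 < rk0 v := by
    intro v hv
    rw [hrk0]
    simp [hv]
  have hp' : ∀ v, v ≠ r → T.Adj (p v) v ∧ rk0 (p v) < rk0 v := by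
    intro v hv
    refine ⟨(hp v hv).1, ?_⟩
    have := (hp v hv).2
    rw [hrk0]
    simp only [if_neg hv]
    split <;> omega
  by_cases hle : rk0 a ≤ rk0 b
  · have hbr : b ≠ r := by
      rintro rfl
      have := hrn a hab
      omega
    exact hom_eq_le1 T G D K hG r a b hab hbr w p rk0 hp' hle
  · have har : a ≠ r := by
      rintro rfl
      omega
    refine le_trans (Finset.card_le_card ?_)
      (hom_eq_le1 T G D K hG r b a hab.symm har w p rk0 hp' (by omega))
    intro φ hφ
    obtain ⟨_, h1, h2, h3⟩ := Finset.mem_filter.mp hφ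
    exact Finset.mem_filter.mpr ⟨Finset.mem_univ _, h1, h2, h3.symm⟩

lemma noninj_rooted (T : SimpleGraph ι) (hT : T.Connected) (G : SimpleGraph V) (D K : ℕ)
    (hG : AR G D K) (r : ι) (w : V) :
    (Finset.univ.filter (fun φ : ι → V => Hom T G φ ∧ φ r = w ∧ ¬ Function.Injective φ)).card ≤
      Fintype.card ι ^ 2 * (K * D) ^ (Fintype.card ι - 2) := by
  have hsub : (Finset.univ.filter (fun φ : ι → V => Hom T G φ ∧ φ r = w ∧
      ¬ Function.Injective φ)) ⊆
      ((Finset.univ : Finset (ι × ι)).filter (fun e => e.1 ≠ e.2)).biUnion (fun e =>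
        Finset.univ.filter (fun φ : ι → V => Hom T G φ ∧ φ r = w ∧ φ e.1 = φ e.2)) := by
    intro φ hφ
    obtain ⟨_, h1, h0, h2⟩ := Finset.mem_filter.mp hφ
    simp only [Function.Injective, not_forall] at h2
    obtain ⟨a, b, h3, h4⟩ := h2
    exact Finset.mem_biUnion.mpr ⟨(a, b), Finset.mem_filter.mpr ⟨Finset.mem_univ _, h4⟩,
      Finset.mem_filter.mpr ⟨Finset.mem_univ _, h1, h0, h3⟩⟩
  refine (Finset.card_le_card hsub).trans ((Finset.card_biUnion_le_card_mul _ _
    ((K * D) ^ (Fintype.card ι - 2)) fun e he =>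
      hom_eq_le T hT G D K hG r e.1 e.2 (Finset.mem_filter.mp he).2 w).trans ?_)
  refine Nat.mul_le_mul_right _ ((Finset.card_le_univ _).trans ?_)
  rw [Fintype.card_prod, sq]

lemma hit_rooted (T : SimpleGraph ι) (hT : T.Connected) (G : SimpleGraph V) (D K : ℕ)
    (hG : AR G D K) (r : ι) (w : V) (Z : Finset V) :
    (Finset.univ.filter (fun φ : ι → V => Hom T G φ ∧ φ r = w ∧ ∃ v, v ≠ r ∧ φ v ∈ Z)).card ≤
      Fintype.card ι * Z.card * (K * D) ^ (Fintype.card ι - 2) := by
  have hsub : (Finset.univ.filter (fun φ : ι → V => Hom T G φ ∧ φ r = w ∧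
      ∃ v, v ≠ r ∧ φ v ∈ Z)) ⊆
      (((Finset.univ : Finset ι).filter (fun v => v ≠ r)) ×ˢ Z).biUnion (fun e =>
        Finset.univ.filter (fun φ : ι → V => Hom T G φ ∧ φ r = w ∧ φ e.1 = e.2)) := by
    intro φ hφ
    obtain ⟨_, h1, h0, v, h2, h3⟩ := Finset.mem_filter.mp hφ
    exact Finset.mem_biUnion.mpr ⟨(v, φ v), Finset.mem_product.mpr
      ⟨Finset.mem_filter.mpr ⟨Finset.mem_univ _, h2⟩, h3⟩,
      Finset.mem_filter.mpr ⟨Finset.mem_univ _, h1, h0, rfl⟩⟩
  refine (Finset.card_le_card hsub).trans ((Finset.card_biUnion_le_card_mul _ _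
    ((K * D) ^ (Fintype.card ι - 2)) ?_).trans ?_)
  · rintro ⟨v, z⟩ he
    have hvr : v ≠ r := (Finset.mem_filter.mp (Finset.mem_product.mp he).1).2
    have h := hom_le T hT G D K hG {r, v} ⟨r, by simp⟩ (fun u => if u = r then w else z)
      (Finset.univ.filter (fun φ : ι → V => Hom T G φ ∧ φ r = w ∧ φ v = z))
      (fun φ hφ => (Finset.mem_filter.mp hφ).2.1)
      (fun φ hφ u hu => by
        obtain ⟨_, _, h1, h2⟩ := Finset.mem_filter.mp hφ
        rcases Finset.mem_insert.mp hu with rfl | hu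
        · simp [h1]
        · rw [Finset.mem_singleton.mp hu]
          simp [hvr, h2])
    rw [Finset.card_compl, Finset.card_pair hvr.symm] at h
    exact h
  · refine Nat.mul_le_mul_right _ ?_
    rw [Finset.card_product]
    exact Nat.mul_le_mul_right _ (Finset.card_le_univ _)

end rooted

/-- many homs of the tree with the root f at w and x in a given set of neighbours -/
lemma wg_rooted_ge {V : Type} [Fintype V] {g k e : ℕ} (G : SimpleGraph V) (D K : ℕ)
    (hG : AR G D K) (w : V) (X : Finset V) (hX : X ⊆ nb G w) :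
    X.card * D ^ (Fintype.card (TW g k e) - 2) ≤
      (Finset.univ.filter (fun φ : TW g k e → V => Hom (WG g k e) G φ ∧ φ .f = w ∧
        φ .x ∈ X)).card := by
  rw [Finset.card_eq_sum_card_fiberwise (f := fun φ : TW g k e → V => φ .x) (t := X)
    (fun φ hφ => (Finset.mem_filter.mp (Finset.mem_coe.mp hφ)).2.2.2)]
  rw [← smul_eq_mul, ← Finset.sum_const]
  refine Finset.sum_le_sum fun x0 hx0 => ?_
  have h := ext_ge (V := V) dptW (fun v φ => nb G (φ (parW v))) (fun _ => D)
    ({TW.f, TW.x} : Finset (TW g k e))ᶜ.card {TW.f, TW.x}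
    (fun v => if v = TW.f then w else x0) rfl
    (fun v hv φ ψ h => by
      have hvx : v ≠ TW.x := fun h => hv (by rw [h]; simp)
      show nb G (φ (parW v)) = nb G (ψ (parW v))
      rw [h (parW v) (dpt_parW v hvx)])
    (fun v _ φ => hG.lo _)
  rw [Finset.prod_const, Finset.card_compl, Finset.card_pair (by simp)] at h
  refine h.trans (Finset.card_le_card ?_)
  intro φ hφ
  rw [mem_EX] at hφ
  have hf : φ .f = w := by
    rw [hφ.1 .f (by simp)]
    simp
  have hx : φ .x = x0 := by
    rw [hφ.1 .x (by simp)]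
    simp
  refine Finset.mem_filter.mpr ⟨Finset.mem_filter.mpr ⟨Finset.mem_univ _, ?_, hf, ?_⟩, hx⟩
  · rw [hom_WG]
    intro v hv
    by_cases hvf : v = .f
    · subst hvf
      show G.Adj (φ .x) (φ .f)
      rw [hf, hx]
      exact ((mem_nb _ _ _).mp (hX hx0)).symm
    · rw [← mem_nb]
      exact hφ.2 v (by simp [hvf, hv])
  · rw [hx]
    exact hx0

end Pool.Agent.TH476
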