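import Pool.Agent.TH476.ECaseA2

set_option autoImplicit false

open Classical

namespace Pool.Agent.TH476

attribute [local irreducible] RW

/-- the family of light copies rooted at w with x in X' and avoiding Zr -/
lemma A_fam {V : Type} [Fintype V] {g k e : ℕ} (G : SimpleGraph V) (D K Q4 L1 nE : ℕ)
    (hnE : Fintype.card (TW g k e) = nE + 2) (hG : AR G D K)
    (w : V) (X Z : Finset V) (hX : X ⊆ nb G w) (hXc : D ≤ Q4 * X.card)
    (hB : 4 * Q4 * (Finset.univ.filter (fun φ : TW g k e → V => Hom (WG g k e) G φ ∧ φ .f = w ∧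
        ¬ Lt (WG g k e) G L1 φ)).card ≤ D ^ (nE + 1))
    (hD : 4 * Q4 * (((nE + 2) ^ 2 + (nE + 2) * Z.card) * K ^ nE) ≤ D) :
    D ^ (nE + 1) ≤ 2 * Q4 * (Finset.univ.filter (fun φ : TW g k e → V => Emb (WG g k e) G φ ∧
      Lt (WG g k e) G L1 φ ∧ φ .f = w ∧ φ .x ∈ X ∧ ∀ v, v ≠ TW.f → φ v ∉ Z)).card := by
  obtain ⟨𝓖, h𝓖⟩ : ∃ 𝓖, 𝓖 = Finset.univ.filter (fun φ : TW g k e → V => Emb (WG g k e) G φ ∧
      Lt (WG g k e) G L1 φ ∧ φ .f = w ∧ φ .x ∈ X ∧ ∀ v, v ≠ TW.f → φ v ∉ Z) := ⟨_, rfl⟩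
  obtain ⟨H, hH⟩ : ∃ H, H = Finset.univ.filter (fun φ : TW g k e → V => Hom (WG g k e) G φ ∧
    φ .f = w ∧ φ .x ∈ X) := ⟨_, rfl⟩
  obtain ⟨NI, hNI⟩ : ∃ NI, NI = Finset.univ.filter (fun φ : TW g k e → V =>
    Hom (WG g k e) G φ ∧ φ .f = w ∧ ¬ Function.Injective φ) := ⟨_, rfl⟩
  obtain ⟨HT, hHT⟩ : ∃ HT, HT = Finset.univ.filter (fun φ : TW g k e → V =>
    Hom (WG g k e) G φ ∧ φ .f = w ∧ ∃ v, v ≠ TW.f ∧ φ v ∈ Z) := ⟨_, rfl⟩
  obtain ⟨NL, hNL⟩ : ∃ NL, NL = Finset.univ.filter (fun φ : TW g k e → V =>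
    Hom (WG g k e) G φ ∧ φ .f = w ∧ ¬ Lt (WG g k e) G L1 φ) := ⟨_, rfl⟩
  have h1 : X.card * D ^ nE ≤ H.card := by
    have := wg_rooted_ge (g := g) (k := k) (e := e) G D K hG w X hX
    rw [hnE, Nat.add_sub_cancel] at this
    rw [hH]
    exact this
  have h2 : NI.card ≤ (nE + 2) ^ 2 * (K * D) ^ nE := by
    have := noninj_rooted (WG g k e) (WG_conn g k e) G D K hG TW.f w
    rw [hnE, Nat.add_sub_cancel] at this
    rw [hNI]
    exact this
  have h3 : HT.card ≤ (nE + 2) * Z.card * (K * D) ^ nE := by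
    have := hit_rooted (WG g k e) (WG_conn g k e) G D K hG TW.f w Z
    rw [hnE, Nat.add_sub_cancel] at this
    rw [hHT]
    exact this
  have hsub : H ⊆ 𝓖 ∪ (NI ∪ (HT ∪ NL)) := by
    intro φ hφ
    rw [hH] at hφ
    obtain ⟨_, a1, a2, a3⟩ := Finset.mem_filter.mp hφ
    by_cases b1 : Function.Injective φ
    · by_cases b2 : ∃ v, v ≠ TW.f ∧ φ v ∈ Z
      · refine Finset.mem_union_right _ (Finset.mem_union_right _ (Finset.mem_union_left _ ?_))
        rw [hHT]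
        exact Finset.mem_filter.mpr ⟨Finset.mem_univ _, a1, a2, b2⟩
      · by_cases b3 : Lt (WG g k e) G L1 φ
        · refine Finset.mem_union_left _ ?_
          rw [h𝓖]
          exact Finset.mem_filter.mpr ⟨Finset.mem_univ _, ⟨a1, b1⟩, b3, a2, a3,
            fun v hv hz => b2 ⟨v, hv, hz⟩⟩
        · refine Finset.mem_union_right _ (Finset.mem_union_right _ (Finset.mem_union_right _ ?_))
          rw [hNL]
          exact Finset.mem_filter.mpr ⟨Finset.mem_univ _, a1, a2, b3⟩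
    · refine Finset.mem_union_right _ (Finset.mem_union_left _ ?_)
      rw [hNI]
      exact Finset.mem_filter.mpr ⟨Finset.mem_univ _, a1, a2, b1⟩
  have h4 : H.card ≤ 𝓖.card + (NI.card + (HT.card + NL.card)) :=
    (Finset.card_le_card hsub).trans ((Finset.card_union_le _ _).trans (Nat.add_le_add_left
      ((Finset.card_union_le _ _).trans (Nat.add_le_add_left (Finset.card_union_le _ _) _)) _))
  rw [← hNL] at hB
  rw [← h𝓖]
  have h5 : D ^ (nE + 1) ≤ Q4 * H.card := by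
    calc D ^ (nE + 1) = D * D ^ nE := by ring
      _ ≤ Q4 * X.card * D ^ nE := Nat.mul_le_mul_right _ hXc
      _ = Q4 * (X.card * D ^ nE) := by ring
      _ ≤ _ := Nat.mul_le_mul_left _ h1
  have h6 : 4 * Q4 * (NI.card + HT.card) ≤ D ^ (nE + 1) := by
    calc 4 * Q4 * (NI.card + HT.card) ≤
        4 * Q4 * ((nE + 2) ^ 2 * (K * D) ^ nE + (nE + 2) * Z.card * (K * D) ^ nE) :=
          Nat.mul_le_mul_left _ (Nat.add_le_add h2 h3)
      _ = 4 * Q4 * (((nE + 2) ^ 2 + (nE + 2) * Z.card) * K ^ nE) * D ^ nE := by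
          rw [mul_pow]; ring
      _ ≤ D * D ^ nE := Nat.mul_le_mul_right _ hD
      _ = _ := by ring
  have h7 : 4 * (Q4 * H.card) ≤ 4 * (Q4 * (𝓖.card + (NI.card + (HT.card + NL.card)))) :=
    Nat.mul_le_mul_left _ (Nat.mul_le_mul_left _ h4)
  have h8 : 4 * (Q4 * (𝓖.card + (NI.card + (HT.card + NL.card)))) =
      2 * (2 * Q4 * 𝓖.card) + 4 * Q4 * (NI.card + HT.card) + 4 * Q4 * NL.card := by ring
  omega

/-- disjoint light copies of the small tree with common roots -/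
lemma A_kern {V : Type} [Fintype V] [Nonempty V] {k e : ℕ} (G : SimpleGraph V) (L1 L2 : ℕ)
    (hL : L1 ≤ L2) (hL2 : 0 < L2) (w : V) (𝓖 : Finset (TW 0 k e → V))
    (h𝓖 : ∀ φ ∈ 𝓖, Emb (WG 0 k e) G φ ∧ Lt (WG 0 k e) G L1 φ ∧ φ .f = w)
    (hc : 2 * kc L2 (RW 0 k e)ᶜ.card * Fintype.card V ^ (1 + e) < 𝓖.card) :
    ∃ φ0 ∈ 𝓖, Rich {φ | φ ∈ 𝓖} L2 (RW 0 k e) φ0 := by
  obtain ⟨Y, hY1, hY2, hY3⟩ := kpigeon 𝓖 L2 hL2 (RW 0 k e) (Fintype.card V ^ (1 + e)) (by
    have h1 : (𝓖.image (fun (φ : TW 0 k e → V) (u : RW 0 k e) => φ u.1)).card ≤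
        (Finset.univ : Finset ((((RW 0 k e).erase TW.f : Finset _)) → V)).card := by
      refine Finset.card_le_card_of_injOn
        (fun η u => η ⟨u.1, Finset.mem_of_mem_erase u.2⟩) (fun _ _ => Finset.mem_coe.mpr
          (Finset.mem_univ _)) ?_
      intro η hη η' hη' h
      obtain ⟨φ, hφ, rfl⟩ := Finset.mem_image.mp (Finset.mem_coe.mp hη)
      obtain ⟨φ', hφ', rfl⟩ := Finset.mem_image.mp (Finset.mem_coe.mp hη')
      funext u
      by_cases hu : u.1 = TW.f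
      · show φ u.1 = φ' u.1
        rw [hu, (h𝓖 φ hφ).2.2, (h𝓖 φ' hφ').2.2]
      · exact congrFun h ⟨u.1, Finset.mem_erase.mpr ⟨hu, u.2⟩⟩
    refine h1.trans (le_of_eq ?_)
    rw [Finset.card_univ, Fintype.card_fun, Fintype.card_coe,
      Finset.card_erase_of_mem (w_f 0 k e), card_RW]
    congr 1
    omega) hc
  have hne : (𝓖.filter (fun φ => Rich {φ | φ ∈ 𝓖} L2 Y φ)).Nonempty := by
    rw [← Finset.card_pos]
    by_contra h0
    have h0' : (𝓖.filter (fun φ => Rich {φ | φ ∈ 𝓖} L2 Y φ)).card = 0 := by omega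
    rw [h0', Nat.mul_zero] at hY3
    omega
  obtain ⟨φ0, hφ0⟩ := hne
  obtain ⟨h1, h2⟩ := Finset.mem_filter.mp hφ0
  have hch : ∀ u v w : TW 0 k e, v ∉ Y → u ∈ Y → w ∈ Y → (WG 0 k e).Adj u v →
      (WG 0 k e).Adj v w → u ≠ w → False := fun u v w hv hu hw huv hvw huw =>
    cherryfree (WG 0 k e) G {φ | φ ∈ 𝓖} L2 L1 hL2 hL
      (fun φ hφ => ⟨(h𝓖 φ hφ).1, (h𝓖 φ hφ).2.1⟩) Y φ0 h2 hv hu hw huv hvw huw
  have hYR : Y = RW 0 k e := by
    have hx : TW.x ∉ Y := by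
      intro hx
      apply hY2
      have hz : TW.z ∈ Y := by
        by_contra hz
        exact hch .x .z .p hz hx (hY1 (w_p 0 k e)) (wadj_par TW.z (by simp))
          (wadj_par TW.p (by simp)) (by simp)
      rw [Finset.eq_univ_iff_forall]
      intro v
      cases v with
      | f => exact hY1 (w_f 0 k e)
      | p => exact hY1 (w_p 0 k e)
      | x => exact hx
      | z => exact hz
      | y b => exact b.elim0
      | m b j => exact b.elim0
      | r b j => exact b.elim0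
      | n l =>
        by_contra hn
        exact hch .z (.n l) (.u l) hn hz (hY1 (w_u l)) (wadj_par (TW.n l) (by simp))
          (wadj_par (TW.u l) (by simp)) (by simp)
      | u l => exact hY1 (w_u l)
    have hz : TW.z ∉ Y := fun hz =>
      hch .f .x .z hx (hY1 (w_f 0 k e)) hz (wadj_par TW.f (by simp)).symm
        (wadj_par TW.z (by simp)) (by simp)
    have hn : ∀ l, TW.n l ∉ Y := fun l hn =>
      hch .p .z (.n l) hz (hY1 (w_p 0 k e)) hn (wadj_par TW.p (by simp)).symm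
        (wadj_par (TW.n l) (by simp)) (by simp)
    refine Finset.Subset.antisymm ?_ hY1
    intro v hv
    cases v with
    | f => exact w_f 0 k e
    | p => exact w_p 0 k e
    | x => exact absurd hv hx
    | z => exact absurd hv hz
    | y b => exact b.elim0
    | m b j => exact b.elim0
    | r b j => exact b.elim0
    | n l => exact absurd hv (hn l)
    | u l => exact w_u l
  rw [hYR] at h2
  exact ⟨φ0, h1, h2⟩

end Pool.Agent.TH476
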