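import Pool.Agent.TH476.ECaseA3

set_option autoImplicit false

open Classical

namespace Pool.Agent.TH476

attribute [local irreducible] RW

lemma A_asm {V : Type} {g k e t : ℕ} (G : SimpleGraph V) (ht : 0 < t) (w : V)
    (r : Fin g × Fin k → V) (hr : Function.Injective r) (hrw : ∀ p, r p ≠ w)
    (φ0 : TW 0 k e → V) (F : Fin t → TW 0 k e → V) (hF : ∀ i, Emb (WG 0 k e) G (F i))
    (hφ0 : φ0 .f = w) (hFR : ∀ i, ∀ u ∈ RW 0 k e, F i u = φ0 u)
    (hdis : ∀ i j, i ≠ j → ∀ u, u ∉ RW 0 k e → ∀ v, v ∉ RW 0 k e → F i u ≠ F j v)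
    (hFr : ∀ i v p, v ≠ TW.f → F i v ≠ r p) (L : ℕ)
    (hL : (1 + g * k + t * (4 + 2 * e)) + (t * g) * (1 + k) < L)
    (hS : ∀ i b, SR G k L (F i .x) (fun j => r (b, j))) :
    BUP (WG g k e) (RW g k e) t G := by
  obtain ⟨Z, hZ⟩ : ∃ Z : Finset V, Z = insert w (Finset.univ.image r) ∪
    (Finset.univ : Finset (Fin t)).biUnion (fun i => Finset.univ.image (F i)) := ⟨_, rfl⟩
  have hZc : Z.card ≤ 1 + g * k + t * (4 + 2 * e) := by
    rw [hZ]
    refine (Finset.card_union_le _ _).trans (Nat.add_le_add ?_ ?_)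
    · refine (Finset.card_insert_le _ _).trans ?_
      have : (Finset.univ.image r).card ≤ g * k := Finset.card_image_le.trans (by simp)
      omega
    · refine (Finset.card_biUnion_le_card_mul _ _ (4 + 2 * e) (fun i _ => ?_)).trans (by simp)
      refine Finset.card_image_le.trans ?_
      rw [Finset.card_univ, card_TW]
      omega
  obtain ⟨a, ha1, ha2, ha3⟩ := greedy (κ := Fin t × Fin g) (α := V × (Fin k → V))
    (fun _ a => insert a.1 (Finset.univ.image a.2)) (1 + k)
    (fun p a => G.Adj (F p.1 .x) a.1 ∧ (∀ j, G.Adj a.1 (a.2 j)) ∧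
      (∀ j, G.Adj (a.2 j) (r (p.2, j))) ∧ Function.Injective a.2) Z
    (fun _ a _ => by
      refine (Finset.card_insert_le _ _).trans ?_
      have : (Finset.univ.image a.2).card ≤ k := Finset.card_image_le.trans (by simp)
      omega)
    (by
      rintro ⟨i, b⟩ Z hZ
      obtain ⟨y, m, h1, h2, h3, h4, h5⟩ := hS i b
      have hc : Fintype.card (Fin t × Fin g) = t * g := by simp
      rw [hc] at hZ
      obtain ⟨k', hk⟩ := avoid (fun k' : Fin L => insert (y k') (Finset.univ.image (m k'))) (by
        intro k1 k2 hkk'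
        obtain ⟨h6, h7, h8⟩ := h5 k1 k2 hkk'
        obtain ⟨_, h7', _⟩ := h5 k2 k1 (Ne.symm hkk')
        rw [Finset.disjoint_left]
        intro z hz hz'
        rcases Finset.mem_insert.mp hz with rfl | hz
        · rcases Finset.mem_insert.mp hz' with h | hz'
          · exact h6 h
          · obtain ⟨j, _, hj⟩ := Finset.mem_image.mp hz'
            exact h7 j hj.symm
        · obtain ⟨j, _, hj⟩ := Finset.mem_image.mp hz
          rcases Finset.mem_insert.mp hz' with h | hz'
          · exact h7' j (by rw [hj, h])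
          · obtain ⟨j', _, hj'⟩ := Finset.mem_image.mp hz'
            exact h8 j j' (by rw [hj, hj'])) Z (by omega)
      exact ⟨(y k', m k'), ⟨h1 k', h2 k', h3 k', h4 k'⟩, hk⟩)
  have zw : w ∈ Z := by
    rw [hZ]; exact Finset.mem_union_left _ (Finset.mem_insert_self _ _)
  have zr : ∀ p, r p ∈ Z := fun p => by
    rw [hZ]; exact Finset.mem_union_left _ (Finset.mem_insert_of_mem
      (Finset.mem_image_of_mem _ (Finset.mem_univ _)))
  have zF : ∀ i v, F i v ∈ Z := fun i v => by
    rw [hZ]; exact Finset.mem_union_right _ (Finset.mem_biUnion.mpr ⟨i, Finset.mem_univ _,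
      Finset.mem_image_of_mem _ (Finset.mem_univ _)⟩)
  obtain ⟨i0⟩ : Nonempty (Fin t) := ⟨⟨0, ht⟩⟩
  have zp : φ0 .p ∈ Z := by
    rw [← hFR i0 _ (w_p 0 k e)]
    exact zF _ _
  have zu : ∀ l, φ0 (.u l) ∈ Z := fun l => by
    rw [← hFR i0 _ (w_u l)]
    exact zF _ _
  have yZ : ∀ p v, v ∈ Z → (a p).1 ≠ v := fun p v hv h =>
    Finset.disjoint_left.mp (ha2 p) (Finset.mem_insert_self _ _) (h ▸ hv)
  have mZ : ∀ p j v, v ∈ Z → (a p).2 j ≠ v := fun p j v hv h =>
    Finset.disjoint_left.mp (ha2 p) (Finset.mem_insert_of_mem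
      (Finset.mem_image_of_mem _ (Finset.mem_univ _))) (h ▸ hv)
  have hFw : ∀ i, F i .f = w := fun i => by rw [hFR i _ (w_f 0 k e), hφ0]
  have FF : ∀ i j u v, u ∉ RW 0 k e → v ∉ RW 0 k e → F i u = F j v → i = j ∧ u = v := by
    intro i j u v hu hv h
    by_cases hij : i = j
    · subst hij
      exact ⟨rfl, (hF i).2 h⟩
    · exact absurd h (hdis i j hij u hu v hv)
  have FR : ∀ i u v, u ∉ RW 0 k e → v ∈ RW 0 k e → F i u ≠ φ0 v := by
    intro i u v hu hv h
    rw [← hFR i v hv] at h
    exact hu ((hF i).2 h ▸ hv)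
  have Fw : ∀ i u, u ∉ RW 0 k e → F i u ≠ w := by
    intro i u hu
    rw [← hφ0]
    exact FR i u _ hu (w_f 0 k e)
  have RR : ∀ u v, u ∈ RW 0 k e → v ∈ RW 0 k e → φ0 u = φ0 v → u = v := by
    intro u v hu hv h
    rw [← hFR i0 u hu, ← hFR i0 v hv] at h
    exact (hF i0).2 h
  have pw : w ≠ φ0 .p := by
    intro h
    rw [← hφ0] at h
    have := RR _ _ (w_f 0 k e) (w_p 0 k e) h
    simp at this
  have uw : ∀ l, w ≠ φ0 (.u l) := by
    intro l h
    rw [← hφ0] at h
    have := RR _ _ (w_f 0 k e) (w_u l) h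
    simp at this
  have pu : ∀ l, φ0 .p ≠ φ0 (.u l) := by
    intro l h
    have := RR _ _ (w_p 0 k e) (w_u l) h
    simp at this
  have uu : ∀ l l', φ0 (.u l) = φ0 (.u l') → l = l' := by
    intro l l' h
    have := RR _ _ (w_u l) (w_u l') h
    simpa using this
  have pr : ∀ q, φ0 .p ≠ r q := by
    intro q
    rw [← hFR i0 _ (w_p 0 k e)]
    exact hFr i0 _ q (by simp)
  have ur : ∀ l q, φ0 (.u l) ≠ r q := by
    intro l q
    rw [← hFR i0 _ (w_u l)]
    exact hFr i0 _ q (by simp)
  have yy : ∀ q q', (a q).1 = (a q').1 → q = q' := by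
    intro q q' h
    by_contra hne
    refine Finset.disjoint_left.mp (ha3 q q' hne) (Finset.mem_insert_self _ _) ?_
    rw [h]
    exact Finset.mem_insert_self _ _
  have ym : ∀ q q' j, (a q).1 ≠ (a q').2 j := by
    intro q q' j h
    by_cases hne : q = q'
    · subst hne
      exact ((ha1 q).2.1 j).ne h
    · refine Finset.disjoint_left.mp (ha3 q q' hne) (Finset.mem_insert_self _ _) ?_
      rw [h]
      exact Finset.mem_insert_of_mem (Finset.mem_image_of_mem _ (Finset.mem_univ _))
  have mm : ∀ q q' j j', (a q).2 j = (a q').2 j' → q = q' ∧ j = j' := by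
    intro q q' j j' h
    by_cases hne : q = q'
    · subst hne
      exact ⟨rfl, (ha1 q).2.2.2 h⟩
    · exfalso
      refine Finset.disjoint_left.mp (ha3 q q' hne) (Finset.mem_insert_of_mem
        (Finset.mem_image_of_mem (a q).2 (Finset.mem_univ j))) ?_
      rw [h]
      exact Finset.mem_insert_of_mem (Finset.mem_image_of_mem _ (Finset.mem_univ _))
  let ro : TW g k e → V := fun c => match c with
    | .f => w
    | .p => φ0 .p
    | .r b j => r (b, j)
    | .u l => φ0 (.u l)
    | _ => w
  let ψ : Fin t → TW g k e → V := fun i c => match c with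
    | .x => F i .x
    | .z => F i .z
    | .y b => (a (i, b)).1
    | .m b j => (a (i, b)).2 j
    | .n l => F i (.n l)
    | _ => w
  refine BUPW_of t G ht ro ψ ?_ ?_ ?_ ?_ ?_
  · intro i c hc hr
    cases c with
    | f => exact absurd (w_f g k e) hr
    | p => exact absurd (w_p g k e) hr
    | x => exact absurd rfl hc
    | z => exact (hF i).1 _ _ (wadj_par TW.z (by simp))
    | y b => exact (ha1 (i, b)).1
    | m b j => exact (ha1 (i, b)).2.1 j
    | r b j => exact absurd (w_r b j) hr
    | n l => exact (hF i).1 _ _ (wadj_par (TW.n l) (by simp))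
    | u l => exact absurd (w_u l) hr
  · intro i c hr
    cases c with
    | f =>
      have := (hF i).1 _ _ (wadj_par TW.f (by simp))
      rw [hFw i] at this
      exact this
    | p =>
      have := (hF i).1 _ _ (wadj_par TW.p (by simp))
      rw [hFR i _ (w_p 0 k e)] at this
      exact this
    | x => exact absurd hr (w_x g k e)
    | z => exact absurd hr (w_z g k e)
    | y b => exact absurd hr (w_y b)
    | m b j => exact absurd hr (w_m b j)
    | r b j => exact (ha1 (i, b)).2.2.1 j
    | n l => exact absurd hr (w_n l)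
    | u l =>
      have := (hF i).1 _ _ (wadj_par (TW.u l) (by simp))
      rw [hFR i _ (w_u l)] at this
      exact this
  · intro c hc d hd h
    cases c <;> cases d
    all_goals simp only [ro] at h
    all_goals first
      | rfl
      | exact absurd hc (w_x g k e)
      | exact absurd hc (w_z g k e)
      | exact absurd hc (w_y _)
      | exact absurd hc (w_m _ _)
      | exact absurd hc (w_n _)
      | exact absurd hd (w_x g k e)
      | exact absurd hd (w_z g k e)
      | exact absurd hd (w_y _)
      | exact absurd hd (w_m _ _)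
      | exact absurd hd (w_n _)
      | exact absurd h pw
      | exact absurd h.symm pw
      | exact absurd h (uw _)
      | exact absurd h.symm (uw _)
      | exact absurd h (pu _)
      | exact absurd h.symm (pu _)
      | exact absurd h (hrw _)
      | exact absurd h.symm (hrw _)
      | exact absurd h (pr _)
      | exact absurd h.symm (pr _)
      | exact absurd h (ur _ _)
      | exact absurd h.symm (ur _ _)
      | exact congrArg TW.u (uu _ _ h)
      | (have := hr h; simp only [Prod.mk.injEq] at this; rw [this.1, this.2])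
  · intro i c d hc hd h
    cases c <;> cases d
    all_goals simp only [ro, ψ] at h
    all_goals first
      | exact absurd (w_f g k e) hc
      | exact absurd (w_p g k e) hc
      | exact absurd (w_r _ _) hc
      | exact absurd (w_u _) hc
      | exact absurd hd (w_x g k e)
      | exact absurd hd (w_z g k e)
      | exact absurd hd (w_y _)
      | exact absurd hd (w_m _ _)
      | exact absurd hd (w_n _)
      | exact Fw _ _ (w_x 0 k e) h
      | exact Fw _ _ (w_z 0 k e) h
      | exact Fw _ _ (w_n _) h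
      | exact FR _ _ _ (w_x 0 k e) (w_p 0 k e) h
      | exact FR _ _ _ (w_z 0 k e) (w_p 0 k e) h
      | exact FR _ _ _ (w_n _) (w_p 0 k e) h
      | exact FR _ _ _ (w_x 0 k e) (w_u _) h
      | exact FR _ _ _ (w_z 0 k e) (w_u _) h
      | exact FR _ _ _ (w_n _) (w_u _) h
      | exact hFr _ _ _ (by simp) h
      | exact yZ _ _ zw h
      | exact yZ _ _ zp h
      | exact yZ _ _ (zu _) h
      | exact yZ _ _ (zr _) h
      | exact mZ _ _ _ zw h
      | exact mZ _ _ _ zp h
      | exact mZ _ _ _ (zu _) h
      | exact mZ _ _ _ (zr _) h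
  · intro i i' c d hc hd h
    cases c <;> cases d
    all_goals simp only [ψ] at h
    all_goals first
      | exact absurd (w_f g k e) hc
      | exact absurd (w_p g k e) hc
      | exact absurd (w_r _ _) hc
      | exact absurd (w_u _) hc
      | exact absurd (w_f g k e) hd
      | exact absurd (w_p g k e) hd
      | exact absurd (w_r _ _) hd
      | exact absurd (w_u _) hd
      | exact absurd h (yZ _ _ (zF _ _))
      | exact absurd h.symm (yZ _ _ (zF _ _))
      | exact absurd h (mZ _ _ _ (zF _ _))
      | exact absurd h.symm (mZ _ _ _ (zF _ _))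
      | exact absurd h (ym _ _ _)
      | exact absurd h.symm (ym _ _ _)
      | exact ⟨(FF _ _ _ _ (w_x 0 k e) (w_x 0 k e) h).1, rfl⟩
      | exact ⟨(FF _ _ _ _ (w_z 0 k e) (w_z 0 k e) h).1, rfl⟩
      | (have := (FF _ _ _ _ (w_x 0 k e) (w_z 0 k e) h).2; simp at this; done)
      | (have := (FF _ _ _ _ (w_z 0 k e) (w_x 0 k e) h).2; simp at this; done)
      | (have := (FF _ _ _ _ (w_x 0 k e) (w_n _) h).2; simp at this; done)
      | (have := (FF _ _ _ _ (w_z 0 k e) (w_n _) h).2; simp at this; done)
      | (have := (FF _ _ _ _ (w_n _) (w_x 0 k e) h).2; simp at this; done)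
      | (have := (FF _ _ _ _ (w_n _) (w_z 0 k e) h).2; simp at this; done)
      | (have := FF _ _ _ _ (w_n _) (w_n _) h
         simp only [TW.n.injEq] at this
         exact ⟨this.1, congrArg TW.n this.2⟩)
      | (have := yy _ _ h
         simp only [Prod.mk.injEq] at this
         exact ⟨this.1, congrArg TW.y this.2⟩)
      | (have := mm _ _ _ _ h
         simp only [Prod.mk.injEq] at this
         exact ⟨this.1.1, by rw [this.1.2, this.2]⟩)

end Pool.Agent.TH476
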