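import Pool.Agent.TH476.ECaseA4

set_option autoImplicit false

open Classical

namespace Pool.Agent.TH476

attribute [local irreducible] RW

lemma Ld_card {V : Type} [Fintype V] (G : SimpleGraph V) (D K : ℕ) (hG : AR G D K) (k L : ℕ)
    (w x : V) : (Ld G k L w x).card ≤ K ^ (2 * k) * D ^ (2 * k) := by
  unfold Ld
  refine (Finset.card_filter_le _ _).trans ?_
  rw [Fintype.card_piFinset, Finset.prod_const, Finset.card_univ, Fintype.card_fin]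
  calc (Lg G w).card ^ k ≤ (K ^ 2 * D ^ 2) ^ k := Nat.pow_le_pow_left (Lg_card G D K hG w) k
    _ = _ := by rw [mul_pow, ← pow_mul, ← pow_mul]

lemma sum_nonlight {V : Type} [Fintype V] {k e : ℕ} (G : SimpleGraph V) (D K L1 : ℕ)
    (hG : AR G D K) :
    ∑ w : V, (Finset.univ.filter (fun φ : TW 0 k e → V => Hom (WG 0 k e) G φ ∧ φ .f = w ∧
        ¬ Lt (WG 0 k e) G L1 φ)).card ≤
      (1 + 2 * e + 3) ^ 3 * ((K * D) ^ (1 + 2 * e) * RC G L1) := by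
  have h1 := nonlight_le (WG 0 k e) (WG_conn 0 k e) G D K L1 (1 + 2 * e) hG (by
    rw [card_TW]; omega)
  refine le_trans (le_of_eq ?_) h1
  rw [Finset.card_eq_sum_card_fiberwise (f := fun φ : TW 0 k e → V => φ .f) (t := Finset.univ)
    (fun _ _ => Finset.mem_coe.mpr (Finset.mem_univ _))]
  refine Finset.sum_congr rfl fun w _ => ?_
  congr 1
  ext φ
  simp only [Finset.mem_filter, Finset.mem_univ, true_and]
  tauto

theorem caseAW (Q K g k e t : ℕ) (hQ : 0 < Q) (hK : 0 < K) (hg : 0 < g) (hk : 0 < k)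
    (ht : 0 < t) :
    ∃ QB : ℕ, 0 < QB ∧ ∀ L1 : ℕ, ∃ L C : ℕ, ∀ (V : Type) [Fintype V] [Nonempty V]
    (G : SimpleGraph V) (D : ℕ), AR G D K → C ≤ D →
    C * Fintype.card V ^ (1 + e) ≤ D ^ (3 + 2 * e) → QB * RC G L1 ≤ Fintype.card V * D ^ 2 →
    Fintype.card V * D ^ (1 + 2 * k) ≤ Q * ∑ w : V, ∑ x ∈ nb G w, (Ld G k L w x).card →
    BUP (WG g k e) (RW g k e) t G := by
  obtain ⟨n, hn⟩ : ∃ n, n = g * k := ⟨_, rfl⟩
  have hnpos : 0 < n := by rw [hn]; exact Nat.mul_pos hg hk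
  obtain ⟨M, hM⟩ : ∃ M, M = K ^ (1 + 2 * k) := ⟨_, rfl⟩
  obtain ⟨Q3, hQ3⟩ : ∃ Q3, Q3 = 2 * (2 * Q) * K := ⟨_, rfl⟩
  obtain ⟨Qx, hQx⟩ : ∃ Qx, Qx = 2 * (2 * Q) * K ^ (2 * k) := ⟨_, rfl⟩
  obtain ⟨Q4, hQ4⟩ : ∃ Q4, Q4 = 2 * Q3 ^ g * (K ^ 2) ^ n * Qx := ⟨_, rfl⟩
  have hQ3pos : 0 < Q3 := by rw [hQ3]; positivity
  have hQxpos : 0 < Qx := by rw [hQx]; positivity
  have hQ4pos : 0 < Q4 := by rw [hQ4]; positivity
  obtain ⟨QB, hQB⟩ : ∃ QB, QB = (2 * Q * M + 1) * (4 * Q4) * ((1 + 2 * e + 3) ^ 3 *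
    K ^ (1 + 2 * e)) := ⟨_, rfl⟩
  refine ⟨QB, by rw [hQB]; positivity, fun L1 => ?_⟩
  obtain ⟨L, hL⟩ : ∃ L, L = (1 + g * k + t * (4 + 2 * e)) + (t * g) * (1 + k) + 1 := ⟨_, rfl⟩
  obtain ⟨kk, hkk⟩ : ∃ kk, kk = kc (L1 + t) (RW 0 k e)ᶜ.card := ⟨_, rfl⟩
  refine ⟨L, 2 * Q4 * (2 * kk + 1) + 2 * Q3 ^ g * ((n * K + n ^ 2 * K) * (K ^ 2) ^ (n - 1)) +
    4 * Q4 * (((2 + 2 * e + 2) ^ 2 + (2 + 2 * e + 2) * n) * K ^ (2 + 2 * e)) + 1, ?_⟩
  intro V _ _ G D hG hD hN hRC hcount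
  have hDpos : 0 < D := by omega
  have hVpos : 0 < Fintype.card V := Fintype.card_pos
  -- the vertex w
  obtain ⟨w, hw1, hw2⟩ := pick (V := V) (fun w => ∑ x ∈ nb G w, (Ld G k L w x).card)
    (fun w => (Finset.univ.filter (fun φ : TW 0 k e → V => Hom (WG 0 k e) G φ ∧ φ .f = w ∧
        ¬ Lt (WG 0 k e) G L1 φ)).card) (D ^ (1 + 2 * k)) (D ^ (3 + 2 * e)) Q M (4 * Q4)
    (by positivity) (by positivity) hcount (by
      intro w
      calc ∑ x ∈ nb G w, (Ld G k L w x).card ≤ ∑ x ∈ nb G w, K ^ (2 * k) * D ^ (2 * k) :=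
            Finset.sum_le_sum fun x _ => Ld_card G D K hG k L w x
        _ = (nb G w).card * (K ^ (2 * k) * D ^ (2 * k)) := by
            rw [Finset.sum_const, smul_eq_mul]
        _ ≤ (K * D) * (K ^ (2 * k) * D ^ (2 * k)) := Nat.mul_le_mul_right _ (hG.hi w)
        _ = _ := by rw [hM, pow_add, pow_add, pow_one, pow_one]; ring) (by
      calc (2 * Q * M + 1) * (4 * Q4) * ∑ w : V, (Finset.univ.filter (fun φ : TW 0 k e → V =>
            Hom (WG 0 k e) G φ ∧ φ .f = w ∧ ¬ Lt (WG 0 k e) G L1 φ)).card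
          ≤ (2 * Q * M + 1) * (4 * Q4) * ((1 + 2 * e + 3) ^ 3 *
            ((K * D) ^ (1 + 2 * e) * RC G L1)) :=
            Nat.mul_le_mul_left _ (sum_nonlight G D K L1 hG)
        _ = QB * RC G L1 * D ^ (1 + 2 * e) := by rw [hQB, mul_pow]; ring
        _ ≤ Fintype.card V * D ^ 2 * D ^ (1 + 2 * e) := Nat.mul_le_mul_right _ hRC
        _ = Fintype.card V * D ^ (3 + 2 * e) := by
            rw [mul_assoc, ← pow_add, show 2 + (1 + 2 * e) = 3 + 2 * e by omega])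
  -- typical x
  have hx1 := typical_x G D K (2 * Q) k L hK hDpos hG w hw1
  rw [← hQx, ← hQ3] at hx1
  obtain ⟨X1, hX1⟩ : ∃ X1, X1 = (nb G w).filter
    (fun x => D ^ (2 * k) ≤ Q3 * (Ld G k L w x).card) := ⟨_, rfl⟩
  rw [← hX1] at hx1
  obtain ⟨P, hP⟩ : ∃ P : V × V → Prop, ∀ p, P p ↔ p.2 ∈ ({w} : Finset V) :=
    ⟨_, fun _ => Iff.rfl⟩
  obtain ⟨E, hE⟩ : ∃ E : V → (Fin g × Fin k → V × V) → Prop, ∀ x l, E x l ↔
      ∀ b, SR G k L x (fun j => (l (b, j)).2) := ⟨_, fun _ _ => Iff.rfl⟩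
  obtain ⟨ρ, hρ1, hρ2, hρ3, hρ4⟩ := choose_lin (κ := Fin g × Fin k) n (by simp [hn]) hnpos
    (K ^ 2) (Q3 ^ g) (D ^ 2) (K * D) (K * D) Qx D (by positivity) (by positivity) hDpos
    (Lg G w) (Lg_card G D K hG w) P (fun a b => a.2 = b.2)
    (by
      have := Lg_end G D K hG w {w} P (fun p hp => (hP p).mp hp)
      simpa using this)
    (fun a _ => by
      have := Lg_end G D K hG w {a.2} (fun b => a.2 = b.2)
        (fun p hp => Finset.mem_singleton.mpr hp.symm)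
      simpa using this)
    X1 hx1 E (by
      intro x hx
      rw [hX1] at hx
      have := dense_legs (g := g) G D Q3 L w x (Finset.mem_filter.mp hx).2 (E x) (hE x)
      rw [← hn] at this
      exact this) (by
      have e1 : 2 * Q3 ^ g * ((n * (K * D) + n ^ 2 * (K * D)) * (K ^ 2) ^ (n - 1)) =
        2 * Q3 ^ g * ((n * K + n ^ 2 * K) * (K ^ 2) ^ (n - 1)) * D := by ring
      rw [e1, sq D]
      exact Nat.mul_le_mul_right _ (by omega))
  rw [← hQ4] at hρ4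
  obtain ⟨X, hX⟩ : ∃ X, X = X1.filter (fun x => E x ρ) := ⟨_, rfl⟩
  rw [← hX] at hρ4
  have hXnb : X ⊆ nb G w := by
    intro x hx
    rw [hX] at hx
    have := (Finset.mem_filter.mp hx).1
    rw [hX1] at this
    exact (Finset.mem_filter.mp this).1
  obtain ⟨Zr, hZr⟩ : ∃ Zr : Finset V, Zr = Finset.univ.image (fun p => (ρ p).2) := ⟨_, rfl⟩
  have hZrc : Zr.card ≤ n := by
    rw [hZr]
    exact Finset.card_image_le.trans (by simp [hn])
  have hfam := A_fam (g := 0) (k := k) (e := e) G D K Q4 L1 (2 + 2 * e)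
    (by rw [card_TW]; omega) hG w X Zr hXnb hρ4 (by
      rw [show 2 + 2 * e + 1 = 3 + 2 * e by omega]
      exact hw2) (by
      refine le_trans (Nat.mul_le_mul_left _ (Nat.mul_le_mul_right _
        (Nat.add_le_add_left (Nat.mul_le_mul_left _ hZrc) _))) ?_
      omega)
  obtain ⟨𝓖, h𝓖⟩ : ∃ 𝓖, 𝓖 = Finset.univ.filter (fun φ : TW 0 k e → V => Emb (WG 0 k e) G φ ∧
      Lt (WG 0 k e) G L1 φ ∧ φ .f = w ∧ φ .x ∈ X ∧ ∀ v, v ≠ TW.f → φ v ∉ Zr) := ⟨_, rfl⟩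
  rw [← h𝓖] at hfam
  have hmem : ∀ φ ∈ 𝓖, Emb (WG 0 k e) G φ ∧
      Lt (WG 0 k e) G L1 φ ∧ φ .f = w ∧ φ .x ∈ X ∧ ∀ v, v ≠ TW.f → φ v ∉ Zr := by
    intro φ hφ
    rw [h𝓖] at hφ
    exact (Finset.mem_filter.mp hφ).2
  obtain ⟨φ0, hφ0, F, hF1, hF2, hF3⟩ := A_kern G L1 (L1 + t) (by omega) (by omega) w 𝓖
    (fun φ hφ => ⟨(hmem φ hφ).1, (hmem φ hφ).2.1, (hmem φ hφ).2.2.1⟩) (by
      rw [← hkk]
      refine Nat.lt_of_mul_lt_mul_left (a := 2 * Q4) ?_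
      calc 2 * Q4 * (2 * kk * Fintype.card V ^ (1 + e))
          < 2 * Q4 * (2 * kk * Fintype.card V ^ (1 + e)) +
            2 * Q4 * Fintype.card V ^ (1 + e) := by
            have : 0 < 2 * Q4 * Fintype.card V ^ (1 + e) := by positivity
            omega
        _ = 2 * Q4 * (2 * kk + 1) * Fintype.card V ^ (1 + e) := by ring
        _ ≤ _ := Nat.mul_le_mul_right _ (by omega)
        _ ≤ D ^ (3 + 2 * e) := hN
        _ = D ^ (2 + 2 * e + 1) := by rw [show 2 + 2 * e + 1 = 3 + 2 * e by omega]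
        _ ≤ _ := hfam)
  let c : Fin t → Fin (L1 + t) := fun i => Fin.castLE (by omega) i
  have hc : Function.Injective c := Fin.castLE_injective _
  refine A_asm (g := g) (k := k) (e := e) (t := t) G ht w (fun p => (ρ p).2) ?_ ?_ φ0
    (fun i => F (c i)) (fun i => (hmem _ (hF1 _)).1) (hmem φ0 hφ0).2.2.1
    (fun i u hu => hF2 _ u hu) ?_ ?_ L (by omega) ?_
  · intro p p' h
    by_contra hne
    exact hρ3 p p' hne h
  · intro p h
    exact hρ2 p ((hP _).mpr (Finset.mem_singleton.mpr h))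
  · intro i j hij u hu v hv
    exact hF3 _ _ (fun h => hij (hc h)) u hu v hv
  · intro i v p hv h
    refine (hmem _ (hF1 (c i))).2.2.2.2 v hv ?_
    rw [hZr, h]
    exact Finset.mem_image_of_mem (fun p => (ρ p).2) (Finset.mem_univ _)
  · intro i b
    have h1 := (hmem _ (hF1 (c i))).2.2.2.1
    rw [hX] at h1
    exact (hE _ _).mp (Finset.mem_filter.mp h1).2 b

end Pool.Agent.TH476
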