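import Pool.Agent.TH476.ETree

set_option autoImplicit false

open Classical

namespace Pool.Agent.TH476

attribute [local irreducible] RW

lemma parW_nroot {g k e : ℕ} (v : TW g k e) (hv : v ≠ TW.x) : parW v ∉ RW g k e := by
  cases v with
  | f => exact w_x g k e
  | p => exact w_z g k e
  | x => exact w_x g k e
  | z => exact w_x g k e
  | y b => exact w_x g k e
  | m b j => exact w_y b
  | r b j => exact w_m b j
  | n l => exact w_z g k e
  | u l => exact w_n l

lemma root_ne_x {g k e : ℕ} (v : TW g k e) (hv : v ∈ RW g k e) : v ≠ TW.x := by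
  rintro rfl
  exact w_x g k e hv

lemma BUPW_of {V : Type} {g k e : ℕ} (t : ℕ) (G : SimpleGraph V) (ht : 0 < t)
    (ro : TW g k e → V) (ψ : Fin t → TW g k e → V)
    (a1 : ∀ i v, v ≠ TW.x → v ∉ RW g k e → G.Adj (ψ i (parW v)) (ψ i v))
    (a2 : ∀ i v, v ∈ RW g k e → G.Adj (ψ i (parW v)) (ro v))
    (h3 : ∀ u ∈ RW g k e, ∀ v ∈ RW g k e, ro u = ro v → u = v)
    (h4 : ∀ i u v, u ∉ RW g k e → v ∈ RW g k e → ψ i u ≠ ro v)
    (h5 : ∀ i j u v, u ∉ RW g k e → v ∉ RW g k e → ψ i u = ψ j v → i = j ∧ u = v) :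
    BUP (WG g k e) (RW g k e) t G := by
  refine BUP_of (WG g k e) (RW g k e) t G ht (RW_indep g k e) ro ψ ?_ ?_ h3 h4 h5
  · intro i u v hu hv huv
    rcases (WG_adj u v).mp huv with ⟨h1, rfl⟩ | ⟨h1, rfl⟩
    · exact a1 i v h1 hv
    · exact (a1 i u h1 hu).symm
  · intro i u v hu hv huv
    rcases (WG_adj u v).mp huv with ⟨h1, rfl⟩ | ⟨h1, rfl⟩
    · exact a2 i v hv
    · exact absurd hv (parW_nroot u h1)

/-- the branch of a leg -/
def brl {g k e : ℕ} : (Fin g × Fin k) ⊕ Fin e → Option (Fin g)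
  | Sum.inl (b, _) => some b
  | Sum.inr _ => none

theorem caseCW (Q K g k e t : ℕ) (hQ : 0 < Q) (hK : 0 < K) (hgk : 0 < g * k) (ht : 0 < t) :
    ∃ L D0 : ℕ, ∀ (V : Type) [Fintype V] [Nonempty V] (G : SimpleGraph V) (D : ℕ), AR G D K →
    D0 ≤ D → Fintype.card V * D ^ 2 ≤ Q * RC G L →
    BUP (WG g k e) (RW g k e) t G := by
  obtain ⟨n, hn⟩ : ∃ n, n = g * k + e := ⟨_, rfl⟩
  obtain ⟨Q2, hQ2⟩ : ∃ Q2, Q2 = 2 * Q * K := ⟨_, rfl⟩
  obtain ⟨M, hM⟩ : ∃ M, M = 2 * t * (Q2 ^ n * K ^ n) := ⟨_, rfl⟩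
  obtain ⟨ζ, hζ⟩ : ∃ ζ, ζ = 2 + M + M * (g + 1) := ⟨_, rfl⟩
  refine ⟨Q2 * K * ((M + 1) + (ζ + 1)) + 1 + (ζ + n + t * n + 1),
    2 * Q2 ^ n * ((n * ζ + n ^ 2 * 1) * K ^ (n - 1)) + 1, ?_⟩
  intro V _ _ G D hG hD hcount
  have hQ2pos : 0 < Q2 := by rw [hQ2]; positivity
  have hDpos : 0 < D := by omega
  obtain ⟨L, hL⟩ : ∃ L, L = Q2 * K * ((M + 1) + (ζ + 1)) + 1 + (ζ + n + t * n + 1) := ⟨_, rfl⟩
  rw [← hL] at hcount
  obtain ⟨w, hw⟩ := hub G D Q L hcount
  obtain ⟨A', hA', f, hf, h1, h2⟩ := typical (fun p p' => Cd G L p p')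
    (fun a b h => by unfold Cd at h ⊢; rw [Finset.inter_comm]; exact h) (nb G w) D K Q hK hDpos
    (hG.hi w) hw
  rw [← hQ2] at h2
  have h1' : ∀ p ∈ A', D ≤ Q2 * ((nb G w).filter (fun p' => Cd G L p p')).card := by
    intro p hp
    rw [hQ2]
    exact h1 p hp
  have h3 := many_nb G D K Q2 L (M + 1) (ζ + 1) hG hDpos f A'
    (A'.filter (fun p => Cd G L f p))
    ((Finset.card_le_card hA').trans (hG.hi w)) (Finset.filter_subset _ _) h2
    (fun p hp => (Finset.mem_filter.mp hp).2) (by omega)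
  have h3' : M ≤ (((nb G f).filter (fun v => ζ + 1 ≤ (nb G v ∩ A').card)).erase w).card := by
    have := Finset.pred_card_le_card_erase
      (s := (nb G f).filter (fun v => ζ + 1 ≤ (nb G v ∩ A').card)) (a := w)
    omega
  obtain ⟨T, hT1, hT2⟩ := Finset.exists_subset_card_eq h3'
  obtain ⟨v, hv, hvT⟩ : ∃ v : Fin M → V, Function.Injective v ∧
      ∀ i, v i ≠ w ∧ G.Adj f (v i) ∧ ζ + 1 ≤ (nb G (v i) ∩ A').card := by
    refine ⟨fun i => ((T.equivFinOfCardEq hT2).symm i).1, fun a b hab =>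
      (T.equivFinOfCardEq hT2).symm.injective (Subtype.ext hab), fun i => ?_⟩
    have h0 := Finset.mem_erase.mp (hT1 ((T.equivFinOfCardEq hT2).symm i).2)
    have := Finset.mem_filter.mp h0.2
    exact ⟨h0.1, (mem_nb _ _ _).mp this.1, this.2⟩
  have hfw : f ≠ w := fun h => by
    have := (mem_nb _ _ _).mp hf
    rw [h] at this
    exact G.irrefl this
  obtain ⟨Z1, hZ1⟩ : ∃ Z1 : Finset V, Z1 = insert f (insert w (Finset.univ.image v)) := ⟨_, rfl⟩
  have hZ1c : Z1.card ≤ 2 + M := by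
    rw [hZ1]
    refine (Finset.card_insert_le _ _).trans ?_
    have h5 := Finset.card_insert_le w (Finset.univ.image v)
    have : (Finset.univ.image v).card ≤ M := Finset.card_image_le.trans (by simp)
    omega
  obtain ⟨y, hy1, hy2, hy3⟩ := greedy1 (κ := Fin M × Option (Fin g))
    (fun p a => a ∈ nb G (v p.1) ∩ A') Z1 (by
      intro p Z hZ
      refine exists_notMem _ _ (lt_of_lt_of_le ?_ (hvT p.1).2.2)
      have : Fintype.card (Fin M × Option (Fin g)) = M * (g + 1) := by simp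
      rw [this] at hZ
      omega)
  obtain ⟨Z2, hZ2⟩ : ∃ Z2 : Finset V, Z2 = Z1 ∪ Finset.univ.image y := ⟨_, rfl⟩
  have hZ2c : Z2.card ≤ ζ := by
    rw [hZ2]
    refine (Finset.card_union_le _ _).trans ?_
    have : (Finset.univ.image y).card ≤ M * (g + 1) := Finset.card_image_le.trans (by simp)
    omega
  have hnpos : 0 < n := by omega
  have hκ : Fintype.card ((Fin g × Fin k) ⊕ Fin e) = n := by simp [hn]
  obtain ⟨Pz, hPz⟩ : ∃ P : V → Prop, ∀ z, P z ↔ z ∈ Z2 := ⟨_, fun _ => Iff.rfl⟩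
  obtain ⟨E, hE⟩ : ∃ E : Fin M → ((Fin g × Fin k) ⊕ Fin e → V) → Prop, ∀ i ρ, E i ρ ↔
      ∀ l, Cd G L (y (i, brl l)) (ρ l) := ⟨_, fun _ _ => Iff.rfl⟩
  obtain ⟨ρ, hρ0, hρ2, hρ1, σ, hσ1, hσ2⟩ := choose_gen (κ := (Fin g × Fin k) ⊕ Fin e) n hκ hnpos
    t K (Q2 ^ n) D ζ 1 M hM hK (by positivity) ht hDpos (nb G w) (hG.hi w) Pz (fun a b => a = b)
    ((Finset.card_le_card (by
        intro z hz
        exact (hPz z).mp (Finset.mem_filter.mp hz).2)).trans hZ2c)
    (fun a _ => Finset.card_le_one.mpr fun b hb c hc => by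
        rw [← (Finset.mem_filter.mp hb).2, ← (Finset.mem_filter.mp hc).2]) E (by
      intro i
      have e1 : (Fintype.piFinset (fun l : (Fin g × Fin k) ⊕ Fin e =>
          (nb G w).filter (fun p' => Cd G L (y (i, brl l)) p'))) ⊆
          (Fintype.piFinset (fun _ : (Fin g × Fin k) ⊕ Fin e => nb G w)).filter (E i) := by
        intro ρ hρ
        rw [Fintype.mem_piFinset] at hρ
        rw [Finset.mem_filter, Fintype.mem_piFinset]
        exact ⟨fun l => (Finset.mem_filter.mp (hρ l)).1,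
          (hE i ρ).mpr fun l => (Finset.mem_filter.mp (hρ l)).2⟩
      refine le_trans ?_ (Nat.mul_le_mul_left _ (Finset.card_le_card e1))
      rw [Fintype.card_piFinset, ← hκ, ← Finset.card_univ (α := (Fin g × Fin k) ⊕ Fin e),
        ← Finset.prod_const, ← Finset.prod_const, ← Finset.prod_mul_distrib]
      exact Finset.prod_le_prod (fun _ _ => Nat.zero_le _) (fun l _ =>
        h1' _ (Finset.mem_of_mem_inter_right (hy1 (i, brl l))))) (by omega)
  have hρinj : Function.Injective ρ := by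
    intro a b hab
    by_contra hne
    exact hρ1 a b hne hab
  obtain ⟨Z3, hZ3⟩ : ∃ Z3 : Finset V, Z3 = Z2 ∪ Finset.univ.image ρ := ⟨_, rfl⟩
  have hZ3c : Z3.card ≤ ζ + n := by
    rw [hZ3]
    refine (Finset.card_union_le _ _).trans ?_
    have : (Finset.univ.image ρ).card ≤ n := by
      refine Finset.card_image_le.trans ?_
      rw [Finset.card_univ, hκ]
    omega
  obtain ⟨m, hm1, hm2, hm3⟩ := greedy1 (κ := Fin t × ((Fin g × Fin k) ⊕ Fin e))
    (fun p a => a ∈ nb G (y (σ p.1, brl p.2)) ∩ nb G (ρ p.2)) Z3 (by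
      intro p Z hZ
      have h5 := (hE _ _).mp (hσ2 p.1) p.2
      refine exists_notMem _ _ (lt_of_lt_of_le ?_ h5)
      rw [Fintype.card_prod, hκ, Fintype.card_fin] at hZ
      omega)
  have hfZ : f ∈ Z1 := by rw [hZ1]; exact Finset.mem_insert_self _ _
  have hwZ : w ∈ Z1 := by
    rw [hZ1]; exact Finset.mem_insert_of_mem (Finset.mem_insert_self _ _)
  have hvZ : ∀ i, v i ∈ Z1 := fun i => by
    rw [hZ1]; exact Finset.mem_insert_of_mem (Finset.mem_insert_of_mem
      (Finset.mem_image_of_mem _ (Finset.mem_univ _)))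
  have hyZ : ∀ i, y i ∈ Z2 := fun i => by
    rw [hZ2]; exact Finset.mem_union_right _ (Finset.mem_image_of_mem _ (Finset.mem_univ _))
  have h12 : ∀ z ∈ Z1, z ∈ Z2 := fun z hz => by rw [hZ2]; exact Finset.mem_union_left _ hz
  have h23 : ∀ z ∈ Z2, z ∈ Z3 := fun z hz => by rw [hZ3]; exact Finset.mem_union_left _ hz
  have hρZ : ∀ i, ρ i ∈ Z3 := fun i => by
    rw [hZ3]; exact Finset.mem_union_right _ (Finset.mem_image_of_mem _ (Finset.mem_univ _))
  have hρn : ∀ i, ρ i ∉ Z2 := fun i h => hρ2 i ((hPz _).mpr h)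
  let ro : TW g k e → V := fun a => match a with
    | .f => f
    | .p => w
    | .r b j => ρ (Sum.inl (b, j))
    | .u l => ρ (Sum.inr l)
    | _ => f
  let ψ : Fin t → TW g k e → V := fun i a => match a with
    | .x => v (σ i)
    | .z => y (σ i, none)
    | .y b => y (σ i, some b)
    | .m b j => m (i, Sum.inl (b, j))
    | .n l => m (i, Sum.inr l)
    | _ => f
  have vy : ∀ i j, v i ≠ y j := fun i j h => hy2 j (h ▸ hvZ i)
  have vm : ∀ i j, v i ≠ m j := fun i j h => hm2 j (h ▸ h23 _ (h12 _ (hvZ i)))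
  have ym : ∀ i j, y i ≠ m j := fun i j h => hm2 j (h ▸ h23 _ (hyZ i))
  have vf : ∀ i, v i ≠ f := fun i h => (hvT i).2.1.ne h.symm
  have vw : ∀ i, v i ≠ w := fun i => (hvT i).1
  have vr : ∀ i j, v i ≠ ρ j := fun i j h => hρn j (h ▸ h12 _ (hvZ i))
  have yf : ∀ i, y i ≠ f := fun i h => hy2 i (h ▸ hfZ)
  have yw : ∀ i, y i ≠ w := fun i h => hy2 i (h ▸ hwZ)
  have yr : ∀ i j, y i ≠ ρ j := fun i j h => hρn j (h ▸ hyZ i)
  have mf : ∀ i, m i ≠ f := fun i h => hm2 i (h ▸ h23 _ (h12 _ hfZ))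
  have mw : ∀ i, m i ≠ w := fun i h => hm2 i (h ▸ h23 _ (h12 _ hwZ))
  have mr : ∀ i j, m i ≠ ρ j := fun i j h => hm2 i (h ▸ hρZ j)
  have fr : ∀ j, f ≠ ρ j := fun j h => hρn j (h ▸ h12 _ hfZ)
  have wr : ∀ j, w ≠ ρ j := fun j h => hρn j (h ▸ h12 _ hwZ)
  refine BUPW_of t G ht ro ψ ?_ ?_ ?_ ?_ ?_
  · intro i a ha hr
    cases a with
    | f => exact absurd (w_f g k e) hr
    | p => exact absurd (w_p g k e) hr
    | x => exact absurd rfl ha
    | z => exact (mem_nb _ _ _).mp (Finset.mem_of_mem_inter_left (hy1 (σ i, none)))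
    | y b => exact (mem_nb _ _ _).mp (Finset.mem_of_mem_inter_left (hy1 (σ i, some b)))
    | m b j => exact (mem_nb _ _ _).mp (Finset.mem_of_mem_inter_left (hm1 (i, Sum.inl (b, j))))
    | r b j => exact absurd (w_r b j) hr
    | n l => exact (mem_nb _ _ _).mp (Finset.mem_of_mem_inter_left (hm1 (i, Sum.inr l)))
    | u l => exact absurd (w_u l) hr
  · intro i a hr
    cases a with
    | f => exact (hvT (σ i)).2.1.symm
    | p =>
      have := hA' (Finset.mem_of_mem_inter_right (hy1 (σ i, none)))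
      exact ((mem_nb _ _ _).mp this).symm
    | x => exact absurd hr (w_x g k e)
    | z => exact absurd hr (w_z g k e)
    | y b => exact absurd hr (w_y b)
    | m b j => exact absurd hr (w_m b j)
    | r b j =>
      exact ((mem_nb _ _ _).mp (Finset.mem_of_mem_inter_right (hm1 (i, Sum.inl (b, j))))).symm
    | n l => exact absurd hr (w_n l)
    | u l =>
      exact ((mem_nb _ _ _).mp (Finset.mem_of_mem_inter_right (hm1 (i, Sum.inr l)))).symm
  · intro a ha b hb h
    cases a <;> cases b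
    all_goals simp only [ro] at h
    all_goals first
      | rfl
      | exact absurd ha (w_x g k e)
      | exact absurd ha (w_z g k e)
      | exact absurd ha (w_y _)
      | exact absurd ha (w_m _ _)
      | exact absurd ha (w_n _)
      | exact absurd hb (w_x g k e)
      | exact absurd hb (w_z g k e)
      | exact absurd hb (w_y _)
      | exact absurd hb (w_m _ _)
      | exact absurd hb (w_n _)
      | exact absurd h hfw
      | exact absurd h.symm hfw
      | exact absurd h (fr _)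
      | exact absurd h.symm (fr _)
      | exact absurd h (wr _)
      | exact absurd h.symm (wr _)
      | (have := hρinj h; simp at this; done)
      | (have := hρinj h; simp at this; simp [this])
  · intro i a b ha hb h
    cases a <;> cases b
    all_goals simp only [ro, ψ] at h
    all_goals first
      | exact absurd (w_f g k e) ha
      | exact absurd (w_p g k e) ha
      | exact absurd (w_r _ _) ha
      | exact absurd (w_u _) ha
      | exact absurd hb (w_x g k e)
      | exact absurd hb (w_z g k e)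
      | exact absurd hb (w_y _)
      | exact absurd hb (w_m _ _)
      | exact absurd hb (w_n _)
      | exact vf _ h
      | exact vw _ h
      | exact vr _ _ h
      | exact yf _ h
      | exact yw _ h
      | exact yr _ _ h
      | exact mf _ h
      | exact mw _ h
      | exact mr _ _ h
  · intro i i' a b ha hb h
    cases a <;> cases b
    all_goals simp only [ψ] at h
    all_goals first
      | exact absurd (w_f g k e) ha
      | exact absurd (w_p g k e) ha
      | exact absurd (w_r _ _) ha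
      | exact absurd (w_u _) ha
      | exact absurd (w_f g k e) hb
      | exact absurd (w_p g k e) hb
      | exact absurd (w_r _ _) hb
      | exact absurd (w_u _) hb
      | exact absurd h (vy _ _)
      | exact absurd h.symm (vy _ _)
      | exact absurd h (vm _ _)
      | exact absurd h.symm (vm _ _)
      | exact absurd h (ym _ _)
      | exact absurd h.symm (ym _ _)
      | exact ⟨hσ1 (hv h), rfl⟩
      | (have := hy3 h; simp at this; done)
      | (have := hm3 h; simp at this; done)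
      | (have := hy3 h; simp only [Prod.mk.injEq, Option.some.injEq, and_true] at this
         first
           | exact ⟨hσ1 this, rfl⟩
           | exact ⟨hσ1 this.1, by rw [this.2]⟩)
      | (have := hm3 h; simp only [Prod.mk.injEq, Sum.inl.injEq, Sum.inr.injEq] at this
         first
           | exact ⟨this.1, by rw [this.2.1, this.2.2]⟩
           | exact ⟨this.1, by rw [this.2]⟩)

end Pool.Agent.TH476
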