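import Pool.Agent.TH476.ECaseA5
import Pool.Agent.TH476.ECaseB

set_option autoImplicit false

open Classical

namespace Pool.Agent.TH476

attribute [local irreducible] RW

/-- the vertices of the branch b, with x -/
noncomputable def BrW {g : ℕ} (k e : ℕ) (b : Fin g) : Finset (TW g k e) :=
  {TW.x, TW.y b} ∪ ((Finset.univ : Finset (Fin k)).image (fun j => TW.m b j) ∪
    (Finset.univ : Finset (Fin k)).image (fun j => TW.r b j))

lemma BrW_card {g : ℕ} (k e : ℕ) (b : Fin g) : (BrW k e b).card = 2 + 2 * k := by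
  unfold BrW
  rw [Finset.card_union_of_disjoint, Finset.card_union_of_disjoint, Finset.card_pair (by simp),
    Finset.card_image_of_injective, Finset.card_image_of_injective, Finset.card_univ,
    Fintype.card_fin]
  · ring
  · intro a c h
    simpa using h
  · intro a c h
    simpa using h
  · rw [Finset.disjoint_left]
    intro v h1 h2
    obtain ⟨p, _, rfl⟩ := Finset.mem_image.mp h1
    obtain ⟨p', _, h⟩ := Finset.mem_image.mp h2
    simp at h
  · rw [Finset.disjoint_left]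
    intro v h1 h2
    simp only [Finset.mem_insert, Finset.mem_singleton] at h1
    simp only [Finset.mem_union, Finset.mem_image, Finset.mem_univ, true_and] at h2
    rcases h1 with rfl | rfl <;> rcases h2 with ⟨j, h2⟩ | ⟨j, h2⟩ <;> simp at h2

/-- case A from rich embeddings -/
lemma useAW {V : Type} [Fintype V] {g k e : ℕ} (G : SimpleGraph V) (D K Q L L' : ℕ) (hD : 0 < D)
    (hG : AR G D K) (hL : L' ≤ L) (Y : Finset (TW g k e)) (b : Fin g) (hx : TW.x ∈ Y)
    (hr : ∀ j, TW.r b j ∈ Y) (hy : TW.y b ∉ Y) (hm : ∀ j, TW.m b j ∉ Y)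
    (n : ℕ) (hn : Fintype.card (TW g k e) = n + (2 + 2 * k))
    (h : Fintype.card V * D ^ (n + (1 + 2 * k)) ≤ Q * (Finset.univ.filter
      (fun φ : TW g k e → V => Emb (WG g k e) G φ ∧
        Rich {φ | Emb (WG g k e) G φ} L Y φ)).card) :
    Fintype.card V * D ^ (1 + 2 * k) ≤
      (Q * K ^ n) * ∑ w : V, ∑ x ∈ nb G w, (Ld G k L' w x).card := by
  obtain ⟨𝓢, h𝓢⟩ : ∃ 𝓢, 𝓢 = Finset.univ.filter (fun φ : TW g k e → V =>
      Emb (WG g k e) G φ ∧ Rich {φ | Emb (WG g k e) G φ} L Y φ) := ⟨_, rfl⟩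
  rw [← h𝓢] at h
  have hS1 : ∀ φ ∈ 𝓢, Emb (WG g k e) G φ ∧ Rich {φ | Emb (WG g k e) G φ} L Y φ := fun φ hφ => by
    rw [h𝓢] at hφ
    exact (Finset.mem_filter.mp hφ).2
  let res : (TW g k e → V) → V × V × (Fin k → V × V) := fun φ =>
    (φ (.y b), φ .x, fun j => (φ (.m b j), φ (.r b j)))
  have h1 := proj_le (WG g k e) (WG_conn g k e) G D K hG (BrW k e b) ⟨TW.x, by simp [BrW]⟩ 𝓢
    (fun φ hφ => (hS1 φ hφ).1.1) res (by
      intro φ _ ψ _ he z hz
      simp only [res, Prod.mk.injEq] at he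
      unfold BrW at hz
      simp only [Finset.mem_union, Finset.mem_insert, Finset.mem_singleton, Finset.mem_image,
        Finset.mem_univ, true_and] at hz
      rcases hz with (rfl | rfl) | ⟨j, rfl⟩ | ⟨j, rfl⟩
      · exact he.2.1
      · exact he.1
      · exact (Prod.mk.inj (congrFun he.2.2 j)).1
      · exact (Prod.mk.inj (congrFun he.2.2 j)).2)
  have hc : (BrW k e b)ᶜ.card = n := by
    rw [Finset.card_compl, hn, BrW_card]
    omega
  rw [hc] at h1
  replace h1 : 𝓢.card ≤ (K * D) ^ n * (𝓢.image res).card :=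
    h1.trans (Nat.mul_le_mul_left _ (image_inst _ _ res 𝓢).le)
  have e1 : ∀ φ : TW g k e → V, Emb (WG g k e) G φ → G.Adj (φ .x) (φ (.y b)) := fun φ h =>
    h.1 _ _ (wadj_par (TW.y b) (by simp))
  have e2 : ∀ φ : TW g k e → V, Emb (WG g k e) G φ → ∀ j, G.Adj (φ (.y b)) (φ (.m b j)) :=
    fun φ h j => h.1 _ _ (wadj_par (TW.m b j) (by simp))
  have e3 : ∀ φ : TW g k e → V, Emb (WG g k e) G φ → ∀ j, G.Adj (φ (.m b j)) (φ (.r b j)) :=
    fun φ h j => h.1 _ _ (wadj_par (TW.r b j) (by simp))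
  have h2 : (𝓢.image res).card ≤ ∑ w : V, ∑ x ∈ nb G w, (Ld G k L' w x).card := by
    have hsub : 𝓢.image res ⊆ (Finset.univ : Finset V).biUnion (fun w => (nb G w).biUnion (fun x =>
        (Ld G k L' w x).image (fun l => (w, x, l)))) := by
      intro z hz
      obtain ⟨φ, hφ, rfl⟩ := Finset.mem_image.mp hz
      obtain ⟨h3, h4⟩ := hS1 φ hφ
      refine Finset.mem_biUnion.mpr ⟨φ (.y b), Finset.mem_univ _, Finset.mem_biUnion.mpr
        ⟨φ .x, (mem_nb _ _ _).mpr (e1 φ h3).symm, Finset.mem_image.mpr ⟨_, ?_, rfl⟩⟩⟩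
      unfold Ld
      rw [Finset.mem_filter, Fintype.mem_piFinset]
      refine ⟨fun j => ?_, ?_⟩
      · unfold Lg
        exact Finset.mem_filter.mpr ⟨Finset.mem_univ _, e2 φ h3 j, e3 φ h3 j⟩
      · obtain ⟨F, h6, h7, h8⟩ := h4.mono hL
        refine ⟨fun i => F i (.y b), fun i j => F i (.m b j), ?_, ?_, ?_, ?_, ?_⟩
        · intro i
          rw [← h7 i _ hx]
          exact e1 _ (h6 i)
        · exact fun i j => e2 _ (h6 i) j
        · intro i j
          show G.Adj (F i (.m b j)) (φ (.r b j))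
          rw [← h7 i _ (hr j)]
          exact e3 _ (h6 i) j
        · intro i j j' hjj
          have := (h6 i).2 hjj
          simpa using this
        · intro i i' hii
          exact ⟨h8 i i' hii _ hy _ hy, fun j => h8 i i' hii _ hy _ (hm j),
            fun j j' => h8 i i' hii _ (hm j) _ (hm j')⟩
    refine (Finset.card_le_card hsub).trans (Finset.card_biUnion_le.trans ?_)
    refine Finset.sum_le_sum fun w _ => Finset.card_biUnion_le.trans ?_
    exact Finset.sum_le_sum fun x _ => Finset.card_image_le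
  have hpos : 0 < D ^ n := by positivity
  refine Nat.le_of_mul_le_mul_right ?_ hpos
  calc Fintype.card V * D ^ (1 + 2 * k) * D ^ n = Fintype.card V * D ^ (n + (1 + 2 * k)) := by
        rw [pow_add]; ring
    _ ≤ Q * 𝓢.card := h
    _ ≤ Q * ((K * D) ^ n * (𝓢.image res).card) := Nat.mul_le_mul_left _ h1
    _ ≤ Q * ((K * D) ^ n * (∑ w : V, ∑ x ∈ nb G w, (Ld G k L' w x).card)) :=
        Nat.mul_le_mul_left _ (Nat.mul_le_mul_left _ h2)
    _ = _ := by rw [mul_pow]; ring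

/-- many light embeddings -/
lemma light_ge {V : Type} [Fintype V] {g k e : ℕ} (G : SimpleGraph V) (D K L1 Qc n : ℕ)
    (hG : AR G D K) (hn : Fintype.card (TW g k e) = n + 3)
    (hD : 2 * (n + 3) ^ 2 * K ^ (n + 1) ≤ D) (hQ : 4 * (n + 3) ^ 3 * K ^ n ≤ Qc)
    (hRC : Qc * RC G L1 ≤ Fintype.card V * D ^ 2) :
    Fintype.card V * D ^ (n + 2) ≤ 4 * (Finset.univ.filter (fun φ : TW g k e → V =>
      Emb (WG g k e) G φ ∧ Lt (WG g k e) G L1 φ)).card := by
  have h1 := emb_ge parW (TW.x : TW g k e) dptW dpt_parW G D K hG (by omega) (by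
    rw [hn, show n + 3 - 2 = n + 1 by omega]
    exact hD)
  rw [hn, show n + 3 - 1 = n + 2 by omega] at h1
  have h2 := nonlight_le (WG g k e) (WG_conn g k e) G D K L1 n hG hn
  obtain ⟨A, hA⟩ : ∃ A, A = Finset.univ.filter (fun φ : TW g k e → V =>
    Emb (PT parW TW.x) G φ) := ⟨_, rfl⟩
  obtain ⟨B, hB⟩ : ∃ B, B = Finset.univ.filter (fun φ : TW g k e → V =>
    Hom (WG g k e) G φ ∧ ¬ Lt (WG g k e) G L1 φ) := ⟨_, rfl⟩
  obtain ⟨C, hC⟩ : ∃ C, C = Finset.univ.filter (fun φ : TW g k e → V =>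
      Emb (WG g k e) G φ ∧ Lt (WG g k e) G L1 φ) := ⟨_, rfl⟩
  rw [← hA] at h1
  rw [← hB] at h2
  rw [← hC]
  have h3 : A ⊆ C ∪ B := by
    intro φ hφ
    rw [hA] at hφ
    have h4 : Emb (WG g k e) G φ := (Finset.mem_filter.mp hφ).2
    rw [Finset.mem_union, hB, hC]
    by_cases h5 : Lt (WG g k e) G L1 φ
    · exact Or.inl (Finset.mem_filter.mpr ⟨Finset.mem_univ _, h4, h5⟩)
    · exact Or.inr (Finset.mem_filter.mpr ⟨Finset.mem_univ _, h4.1, h5⟩)
  have h4 := (Finset.card_le_card h3).trans (Finset.card_union_le _ _)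
  have h5 : 4 * B.card ≤ Fintype.card V * D ^ (n + 2) := by
    calc 4 * B.card ≤ 4 * ((n + 3) ^ 3 * ((K * D) ^ n * RC G L1)) := Nat.mul_le_mul_left _ h2
      _ = 4 * (n + 3) ^ 3 * K ^ n * RC G L1 * D ^ n := by rw [mul_pow]; ring
      _ ≤ Qc * RC G L1 * D ^ n := Nat.mul_le_mul_right _ (Nat.mul_le_mul_right _ hQ)
      _ ≤ Fintype.card V * D ^ 2 * D ^ n := Nat.mul_le_mul_right _ hRC
      _ = _ := by rw [mul_assoc, ← pow_add, add_comm 2 n]
  omega

/-- the core theorem for the extended trees -/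
theorem coreW (K g k e t : ℕ) (hK : 0 < K) (hg : 0 < g) (hk : 0 < k) (ht : 0 < t) :
    ∃ C : ℕ, ∀ (V : Type) [Fintype V] [Nonempty V] (G : SimpleGraph V) (D : ℕ), AR G D K →
    C ≤ D → C * Fintype.card V ^ (2 + g * k + e) ≤
      Fintype.card V * D ^ (3 + g + 2 * (g * k) + 2 * e) →
    C * Fintype.card V ^ (1 + e) ≤ D ^ (3 + 2 * e) →
    BUP (WG g k e) (RW g k e) t G := by
  have hgk : 0 < g * k := Nat.mul_pos hg hk
  obtain ⟨N, hN⟩ : ∃ N, N = 4 + g + 2 * (g * k) + 2 * e := ⟨_, rfl⟩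
  have hkle : k ≤ g * k := Nat.le_mul_of_pos_left k hg
  obtain ⟨Q0, hQ0⟩ : ∃ Q0, Q0 = 8 * 2 ^ N := ⟨_, rfl⟩
  have hQ0pos : 0 < Q0 := by rw [hQ0]; positivity
  obtain ⟨QB, hQB, hA⟩ := caseAW (Q0 * K ^ (N - (2 + 2 * k))) K g k e t (by positivity) hK hg hk ht
  obtain ⟨Qc, hQc⟩ : ∃ Qc, Qc = 4 * (N - 3 + 3) ^ 3 * K ^ (N - 3) + QB := ⟨_, rfl⟩
  obtain ⟨L1, D1, hC⟩ := caseCW Qc K g k e t (by omega) hK hgk ht
  obtain ⟨L2, C2, hA'⟩ := hA L1
  obtain ⟨L3, D3, hB⟩ := caseBW Q0 K g k e t hK ht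
  obtain ⟨L, hL⟩ : ∃ L, L = L1 + L2 + L3 + t := ⟨_, rfl⟩
  obtain ⟨kk, hkk⟩ : ∃ kk, kk = kc L (RW g k e)ᶜ.card := ⟨_, rfl⟩
  refine ⟨4 * (2 * kk + 1) + D1 + C2 + D3 + 2 * (N - 3 + 3) ^ 2 * K ^ (N - 3 + 1) + 1, ?_⟩
  intro V _ _ G D hG hD hcount hcount2
  have hD0 : 0 < D := by omega
  have hcN : Fintype.card (TW g k e) = N := by rw [card_TW, hN]
  have hVpos : 0 < Fintype.card V := Fintype.card_pos
  by_cases hRC : Fintype.card V * D ^ 2 ≤ Qc * RC G L1
  · exact hC V G D hG (by omega) hRC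
  push Not at hRC
  have hlight := light_ge (g := g) (k := k) (e := e) G D K L1 Qc (N - 3) hG
    (by rw [hcN]; omega) (by omega) (by omega) hRC.le
  rw [show N - 3 + 2 = 3 + g + 2 * (g * k) + 2 * e by omega] at hlight
  obtain ⟨𝓕, h𝓕⟩ : ∃ 𝓕, 𝓕 = Finset.univ.filter (fun φ : TW g k e → V =>
      Emb (WG g k e) G φ ∧ Lt (WG g k e) G L1 φ) := ⟨_, rfl⟩
  rw [← h𝓕] at hlight
  have hmem : ∀ φ ∈ 𝓕, Emb (WG g k e) G φ ∧ Lt (WG g k e) G L1 φ := by
    intro φ hφ
    rw [h𝓕] at hφ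
    exact (Finset.mem_filter.mp hφ).2
  have hXpos : 0 < Fintype.card V * D ^ (3 + g + 2 * (g * k) + 2 * e) := by positivity
  obtain ⟨Y, hY1, hY2, hY3⟩ := kpigeon 𝓕 L (by omega) (RW g k e)
    (Fintype.card V ^ (2 + g * k + e)) (by
      refine (Finset.card_le_univ _).trans ?_
      rw [Fintype.card_fun, Fintype.card_coe, card_RW]) (by
      rw [← hkk]
      refine Nat.lt_of_mul_lt_mul_left (a := 4) ?_
      calc 4 * (2 * kk * Fintype.card V ^ (2 + g * k + e))
          < 4 * (2 * kk * Fintype.card V ^ (2 + g * k + e)) +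
            4 * Fintype.card V ^ (2 + g * k + e) := by
            have : 0 < 4 * Fintype.card V ^ (2 + g * k + e) := by positivity
            omega
        _ = 4 * (2 * kk + 1) * Fintype.card V ^ (2 + g * k + e) := by ring
        _ ≤ _ := Nat.mul_le_mul_right _ (by omega)
        _ ≤ _ := hcount
        _ ≤ _ := hlight)
  obtain ⟨𝓢, h𝓢⟩ : ∃ 𝓢, 𝓢 = 𝓕.filter (fun φ => Rich {φ | φ ∈ 𝓕} L Y φ) := ⟨_, rfl⟩
  rw [← h𝓢, hcN] at hY3
  have hbig : Fintype.card V * D ^ (3 + g + 2 * (g * k) + 2 * e) ≤ Q0 * 𝓢.card := by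
    calc _ ≤ 4 * 𝓕.card := hlight
      _ ≤ 4 * (2 * 2 ^ N * 𝓢.card) := Nat.mul_le_mul_left _ hY3
      _ = _ := by rw [hQ0]; ring
  have hSne : 𝓢.Nonempty := by
    rw [← Finset.card_pos]
    by_contra h0
    have h0' : 𝓢.card = 0 := by omega
    rw [h0', Nat.mul_zero] at hbig
    omega
  have hSm : ∀ φ ∈ 𝓢, φ ∈ 𝓕 ∧ Rich {φ | φ ∈ 𝓕} L Y φ := by
    intro φ hφ
    rw [h𝓢] at hφ
    exact Finset.mem_filter.mp hφ
  have hSE : ∀ φ ∈ 𝓢, Emb (WG g k e) G φ ∧ Rich {φ | Emb (WG g k e) G φ} L Y φ := by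
    intro φ hφ
    obtain ⟨h1, F, h2, h3, h4⟩ := hSm φ hφ
    exact ⟨(hmem φ h1).1, F, fun i => (hmem _ (h2 i)).1, h3, h4⟩
  obtain ⟨φ0, hφ0⟩ := hSne
  -- blowup directly
  by_cases hYR : Y = RW g k e
  · have h1 := (hSE φ0 hφ0).2
    rw [hYR] at h1
    exact ⟨φ0, h1.mono (by omega)⟩
  have hch : ∀ u v w : TW g k e, v ∉ Y → u ∈ Y → w ∈ Y → (WG g k e).Adj u v →
      (WG g k e).Adj v w → u ≠ w → False := fun u v w hv hu hw huv hvw huw =>
    cherryfree (WG g k e) G {φ | φ ∈ 𝓕} L L1 (by omega) (by omega)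
      (fun φ hφ => hmem φ hφ) Y φ0 (hSm φ0 hφ0).2 hv hu hw huv hvw huw
  have hR : ∀ v ∈ RW g k e, v ∈ Y := fun v hv => hY1 hv
  have axy : ∀ b, (WG g k e).Adj TW.x (.y b) := fun b => wadj_par (TW.y b) (by simp)
  have aym : ∀ b j, (WG g k e).Adj (TW.y b) (.m b j) := fun b j => wadj_par (TW.m b j) (by simp)
  have amr : ∀ b j, (WG g k e).Adj (TW.m b j) (.r b j) := fun b j => wadj_par (TW.r b j) (by simp)
  have axf : (WG g k e).Adj TW.x TW.f := wadj_par TW.f (by simp)
  have axz : (WG g k e).Adj TW.x TW.z := wadj_par TW.z (by simp)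
  have azp : (WG g k e).Adj TW.z TW.p := wadj_par TW.p (by simp)
  have azn : ∀ l, (WG g k e).Adj TW.z (.n l) := fun l => wadj_par (TW.n l) (by simp)
  have anu : ∀ l, (WG g k e).Adj (TW.n l) (.u l) := fun l => wadj_par (TW.u l) (by simp)
  have hmy : ∀ b j, TW.y b ∈ Y → TW.m b j ∈ Y := by
    intro b j hy
    by_contra hm
    exact hch (.y b) (.m b j) (.r b j) hm hy (hR _ (w_r b j)) (aym b j) (amr b j) (by simp)
  have hmy' : ∀ b j, TW.x ∈ Y → TW.m b j ∈ Y → TW.y b ∈ Y := by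
    intro b j hx hm
    by_contra hy
    exact hch .x (.y b) (.m b j) hy hx hm (axy b) (aym b j) (by simp)
  have hmm : ∀ b j j', TW.y b ∉ Y → TW.m b j ∈ Y → TW.m b j' ∈ Y → j = j' := by
    intro b j j' hy hm hm'
    by_contra hjj
    exact hch (.m b j) (.y b) (.m b j') hy hm hm' (aym b j).symm (aym b j') (by simpa using hjj)
  by_cases hx : TW.x ∈ Y
  · -- case A
    have hz : TW.z ∈ Y := by
      by_contra hz
      exact hch .x .z .p hz hx (hR _ (w_p g k e)) axz azp (by simp)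
    have hb : ∃ b, TW.y b ∉ Y := by
      by_contra hall
      push Not at hall
      apply hY2
      rw [Finset.eq_univ_iff_forall]
      intro v
      cases v with
      | f => exact hR _ (w_f g k e)
      | p => exact hR _ (w_p g k e)
      | x => exact hx
      | z => exact hz
      | y b => exact hall b
      | m b j => exact hmy b j (hall b)
      | r b j => exact hR _ (w_r b j)
      | n l =>
        by_contra hn
        exact hch .z (.n l) (.u l) hn hz (hR _ (w_u l)) (azn l) (anu l) (by simp)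
      | u l => exact hR _ (w_u l)
    obtain ⟨b, hb⟩ := hb
    have hm : ∀ j, TW.m b j ∉ Y := fun j h => hb (hmy' b j hx h)
    refine hA' V G D hG (by omega) (le_trans (Nat.mul_le_mul_right _ (by omega)) hcount2) ?_ ?_
    · exact le_trans (Nat.mul_le_mul_right _ (by omega)) hRC.le
    · refine useAW G D K Q0 L L2 hD0 hG (by omega) Y b hx (fun j => hR _ (w_r b j)) hb hm
        (N - (2 + 2 * k)) (by rw [hcN]; omega) ?_
      rw [show N - (2 + 2 * k) + (1 + 2 * k) = 3 + g + 2 * (g * k) + 2 * e by omega]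
      refine hbig.trans (Nat.mul_le_mul_left _ (Finset.card_le_card ?_))
      intro φ hφ
      exact Finset.mem_filter.mpr ⟨Finset.mem_univ _, hSE φ hφ⟩
  · -- case B
    have hy : ∀ b, TW.y b ∉ Y := by
      intro b hy
      exact hch .f .x (.y b) hx (hR _ (w_f g k e)) hy axf.symm (axy b) (by simp)
    have hz : TW.z ∉ Y := by
      intro hz
      exact hch .f .x .z hx (hR _ (w_f g k e)) hz axf.symm axz (by simp)
    have hn : ∀ l, TW.n l ∉ Y := by
      intro l hn
      exact hch .p .z (.n l) hz (hR _ (w_p g k e)) hn azp.symm (azn l) (by simp)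
    obtain ⟨Pd, hPd⟩ : ∃ Pd : Finset (Fin g × Fin k), ∀ p, p ∈ Pd ↔ TW.m p.1 p.2 ∈ Y :=
      ⟨Finset.univ.filter (fun p => TW.m p.1 p.2 ∈ Y), fun p => by simp⟩
    have hPne : Pd.Nonempty := by
      by_contra hemp
      rw [Finset.not_nonempty_iff_eq_empty] at hemp
      apply hYR
      refine Finset.Subset.antisymm ?_ hY1
      intro v hv
      cases v with
      | f => exact w_f g k e
      | p => exact w_p g k e
      | x => exact absurd hv hx
      | z => exact absurd hv hz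
      | y b => exact absurd hv (hy b)
      | m b j =>
        exfalso
        have := (hPd (b, j)).mpr hv
        rw [hemp] at this
        exact absurd this (Finset.notMem_empty _)
      | r b j => exact w_r b j
      | n l => exact absurd hv (hn l)
      | u l => exact w_u l
    refine hB V G D hG (by omega) Pd hPne ?_ Y ?_ ?_
    · rintro ⟨b, j⟩ hp ⟨b', j'⟩ hp' h
      simp only at h
      subst h
      rw [hmm b j j' (hy b) ((hPd _).mp hp) ((hPd _).mp hp')]
    · intro v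
      constructor
      · intro hv
        cases v with
        | f => exact Or.inl (w_f g k e)
        | p => exact Or.inl (w_p g k e)
        | x => exact absurd hv hx
        | z => exact absurd hv hz
        | y b => exact absurd hv (hy b)
        | m b j => exact Or.inr ⟨(b, j), (hPd _).mpr hv, rfl⟩
        | r b j => exact Or.inl (w_r b j)
        | n l => exact absurd hv (hn l)
        | u l => exact Or.inl (w_u l)
      · rintro (h | ⟨p, hp, rfl⟩)
        · exact hR v h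
        · exact (hPd p).mp hp
    · refine hbig.trans (Nat.mul_le_mul_left _ (Finset.card_le_card ?_))
      intro φ hφ
      obtain ⟨h3, h4⟩ := hSE φ hφ
      exact Finset.mem_filter.mpr ⟨Finset.mem_univ _, h3, h4.mono (by omega)⟩

end Pool.Agent.TH476
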