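import Pool.Agent.TH476.Core

set_option autoImplicit false

open Classical

namespace Pool.Agent.TH476

section gen

variable {ι V : Type} [Fintype ι]

/-- G contains the t-blowup of (T, R) -/
def BUP (T : SimpleGraph ι) (R : Finset ι) (t : ℕ) (G : SimpleGraph V) : Prop :=
  ∃ φ : ι → V, Rich {φ | Emb T G φ} t R φ

lemma BUP_of (T : SimpleGraph ι) (R : Finset ι) (t : ℕ) (G : SimpleGraph V) (ht : 0 < t)
    (hRR : ∀ u ∈ R, ∀ v ∈ R, ¬ T.Adj u v) (ro : ι → V) (ψ : Fin t → ι → V)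
    (h1 : ∀ i u v, u ∉ R → v ∉ R → T.Adj u v → G.Adj (ψ i u) (ψ i v))
    (h2 : ∀ i u v, u ∉ R → v ∈ R → T.Adj u v → G.Adj (ψ i u) (ro v))
    (h3 : ∀ u ∈ R, ∀ v ∈ R, ro u = ro v → u = v)
    (h4 : ∀ i u v, u ∉ R → v ∈ R → ψ i u ≠ ro v)
    (h5 : ∀ i j u v, u ∉ R → v ∉ R → ψ i u = ψ j v → i = j ∧ u = v) : BUP T R t G := by
  let F : Fin t → ι → V := fun i v => if v ∈ R then ro v else ψ i v
  refine ⟨F ⟨0, ht⟩, F, ?_, ?_, ?_⟩
  · intro i
    refine ⟨?_, ?_⟩
    · intro u v huv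
      by_cases hu : u ∈ R <;> by_cases hv : v ∈ R
      · exact absurd huv (hRR u hu v hv)
      · simp only [F, hu, hv, if_true, if_false]
        exact (h2 i v u hv hu huv.symm).symm
      · simp only [F, hu, hv, if_true, if_false]
        exact h2 i u v hu hv huv
      · simp only [F, hu, hv, if_false]
        exact h1 i u v hu hv huv
    · intro u v huv
      by_cases hu : u ∈ R <;> by_cases hv : v ∈ R
      · simp only [F, hu, hv, if_true] at huv
        exact h3 u hu v hv huv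
      · simp only [F, hu, hv, if_true, if_false] at huv
        exact absurd huv.symm (h4 i v u hv hu)
      · simp only [F, hu, hv, if_true, if_false] at huv
        exact absurd huv (h4 i u v hu hv)
      · simp only [F, hu, hv, if_false] at huv
        exact (h5 i i u v hu hv huv).2
  · intro i u hu
    simp only [F, hu, if_true]
  · intro i j hij u hu v hv h
    simp only [F, hu, hv, if_false] at h
    exact hij (h5 i j u v hu hv h).1

/-- pigeonhole over the kernels -/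
lemma kpigeon (𝓕 : Finset (ι → V)) (L : ℕ) (hL : 0 < L) (R : Finset ι) (ρ0 : ℕ)
    (hρ : (𝓕.image (fun (φ : ι → V) (u : R) => φ u.1)).card ≤ ρ0)
    (h : 2 * kc L Rᶜ.card * ρ0 < 𝓕.card) :
    ∃ Y : Finset ι, R ⊆ Y ∧ Y ≠ Finset.univ ∧
      𝓕.card ≤ 2 * 2 ^ Fintype.card ι * (𝓕.filter (fun φ => Rich {φ | φ ∈ 𝓕} L Y φ)).card := by
  by_contra hcon
  push Not at hcon
  set B := 𝓕.filter (fun φ => ∀ Y : Finset ι, R ⊆ Y → Y ≠ Finset.univ →
    ¬ Rich {φ | φ ∈ 𝓕} L Y φ) with hB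
  have hBc : B.card ≤ kc L (Rᶜ.card) * ρ0 := by
    have h2 : B.card ≤ kc L (Rᶜ.card) * (B.image (fun φ => fun u : R => φ u.1)).card := by
      refine Finset.card_le_mul_card_image B _ fun b hb => ?_
      obtain ⟨ψ, hψ, rfl⟩ := Finset.mem_image.mp hb
      refine kernel {φ | φ ∈ 𝓕} L hL _ R _ ψ rfl ?_ ?_ ?_
      · intro φ hφ
        exact (Finset.mem_filter.mp (Finset.mem_filter.mp hφ).1).1
      · intro φ hφ u hu
        exact congrFun (Finset.mem_filter.mp hφ).2 ⟨u, hu⟩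
      · intro φ hφ
        exact (Finset.mem_filter.mp (Finset.mem_filter.mp hφ).1).2
    refine h2.trans (Nat.mul_le_mul_left _ (le_trans ?_ hρ))
    exact Finset.card_le_card (Finset.image_subset_image (Finset.filter_subset _ _))
  have hcov : 𝓕 ⊆ B ∪ ((Finset.univ : Finset (Finset ι)).filter
      (fun Y => R ⊆ Y ∧ Y ≠ Finset.univ)).biUnion (fun Y =>
        𝓕.filter (fun φ => Rich {φ | φ ∈ 𝓕} L Y φ)) := by
    intro φ hφ
    rw [Finset.mem_union]
    by_cases h : φ ∈ B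
    · exact Or.inl h
    · right
      rw [hB, Finset.mem_filter] at h
      push Not at h
      obtain ⟨Y, hY1, hY2, hY3⟩ := h hφ
      exact Finset.mem_biUnion.mpr ⟨Y, Finset.mem_filter.mpr ⟨Finset.mem_univ _, hY1, hY2⟩,
        Finset.mem_filter.mpr ⟨hφ, hY3⟩⟩
  have h5 := (Finset.card_le_card hcov).trans (Finset.card_union_le _ _)
  have h6 : 2 * (2 ^ Fintype.card ι) * (((Finset.univ : Finset (Finset ι)).filter
      (fun Y => R ⊆ Y ∧ Y ≠ Finset.univ)).biUnion (fun Y =>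
        𝓕.filter (fun φ => Rich {φ | φ ∈ 𝓕} L Y φ))).card ≤
          2 ^ Fintype.card ι * (𝓕.card - 1) := by
    calc _ ≤ 2 * (2 ^ Fintype.card ι) * ∑ Y ∈ ((Finset.univ : Finset (Finset ι)).filter
      (fun Y => R ⊆ Y ∧ Y ≠ Finset.univ)), (𝓕.filter (fun φ => Rich {φ | φ ∈ 𝓕} L Y φ)).card :=
          Nat.mul_le_mul_left _ Finset.card_biUnion_le
      _ = ∑ Y ∈ ((Finset.univ : Finset (Finset ι)).filter
      (fun Y => R ⊆ Y ∧ Y ≠ Finset.univ)), 2 * (2 ^ Fintype.card ι) *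
        (𝓕.filter (fun φ => Rich {φ | φ ∈ 𝓕} L Y φ)).card := Finset.mul_sum _ _ _
      _ ≤ ∑ Y ∈ ((Finset.univ : Finset (Finset ι)).filter
      (fun Y => R ⊆ Y ∧ Y ≠ Finset.univ)), (𝓕.card - 1) := by
          refine Finset.sum_le_sum fun Y hY => ?_
          obtain ⟨_, h7, h8⟩ := Finset.mem_filter.mp hY
          have := hcon Y h7 h8
          omega
      _ = ((Finset.univ : Finset (Finset ι)).filter
      (fun Y => R ⊆ Y ∧ Y ≠ Finset.univ)).card * (𝓕.card - 1) := by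
          rw [Finset.sum_const, smul_eq_mul]
      _ ≤ 2 ^ Fintype.card ι * (𝓕.card - 1) := by
          refine Nat.mul_le_mul_right _ ?_
          refine (Finset.card_le_univ _).trans ?_
          rw [Fintype.card_finset]
  have h7 : 2 * (((Finset.univ : Finset (Finset ι)).filter
      (fun Y => R ⊆ Y ∧ Y ≠ Finset.univ)).biUnion (fun Y =>
        𝓕.filter (fun φ => Rich {φ | φ ∈ 𝓕} L Y φ))).card ≤ 𝓕.card - 1 := by
    have hpos : 0 < 2 ^ Fintype.card ι := by positivity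
    refine Nat.le_of_mul_le_mul_left ?_ hpos
    calc _ = _ := by ring
      _ ≤ _ := h6
  have h8 : 2 * B.card ≤ 2 * kc L Rᶜ.card * ρ0 := by
    calc 2 * B.card ≤ 2 * (kc L (Rᶜ.card) * ρ0) := Nat.mul_le_mul_left _ hBc
      _ = _ := by ring
  omega

/-- all cherries of the copy have small codegree -/
def Lt [Fintype V] (T : SimpleGraph ι) (G : SimpleGraph V) (L : ℕ) (φ : ι → V) : Prop :=
  ∀ u v w, T.Adj u v → T.Adj v w → u ≠ w → ¬ Cd G L (φ u) (φ w)

/-- number of rich cherries -/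
noncomputable def RC [Fintype V] (G : SimpleGraph V) (L : ℕ) : ℕ :=
  (Finset.univ.filter (fun z : V × V × V =>
      G.Adj z.2.1 z.1 ∧ G.Adj z.2.1 z.2.2 ∧ Cd G L z.1 z.2.2)).card

lemma nonlight_le [Fintype V] (T : SimpleGraph ι) (hT : T.Connected) (G : SimpleGraph V)
    (D K L n : ℕ) (hG : AR G D K) (hn : Fintype.card ι = n + 3) :
    (Finset.univ.filter (fun φ : ι → V => Hom T G φ ∧ ¬ Lt T G L φ)).card ≤
      (n + 3) ^ 3 * ((K * D) ^ n * RC G L) := by
  have hsub : (Finset.univ.filter (fun φ : ι → V => Hom T G φ ∧ ¬ Lt T G L φ)) ⊆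
      ((Finset.univ : Finset (ι × ι × ι)).filter (fun e => e.1 ≠ e.2.2 ∧ T.Adj e.1 e.2.1 ∧
        T.Adj e.2.1 e.2.2)).biUnion (fun e => Finset.univ.filter (fun φ : ι → V => Hom T G φ ∧
          Cd G L (φ e.1) (φ e.2.2))) := by
    intro φ hφ
    obtain ⟨_, h1, h2⟩ := Finset.mem_filter.mp hφ
    unfold Lt at h2
    push Not at h2
    obtain ⟨u, v, w, h3, h4, h5, h6⟩ := h2
    exact Finset.mem_biUnion.mpr ⟨(u, v, w), Finset.mem_filter.mpr ⟨Finset.mem_univ _, h5, h3, h4⟩,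
      Finset.mem_filter.mpr ⟨Finset.mem_univ _, h1, h6⟩⟩
  refine (Finset.card_le_card hsub).trans ?_
  refine (Finset.card_biUnion_le_card_mul _ _ ((K * D) ^ n * RC G L) ?_).trans ?_
  · rintro ⟨u, v, w⟩ he
    obtain ⟨_, huw, huv, hvw⟩ := Finset.mem_filter.mp he
    simp only at huw huv hvw
    obtain ⟨𝓢, h𝓢⟩ : ∃ 𝓢, 𝓢 = Finset.univ.filter (fun φ : ι → V => Hom T G φ ∧
          Cd G L (φ u) (φ w)) := ⟨_, rfl⟩
    have hS1 : ∀ φ ∈ 𝓢, Hom T G φ ∧ Cd G L (φ u) (φ w) := fun φ hφ => by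
      rw [h𝓢] at hφ
      exact (Finset.mem_filter.mp hφ).2
    have h1 := proj_le T hT G D K hG {u, v, w} ⟨u, by simp⟩ 𝓢
      (fun φ hφ => (hS1 φ hφ).1) (fun φ => (φ u, φ v, φ w)) (by
        intro φ _ ψ _ he z hz
        simp only [Prod.mk.injEq] at he
        simp only [Finset.mem_insert, Finset.mem_singleton] at hz
        rcases hz with rfl | rfl | rfl
        · exact he.1
        · exact he.2.1
        · exact he.2.2)
    have huv' : u ≠ v := huv.ne
    have hwv' : v ≠ w := hvw.ne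
    have hc : ({u, v, w} : Finset ι)ᶜ.card = n := by
      rw [Finset.card_compl, hn, Finset.card_insert_of_notMem (by simp [huv', huw]),
        Finset.card_pair hwv']
      omega
    rw [hc] at h1
    replace h1 : 𝓢.card ≤ (K * D) ^ n * (𝓢.image (fun φ => (φ u, φ v, φ w))).card :=
      h1.trans (Nat.mul_le_mul_left _ (image_inst _ _ _ 𝓢).le)
    rw [← h𝓢]
    refine h1.trans (Nat.mul_le_mul_left _ ?_)
    unfold RC
    refine Finset.card_le_card ?_
    intro z hz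
    obtain ⟨φ, hφ, rfl⟩ := Finset.mem_image.mp hz
    obtain ⟨h3, h4⟩ := hS1 φ hφ
    exact Finset.mem_filter.mpr ⟨Finset.mem_univ _, (h3 _ _ huv).symm, h3 _ _ hvw, h4⟩
  · refine Nat.mul_le_mul_right _ ((Finset.card_le_univ _).trans ?_)
    rw [Fintype.card_prod, Fintype.card_prod, hn]
    exact le_of_eq (by ring)

/-- light rich copies have no vertex outside Y with two neighbours in Y -/
lemma cherryfree [Fintype V] (T : SimpleGraph ι) (G : SimpleGraph V) (𝓕 : Set (ι → V)) (L L1 : ℕ)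
    (hL : 0 < L) (hL1 : L1 ≤ L) (h𝓕 : ∀ φ ∈ 𝓕, Emb T G φ ∧ Lt T G L1 φ) (Y : Finset ι)
    (φ : ι → V) (h : Rich 𝓕 L Y φ) {u v w : ι} (hv : v ∉ Y)
    (hu : u ∈ Y) (hw : w ∈ Y) (huv : T.Adj u v) (hvw : T.Adj v w) (huw : u ≠ w) : False := by
  have h1 : Rich {φ | Emb T G φ} L Y φ := by
    obtain ⟨F, h2, h3, h4⟩ := h
    exact ⟨F, fun i => (h𝓕 _ (h2 i)).1, h3, h4⟩
  have h2 := cd_of_rich (h1.mono hL1) hv hu hw huv hvw
  obtain ⟨F, h3, h4, _⟩ := h
  have h5 := (h𝓕 _ (h3 ⟨0, hL⟩)).2 u v w huv hvw huw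
  rw [h4 _ u hu, h4 _ w hw] at h5
  exact h5 h2

end gen

end Pool.Agent.TH476
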