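import Pool.Agent.TH476.EUp

set_option autoImplicit false

open Classical

namespace Pool.Agent.TH476

open Pool.Agent.W979.TE Pool.Agent.W979.TE4 Pool.Agent.W979.TE5

attribute [local irreducible] RW

lemma ind_le (k : ℕ) (P : Fin k → Prop) : (∑ j : Fin k, if P j then 1 else 0) ≤ k := by
  calc _ ≤ ∑ _j : Fin k, 1 := Finset.sum_le_sum fun j _ => by split <;> omega
    _ = k := by simp

lemma balancedW (g k e : ℕ) (hg : 0 < g) (hk : e < k) (S : Set (TW g k e))
    (hS : S ⊆ (RW g k e : Set (TW g k e))ᶜ) :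
    (3 + g + 2 * (g * k) + 2 * e) * S.ncard ≤ (2 + g + g * k + e) * eS (WG g k e) S := by
  have hf : TW.f ∉ S := fun h => hS h (w_f g k e)
  have hp : TW.p ∉ S := fun h => hS h (w_p g k e)
  have hr : ∀ b j, TW.r b j ∉ S := fun b j h => hS h (w_r b j)
  have hu : ∀ l, TW.u l ∉ S := fun l h => hS h (w_u l)
  have hSc : S.ncard = (Finset.univ.filter (fun v => v ∈ S)).card := by
    rw [← Set.ncard_coe_finset]
    congr 1
    ext v
    simp
  rw [hSc, eS_WG, card_filter_TW, card_filter_TW]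
  simp only [hf, hp, hr, hu, parW]
  simp only [ne_eq, reduceCtorEq, not_false_eq_true, not_true_eq_false, false_or, true_and,
    false_and, if_false, add_zero, zero_add]
  obtain ⟨β, hβ⟩ : ∃ β, β = 3 + g + 2 * (g * k) + 2 * e := ⟨_, rfl⟩
  obtain ⟨a, ha⟩ : ∃ a, a = 2 + g + g * k + e := ⟨_, rfl⟩
  rw [← hβ, ← ha]
  have hβa : β + (1 + g) = 2 * a := by rw [hβ, ha]; ring
  have hka : k ≤ g * k := Nat.le_mul_of_pos_left k hg
  have hab : a ≤ β := by rw [hβ, ha]; omega
  -- full branches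
  have full1 : ∀ M, M ≤ k → β * (1 + M) + k ≤ a * (k + M) + a + 1 + e := by
    intro M hM
    obtain ⟨c, hc⟩ : ∃ c, k = M + c := ⟨k - M, by omega⟩
    have h1 : β * (1 + k) + k = a * (1 + 2 * k) + 1 + e := by
      rw [hβ, ha]; ring
    have h2 : a * c ≤ β * c := Nat.mul_le_mul_right _ hab
    have h3 : β * (1 + k) = β * (1 + M) + β * c := by rw [hc]; ring
    have h4 : a * (1 + 2 * k) = a * (k + M) + a + a * c := by
      nth_rewrite 1 [hc]
      rw [show a * (1 + 2 * (M + c)) = a * ((M + c) + M) + a + a * c by ring, ← hc]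
    omega
  have full2 : ∀ Nn, Nn ≤ e → β * (1 + Nn) + g * e ≤ a * (1 + e + Nn) + 1 + g * k := by
    intro M hM
    obtain ⟨c, hc⟩ : ∃ c, e = M + c := ⟨e - M, by omega⟩
    have h1 : β * (1 + e) + g * e = a * (1 + 2 * e) + 1 + g * k := by
      rw [hβ, ha]; ring
    have h2 : a * c ≤ β * c := Nat.mul_le_mul_right _ hab
    have h3 : β * (1 + e) = β * (1 + M) + β * c := by
      nth_rewrite 1 [hc]
      ring
    have h4 : a * (1 + 2 * e) = a * (1 + e + M) + a * c := by
      nth_rewrite 1 [hc]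
      rw [show a * (1 + 2 * (M + c)) = a * (1 + (M + c) + M) + a * c by ring, ← hc]
    omega
  have hge : g * (e + 1) ≤ g * k := Nat.mul_le_mul_left _ (by omega)
  have hge' : g * (e + 1) = g * e + g := by ring
  by_cases hx : TW.x ∈ S
  · simp only [hx, if_true, or_true, Finset.sum_const_zero, add_zero]
    have key : ∀ b : Fin g, β *
        ((if TW.y b ∈ S then 1 else 0) + (∑ j : Fin k, if TW.m b j ∈ S then 1 else 0)) + k ≤
        a * ((∑ j : Fin k, if TW.m b j ∈ S ∨ TW.y b ∈ S then 1 else 0) +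
          ∑ j : Fin k, if TW.m b j ∈ S then 1 else 0) + (a + 1 + e) := by
      intro b
      have hM := ind_le k (fun j => TW.m b j ∈ S)
      by_cases hy : TW.y b ∈ S
      · simp only [hy, or_true, if_true, Finset.sum_const, Finset.card_univ, Fintype.card_fin,
          smul_eq_mul, mul_one]
        have := full1 _ hM
        omega
      · simp only [hy, or_false, if_false, zero_add]
        obtain ⟨M, hMdef⟩ : ∃ M, M = ∑ j : Fin k, if TW.m b j ∈ S then 1 else 0 := ⟨_, rfl⟩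
        rw [← hMdef]
        have h1 : β * M ≤ a * (M + M) := by
          calc β * M ≤ (2 * a) * M := Nat.mul_le_mul_right _ (by omega)
            _ = _ := by ring
        omega
    have keyz : β * ((if TW.z ∈ S then 1 else 0) + (∑ l : Fin e, if TW.n l ∈ S then 1 else 0)) +
        g * e ≤ a * ((if TW.z ∈ S then 1 else 0) +
          ((∑ l : Fin e, if TW.n l ∈ S ∨ TW.z ∈ S then 1 else 0) +
          ∑ l : Fin e, if TW.n l ∈ S then 1 else 0)) + (1 + g * k) := by
      have hM := ind_le e (fun l => TW.n l ∈ S)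
      by_cases hz : TW.z ∈ S
      · simp only [hz, or_true, if_true, Finset.sum_const, Finset.card_univ, Fintype.card_fin,
          smul_eq_mul, mul_one]
        have := full2 _ hM
        rw [add_assoc 1 e] at this
        omega
      · simp only [hz, or_false, if_false, zero_add]
        obtain ⟨M, hMdef⟩ : ∃ M, M = ∑ l : Fin e, if TW.n l ∈ S then 1 else 0 := ⟨_, rfl⟩
        rw [← hMdef]
        have h1 : β * M ≤ a * (M + M) := by
          calc β * M ≤ (2 * a) * M := Nat.mul_le_mul_right _ (by omega)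
            _ = _ := by ring
        omega
    have hsum := Finset.sum_le_sum fun b (_ : b ∈ (Finset.univ : Finset (Fin g))) => key b
    rw [Finset.sum_add_distrib, ← Finset.mul_sum, Finset.sum_add_distrib (g := fun _ => a + 1 + e),
      ← Finset.mul_sum, Finset.sum_const, Finset.sum_const, Finset.card_univ, Fintype.card_fin,
      smul_eq_mul, smul_eq_mul] at hsum
    have e1 : ∑ b : Fin g, (1 + (∑ j : Fin k, if TW.m b j ∈ S ∨ TW.y b ∈ S then 1 else 0) +
        ∑ j : Fin k, if TW.m b j ∈ S then 1 else 0) = g + ∑ b : Fin g,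
          ((∑ j : Fin k, if TW.m b j ∈ S ∨ TW.y b ∈ S then 1 else 0) +
        ∑ j : Fin k, if TW.m b j ∈ S then 1 else 0) := by
      rw [← Finset.sum_congr rfl (fun b _ => (add_assoc _ _ _).symm), Finset.sum_add_distrib]
      simp
    rw [e1, Finset.sum_add_distrib (s := (Finset.univ : Finset (Fin e)))]
    obtain ⟨A, hA⟩ : ∃ A, A = ∑ b : Fin g, ((if TW.y b ∈ S then 1 else 0) +
      (∑ j : Fin k, if TW.m b j ∈ S then 1 else 0)) := ⟨_, rfl⟩
    obtain ⟨B, hB⟩ : ∃ B, B = ∑ b : Fin g, ((∑ j : Fin k, if TW.m b j ∈ S ∨ TW.y b ∈ S then 1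
        else 0) + ∑ j : Fin k, if TW.m b j ∈ S then 1 else 0) := ⟨_, rfl⟩
    rw [← hA, ← hB] at hsum
    rw [← hA, ← hB]
    obtain ⟨Z, hZ⟩ : ∃ Z, Z = if TW.z ∈ S then 1 else 0 := ⟨_, rfl⟩
    obtain ⟨Nn, hNn⟩ : ∃ Nn, Nn = ∑ l : Fin e, if TW.n l ∈ S then 1 else 0 := ⟨_, rfl⟩
    obtain ⟨N', hN'⟩ : ∃ N', N' = ∑ l : Fin e, if TW.n l ∈ S ∨ TW.z ∈ S then 1 else 0 := ⟨_, rfl⟩
    rw [← hZ, ← hNn, ← hN'] at keyz
    rw [← hZ, ← hNn, ← hN']
    have e2 : a * (1 + Z + 1 + (g + B) + (N' + Nn)) =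
        2 * a + g * a + a * B + a * (Z + (N' + Nn)) := by ring
    have e3 : β * (1 + Z + A + Nn) = β + β * (Z + Nn) + β * A := by ring
    have e4 : g * (a + 1 + e) = g * a + g + g * e := by ring
    rw [e2, e3]
    omega
  · simp only [hx, if_false, or_false, zero_add, Finset.sum_const_zero, add_zero]
    have key : ∀ b : Fin g, β *
        ((if TW.y b ∈ S then 1 else 0) + (∑ j : Fin k, if TW.m b j ∈ S then 1 else 0)) ≤
        a * ((if TW.y b ∈ S then 1 else 0) +
          (∑ j : Fin k, if TW.m b j ∈ S ∨ TW.y b ∈ S then 1 else 0) +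
          ∑ j : Fin k, if TW.m b j ∈ S then 1 else 0) := by
      intro b
      have hM := ind_le k (fun j => TW.m b j ∈ S)
      by_cases hy : TW.y b ∈ S
      · simp only [hy, or_true, if_true, Finset.sum_const, Finset.card_univ, Fintype.card_fin,
          smul_eq_mul, mul_one]
        obtain ⟨M, hMdef⟩ : ∃ M, M = ∑ j : Fin k, if TW.m b j ∈ S then 1 else 0 := ⟨_, rfl⟩
        rw [← hMdef] at hM ⊢
        have h1 := full1 _ hM
        have h2 : a * (1 + k + M) = a * (k + M) + a := by ring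
        rw [h2]
        omega
      · simp only [hy, or_false, if_false, zero_add]
        obtain ⟨M, hMdef⟩ : ∃ M, M = ∑ j : Fin k, if TW.m b j ∈ S then 1 else 0 := ⟨_, rfl⟩
        rw [← hMdef]
        calc β * M ≤ (2 * a) * M := Nat.mul_le_mul_right _ (by omega)
          _ = _ := by ring
    have keyz : β * ((if TW.z ∈ S then 1 else 0) + (∑ l : Fin e, if TW.n l ∈ S then 1 else 0)) ≤
        a * ((if TW.z ∈ S then 1 else 0) + (if TW.z ∈ S then 1 else 0) +
          ((∑ l : Fin e, if TW.n l ∈ S ∨ TW.z ∈ S then 1 else 0) +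
          ∑ l : Fin e, if TW.n l ∈ S then 1 else 0)) := by
      have hM := ind_le e (fun l => TW.n l ∈ S)
      by_cases hz : TW.z ∈ S
      · simp only [hz, or_true, if_true, Finset.sum_const, Finset.card_univ, Fintype.card_fin,
          smul_eq_mul, mul_one]
        obtain ⟨M, hMdef⟩ : ∃ M, M = ∑ l : Fin e, if TW.n l ∈ S then 1 else 0 := ⟨_, rfl⟩
        rw [← hMdef] at hM ⊢
        calc β * (1 + M) ≤ (2 * a) * (1 + M) := Nat.mul_le_mul_right _ (by omega)
          _ = a * (2 * (1 + M)) := by ring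
          _ ≤ _ := Nat.mul_le_mul_left _ (by omega)
      · simp only [hz, or_false, if_false, zero_add]
        obtain ⟨M, hMdef⟩ : ∃ M, M = ∑ l : Fin e, if TW.n l ∈ S then 1 else 0 := ⟨_, rfl⟩
        rw [← hMdef]
        calc β * M ≤ (2 * a) * M := Nat.mul_le_mul_right _ (by omega)
          _ = _ := by ring
    have hsum := Finset.sum_le_sum fun b (_ : b ∈ (Finset.univ : Finset (Fin g))) => key b
    rw [← Finset.mul_sum, ← Finset.mul_sum] at hsum
    rw [Finset.sum_add_distrib (s := (Finset.univ : Finset (Fin e)))]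
    obtain ⟨A, hA⟩ : ∃ A, A = ∑ b : Fin g, ((if TW.y b ∈ S then 1 else 0) +
      (∑ j : Fin k, if TW.m b j ∈ S then 1 else 0)) := ⟨_, rfl⟩
    obtain ⟨B, hB⟩ : ∃ B, B = ∑ b : Fin g, ((if TW.y b ∈ S then 1 else 0) +
      (∑ j : Fin k, if TW.m b j ∈ S ∨ TW.y b ∈ S then 1 else 0) +
        ∑ j : Fin k, if TW.m b j ∈ S then 1 else 0) := ⟨_, rfl⟩
    rw [← hA, ← hB] at hsum
    rw [← hA, ← hB]
    obtain ⟨Z, hZ⟩ : ∃ Z, Z = if TW.z ∈ S then 1 else 0 := ⟨_, rfl⟩
    obtain ⟨Nn, hNn⟩ : ∃ Nn, Nn = ∑ l : Fin e, if TW.n l ∈ S then 1 else 0 := ⟨_, rfl⟩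
    obtain ⟨N', hN'⟩ : ∃ N', N' = ∑ l : Fin e, if TW.n l ∈ S ∨ TW.z ∈ S then 1 else 0 := ⟨_, rfl⟩
    rw [← hZ, ← hNn, ← hN'] at keyz
    rw [← hZ, ← hNn, ← hN']
    have e2 : a * (Z + Z + B + (N' + Nn)) = a * B + a * (Z + Z + (N' + Nn)) := by ring
    have e3 : β * (Z + A + Nn) = β * (Z + Nn) + β * A := by ring
    rw [e2, e3]
    omega

theorem goodW (g k e : ℕ) (hg : 0 < g) (hk : e < k) :
    Good (2 + g + g * k + e) (3 + g + 2 * (g * k) + 2 * e) := by
  refine ⟨TW g k e, inferInstance, WG g k e, (RW g k e : Set (TW g k e)), colW, admW g k e,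
    ncard_compl_RW g k e, eS_complW g k e, balancedW g k e hg hk, ?_⟩
  intro t ht
  obtain ⟨C, hC⟩ := upperW g k e t hg hk ht
  refine ⟨C, fun n G hG => ?_⟩
  rw [one_div_div]
  exact hC n G (fun h => hG (hasBU_of_rich (WG g k e) (RW g k e) t G h))

end Pool.Agent.TH476
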