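import Pool.Agent.TH476.EGen

set_option autoImplicit false

open Classical

namespace Pool.Agent.TH476

/-- vertices of the extended tree: x with the root f, the branches y b with mids m b j and roots
r b j, and the extra branch z with the root p, the mids n l and the roots u l -/
inductive TW (g k e : ℕ) : Type
  | f : TW g k e
  | p : TW g k e
  | x : TW g k e
  | z : TW g k e
  | y (b : Fin g) : TW g k e
  | m (b : Fin g) (j : Fin k) : TW g k e
  | r (b : Fin g) (j : Fin k) : TW g k e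
  | n (l : Fin e) : TW g k e
  | u (l : Fin e) : TW g k e

/-- TW as a sum -/
def TWe (g k e : ℕ) : TW g k e ≃
    Fin 4 ⊕ Fin g ⊕ (Fin g × Fin k) ⊕ (Fin g × Fin k) ⊕ Fin e ⊕ Fin e where
  toFun
    | .f => Sum.inl 0
    | .p => Sum.inl 1
    | .x => Sum.inl 2
    | .z => Sum.inl 3
    | .y b => Sum.inr (Sum.inl b)
    | .m b j => Sum.inr (Sum.inr (Sum.inl (b, j)))
    | .r b j => Sum.inr (Sum.inr (Sum.inr (Sum.inl (b, j))))
    | .n l => Sum.inr (Sum.inr (Sum.inr (Sum.inr (Sum.inl l))))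
    | .u l => Sum.inr (Sum.inr (Sum.inr (Sum.inr (Sum.inr l))))
  invFun
    | Sum.inl 0 => .f
    | Sum.inl 1 => .p
    | Sum.inl 2 => .x
    | Sum.inl 3 => .z
    | Sum.inr (Sum.inl b) => .y b
    | Sum.inr (Sum.inr (Sum.inl (b, j))) => .m b j
    | Sum.inr (Sum.inr (Sum.inr (Sum.inl (b, j)))) => .r b j
    | Sum.inr (Sum.inr (Sum.inr (Sum.inr (Sum.inl l)))) => .n l
    | Sum.inr (Sum.inr (Sum.inr (Sum.inr (Sum.inr l)))) => .u l
  left_inv v := by cases v <;> rfl
  right_inv v := by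
    rcases v with a | b | ⟨b, j⟩ | ⟨b, j⟩ | l | l
    · fin_cases a <;> rfl
    all_goals rfl

instance (g k e : ℕ) : Fintype (TW g k e) := Fintype.ofEquiv _ (TWe g k e).symm

lemma card_TW (g k e : ℕ) : Fintype.card (TW g k e) = 4 + g + 2 * (g * k) + 2 * e := by
  rw [Fintype.card_congr (TWe g k e)]
  simp only [Fintype.card_sum, Fintype.card_fin, Fintype.card_prod]
  ring

/-- parent towards x -/
def parW {g k e : ℕ} : TW g k e → TW g k e
  | .f => .x
  | .p => .z
  | .x => .x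
  | .z => .x
  | .y _ => .x
  | .m b _ => .y b
  | .r b j => .m b j
  | .n _ => .z
  | .u l => .n l

/-- depth -/
def dptW {g k e : ℕ} : TW g k e → ℕ
  | .f => 1
  | .p => 2
  | .x => 0
  | .z => 1
  | .y _ => 1
  | .m _ _ => 2
  | .r _ _ => 3
  | .n _ => 2
  | .u _ => 3

lemma dpt_parW {g k e : ℕ} (v : TW g k e) (hv : v ≠ .x) : dptW (parW v) < dptW v := by
  cases v <;> simp_all [dptW, parW]

/-- the tree -/
def WG (g k e : ℕ) : SimpleGraph (TW g k e) := PT parW TW.x

lemma WG_conn (g k e : ℕ) : (WG g k e).Connected := PT_conn parW TW.x dptW dpt_parW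

lemma WG_adj {g k e : ℕ} (u v : TW g k e) :
    (WG g k e).Adj u v ↔ (v ≠ TW.x ∧ u = parW v) ∨ (u ≠ TW.x ∧ v = parW u) :=
  PT_adj parW TW.x dptW dpt_parW u v

lemma wadj_par {g k e : ℕ} (v : TW g k e) (hv : v ≠ TW.x) : (WG g k e).Adj (parW v) v := by
  rw [WG_adj]
  exact Or.inl ⟨hv, rfl⟩

lemma hom_WG {g k e : ℕ} {V : Type} (G : SimpleGraph V) (φ : TW g k e → V) :
    Hom (WG g k e) G φ ↔ ∀ v, v ≠ TW.x → G.Adj (φ (parW v)) (φ v) :=
  hom_PT parW TW.x dptW dpt_parW G φ

/-- the roots -/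
noncomputable def RW (g k e : ℕ) : Finset (TW g k e) :=
  Finset.univ.filter (fun v => v = .f ∨ v = .p ∨ (∃ b j, v = .r b j) ∨ ∃ l, v = .u l)

lemma w_f (g k e : ℕ) : (TW.f : TW g k e) ∈ RW g k e := by simp [RW]
lemma w_p (g k e : ℕ) : (TW.p : TW g k e) ∈ RW g k e := by simp [RW]
lemma w_x (g k e : ℕ) : (TW.x : TW g k e) ∉ RW g k e := by simp [RW]
lemma w_z (g k e : ℕ) : (TW.z : TW g k e) ∉ RW g k e := by simp [RW]
lemma w_y {g k e : ℕ} (b : Fin g) : (TW.y b : TW g k e) ∉ RW g k e := by simp [RW]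
lemma w_m {g k e : ℕ} (b : Fin g) (j : Fin k) : (TW.m b j : TW g k e) ∉ RW g k e := by simp [RW]
lemma w_r {g k e : ℕ} (b : Fin g) (j : Fin k) : (TW.r b j : TW g k e) ∈ RW g k e := by simp [RW]
lemma w_n {g k e : ℕ} (l : Fin e) : (TW.n l : TW g k e) ∉ RW g k e := by simp [RW]
lemma w_u {g k e : ℕ} (l : Fin e) : (TW.u l : TW g k e) ∈ RW g k e := by simp [RW]

lemma card_RW (g k e : ℕ) : (RW g k e).card = 2 + g * k + e := by
  have h : (RW g k e).card = Fintype.card (Fin 2 ⊕ (Fin g × Fin k) ⊕ Fin e) := by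
    rw [← Finset.card_univ]
    symm
    refine Finset.card_bij (fun a _ => match a with
      | Sum.inl i => if i = 0 then TW.f else TW.p
      | Sum.inr (Sum.inl (b, j)) => TW.r b j
      | Sum.inr (Sum.inr l) => TW.u l) ?_ ?_ ?_
    · rintro (i | ⟨b, j⟩ | l) _
      · fin_cases i
        · exact w_f g k e
        · exact w_p g k e
      · exact w_r b j
      · exact w_u l
    · rintro (i | ⟨b, j⟩ | l) _ (i' | ⟨b', j'⟩ | l') _ h
      · fin_cases i <;> fin_cases i' <;> simp_all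
      · fin_cases i <;> simp at h
      · fin_cases i <;> simp at h
      · fin_cases i' <;> simp at h
      · simp only [TW.r.injEq] at h
        rw [h.1, h.2]
      · simp at h
      · fin_cases i' <;> simp at h
      · simp at h
      · simp only [TW.u.injEq] at h
        rw [h]
    · intro v hv
      unfold RW at hv
      rcases (Finset.mem_filter.mp hv).2 with rfl | rfl | ⟨b, j, rfl⟩ | ⟨l, rfl⟩
      · exact ⟨Sum.inl 0, Finset.mem_univ _, by simp⟩
      · exact ⟨Sum.inl 1, Finset.mem_univ _, by simp⟩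
      · exact ⟨Sum.inr (Sum.inl (b, j)), Finset.mem_univ _, rfl⟩
      · exact ⟨Sum.inr (Sum.inr l), Finset.mem_univ _, rfl⟩
  rw [h]
  simp only [Fintype.card_sum, Fintype.card_fin, Fintype.card_prod]
  ring

lemma RW_indep (g k e : ℕ) : ∀ u ∈ RW g k e, ∀ v ∈ RW g k e, ¬ (WG g k e).Adj u v := by
  have key : ∀ v : TW g k e, v ≠ TW.x → parW v ∉ RW g k e := by
    intro v hv
    cases v with
    | f => exact w_x g k e
    | p => exact w_z g k e
    | x => exact w_x g k e
    | z => exact w_x g k e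
    | y b => exact w_x g k e
    | m b j => exact w_y b
    | r b j => exact w_m b j
    | n l => exact w_z g k e
    | u l => exact w_n l
  intro u hu v hv h
  rcases (WG_adj u v).mp h with ⟨h1, rfl⟩ | ⟨h1, rfl⟩
  · exact key v h1 hu
  · exact key u h1 hv

end Pool.Agent.TH476
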