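import Pool.Agent.TH476.Up
import Pool.Agent.W979.TE.Main4

set_option autoImplicit false

open Classical

namespace Pool.Agent.TH476

open Pool.Agent.W979.TE Pool.Agent.W979.TE4 Pool.Agent.W979.TE5

/-- from rich embeddings to a copy of the blowup -/
lemma hasBU_of_rich {ι W : Type} [Fintype ι] (T : SimpleGraph ι) (R : Finset ι) (t : ℕ)
    (G : SimpleGraph W) (h : ∃ φ, Rich {φ | Emb T G φ} t R φ) : HasBU T (R : Set ι) t G := by
  obtain ⟨φ, F, h1, h2, h3⟩ := h
  have hroot : ∀ i j u, u ∈ R → F i u = F j u := fun i j u hu => by rw [h2 i u hu, h2 j u hu]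
  refine ⟨fun p => F ⟨p.1.2, p.2.1⟩ p.1.1, ?_, ?_⟩
  · rintro ⟨⟨u, i⟩, hi, hui⟩ ⟨⟨v, j⟩, hj, hvj⟩ h
    simp only at h hi hj hui hvj
    have huv : u = v := by
      by_cases hu : u ∈ R
      · rw [hroot ⟨i, hi⟩ ⟨j, hj⟩ u hu] at h
        exact (h1 _).2 h
      · by_cases hv : v ∈ R
        · rw [hroot ⟨j, hj⟩ ⟨i, hi⟩ v hv] at h
          exact (h1 _).2 h
        · by_cases hij : (⟨i, hi⟩ : Fin t) = ⟨j, hj⟩
          · rw [hij] at h
            exact (h1 _).2 h
          · exact absurd h (h3 _ _ hij u hu v hv)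
    subst huv
    have hij : i = j := by
      by_cases hu : u ∈ R
      · rw [hui hu, hvj hu]
      · by_contra hne
        exact h3 ⟨i, hi⟩ ⟨j, hj⟩ (fun e => hne (Fin.mk.inj_iff.mp e)) u hu u hu h
    subst hij
    rfl
  · rintro ⟨⟨u, i⟩, hi, hui⟩ ⟨⟨v, j⟩, hj, hvj⟩ h
    unfold BU at h
    rw [SimpleGraph.fromRel_adj] at h
    simp only at h hi hj hui hvj ⊢
    have key : ∀ (u v : ι) (i j : Fin t), T.Adj u v → (i.1 = j.1 ∨ u ∈ (R : Set ι) ∨
        v ∈ (R : Set ι)) → G.Adj (F i u) (F j v) := by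
      intro u v i j huv h
      rcases h with h | h | h
      · rw [Fin.ext h]
        exact (h1 j).1 u v huv
      · rw [hroot i j u h]
        exact (h1 j).1 u v huv
      · rw [hroot j i v h]
        exact (h1 i).1 u v huv
    rcases h.2 with h | h
    · exact key u v ⟨i, hi⟩ ⟨j, hj⟩ h.1 h.2
    · exact (key v u ⟨j, hj⟩ ⟨i, hi⟩ h.1 h.2).symm

/-- colour -/
def colT {g q : ℕ} : TV g q → Bool
  | .f => false
  | .x => true
  | .y _ => false
  | .m _ _ => true
  | .r _ _ => false

lemma adm (g q : ℕ) (hg : 0 < g) : Adm (TG g q) (RS g q : Set (TV g q)) colT := by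
  refine ⟨TG_conn g q, ⟨TV.f, f_mem g q⟩, ?_, ?_⟩
  · intro u v huv
    have key : ∀ v : TV g q, v ≠ TV.x → colT v ≠ colT (par v) := by
      intro v hv
      cases v <;> simp_all [colT, par]
    rcases (TG_adj u v).mp huv with ⟨h1, rfl⟩ | ⟨h1, rfl⟩
    · exact (key v h1).symm
    · exact key u h1
  · intro b
    cases b
    · exact ⟨TV.y ⟨0, hg⟩, y_nmem _, rfl⟩
    · exact ⟨TV.x, x_nmem g q, rfl⟩

lemma sum_TV {g q : ℕ} (f : TV g q → ℕ) : ∑ v, f v = f .f + f .x +
    ∑ b : Fin g, (f (.y b) + (∑ j : Fin q, f (.m b j)) + ∑ j : Fin q, f (.r b j)) := by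
  rw [← Equiv.sum_comp (TVe g q).symm f]
  rw [Fintype.sum_sum_type, Fintype.sum_sum_type, Fintype.sum_sum_type, Fintype.sum_bool,
    Fintype.sum_prod_type, Fintype.sum_prod_type, Finset.sum_add_distrib, Finset.sum_add_distrib]
  simp only [TVe, Equiv.coe_fn_symm_mk]
  ring

/-- counting over the tree -/
lemma card_filter_TV {g q : ℕ} (P : TV g q → Prop) [DecidablePred P] :
    (Finset.univ.filter P).card = (if P .f then 1 else 0) + (if P .x then 1 else 0) +
      ∑ b : Fin g, ((if P (.y b) then 1 else 0) + (∑ j : Fin q, if P (.m b j) then 1 else 0) +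
        ∑ j : Fin q, if P (.r b j) then 1 else 0) := by
  rw [Finset.card_filter]
  exact sum_TV (fun v => if P v then 1 else 0)

/-- edges meeting a set -/
lemma eS_TG {g q : ℕ} (S : Set (TV g q)) : eS (TG g q) S =
    (Finset.univ.filter (fun v : TV g q => v ≠ .x ∧ (v ∈ S ∨ par v ∈ S))).card := by
  unfold eS
  have h : ({e | e ∈ (TG g q).edgeSet ∧ ∃ v ∈ S, v ∈ e} : Set (Sym2 (TV g q))) =
      (fun v => s(par v, v)) '' ((Finset.univ.filter (fun v : TV g q =>
        v ≠ .x ∧ (v ∈ S ∨ par v ∈ S)) : Finset (TV g q)) : Set (TV g q)) := by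
    ext e
    induction e using Sym2.ind with
    | _ u v =>
      simp only [Set.mem_ofPred_eq, SimpleGraph.mem_edgeSet, Sym2.mem_iff, Set.mem_image,
        Finset.coe_filter, Finset.mem_univ, true_and]
      constructor
      · rintro ⟨h1, w, hw, h2⟩
        rcases (TG_adj u v).mp h1 with ⟨h3, rfl⟩ | ⟨h3, rfl⟩
        · refine ⟨v, ⟨h3, ?_⟩, rfl⟩
          rcases h2 with rfl | rfl
          · exact Or.inr hw
          · exact Or.inl hw
        · refine ⟨u, ⟨h3, ?_⟩, Sym2.eq_swap⟩
          rcases h2 with rfl | rfl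
          · exact Or.inl hw
          · exact Or.inr hw
      · rintro ⟨w, ⟨h1, h2⟩, h3⟩
        have h4 : (TG g q).Adj (par w) w := (TG_adj _ _).mpr (Or.inl ⟨h1, rfl⟩)
        rcases Sym2.eq_iff.mp h3 with ⟨h5, h6⟩ | ⟨h5, h6⟩
        · rw [← h5, ← h6]
          refine ⟨h4, ?_⟩
          rcases h2 with h2 | h2
          · exact ⟨w, h2, Or.inr rfl⟩
          · exact ⟨_, h2, Or.inl rfl⟩
        · rw [← h5, ← h6]
          refine ⟨h4.symm, ?_⟩
          rcases h2 with h2 | h2
          · exact ⟨w, h2, Or.inl rfl⟩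
          · exact ⟨_, h2, Or.inr rfl⟩
  rw [h, Set.InjOn.ncard_image, Set.ncard_coe_finset]
  intro u hu v hv huv
  simp only [Finset.coe_filter, Finset.mem_univ, true_and, Set.mem_ofPred_eq] at hu hv
  rcases Sym2.eq_iff.mp huv with ⟨_, h⟩ | ⟨h1, h2⟩
  · exact h
  · exfalso
    have h3 := dpt_par u hu.1
    have h4 := dpt_par v hv.1
    rw [h1] at h3
    rw [← h2] at h4
    omega

lemma ncard_compl_RS (g q : ℕ) : ((RS g q : Set (TV g q))ᶜ).ncard = 1 + g + g * q := by
  rw [← Finset.coe_compl, Set.ncard_coe_finset, Finset.card_compl, card_RS, card_TV]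
  omega

lemma eS_compl (g q : ℕ) : eS (TG g q) ((RS g q : Set (TV g q))ᶜ) = 1 + g + 2 * (g * q) := by
  rw [eS_TG, card_filter_TV]
  have hf : (TV.f : TV g q) ∈ RS g q := f_mem g q
  have hx : (TV.x : TV g q) ∉ RS g q := x_nmem g q
  have hy : ∀ b, (TV.y b : TV g q) ∉ RS g q := y_nmem
  have hm : ∀ b j, (TV.m b j : TV g q) ∉ RS g q := m_nmem
  simp only [Set.mem_compl_iff, Finset.mem_coe, par, hx, hy, hm]
  simp
  ring

lemma balanced (g q : ℕ) (hg : 0 < g) (S : Set (TV g q)) (hS : S ⊆ (RS g q : Set (TV g q))ᶜ) :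
    (1 + g + 2 * (g * q)) * S.ncard ≤ (1 + g + g * q) * eS (TG g q) S := by
  have hf : TV.f ∉ S := fun h => hS h (f_mem g q)
  have hr : ∀ b j, TV.r b j ∉ S := fun b j h => hS h (r_mem b j)
  have hSc : S.ncard = (Finset.univ.filter (fun v => v ∈ S)).card := by
    rw [← Set.ncard_coe_finset]
    congr 1
    ext v
    simp
  rw [hSc, eS_TG, card_filter_TV, card_filter_TV]
  simp only [hf, hr, par]
  simp only [ne_eq, reduceCtorEq, not_false_eq_true, not_true_eq_false, false_or, true_and,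
    false_and, if_false]
  by_cases hx : TV.x ∈ S
  · simp only [hx, if_true, or_true, Finset.sum_const_zero]
    have key : ∀ b : Fin g, (1 + g + 2 * (g * q)) *
        ((if TV.y b ∈ S then 1 else 0) + (∑ j : Fin q, if TV.m b j ∈ S then 1 else 0)) + q ≤
        (1 + g + g * q) * ((∑ j : Fin q, if TV.m b j ∈ S ∨ TV.y b ∈ S then 1 else 0) +
          ∑ j : Fin q, if TV.m b j ∈ S then 1 else 0) + (1 + g + g * q) := by
      intro b
      have hM : (∑ j : Fin q, if TV.m b j ∈ S then 1 else 0) ≤ q := by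
        calc _ ≤ ∑ _j : Fin q, 1 := Finset.sum_le_sum fun j _ => by split <;> omega
          _ = q := by simp
      by_cases hy : TV.y b ∈ S
      · simp only [hy, or_true, if_true, Finset.sum_const, Finset.card_univ, Fintype.card_fin,
          smul_eq_mul, mul_one]
        set M := ∑ j : Fin q, if TV.m b j ∈ S then 1 else 0 with hMdef
        obtain ⟨c, hc⟩ : ∃ c, q = M + c := ⟨q - M, by omega⟩
        have h1 : g * q * q = g * q * M + g * q * c := by rw [← mul_add, ← hc]
        nlinarith [Nat.zero_le (g * q * c)]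
      · simp only [hy, or_false, if_false]
        set M := ∑ j : Fin q, if TV.m b j ∈ S then 1 else 0 with hMdef
        have h1 : q ≤ g * q := Nat.le_mul_of_pos_left q hg
        nlinarith [Nat.zero_le (g * M)]
    have hsum := Finset.sum_le_sum fun b (_ : b ∈ (Finset.univ : Finset (Fin g))) => key b
    rw [Finset.sum_add_distrib, ← Finset.mul_sum, Finset.sum_add_distrib (g := fun _ => 1 + g + g * q),
      ← Finset.mul_sum, Finset.sum_const, Finset.sum_const, Finset.card_univ, Fintype.card_fin,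
      smul_eq_mul, smul_eq_mul] at hsum
    have e1 : ∑ b : Fin g, (1 + (∑ j : Fin q, if TV.m b j ∈ S ∨ TV.y b ∈ S then 1 else 0) +
        ∑ j : Fin q, if TV.m b j ∈ S then 1 else 0) = g + ∑ b : Fin g,
          ((∑ j : Fin q, if TV.m b j ∈ S ∨ TV.y b ∈ S then 1 else 0) +
        ∑ j : Fin q, if TV.m b j ∈ S then 1 else 0) := by
      rw [← Finset.sum_congr rfl (fun b _ => (add_assoc _ _ _).symm), Finset.sum_add_distrib]
      simp
    simp only [add_zero, zero_add] at hsum ⊢
    rw [e1]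
    set A := ∑ b : Fin g, ((if TV.y b ∈ S then 1 else 0) +
      (∑ j : Fin q, if TV.m b j ∈ S then 1 else 0)) with hA
    set B := ∑ b : Fin g, ((∑ j : Fin q, if TV.m b j ∈ S ∨ TV.y b ∈ S then 1 else 0) +
        ∑ j : Fin q, if TV.m b j ∈ S then 1 else 0) with hB
    nlinarith
  · simp only [hx, if_false, or_false]
    have key : ∀ b : Fin g, (1 + g + 2 * (g * q)) *
        ((if TV.y b ∈ S then 1 else 0) + (∑ j : Fin q, if TV.m b j ∈ S then 1 else 0)) ≤
        (1 + g + g * q) * ((if TV.y b ∈ S then 1 else 0) +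
          (∑ j : Fin q, if TV.m b j ∈ S ∨ TV.y b ∈ S then 1 else 0) +
          ∑ j : Fin q, if TV.m b j ∈ S then 1 else 0) := by
      intro b
      have hM : (∑ j : Fin q, if TV.m b j ∈ S then 1 else 0) ≤ q := by
        calc _ ≤ ∑ _j : Fin q, 1 := Finset.sum_le_sum fun j _ => by split <;> omega
          _ = q := by simp
      by_cases hy : TV.y b ∈ S
      · simp only [hy, or_true, if_true, Finset.sum_const, Finset.card_univ, Fintype.card_fin,
          smul_eq_mul, mul_one]
        set M := ∑ j : Fin q, if TV.m b j ∈ S then 1 else 0 with hMdef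
        obtain ⟨c, hc⟩ : ∃ c, q = M + c := ⟨q - M, by omega⟩
        have h1 : g * q * q = g * q * M + g * q * c := by rw [← mul_add, ← hc]
        nlinarith [Nat.zero_le (g * q * c)]
      · simp only [hy, or_false, if_false]
        set M := ∑ j : Fin q, if TV.m b j ∈ S then 1 else 0 with hMdef
        nlinarith [Nat.zero_le (g * M)]
    have hsum := Finset.sum_le_sum fun b (_ : b ∈ (Finset.univ : Finset (Fin g))) => key b
    rw [← Finset.mul_sum, ← Finset.mul_sum] at hsum
    simpa using hsum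

theorem good (g q : ℕ) (hg : 0 < g) (hq : 0 < q) : Good (1 + g + g * q) (1 + g + 2 * (g * q)) := by
  refine ⟨TV g q, inferInstance, TG g q, (RS g q : Set (TV g q)), colT, adm g q hg,
    ncard_compl_RS g q, eS_compl g q, balanced g q hg, ?_⟩
  intro t ht
  obtain ⟨C, hC⟩ := upper g q t hg hq ht
  refine ⟨C, fun n G hG => ?_⟩
  rw [one_div_div]
  exact hC n G (fun h => hG (hasBU_of_rich (TG g q) (RS g q) t G h))

end Pool.Agent.TH476
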