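import Pool.Agent.TH476.ECore
import Pool.Agent.TH476.Good

set_option autoImplicit false

open Classical

namespace Pool.Agent.TH476

open Pool.Agent.W979.TE Pool.Agent.W979.TE4 Pool.Agent.W979.TE5

lemma BUP_BG {ι : Type} [Fintype ι] (T : SimpleGraph ι) (R : Finset ι) (t : ℕ) {n : ℕ}
    (G : SimpleGraph (Fin n)) (U W : Finset (Fin n)) (h : BUP T R t (BG G U W)) : BUP T R t G := by
  obtain ⟨φ, F, h1, h2, h3⟩ := h
  refine ⟨fun v => (φ v).1, fun i v => (F i v).1, ?_, ?_, ?_⟩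
  · intro i
    exact ⟨fun u v huv => ((h1 i).1 u v huv).1, fun u v huv => (h1 i).2 (Subtype.ext huv)⟩
  · intro i u hu
    exact congrArg Subtype.val (h2 i u hu)
  · intro i j hij u hu v hv h
    exact h3 i j hij u hu v hv (Subtype.ext h)

/-- the upper bound -/
theorem upperW (g k e t : ℕ) (hg : 0 < g) (hk : e < k) (ht : 0 < t) :
    ∃ C : ℝ, ∀ n : ℕ, ∀ G : SimpleGraph (Fin n), ¬ BUP (WG g k e) (RW g k e) t G →
      (G.edgeSet.ncard : ℝ) ≤
        C * (n : ℝ) ^ (2 - ((2 + g + g * k + e : ℕ) : ℝ) /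
          ((3 + g + 2 * (g * k) + 2 * e : ℕ) : ℝ)) := by
  have hgk : 0 < g * k := Nat.mul_pos hg (by omega)
  obtain ⟨b, hb⟩ : ∃ b, b = 3 + g + 2 * (g * k) + 2 * e := ⟨_, rfl⟩
  obtain ⟨s, hs⟩ : ∃ s, s = 1 + g * k + e := ⟨_, rfl⟩
  obtain ⟨ε, hε⟩ : ∃ ε : ℝ, ε = (s : ℝ) / (b : ℝ) := ⟨_, rfl⟩
  have hbpos : (0 : ℝ) < b := by
    have : 0 < b := by omega
    exact_mod_cast this
  have hspos : (0 : ℝ) < (s : ℝ) := by
    have : 0 < s := by omega
    exact_mod_cast this
  have hε0 : 0 < ε := by rw [hε]; positivity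
  have hε1 : ε < 1 := by
    rw [hε, div_lt_one hbpos]
    exact_mod_cast (by omega : s < b)
  have hexp : (2 - ((2 + g + g * k + e : ℕ) : ℝ) / ((3 + g + 2 * (g * k) + 2 * e : ℕ) : ℝ)) =
      1 + ε := by
    rw [← hb, hε]
    have h1 : ((2 + g + g * k + e : ℕ) : ℝ) = (b : ℝ) - (s : ℝ) := by
      rw [eq_sub_iff_add_eq]
      exact_mod_cast (by omega : 2 + g + g * k + e + s = b)
    rw [h1]
    field_simp
    ring
  rw [hexp]
  obtain ⟨K, hK, hreg⟩ := Pool.Agent.W247.BC.reg_holds ε hε0 hε1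
  obtain ⟨C0, hcore⟩ := coreW K g k e t hK hg (by omega) ht
  obtain ⟨C', hC'⟩ := hreg (max (C0 : ℝ) 1)
  refine ⟨C', fun n G hno => ?_⟩
  by_contra hcon
  push Not at hcon
  obtain ⟨U, W, D, hUW, hU, hW, hD, hdU, hdW⟩ := hC' n G hcon
  apply hno
  apply BUP_BG _ _ _ G U W
  have hN : (1 : ℝ) ≤ ((U.card + W.card : ℕ) : ℝ) := by
    have := hU.card_pos
    exact_mod_cast (by omega : 1 ≤ U.card + W.card)
  have hC1 : (1 : ℝ) ≤ max (C0 : ℝ) 1 := le_max_right _ _
  have hC0 : (C0 : ℝ) ≤ max (C0 : ℝ) 1 := le_max_left _ _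
  have hne : Nonempty {v : Fin n // v ∈ U ∪ W} := by
    obtain ⟨u, hu⟩ := hU
    exact ⟨⟨u, Finset.mem_union_left _ hu⟩⟩
  have hcard : Fintype.card {v : Fin n // v ∈ U ∪ W} = U.card + W.card := by
    rw [Fintype.card_coe, Finset.card_union_of_disjoint hUW]
  have hAR : AR (BG G U W) D K := by
    constructor
    · intro v
      rcases Finset.mem_union.mp v.2 with h | h
      · rw [(BG_nb G U W hUW v).1 h]
        exact (hdU v.1 h).1
      · rw [(BG_nb G U W hUW v).2 h]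
        exact (hdW v.1 h).1
    · intro v
      rcases Finset.mem_union.mp v.2 with h | h
      · rw [(BG_nb G U W hUW v).1 h]
        exact (hdU v.1 h).2
      · rw [(BG_nb G U W hUW v).2 h]
        exact (hdW v.1 h).2
  refine hcore _ (BG G U W) D hAR ?_ ?_ ?_
  · have := Pool.Agent.W715.BC.pow_ineq (max (C0 : ℝ) 1) _ D ε hC1 hN hD 1 0 le_rfl
      (by simpa using hε0.le)
    rw [pow_zero, mul_one, pow_one] at this
    exact_mod_cast hC0.trans this
  · have h1 := Pool.Agent.W715.BC.pow_ineq (max (C0 : ℝ) 1) _ D ε hC1 hN hD b s (by omega)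
      (by rw [hε, div_mul_cancel₀ _ hbpos.ne'])
    have h2 : (C0 : ℝ) * ((U.card + W.card : ℕ) : ℝ) ^ s ≤ (D : ℝ) ^ b :=
      (mul_le_mul_of_nonneg_right hC0 (by positivity)).trans h1
    have h3 : C0 * (U.card + W.card) ^ s ≤ D ^ b := by exact_mod_cast h2
    rw [hcard, ← hb, show 2 + g * k + e = 1 + s by omega, pow_add, pow_one]
    calc C0 * ((U.card + W.card) * (U.card + W.card) ^ s) =
        (U.card + W.card) * (C0 * (U.card + W.card) ^ s) := by ring
      _ ≤ (U.card + W.card) * D ^ b := Nat.mul_le_mul_left _ h3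
  · have h1 := Pool.Agent.W715.BC.pow_ineq (max (C0 : ℝ) 1) _ D ε hC1 hN hD (3 + 2 * e) (1 + e)
      (by omega) (by
        rw [hε, div_mul_eq_mul_div, le_div_iff₀ hbpos]
        have h5 : (1 + e) * b ≤ s * (3 + 2 * e) := by
          rw [hb, hs]
          have h6 : g * (e + 1) ≤ g * k := Nat.mul_le_mul_left _ (by omega)
          nlinarith
        have h7 : (((1 + e) * b : ℕ) : ℝ) ≤ ((s * (3 + 2 * e) : ℕ) : ℝ) := by exact_mod_cast h5
        push_cast at h7 ⊢
        linarith)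
    have h2 : (C0 : ℝ) * ((U.card + W.card : ℕ) : ℝ) ^ (1 + e) ≤ (D : ℝ) ^ (3 + 2 * e) :=
      (mul_le_mul_of_nonneg_right hC0 (by positivity)).trans h1
    rw [hcard]
    exact_mod_cast h2

/-- colour -/
def colW {g k e : ℕ} : TW g k e → Bool
  | .f => false
  | .p => true
  | .x => true
  | .z => false
  | .y _ => false
  | .m _ _ => true
  | .r _ _ => false
  | .n _ => true
  | .u _ => false

lemma admW (g k e : ℕ) : Adm (WG g k e) (RW g k e : Set (TW g k e)) colW := by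
  refine ⟨WG_conn g k e, ⟨TW.f, w_f g k e⟩, ?_, ?_⟩
  · intro u v huv
    have key : ∀ v : TW g k e, v ≠ TW.x → colW v ≠ colW (parW v) := by
      intro v hv
      cases v <;> simp_all [colW, parW]
    rcases (WG_adj u v).mp huv with ⟨h1, rfl⟩ | ⟨h1, rfl⟩
    · exact (key v h1).symm
    · exact key u h1
  · intro b
    cases b
    · exact ⟨TW.z, w_z g k e, rfl⟩
    · exact ⟨TW.x, w_x g k e, rfl⟩

lemma sum_TW {g k e : ℕ} (f : TW g k e → ℕ) : ∑ v, f v = f .f + f .p + f .x + f .z +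
    (∑ b : Fin g, (f (.y b) + (∑ j : Fin k, f (.m b j)) + ∑ j : Fin k, f (.r b j))) +
    ∑ l : Fin e, (f (.n l) + f (.u l)) := by
  rw [← Equiv.sum_comp (TWe g k e).symm f]
  rw [Fintype.sum_sum_type, Fintype.sum_sum_type, Fintype.sum_sum_type, Fintype.sum_sum_type,
    Fintype.sum_sum_type, Fin.sum_univ_four,
    Fintype.sum_prod_type, Fintype.sum_prod_type, Finset.sum_add_distrib, Finset.sum_add_distrib,
    Finset.sum_add_distrib]
  simp only [TWe, Equiv.coe_fn_symm_mk]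
  ring

/-- counting over the tree -/
lemma card_filter_TW {g k e : ℕ} (P : TW g k e → Prop) [DecidablePred P] :
    (Finset.univ.filter P).card = (if P .f then 1 else 0) + (if P .p then 1 else 0) +
      (if P .x then 1 else 0) + (if P .z then 1 else 0) +
      (∑ b : Fin g, ((if P (.y b) then 1 else 0) + (∑ j : Fin k, if P (.m b j) then 1 else 0) +
        ∑ j : Fin k, if P (.r b j) then 1 else 0)) +
      ∑ l : Fin e, ((if P (.n l) then 1 else 0) + if P (.u l) then 1 else 0) := by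
  rw [Finset.card_filter]
  exact sum_TW (fun v => if P v then 1 else 0)

/-- edges meeting a set, for the tree given by a parent function -/
lemma eS_PT {ι : Type} [Fintype ι] (p : ι → ι) (u0 : ι) (rk : ι → ℕ)
    (hp : ∀ v, v ≠ u0 → rk (p v) < rk v) (S : Set ι) : eS (PT p u0) S =
    (Finset.univ.filter (fun v : ι => v ≠ u0 ∧ (v ∈ S ∨ p v ∈ S))).card := by
  unfold eS
  have h : ({e | e ∈ (PT p u0).edgeSet ∧ ∃ v ∈ S, v ∈ e} : Set (Sym2 ι)) =
      (fun v => s(p v, v)) '' ((Finset.univ.filter (fun v : ι =>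
        v ≠ u0 ∧ (v ∈ S ∨ p v ∈ S)) : Finset ι) : Set ι) := by
    ext e
    induction e using Sym2.ind with
    | _ u v =>
      simp only [Set.mem_ofPred_eq, SimpleGraph.mem_edgeSet, Sym2.mem_iff, Set.mem_image,
        Finset.coe_filter, Finset.mem_univ, true_and]
      constructor
      · rintro ⟨h1, w, hw, h2⟩
        rcases (PT_adj p u0 rk hp u v).mp h1 with ⟨h3, rfl⟩ | ⟨h3, rfl⟩
        · refine ⟨v, ⟨h3, ?_⟩, rfl⟩
          rcases h2 with rfl | rfl
          · exact Or.inr hw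
          · exact Or.inl hw
        · refine ⟨u, ⟨h3, ?_⟩, Sym2.eq_swap⟩
          rcases h2 with rfl | rfl
          · exact Or.inl hw
          · exact Or.inr hw
      · rintro ⟨w, ⟨h1, h2⟩, h3⟩
        have h4 : (PT p u0).Adj (p w) w := (PT_adj p u0 rk hp _ _).mpr (Or.inl ⟨h1, rfl⟩)
        rcases Sym2.eq_iff.mp h3 with ⟨h5, h6⟩ | ⟨h5, h6⟩
        · rw [← h5, ← h6]
          refine ⟨h4, ?_⟩
          rcases h2 with h2 | h2
          · exact ⟨w, h2, Or.inr rfl⟩
          · exact ⟨_, h2, Or.inl rfl⟩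
        · rw [← h5, ← h6]
          refine ⟨h4.symm, ?_⟩
          rcases h2 with h2 | h2
          · exact ⟨w, h2, Or.inl rfl⟩
          · exact ⟨_, h2, Or.inr rfl⟩
  rw [h, Set.InjOn.ncard_image, Set.ncard_coe_finset]
  intro u hu v hv huv
  simp only [Finset.coe_filter, Finset.mem_univ, true_and, Set.mem_ofPred_eq] at hu hv
  rcases Sym2.eq_iff.mp huv with ⟨_, h⟩ | ⟨h1, h2⟩
  · exact h
  · exfalso
    have h3 := hp u hu.1
    have h4 := hp v hv.1
    rw [h1] at h3
    rw [← h2] at h4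
    omega

lemma eS_WG {g k e : ℕ} (S : Set (TW g k e)) : eS (WG g k e) S =
    (Finset.univ.filter (fun v : TW g k e => v ≠ .x ∧ (v ∈ S ∨ parW v ∈ S))).card :=
  eS_PT parW TW.x dptW dpt_parW S

lemma ncard_compl_RW (g k e : ℕ) :
    ((RW g k e : Set (TW g k e))ᶜ).ncard = 2 + g + g * k + e := by
  rw [← Finset.coe_compl, Set.ncard_coe_finset, Finset.card_compl, card_RW, card_TW]
  omega

attribute [local irreducible] RW

lemma eS_complW (g k e : ℕ) :
    eS (WG g k e) ((RW g k e : Set (TW g k e))ᶜ) = 3 + g + 2 * (g * k) + 2 * e := by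
  rw [eS_WG, card_filter_TW]
  have hx : (TW.x : TW g k e) ∉ RW g k e := w_x g k e
  have hz : (TW.z : TW g k e) ∉ RW g k e := w_z g k e
  have hy : ∀ b, (TW.y b : TW g k e) ∉ RW g k e := w_y
  have hm : ∀ b j, (TW.m b j : TW g k e) ∉ RW g k e := w_m
  have hn : ∀ l, (TW.n l : TW g k e) ∉ RW g k e := w_n
  simp only [Set.mem_compl_iff, Finset.mem_coe, parW, hx, hz, hy, hm, hn]
  simp
  ring

end Pool.Agent.TH476
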