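import Mathlib

set_option autoImplicit false

open Classical

namespace Pool.Agent.TH476

section ext

variable {ι V : Type} [Fintype ι] [Fintype V]

/-- functions extending ψ from S with the choice at v in c v -/
noncomputable def EX (c : ι → (ι → V) → Finset V) (S : Finset ι) (ψ : ι → V) : Finset (ι → V) :=
  Finset.univ.filter (fun φ : ι → V => (∀ u ∈ S, φ u = ψ u) ∧ ∀ v, v ∉ S → φ v ∈ c v φ)

lemma mem_EX (c : ι → (ι → V) → Finset V) (S : Finset ι) (ψ φ : ι → V) :
    φ ∈ EX c S ψ ↔ (∀ u ∈ S, φ u = ψ u) ∧ ∀ v, v ∉ S → φ v ∈ c v φ := by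
  unfold EX
  simp

lemma ext_step (rk : ι → ℕ) (c : ι → (ι → V) → Finset V) (S : Finset ι) (ψ : ι → V) (v : ι)
    (hv : v ∉ S) (hmin : ∀ u, u ∉ S → rk v ≤ rk u)
    (hc : ∀ v, v ∉ S → ∀ φ ψ : ι → V, (∀ u, rk u < rk v → φ u = ψ u) → c v φ = c v ψ) :
    (EX c S ψ).card = ∑ z ∈ c v ψ, (EX c (insert v S) (Function.update ψ v z)).card := by
  have hcv : ∀ φ : ι → V, (∀ u ∈ S, φ u = ψ u) → c v φ = c v ψ := by
    intro φ hφ
    refine hc v hv φ ψ fun u hu => hφ u ?_
    by_contra h
    exact absurd (hmin u h) (by omega)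
  rw [Finset.card_eq_sum_card_fiberwise (f := fun φ : ι → V => φ v) (t := c v ψ)]
  · refine Finset.sum_congr rfl fun z hz => ?_
    congr 1
    ext φ
    simp only [Finset.mem_filter, mem_EX, Finset.mem_insert]
    constructor
    · rintro ⟨⟨h1, h2⟩, h3⟩
      refine ⟨?_, fun u hu => h2 u (fun h => hu (Or.inr h))⟩
      intro u hu
      rcases eq_or_ne u v with rfl | hne
      · simpa using h3
      · rw [Function.update_of_ne hne]
        exact h1 u (hu.resolve_left hne)
    · rintro ⟨h1, h2⟩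
      have h3 : φ v = z := by
        have := h1 v (Or.inl rfl)
        simpa using this
      have h4 : ∀ u ∈ S, φ u = ψ u := by
        intro u hu
        have hne : u ≠ v := fun h => hv (h ▸ hu)
        have := h1 u (Or.inr hu)
        rwa [Function.update_of_ne hne] at this
      refine ⟨⟨h4, ?_⟩, h3⟩
      intro u hu
      rcases eq_or_ne u v with rfl | hne
      · rw [hcv φ h4, h3]
        exact hz
      · exact h2 u (fun h => h.elim hne hu)
  · intro φ hφ
    have hφ' := (mem_EX c S ψ φ).mp hφ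
    have := hφ'.2 v hv
    rw [hcv φ hφ'.1] at this
    exact this

lemma ext_le (rk : ι → ℕ) (c : ι → (ι → V) → Finset V) (d : ι → ℕ) :
    ∀ (k : ℕ) (S : Finset ι) (ψ : ι → V), Sᶜ.card = k →
    (∀ v, v ∉ S → ∀ φ ψ : ι → V, (∀ u, rk u < rk v → φ u = ψ u) → c v φ = c v ψ) →
    (∀ v, v ∉ S → ∀ φ, (c v φ).card ≤ d v) →
    (EX c S ψ).card ≤ ∏ v ∈ Sᶜ, d v := by
  intro k
  induction k with
  | zero =>
    intro S ψ hk _ _
    have hS : Sᶜ = ∅ := Finset.card_eq_zero.mp hk
    have hS' : ∀ u, u ∈ S := fun u => by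
      by_contra h
      have : u ∈ Sᶜ := Finset.mem_compl.mpr h
      rw [hS] at this
      exact absurd this (Finset.notMem_empty _)
    rw [hS, Finset.prod_empty]
    apply Finset.card_le_one.mpr
    intro a ha b hb
    funext u
    rw [((mem_EX c S ψ a).mp ha).1 u (hS' u), ((mem_EX c S ψ b).mp hb).1 u (hS' u)]
  | succ k ih =>
    intro S ψ hk hc hd
    have hne : Sᶜ.Nonempty := Finset.card_pos.mp (by omega)
    obtain ⟨v, hv, hmin⟩ := Finset.exists_min_image Sᶜ rk hne
    have hvS : v ∉ S := Finset.mem_compl.mp hv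
    rw [ext_step rk c S ψ v hvS (fun u hu => hmin u (Finset.mem_compl.mpr hu)) hc]
    have hcompl : (insert v S)ᶜ = Sᶜ.erase v := by
      rw [Finset.compl_insert]
    have hk' : ((insert v S)ᶜ).card = k := by
      rw [hcompl, Finset.card_erase_of_mem hv, hk]
      omega
    calc ∑ z ∈ c v ψ, (EX c (insert v S) (Function.update ψ v z)).card
        ≤ ∑ z ∈ c v ψ, ∏ v ∈ (insert v S)ᶜ, d v := by
          refine Finset.sum_le_sum fun z _ => ih (insert v S) _ hk' ?_ ?_
          · intro u hu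
            exact hc u (fun h => hu (Finset.mem_insert_of_mem h))
          · intro u hu
            exact hd u (fun h => hu (Finset.mem_insert_of_mem h))
      _ = (c v ψ).card * ∏ v ∈ (insert v S)ᶜ, d v := by rw [Finset.sum_const, smul_eq_mul]
      _ ≤ d v * ∏ v ∈ (insert v S)ᶜ, d v := Nat.mul_le_mul_right _ (hd v hvS ψ)
      _ = ∏ v ∈ Sᶜ, d v := by rw [hcompl, Finset.mul_prod_erase _ _ hv]

lemma ext_ge (rk : ι → ℕ) (c : ι → (ι → V) → Finset V) (d : ι → ℕ) :
    ∀ (k : ℕ) (S : Finset ι) (ψ : ι → V), Sᶜ.card = k →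
    (∀ v, v ∉ S → ∀ φ ψ : ι → V, (∀ u, rk u < rk v → φ u = ψ u) → c v φ = c v ψ) →
    (∀ v, v ∉ S → ∀ φ, d v ≤ (c v φ).card) →
    ∏ v ∈ Sᶜ, d v ≤ (EX c S ψ).card := by
  intro k
  induction k with
  | zero =>
    intro S ψ hk _ _
    have hS : Sᶜ = ∅ := Finset.card_eq_zero.mp hk
    have hS' : ∀ u, u ∈ S := fun u => by
      by_contra h
      have : u ∈ Sᶜ := Finset.mem_compl.mpr h
      rw [hS] at this
      exact absurd this (Finset.notMem_empty _)
    rw [hS, Finset.prod_empty, Nat.one_le_iff_ne_zero, ← Nat.pos_iff_ne_zero]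
    apply Finset.card_pos.mpr
    exact ⟨ψ, (mem_EX c S ψ ψ).mpr ⟨fun _ _ => rfl, fun v hv => absurd (hS' v) hv⟩⟩
  | succ k ih =>
    intro S ψ hk hc hd
    have hne : Sᶜ.Nonempty := Finset.card_pos.mp (by omega)
    obtain ⟨v, hv, hmin⟩ := Finset.exists_min_image Sᶜ rk hne
    have hvS : v ∉ S := Finset.mem_compl.mp hv
    rw [ext_step rk c S ψ v hvS (fun u hu => hmin u (Finset.mem_compl.mpr hu)) hc]
    have hcompl : (insert v S)ᶜ = Sᶜ.erase v := by
      rw [Finset.compl_insert]
    have hk' : ((insert v S)ᶜ).card = k := by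
      rw [hcompl, Finset.card_erase_of_mem hv, hk]
      omega
    calc ∏ v ∈ Sᶜ, d v = d v * ∏ v ∈ (insert v S)ᶜ, d v := by
          rw [hcompl, Finset.mul_prod_erase _ _ hv]
      _ ≤ (c v ψ).card * ∏ v ∈ (insert v S)ᶜ, d v := Nat.mul_le_mul_right _ (hd v hvS ψ)
      _ = ∑ z ∈ c v ψ, ∏ v ∈ (insert v S)ᶜ, d v := by rw [Finset.sum_const, smul_eq_mul]
      _ ≤ ∑ z ∈ c v ψ, (EX c (insert v S) (Function.update ψ v z)).card := by
          refine Finset.sum_le_sum fun z _ => ih (insert v S) _ hk' ?_ ?_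
          · intro u hu
            exact hc u (fun h => hu (Finset.mem_insert_of_mem h))
          · intro u hu
            exact hd u (fun h => hu (Finset.mem_insert_of_mem h))

end ext

section kernel

variable {ι V : Type} [Fintype ι]

/-- L members of the family 𝓕 agreeing with φ on Y and pairwise disjoint outside Y -/
def Rich (𝓕 : Set (ι → V)) (L : ℕ) (Y : Finset ι) (φ : ι → V) : Prop :=
  ∃ F : Fin L → ι → V, (∀ i, F i ∈ 𝓕) ∧ (∀ i, ∀ u ∈ Y, F i u = φ u) ∧
    ∀ i j, i ≠ j → ∀ u, u ∉ Y → ∀ v, v ∉ Y → F i u ≠ F j v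

/-- kernel bound -/
def kc (L : ℕ) : ℕ → ℕ
  | 0 => 1
  | k + 1 => L * (k + 1) * (k + 1) * kc L k + 1

lemma kernel (𝓕 : Set (ι → V)) (L : ℕ) (hL : 0 < L) :
    ∀ (k : ℕ) (X : Finset ι) (𝓢 : Finset (ι → V)) (ψ : ι → V),
    Xᶜ.card = k → (∀ φ ∈ 𝓢, φ ∈ 𝓕) → (∀ φ ∈ 𝓢, ∀ u ∈ X, φ u = ψ u) →
    (∀ φ ∈ 𝓢, ∀ Y : Finset ι, X ⊆ Y → Y ≠ Finset.univ → ¬ Rich 𝓕 L Y φ) →
    𝓢.card ≤ kc L k := by
  intro k
  induction k with
  | zero =>
    intro X 𝓢 ψ hk _ hψ _
    have hS : Xᶜ = ∅ := Finset.card_eq_zero.mp hk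
    have hS' : ∀ u, u ∈ X := fun u => by
      by_contra h
      have : u ∈ Xᶜ := Finset.mem_compl.mpr h
      rw [hS] at this
      exact absurd this (Finset.notMem_empty _)
    unfold kc
    apply Finset.card_le_one.mpr
    intro a ha b hb
    funext u
    rw [hψ a ha u (hS' u), hψ b hb u (hS' u)]
  | succ k ih =>
    intro X 𝓢 ψ hk hF hψ hnr
    have hXne : X ≠ Finset.univ := by
      intro h
      rw [h] at hk
      simp at hk
    -- maximal number of pairwise disjoint members
    let Q : ℕ → Prop := fun m => ∃ F : Fin m → ι → V, (∀ i, F i ∈ 𝓢) ∧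
      ∀ i j, i ≠ j → ∀ u, u ∉ X → ∀ v, v ∉ X → F i u ≠ F j v
    have hQ0 : Q 0 := ⟨fun i => i.elim0, fun i => i.elim0, fun i => i.elim0⟩
    have hQL : ¬ Q L := by
      rintro ⟨F, hF1, hF2⟩
      exact hnr (F ⟨0, hL⟩) (hF1 _) X (Finset.Subset.refl _) hXne
          ⟨F, fun i => hF _ (hF1 i), fun i u hu => by rw [hψ _ (hF1 i) u hu, hψ _ (hF1 _) u hu], hF2⟩
    have hex : ∃ m, ¬ Q m := ⟨L, hQL⟩
    obtain ⟨m, hm1, hm2, hmL⟩ : ∃ m, Q m ∧ ¬ Q (m + 1) ∧ m < L := by
      have h1 := Nat.find_spec hex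
      have h2 := Nat.find_min' hex hQL
      have h3 : Nat.find hex ≠ 0 := by
        intro h
        rw [h] at h1
        exact h1 hQ0
      refine ⟨Nat.find hex - 1, ?_, ?_, by omega⟩
      · have := Nat.find_min hex (m := Nat.find hex - 1) (by omega)
        exact not_not.mp this
      · have e : Nat.find hex - 1 + 1 = Nat.find hex := by omega
        rw [e]
        exact h1
    obtain ⟨F, hF1, hF2⟩ := hm1
    have hcov : ∀ φ ∈ 𝓢, ∃ i : Fin m, ∃ u ∈ Xᶜ, ∃ v ∈ Xᶜ, φ v = F i u := by
      intro φ hφ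
      by_contra hcon
      push Not at hcon
      apply hm2
      refine ⟨Fin.cons φ F, ?_, ?_⟩
      · intro i
        refine Fin.cases ?_ (fun i => ?_) i
        · simpa using hφ
        · simpa using hF1 i
      · intro i j
        refine Fin.cases ?_ (fun i => ?_) i
        · refine Fin.cases ?_ (fun j => ?_) j
          · intro h
            exact absurd rfl h
          · intro _ u hu v hv
            simp only [Fin.cons_zero, Fin.cons_succ]
            exact hcon j v (Finset.mem_compl.mpr hv) u (Finset.mem_compl.mpr hu)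
        · refine Fin.cases ?_ (fun j => ?_) j
          · intro _ u hu v hv
            simp only [Fin.cons_zero, Fin.cons_succ]
            exact fun h => hcon i u (Finset.mem_compl.mpr hu) v (Finset.mem_compl.mpr hv) h.symm
          · intro hij u hu v hv
            simp only [Fin.cons_succ]
            exact hF2 i j (fun h => hij (by rw [h])) u hu v hv
    have hsub : 𝓢 ⊆ ((Finset.univ : Finset (Fin m)) ×ˢ Xᶜ ×ˢ Xᶜ).biUnion
        (fun p => 𝓢.filter (fun φ => φ p.2.2 = F p.1 p.2.1)) := by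
      intro φ hφ
      obtain ⟨i, u, hu, v, hv, h⟩ := hcov φ hφ
      simp only [Finset.mem_biUnion, Finset.mem_product, Finset.mem_univ, true_and,
        Finset.mem_filter]
      exact ⟨(i, u, v), ⟨hu, hv⟩, hφ, h⟩
    have hpiece : ∀ p ∈ ((Finset.univ : Finset (Fin m)) ×ˢ Xᶜ ×ˢ Xᶜ),
        (𝓢.filter (fun φ => φ p.2.2 = F p.1 p.2.1)).card ≤ kc L k := by
      rintro ⟨i, u, v⟩ hp
      simp only [Finset.mem_product, Finset.mem_univ, true_and] at hp
      have hvX : v ∉ X := Finset.mem_compl.mp hp.2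
      refine ih (insert v X) _ (Function.update ψ v (F i u)) ?_ ?_ ?_ ?_
      · rw [Finset.compl_insert, Finset.card_erase_of_mem hp.2, hk]
        omega
      · intro φ hφ
        exact hF φ (Finset.mem_filter.mp hφ).1
      · intro φ hφ w hw
        obtain ⟨h1, h2⟩ := Finset.mem_filter.mp hφ
        rcases eq_or_ne w v with rfl | hne
        · simpa using h2
        · rw [Function.update_of_ne hne]
          exact hψ φ h1 w ((Finset.mem_insert.mp hw).resolve_left hne)
      · intro φ hφ Y hY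
        exact hnr φ (Finset.mem_filter.mp hφ).1 Y
          ((Finset.subset_insert _ _).trans hY)
    have hcard : ((Finset.univ : Finset (Fin m)) ×ˢ Xᶜ ×ˢ Xᶜ).card = m * (k + 1) * (k + 1) := by
      rw [Finset.card_product, Finset.card_product, Finset.card_univ, Fintype.card_fin, hk]
      ring
    calc 𝓢.card ≤ _ := Finset.card_le_card hsub
      _ ≤ ((Finset.univ : Finset (Fin m)) ×ˢ Xᶜ ×ˢ Xᶜ).card * kc L k :=
          Finset.card_biUnion_le_card_mul _ _ _ hpiece
      _ = m * (k + 1) * (k + 1) * kc L k := by rw [hcard]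
      _ ≤ L * (k + 1) * (k + 1) * kc L k := by gcongr
      _ ≤ kc L (k + 1) := by
          show _ ≤ L * (k + 1) * (k + 1) * kc L k + 1
          omega

end kernel

section greedy

/-- greedy choice of objects with disjoint supports -/
lemma greedy {κ α V : Type} [Fintype κ] (supp : κ → α → Finset V) (k : ℕ) (P : κ → α → Prop)
    (Z₀ : Finset V) (hk : ∀ i a, P i a → (supp i a).card ≤ k)
    (h : ∀ i, ∀ Z : Finset V, Z.card ≤ Z₀.card + Fintype.card κ * k →
      ∃ a, P i a ∧ Disjoint (supp i a) Z) :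
    ∃ a : κ → α, (∀ i, P i (a i)) ∧ (∀ i, Disjoint (supp i (a i)) Z₀) ∧
      ∀ i j, i ≠ j → Disjoint (supp i (a i)) (supp j (a j)) := by
  have key : ∀ S : Finset κ, ∃ a : κ → α, (∀ i ∈ S, P i (a i)) ∧
      (∀ i ∈ S, Disjoint (supp i (a i)) Z₀) ∧
      ∀ i ∈ S, ∀ j ∈ S, i ≠ j → Disjoint (supp i (a i)) (supp j (a j)) := by
    intro S
    induction S using Finset.induction_on with
    | empty =>
      rcases isEmpty_or_nonempty κ with hκ | ⟨⟨i⟩⟩
      · exact ⟨fun i => (hκ.false i).elim, by simp, by simp, by simp⟩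
      · obtain ⟨a, _⟩ := h i ∅ (by simp)
        exact ⟨fun _ => a, by simp, by simp, by simp⟩
    | insert i S hi ih =>
      obtain ⟨a, h1, h2, h3⟩ := ih
      obtain ⟨b, hb1, hb2⟩ := h i (Z₀ ∪ S.biUnion (fun j => supp j (a j))) (by
        refine (Finset.card_union_le _ _).trans (Nat.add_le_add_left ?_ _)
        refine (Finset.card_biUnion_le_card_mul S _ k (fun j hj => hk j _ (h1 j hj))).trans ?_
        exact Nat.mul_le_mul_right _ (Finset.card_le_univ S))
      rw [Finset.disjoint_union_right] at hb2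
      obtain ⟨hb3, hb4⟩ := hb2
      rw [Finset.disjoint_biUnion_right] at hb4
      have hne : ∀ j ∈ S, j ≠ i := fun j hj h => hi (h ▸ hj)
      refine ⟨Function.update a i b, ?_, ?_, ?_⟩
      · intro j hj
        rcases Finset.mem_insert.mp hj with rfl | hj
        · simpa using hb1
        · rw [Function.update_of_ne (hne j hj)]
          exact h1 j hj
      · intro j hj
        rcases Finset.mem_insert.mp hj with rfl | hj
        · simpa using hb3
        · rw [Function.update_of_ne (hne j hj)]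
          exact h2 j hj
      · intro j hj l hl hjl
        rcases Finset.mem_insert.mp hj with rfl | hj'
        · rcases Finset.mem_insert.mp hl with rfl | hl'
          · exact absurd rfl hjl
          · rw [Function.update_self, Function.update_of_ne (hne l hl')]
            exact hb4 l hl'
        · rcases Finset.mem_insert.mp hl with rfl | hl'
          · rw [Function.update_self, Function.update_of_ne (hne j hj')]
            exact (hb4 j hj').symm
          · rw [Function.update_of_ne (hne j hj'), Function.update_of_ne (hne l hl')]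
            exact h3 j hj' l hl' hjl
  obtain ⟨a, h1, h2, h3⟩ := key Finset.univ
  exact ⟨a, fun i => h1 i (Finset.mem_univ _), fun i => h2 i (Finset.mem_univ _),
    fun i j => h3 i (Finset.mem_univ _) j (Finset.mem_univ _)⟩

/-- among many pairwise disjoint sets one avoids a given small set -/
lemma avoid {V : Type} {L : ℕ} (A : Fin L → Finset V)
    (hA : ∀ i j, i ≠ j → Disjoint (A i) (A j)) (Z : Finset V) (hZ : Z.card < L) :
    ∃ i, Disjoint (A i) Z := by
  by_contra hcon
  push Not at hcon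
  have h1 : ∀ i, ∃ z, z ∈ A i ∧ z ∈ Z := fun i => by
    have := hcon i
    rw [Finset.not_disjoint_iff] at this
    exact this
  choose z hz1 hz2 using h1
  have hinj : Function.Injective (fun i => (⟨z i, hz2 i⟩ : Z)) := by
    intro i j hij
    by_contra hne
    have : z i = z j := congrArg Subtype.val hij
    exact Finset.disjoint_left.mp (hA i j hne) (hz1 i) (this ▸ hz1 j)
  have := Fintype.card_le_of_injective _ hinj
  rw [Fintype.card_fin, Fintype.card_coe] at this
  omega

end greedy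

end Pool.Agent.TH476
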