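import Pool.Agent.TH476.GCaseU2

set_option autoImplicit false

open Classical

namespace Pool.Agent.TH476

/-- removing a small part -/
lemma rem_part {α : Type} (𝓟 𝓡 : Finset α) (P : α → Prop) (X Q m : ℕ) (h : X ≤ Q * 𝓟.card)
    (hR : ∀ a ∈ 𝓟, P a → a ∈ 𝓡)
    (h1 : ∀ 𝓢 : Finset α, (∀ a ∈ 𝓢, a ∈ 𝓟 ∧ ¬ P a) → 𝓢.card ≤ m) (h2 : 2 * (Q * m) ≤ X) :
    X ≤ 2 * Q * 𝓡.card := by
  refine le_trans ?_ (Nat.mul_le_mul_left _ (Finset.card_le_card
    (show 𝓟.filter (fun a => P a) ⊆ 𝓡 from fun a ha =>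
      hR a (Finset.mem_filter.mp ha).1 (Finset.mem_filter.mp ha).2)))
  have h3 := h1 (𝓟.filter (fun a => ¬ P a)) fun a ha => Finset.mem_filter.mp ha
  have h4 := Finset.card_filter_add_card_filter_not (s := 𝓟) (fun a => P a)
  have h5 : Q * 𝓟.card = Q * (𝓟.filter (fun a => P a)).card +
      Q * (𝓟.filter (fun a => ¬ P a)).card := by rw [← h4]; ring
  have h6 : Q * (𝓟.filter (fun a => ¬ P a)).card ≤ Q * m := Nat.mul_le_mul_left _ h3
  have h7 : 2 * Q * (𝓟.filter (fun a => P a)).card = 2 * (Q * (𝓟.filter (fun a => P a)).card) := by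
    ring
  omega

lemma compl_card_le {κ ι : Type} [Fintype κ] [Fintype ι] [DecidableEq κ] (R : Finset κ)
    (f : ι → κ) (h : ∀ v, v ∉ R → ∃ x, f x = v) : Rᶜ.card ≤ Fintype.card ι := by
  have h1 : Rᶜ ⊆ (Finset.univ : Finset ι).image f := by
    intro v hv
    obtain ⟨x, hx⟩ := h v (Finset.mem_compl.mp hv)
    exact Finset.mem_image.mpr ⟨x, Finset.mem_univ _, hx⟩
  refine (Finset.card_le_card h1).trans (Finset.card_image_le.trans ?_)
  rw [Finset.card_univ]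

lemma kpig' (hkp : S_KPIG) {κ V Ω ι : Type} [Fintype κ] [Fintype ι] (f : ι → κ) (L : ℕ)
    (hL : 0 < L) (R : Finset κ) (hR : ∀ v, v ∉ R → ∃ x, f x = v) (ρ0 X Q : ℕ) (Ωs : Finset Ω)
    (𝓟 : Finset (Ω × (κ → V))) (h𝓟 : ∀ p ∈ 𝓟, p.1 ∈ Ωs)
    (h1 : ∀ ω ∈ Ωs, ∀ 𝓢 : Finset (κ → V), (∀ φ ∈ 𝓢, (ω, φ) ∈ 𝓟) →
      (𝓢.image (fun (φ : κ → V) (u : R) => φ u.1)).card ≤ ρ0)
    (hX : 0 < X) (h2 : X ≤ Q * 𝓟.card)
    (h3 : 2 * (Q * (Ωs.card * (2 * kc L (Fintype.card ι) * ρ0))) ≤ X) :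
    ∃ Y : Finset κ, R ⊆ Y ∧ Y ≠ Finset.univ ∧
      X ≤ 4 * Q * 4 ^ Fintype.card κ *
        (𝓟.filter (fun p => Rich {φ | (p.1, φ) ∈ 𝓟} L Y p.2)).card :=
  hkp κ V Ω L hL R ρ0 X Q (Fintype.card ι) Ωs 𝓟 h𝓟 (fun _ hv => Finset.mem_compl.mpr hv)
    (compl_card_le R f hR) h1 hX h2 h3

variable {ι : Type} [Fintype ι]

lemma CL_empty (T : TD ι) (K Q Q' L ζ L1 C : ℕ) (hQ : Q ≤ Q') (U : Finset ι) :
    CL T K Q Q' L ζ L1 C U ∅ := by
  intro V _ _ G D _ _ g _ v0 Ω b Γ Ωs S _ _ 𝓟 h𝓟 hcard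
  right
  have hFC : FC T (∅ : Finset ι) = ∅ := by
    ext c
    rcases c with x | q
    · simp [mem_FC_inl]
    · simp [mem_FC_inr]
  rw [hFC, Finset.card_empty, pow_zero, mul_one] at hcard
  have hv0 : ∀ p ∈ 𝓟, p.2 = fun _ => v0 := by
    intro p hp
    funext c
    refine (h𝓟 p hp).2.cp.df c ?_
    rcases c with x | q
    · rw [mem_UC_inl]
      exact Finset.notMem_empty _
    · rw [mem_UC_inr]
      exact fun h => Finset.notMem_empty _ h.1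
  refine hcard.trans (Nat.mul_le_mul hQ (Finset.card_le_card_of_injOn (fun p => p.1) ?_ ?_))
  · intro p hp
    have hp' := Finset.mem_coe.mp hp
    refine Finset.mem_coe.mpr (Finset.mem_filter.mpr ⟨(h𝓟 p hp').1, ?_⟩)
    intro Z _
    refine ⟨fun _ x => p.2 (Sum.inl x), b p.1, fun _ h => absurd h (Finset.notMem_empty _), ?_,
      fun _ => (h𝓟 p hp').2.gm, ?_, ?_, ?_, ?_, ?_⟩
    · intro l
      exact ⟨fun x h => absurd h (Finset.notMem_empty _), fun x h => absurd h (Finset.notMem_empty _),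
        fun x h => absurd h (Finset.notMem_empty _)⟩
    · exact fun _ _ x _ h => absurd h (Finset.notMem_empty _)
    · exact fun _ x _ h => absurd h (Finset.notMem_empty _)
    · exact fun q _ h => absurd h (Finset.notMem_empty _)
    · exact fun _ x h => absurd h (Finset.notMem_empty _)
    · exact fun q h => absurd h (Finset.notMem_empty _)
  · intro p hp p' hp' h
    exact Prod.ext h (by rw [hv0 p hp, hv0 p' hp'])

/-- number of root tuples -/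
lemma card_roots {V : Type} [Fintype V] (T : TD ι) (G : SimpleGraph V) (v0 : V) (F : Finset ι)
    (b : ι → V) (𝓢 : Finset (ι ⊕ ι → V)) (h : ∀ φ ∈ 𝓢, Cpy T G v0 F b φ) :
    (𝓢.image (fun (φ : ι ⊕ ι → V) (u : RF F) => φ u.1)).card ≤ Fintype.card V ^ frc T F := by
  have hcard : Fintype.card V ^ frc T F =
      ((Finset.univ : Finset ((F.filter (fun x => T.Qn x ∧ T.par x ∈ F)) → V))).card := by
    rw [Finset.card_univ, Fintype.card_fun, Fintype.card_coe]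
    rfl
  rw [hcard]
  have hmem : ∀ q : ι, (Sum.inr q : ι ⊕ ι) ∈ RF F := fun q =>
    (mem_RF F _).mpr fun y _ h => by cases h
  refine Finset.card_le_card_of_injOn (fun η q => η ⟨Sum.inr q.1, hmem q.1⟩)
    (fun _ _ => Finset.mem_coe.mpr (Finset.mem_univ _)) ?_
  intro η hη η' hη' he
  obtain ⟨φ, hφ, rfl⟩ := Finset.mem_image.mp (Finset.mem_coe.mp hη)
  obtain ⟨φ', hφ', rfl⟩ := Finset.mem_image.mp (Finset.mem_coe.mp hη')
  funext c
  obtain ⟨c, hc⟩ := c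
  show φ c = φ' c
  rcases c with x | q
  · have hx : Sum.inl x ∉ UC T F := by
      rw [mem_UC_inl]
      intro hx
      exact (mem_RF F _).mp hc x hx rfl
    rw [(h φ hφ).df _ hx, (h φ' hφ').df _ hx]
  · by_cases hq : q ∈ F
    · by_cases hQ : T.Qn q
      · by_cases hp : T.par q ∈ F
        · have := congrFun he ⟨q, Finset.mem_filter.mpr ⟨hq, hQ, hp⟩⟩
          exact this
        · rw [(h φ hφ).bs q hq hp, (h φ' hφ').bs q hq hp]
      · have hx : Sum.inr q ∉ UC T F := by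
          rw [mem_UC_inr]
          exact fun h => hQ h.2
        rw [(h φ hφ).df _ hx, (h φ' hφ').df _ hx]
    · have hx : Sum.inr q ∉ UC T F := by
        rw [mem_UC_inr]
        exact fun h => hq h.1
      rw [(h φ hφ).df _ hx, (h φ' hφ').df _ hx]

omit [Fintype ι] in
lemma exists_topF {T : TD ι} {F : Finset ι} (hF : AdmF T F) (hne : F.Nonempty) :
    ∃ q ∈ F, T.par q ∉ F := by
  obtain ⟨q, hq, hmin⟩ := Finset.exists_min_image F T.dp hne
  refine ⟨q, hq, fun hp => ?_⟩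
  have h1 := hmin _ hp
  have h2 := T.dp_par q (hF.ne_top hq)
  omega

omit [Fintype ι] in
lemma CntH.D_ge {T : TD ι} {C N D : ℕ} (h : CntH T C N D) {F : Finset ι} (hF : AdmF T F)
    (hne : F.Nonempty) : C ≤ D := by
  obtain ⟨q, hq, hp⟩ := exists_topF hF hne
  have hQ := hF.Q_of hq hp
  have hpq : T.par q ≠ q := fun h => hp (by rw [h]; exact hq)
  have h1 := h {q} (Finset.singleton_nonempty q) (by
    refine ⟨fun h => hF.ne_top hq (Finset.mem_singleton.mp h).symm, ?_⟩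
    intro x hx hQx
    rw [Finset.mem_singleton.mp hx] at hQx
    exact absurd hQ hQx)
  have h2 : frc T {q} = 0 := by
    unfold frc
    rw [Finset.card_eq_zero, Finset.filter_eq_empty_iff]
    rintro x hx ⟨_, h3⟩
    rw [Finset.mem_singleton.mp hx] at h3
    exact hpq (Finset.mem_singleton.mp h3)
  rw [h2, Finset.card_singleton, pow_zero, mul_one, add_zero, pow_one] at h1
  exact h1

lemma FC_card_eq (T : TD ι) (F : Finset ι) : (FC T F).card = F.card + frc T F := by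
  have h1 : FC T F = F.image Sum.inl ∪
      (F.filter (fun x => T.Qn x ∧ T.par x ∈ F)).image Sum.inr := by
    ext c
    rw [Finset.mem_union, Finset.mem_image, Finset.mem_image]
    rcases c with x | q
    · rw [mem_FC_inl]
      constructor
      · exact fun h => Or.inl ⟨x, h, rfl⟩
      · rintro (⟨y, hy, h⟩ | ⟨y, _, h⟩)
        · rw [← Sum.inl.inj h]
          exact hy
        · cases h
    · rw [mem_FC_inr]
      constructor
      · exact fun h => Or.inr ⟨q, Finset.mem_filter.mpr h, rfl⟩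
      · rintro (⟨y, _, h⟩ | ⟨y, hy, h⟩)
        · cases h
        · rw [← Sum.inr.inj h]
          exact Finset.mem_filter.mp hy
  rw [h1, Finset.card_union_of_disjoint, Finset.card_image_of_injective _ Sum.inl_injective,
    Finset.card_image_of_injective _ Sum.inr_injective]
  · rfl
  · rw [Finset.disjoint_left]
    intro c hc hc'
    obtain ⟨x, _, rfl⟩ := Finset.mem_image.mp hc
    obtain ⟨y, _, h⟩ := Finset.mem_image.mp hc'
    cases h

/-- one step of the induction -/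
lemma claim_step (hres : S_RES) (hasmT : S_ASMT) (hasmU : S_ASMU) (hkp : S_KPIG) (T : TD ι)
    (K : ℕ) (hK : 0 < K) (Q Q2 Q3 Q4 QT QU Q' L ζ L1 Lk CT CU C : ℕ) (hQ : 0 < Q)
    (hQ2 : Q2 = 4 * (4 * Q) * 4 ^ Fintype.card (ι ⊕ ι))
    (hQ3 : Q3 = Q2 * K ^ (2 * Fintype.card ι)) (hQ4 : Q4 = 2 * Q3 * K ^ (2 * Fintype.card ι))
    (hQ' : 2 * Q * K ^ (2 * Fintype.card ι) + QT + (2 * QU + 2 * Q4) ≤ Q')
    (hL : 0 < L) (hLk1 : L1 ≤ Lk) (hLk2 : ζ + (2 * L + 2) * Fintype.card ι < Lk)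
    (hLk3 : L * Fintype.card ι * 2 < Lk)
    (hC1 : CT ≤ C) (hC2 : CU ≤ C) (hC3 : 4 * Q * (2 * Fintype.card ι * ζ) * K ^
      (2 * Fintype.card ι) < C) (hC4 : 16 * Q * kc Lk (Fintype.card ι) ≤ C)
    (hC5 : 2 * QU * (2 * Fintype.card ι) * ζ < C)
    (U F : Finset ι) (hU : AncC T U) (hFU : F ⊆ U) (hF : AdmF T F)
    (hdc : ∀ x ∈ U, x ≠ T.top → T.par x ∈ F → x ∈ F) (hFne : F.Nonempty)
    (ihT : ∀ F' : Finset ι, F' ⊆ F → F'.card < F.card → AdmF T F' →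
      (∀ x ∈ U, x ≠ T.top → T.par x ∈ F' → x ∈ F') →
      CL T K (Q2 * K ^ (2 * Fintype.card ι)) QT L (ζ + Fintype.card ι) L1 CT U F')
    (ihU : ∀ F' : Finset ι, F' ⊆ F → F'.card < F.card → AdmF T F' →
      (∀ x ∈ U, x ≠ T.top → T.par x ∈ F' → x ∈ F') →
      CL T K (2 * Q3 * K * K ^ (2 * Fintype.card ι)) QU (2 * L * K * Q4)
        (ζ + 2 * Fintype.card ι) L1 CU U F') :
    CL T K Q Q' L ζ L1 C U F := by
  intro V _ _ G D hG hC g hg v0 Ω b Γ Ωs S hS0 hS 𝓟 h𝓟 hcard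
  have hCD : C ≤ D := hC.D_ge hF hFne
  have hD0 : 0 < D := by omega
  have hKD : 0 < K * D := Nat.mul_pos hK hD0
  have hKp : 0 < K ^ (2 * Fintype.card ι) := pow_pos hK _
  have hNpos : 0 < Fintype.card V := Fintype.card_pos
  by_contra hcon
  push Not at hcon
  obtain ⟨hnot1, hnot2⟩ := hcon
  obtain ⟨q0, hq0, hq0p⟩ := exists_topF hF hFne
  -- number of base indices
  have hΩ : Ωs.card ≤ Fintype.card V * S := by
    have h1 := card_le_fib' Ωs (fun ω => b ω q0) (Finset.univ : Finset V) S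
      (fun _ _ => Finset.mem_univ _) (fun w _ 𝓢 h𝓢 => by
        refine (Finset.card_le_card ?_).trans (hS q0 hq0 hq0p w)
        intro ω hω
        exact Finset.mem_filter.mpr (h𝓢 ω hω))
    rw [Finset.card_univ] at h1
    exact h1
  obtain ⟨X, hX⟩ : ∃ X, X = Fintype.card V * S * D ^ (FC T F).card := ⟨_, rfl⟩
  have hXpos : 0 < X := by
    rw [hX]
    exact Nat.mul_pos (Nat.mul_pos hNpos hS0) (pow_pos hD0 _)
  have hFCle := FC_card_le T F
  have hFCpos : 1 ≤ (FC T F).card :=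
    Finset.card_pos.mpr ⟨Sum.inl q0, (mem_FC_inl T F q0).mpr hq0⟩
  rw [← hX] at hcard
  -- remove the good base indices
  obtain ⟨gd, hgd⟩ : ∃ gd : Ω → Prop, gd = fun ω => ∀ Z : Finset V, Z.card ≤ ζ →
    BUat T g F (b ω) L (Γ ω) Z := ⟨_, rfl⟩
  obtain ⟨𝓖, h𝓖⟩ : ∃ 𝓖, 𝓖 = Ωs.filter (fun ω => gd ω) := ⟨_, rfl⟩
  have hnot2' : Q' * 𝓖.card < Fintype.card V * S := by
    refine lt_of_le_of_lt (Nat.mul_le_mul_left _ (Finset.card_le_card fun ω hω => ?_)) hnot2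
    rw [h𝓖] at hω
    obtain ⟨h1, h2⟩ := Finset.mem_filter.mp hω
    rw [hgd] at h2
    exact Finset.mem_filter.mpr ⟨h1, h2⟩
  have hcount : ∀ (ω : Ω) (A0 : Finset (ι ⊕ ι)) (ψ0 : ι ⊕ ι → V)
      (𝓢 : Finset (Ω × (ι ⊕ ι → V))), (∀ p ∈ 𝓢, p ∈ 𝓟 ∧ p.1 = ω ∧ ∀ c ∈ A0, p.2 c = ψ0 c) →
      𝓢.card ≤ (K * D) ^ fr T F A0 := by
    intro ω A0 ψ0 𝓢 h𝓢
    have hcs : 𝓢.card = (𝓢.image (fun p => p.2)).card := by
      rw [Finset.card_image_of_injOn]
      intro p hp p' hp' h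
      exact Prod.ext (by rw [(h𝓢 p hp).2.1, (h𝓢 p' hp').2.1]) h
    rw [hcs]
    refine ub T F A0 (fun x hx => hF.ne_top hx) (fun x hx _ hp => hF.Q_of hx hp) G D K hG v0
      (b ω) ψ0 _ ?_ ?_
    · intro φ hφ
      obtain ⟨p, hp, rfl⟩ := Finset.mem_image.mp hφ
      obtain ⟨h1, h2, _⟩ := h𝓢 p hp
      rw [← h2]
      exact (h𝓟 p h1).2.cp
    · intro φ hφ
      obtain ⟨p, hp, rfl⟩ := Finset.mem_image.mp hφ
      exact (h𝓢 p hp).2.2
  obtain ⟨𝓟a, h𝓟a⟩ : ∃ 𝓟a, 𝓟a = 𝓟.filter (fun p => ¬ gd p.1) := ⟨_, rfl⟩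
  have hstep1 : X ≤ 2 * Q * 𝓟a.card := by
    refine rem_part 𝓟 𝓟a (fun p => ¬ gd p.1) X Q (𝓖.card * (K * D) ^ (FC T F).card) hcard
      (fun a ha hg => by rw [h𝓟a]; exact Finset.mem_filter.mpr ⟨ha, hg⟩) ?_ ?_
    · intro 𝓢 h𝓢
      refine card_le_fib' 𝓢 (fun p => p.1) 𝓖 _ ?_ ?_
      · intro p hp
        obtain ⟨h1, h2⟩ := h𝓢 p hp
        rw [h𝓖]
        exact Finset.mem_filter.mpr ⟨(h𝓟 p h1).1, not_not.mp h2⟩
      · intro ω _ 𝓢' h𝓢'
        rw [← fr_empty]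
        exact hcount ω ∅ (fun _ => v0) 𝓢' fun p hp =>
          ⟨(h𝓢 p (h𝓢' p hp).1).1, (h𝓢' p hp).2, fun c hc => absurd hc (Finset.notMem_empty _)⟩
    · rw [hX]
      calc 2 * (Q * (𝓖.card * (K * D) ^ (FC T F).card))
          = (2 * Q * K ^ (FC T F).card) * 𝓖.card * D ^ (FC T F).card := by
            rw [mul_pow]
            ring
        _ ≤ Q' * 𝓖.card * D ^ (FC T F).card := by
            refine Nat.mul_le_mul_right _ (Nat.mul_le_mul_right _ ?_)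
            have h1 : 2 * Q * K ^ (FC T F).card ≤ 2 * Q * K ^ (2 * Fintype.card ι) :=
              Nat.mul_le_mul_left _ (Nat.pow_le_pow_right hK hFCle)
            omega
        _ ≤ _ := Nat.mul_le_mul_right _ hnot2'.le
  -- forbidden sets
  have hZex : ∀ ω : Ω, ∃ Z : Finset V, ¬ gd ω → (Z.card ≤ ζ ∧ ¬ BUat T g F (b ω) L (Γ ω) Z) := by
    intro ω
    by_cases h : gd ω
    · exact ⟨∅, fun h' => absurd h h'⟩
    · rw [hgd] at h
      push Not at h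
      obtain ⟨Z, hZ1, hZ2⟩ := h
      exact ⟨Z, fun _ => ⟨hZ1, hZ2⟩⟩
  choose Zf hZf using hZex
  have h𝓟a1 : ∀ p ∈ 𝓟a, p ∈ 𝓟 ∧ ¬ gd p.1 := fun p hp => by
    rw [h𝓟a] at hp
    exact Finset.mem_filter.mp hp
  obtain ⟨𝓟b, h𝓟b⟩ : ∃ 𝓟b, 𝓟b = 𝓟a.filter (fun p => ∀ c ∈ FC T F, p.2 c ∉ Zf p.1) := ⟨_, rfl⟩
  have hstep2 : X ≤ 2 * (2 * Q) * 𝓟b.card := by
    obtain ⟨f1, hf1⟩ : ∃ f1, (FC T F).card = f1 + 1 := ⟨(FC T F).card - 1, by omega⟩
    refine rem_part 𝓟a 𝓟b (fun p => ∀ c ∈ FC T F, p.2 c ∉ Zf p.1) X (2 * Q)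
      (Ωs.card * (2 * Fintype.card ι * ζ * (K * D) ^ f1)) hstep1
      (fun a ha hg => by rw [h𝓟b]; exact Finset.mem_filter.mpr ⟨ha, hg⟩) ?_ ?_
    · intro 𝓢 h𝓢
      refine card_le_fib' 𝓢 (fun p => p.1) Ωs _ ?_ ?_
      · intro p hp
        exact (h𝓟 p (h𝓟a1 p (h𝓢 p hp).1).1).1
      · intro ω _ 𝓢' h𝓢'
        have hcov : 𝓢' ⊆ (FC T F ×ˢ Zf ω).biUnion
            (fun cz => 𝓢'.filter (fun p => p.2 cz.1 = cz.2)) := by
          intro p hp
          obtain ⟨h1, h2⟩ := h𝓢' p hp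
          have h3 := (h𝓢 p h1).2
          push Not at h3
          obtain ⟨c, hc, hcZ⟩ := h3
          rw [h2] at hcZ
          exact Finset.mem_biUnion.mpr ⟨(c, p.2 c), Finset.mem_product.mpr ⟨hc, hcZ⟩,
            Finset.mem_filter.mpr ⟨hp, rfl⟩⟩
        by_cases hemp : 𝓢' = ∅
        · rw [hemp]
          simp
        obtain ⟨p1, hp1⟩ := Finset.nonempty_iff_ne_empty.mpr hemp
        have hZc : (Zf ω).card ≤ ζ := by
          have h3 := h𝓟a1 p1 (h𝓢 p1 (h𝓢' p1 hp1).1).1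
          rw [(h𝓢' p1 hp1).2] at h3
          exact (hZf ω h3.2).1
        refine (Finset.card_le_card hcov).trans ((Finset.card_biUnion_le_card_mul _ _
          ((K * D) ^ f1) ?_).trans ?_)
        · rintro ⟨c, z⟩ hcz
          have hc := (Finset.mem_product.mp hcz).1
          simp only at hc ⊢
          have h4 := fr_add T F {c} (Finset.singleton_subset_iff.mpr hc)
          rw [Finset.card_singleton] at h4
          have h5 : fr T F {c} = f1 := by omega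
          rw [← h5]
          refine hcount ω {c} (fun _ => z) _ ?_
          intro p hp
          obtain ⟨h6, h7⟩ := Finset.mem_filter.mp hp
          refine ⟨(h𝓟a1 p (h𝓢 p (h𝓢' p h6).1).1).1, (h𝓢' p h6).2, ?_⟩
          intro c' hc'
          rw [Finset.mem_singleton.mp hc']
          exact h7
        · rw [Finset.card_product]
          exact Nat.mul_le_mul_right _ (Nat.mul_le_mul hFCle hZc)
    · rw [hX, hf1, pow_succ]
      have h1 : 4 * Q * (2 * Fintype.card ι * ζ) * K ^ f1 ≤ D := by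
        have h2 : K ^ f1 ≤ K ^ (2 * Fintype.card ι) := Nat.pow_le_pow_right hK (by omega)
        have h3 := Nat.mul_le_mul_left (4 * Q * (2 * Fintype.card ι * ζ)) h2
        omega
      calc 2 * (2 * Q * (Ωs.card * (2 * Fintype.card ι * ζ * (K * D) ^ f1)))
          = Ωs.card * D ^ f1 * (4 * Q * (2 * Fintype.card ι * ζ) * K ^ f1) := by
            rw [mul_pow]
            ring
        _ ≤ (Fintype.card V * S) * D ^ f1 * D :=
            Nat.mul_le_mul (Nat.mul_le_mul_right _ hΩ) h1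
        _ = _ := by ring
  have h𝓟b1 : ∀ p ∈ 𝓟b, p ∈ 𝓟 ∧ ¬ gd p.1 ∧ ∀ c ∈ FC T F, p.2 c ∉ Zf p.1 := fun p hp => by
    rw [h𝓟b] at hp
    obtain ⟨h1, h2⟩ := Finset.mem_filter.mp hp
    exact ⟨(h𝓟a1 p h1).1, (h𝓟a1 p h1).2, h2⟩
  -- the kernels
  obtain ⟨Y, hRY, hYne, hstep3⟩ := kpig' hkp (Sum.inl : ι → ι ⊕ ι) Lk (by omega) (RF F)
    (fun c hc => by
      rw [mem_RF] at hc
      push Not at hc
      obtain ⟨x, _, h⟩ := hc
      exact ⟨x, h.symm⟩) (Fintype.card V ^ frc T F) X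
    (2 * (2 * Q)) Ωs 𝓟b (fun p hp => (h𝓟 p (h𝓟b1 p hp).1).1) (fun ω hω 𝓢 h𝓢 => by
      refine card_roots T G v0 F (b ω) 𝓢 fun φ hφ => ?_
      exact (h𝓟 _ (h𝓟b1 _ (h𝓢 φ hφ)).1).2.cp) hXpos (by
      calc X ≤ 2 * (2 * Q) * 𝓟b.card := hstep2
        _ = _ := by ring) (by
      have h1 := hC F hFne hF
      rw [← FC_card_eq] at h1
      rw [hX]
      calc 2 * (2 * (2 * Q) * (Ωs.card * (2 * kc Lk (Fintype.card ι) *
            Fintype.card V ^ frc T F)))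
          = Ωs.card * (16 * Q * kc Lk (Fintype.card ι) * Fintype.card V ^ frc T F) := by ring
        _ ≤ (Fintype.card V * S) * (C * Fintype.card V ^ frc T F) :=
            Nat.mul_le_mul hΩ (Nat.mul_le_mul_right _ hC4)
        _ ≤ _ := Nat.mul_le_mul_left _ h1)
  obtain ⟨𝓟c, h𝓟c⟩ : ∃ 𝓟c, 𝓟c = 𝓟b.filter (fun p => Rich {φ | (p.1, φ) ∈ 𝓟b} Lk Y p.2) :=
    ⟨_, rfl⟩
  rw [← h𝓟c] at hstep3
  have hstep3' : X ≤ Q2 * 𝓟c.card := by
    rw [hQ2]
    calc X ≤ _ := hstep3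
      _ = _ := by ring
  have h𝓟c1 : ∀ p ∈ 𝓟c, p ∈ 𝓟 ∧ ¬ gd p.1 ∧ (∀ c ∈ FC T F, p.2 c ∉ Zf p.1) ∧
      Rich {φ | (p.1, φ) ∈ 𝓟b} Lk Y p.2 := fun p hp => by
    rw [h𝓟c] at hp
    obtain ⟨h1, h2⟩ := Finset.mem_filter.mp hp
    exact ⟨(h𝓟b1 p h1).1, (h𝓟b1 p h1).2.1, (h𝓟b1 p h1).2.2, h2⟩
  have h𝓕 : ∀ ω, ∀ φ ∈ {φ | (ω, φ) ∈ 𝓟b}, Fam T G g v0 L1 F (b ω) (Γ ω) φ := fun ω φ hφ =>
    (h𝓟 _ (h𝓟b1 _ hφ).1).2
  have hcne : 𝓟c.Nonempty := by
    rw [← Finset.card_pos]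
    by_contra h0
    have h0' : 𝓟c.card = 0 := by omega
    rw [h0', mul_zero] at hstep3'
    omega
  obtain ⟨p0, hp0⟩ := hcne
  obtain ⟨N, hN⟩ : ∃ N, N = F.filter (fun x => Sum.inl x ∉ Y) := ⟨_, rfl⟩
  have hKS : KSt T F N := by
    rw [hN]
    exact kst_of_rich hF (h𝓕 p0.1) (by omega) hLk1 hRY hYne (h𝓟c1 p0 hp0).2.2.2
  have hNY : ∀ x ∈ N, Sum.inl x ∉ Y := fun x hx => by
    rw [hN] at hx
    exact (Finset.mem_filter.mp hx).2
  have hYN : ∀ x ∈ F, x ∉ N → Sum.inl x ∈ Y := fun x hx hxN => by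
    by_contra h
    exact hxN (by rw [hN]; exact Finset.mem_filter.mpr ⟨hx, h⟩)
  have hQ2p : 0 < Q2 := by
    rw [hQ2]
    positivity
  rw [hX] at hstep3'
  by_cases hcase : ∀ x ∈ N, ¬ T.Qn x → T.par x ∈ N
  · -- first case
    have hanc : ∀ x ∈ N, T.par x ∈ F → T.par x ∈ N := by
      intro x hx hp
      by_cases hQx : T.Qn x
      · exact hKS.a1 x hx hQx hp
      · exact hcase x hx hQx
    have hadm : AdmF T (F \ N) := admF_sdiff hF hKS.a2
    have hcardlt : (F \ N).card < F.card := by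
      refine Finset.card_lt_card ⟨Finset.sdiff_subset, fun h => ?_⟩
      obtain ⟨x, hx⟩ := hKS.ne
      exact (Finset.mem_sdiff.mp (h (hKS.sub hx))).2 hx
    have hdcN : ∀ x ∈ U, x ≠ T.top → T.par x ∈ F \ N → x ∈ F \ N := by
      intro x hxU hxt hp
      obtain ⟨hp1, hp2⟩ := Finset.mem_sdiff.mp hp
      exact Finset.mem_sdiff.mpr ⟨hdc x hxU hxt hp1, fun hxN => hp2 (hanc x hxN hp1)⟩
    obtain ⟨u, hu, huQ, h⟩ := caseT hres hasmT T K hK Q2 QT L ζ L1 Lk CT hLk2 U F N hF hKS hcase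
      (ihT (F \ N) Finset.sdiff_subset hcardlt hadm hdcN) V G D hG hD0
      (fun F' h1 h2 => (Nat.mul_le_mul_right _ hC1).trans (hC F' h1 h2)) g hg v0 Ω b Γ Ωs S hS0 hS
      Zf 𝓟c (fun p hp => by
        obtain ⟨h1, h2, h3, h4⟩ := h𝓟c1 p hp
        refine ⟨(h𝓟 p h1).1, (h𝓟 p h1).2, (hZf p.1 h2).1, h3, (hZf p.1 h2).2, ?_⟩
        refine att_of_rich (h𝓕 p.1) hRY h4 hKS.sub Finset.sdiff_subset hNY
          (fun x hx => hYN x (Finset.mem_sdiff.mp hx).1 (Finset.mem_sdiff.mp hx).2)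
          (fun q hq hpq => ?_) _ (fun _ _ _ => rfl) _ (fun x hx => resD_inl T N (F \ N) v0 p.2 hx)
          _ ?_
        · obtain ⟨hq1, hq2⟩ := Finset.mem_sdiff.mp hq
          rw [T.alt q (hF.ne_top hq1)]
          intro hQp
          exact hq2 (hKS.a2 _ hpq hQp q hq1 rfl)
        · intro φ' hφ' hag
          have h5 : glu N (fun x => φ' (Sum.inl x))
              (fun x => resD T N (F \ N) v0 p.2 (Sum.inl x)) = fun x => φ' (Sum.inl x) := by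
            funext x
            unfold glu
            by_cases hxN : x ∈ N
            · rw [if_pos hxN]
            · rw [if_neg hxN]
              show resD T N (F \ N) v0 p.2 (Sum.inl x) = φ' (Sum.inl x)
              by_cases hxF : x ∈ F
              · rw [resD_inl T N (F \ N) v0 p.2 (Finset.mem_sdiff.mpr ⟨hxF, hxN⟩)]
                exact (hag _ (hYN x hxF hxN)).symm
              · have h6 : resD T N (F \ N) v0 p.2 (Sum.inl x) = v0 :=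
                  if_neg fun h => hxF (Finset.mem_sdiff.mp h).1
                rw [h6]
                refine ((h𝓕 p.1 φ' hφ').cp.df _ ?_).symm
                rw [mem_UC_inl]
                exact hxF
          rw [h5]
          exact (h𝓕 p.1 φ' hφ').gm) hstep3'
    refine absurd ?_ (not_le.mpr (hnot1 u hu huQ))
    refine h.trans (Nat.mul_le_mul (by omega) (Finset.card_le_card ?_))
    intro w hw
    exact Finset.mem_filter.mpr ⟨Finset.mem_univ _, (Finset.mem_filter.mp hw).2.mono le_rfl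
      (by omega) (by omega)⟩
  · -- second case
    push Not at hcase
    obtain ⟨u1, hu1, hu1Q, hu1p⟩ := hcase
    obtain ⟨u, huf, hmax⟩ := Finset.exists_max_image
      (N.filter (fun x => ¬ T.Qn x ∧ T.par x ∉ N)) T.dp
      ⟨u1, Finset.mem_filter.mpr ⟨hu1, hu1Q, hu1p⟩⟩
    obtain ⟨hu, huQ, hup⟩ := Finset.mem_filter.mp huf
    obtain ⟨u', hu', huQ', h⟩ := caseU hres hasmU T K hK Q2 Q3 Q4 QU L ζ L1 Lk CU hQ2p hQ3 hQ4 hL
      hLk3 U F N hU hF hdc hKS u hu huQ hup (fun x hx hQx hdx => by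
        by_contra hp
        have := hmax x (Finset.mem_filter.mpr ⟨hx, hQx, hp⟩)
        omega) (Dsc T U u) _ rfl hFU rfl (fun F' h1 h2 h3 h4 => by
        refine ihU F' h1 (Finset.card_lt_card ⟨h1, fun h => h2 (h (hKS.sub hu))⟩) h3 h4) Y hRY hNY
      hYN V G D hG (by omega)
      (fun F' h1 h2 => (Nat.mul_le_mul_right _ hC2).trans (hC F' h1 h2)) g hg v0 Ω b Γ Ωs S hS0 hS
      𝓟c (fun p hp => by
        obtain ⟨h1, h2, h3, h4⟩ := h𝓟c1 p hp
        exact ⟨(h𝓟 p h1).1, (h𝓟 p h1).2, {φ | (p.1, φ) ∈ 𝓟b}, h𝓕 p.1, h4⟩) hstep3'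
    refine absurd ?_ (not_le.mpr (hnot1 u' hu' huQ'))
    refine h.trans (Nat.mul_le_mul (by omega) (Finset.card_le_card ?_))
    intro w hw
    exact Finset.mem_filter.mpr ⟨Finset.mem_univ _, (Finset.mem_filter.mp hw).2.mono le_rfl
      le_rfl (by omega)⟩

/-- the claim for sets of at most n nodes -/
lemma claim_ind (hres : S_RES) (hasmT : S_ASMT) (hasmU : S_ASMU) (hkp : S_KPIG) (T : TD ι)
    (K : ℕ) (hK : 0 < K) : ∀ n Q : ℕ, 0 < Q → ∃ Q' : ℕ, 0 < Q' ∧ Q ≤ Q' ∧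
    ∀ L ζ L1 : ℕ, 0 < L → ∃ C : ℕ, ∀ (U F : Finset ι), F.card ≤ n → AncC T U → F ⊆ U →
    AdmF T F → (∀ x ∈ U, x ≠ T.top → T.par x ∈ F → x ∈ F) → CL T K Q Q' L ζ L1 C U F := by
  intro n
  induction n with
  | zero =>
    intro Q hQ
    refine ⟨Q, hQ, le_rfl, fun L ζ L1 hL => ⟨0, fun U F hF _ _ _ _ => ?_⟩⟩
    have : F = ∅ := Finset.card_eq_zero.mp (by omega)
    rw [this]
    exact CL_empty T K Q Q L ζ L1 0 le_rfl U
  | succ n ih =>
    intro Q hQ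
    obtain ⟨Q2, hQ2⟩ : ∃ Q2, Q2 = 4 * (4 * Q) * 4 ^ Fintype.card (ι ⊕ ι) := ⟨_, rfl⟩
    obtain ⟨Q3, hQ3⟩ : ∃ Q3, Q3 = Q2 * K ^ (2 * Fintype.card ι) := ⟨_, rfl⟩
    obtain ⟨Q4, hQ4⟩ : ∃ Q4, Q4 = 2 * Q3 * K ^ (2 * Fintype.card ι) := ⟨_, rfl⟩
    have hQ2p : 0 < Q2 := by rw [hQ2]; positivity
    have hQ3p : 0 < Q3 := by rw [hQ3]; positivity
    have hQ4p : 0 < Q4 := by rw [hQ4]; positivity
    obtain ⟨QT, hQTp, _, hT⟩ := ih (Q2 * K ^ (2 * Fintype.card ι)) (by positivity)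
    obtain ⟨QU, hQUp, _, hU'⟩ := ih (2 * Q3 * K * K ^ (2 * Fintype.card ι)) (by positivity)
    obtain ⟨Q', hQ'⟩ : ∃ Q', Q' = 2 * Q * K ^ (2 * Fintype.card ι) + QT + (2 * QU + 2 * Q4) + Q :=
      ⟨_, rfl⟩
    refine ⟨Q', by omega, by omega, fun L ζ L1 hL => ?_⟩
    obtain ⟨CT, hCT⟩ := hT L (ζ + Fintype.card ι) L1 hL
    obtain ⟨CU, hCU⟩ := hU' (2 * L * K * Q4) (ζ + 2 * Fintype.card ι) L1 (by positivity)
    obtain ⟨Lk, hLk⟩ : ∃ Lk, Lk = L1 + (ζ + (2 * L + 2) * Fintype.card ι) +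
      L * Fintype.card ι * 2 + 1 := ⟨_, rfl⟩
    obtain ⟨C, hC⟩ : ∃ C, C = CT + CU + 4 * Q * (2 * Fintype.card ι * ζ) * K ^
      (2 * Fintype.card ι) + 16 * Q * kc Lk (Fintype.card ι) +
      2 * QU * (2 * Fintype.card ι) * ζ + 1 := ⟨_, rfl⟩
    refine ⟨C, fun U F hFn hU hFU hF hdc => ?_⟩
    by_cases hFe : F = ∅
    · rw [hFe]
      exact CL_empty T K Q Q' L ζ L1 C (by omega) U
    · refine claim_step hres hasmT hasmU hkp T K hK Q Q2 Q3 Q4 QT QU Q' L ζ L1 Lk CT CU C hQ hQ2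
        hQ3 hQ4 (by omega) hL (by omega) (by omega) (by omega) (by omega) (by omega) (by omega)
        (by omega) (by omega) U F hU hFU hF hdc (Finset.nonempty_iff_ne_empty.mpr hFe) ?_ ?_
      · intro F' h1 h2 h3 h4
        exact hCT U F' (by omega) hU (h1.trans hFU) h3 h4
      · intro F' h1 h2 h3 h4
        exact hCU U F' (by omega) hU (h1.trans hFU) h3 h4

theorem claim_of (hres : S_RES) (hasmT : S_ASMT) (hasmU : S_ASMU) (hkp : S_KPIG) : S_CLAIM := by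
  intro ι _ T K hK Q hQ
  obtain ⟨Q', hQ', _, h⟩ := claim_ind hres hasmT hasmU hkp T K hK (Fintype.card ι) Q hQ
  refine ⟨Q', hQ', fun L ζ L1 hL => ?_⟩
  obtain ⟨C, hC⟩ := h L ζ L1 hL
  exact ⟨C, fun U F hU hFU hF hdc => hC U F (Finset.card_le_univ _) hU hFU hF hdc⟩

end Pool.Agent.TH476
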