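import Pool.Agent.TH476.GStm2

set_option autoImplicit false

open Classical

namespace Pool.Agent.TH476

variable {ι V : Type} [Fintype ι]

lemma mem_UC_inl (T : TD ι) (F : Finset ι) (x : ι) : Sum.inl x ∈ UC T F ↔ x ∈ F := by
  simp [UC]

lemma mem_UC_inr (T : TD ι) (F : Finset ι) (q : ι) : Sum.inr q ∈ UC T F ↔ q ∈ F ∧ T.Qn q := by
  simp [UC]

lemma mem_FC_inl (T : TD ι) (F : Finset ι) (x : ι) : Sum.inl x ∈ FC T F ↔ x ∈ F := by
  simp [FC]

lemma mem_FC_inr (T : TD ι) (F : Finset ι) (q : ι) :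
    Sum.inr q ∈ FC T F ↔ q ∈ F ∧ T.Qn q ∧ T.par q ∈ F := by
  simp [FC]

lemma FC_sub (T : TD ι) (F : Finset ι) : FC T F ⊆ UC T F := by
  intro c hc
  rcases c with x | q
  · rw [mem_UC_inl]
    exact (mem_FC_inl T F x).mp hc
  · rw [mem_UC_inr]
    have := (mem_FC_inr T F q).mp hc
    exact ⟨this.1, this.2.1⟩

omit [Fintype ι] in
lemma AdmF.Q_of {T : TD ι} {F : Finset ι} (hF : AdmF T F) {x : ι} (hx : x ∈ F)
    (hp : T.par x ∉ F) : T.Qn x := by
  by_contra h
  exact hp (hF.2 x hx h)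

omit [Fintype ι] in
lemma AdmF.ne_top {T : TD ι} {F : Finset ι} (hF : AdmF T F) {x : ι} (hx : x ∈ F) :
    x ≠ T.top := fun h => hF.1 (h ▸ hx)

/-- the choice function -/
noncomputable def chc [Fintype V] (T : TD ι) (G : SimpleGraph V) (F : Finset ι) (c : ι ⊕ ι)
    (φ : ι ⊕ ι → V) : Finset V :=
  match c with
  | Sum.inl x => if T.par x ∈ F then nb G (φ (Sum.inl (T.par x))) else nb G (φ (Sum.inr x))
  | Sum.inr q => nb G (φ (Sum.inl q))

/-- the rank -/
noncomputable def rkc (T : TD ι) (F : Finset ι) (c : ι ⊕ ι) : ℕ :=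
  match c with
  | Sum.inl x => 2 * T.dp x + 1
  | Sum.inr q => if T.par q ∈ F then 2 * T.dp q + 2 else 0

omit [Fintype ι] in
lemma chc_card [Fintype V] (T : TD ι) (G : SimpleGraph V) (F : Finset ι) (D K : ℕ)
    (hG : AR G D K) (c : ι ⊕ ι) (φ : ι ⊕ ι → V) : (chc T G F c φ).card ≤ K * D := by
  rcases c with x | q
  · show (if T.par x ∈ F then nb G (φ (Sum.inl (T.par x))) else nb G (φ (Sum.inr x))).card ≤ _
    split <;> exact hG.hi _
  · exact hG.hi _

omit [Fintype ι] in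
lemma chc_dep [Fintype V] (T : TD ι) (G : SimpleGraph V) (F : Finset ι)
    (c : ι ⊕ ι) (hc : (∃ x, c = Sum.inl x ∧ (T.par x ∈ F → x ≠ T.top)) ∨
      ∃ q, c = Sum.inr q ∧ T.par q ∈ F)
    (φ ψ : ι ⊕ ι → V) (h : ∀ u, rkc T F u < rkc T F c → φ u = ψ u) :
    chc T G F c φ = chc T G F c ψ := by
  rcases hc with ⟨x, rfl, hx⟩ | ⟨q, rfl, hq⟩
  · show (if T.par x ∈ F then nb G (φ (Sum.inl (T.par x))) else nb G (φ (Sum.inr x))) =
      if T.par x ∈ F then nb G (ψ (Sum.inl (T.par x))) else nb G (ψ (Sum.inr x))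
    by_cases hp : T.par x ∈ F
    · rw [if_pos hp, if_pos hp, h (Sum.inl (T.par x)) (by
        show 2 * T.dp (T.par x) + 1 < 2 * T.dp x + 1
        have := T.dp_par x (hx hp)
        omega)]
    · rw [if_neg hp, if_neg hp, h (Sum.inr x) (by
        show (if T.par x ∈ F then 2 * T.dp x + 2 else 0) < 2 * T.dp x + 1
        rw [if_neg hp]
        omega)]
  · show nb G (φ (Sum.inl q)) = nb G (ψ (Sum.inl q))
    rw [h (Sum.inl q) (by
      show 2 * T.dp q + 1 < if T.par q ∈ F then 2 * T.dp q + 2 else 0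
      rw [if_pos hq]
      omega)]

lemma chc_mem [Fintype V] {T : TD ι} {G : SimpleGraph V} {v0 : V} {F : Finset ι} {b : ι → V}
    {φ : ι ⊕ ι → V} (hφ : Cpy T G v0 F b φ)
    (c : ι ⊕ ι) (hc : (∃ x ∈ F, c = Sum.inl x ∧ (T.par x ∉ F → T.Qn x)) ∨
      ∃ q ∈ F, T.Qn q ∧ c = Sum.inr q) :
    φ c ∈ chc T G F c φ := by
  rcases hc with ⟨x, hx, rfl, hp⟩ | ⟨q, hq, hQ, rfl⟩
  · show φ (Sum.inl x) ∈ if T.par x ∈ F then nb G (φ (Sum.inl (T.par x))) else
      nb G (φ (Sum.inr x))
    by_cases h : T.par x ∈ F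
    · rw [if_pos h, mem_nb]
      exact hφ.pr x hx h
    · rw [if_neg h, mem_nb]
      exact hφ.rt x hx (hp h)
  · show φ (Sum.inr q) ∈ nb G (φ (Sum.inl q))
    rw [mem_nb]
    exact (hφ.rt q hq hQ).symm

/-- upper bound with an arbitrary set of free coordinates -/
lemma ext_le' {κ V : Type} [Fintype κ] [Fintype V] (rk : κ → ℕ)
    (c : κ → (κ → V) → Finset V) (d : κ → ℕ) (W : Finset κ) (ψ : κ → V)
    (hc : ∀ v ∈ W, ∀ φ ψ : κ → V, (∀ u, rk u < rk v → φ u = ψ u) → c v φ = c v ψ)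
    (hd : ∀ v ∈ W, ∀ φ, (c v φ).card ≤ d v) (𝓢 : Finset (κ → V))
    (h1 : ∀ φ ∈ 𝓢, ∀ u, u ∉ W → φ u = ψ u) (h2 : ∀ φ ∈ 𝓢, ∀ v ∈ W, φ v ∈ c v φ) :
    𝓢.card ≤ ∏ v ∈ W, d v := by
  obtain ⟨S, hS⟩ : ∃ S : Finset κ, ∀ v, v ∈ S ↔ v ∉ W :=
    ⟨Finset.univ.filter (fun v => v ∉ W), fun v => by simp⟩
  have h := ext_le rk c d (Sᶜ.card) S ψ rfl
    (fun v hv => hc v (by
      by_contra h
      exact hv ((hS v).mpr h)))
    (fun v hv => hd v (by
      by_contra h
      exact hv ((hS v).mpr h)))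
  have hW : Sᶜ = W := by
    ext v
    rw [Finset.mem_compl, hS, not_not]
  rw [hW] at h
  refine (Finset.card_le_card ?_).trans h
  intro φ hφ
  rw [mem_EX]
  refine ⟨fun u hu => h1 φ hφ u ((hS u).mp hu), fun v hv => h2 φ hφ v ?_⟩
  by_contra h
  exact hv ((hS v).mpr h)

/-- the number of free coordinates outside A0 -/
noncomputable def fr (T : TD ι) (F : Finset ι) (A0 : Finset (ι ⊕ ι)) : ℕ :=
  ((FC T F).filter (fun c => c ∉ A0)).card

lemma fr_empty (T : TD ι) (F : Finset ι) : fr T F ∅ = (FC T F).card := by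
  unfold fr
  congr 1
  ext c
  simp

lemma fr_add (T : TD ι) (F : Finset ι) (A0 : Finset (ι ⊕ ι)) (h : A0 ⊆ FC T F) :
    fr T F A0 + A0.card = (FC T F).card := by
  unfold fr
  have h1 := Finset.card_filter_add_card_filter_not (s := FC T F) (fun c => c ∈ A0)
  have h2 : (FC T F).filter (fun c => c ∈ A0) = A0 := by
    ext c
    simp only [Finset.mem_filter]
    exact ⟨fun h => h.2, fun hc => ⟨h hc, hc⟩⟩
  rw [h2] at h1
  omega

lemma fr_insert (T : TD ι) (F : Finset ι) (A0 : Finset (ι ⊕ ι)) (c : ι ⊕ ι) (hc : c ∈ FC T F)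
    (hcA : c ∉ A0) : fr T F (insert c A0) + 1 = fr T F A0 := by
  unfold fr
  have h1 : (FC T F).filter (fun c' => c' ∉ A0) =
      insert c ((FC T F).filter (fun c' => c' ∉ insert c A0)) := by
    ext c'
    simp only [Finset.mem_insert, Finset.mem_filter]
    constructor
    · rintro ⟨h2, h3⟩
      by_cases h : c' = c
      · exact Or.inl h
      · exact Or.inr ⟨h2, fun h4 => h4.elim h h3⟩
    · rintro (rfl | ⟨h2, h3⟩)
      · exact ⟨hc, hcA⟩
      · exact ⟨h2, fun h4 => h3 (Or.inr h4)⟩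
  rw [h1, Finset.card_insert_of_notMem]
  simp

/-- number of copies with given base and prescribed coordinates -/
lemma ub [Fintype V] (T : TD ι) (F : Finset ι) (A0 : Finset (ι ⊕ ι))
    (hF : ∀ x ∈ F, x ≠ T.top)
    (hQ : ∀ x ∈ F, Sum.inl x ∉ A0 → T.par x ∉ F → T.Qn x) (G : SimpleGraph V) (D K : ℕ)
    (hG : AR G D K) (v0 : V) (b : ι → V) (ψ0 : ι ⊕ ι → V)
    (𝓢 : Finset (ι ⊕ ι → V)) (h1 : ∀ φ ∈ 𝓢, Cpy T G v0 F b φ)
    (h2 : ∀ φ ∈ 𝓢, ∀ c ∈ A0, φ c = ψ0 c) : 𝓢.card ≤ (K * D) ^ fr T F A0 := by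
  have h := ext_le' (rkc T F) (chc T G F) (fun _ => K * D)
    ((FC T F).filter (fun c => c ∉ A0)) (fun c => if c ∈ A0 then ψ0 c else if c ∈ UC T F then
      (match c with | Sum.inl _ => v0 | Sum.inr q => b q) else v0)
    (fun c hc φ ψ h => chc_dep T G F c (by
      rw [Finset.mem_filter] at hc
      rcases c with x | q
      · left
        exact ⟨x, rfl, fun _ => hF x ((mem_FC_inl T F x).mp hc.1)⟩
      · right
        exact ⟨q, rfl, ((mem_FC_inr T F q).mp hc.1).2.2⟩) φ ψ h)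
    (fun c _ φ => chc_card T G F D K hG c φ) 𝓢 ?_ ?_
  · rw [Finset.prod_const] at h
    exact h
  · intro φ hφ c hcS
    have hc := h1 φ hφ
    rw [Finset.mem_filter] at hcS
    by_cases hA : c ∈ A0
    · simp only [hA, if_true]
      exact h2 φ hφ c hA
    · simp only [hA, if_false]
      have hFC : c ∉ FC T F := fun h => hcS ⟨h, hA⟩
      by_cases hU : c ∈ UC T F
      · simp only [hU, if_true]
        rcases c with x | q
        · exact absurd ((mem_FC_inl T F x).mpr ((mem_UC_inl T F x).mp hU)) hFC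
        · obtain ⟨hq, hQ⟩ := (mem_UC_inr T F q).mp hU
          exact hc.bs q hq fun hp => hFC ((mem_FC_inr T F q).mpr ⟨hq, hQ, hp⟩)
      · simp only [hU, if_false]
        exact hc.df c hU
  · intro φ hφ c hcS
    have hc := h1 φ hφ
    obtain ⟨hFC, hA⟩ := Finset.mem_filter.mp hcS
    refine chc_mem hc c ?_
    rcases c with x | q
    · left
      have hx := (mem_FC_inl T F x).mp hFC
      exact ⟨x, hx, rfl, fun hp => hQ x hx hA hp⟩
    · right
      obtain ⟨hq, hQ, _⟩ := (mem_FC_inr T F q).mp hFC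
      exact ⟨q, hq, hQ, rfl⟩

/-- number of copies with two equal coordinates -/
lemma ub_eq [Fintype V] (T : TD ι) (F : Finset ι) (hF : AdmF T F) (G : SimpleGraph V) (D K : ℕ)
    (hG : AR G D K) (v0 : V) (b : ι → V) (c1 c2 : ι ⊕ ι) (hne : c1 ≠ c2) (hc2 : c2 ∈ FC T F)
    (hrk : rkc T F c1 ≤ rkc T F c2)
    (𝓢 : Finset (ι ⊕ ι → V)) (h1 : ∀ φ ∈ 𝓢, Cpy T G v0 F b φ)
    (h2 : ∀ φ ∈ 𝓢, φ c1 = φ c2) : 𝓢.card ≤ (K * D) ^ ((FC T F).card - 1) := by
  have h := ext_le' (fun c => 2 * rkc T F c + if c = c2 then 1 else 0)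
    (fun c (φ : ι ⊕ ι → V) => if c = c2 then {φ c1} else chc T G F c φ)
    (fun c => if c = c2 then 1 else K * D) (FC T F) (fun c => if c ∈ UC T F then
      (match c with | Sum.inl _ => v0 | Sum.inr q => b q) else v0)
    (fun c hc φ ψ h => by
      by_cases hcc : c = c2
      · subst hcc
        simp only [if_true]
        rw [h c1 (by simp only [if_neg hne, if_true]; omega)]
      · simp only [if_neg hcc]
        refine chc_dep T G F c ?_ φ ψ fun u hu => h u ?_
        · rcases c with x | q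
          · left
            exact ⟨x, rfl, fun _ => hF.ne_top ((mem_FC_inl T F x).mp hc)⟩
          · right
            exact ⟨q, rfl, ((mem_FC_inr T F q).mp hc).2.2⟩
        · simp only [if_neg hcc]
          split <;> omega)
    (fun c hc φ => by
      by_cases hcc : c = c2
      · simp only [if_pos hcc, Finset.card_singleton, le_refl]
      · simp only [if_neg hcc]
        exact chc_card T G F D K hG c φ) 𝓢 ?_ ?_
  · rw [← Finset.mul_prod_erase _ _ hc2, if_pos rfl, one_mul,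
      Finset.prod_congr rfl (g := fun _ => K * D)
        (fun v hv => if_neg (Finset.ne_of_mem_erase hv)), Finset.prod_const,
      Finset.card_erase_of_mem hc2] at h
    exact h
  · intro φ hφ c hcS
    have hc := h1 φ hφ
    by_cases hU : c ∈ UC T F
    · simp only [hU, if_true]
      rcases c with x | q
      · exact absurd ((mem_FC_inl T F x).mpr ((mem_UC_inl T F x).mp hU)) hcS
      · obtain ⟨hq, hQ⟩ := (mem_UC_inr T F q).mp hU
        exact hc.bs q hq fun hp => hcS ((mem_FC_inr T F q).mpr ⟨hq, hQ, hp⟩)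
    · simp only [hU, if_false]
      exact hc.df c hU
  · intro φ hφ c hcS
    have hc := h1 φ hφ
    show φ c ∈ if c = c2 then {φ c1} else chc T G F c φ
    split
    · rename_i hcc
      rw [hcc, ← h2 φ hφ]
      exact Finset.mem_singleton_self _
    · refine chc_mem hc c ?_
      rcases c with x | q
      · left
        have hx := (mem_FC_inl T F x).mp hcS
        exact ⟨x, hx, rfl, fun hp => hF.Q_of hx hp⟩
      · right
        obtain ⟨hq, hQ, _⟩ := (mem_FC_inr T F q).mp hcS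
        exact ⟨q, hq, hQ, rfl⟩

/-- fibres over a finite set of values -/
lemma card_le_fib {α β : Type} (𝓢 : Finset α) (f : α → β) (B : Finset β) (m : ℕ)
    (hf : ∀ a ∈ 𝓢, f a ∈ B) (h : ∀ y ∈ B, (𝓢.filter (fun a => f a = y)).card ≤ m) :
    𝓢.card ≤ B.card * m := by
  rw [Finset.card_eq_sum_card_fiberwise (f := f) (t := B) (fun a ha => hf a ha),
    ← smul_eq_mul, ← Finset.sum_const]
  exact Finset.sum_le_sum fun y hy => h y hy

/-- pairs with prescribed base value at a top and prescribed coordinates -/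
lemma spread0 [Fintype V] (T : TD ι) (F : Finset ι) (hF : AdmF T F) (G : SimpleGraph V) (D K : ℕ)
    (hG : AR G D K) (v0 : V) {Ω : Type} (b : Ω → ι → V) (Ωs : Finset Ω) (S : ℕ)
    (A0 : Finset (ι ⊕ ι)) (x : ι) (w : V) (hS : (Ωs.filter (fun ω => b ω x = w)).card ≤ S)
    (ψ0 : ι ⊕ ι → V)
    (𝓢 : Finset (Ω × (ι ⊕ ι → V))) (h1 : ∀ p ∈ 𝓢, p.1 ∈ Ωs ∧ Cpy T G v0 F (b p.1) p.2)
    (h2 : ∀ p ∈ 𝓢, ∀ c ∈ A0, p.2 c = ψ0 c) (h3 : ∀ p ∈ 𝓢, b p.1 x = w) :
    𝓢.card ≤ S * (K * D) ^ fr T F A0 := by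
  refine (card_le_fib 𝓢 (fun p => p.1) (Ωs.filter (fun ω => b ω x = w))
    ((K * D) ^ fr T F A0) ?_ ?_).trans (Nat.mul_le_mul_right _ hS)
  · intro p hp'
    exact Finset.mem_filter.mpr ⟨(h1 p hp').1, h3 p hp'⟩
  · intro ω _
    have h6 : (𝓢.filter (fun p => p.1 = ω)).card =
        ((𝓢.filter (fun p => p.1 = ω)).image (fun p => p.2)).card := by
      rw [Finset.card_image_of_injOn]
      intro p hp1 p' hp2 h
      have e1 := (Finset.mem_filter.mp hp1).2
      have e2 := (Finset.mem_filter.mp hp2).2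
      exact Prod.ext (by rw [e1, e2]) h
    rw [h6]
    refine ub T F A0 (fun x hx => hF.ne_top hx) (fun x hx _ hp => hF.Q_of hx hp) G D K hG v0 (b ω)
      ψ0 _ ?_ ?_
    · intro φ hφ
      obtain ⟨p, hp1, rfl⟩ := Finset.mem_image.mp hφ
      obtain ⟨hp2, hp3⟩ := Finset.mem_filter.mp hp1
      rw [← hp3]
      exact (h1 p hp2).2
    · intro φ hφ c hc
      obtain ⟨p, hp1, rfl⟩ := Finset.mem_image.mp hφ
      exact h2 p (Finset.mem_filter.mp hp1).1 c hc

/-- number of pairs (base index, copy) with prescribed coordinates -/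
lemma spread [Fintype V] (T : TD ι) (F : Finset ι) (hF : AdmF T F) (G : SimpleGraph V) (D K : ℕ)
    (hG : AR G D K) (v0 : V) {Ω : Type} (b : Ω → ι → V) (Ωs : Finset Ω) (S : ℕ)
    (hS : ∀ q ∈ F, T.par q ∉ F → ∀ w, (Ωs.filter (fun ω => b ω q = w)).card ≤ S) :
    ∀ (n : ℕ) (x : ι), x ∈ F → T.dp x ≤ n → ∀ A0 : Finset (ι ⊕ ι), A0 ⊆ FC T F →
      Sum.inl x ∈ A0 → (∀ y, Sum.inl y ∈ A0 → T.dp x ≤ T.dp y) → ∀ (ψ0 : ι ⊕ ι → V)
      (𝓢 : Finset (Ω × (ι ⊕ ι → V))), (∀ p ∈ 𝓢, p.1 ∈ Ωs ∧ Cpy T G v0 F (b p.1) p.2) →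
      (∀ p ∈ 𝓢, ∀ c ∈ A0, p.2 c = ψ0 c) →
      𝓢.card ≤ S * (K * D) ^ (fr T F A0 + 1) := by
  intro n
  induction n with
  | zero =>
    intro x hx hn A0 hA hxA hmin ψ0 𝓢 h1 h2
    -- the parent has smaller depth, so x is a top
    have hp : T.par x ∉ F := by
      intro hp
      have := T.dp_par x (hF.ne_top hx)
      omega
    have h3 := card_le_fib 𝓢 (fun p => b p.1 x) (nb G (ψ0 (Sum.inl x)))
      (S * (K * D) ^ fr T F A0) (fun p hp' => by
        rw [mem_nb, ← h2 p hp' _ hxA, ← (h1 p hp').2.bs x hx hp]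
        exact ((h1 p hp').2.rt x hx (hF.Q_of hx hp)).symm) (fun w _ =>
        spread0 T F hF G D K hG v0 b Ωs S A0 x w (hS x hx hp w) ψ0 _
          (fun p hp' => h1 p (Finset.mem_filter.mp hp').1)
          (fun p hp' => h2 p (Finset.mem_filter.mp hp').1)
          (fun p hp' => (Finset.mem_filter.mp hp').2))
    refine h3.trans ?_
    calc (nb G (ψ0 (Sum.inl x))).card * (S * (K * D) ^ fr T F A0)
        ≤ (K * D) * (S * (K * D) ^ fr T F A0) := Nat.mul_le_mul_right _ (hG.hi _)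
      _ = _ := by rw [pow_succ]; ring
  | succ n ih =>
    intro x hx hn A0 hA hxA hmin ψ0 𝓢 h1 h2
    by_cases hp : T.par x ∈ F
    · have hpA : Sum.inl (T.par x) ∉ A0 := by
        intro h
        have h3 := hmin _ h
        have := T.dp_par x (hF.ne_top hx)
        omega
      have hpFC : Sum.inl (T.par x) ∈ FC T F := (mem_FC_inl T F _).mpr hp
      have hcard := fr_insert T F A0 _ hpFC hpA
      have h3 := card_le_fib 𝓢 (fun p => p.2 (Sum.inl (T.par x))) (nb G (ψ0 (Sum.inl x)))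
        (S * (K * D) ^ (fr T F (insert (Sum.inl (T.par x)) A0) + 1)) (fun p hp' => by
          rw [mem_nb, ← h2 p hp' _ hxA]
          exact ((h1 p hp').2.pr x hx hp).symm) (fun y _ => by
          refine ih (T.par x) hp (by have := T.dp_par x (hF.ne_top hx); omega)
            (insert (Sum.inl (T.par x)) A0) (Finset.insert_subset hpFC hA)
            (Finset.mem_insert_self _ _) ?_ (fun c => if c = Sum.inl (T.par x) then y else ψ0 c) _
            ?_ ?_
          · intro z hz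
            rcases Finset.mem_insert.mp hz with h | h
            · rw [Sum.inl.inj h]
            · exact (T.dp_par x (hF.ne_top hx)).le.trans (hmin z h)
          · intro p hp'
            exact h1 p (Finset.mem_filter.mp hp').1
          · intro p hp' c hc
            obtain ⟨h4, h5⟩ := Finset.mem_filter.mp hp'
            by_cases hcc : c = Sum.inl (T.par x)
            · simp only [hcc, if_true]
              exact h5
            · simp only [hcc, if_false]
              exact h2 p h4 c ((Finset.mem_insert.mp hc).resolve_left hcc))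
      rw [hcard] at h3
      refine h3.trans ?_
      calc (nb G (ψ0 (Sum.inl x))).card * (S * (K * D) ^ fr T F A0)
          ≤ (K * D) * (S * (K * D) ^ fr T F A0) := Nat.mul_le_mul_right _ (hG.hi _)
        _ = _ := by rw [pow_succ]; ring
    · have h3 := card_le_fib 𝓢 (fun p => b p.1 x) (nb G (ψ0 (Sum.inl x)))
        (S * (K * D) ^ fr T F A0) (fun p hp' => by
          rw [mem_nb, ← h2 p hp' _ hxA, ← (h1 p hp').2.bs x hx hp]
          exact ((h1 p hp').2.rt x hx (hF.Q_of hx hp)).symm) (fun w _ =>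
          spread0 T F hF G D K hG v0 b Ωs S A0 x w (hS x hx hp w) ψ0 _
            (fun p hp' => h1 p (Finset.mem_filter.mp hp').1)
            (fun p hp' => h2 p (Finset.mem_filter.mp hp').1)
            (fun p hp' => (Finset.mem_filter.mp hp').2))
      refine h3.trans ?_
      calc (nb G (ψ0 (Sum.inl x))).card * (S * (K * D) ^ fr T F A0)
          ≤ (K * D) * (S * (K * D) ^ fr T F A0) := Nat.mul_le_mul_right _ (hG.hi _)
        _ = _ := by rw [pow_succ]; ring

/-- copies of a set with a single P-top u, prescribed coordinates -/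
lemma spreadU [Fintype V] (T : TD ι) (F : Finset ι) (u : ι) (hF : ∀ x ∈ F, x ≠ T.top)
    (hu : ∀ x ∈ F, x ≠ u → T.par x ∈ F) (G : SimpleGraph V) (D K : ℕ)
    (hG : AR G D K) (v0 : V) (b : ι → V) :
    ∀ (n : ℕ) (x : ι), x ∈ F → T.dp x ≤ n → ∀ A0 : Finset (ι ⊕ ι), A0 ⊆ FC T F →
      Sum.inl x ∈ A0 → (∀ y, Sum.inl y ∈ A0 → T.dp x ≤ T.dp y) → ∀ (ψ0 : ι ⊕ ι → V)
      (𝓢 : Finset (ι ⊕ ι → V)), (∀ φ ∈ 𝓢, Cpy T G v0 F b φ) →
      (∀ φ ∈ 𝓢, ∀ c ∈ A0, φ c = ψ0 c) →
      𝓢.card ≤ (K * D) ^ fr T F A0 := by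
  intro n
  induction n with
  | zero =>
    intro x hx hn A0 hA hxA hmin ψ0 𝓢 h1 h2
    have hxu : x = u := by
      by_contra h
      have := T.dp_par x (hF x hx)
      omega
    refine ub T F A0 hF (fun y hy hyA hp => ?_) G D K hG v0 b ψ0 𝓢 h1 h2
    by_cases hyu : y = u
    · rw [hyu, ← hxu] at hyA
      exact absurd hxA hyA
    · exact absurd (hu y hy hyu) hp
  | succ n ih =>
    intro x hx hn A0 hA hxA hmin ψ0 𝓢 h1 h2
    by_cases hxu : x = u
    · refine ub T F A0 hF (fun y hy hyA hp => ?_) G D K hG v0 b ψ0 𝓢 h1 h2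
      by_cases hyu : y = u
      · rw [hyu, ← hxu] at hyA
        exact absurd hxA hyA
      · exact absurd (hu y hy hyu) hp
    · have hp := hu x hx hxu
      have hpA : Sum.inl (T.par x) ∉ A0 := by
        intro h
        have h3 := hmin _ h
        have := T.dp_par x (hF x hx)
        omega
      have hpFC : Sum.inl (T.par x) ∈ FC T F := (mem_FC_inl T F _).mpr hp
      have hcard := fr_insert T F A0 _ hpFC hpA
      have h3 := card_le_fib 𝓢 (fun φ => φ (Sum.inl (T.par x))) (nb G (ψ0 (Sum.inl x)))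
        ((K * D) ^ fr T F (insert (Sum.inl (T.par x)) A0)) (fun φ hφ => by
          rw [mem_nb, ← h2 φ hφ _ hxA]
          exact ((h1 φ hφ).pr x hx hp).symm) (fun y _ => by
          refine ih (T.par x) hp (by have := T.dp_par x (hF x hx); omega)
            (insert (Sum.inl (T.par x)) A0) (Finset.insert_subset hpFC hA)
            (Finset.mem_insert_self _ _) ?_ (fun c => if c = Sum.inl (T.par x) then y else ψ0 c) _
            ?_ ?_
          · intro z hz
            rcases Finset.mem_insert.mp hz with h | h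
            · rw [Sum.inl.inj h]
            · exact (T.dp_par x (hF x hx)).le.trans (hmin z h)
          · intro φ hφ
            exact h1 φ (Finset.mem_filter.mp hφ).1
          · intro φ hφ c hc
            obtain ⟨h4, h5⟩ := Finset.mem_filter.mp hφ
            by_cases hcc : c = Sum.inl (T.par x)
            · simp only [hcc, if_true]
              exact h5
            · simp only [hcc, if_false]
              exact h2 φ h4 c ((Finset.mem_insert.mp hc).resolve_left hcc))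
      refine h3.trans ?_
      calc (nb G (ψ0 (Sum.inl x))).card * (K * D) ^ fr T F (insert (Sum.inl (T.par x)) A0)
          ≤ (K * D) * (K * D) ^ fr T F (insert (Sum.inl (T.par x)) A0) :=
            Nat.mul_le_mul_right _ (hG.hi _)
        _ = (K * D) ^ (fr T F (insert (Sum.inl (T.par x)) A0) + 1) := by rw [pow_succ]; ring
        _ = _ := by rw [hcard]

end Pool.Agent.TH476
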