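import Pool.Agent.TH476.EGen

set_option autoImplicit false

open Classical

namespace Pool.Agent.TH476

/-- rooted tree data with two kinds of nodes. The top is a P-node; the parent of a Q-node is a
P-node and conversely. Every Q-node q has one root, a vertex of its own; the top is the root of its
only child in the applications. -/
structure TD (ι : Type) where
  par : ι → ι
  Qn : ι → Prop
  dp : ι → ℕ
  top : ι
  topP : ¬ Qn top
  dp_par : ∀ x, x ≠ top → dp (par x) < dp x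
  alt : ∀ x, x ≠ top → (Qn x ↔ ¬ Qn (par x))

/-- psi and r form a g-good copy of the nodes in F: every Q-node is joined to its root, every node
to its parent if both are in F -/
def GoodOn {ι V : Type} (T : TD ι) (g : V → V → Prop) (F : Finset ι) (ψ r : ι → V) : Prop :=
  (∀ x ∈ F, T.Qn x → g (r x) (ψ x)) ∧
  (∀ x ∈ F, T.par x ∈ F → T.Qn x → g (ψ (T.par x)) (ψ x)) ∧
  (∀ x ∈ F, T.par x ∈ F → ¬ T.Qn x → g (ψ x) (ψ (T.par x)))

/-- L disjoint g-good copies of F with common roots; the root of a node whose parent is outside F is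
prescribed by b -/
def BUat {ι V : Type} (T : TD ι) (g : V → V → Prop) (F : Finset ι) (b : ι → V) (L : ℕ)
    (Γ : (ι → V) → Prop) (Z : Finset V) : Prop :=
  ∃ (ψ : Fin L → ι → V) (r : ι → V),
    (∀ q ∈ F, T.par q ∉ F → r q = b q) ∧
    (∀ l, GoodOn T g F (ψ l) r) ∧
    (∀ l, Γ (ψ l)) ∧
    (∀ l l' x x', x ∈ F → x' ∈ F → ψ l x = ψ l' x' → l = l' ∧ x = x') ∧
    (∀ l x q, x ∈ F → q ∈ F → T.Qn q → ψ l x ≠ r q) ∧
    (∀ q q', q ∈ F → q' ∈ F → T.Qn q → T.Qn q' → r q = r q' → q = q') ∧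
    (∀ l x, x ∈ F → ψ l x ∉ Z) ∧
    (∀ q ∈ F, T.Qn q → T.par q ∈ F → r q ∉ Z)

/-- used coordinates: inl x is the node x, inr q the root of the Q-node q -/
noncomputable def UC {ι : Type} [Fintype ι] (T : TD ι) (F : Finset ι) : Finset (ι ⊕ ι) :=
  Finset.univ.filter (fun c => (∃ x ∈ F, c = Sum.inl x) ∨ ∃ q ∈ F, T.Qn q ∧ c = Sum.inr q)

/-- free coordinates -/
noncomputable def FC {ι : Type} [Fintype ι] (T : TD ι) (F : Finset ι) : Finset (ι ⊕ ι) :=
  Finset.univ.filter (fun c => (∃ x ∈ F, c = Sum.inl x) ∨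
    ∃ q ∈ F, T.Qn q ∧ T.par q ∈ F ∧ c = Sum.inr q)

/-- admissible sets of nodes -/
def AdmF {ι : Type} (T : TD ι) (F : Finset ι) : Prop :=
  T.top ∉ F ∧ ∀ x ∈ F, ¬ T.Qn x → T.par x ∈ F

/-- copies of F in G -/
structure Cpy {ι V : Type} [Fintype ι] (T : TD ι) (G : SimpleGraph V) (v0 : V) (F : Finset ι)
    (b : ι → V) (φ : ι ⊕ ι → V) : Prop where
  rt : ∀ x ∈ F, T.Qn x → G.Adj (φ (Sum.inr x)) (φ (Sum.inl x))
  pr : ∀ x ∈ F, T.par x ∈ F → G.Adj (φ (Sum.inl (T.par x))) (φ (Sum.inl x))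
  df : ∀ c, c ∉ UC T F → φ c = v0
  bs : ∀ q ∈ F, T.par q ∉ F → φ (Sum.inr q) = b q

end Pool.Agent.TH476
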