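import Pool.Agent.TH476.Core
import Pool.Agent.W715.BC.Fin1
import Pool.Agent.W247.BC.REG

set_option autoImplicit false

open Classical

namespace Pool.Agent.TH476

/-- the bipartite subgraph between two disjoint sets -/
def BG {n : ℕ} (G : SimpleGraph (Fin n)) (U W : Finset (Fin n)) :
    SimpleGraph {v : Fin n // v ∈ U ∪ W} where
  Adj a b := G.Adj a.1 b.1 ∧ ((a.1 ∈ U ∧ b.1 ∈ W) ∨ (a.1 ∈ W ∧ b.1 ∈ U))
  symm := ⟨fun _ _ h => ⟨h.1.symm, h.2.elim (fun h => Or.inr ⟨h.2, h.1⟩) (fun h => Or.inl ⟨h.2, h.1⟩)⟩⟩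
  loopless := ⟨fun _ h => G.irrefl h.1⟩

lemma BG_nb {n : ℕ} (G : SimpleGraph (Fin n)) (U W : Finset (Fin n)) (hUW : Disjoint U W)
    (a : {v : Fin n // v ∈ U ∪ W}) :
    (a.1 ∈ U → (nb (BG G U W) a).card = (W.filter (fun w => G.Adj a.1 w)).card) ∧
    (a.1 ∈ W → (nb (BG G U W) a).card = (U.filter (fun w => G.Adj w a.1)).card) := by
  constructor
  · intro ha
    rw [← Finset.card_map (Function.Embedding.subtype _)]
    congr 1
    ext v
    simp only [Finset.mem_map, mem_nb, Function.Embedding.coe_subtype, Finset.mem_filter]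
    constructor
    · rintro ⟨b, ⟨h1, h2⟩, rfl⟩
      rcases h2 with h2 | h2
      · exact ⟨h2.2, h1⟩
      · exact absurd h2.1 (Finset.disjoint_left.mp hUW ha)
    · rintro ⟨h1, h2⟩
      exact ⟨⟨v, Finset.mem_union_right _ h1⟩, ⟨h2, Or.inl ⟨ha, h1⟩⟩, rfl⟩
  · intro ha
    rw [← Finset.card_map (Function.Embedding.subtype _)]
    congr 1
    ext v
    simp only [Finset.mem_map, mem_nb, Function.Embedding.coe_subtype, Finset.mem_filter]
    constructor
    · rintro ⟨b, ⟨h1, h2⟩, rfl⟩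
      rcases h2 with h2 | h2
      · exact absurd ha (Finset.disjoint_left.mp hUW h2.1)
      · exact ⟨h2.2, h1.symm⟩
    · rintro ⟨h1, h2⟩
      exact ⟨⟨v, Finset.mem_union_left _ h1⟩, ⟨h2.symm, Or.inr ⟨ha, h1⟩⟩, rfl⟩

lemma TB_BG {n : ℕ} (G : SimpleGraph (Fin n)) (U W : Finset (Fin n)) (g q t : ℕ)
    (h : TB (BG G U W) g q t) : TB G g q t := by
  obtain ⟨φ, F, h1, h2, h3⟩ := h
  refine ⟨fun v => (φ v).1, fun i v => (F i v).1, ?_, ?_, ?_⟩
  · intro i
    exact ⟨fun u v huv => ((h1 i).1 u v huv).1, fun u v huv => (h1 i).2 (Subtype.ext huv)⟩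
  · intro i u hu
    exact congrArg Subtype.val (h2 i u hu)
  · intro i j hij u hu v hv h
    exact h3 i j hij u hu v hv (Subtype.ext h)

/-- the upper bound -/
theorem upper (g q t : ℕ) (hg : 0 < g) (hq : 0 < q) (ht : 0 < t) :
    ∃ C : ℝ, ∀ n : ℕ, ∀ G : SimpleGraph (Fin n), ¬ TB G g q t →
      (G.edgeSet.ncard : ℝ) ≤
        C * (n : ℝ) ^ (2 - ((1 + g + g * q : ℕ) : ℝ) / ((1 + g + 2 * (g * q) : ℕ) : ℝ)) := by
  have hgq : 0 < g * q := Nat.mul_pos hg hq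
  obtain ⟨b, hb⟩ : ∃ b, b = 1 + g + 2 * (g * q) := ⟨_, rfl⟩
  obtain ⟨ε, hε⟩ : ∃ ε : ℝ, ε = ((g * q : ℕ) : ℝ) / (b : ℝ) := ⟨_, rfl⟩
  have hbpos : (0 : ℝ) < b := by
    have : 0 < b := by omega
    exact_mod_cast this
  have hgqR : (0 : ℝ) < ((g * q : ℕ) : ℝ) := by exact_mod_cast hgq
  have hε0 : 0 < ε := by rw [hε]; positivity
  have hε1 : ε < 1 := by
    rw [hε, div_lt_one hbpos]
    exact_mod_cast (by omega : g * q < b)
  have hexp : (2 - ((1 + g + g * q : ℕ) : ℝ) / ((1 + g + 2 * (g * q) : ℕ) : ℝ)) = 1 + ε := by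
    rw [← hb, hε]
    have h1 : ((1 + g + g * q : ℕ) : ℝ) = (b : ℝ) - ((g * q : ℕ) : ℝ) := by
      rw [eq_sub_iff_add_eq]
      exact_mod_cast (by omega : 1 + g + g * q + g * q = b)
    rw [h1]
    field_simp
    ring
  rw [hexp]
  obtain ⟨K, hK, hreg⟩ := Pool.Agent.W247.BC.reg_holds ε hε0 hε1
  obtain ⟨C0, hcore⟩ := core K g q t hK hg hq ht
  obtain ⟨C', hC'⟩ := hreg (max (C0 : ℝ) 1)
  refine ⟨C', fun n G hno => ?_⟩
  by_contra hcon
  push Not at hcon
  obtain ⟨U, W, D, hUW, hU, hW, hD, hdU, hdW⟩ := hC' n G hcon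
  apply hno
  apply TB_BG G U W
  have hN : (1 : ℝ) ≤ ((U.card + W.card : ℕ) : ℝ) := by
    have := hU.card_pos
    exact_mod_cast (by omega : 1 ≤ U.card + W.card)
  have hC1 : (1 : ℝ) ≤ max (C0 : ℝ) 1 := le_max_right _ _
  have hC0 : (C0 : ℝ) ≤ max (C0 : ℝ) 1 := le_max_left _ _
  have hne : Nonempty {v : Fin n // v ∈ U ∪ W} := by
    obtain ⟨u, hu⟩ := hU
    exact ⟨⟨u, Finset.mem_union_left _ hu⟩⟩
  have hcard : Fintype.card {v : Fin n // v ∈ U ∪ W} = U.card + W.card := by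
    rw [Fintype.card_coe, Finset.card_union_of_disjoint hUW]
  have hAR : AR (BG G U W) D K := by
    constructor
    · intro v
      rcases Finset.mem_union.mp v.2 with h | h
      · rw [(BG_nb G U W hUW v).1 h]
        exact (hdU v.1 h).1
      · rw [(BG_nb G U W hUW v).2 h]
        exact (hdW v.1 h).1
    · intro v
      rcases Finset.mem_union.mp v.2 with h | h
      · rw [(BG_nb G U W hUW v).1 h]
        exact (hdU v.1 h).2
      · rw [(BG_nb G U W hUW v).2 h]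
        exact (hdW v.1 h).2
  refine hcore _ (BG G U W) D hAR ?_ ?_
  · have := Pool.Agent.W715.BC.pow_ineq (max (C0 : ℝ) 1) _ D ε hC1 hN hD 1 0 le_rfl
      (by simpa using hε0.le)
    rw [pow_zero, mul_one, pow_one] at this
    exact_mod_cast hC0.trans this
  · have h1 := Pool.Agent.W715.BC.pow_ineq (max (C0 : ℝ) 1) _ D ε hC1 hN hD b (g * q) (by omega)
      (by rw [hε, div_mul_cancel₀ _ hbpos.ne'])
    have h2 : (C0 : ℝ) * ((U.card + W.card : ℕ) : ℝ) ^ (g * q) ≤ (D : ℝ) ^ b :=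
      (mul_le_mul_of_nonneg_right hC0 (by positivity)).trans h1
    have h3 : C0 * (U.card + W.card) ^ (g * q) ≤ D ^ b := by exact_mod_cast h2
    rw [hcard, ← hb, pow_add, pow_one]
    calc C0 * ((U.card + W.card) * (U.card + W.card) ^ (g * q)) =
        (U.card + W.card) * (C0 * (U.card + W.card) ^ (g * q)) := by ring
      _ ≤ (U.card + W.card) * D ^ b := Nat.mul_le_mul_left _ h3

end Pool.Agent.TH476
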