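import Pool.Agent.TH476.GStm2

set_option autoImplicit false

open Classical

namespace Pool.Agent.TH476.GRed

open Pool.Agent.TH476

section tree

variable {ι : Type} (T : TD ι)

lemma mem_Dsc (U : Finset ι) (u x : ι) : x ∈ Dsc T U u ↔ x ∈ U ∧ DscR T u x := by
  unfold Dsc
  rw [Finset.mem_filter]

lemma dscR_dp {u x : ι} (h : DscR T u x) : T.dp u ≤ T.dp x := by
  induction h with
  | refl => exact le_rfl
  | step x hx _ ih => exact ih.trans (T.dp_par x hx).le

lemma dscR_par {u x : ι} (h : DscR T u x) (hne : x ≠ u) :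
    x ≠ T.top ∧ DscR T u (T.par x) := by
  cases h with
  | refl => exact absurd rfl hne
  | step _ hx h => exact ⟨hx, h⟩

lemma not_dscR_par {u : ι} (hu : u ≠ T.top) : ¬ DscR T u (T.par u) := by
  intro h
  have h1 := dscR_dp T h
  have h2 := T.dp_par u hu
  omega

lemma not_dscR_top {u : ι} (hu : u ≠ T.top) : ¬ DscR T u T.top := by
  intro h
  exact (dscR_par T h (Ne.symm hu)).1 rfl

end tree

/-- among many pairwise disjoint sets one avoids a given small set -/
lemma avoidJ {κ V : Type} [Nonempty V] (J : Finset κ) (A : κ → Finset V)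
    (hA : ∀ i j, i ≠ j → Disjoint (A i) (A j)) (Z : Finset V) (hZ : Z.card < J.card) :
    ∃ j ∈ J, Disjoint (A j) Z := by
  by_contra hcon
  push Not at hcon
  have h1 : ∀ j ∈ J, ∃ z, z ∈ A j ∧ z ∈ Z := fun j hj => Finset.not_disjoint_iff.mp (hcon j hj)
  choose! z hz1 hz2 using h1
  obtain ⟨a, ha, b, hb, hne, hab⟩ := Finset.exists_ne_map_eq_of_card_lt_of_maps_to hZ (f := z) hz2
  exact Finset.disjoint_left.mp (hA a b hne) (hz1 a ha) (hab ▸ hz1 b hb)

/-- double counting -/
lemma bigset {V : Type} (N : Finset V) (m M Q K D : ℕ) (Y : Fin m → Finset V)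
    (hY : ∀ j, Y j ⊆ N) (hN : N.card ≤ K * D) (hQ : 0 < Q) (hK : 0 < K) (hM : 0 < M)
    (hm : m = 2 * Q * K * M) (hYc : ∀ j, D ≤ Q * (Y j).card) :
    D ≤ 2 * Q * (N.filter (fun y => M ≤ (Finset.univ.filter (fun j => y ∈ Y j)).card)).card := by
  have h1 : ∑ j : Fin m, (Y j).card = ∑ y ∈ N, (Finset.univ.filter (fun j => y ∈ Y j)).card := by
    have h2 : ∀ j, (Y j).card = ∑ y ∈ N, if y ∈ Y j then 1 else 0 := by
      intro j
      rw [Finset.sum_ite_mem, Finset.inter_eq_right.mpr (hY j)]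
      simp
    have h3 : ∀ y ∈ N, (Finset.univ.filter (fun j => y ∈ Y j)).card =
        ∑ j : Fin m, if y ∈ Y j then 1 else 0 := by
      intro y _
      rw [Finset.card_filter]
    rw [Finset.sum_congr rfl h3, Finset.sum_comm]
    exact Finset.sum_congr rfl fun j _ => h2 j
  obtain ⟨B, hB⟩ : ∃ B, B = N.filter (fun y =>
    M ≤ (Finset.univ.filter (fun j => y ∈ Y j)).card) := ⟨_, rfl⟩
  have h4 : ∑ y ∈ N, (Finset.univ.filter (fun j => y ∈ Y j)).card ≤ B.card * m + N.card * M := by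
    have h5 : ∀ y ∈ N, (Finset.univ.filter (fun j => y ∈ Y j)).card ≤
        (if M ≤ (Finset.univ.filter (fun j => y ∈ Y j)).card then m else 0) + M := by
      intro y _
      split_ifs with h
      · have := Finset.card_le_univ (Finset.univ.filter (fun j => y ∈ Y j))
        rw [Fintype.card_fin] at this
        omega
      · omega
    refine (Finset.sum_le_sum h5).trans ?_
    rw [Finset.sum_add_distrib, ← Finset.sum_filter, ← hB, Finset.sum_const, Finset.sum_const,
      smul_eq_mul, smul_eq_mul]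
  have h6 : m * D ≤ Q * (B.card * m + N.card * M) := by
    refine le_trans ?_ (Nat.mul_le_mul_left Q h4)
    rw [← h1, Finset.mul_sum]
    calc m * D = ∑ _j : Fin m, D := by rw [Finset.sum_const, smul_eq_mul, Finset.card_univ,
          Fintype.card_fin]
      _ ≤ _ := Finset.sum_le_sum fun j _ => hYc j
  rw [← hB]
  have hmpos : 0 < m := by
    rw [hm]
    positivity
  have h7 : 2 * (Q * (N.card * M)) ≤ m * D := by
    calc 2 * (Q * (N.card * M)) ≤ 2 * (Q * (K * D * M)) := by gcongr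
      _ = m * D := by rw [hm]; ring
  have h8 : m * D ≤ m * (2 * Q * B.card) := by
    have h9 : Q * (B.card * m + N.card * M) = Q * (B.card * m) + Q * (N.card * M) := by ring
    have h10 : m * (2 * Q * B.card) = 2 * (Q * (B.card * m)) := by ring
    rw [h9] at h6
    rw [h10]
    omega
  exact Nat.le_of_mul_le_mul_left h8 hmpos

/-- pigeonhole over the sets of indices -/
lemma pigJ {V : Type} (N : Finset V) (m M Q D : ℕ) (Y : Fin m → Finset V) (hD : 0 < D)
    (hB : D ≤ 2 * Q * (N.filter (fun y =>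
      M ≤ (Finset.univ.filter (fun j => y ∈ Y j)).card)).card) :
    ∃ J : Finset (Fin m), M ≤ J.card ∧
      D ≤ 2 * Q * 2 ^ m * (N.filter (fun y => ∀ j ∈ J, y ∈ Y j)).card := by
  by_contra hcon
  push Not at hcon
  obtain ⟨B, hBd⟩ : ∃ B, B = N.filter (fun y =>
    M ≤ (Finset.univ.filter (fun j => y ∈ Y j)).card) := ⟨_, rfl⟩
  rw [← hBd] at hB
  have h1 := Finset.card_eq_sum_card_fiberwise (s := B)
    (f := fun y => (Finset.univ.filter (fun j => y ∈ Y j) : Finset (Fin m)))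
    (t := (Finset.univ : Finset (Finset (Fin m)))) (fun _ _ => Finset.mem_coe.mpr (Finset.mem_univ _))
  have h2 : ∀ J : Finset (Fin m), 2 * Q * 2 ^ m *
      (B.filter (fun y => (Finset.univ.filter (fun j => y ∈ Y j)) = J)).card < D := by
    intro J
    rcases Finset.eq_empty_or_nonempty
      (B.filter (fun y => (Finset.univ.filter (fun j => y ∈ Y j)) = J)) with h | ⟨y, hy⟩
    · rw [h]
      simpa using hD
    · have hy' := Finset.mem_filter.mp hy
      have hyB : M ≤ J.card := by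
        have h3 := hy'.1
        rw [hBd, Finset.mem_filter, hy'.2] at h3
        exact h3.2
      refine lt_of_le_of_lt (Nat.mul_le_mul_left _ (Finset.card_le_card ?_)) (hcon J hyB)
      intro z hz
      have hz' := Finset.mem_filter.mp hz
      rw [Finset.mem_filter]
      refine ⟨?_, fun j hj => ?_⟩
      · have h3 := hz'.1
        rw [hBd, Finset.mem_filter] at h3
        exact h3.1
      · rw [← hz'.2, Finset.mem_filter] at hj
        exact hj.2
  have h3 : 2 * Q * 2 ^ m * B.card < 2 ^ m * D := by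
    rw [h1, Finset.mul_sum]
    calc _ < ∑ _J : Finset (Fin m), D :=
          Finset.sum_lt_sum_of_nonempty Finset.univ_nonempty fun J _ => h2 J
      _ = 2 ^ m * D := by
          rw [Finset.sum_const, smul_eq_mul, Finset.card_univ, Fintype.card_finset,
            Fintype.card_fin]
  have h4 : 2 ^ m * D ≤ 2 ^ m * (2 * Q * B.card) := Nat.mul_le_mul_left _ hB
  have h5 : 2 ^ m * (2 * Q * B.card) = 2 * Q * 2 ^ m * B.card := by ring
  omega

/-- disjoint systems of roots at a popular vertex -/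
lemma pop_roots {ι V : Type} [Fintype ι] [Fintype V] (T : TD ι) (g : V → V → Prop)
    (E : Finset ι) (u : ι) (L' ζ Q D m : ℕ) (w : V) (h : PopW T g E u L' ζ Q D w)
    (hζ : m * Fintype.card ι ≤ ζ) :
    ∃ ρ : Fin m → ι → V,
      (∀ j, ∀ q ∈ E, ∀ q' ∈ E, T.Qn q → T.Qn q' → ρ j q = ρ j q' → q = q') ∧
      (∀ j, D ≤ Q * (Finset.univ.filter (fun y => g w y ∧ RichAt T g E u L' y (ρ j))).card) ∧
      ∀ i j, i ≠ j → Disjoint ((E.filter (fun q => T.Qn q)).image (ρ i))
        ((E.filter (fun q => T.Qn q)).image (ρ j)) := by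
  obtain ⟨ρ, h1, -, h3⟩ := greedy (κ := Fin m) (α := ι → V) (V := V)
    (fun _ ρ => (E.filter (fun q => T.Qn q)).image ρ) (Fintype.card ι)
    (fun _ ρ => (∀ q ∈ E, ∀ q' ∈ E, T.Qn q → T.Qn q' → ρ q = ρ q' → q = q') ∧
      D ≤ Q * (Finset.univ.filter (fun y => g w y ∧ RichAt T g E u L' y ρ)).card) ∅
    (fun _ ρ _ => Finset.card_image_le.trans (Finset.card_le_univ _))
    (fun _ Z hZ => by
      rw [Finset.card_empty, zero_add, Fintype.card_fin] at hZ
      obtain ⟨ρ, h1, h2, h3⟩ := h Z (hZ.trans hζ)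
      refine ⟨ρ, ⟨h1, h3⟩, ?_⟩
      rw [Finset.disjoint_left]
      intro a ha
      obtain ⟨q, hq, rfl⟩ := Finset.mem_image.mp ha
      rw [Finset.mem_filter] at hq
      exact h2 q hq.1 hq.2)
  exact ⟨ρ, fun j => (h1 j).1, fun j => (h1 j).2, h3⟩

/-- the neighbours of a popular vertex rich for many systems of roots -/
lemma pop_X {ι V : Type} [Fintype ι] [Fintype V] (T : TD ι) (g : V → V → Prop)
    (E : Finset ι) (u : ι) (L' ζ Q K D m M : ℕ) (w : V) (h : PopW T g E u L' ζ Q D w)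
    (hζ : m * Fintype.card ι ≤ ζ) (hN : (Finset.univ.filter (fun y => g w y)).card ≤ K * D)
    (hQ : 0 < Q) (hK : 0 < K) (hM : 0 < M) (hD : 0 < D) (hm : m = 2 * Q * K * M) :
    ∃ (ρ : Fin m → ι → V) (J : Finset (Fin m)) (X : Finset V), M ≤ J.card ∧
      (∀ j, ∀ q ∈ E, ∀ q' ∈ E, T.Qn q → T.Qn q' → ρ j q = ρ j q' → q = q') ∧
      (∀ i j, i ≠ j → Disjoint ((E.filter (fun q => T.Qn q)).image (ρ i))
        ((E.filter (fun q => T.Qn q)).image (ρ j))) ∧
      (∀ y ∈ X, g w y ∧ ∀ j ∈ J, RichAt T g E u L' y (ρ j)) ∧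
      D ≤ 2 * Q * 2 ^ m * X.card := by
  obtain ⟨ρ, h1, h2, h3⟩ := pop_roots T g E u L' ζ Q D m w h hζ
  have h4 := bigset (Finset.univ.filter (fun y => g w y)) m M Q K D
    (fun j => Finset.univ.filter (fun y => g w y ∧ RichAt T g E u L' y (ρ j)))
    (fun j y hy => by
      rw [Finset.mem_filter] at hy ⊢
      exact ⟨hy.1, hy.2.1⟩) hN hQ hK hM hm h2
  obtain ⟨J, hJ1, hJ2⟩ := pigJ _ m M Q D _ hD h4
  refine ⟨ρ, J, _, hJ1, h1, h3, ?_, hJ2⟩
  intro y hy
  rw [Finset.mem_filter] at hy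
  refine ⟨(Finset.mem_filter.mp hy.1).2, fun j hj => ?_⟩
  exact (Finset.mem_filter.mp (hy.2 j hj)).2.2

/-- from copies of the smaller tree to copies of the whole tree -/
lemma transfer {ι V : Type} [Fintype ι] [Nonempty V] (T : TD ι) (g g' : V → V → Prop)
    (U : Finset ι) (u : ι) (hU : AncC T U) (huU : u ∈ U) (hut : u ≠ T.top) (huQ : ¬ T.Qn u)
    (L L' m M : ℕ) (hL : 0 < L) (hM : (L + 1) * Fintype.card ι < M)
    (hL' : (2 * L + 2) * Fintype.card ι < L') (hg : ∀ w y, g' w y → g w y)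
    (ρ : V → Fin m → ι → V) (J : V → Finset (Fin m))
    (hJ : ∀ w y, g' w y → M ≤ (J w).card)
    (hinj : ∀ w y, g' w y → ∀ j, ∀ q ∈ Dsc T U u, ∀ q' ∈ Dsc T U u, T.Qn q → T.Qn q' →
      ρ w j q = ρ w j q' → q = q')
    (hdis : ∀ w y, g' w y → ∀ i j, i ≠ j →
      Disjoint (((Dsc T U u).filter (fun q => T.Qn q)).image (ρ w i))
        (((Dsc T U u).filter (fun q => T.Qn q)).image (ρ w j)))
    (hrich : ∀ w y, g' w y → ∀ j ∈ J w, RichAt T g (Dsc T U u) u L' y (ρ w j)) (w0 : V)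
    (hBU : BUat T g' ((U \ Dsc T U u).erase T.top) (fun _ => w0) L (fun _ => True) ∅) :
    BUat T g (U.erase T.top) (fun _ => w0) L (fun _ => True) ∅ := by
  obtain ⟨E, hE⟩ : ∃ E, E = Dsc T U u := ⟨_, rfl⟩
  rw [← hE] at hinj hdis hrich hBU
  have memE : ∀ x, x ∈ E ↔ x ∈ U ∧ DscR T u x := fun x => by
    rw [hE]
    exact mem_Dsc T U u x
  obtain ⟨U', hU'⟩ : ∃ U', U' = (U \ E).erase T.top := ⟨_, rfl⟩
  rw [← hU'] at hBU
  have memU' : ∀ x, x ∈ U' ↔ x ≠ T.top ∧ x ∈ U ∧ x ∉ E := fun x => by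
    rw [hU', Finset.mem_erase, Finset.mem_sdiff]
  have htopE : T.top ∉ E := fun h => not_dscR_top T hut ((memE _).mp h).2
  have memF : ∀ x, x ∈ U.erase T.top ↔ x ∈ E ∨ x ∈ U' := by
    intro x
    rw [Finset.mem_erase, memU']
    constructor
    · rintro ⟨h1, h2⟩
      by_cases h : x ∈ E
      · exact Or.inl h
      · exact Or.inr ⟨h1, h2, h⟩
    · rintro (h | h)
      · exact ⟨fun h' => htopE (h' ▸ h), ((memE x).mp h).1⟩
      · exact ⟨h.1, h.2.1⟩
  have hEne : ∀ x ∈ E, x ≠ T.top := fun x hx h => htopE (h ▸ hx)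
  have hUE : ∀ x ∈ U', x ∉ E := fun x hx => ((memU' x).mp hx).2.2
  have huE : u ∈ E := (memE u).mpr ⟨huU, DscR.refl⟩
  have hparE : ∀ x ∈ E, x ≠ u → T.par x ∈ E := by
    intro x hx hne
    have h1 := (memE x).mp hx
    have h2 := dscR_par T h1.2 hne
    exact (memE _).mpr ⟨hU x h1.1 h2.1, h2.2⟩
  have hparU : ∀ x ∈ U', T.par x ∉ E := by
    intro x hx h
    have h1 := (memU' x).mp hx
    exact h1.2.2 ((memE x).mpr ⟨h1.2.1, DscR.step x h1.1 ((memE _).mp h).2⟩)
  obtain ⟨v, hv⟩ : ∃ v, v = T.par u := ⟨_, rfl⟩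
  have hvQ : T.Qn v := by
    rw [hv]
    by_contra h
    exact huQ ((T.alt u hut).mpr h)
  have hvt : v ≠ T.top := fun h => T.topP (h ▸ hvQ)
  have hvE : v ∉ E := fun h => not_dscR_par T hut (hv ▸ ((memE v).mp h).2)
  have hvU' : v ∈ U' := (memU' v).mpr ⟨hvt, hv ▸ hU u huU hut, hvE⟩
  obtain ⟨ψ, r, b1, b2, -, b4, b5, b6, -, -⟩ := hBU
  have hgv : ∀ l, g' (r v) (ψ l v) := fun l => (b2 l).1 v hvU' hvQ
  obtain ⟨Used, hUsed⟩ : ∃ Used : Finset V, Used =
    ((Finset.univ : Finset (Fin L)) ×ˢ U').image (fun p => ψ p.1 p.2) ∪ U'.image r := ⟨_, rfl⟩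
  have hUc : Used.card ≤ (L + 1) * Fintype.card ι := by
    rw [hUsed]
    refine (Finset.card_union_le _ _).trans ?_
    have h1 : (((Finset.univ : Finset (Fin L)) ×ˢ U').image (fun p => ψ p.1 p.2)).card ≤
        L * Fintype.card ι := by
      refine Finset.card_image_le.trans ?_
      rw [Finset.card_product, Finset.card_univ, Fintype.card_fin]
      exact Nat.mul_le_mul_left _ (Finset.card_le_univ _)
    have h2 : (U'.image r).card ≤ Fintype.card ι :=
      Finset.card_image_le.trans (Finset.card_le_univ _)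
    calc _ ≤ L * Fintype.card ι + Fintype.card ι := Nat.add_le_add h1 h2
      _ = _ := by ring
  have hUψ : ∀ l, ∀ x ∈ U', ψ l x ∈ Used := by
    intro l x hx
    rw [hUsed]
    exact Finset.mem_union_left _ (Finset.mem_image.mpr
      ⟨(l, x), Finset.mem_product.mpr ⟨Finset.mem_univ _, hx⟩, rfl⟩)
  have hUr : ∀ x ∈ U', r x ∈ Used := by
    intro x hx
    rw [hUsed]
    exact Finset.mem_union_right _ (Finset.mem_image.mpr ⟨x, hx, rfl⟩)
  have hg0 := hgv ⟨0, hL⟩
  obtain ⟨j, hj, hjd⟩ := avoidJ (J (r v))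
    (fun i => (E.filter (fun q => T.Qn q)).image (ρ (r v) i)) (hdis _ _ hg0) Used
    (lt_of_lt_of_le (lt_of_le_of_lt hUc hM) (hJ _ _ hg0))
  obtain ⟨ρ0, hρ0⟩ : ∃ ρ0, ρ0 = ρ (r v) j := ⟨_, rfl⟩
  have hρU : ∀ q ∈ E, T.Qn q → ρ0 q ∉ Used := by
    intro q hq hqQ
    rw [Finset.disjoint_left] at hjd
    refine hjd (Finset.mem_image.mpr ⟨q, Finset.mem_filter.mpr ⟨hq, hqQ⟩, ?_⟩)
    rw [hρ0]
  have hρi : ∀ q ∈ E, ∀ q' ∈ E, T.Qn q → T.Qn q' → ρ0 q = ρ0 q' → q = q' := by
    rw [hρ0]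
    exact hinj _ _ hg0 j
  have hRich : ∀ l, RichAt T g E u L' (ψ l v) ρ0 := by
    intro l
    rw [hρ0]
    exact hrich _ _ (hgv l) j hj
  obtain ⟨a, a1, a2, a3⟩ := greedy (κ := Fin L) (α := ι → V) (V := V)
    (fun _ a => E.image a) (Fintype.card ι)
    (fun l a => GoodOn T g E a ρ0 ∧ g (a u) (ψ l v) ∧
      ∀ x ∈ E, ∀ x' ∈ E, a x = a x' → x = x') (Used ∪ E.image ρ0)
    (fun _ a _ => Finset.card_image_le.trans (Finset.card_le_univ _))
    (fun l Z hZ => by
      rw [Fintype.card_fin] at hZ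
      obtain ⟨α, c1, c2, c3⟩ := hRich l
      have h1 : (Used ∪ E.image ρ0).card ≤ (L + 1) * Fintype.card ι + Fintype.card ι :=
        (Finset.card_union_le _ _).trans (Nat.add_le_add hUc
          (Finset.card_image_le.trans (Finset.card_le_univ _)))
      have h2 : Z.card < L' := by
        refine lt_of_le_of_lt (hZ.trans (Nat.add_le_add_right h1 _)) ?_
        calc (L + 1) * Fintype.card ι + Fintype.card ι + L * Fintype.card ι
            = (2 * L + 2) * Fintype.card ι := by ring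
          _ < L' := hL'
      obtain ⟨i, hi⟩ := avoid (fun i => E.image (α i)) (by
        intro i i' hne
        rw [Finset.disjoint_left]
        intro z hz hz'
        obtain ⟨x, hx, rfl⟩ := Finset.mem_image.mp hz
        obtain ⟨x', hx', hxx⟩ := Finset.mem_image.mp hz'
        exact hne (c3 i' i x' x hx' hx hxx).1.symm) Z h2
      exact ⟨α i, ⟨c1 i, c2 i, fun x hx x' hx' h => (c3 i i x x' hx hx' h).2⟩, hi⟩)
  have a2' : ∀ l, ∀ x ∈ E, a l x ∉ Used ∧ ∀ q ∈ E, a l x ≠ ρ0 q := by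
    intro l x hx
    have h1 := Finset.disjoint_left.mp (a2 l) (Finset.mem_image.mpr ⟨x, hx, rfl⟩)
    rw [Finset.mem_union, not_or] at h1
    exact ⟨h1.1, fun q hq h => h1.2 (Finset.mem_image.mpr ⟨q, hq, h.symm⟩)⟩
  have a3' : ∀ l l' x x', x ∈ E → x' ∈ E → a l x = a l' x' → l = l' ∧ x = x' := by
    intro l l' x x' hx hx' h
    by_cases hll : l = l'
    · subst hll
      exact ⟨rfl, (a1 l).2.2 x hx x' hx' h⟩
    · exact absurd (Finset.mem_image.mpr ⟨x', hx', h.symm⟩)
        (Finset.disjoint_left.mp (a3 l l' hll) (Finset.mem_image.mpr ⟨x, hx, rfl⟩))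
  refine ⟨fun l x => if x ∈ E then a l x else ψ l x, fun x => if x ∈ E then ρ0 x else r x,
    ?_, ?_, fun _ => trivial, ?_, ?_, ?_, fun _ _ _ => Finset.notMem_empty _,
    fun _ _ _ _ => Finset.notMem_empty _⟩
  · -- base
    intro q hq hpar
    rcases (memF q).mp hq with h | h
    · exfalso
      by_cases hqu : q = u
      · subst hqu
        exact hpar ((memF _).mpr (Or.inr (hv ▸ hvU')))
      · exact hpar ((memF _).mpr (Or.inl (hparE q h hqu)))
    · show (if q ∈ E then ρ0 q else r q) = w0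
      rw [if_neg (hUE q h)]
      exact b1 q h (fun h' => hpar ((memF _).mpr (Or.inr h')))
  · -- good
    intro l
    refine ⟨?_, ?_, ?_⟩
    · intro x hx hxQ
      show g (if x ∈ E then ρ0 x else r x) (if x ∈ E then a l x else ψ l x)
      rcases (memF x).mp hx with h | h
      · rw [if_pos h, if_pos h]
        exact (a1 l).1.1 x h hxQ
      · rw [if_neg (hUE x h), if_neg (hUE x h)]
        exact hg _ _ ((b2 l).1 x h hxQ)
    · intro x hx hpx hxQ
      show g (if T.par x ∈ E then a l (T.par x) else ψ l (T.par x))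
        (if x ∈ E then a l x else ψ l x)
      rcases (memF x).mp hx with h | h
      · have hne : x ≠ u := fun h' => huQ (h' ▸ hxQ)
        rw [if_pos h, if_pos (hparE x h hne)]
        exact (a1 l).1.2.1 x h (hparE x h hne) hxQ
      · rw [if_neg (hUE x h), if_neg (hparU x h)]
        exact hg _ _ ((b2 l).2.1 x h (((memF _).mp hpx).resolve_left (hparU x h)) hxQ)
    · intro x hx hpx hxQ
      show g (if x ∈ E then a l x else ψ l x)
        (if T.par x ∈ E then a l (T.par x) else ψ l (T.par x))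
      rcases (memF x).mp hx with h | h
      · by_cases hne : x = u
        · subst hne
          rw [if_pos h, ← hv, if_neg hvE]
          exact (a1 l).2.1
        · rw [if_pos h, if_pos (hparE x h hne)]
          exact (a1 l).1.2.2 x h (hparE x h hne) hxQ
      · rw [if_neg (hUE x h), if_neg (hparU x h)]
        exact hg _ _ ((b2 l).2.2 x h (((memF _).mp hpx).resolve_left (hparU x h)) hxQ)
  · -- disjoint copies
    intro l l' x x' hx hx' h
    change (if x ∈ E then a l x else ψ l x) = (if x' ∈ E then a l' x' else ψ l' x') at h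
    rcases (memF x).mp hx with h1 | h1
    · rw [if_pos h1] at h
      rcases (memF x').mp hx' with h2 | h2
      · rw [if_pos h2] at h
        exact a3' l l' x x' h1 h2 h
      · rw [if_neg (hUE x' h2)] at h
        exact absurd (h ▸ hUψ l' x' h2) (a2' l x h1).1
    · rw [if_neg (hUE x h1)] at h
      rcases (memF x').mp hx' with h2 | h2
      · rw [if_pos h2] at h
        exact absurd (h ▸ hUψ l x h1) (a2' l' x' h2).1
      · rw [if_neg (hUE x' h2)] at h
        exact b4 l l' x x' h1 h2 h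
  · -- no copy meets the roots
    intro l x q hx hq hqQ
    show (if x ∈ E then a l x else ψ l x) ≠ (if q ∈ E then ρ0 q else r q)
    rcases (memF x).mp hx with h1 | h1
    · rw [if_pos h1]
      rcases (memF q).mp hq with h2 | h2
      · rw [if_pos h2]
        exact (a2' l x h1).2 q h2
      · rw [if_neg (hUE q h2)]
        intro h
        exact (a2' l x h1).1 (h ▸ hUr q h2)
    · rw [if_neg (hUE x h1)]
      rcases (memF q).mp hq with h2 | h2
      · rw [if_pos h2]
        intro h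
        exact hρU q h2 hqQ (h ▸ hUψ l x h1)
      · rw [if_neg (hUE q h2)]
        exact b5 l x q h1 h2 hqQ
  · -- roots distinct
    intro q q' hq hq' hqQ hqQ' h
    change (if q ∈ E then ρ0 q else r q) = (if q' ∈ E then ρ0 q' else r q') at h
    rcases (memF q).mp hq with h1 | h1
    · rw [if_pos h1] at h
      rcases (memF q').mp hq' with h2 | h2
      · rw [if_pos h2] at h
        exact hρi q h1 q' h2 hqQ hqQ' h
      · rw [if_neg (hUE q' h2)] at h
        exact absurd (h ▸ hUr q' h2) (hρU q h1 hqQ)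
    · rw [if_neg (hUE q h1)] at h
      rcases (memF q').mp hq' with h2 | h2
      · rw [if_pos h2] at h
        exact absurd (h ▸ hUr q h1) (hρU q' h2 hqQ')
      · rw [if_neg (hUE q' h2)] at h
        exact b6 q q' h1 h2 hqQ hqQ' h

/-- counting the pairs -/
lemma gc_ge {V : Type} [Fintype V] (g' : V → V → Prop) (P : V → Prop) (X : V → Finset V)
    (h1 : ∀ w y, P w → y ∈ X w → g' w y) (h2 : ∀ w y, g' w y → P w) :
    ∑ w ∈ Finset.univ.filter P, (X w).card ≤ gc g' := by
  unfold gc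
  rw [Finset.card_eq_sum_card_fiberwise (f := Prod.fst) (t := Finset.univ.filter P)
    (fun z hz => by
      have hz' := (Finset.mem_filter.mp (Finset.mem_coe.mp hz)).2
      exact Finset.mem_coe.mpr (Finset.mem_filter.mpr ⟨Finset.mem_univ _, h2 _ _ hz'⟩))]
  refine Finset.sum_le_sum fun w hw => ?_
  have hw' := (Finset.mem_filter.mp hw).2
  refine Finset.card_le_card_of_injOn (fun y => (w, y)) ?_ ?_
  · intro y hy
    refine Finset.mem_coe.mpr (Finset.mem_filter.mpr ⟨Finset.mem_filter.mpr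
      ⟨Finset.mem_univ _, h1 w y hw' (Finset.mem_coe.mp hy)⟩, rfl⟩)
  · intro y _ y' _ h
    exact (Prod.mk.inj h).2

end Pool.Agent.TH476.GRed

namespace Pool.Agent.TH476

open Pool.Agent.TH476.GRed

theorem red_holds : S_RED := by
  intro ι _ T K hK L hL Q hQ
  obtain ⟨M, hM⟩ : ∃ M, M = (L + 1) * Fintype.card ι + 1 := ⟨_, rfl⟩
  obtain ⟨m, hm⟩ : ∃ m, m = 2 * Q * K * M := ⟨_, rfl⟩
  refine ⟨(2 * L + 2) * Fintype.card ι + L + 1, m * Fintype.card ι, Q * (2 * Q * 2 ^ m),
    by omega, by positivity, ?_⟩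
  intro U u hU huU hut huQ V _ _ G D hG hD g hg hcount
  obtain ⟨L', hL'⟩ : ∃ L', L' = (2 * L + 2) * Fintype.card ι + L + 1 := ⟨_, rfl⟩
  rw [← hL'] at hcount
  have key : ∀ w, ∃ (ρ : Fin m → ι → V) (J : Finset (Fin m)) (X : Finset V),
      PopW T g (Dsc T U u) u L' (m * Fintype.card ι) Q D w → M ≤ J.card ∧
      (∀ j, ∀ q ∈ Dsc T U u, ∀ q' ∈ Dsc T U u, T.Qn q → T.Qn q' → ρ j q = ρ j q' → q = q') ∧
      (∀ i j, i ≠ j → Disjoint (((Dsc T U u).filter (fun q => T.Qn q)).image (ρ i))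
        (((Dsc T U u).filter (fun q => T.Qn q)).image (ρ j))) ∧
      (∀ y ∈ X, g w y ∧ ∀ j ∈ J, RichAt T g (Dsc T U u) u L' y (ρ j)) ∧
      D ≤ 2 * Q * 2 ^ m * X.card := by
    intro w
    by_cases hw : PopW T g (Dsc T U u) u L' (m * Fintype.card ι) Q D w
    · have hN : (Finset.univ.filter (fun y => g w y)).card ≤ K * D := by
        refine (Finset.card_le_card ?_).trans (hG.hi w)
        intro y hy
        exact (mem_nb G w y).mpr (hg w y (Finset.mem_filter.mp hy).2)
      obtain ⟨ρ, J, X, h⟩ := pop_X T g (Dsc T U u) u L' (m * Fintype.card ι) Q K D m M w hw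
        le_rfl hN hQ hK (by omega) hD hm
      exact ⟨ρ, J, X, fun _ => h⟩
    · exact ⟨fun _ _ => w, ∅, ∅, fun h => absurd h hw⟩
  choose ρ J X hX using key
  refine ⟨fun w y => PopW T g (Dsc T U u) u L' (m * Fintype.card ι) Q D w ∧ y ∈ X w, ?_, ?_, ?_⟩
  · rintro w y ⟨h1, h2⟩
    exact ((hX w h1).2.2.2.1 y h2).1
  · have h1 := gc_ge
      (fun w y => PopW T g (Dsc T U u) u L' (m * Fintype.card ι) Q D w ∧ y ∈ X w)
      (fun w => PopW T g (Dsc T U u) u L' (m * Fintype.card ι) Q D w) X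
      (fun w y h1 h2 => ⟨h1, h2⟩) (fun w y h => h.1)
    calc Fintype.card V * D
        ≤ (Q * (Finset.univ.filter (fun w =>
            PopW T g (Dsc T U u) u L' (m * Fintype.card ι) Q D w)).card) * D :=
          Nat.mul_le_mul_right _ hcount
      _ = Q * ∑ _w ∈ Finset.univ.filter (fun w =>
            PopW T g (Dsc T U u) u L' (m * Fintype.card ι) Q D w), D := by
          rw [Finset.sum_const, smul_eq_mul, mul_assoc]
      _ ≤ Q * ∑ w ∈ Finset.univ.filter (fun w =>
            PopW T g (Dsc T U u) u L' (m * Fintype.card ι) Q D w), 2 * Q * 2 ^ m * (X w).card := by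
          refine Nat.mul_le_mul_left _ (Finset.sum_le_sum fun w hw => ?_)
          exact (hX w (Finset.mem_filter.mp hw).2).2.2.2.2
      _ = Q * (2 * Q * 2 ^ m) * ∑ w ∈ Finset.univ.filter (fun w =>
            PopW T g (Dsc T U u) u L' (m * Fintype.card ι) Q D w), (X w).card := by
          rw [← Finset.mul_sum]
          ring
      _ ≤ _ := Nat.mul_le_mul_left _ h1
  · intro w0 hBU
    refine transfer T g _ U u hU huU hut huQ L L' m M hL (by omega) (by omega) ?_ ρ J ?_ ?_ ?_ ?_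
      w0 hBU
    · rintro w y ⟨h1, h2⟩
      exact ((hX w h1).2.2.2.1 y h2).1
    · rintro w y ⟨h1, h2⟩
      exact (hX w h1).1
    · rintro w y ⟨h1, h2⟩
      exact (hX w h1).2.1
    · rintro w y ⟨h1, h2⟩
      exact (hX w h1).2.2.1
    · rintro w y ⟨h1, h2⟩
      exact ((hX w h1).2.2.2.1 y h2).2

end Pool.Agent.TH476
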