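import Pool.Agent.TH476.GClaim

set_option autoImplicit false

open Classical

namespace Pool.Agent.TH476

lemma kc_mono (L : ℕ) (hL : 0 < L) {j k : ℕ} (h : j ≤ k) : kc L j ≤ kc L k := by
  induction h with
  | refl => exact le_rfl
  | step _ ih =>
    rename_i m _
    refine ih.trans ?_
    show kc L m ≤ L * (m + 1) * (m + 1) * kc L m + 1
    have : 1 * kc L m ≤ L * (m + 1) * (m + 1) * kc L m := by
      refine Nat.mul_le_mul_right _ ?_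
      have : 0 < L * (m + 1) * (m + 1) := by positivity
      omega
    omega

theorem kpigOwn : S_KPIG := by
  intro κ V Ω _ L hL R ρ0 X Q k Ωs 𝓟 h𝓟 _ hk hρ hX hXQ hbig
  obtain ⟨fb, hfb⟩ : ∃ fb : Ω → Finset (κ → V), fb = fun ω =>
    (𝓟.filter (fun p => p.1 = ω)).image (fun p => p.2) := ⟨_, rfl⟩
  have hfbm : ∀ ω φ, φ ∈ fb ω ↔ (ω, φ) ∈ 𝓟 := by
    intro ω φ
    rw [hfb]
    simp only [Finset.mem_image, Finset.mem_filter]
    constructor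
    · rintro ⟨p, ⟨h1, h2⟩, h3⟩
      have : p = (ω, φ) := Prod.ext h2 h3
      rw [← this]
      exact h1
    · exact fun h => ⟨(ω, φ), ⟨h, rfl⟩, rfl⟩
  obtain ⟨sm, hsm⟩ : ∃ sm : Ω → Prop, sm = fun ω =>
    (fb ω).card ≤ 2 * kc L Rᶜ.card * ρ0 := ⟨_, rfl⟩
  obtain ⟨𝓟1, h𝓟1⟩ : ∃ 𝓟1, 𝓟1 = 𝓟.filter (fun p => ¬ sm p.1) := ⟨_, rfl⟩
  have hkc : 2 * kc L Rᶜ.card * ρ0 ≤ 2 * kc L k * ρ0 := by
    have := kc_mono L hL hk
    gcongr
  have hfibcard : ∀ ω, ∀ 𝓢 : Finset (Ω × (κ → V)), (∀ p ∈ 𝓢, p ∈ 𝓟 ∧ p.1 = ω) →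
      𝓢.card ≤ (fb ω).card := by
    intro ω 𝓢 h𝓢
    refine Finset.card_le_card_of_injOn (fun p => p.2) ?_ ?_
    · intro p hp
      obtain ⟨h1, h2⟩ := h𝓢 p (Finset.mem_coe.mp hp)
      refine Finset.mem_coe.mpr ((hfbm ω _).mpr ?_)
      rw [← h2]
      exact h1
    · intro p hp p' hp' h
      exact Prod.ext (((h𝓢 p (Finset.mem_coe.mp hp)).2).trans
        ((h𝓢 p' (Finset.mem_coe.mp hp')).2).symm) h
  have hX1 : X ≤ 2 * Q * 𝓟1.card := by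
    refine rem_part 𝓟 𝓟1 (fun p => ¬ sm p.1) X Q (Ωs.card * (2 * kc L k * ρ0)) hXQ
      (fun a ha h => by rw [h𝓟1]; exact Finset.mem_filter.mpr ⟨ha, h⟩) ?_ hbig
    intro 𝓢 h𝓢
    refine card_le_fib' 𝓢 (fun p => p.1) Ωs _ (fun p hp => h𝓟 p (h𝓢 p hp).1) ?_
    intro ω _ 𝓢' h𝓢'
    by_cases hemp : 𝓢' = ∅
    · rw [hemp]
      simp
    obtain ⟨p, hp⟩ := Finset.nonempty_iff_ne_empty.mpr hemp
    have h1 := not_not.mp (h𝓢 p (h𝓢' p hp).1).2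
    rw [(h𝓢' p hp).2, hsm] at h1
    exact (hfibcard ω 𝓢' fun p hp => ⟨(h𝓢 p (h𝓢' p hp).1).1, (h𝓢' p hp).2⟩).trans (h1.trans hkc)
  obtain ⟨𝓨, h𝓨⟩ : ∃ 𝓨, 𝓨 = (Finset.univ : Finset (Finset κ)).filter
    (fun Y => R ⊆ Y ∧ Y ≠ Finset.univ) := ⟨_, rfl⟩
  obtain ⟨cY, hcY⟩ : ∃ cY : Finset κ → ℕ, cY = fun Y =>
    (𝓟.filter (fun p => Rich {φ | (p.1, φ) ∈ 𝓟} L Y p.2)).card := ⟨_, rfl⟩
  -- the count
  have hmain : 𝓟1.card ≤ 2 * 2 ^ Fintype.card κ * ∑ Y ∈ 𝓨, cY Y := by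
    have h1 : 𝓟1.card = ∑ ω ∈ Ωs, (𝓟1.filter (fun p => p.1 = ω)).card := by
      refine Finset.card_eq_sum_card_fiberwise fun p hp => ?_
      rw [h𝓟1] at hp
      exact h𝓟 p (Finset.mem_filter.mp hp).1
    have h2 : ∀ ω ∈ Ωs, (𝓟1.filter (fun p => p.1 = ω)).card ≤ 2 * 2 ^ Fintype.card κ *
        ∑ Y ∈ 𝓨, (𝓟.filter (fun p => Rich {φ | (p.1, φ) ∈ 𝓟} L Y p.2 ∧ p.1 = ω)).card := by
      intro ω hω
      by_cases hemp : 𝓟1.filter (fun p => p.1 = ω) = ∅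
      · rw [hemp]
        simp
      obtain ⟨p, hp⟩ := Finset.nonempty_iff_ne_empty.mpr hemp
      obtain ⟨hp1, hp2⟩ := Finset.mem_filter.mp hp
      rw [h𝓟1] at hp1
      have hns := (Finset.mem_filter.mp hp1).2
      rw [hp2, hsm] at hns
      push Not at hns
      obtain ⟨Y, hY1, hY2, hY3⟩ := kpigeon (fb ω) L hL R ρ0
        (hρ ω hω (fb ω) fun φ hφ => (hfbm ω φ).mp hφ) hns
      have hY𝓨 : Y ∈ 𝓨 := by
        rw [h𝓨]
        exact Finset.mem_filter.mpr ⟨Finset.mem_univ _, hY1, hY2⟩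
      have h3 : (𝓟1.filter (fun p => p.1 = ω)).card ≤ (fb ω).card := by
        refine hfibcard ω _ fun p hp => ?_
        obtain ⟨h4, h5⟩ := Finset.mem_filter.mp hp
        rw [h𝓟1] at h4
        exact ⟨(Finset.mem_filter.mp h4).1, h5⟩
      refine h3.trans (hY3.trans (Nat.mul_le_mul_left _ ?_))
      obtain ⟨cω, hcω⟩ : ∃ cω : Finset κ → ℕ, cω = fun Y => (𝓟.filter (fun p =>
        Rich {φ | (p.1, φ) ∈ 𝓟} L Y p.2 ∧ p.1 = ω)).card := ⟨_, rfl⟩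
      have h4' : cω Y ≤ ∑ Y ∈ 𝓨, cω Y :=
        Finset.single_le_sum (f := cω) (fun _ _ => Nat.zero_le _) hY𝓨
      rw [hcω] at h4'
      refine le_trans ?_ h4'
      refine Finset.card_le_card_of_injOn (fun φ => (ω, φ)) ?_ ?_
      · intro φ hφ
        obtain ⟨h6, h7⟩ := Finset.mem_filter.mp (Finset.mem_coe.mp hφ)
        refine Finset.mem_coe.mpr (Finset.mem_filter.mpr ⟨(hfbm ω φ).mp h6, ?_, rfl⟩)
        have h8 : {φ' | φ' ∈ fb ω} = {φ' | ((ω, φ).1, φ') ∈ 𝓟} := by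
          ext φ'
          exact hfbm ω φ'
        rw [h8] at h7
        exact h7
      · intro φ _ φ' _ h
        exact (Prod.mk.inj h).2
    rw [h1]
    calc ∑ ω ∈ Ωs, (𝓟1.filter (fun p => p.1 = ω)).card ≤
        ∑ ω ∈ Ωs, 2 * 2 ^ Fintype.card κ *
        ∑ Y ∈ 𝓨, (𝓟.filter (fun p => Rich {φ | (p.1, φ) ∈ 𝓟} L Y p.2 ∧ p.1 = ω)).card :=
          Finset.sum_le_sum h2
      _ = 2 * 2 ^ Fintype.card κ * ∑ Y ∈ 𝓨, ∑ ω ∈ Ωs,
          (𝓟.filter (fun p => Rich {φ | (p.1, φ) ∈ 𝓟} L Y p.2 ∧ p.1 = ω)).card := by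
          rw [← Finset.mul_sum, Finset.sum_comm]
      _ ≤ 2 * 2 ^ Fintype.card κ * ∑ Y ∈ 𝓨, cY Y := by
          refine Nat.mul_le_mul_left _ (Finset.sum_le_sum fun Y _ => ?_)
          rw [hcY]
          show _ ≤ (𝓟.filter (fun p => Rich {φ | (p.1, φ) ∈ 𝓟} L Y p.2)).card
          have h9 : (𝓟.filter (fun p => Rich {φ | (p.1, φ) ∈ 𝓟} L Y p.2)).card =
              ∑ ω ∈ Ωs, ((𝓟.filter (fun p => Rich {φ | (p.1, φ) ∈ 𝓟} L Y p.2)).filter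
                (fun p => p.1 = ω)).card := by
            refine Finset.card_eq_sum_card_fiberwise fun p hp => ?_
            exact h𝓟 p (Finset.mem_filter.mp (Finset.mem_coe.mp hp)).1
          rw [h9]
          refine Finset.sum_le_sum fun ω _ => Finset.card_le_card ?_
          intro p hp
          obtain ⟨h10, h11, h12⟩ := Finset.mem_filter.mp hp
          exact Finset.mem_filter.mpr ⟨Finset.mem_filter.mpr ⟨h10, h11⟩, h12⟩
  have hpos : 0 < 𝓟1.card := by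
    by_contra h0
    have h0' : 𝓟1.card = 0 := by omega
    rw [h0', mul_zero] at hX1
    omega
  have h𝓨ne : 𝓨.Nonempty := by
    by_contra h
    rw [Finset.not_nonempty_iff_eq_empty] at h
    rw [h, Finset.sum_empty, mul_zero] at hmain
    omega
  obtain ⟨Y, hY, hYmax⟩ := Finset.exists_max_image 𝓨 cY h𝓨ne
  have hY' := hY
  rw [h𝓨] at hY'
  obtain ⟨_, hY1, hY2⟩ := Finset.mem_filter.mp hY'
  refine ⟨Y, hY1, hY2, ?_⟩
  have h13 : ∑ Y ∈ 𝓨, cY Y ≤ 2 ^ Fintype.card κ * cY Y := by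
    calc ∑ Y' ∈ 𝓨, cY Y' ≤ ∑ _Y' ∈ 𝓨, cY Y := Finset.sum_le_sum hYmax
      _ = 𝓨.card * cY Y := by rw [Finset.sum_const, smul_eq_mul]
      _ ≤ _ := by
          refine Nat.mul_le_mul_right _ ((Finset.card_le_univ _).trans ?_)
          rw [Fintype.card_finset]
  have h14 : X ≤ 2 * Q * (2 * 2 ^ Fintype.card κ * (2 ^ Fintype.card κ * cY Y)) :=
    hX1.trans (Nat.mul_le_mul_left _ (hmain.trans (Nat.mul_le_mul_left _ h13)))
  rw [hcY] at h14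
  refine h14.trans (le_of_eq ?_)
  have h15 : (4 : ℕ) ^ Fintype.card κ = 2 ^ Fintype.card κ * 2 ^ Fintype.card κ := by
    rw [← mul_pow]
    norm_num
  rw [h15]
  ring

end Pool.Agent.TH476
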