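import Pool.Agent.TH476.GCnt

set_option autoImplicit false

open Classical

namespace Pool.Agent.TH476

variable {ι V : Type} [Fintype ι]

/-- the structure of the set of the movable nodes -/
structure KSt (T : TD ι) (F N : Finset ι) : Prop where
  sub : N ⊆ F
  ne : N.Nonempty
  a1 : ∀ x ∈ N, T.Qn x → T.par x ∈ F → T.par x ∈ N
  a2 : ∀ x ∈ N, T.Qn x → ∀ y ∈ F, T.par y = x → y ∈ N
  b1 : ∀ x ∈ N, ¬ T.Qn x → T.par x ∉ N → ∀ y ∈ F, T.par y = x → y ∈ N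
  b2 : ∀ x ∈ N, ¬ T.Qn x → ∀ y ∈ F, ∀ y' ∈ F, T.par y = x → T.par y' = x → y ∉ N → y' ∉ N →
    y = y'

/-- the coordinates which are not nodes of F -/
noncomputable def RF (F : Finset ι) : Finset (ι ⊕ ι) :=
  Finset.univ.filter (fun c => ∀ x ∈ F, c ≠ Sum.inl x)

lemma mem_RF (F : Finset ι) (c : ι ⊕ ι) : c ∈ RF F ↔ ∀ x ∈ F, c ≠ Sum.inl x := by
  simp [RF]

lemma adj_NbC [Fintype V] {T : TD ι} {G : SimpleGraph V} {v0 : V} {F : Finset ι} {b : ι → V}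
    {φ : ι ⊕ ι → V} (hφ : Cpy T G v0 F b φ) {x : ι} (hx : x ∈ F) {c : ι ⊕ ι}
    (hc : NbC T F x c) : G.Adj (φ c) (φ (Sum.inl x)) := by
  rcases hc with ⟨rfl, hQ⟩ | ⟨rfl, hp⟩ | ⟨y, hy, hp, rfl⟩
  · exact hφ.rt x hx hQ
  · exact hφ.pr x hx hp
  · have := hφ.pr y hy (by rw [hp]; exact hx)
    rw [hp] at this
    exact this.symm

lemma nocherry [Fintype V] {T : TD ι} {G : SimpleGraph V} {g : V → V → Prop} {v0 : V} {L1 : ℕ}
    {F : Finset ι} {b : ι → V} {Γ : (ι → V) → Prop} {𝓕 : Set (ι ⊕ ι → V)}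
    (h𝓕 : ∀ φ ∈ 𝓕, Fam T G g v0 L1 F b Γ φ) {Lk : ℕ} (hLk : 0 < Lk) (hL1 : L1 ≤ Lk)
    {Y : Finset (ι ⊕ ι)} {φ : ι ⊕ ι → V} (hr : Rich 𝓕 Lk Y φ) {x : ι} (hx : x ∈ F)
    (hxY : Sum.inl x ∉ Y) {c c' : ι ⊕ ι} (hc : NbC T F x c) (hc' : NbC T F x c') (hcY : c ∈ Y)
    (hcY' : c' ∈ Y) (hne : c ≠ c') : False := by
  obtain ⟨Fm, h1, h2, h3⟩ := hr
  have h4 := (h𝓕 _ (h1 ⟨0, hLk⟩)).lt x hx c c' hc hc' hne
  apply h4
  unfold Cd
  rw [h2 _ c hcY, h2 _ c' hcY']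
  have hinj : Function.Injective (fun i : Fin Lk => Fm i (Sum.inl x)) := by
    intro i j hij
    by_contra hne
    exact h3 i j hne _ hxY _ hxY hij
  calc L1 ≤ Lk := hL1
    _ = ((Finset.univ : Finset (Fin Lk)).image (fun i => Fm i (Sum.inl x))).card := by
      rw [Finset.card_image_of_injective _ hinj, Finset.card_univ, Fintype.card_fin]
    _ ≤ _ := by
      refine Finset.card_le_card ?_
      intro z hz
      obtain ⟨i, _, rfl⟩ := Finset.mem_image.mp hz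
      have h5 := adj_NbC (h𝓕 _ (h1 i)).cp hx hc
      have h6 := adj_NbC (h𝓕 _ (h1 i)).cp hx hc'
      rw [h2 i c hcY] at h5
      rw [h2 i c' hcY'] at h6
      exact Finset.mem_inter.mpr ⟨(mem_nb _ _ _).mpr h5, (mem_nb _ _ _).mpr h6⟩

/-- the movable nodes of a rich light copy -/
lemma kst_of_rich [Fintype V] {T : TD ι} {G : SimpleGraph V} {g : V → V → Prop} {v0 : V} {L1 : ℕ}
    {F : Finset ι} (hF : AdmF T F) {b : ι → V} {Γ : (ι → V) → Prop} {𝓕 : Set (ι ⊕ ι → V)}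
    (h𝓕 : ∀ φ ∈ 𝓕, Fam T G g v0 L1 F b Γ φ) {Lk : ℕ} (hLk : 0 < Lk) (hL1 : L1 ≤ Lk)
    {Y : Finset (ι ⊕ ι)} (hRY : RF F ⊆ Y) (hYne : Y ≠ Finset.univ)
    {φ : ι ⊕ ι → V} (hr : Rich 𝓕 Lk Y φ) :
    KSt T F (F.filter (fun x => Sum.inl x ∉ Y)) := by
  have hroot : ∀ x, Sum.inr x ∈ Y := fun x => hRY ((mem_RF F _).mpr fun y _ h => by cases h)
  have hnotN : ∀ y ∈ F, y ∉ F.filter (fun x => Sum.inl x ∉ Y) → Sum.inl y ∈ Y := by
    intro y hy h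
    by_contra h'
    exact h (Finset.mem_filter.mpr ⟨hy, h'⟩)
  refine ⟨Finset.filter_subset _ _, ?_, ?_, ?_, ?_, ?_⟩
  · by_contra h
    rw [Finset.not_nonempty_iff_eq_empty] at h
    apply hYne
    ext c
    simp only [Finset.mem_univ, iff_true]
    rcases c with x | x
    · by_cases hx : x ∈ F
      · exact hnotN x hx (by rw [h]; exact Finset.notMem_empty _)
      · exact hRY ((mem_RF F _).mpr fun y hy h => hx (by rw [Sum.inl.inj h]; exact hy))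
    · exact hroot x
  · intro x hx hQ hp
    obtain ⟨hxF, hxY⟩ := Finset.mem_filter.mp hx
    by_contra h
    exact nocherry h𝓕 hLk hL1 hr hxF hxY (Or.inl ⟨rfl, hQ⟩) (Or.inr (Or.inl ⟨rfl, hp⟩))
      (hroot x) (hnotN _ hp h) (by intro h; cases h)
  · intro x hx hQ y hy hp
    obtain ⟨hxF, hxY⟩ := Finset.mem_filter.mp hx
    by_contra h
    exact nocherry h𝓕 hLk hL1 hr hxF hxY (Or.inl ⟨rfl, hQ⟩) (Or.inr (Or.inr ⟨y, hy, hp, rfl⟩))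
      (hroot x) (hnotN _ hy h) (by intro h; cases h)
  · intro x hx hQ hpN y hy hp
    obtain ⟨hxF, hxY⟩ := Finset.mem_filter.mp hx
    have hpF := hF.2 x hxF hQ
    by_contra h
    refine nocherry h𝓕 hLk hL1 hr hxF hxY (Or.inr (Or.inl ⟨rfl, hpF⟩))
      (Or.inr (Or.inr ⟨y, hy, hp, rfl⟩)) (hnotN _ hpF hpN) (hnotN _ hy h) ?_
    intro h'
    have h1 := T.dp_par x (hF.ne_top hxF)
    have h2 := T.dp_par y (hF.ne_top hy)
    rw [hp] at h2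
    rw [Sum.inl.inj h'] at h1
    omega
  · intro x hx hQ y hy y' hy' hp hp' hyN hyN'
    obtain ⟨hxF, hxY⟩ := Finset.mem_filter.mp hx
    by_contra h
    exact nocherry h𝓕 hLk hL1 hr hxF hxY (Or.inr (Or.inr ⟨y, hy, hp, rfl⟩))
      (Or.inr (Or.inr ⟨y', hy', hp', rfl⟩)) (hnotN _ hy hyN) (hnotN _ hy' hyN')
      (fun h' => h (Sum.inl.inj h'))

/-- restriction of a copy to the nodes of N -/
noncomputable def resN (T : TD ι) (N : Finset ι) (v0 : V) (φ : ι ⊕ ι → V) : ι ⊕ ι → V :=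
  fun c => if c ∈ UC T N then φ c else v0

lemma resN_inl (T : TD ι) (N : Finset ι) (v0 : V) (φ : ι ⊕ ι → V) {x : ι} (hx : x ∈ N) :
    resN T N v0 φ (Sum.inl x) = φ (Sum.inl x) :=
  if_pos ((mem_UC_inl T N x).mpr hx)

lemma resN_inr (T : TD ι) (N : Finset ι) (v0 : V) (φ : ι ⊕ ι → V) {x : ι} (hx : x ∈ N)
    (hQ : T.Qn x) : resN T N v0 φ (Sum.inr x) = φ (Sum.inr x) :=
  if_pos ((mem_UC_inr T N x).mpr ⟨hx, hQ⟩)

lemma UC_mono (T : TD ι) {N F : Finset ι} (h : N ⊆ F) : UC T N ⊆ UC T F := by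
  intro c hc
  rcases c with x | q
  · rw [mem_UC_inl] at *
    exact h hc
  · rw [mem_UC_inr] at *
    exact ⟨h hc.1, hc.2⟩

lemma cpy_resN {T : TD ι} {G : SimpleGraph V} {v0 : V} {F : Finset ι} {b : ι → V}
    {φ : ι ⊕ ι → V} (hφ : Cpy T G v0 F b φ) {N : Finset ι} (hN : N ⊆ F) (b' : ι → V)
    (h : ∀ q ∈ N, T.par q ∉ N → if T.Qn q then T.par q ∉ F ∧ b' q = b q else b' q = v0) :
    Cpy T G v0 N b' (resN T N v0 φ) := by
  refine ⟨?_, ?_, ?_, ?_⟩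
  · intro x hx hQ
    rw [resN_inl T N v0 φ hx, resN_inr T N v0 φ hx hQ]
    exact hφ.rt x (hN hx) hQ
  · intro x hx hp
    rw [resN_inl T N v0 φ hx, resN_inl T N v0 φ hp]
    exact hφ.pr x (hN hx) (hN hp)
  · intro c hc
    exact if_neg hc
  · intro q hq hp
    have h1 := h q hq hp
    by_cases hQ : T.Qn q
    · rw [if_pos hQ] at h1
      rw [resN_inr T N v0 φ hq hQ, h1.2]
      exact hφ.bs q (hN hq) h1.1
    · rw [if_neg hQ] at h1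
      rw [h1]
      exact if_neg fun h => hQ ((mem_UC_inr T N q).mp h).2

lemma resN_inj {T : TD ι} {v0 : V} {F : Finset ι} {φ : ι ⊕ ι → V}
    (hφ : ∀ c ∈ UC T F, ∀ c' ∈ UC T F, φ c = φ c' → c = c') {N : Finset ι} (hN : N ⊆ F) :
    ∀ c ∈ UC T N, ∀ c' ∈ UC T N, resN T N v0 φ c = resN T N v0 φ c' → c = c' := by
  intro c hc c' hc' h
  unfold resN at h
  rw [if_pos hc, if_pos hc'] at h
  exact hφ c (UC_mono T hN hc) c' (UC_mono T hN hc') h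

/-- attached copies from a rich copy -/
lemma att_of_rich [Fintype V] {T : TD ι} {G : SimpleGraph V} {g : V → V → Prop} {v0 : V} {L1 : ℕ}
    {F : Finset ι} {b : ι → V} {Γ : (ι → V) → Prop} {𝓕 : Set (ι ⊕ ι → V)}
    (h𝓕 : ∀ φ ∈ 𝓕, Fam T G g v0 L1 F b Γ φ) {Lk : ℕ}
    {Y : Finset (ι ⊕ ι)} (hRY : RF F ⊆ Y)
    {φ : ι ⊕ ι → V} (hr : Rich 𝓕 Lk Y φ) {N D' : Finset ι} (hNF : N ⊆ F) (hDF : D' ⊆ F)
    (hNY : ∀ x ∈ N, Sum.inl x ∉ Y) (hDY : ∀ x ∈ D', Sum.inl x ∈ Y)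
    (hQ : ∀ q ∈ D', T.par q ∈ N → T.Qn q) (ρ : ι → V)
    (hρ : ∀ q ∈ N, T.Qn q → ρ q = φ (Sum.inr q)) (ψ : ι → V)
    (hψ : ∀ x ∈ D', ψ x = φ (Sum.inl x)) (Γ' : (ι → V) → Prop)
    (hΓ : ∀ φ' ∈ 𝓕, (∀ c ∈ Y, φ' c = φ c) → Γ' (glu N (fun x => φ' (Sum.inl x)) ψ)) :
    Att T g N D' ρ Lk Γ' ψ := by
  obtain ⟨Fm, h1, h2, h3⟩ := hr
  have hroot : ∀ x, Sum.inr x ∈ Y := fun x => hRY ((mem_RF F _).mpr fun y _ h => by cases h)
  refine ⟨fun i x => Fm i (Sum.inl x), ?_, ?_, ?_, ?_⟩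
  · intro i
    have hgd := (h𝓕 _ (h1 i)).gd
    refine ⟨?_, ?_, ?_⟩
    · intro x hx hQx
      rw [hρ x hx hQx, ← h2 i _ (hroot x)]
      exact hgd.1 x (hNF hx) hQx
    · intro x hx hp hQx
      exact hgd.2.1 x (hNF hx) (hNF hp) hQx
    · intro x hx hp hQx
      exact hgd.2.2 x (hNF hx) (hNF hp) hQx
  · intro i q hq hp
    have hgd := (h𝓕 _ (h1 i)).gd
    rw [hψ q hq, ← h2 i _ (hDY q hq)]
    exact hgd.2.1 q (hDF hq) (hNF hp) (hQ q hq hp)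
  · intro i
    exact hΓ _ (h1 i) (h2 i)
  · intro i j x x' hx hx' h
    by_cases hij : i = j
    · refine ⟨hij, ?_⟩
      subst hij
      exact Sum.inl.inj ((h𝓕 _ (h1 i)).ij _ ((mem_UC_inl T F x).mpr (hNF hx)) _
        ((mem_UC_inl T F x').mpr (hNF hx')) h)
    · exact absurd h (h3 i j hij _ (hNY x hx) _ (hNY x' hx'))

omit [Fintype ι] in
lemma RichAt.mono {T : TD ι} {g : V → V → Prop} {E : Finset ι} {u : ι} {L L' : ℕ}
    (hL : L ≤ L') {y : V} {ρ : ι → V} (h : RichAt T g E u L' y ρ) : RichAt T g E u L y ρ := by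
  obtain ⟨α, h1, h2, h3⟩ := h
  refine ⟨fun l => α (Fin.castLE hL l), fun l => h1 _, fun l => h2 _, ?_⟩
  intro l l' x x' hx hx' h
  obtain ⟨h4, h5⟩ := h3 _ _ x x' hx hx' h
  exact ⟨Fin.castLE_injective hL h4, h5⟩

omit [Fintype ι] in
lemma PopW.mono [Fintype V] {T : TD ι} {g : V → V → Prop} {E : Finset ι} {u : ι}
    {L L' ζ ζ' Q Q' D : ℕ} (hL : L ≤ L') (hζ : ζ ≤ ζ') (hQ : Q' ≤ Q) {w : V}
    (h : PopW T g E u L' ζ' Q' D w) : PopW T g E u L ζ Q D w := by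
  intro Z hZ
  obtain ⟨ρ, h1, h2, h3⟩ := h Z (hZ.trans hζ)
  refine ⟨ρ, h1, h2, h3.trans (Nat.mul_le_mul hQ (Finset.card_le_card ?_))⟩
  intro y hy
  obtain ⟨_, h4, h5⟩ := Finset.mem_filter.mp hy
  exact Finset.mem_filter.mpr ⟨Finset.mem_univ _, h4, h5.mono hL⟩

omit [Fintype ι] in
lemma BUat.mono {T : TD ι} {g : V → V → Prop} {F : Finset ι} {b b' : ι → V} {L L' : ℕ}
    {Γ Γ' : (ι → V) → Prop} {Z : Finset V} (hL : L ≤ L') (hb : ∀ q ∈ F, T.par q ∉ F → b' q = b q)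
    (hΓ : ∀ ψ, Γ' ψ → Γ ψ) (h : BUat T g F b' L' Γ' Z) : BUat T g F b L Γ Z := by
  obtain ⟨ψ, r, h1, h2, h3, h4, h5, h6, h7, h8⟩ := h
  refine ⟨fun l => ψ (Fin.castLE hL l), r, fun q hq hp => (h1 q hq hp).trans (hb q hq hp),
    fun l => h2 _, fun l => hΓ _ (h3 _), ?_, fun l => h5 _, h6, fun l => h7 _, h8⟩
  intro l l' x x' hx hx' h
  obtain ⟨h4, h5⟩ := h4 _ _ x x' hx hx' h
  exact ⟨Fin.castLE_injective hL h4, h5⟩

omit [Fintype ι] in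
lemma Att.congr_ρ {T : TD ι} {g : V → V → Prop} {N D' : Finset ι} {ρ ρ' : ι → V} {Lk : ℕ}
    {Γ : (ι → V) → Prop} {ψ : ι → V} (hρ : ∀ q ∈ N, T.Qn q → ρ q = ρ' q)
    (h : Att T g N D' ρ Lk Γ ψ) : Att T g N D' ρ' Lk Γ ψ := by
  obtain ⟨ν, h1, h2, h3, h4⟩ := h
  refine ⟨ν, fun l => ⟨?_, (h1 l).2⟩, h2, h3, h4⟩
  intro x hx hQ
  rw [← hρ x hx hQ]
  exact (h1 l).1 x hx hQ

lemma Fam.congr_b [Fintype V] {T : TD ι} {G : SimpleGraph V} {g : V → V → Prop} {v0 : V} {L1 : ℕ}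
    {F : Finset ι} {b b' : ι → V} {Γ : (ι → V) → Prop} {φ : ι ⊕ ι → V}
    (hb : ∀ q ∈ F, T.par q ∉ F → b q = b' q) (h : Fam T G g v0 L1 F b Γ φ) :
    Fam T G g v0 L1 F b' Γ φ :=
  ⟨⟨h.cp.rt, h.cp.pr, h.cp.df, fun q hq hp => (h.cp.bs q hq hp).trans (hb q hq hp)⟩,
    h.gd, h.ij, h.lt, h.gm⟩

end Pool.Agent.TH476
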