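import Pool.Agent.TH476.GDef
import Pool.Agent.W979.TE.Main4

set_option autoImplicit false

open Classical

namespace Pool.Agent.TH476

open Pool.Agent.W979.TE Pool.Agent.W979.TE4 Pool.Agent.W979.TE5

/-- abundant rich cherries give the blowup -/
def S_HUB : Prop := ∀ (ι : Type) [Fintype ι] (T : TD ι),
    (∀ x y, x ≠ T.top → y ≠ T.top → T.par x = T.top → T.par y = T.top → x = y) →
    ∀ Q K t : ℕ, 0 < Q → 0 < K → 0 < t → ∃ L D0 : ℕ, ∀ (V : Type) [Fintype V] [Nonempty V]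
    (G : SimpleGraph V) (D : ℕ), AR G D K → D0 ≤ D → Fintype.card V * D ^ 2 ≤ Q * RC G L →
    ∃ w : V, BUat T G.Adj (Finset.univ.erase T.top) (fun _ => w) t (fun _ => True) ∅

/-- balanced caterpillars for all parameters -/
def S_CAT : Prop := ∀ h S : ℕ, 2 ≤ h → h ≤ S + 1 →
    ∃ (ι : Type) (_ : Fintype ι) (T : TD ι),
      Fintype.card ι = 1 + h + S ∧
      (∀ x y, x ≠ T.top → y ≠ T.top → T.par x = T.top → T.par y = T.top → x = y) ∧
      (∃ y, y ≠ T.top ∧ ¬ T.Qn y) ∧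
      (Finset.univ.filter (fun x => T.Qn x)).card = S + 1 ∧
      ∀ U : Finset ι, T.top ∉ U →
        (h + S) * (U.filter (fun x => T.Qn x ∧ T.par x ∈ U)).card ≤
          S * U.card + (h + S) * (U.filter (fun x => ¬ T.Qn x ∧ T.par x ∉ U)).card

/-- upper bound for balanced tree data -/
def S_MAIN : Prop := ∀ (ι : Type) [Fintype ι] (T : TD ι) (h S : ℕ), 1 ≤ h → 1 ≤ S →
    Fintype.card ι = 1 + h + S →
    (∀ x y, x ≠ T.top → y ≠ T.top → T.par x = T.top → T.par y = T.top → x = y) →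
    (Finset.univ.filter (fun x => T.Qn x)).card = S + 1 →
    (∀ U : Finset ι, AdmF T U →
      (h + S) * (U.filter (fun x => T.Qn x ∧ T.par x ∈ U)).card ≤ S * U.card) →
    ∀ t : ℕ, 0 < t → ∃ C : ℝ, ∀ n : ℕ, ∀ G : SimpleGraph (Fin n),
      (¬ ∃ w, BUat T G.Adj (Finset.univ.erase T.top) (fun _ => w) t (fun _ => True) ∅) →
      (G.edgeSet.ncard : ℝ) ≤
        C * (n : ℝ) ^ (2 - ((h + S : ℕ) : ℝ) / ((h + 2 * S : ℕ) : ℝ))

/-- from tree data to a good pair -/
def S_GTD : Prop := S_MAIN → ∀ (ι : Type) [Fintype ι] (T : TD ι) (h S : ℕ), 1 ≤ h → 1 ≤ S →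
    Fintype.card ι = 1 + h + S →
    (∀ x y, x ≠ T.top → y ≠ T.top → T.par x = T.top → T.par y = T.top → x = y) →
    (∃ y, y ≠ T.top ∧ ¬ T.Qn y) →
    (Finset.univ.filter (fun x => T.Qn x)).card = S + 1 →
    (∀ U : Finset ι, T.top ∉ U →
        (h + S) * (U.filter (fun x => T.Qn x ∧ T.par x ∈ U)).card ≤
          S * U.card + (h + S) * (U.filter (fun x => ¬ T.Qn x ∧ T.par x ∉ U)).card) →
    Good (h + S) (h + 2 * S)

/-- the Bukh-Conlon bound for all balanced rooted trees with all the roots leaves of the same colour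
and exactly one root at every non-root of the other colour -/
def S_GEN : Prop := S_MAIN → ∀ (W : Type) [Fintype W] (T : SimpleGraph W) (R : Set W)
    (col : W → Bool) (m b : ℕ), T.IsTree → 2 ≤ R.ncard →
    (∀ v ∈ R, ∃! u, T.Adj v u) → (∀ u v, T.Adj u v → col u ≠ col v) →
    (∀ v ∈ R, col v = false) →
    (∀ v, v ∉ R → col v = true → ∃! r, r ∈ R ∧ T.Adj v r) →
    Rᶜ.ncard = m → eS T Rᶜ = b →
    (∀ S : Set W, S ⊆ Rᶜ → b * S.ncard ≤ m * eS T S) →
    UB T R ((b : ℝ) / (m : ℝ))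

end Pool.Agent.TH476
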