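import Pool.Agent.TH476.GStm

set_option autoImplicit false

open Classical

namespace Pool.Agent.TH476

/-- u is an ancestor of x or x itself -/
inductive DscR {ι : Type} (T : TD ι) (u : ι) : ι → Prop
  | refl : DscR T u u
  | step (x : ι) : x ≠ T.top → DscR T u (T.par x) → DscR T u x

/-- descendants of u in U, with u -/
noncomputable def Dsc {ι : Type} (T : TD ι) (U : Finset ι) (u : ι) : Finset ι :=
  U.filter (fun x => DscR T u x)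

/-- closed under parents -/
def AncC {ι : Type} (T : TD ι) (U : Finset ι) : Prop := ∀ x ∈ U, x ≠ T.top → T.par x ∈ U

/-- neighbours of the node x in the copy structure of F -/
def NbC {ι : Type} (T : TD ι) (F : Finset ι) (x : ι) (c : ι ⊕ ι) : Prop :=
  (c = Sum.inr x ∧ T.Qn x) ∨ (c = Sum.inl (T.par x) ∧ T.par x ∈ F) ∨
    ∃ y ∈ F, T.par y = x ∧ c = Sum.inl y

/-- good light injective copies of F over the base b with the side condition Γ -/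
structure Fam {ι V : Type} [Fintype ι] [Fintype V] (T : TD ι) (G : SimpleGraph V)
    (g : V → V → Prop) (v0 : V) (L1 : ℕ) (F : Finset ι) (b : ι → V) (Γ : (ι → V) → Prop)
    (φ : ι ⊕ ι → V) : Prop where
  cp : Cpy T G v0 F b φ
  gd : GoodOn T g F (fun x => φ (Sum.inl x)) (fun x => φ (Sum.inr x))
  ij : ∀ c ∈ UC T F, ∀ c' ∈ UC T F, φ c = φ c' → c = c'
  lt : ∀ x ∈ F, ∀ c c', NbC T F x c → NbC T F x c' → c ≠ c' → ¬ Cd G L1 (φ c) (φ c')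
  gm : Γ (fun x => φ (Sum.inl x))

/-- number of free roots -/
noncomputable def frc {ι : Type} (T : TD ι) (F : Finset ι) : ℕ :=
  (F.filter (fun x => T.Qn x ∧ T.par x ∈ F)).card

/-- the counting hypothesis -/
def CntH {ι : Type} (T : TD ι) (C N D : ℕ) : Prop :=
  ∀ F : Finset ι, F.Nonempty → AdmF T F → C * N ^ frc T F ≤ D ^ (F.card + frc T F)

/-- L disjoint good copies of E with roots ρ, attached to y at u -/
def RichAt {ι V : Type} (T : TD ι) (g : V → V → Prop) (E : Finset ι) (u : ι) (L : ℕ) (y : V)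
    (ρ : ι → V) : Prop :=
  ∃ α : Fin L → ι → V, (∀ l, GoodOn T g E (α l) ρ) ∧ (∀ l, g (α l u) y) ∧
    ∀ l l' x x', x ∈ E → x' ∈ E → α l x = α l' x' → l = l' ∧ x = x'

/-- w is popular: for every small Z some roots avoiding Z are rich at many y -/
def PopW {ι V : Type} [Fintype V] (T : TD ι) (g : V → V → Prop) (E : Finset ι) (u : ι)
    (L ζ Q D : ℕ) (w : V) : Prop :=
  ∀ Z : Finset V, Z.card ≤ ζ → ∃ ρ : ι → V,
    (∀ q ∈ E, ∀ q' ∈ E, T.Qn q → T.Qn q' → ρ q = ρ q' → q = q') ∧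
    (∀ q ∈ E, T.Qn q → ρ q ∉ Z) ∧
    D ≤ Q * (Finset.univ.filter (fun y => g w y ∧ RichAt T g E u L y ρ)).card

/-- number of pairs in the relation g -/
noncomputable def gc {V : Type} [Fintype V] (g : V → V → Prop) : ℕ :=
  (Finset.univ.filter (fun z : V × V => g z.1 z.2)).card

/-- the main claim on families of copies -/
def S_CLAIM : Prop := ∀ (ι : Type) [Fintype ι] (T : TD ι) (K : ℕ), 0 < K → ∀ Q : ℕ, 0 < Q →
    ∃ Q' : ℕ, 0 < Q' ∧ ∀ L ζ L1 : ℕ, 0 < L → ∃ C : ℕ,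
    ∀ (U F : Finset ι), AncC T U → F ⊆ U → AdmF T F →
    (∀ x ∈ U, x ≠ T.top → T.par x ∈ F → x ∈ F) →
    ∀ (V : Type) [Fintype V] [Nonempty V] (G : SimpleGraph V) (D : ℕ), AR G D K →
    CntH T C (Fintype.card V) D →
    ∀ (g : V → V → Prop), (∀ w v, g w v → G.Adj w v) → ∀ (v0 : V) (Ω : Type) (b : Ω → ι → V)
    (Γ : Ω → (ι → V) → Prop) (Ωs : Finset Ω) (S : ℕ), 0 < S →
    (∀ q ∈ F, T.par q ∉ F → ∀ w, (Ωs.filter (fun ω => b ω q = w)).card ≤ S) →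
    ∀ 𝓟 : Finset (Ω × (ι ⊕ ι → V)),
    (∀ p ∈ 𝓟, p.1 ∈ Ωs ∧ Fam T G g v0 L1 F (b p.1) (Γ p.1) p.2) →
    Fintype.card V * S * D ^ (FC T F).card ≤ Q * 𝓟.card →
    (∃ u ∈ F, ¬ T.Qn u ∧ Fintype.card V ≤
      Q' * (Finset.univ.filter (fun w => PopW T g (Dsc T U u) u L ζ Q' D w)).card) ∨
    Fintype.card V * S ≤
      Q' * (Ωs.filter (fun ω => ∀ Z : Finset V, Z.card ≤ ζ → BUat T g F (b ω) L (Γ ω) Z)).card

/-- the initial family -/
def S_INIT : Prop := ∀ (ι : Type) [Fintype ι] (T : TD ι),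
    (∀ x y, x ≠ T.top → y ≠ T.top → T.par x = T.top → T.par y = T.top → x = y) →
    ∀ K : ℕ, 0 < K → ∀ Q : ℕ, 0 < Q → ∃ Q' : ℕ, 0 < Q' ∧ ∀ L1 : ℕ, ∃ D0 : ℕ,
    ∀ (U : Finset ι), AncC T U → ∀ (V : Type) [Fintype V] [Nonempty V] (G : SimpleGraph V)
    (D : ℕ), AR G D K → D0 ≤ D → ∀ (g : V → V → Prop), (∀ w v, g w v → G.Adj w v) →
    Fintype.card V * D ≤ Q * gc g → RC G L1 * Q' ≤ Fintype.card V * D ^ 2 → ∀ v0 : V,
    ∃ 𝓟 : Finset (V × (ι ⊕ ι → V)), (∀ p ∈ 𝓟, Fam T G g v0 L1 (U.erase T.top)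
      (fun _ => p.1) (fun _ => True) p.2) ∧
    Fintype.card V * D ^ (FC T (U.erase T.top)).card ≤ Q' * 𝓟.card

/-- from popular vertices to a smaller tree -/
def S_RED : Prop := ∀ (ι : Type) [Fintype ι] (T : TD ι) (K : ℕ), 0 < K → ∀ L : ℕ, 0 < L →
    ∀ Q : ℕ, 0 < Q → ∃ L' ζ' Q'' : ℕ, L ≤ L' ∧ 0 < Q'' ∧ ∀ (U : Finset ι) (u : ι),
    AncC T U → u ∈ U → u ≠ T.top → ¬ T.Qn u →
    ∀ (V : Type) [Fintype V] [Nonempty V] (G : SimpleGraph V) (D : ℕ), AR G D K → 0 < D →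
    ∀ (g : V → V → Prop), (∀ w v, g w v → G.Adj w v) →
    Fintype.card V ≤ Q * (Finset.univ.filter (fun w =>
      PopW T g (Dsc T U u) u L' ζ' Q D w)).card →
    ∃ g' : V → V → Prop, (∀ w v, g' w v → g w v) ∧ Fintype.card V * D ≤ Q'' * gc g' ∧
      ∀ w, BUat T g' ((U \ Dsc T U u).erase T.top) (fun _ => w) L (fun _ => True) ∅ →
        BUat T g (U.erase T.top) (fun _ => w) L (fun _ => True) ∅

/-- blowups in dense relations in almost regular graphs with few rich cherries -/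
def S_IND : Prop := ∀ (ι : Type) [Fintype ι] (T : TD ι),
    (∀ x y, x ≠ T.top → y ≠ T.top → T.par x = T.top → T.par y = T.top → x = y) →
    ∀ K : ℕ, 0 < K → ∀ n Q L : ℕ, 0 < Q → 0 < L → ∃ Q' : ℕ, 0 < Q' ∧ ∀ L1 : ℕ, ∃ C : ℕ,
    ∀ (U : Finset ι), U.card ≤ n → T.top ∈ U → AncC T U →
    ∀ (V : Type) [Fintype V] [Nonempty V] (G : SimpleGraph V) (D : ℕ), AR G D K →
    C ≤ D → CntH T C (Fintype.card V) D → ∀ (g : V → V → Prop), (∀ w v, g w v → G.Adj w v) →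
    Fintype.card V * D ≤ Q * gc g → RC G L1 * Q' ≤ Fintype.card V * D ^ 2 →
    ∃ w, BUat T g (U.erase T.top) (fun _ => w) L (fun _ => True) ∅

/-- the upper bound from the pieces -/
def S_FIN : Prop := S_HUB → S_IND → S_MAIN

/-- glueing -/
noncomputable def glu {ι V : Type} (N : Finset ι) (ν ψ : ι → V) : ι → V :=
  fun x => if x ∈ N then ν x else ψ x

/-- many disjoint copies of N with roots ρ, attached to ψ at the nodes of D' -/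
def Att {ι V : Type} (T : TD ι) (g : V → V → Prop) (N D' : Finset ι) (ρ : ι → V) (Lk : ℕ)
    (Γ : (ι → V) → Prop) (ψ : ι → V) : Prop :=
  ∃ ν : Fin Lk → ι → V, (∀ l, GoodOn T g N (ν l) ρ) ∧
    (∀ l, ∀ q ∈ D', T.par q ∈ N → g (ν l (T.par q)) (ψ q)) ∧
    (∀ l, Γ (glu N (ν l) ψ)) ∧
    ∀ l l' x x', x ∈ N → x' ∈ N → ν l x = ν l' x' → l = l' ∧ x = x'

/-- assembly in the first case -/
def S_ASMT : Prop := ∀ (ι : Type) [Fintype ι] (T : TD ι) (F N : Finset ι), N ⊆ F → AdmF T F →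
    (∀ x ∈ N, T.par x ∈ F → T.par x ∈ N) →
    (∀ x ∈ N, T.Qn x → ∀ y ∈ F, T.par y = x → y ∈ N) →
    ∀ (V : Type) (g : V → V → Prop) (b : ι → V) (φ : ι ⊕ ι → V),
    (∀ c ∈ UC T F, ∀ c' ∈ UC T F, φ c = φ c' → c = c') →
    (∀ q ∈ F, T.par q ∉ F → φ (Sum.inr q) = b q) → ∀ Z : Finset V,
    (∀ c ∈ FC T F, φ c ∉ Z) → ∀ (L Lk : ℕ) (Γ : (ι → V) → Prop),
    Z.card + (2 * L + 2) * Fintype.card ι < Lk →
    BUat T g (F \ N) (fun q => if T.par q ∈ N then φ (Sum.inl (T.par q)) else b q) L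
      (Att T g N (F \ N) (fun q => φ (Sum.inr q)) Lk Γ)
      (Z ∪ N.image (fun q => φ (Sum.inr q))) →
    BUat T g F b L Γ Z

/-- assembly in the second case -/
def S_ASMU : Prop := ∀ (ι : Type) [Fintype ι] (T : TD ι) (E N : Finset ι) (u : ι), N ⊆ E →
    u ∈ N → T.top ∉ E → T.par u ∉ E → ¬ T.Qn u → (∀ x ∈ E, x ≠ u → T.par x ∈ E) →
    (∀ x ∈ N, x ≠ u → T.par x ∈ N) → (∀ y ∈ E, T.par y = u → y ∈ N) →
    (∀ x ∈ N, T.Qn x → ∀ y ∈ E, T.par y = x → y ∈ N) →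
    ∀ (V : Type) [Fintype V] (g : V → V → Prop) (φ : ι ⊕ ι → V),
    (∀ c ∈ UC T N, ∀ c' ∈ UC T N, φ c = φ c' → c = c') → ∀ Z : Finset V,
    (∀ c ∈ UC T N, c ≠ Sum.inl u → φ c ∉ Z) → ∀ (L L2 Lk Q D K : ℕ) (w : V), 0 < L → 0 < Q → 0 < K →
    (Finset.univ.filter (fun y => g w y)).card ≤ K * D →
    2 * L * K * Q ≤ L2 → L * Fintype.card ι * 2 < Lk →
    BUat T g (E \ N) (fun q => φ (Sum.inl (T.par q))) L2
      (fun ψ => D ≤ Q * (Finset.univ.filter (fun y => g w y ∧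
        Att T g N (E \ N) (fun q => φ (Sum.inr q)) Lk (fun ψ' => g (ψ' u) y) ψ)).card)
      (Z ∪ (UC T N).image φ) →
    ∃ ρ : ι → V, (∀ q ∈ E, ∀ q' ∈ E, T.Qn q → T.Qn q' → ρ q = ρ q' → q = q') ∧
      (∀ q ∈ E, T.Qn q → ρ q ∉ Z) ∧
      D ≤ 2 * Q * (Finset.univ.filter (fun y => g w y ∧ RichAt T g E u L y ρ)).card

/-- restriction to D', the parents in N becoming the roots -/
noncomputable def resD {ι V : Type} (T : TD ι) (N D' : Finset ι) (v0 : V) (φ : ι ⊕ ι → V) :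
    ι ⊕ ι → V
  | Sum.inl x => if x ∈ D' then φ (Sum.inl x) else v0
  | Sum.inr q => if q ∈ D' ∧ T.Qn q then
      (if T.par q ∈ N then φ (Sum.inl (T.par q)) else φ (Sum.inr q)) else v0

/-- restriction of members of a family -/
def S_RES : Prop := ∀ (ι : Type) [Fintype ι] (T : TD ι) (V : Type) [Fintype V]
    (G : SimpleGraph V) (g : V → V → Prop) (v0 : V) (L1 : ℕ) (F : Finset ι) (b : ι → V)
    (Γ : (ι → V) → Prop) (φ : ι ⊕ ι → V), Fam T G g v0 L1 F b Γ φ → AdmF T F →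
    ∀ N D' : Finset ι, N ⊆ F → D' ⊆ F → (∀ x ∈ D', x ∉ N) → AdmF T D' →
    (∀ q ∈ D', T.par q ∈ F → T.par q ∈ D' ∨ T.par q ∈ N) →
    (∀ q ∈ D', ∀ q' ∈ D', T.par q ∈ N → T.par q = T.par q' → q = q') →
    ∀ Γ' : (ι → V) → Prop, Γ' (fun x => resD T N D' v0 φ (Sum.inl x)) →
    Fam T G g v0 L1 D' (fun q => if T.par q ∈ N then φ (Sum.inl (T.par q)) else b q) Γ'
      (resD T N D' v0 φ)

/-- pigeonhole over the kernels for families over an index set -/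
def S_KPIG : Prop := ∀ (κ V Ω : Type) [Fintype κ] (L : ℕ), 0 < L →
    ∀ (R : Finset κ) (ρ0 X Q k : ℕ) (Ωs : Finset Ω) (𝓟 : Finset (Ω × (κ → V))),
    (∀ p ∈ 𝓟, p.1 ∈ Ωs) → (∀ v, v ∉ R → v ∈ Rᶜ) → Rᶜ.card ≤ k →
    (∀ ω ∈ Ωs, ∀ 𝓢 : Finset (κ → V), (∀ φ ∈ 𝓢, (ω, φ) ∈ 𝓟) →
      (𝓢.image (fun (φ : κ → V) (u : R) => φ u.1)).card ≤ ρ0) →
    0 < X → X ≤ Q * 𝓟.card → 2 * (Q * (Ωs.card * (2 * kc L k * ρ0))) ≤ X →
    ∃ Y : Finset κ, R ⊆ Y ∧ Y ≠ Finset.univ ∧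
      X ≤ 4 * Q * 4 ^ Fintype.card κ *
        (𝓟.filter (fun p => Rich {φ | (p.1, φ) ∈ 𝓟} L Y p.2)).card

end Pool.Agent.TH476
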