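import Pool.Agent.TH476.Ext

set_option autoImplicit false

open Classical

namespace Pool.Agent.TH476

variable {ι V : Type} [Fintype ι] [Fintype V]

lemma image_inst {α β : Type} (i1 i2 : DecidableEq β) (f : α → β) (s : Finset α) :
    (@Finset.image α β i1 f s).card = (@Finset.image α β i2 f s).card := by
  rw [Subsingleton.elim i1 i2]

/-- neighbours -/
noncomputable def nb (G : SimpleGraph V) (v : V) : Finset V :=
  Finset.univ.filter (fun w => G.Adj v w)

lemma mem_nb (G : SimpleGraph V) (v w : V) : w ∈ nb G v ↔ G.Adj v w := by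
  unfold nb
  simp

/-- almost regular -/
structure AR (G : SimpleGraph V) (D K : ℕ) : Prop where
  lo : ∀ v, D ≤ (nb G v).card
  hi : ∀ v, (nb G v).card ≤ K * D

/-- homomorphisms -/
def Hom {ι V : Type} (T : SimpleGraph ι) (G : SimpleGraph V) (φ : ι → V) : Prop :=
  ∀ u v, T.Adj u v → G.Adj (φ u) (φ v)

/-- embeddings -/
def Emb {ι V : Type} (T : SimpleGraph ι) (G : SimpleGraph V) (φ : ι → V) : Prop :=
  Hom T G φ ∧ Function.Injective φ

omit [Fintype ι] in
/-- a parent function towards u0 in a connected graph -/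
lemma exists_parent (T : SimpleGraph ι) (hT : T.Connected) (u0 : ι) :
    ∃ (p : ι → ι) (rk : ι → ℕ), ∀ v, v ≠ u0 → T.Adj (p v) v ∧ rk (p v) < rk v := by
  have h : ∀ v, ∃ w, v ≠ u0 → T.Adj w v ∧ T.dist w u0 < T.dist v u0 := by
    intro v
    by_cases hv : v = u0
    · exact ⟨v, fun h => absurd hv h⟩
    · obtain ⟨w, hw⟩ := hT.exists_walk_length_eq_dist v u0
      cases w with
      | nil => exact absurd rfl hv
      | @cons _ b _ h q =>
        refine ⟨b, fun _ => ⟨h.symm, ?_⟩⟩
        rw [← hw, SimpleGraph.Walk.length_cons]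
        exact Nat.lt_succ_of_le (SimpleGraph.dist_le q)
  choose p hp using h
  exact ⟨p, fun v => T.dist v u0, hp⟩

/-- number of homs with given values on a nonempty set -/
lemma hom_le (T : SimpleGraph ι) (hT : T.Connected) (G : SimpleGraph V) (D K : ℕ) (hG : AR G D K)
    (S : Finset ι) (hS : S.Nonempty) (ψ : ι → V) (𝓢 : Finset (ι → V)) (h1 : ∀ φ ∈ 𝓢, Hom T G φ)
    (h2 : ∀ φ ∈ 𝓢, ∀ u ∈ S, φ u = ψ u) : 𝓢.card ≤ (K * D) ^ Sᶜ.card := by
  obtain ⟨u0, hu0⟩ := hS
  obtain ⟨p, rk, hp⟩ := exists_parent T hT u0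
  have hne : ∀ v, v ∉ S → v ≠ u0 := fun v hv h => hv (h ▸ hu0)
  have h := ext_le rk (fun v φ => nb G (φ (p v))) (fun _ => K * D) Sᶜ.card S ψ rfl
    (fun v hv φ ψ h => by
      show nb G (φ (p v)) = nb G (ψ (p v))
      rw [h (p v) (hp v (hne v hv)).2])
    (fun v _ φ => hG.hi _)
  rw [Finset.prod_const] at h
  refine (Finset.card_le_card ?_).trans h
  intro φ hφ
  rw [mem_EX]
  refine ⟨h2 φ hφ, fun v hv => ?_⟩
  rw [mem_nb]
  exact h1 φ hφ _ _ (hp v (hne v hv)).1

/-- projection of a family of homs to its restriction to a nonempty set -/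
lemma proj_le {β : Type} (T : SimpleGraph ι) (hT : T.Connected) (G : SimpleGraph V) (D K : ℕ)
    (hG : AR G D K) (S : Finset ι) (hS : S.Nonempty) (𝓢 : Finset (ι → V))
    (h1 : ∀ φ ∈ 𝓢, Hom T G φ) (res : (ι → V) → β)
    (hres : ∀ φ ∈ 𝓢, ∀ ψ ∈ 𝓢, res φ = res ψ → ∀ u ∈ S, φ u = ψ u) :
    𝓢.card ≤ (K * D) ^ Sᶜ.card * (𝓢.image res).card := by
  refine Finset.card_le_mul_card_image 𝓢 _ fun b hb => ?_
  obtain ⟨ψ, hψ, rfl⟩ := Finset.mem_image.mp hb
  refine hom_le T hT G D K hG S hS ψ _ ?_ ?_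
  · intro φ hφ
    exact h1 φ (Finset.mem_filter.mp hφ).1
  · intro φ hφ
    obtain ⟨h3, h4⟩ := Finset.mem_filter.mp hφ
    exact hres φ h3 ψ hψ h4

/-- the tree given by a parent function -/
def PT {ι : Type} (p : ι → ι) (u0 : ι) : SimpleGraph ι :=
  SimpleGraph.fromRel (fun u v => v ≠ u0 ∧ u = p v)

omit [Fintype ι] in
lemma PT_adj (p : ι → ι) (u0 : ι) (rk : ι → ℕ) (hp : ∀ v, v ≠ u0 → rk (p v) < rk v) (u v : ι) :
    (PT p u0).Adj u v ↔ (v ≠ u0 ∧ u = p v) ∨ (u ≠ u0 ∧ v = p u) := by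
  unfold PT
  rw [SimpleGraph.fromRel_adj]
  constructor
  · exact fun h => h.2
  · intro h
    refine ⟨?_, h⟩
    rintro rfl
    rcases h with h | h
    · have := hp u h.1
      rw [← h.2] at this
      omega
    · have := hp u h.1
      rw [← h.2] at this
      omega

omit [Fintype ι] in
lemma PT_conn (p : ι → ι) (u0 : ι) (rk : ι → ℕ) (hp : ∀ v, v ≠ u0 → rk (p v) < rk v) :
    (PT p u0).Connected := by
  have h : ∀ (k : ℕ) (v : ι), rk v ≤ k → (PT p u0).Reachable v u0 := by
    intro k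
    induction k with
    | zero =>
      intro v hv
      by_cases h : v = u0
      · rw [h]
      · have := hp v h
        omega
    | succ k ih =>
      intro v hv
      by_cases h : v = u0
      · rw [h]
      · have h1 := hp v h
        have h2 := ih (p v) (by omega)
        refine SimpleGraph.Reachable.trans (SimpleGraph.Adj.reachable ?_) h2
        rw [PT_adj p u0 rk hp]
        exact Or.inr ⟨h, rfl⟩
  have : Nonempty ι := ⟨u0⟩
  exact SimpleGraph.Connected.mk fun u v => (h _ u le_rfl).trans (h _ v le_rfl).symm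

omit [Fintype ι] [Fintype V] in
lemma hom_PT (p : ι → ι) (u0 : ι) (rk : ι → ℕ) (hp : ∀ v, v ≠ u0 → rk (p v) < rk v)
    (G : SimpleGraph V) (φ : ι → V) :
    Hom (PT p u0) G φ ↔ ∀ v, v ≠ u0 → G.Adj (φ (p v)) (φ v) := by
  constructor
  · intro h v hv
    exact h _ _ ((PT_adj p u0 rk hp _ _).mpr (Or.inl ⟨hv, rfl⟩))
  · intro h u v huv
    rcases (PT_adj p u0 rk hp _ _).mp huv with ⟨h1, rfl⟩ | ⟨h1, rfl⟩
    · exact h v h1
    · exact (h u h1).symm

/-- lower bound for the number of homs -/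
lemma hom_ge (p : ι → ι) (u0 : ι) (rk : ι → ℕ) (hp : ∀ v, v ≠ u0 → rk (p v) < rk v)
    (G : SimpleGraph V) (D K : ℕ) (hG : AR G D K) :
    Fintype.card V * D ^ (Fintype.card ι - 1) ≤
      (Finset.univ.filter (fun φ : ι → V => Hom (PT p u0) G φ)).card := by
  rw [Finset.card_eq_sum_card_fiberwise (f := fun φ : ι → V => φ u0) (t := Finset.univ)
    (fun _ _ => Finset.mem_coe.mpr (Finset.mem_univ _))]
  rw [← Finset.card_univ (α := V), ← smul_eq_mul, ← Finset.sum_const]
  refine Finset.sum_le_sum fun z _ => ?_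
  have h := ext_ge rk (fun v φ => nb G (φ (p v))) (fun _ => D) ({u0} : Finset ι)ᶜ.card {u0}
    (fun _ => z) rfl
    (fun v hv φ ψ h => by
      show nb G (φ (p v)) = nb G (ψ (p v))
      rw [h (p v) (hp v (by simpa using hv))])
    (fun v _ φ => hG.lo _)
  rw [Finset.prod_const, Finset.card_compl, Finset.card_singleton] at h
  refine h.trans (Finset.card_le_card ?_)
  intro φ hφ
  rw [mem_EX] at hφ
  simp only [Finset.mem_filter, Finset.mem_univ, true_and]
  refine ⟨(hom_PT p u0 rk hp G φ).mpr fun v hv => ?_, ?_⟩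
  · rw [← mem_nb]
    exact hφ.2 v (by simpa using hv)
  · exact hφ.1 u0 (Finset.mem_singleton_self _)

/-- few homs are not injective -/
lemma noninj_le (T : SimpleGraph ι) (hT : T.Connected) (G : SimpleGraph V) (D K : ℕ)
    (hG : AR G D K) :
    (Finset.univ.filter (fun φ : ι → V => Hom T G φ ∧ ¬ Function.Injective φ)).card ≤
      Fintype.card ι ^ 2 * (Fintype.card V * (K * D) ^ (Fintype.card ι - 2)) := by
  have hsub : (Finset.univ.filter (fun φ : ι → V => Hom T G φ ∧ ¬ Function.Injective φ)) ⊆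
      ((Finset.univ : Finset (ι × ι)).filter (fun e => e.1 ≠ e.2)).biUnion (fun e =>
        (Finset.univ : Finset V).biUnion (fun z => Finset.univ.filter (fun φ : ι → V => Hom T G φ ∧
          φ e.1 = z ∧ φ e.2 = z))) := by
    intro φ hφ
    simp only [Finset.mem_filter, Finset.mem_univ, true_and, Finset.mem_biUnion] at hφ ⊢
    obtain ⟨h1, h2⟩ := hφ
    simp only [Function.Injective, not_forall] at h2
    obtain ⟨a, b, h3, h4⟩ := h2
    exact ⟨(a, b), h4, φ b, h1, h3, rfl⟩
  refine (Finset.card_le_card hsub).trans ?_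
  refine (Finset.card_biUnion_le_card_mul _ _ (Fintype.card V * (K * D) ^ (Fintype.card ι - 2))
    ?_).trans ?_
  · rintro ⟨a, b⟩ hab
    simp only [Finset.mem_filter, Finset.mem_univ, true_and] at hab
    rw [← Finset.card_univ (α := V)]
    refine Finset.card_biUnion_le_card_mul _ _ _ fun z _ => ?_
    have h := hom_le T hT G D K hG {a, b} ⟨a, by simp⟩ (fun _ => z)
      (Finset.univ.filter (fun φ : ι → V => Hom T G φ ∧ φ a = z ∧ φ b = z))
      (fun φ hφ => (Finset.mem_filter.mp hφ).2.1)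
      (fun φ hφ u hu => by
        obtain ⟨_, h1, h2⟩ := (Finset.mem_filter.mp hφ).2
        rcases Finset.mem_insert.mp hu with rfl | hu
        · exact h1
        · rw [Finset.mem_singleton.mp hu]
          exact h2)
    rw [Finset.card_compl, Finset.card_pair hab] at h
    exact h
  · refine Nat.mul_le_mul_right _ ?_
    refine (Finset.card_le_univ _).trans ?_
    rw [Fintype.card_prod, sq]

/-- many embeddings -/
lemma emb_ge (p : ι → ι) (u0 : ι) (rk : ι → ℕ) (hp : ∀ v, v ≠ u0 → rk (p v) < rk v)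
    (G : SimpleGraph V) (D K : ℕ) (hG : AR G D K) (hι : 2 ≤ Fintype.card ι)
    (hD : 2 * Fintype.card ι ^ 2 * K ^ (Fintype.card ι - 2) ≤ D) :
    Fintype.card V * D ^ (Fintype.card ι - 1) ≤
      2 * (Finset.univ.filter (fun φ : ι → V => Emb (PT p u0) G φ)).card := by
  have h1 := hom_ge p u0 rk hp G D K hG
  have h2 := noninj_le (PT p u0) (PT_conn p u0 rk hp) G D K hG
  have h3 : (Finset.univ.filter (fun φ : ι → V => Hom (PT p u0) G φ)).card =
      (Finset.univ.filter (fun φ : ι → V => Emb (PT p u0) G φ)).card +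
      (Finset.univ.filter (fun φ : ι → V => Hom (PT p u0) G φ ∧ ¬ Function.Injective φ)).card := by
    unfold Emb
    rw [← Finset.card_filter_add_card_filter_not (s := Finset.univ.filter
      (fun φ : ι → V => Hom (PT p u0) G φ)) (fun φ => Function.Injective φ),
      Finset.filter_filter, Finset.filter_filter]
    congr!
  have h4 : 2 * (Fintype.card ι ^ 2 * (Fintype.card V * (K * D) ^ (Fintype.card ι - 2))) ≤
      Fintype.card V * D ^ (Fintype.card ι - 1) := by
    obtain ⟨n, hn⟩ : ∃ n, Fintype.card ι = n + 2 := ⟨Fintype.card ι - 2, by omega⟩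
    rw [hn] at hD ⊢
    simp only [Nat.add_sub_cancel, show n + 2 - 1 = n + 1 from rfl] at hD ⊢
    calc 2 * ((n + 2) ^ 2 * (Fintype.card V * (K * D) ^ n))
        = (2 * (n + 2) ^ 2 * K ^ n) * (Fintype.card V * D ^ n) := by rw [mul_pow]; ring
      _ ≤ D * (Fintype.card V * D ^ n) := Nat.mul_le_mul_right _ hD
      _ = Fintype.card V * D ^ (n + 1) := by ring
  omega

/-- the main dichotomy: many embeddings are rich over some set Y -/
lemma master [Nonempty V] (p : ι → ι) (u0 : ι) (rk : ι → ℕ) (hp : ∀ v, v ≠ u0 → rk (p v) < rk v)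
    (G : SimpleGraph V) (D K L : ℕ) (hG : AR G D K) (hι : 2 ≤ Fintype.card ι)
    (hD : 2 * Fintype.card ι ^ 2 * K ^ (Fintype.card ι - 2) ≤ D) (R : Finset ι)
    (hL : 0 < L) (hD0 : 0 < D)
    (hN : 4 * kc L (Rᶜ.card) * Fintype.card V ^ R.card ≤
      Fintype.card V * D ^ (Fintype.card ι - 1)) :
    ∃ Y : Finset ι, R ⊆ Y ∧ Y ≠ Finset.univ ∧
      Fintype.card V * D ^ (Fintype.card ι - 1) ≤ 4 * 2 ^ Fintype.card ι *
        (Finset.univ.filter (fun φ : ι → V => Emb (PT p u0) G φ ∧
          Rich {φ | Emb (PT p u0) G φ} L Y φ)).card := by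
  by_contra hcon
  push Not at hcon
  have h1 := emb_ge p u0 rk hp G D K hG hι hD
  set E := Finset.univ.filter (fun φ : ι → V => Emb (PT p u0) G φ) with hE
  set X := Fintype.card V * D ^ (Fintype.card ι - 1) with hX
  -- nonrich embeddings
  set B := E.filter (fun φ => ∀ Y : Finset ι, R ⊆ Y → Y ≠ Finset.univ →
    ¬ Rich {φ | Emb (PT p u0) G φ} L Y φ) with hB
  have hBc : B.card ≤ kc L (Rᶜ.card) * Fintype.card V ^ R.card := by
    have h2 : B.card ≤ kc L (Rᶜ.card) * (B.image (fun φ => fun u : R => φ u.1)).card := by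
      refine Finset.card_le_mul_card_image B _ fun b hb => ?_
      obtain ⟨ψ, hψ, rfl⟩ := Finset.mem_image.mp hb
      refine kernel {φ | Emb (PT p u0) G φ} L hL _ R _ ψ rfl ?_ ?_ ?_
      · intro φ hφ
        have h3 := (Finset.mem_filter.mp hφ).1
        have h4 := (Finset.mem_filter.mp h3).1
        exact (Finset.mem_filter.mp h4).2
      · intro φ hφ u hu
        have h3 := (Finset.mem_filter.mp hφ).2
        exact congrFun h3 ⟨u, hu⟩
      · intro φ hφ
        have h3 := (Finset.mem_filter.mp hφ).1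
        exact (Finset.mem_filter.mp h3).2
    refine h2.trans (Nat.mul_le_mul_left _ ?_)
    refine (Finset.card_le_univ _).trans ?_
    rw [Fintype.card_fun, Fintype.card_coe]
  have hcov : E ⊆ B ∪ ((Finset.univ : Finset (Finset ι)).filter
      (fun Y => R ⊆ Y ∧ Y ≠ Finset.univ)).biUnion (fun Y =>
        Finset.univ.filter (fun φ : ι → V => Emb (PT p u0) G φ ∧
          Rich {φ | Emb (PT p u0) G φ} L Y φ)) := by
    intro φ hφ
    rw [Finset.mem_union]
    by_cases h : φ ∈ B
    · exact Or.inl h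
    · right
      rw [hB, Finset.mem_filter] at h
      push Not at h
      obtain ⟨Y, hY1, hY2, hY3⟩ := h hφ
      simp only [Finset.mem_biUnion, Finset.mem_filter, Finset.mem_univ, true_and]
      exact ⟨Y, ⟨hY1, hY2⟩, (Finset.mem_filter.mp hφ).2, hY3⟩
  have h5 := (Finset.card_le_card hcov).trans (Finset.card_union_le _ _)
  have h6 : 4 * (2 ^ Fintype.card ι) * (((Finset.univ : Finset (Finset ι)).filter
      (fun Y => R ⊆ Y ∧ Y ≠ Finset.univ)).biUnion (fun Y =>
        Finset.univ.filter (fun φ : ι → V => Emb (PT p u0) G φ ∧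
          Rich {φ | Emb (PT p u0) G φ} L Y φ))).card ≤ 2 ^ Fintype.card ι * (X - 1) := by
    calc _ ≤ 4 * (2 ^ Fintype.card ι) * ∑ Y ∈ ((Finset.univ : Finset (Finset ι)).filter
      (fun Y => R ⊆ Y ∧ Y ≠ Finset.univ)), (Finset.univ.filter (fun φ : ι → V =>
        Emb (PT p u0) G φ ∧ Rich {φ | Emb (PT p u0) G φ} L Y φ)).card :=
          Nat.mul_le_mul_left _ Finset.card_biUnion_le
      _ = ∑ Y ∈ ((Finset.univ : Finset (Finset ι)).filter
      (fun Y => R ⊆ Y ∧ Y ≠ Finset.univ)), 4 * (2 ^ Fintype.card ι) * (Finset.univ.filter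
        (fun φ : ι → V => Emb (PT p u0) G φ ∧ Rich {φ | Emb (PT p u0) G φ} L Y φ)).card :=
          Finset.mul_sum _ _ _
      _ ≤ ∑ Y ∈ ((Finset.univ : Finset (Finset ι)).filter
      (fun Y => R ⊆ Y ∧ Y ≠ Finset.univ)), (X - 1) := by
          refine Finset.sum_le_sum fun Y hY => ?_
          obtain ⟨_, h7, h8⟩ := Finset.mem_filter.mp hY
          have := hcon Y h7 h8
          omega
      _ = ((Finset.univ : Finset (Finset ι)).filter
      (fun Y => R ⊆ Y ∧ Y ≠ Finset.univ)).card * (X - 1) := by rw [Finset.sum_const, smul_eq_mul]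
      _ ≤ 2 ^ Fintype.card ι * (X - 1) := by
          refine Nat.mul_le_mul_right _ ?_
          refine (Finset.card_le_univ _).trans ?_
          rw [Fintype.card_finset]
  have h7 : 4 * (((Finset.univ : Finset (Finset ι)).filter
      (fun Y => R ⊆ Y ∧ Y ≠ Finset.univ)).biUnion (fun Y =>
        Finset.univ.filter (fun φ : ι → V => Emb (PT p u0) G φ ∧
          Rich {φ | Emb (PT p u0) G φ} L Y φ))).card ≤ X - 1 := by
    have hpos : 0 < 2 ^ Fintype.card ι := by positivity
    refine Nat.le_of_mul_le_mul_left ?_ hpos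
    calc _ = _ := by ring
      _ ≤ _ := h6
  -- X > 0 since otherwise the claim is trivial
  have hXpos : 0 < X := by
    have : 0 < Fintype.card V := Fintype.card_pos
    positivity
  have h8 : 4 * B.card ≤ X := by
    calc 4 * B.card ≤ 4 * (kc L (Rᶜ.card) * Fintype.card V ^ R.card) := Nat.mul_le_mul_left _ hBc
      _ = 4 * kc L (Rᶜ.card) * Fintype.card V ^ R.card := by ring
      _ ≤ X := hN
  omega

end Pool.Agent.TH476
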