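import Pool.Agent.TH476.KStm2

/-! Job 3718 (KK-ASMT): assembly of blowups, first case, for the k-th layer. -/

set_option autoImplicit false

open Classical

namespace Pool.Agent.TH476.KK

open Pool.Agent.TH476

namespace KAsmT

/-- one step of the greedy choice -/
theorem asmtFree {ι V : Type} (N : Finset ι) (Lk : ℕ) (ν : Fin Lk → ι → V)
    (hν : ∀ l l' x x', x ∈ N → x' ∈ N → ν l x = ν l' x' → l = l' ∧ x = x') (B : Finset V)
    (hB : B.card < Lk) : ∃ i, ∀ x ∈ N, ν i x ∉ B := by
  by_contra hcon
  push Not at hcon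
  choose f hf1 hf2 using hcon
  have h1 : (Finset.univ : Finset (Fin Lk)).card ≤ B.card := by
    refine Finset.card_le_card_of_injOn (fun i => ν i (f i)) (fun i _ => hf2 i) ?_
    intro i _ i' _ h
    exact (hν i i' (f i) (f i') (hf1 i) (hf1 i') h).1
  rw [Finset.card_univ, Fintype.card_fin] at h1
  omega

/-- greedy choice -/
theorem asmtGreedy {ι V : Type} (N : Finset ι) (L Lk : ℕ) (ν : Fin L → Fin Lk → ι → V)
    (hν : ∀ j, ∀ l l' x x', x ∈ N → x' ∈ N → ν j l x = ν j l' x' → l = l' ∧ x = x')
    (B : Finset V) (hB : B.card + L * N.card < Lk) :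
    ∃ k : Fin L → Fin Lk, (∀ l, ∀ x ∈ N, ν l (k l) x ∉ B) ∧
      ∀ l l' x x', x ∈ N → x' ∈ N → ν l (k l) x = ν l' (k l') x' → l = l' ∧ x = x' := by
  have key : ∀ s : Finset (Fin L), ∃ k : Fin L → Fin Lk, (∀ l ∈ s, ∀ x ∈ N, ν l (k l) x ∉ B) ∧
      ∀ l ∈ s, ∀ l' ∈ s, ∀ x x', x ∈ N → x' ∈ N → ν l (k l) x = ν l' (k l') x' →
        l = l' ∧ x = x' := by
    intro s
    induction s using Finset.induction_on with
    | empty => exact ⟨fun _ => ⟨0, by omega⟩, by simp, by simp⟩
    | insert j s hj ih =>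
      obtain ⟨k, hk1, hk2⟩ := ih
      set B' := B ∪ s.biUnion (fun l => N.image (ν l (k l))) with hB'
      have hcard : B'.card < Lk := by
        have h1 : B'.card ≤ B.card + (s.biUnion (fun l => N.image (ν l (k l)))).card :=
          Finset.card_union_le _ _
        have h2 : (s.biUnion (fun l => N.image (ν l (k l)))).card ≤ s.card * N.card :=
          Finset.card_biUnion_le_card_mul _ _ _ (fun l _ => Finset.card_image_le)
        have h3 : s.card ≤ L := by
          have := Finset.card_le_univ s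
          rwa [Fintype.card_fin] at this
        have h4 : s.card * N.card ≤ L * N.card := Nat.mul_le_mul_right _ h3
        omega
      obtain ⟨i, hi⟩ := asmtFree N Lk (ν j) (hν j) B' hcard
      have hne : ∀ l ∈ s, l ≠ j := by
        rintro l hl rfl
        exact hj hl
      have hcross : ∀ l ∈ s, ∀ x x', x ∈ N → x' ∈ N → ν j i x ≠ ν l (k l) x' := by
        intro l hl x x' hx hx' h
        apply hi x hx
        rw [hB', Finset.mem_union, Finset.mem_biUnion]
        exact Or.inr ⟨l, hl, Finset.mem_image.2 ⟨x', hx', h.symm⟩⟩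
      refine ⟨Function.update k j i, ?_, ?_⟩
      · intro l hl x hx
        rcases Finset.mem_insert.1 hl with rfl | hl
        · rw [Function.update_self]
          exact fun h => hi x hx (Finset.mem_union_left _ h)
        · rw [Function.update_of_ne (hne l hl)]
          exact hk1 l hl x hx
      · intro l hl l' hl' x x' hx hx' h
        rcases Finset.mem_insert.1 hl with e1 | hm
        · rcases Finset.mem_insert.1 hl' with e2 | hm'
          · rw [e1, e2, Function.update_self] at h
            exact ⟨e1.trans e2.symm, (hν _ _ _ _ _ hx hx' h).2⟩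
          · rw [e1, Function.update_self, Function.update_of_ne (hne l' hm')] at h
            exact absurd h (hcross l' hm' x x' hx hx')
        · rcases Finset.mem_insert.1 hl' with e2 | hm'
          · rw [e2, Function.update_self, Function.update_of_ne (hne l hm)] at h
            exact absurd h.symm (hcross l hm x' x hx' hx)
          · rw [Function.update_of_ne (hne l hm), Function.update_of_ne (hne l' hm')] at h
            exact hk2 l hm l' hm' x x' hx hx' h
  obtain ⟨k, h1, h2⟩ := key Finset.univ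
  exact ⟨k, fun l => h1 l (Finset.mem_univ _),
    fun l l' => h2 l (Finset.mem_univ _) l' (Finset.mem_univ _)⟩

theorem asmtGluMem {ι V : Type} {N : Finset ι} {ν ψ : ι → V} {x : ι} (h : x ∈ N) :
    glu N ν ψ x = ν x := if_pos h

theorem asmtGluNot {ι V : Type} {N : Finset ι} {ν ψ : ι → V} {x : ι} (h : x ∉ N) :
    glu N ν ψ x = ψ x := if_neg h

end KAsmT

open KAsmT

theorem asmT_holds : S_ASMT := by
  intro kk ι _ T F N hNF hAdm h1 hcen huniq V G E Rt hok b φ hinj hb Z hZ L Lk Γ hLk hBU
  obtain ⟨ψ', r', B1, B2, B3, B4, B5, B6, B7, B8⟩ := hBU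
  choose ν A1 A2 A3 A4 using B3
  -- the values to be avoided
  set B : Finset V := Z ∪ ((Finset.univ.image r') ∪ ((Finset.univ.image (fun q => φ (Sum.inr q))) ∪
    Finset.univ.image (fun p : Fin L × ι => ψ' p.1 p.2))) with hB
  have hcard : B.card + L * N.card < Lk := by
    have c1 : B.card ≤ Z.card + (Fintype.card ι + (Fintype.card ι + L * Fintype.card ι)) := by
      refine (Finset.card_union_le _ _).trans (Nat.add_le_add_left ?_ _)
      refine (Finset.card_union_le _ _).trans (Nat.add_le_add Finset.card_image_le ?_)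
      refine (Finset.card_union_le _ _).trans (Nat.add_le_add Finset.card_image_le ?_)
      refine Finset.card_image_le.trans ?_
      rw [Finset.card_univ, Fintype.card_prod, Fintype.card_fin]
    have c2 : L * N.card ≤ L * Fintype.card ι := Nat.mul_le_mul_left _ (Finset.card_le_univ _)
    have c3 : (2 * L + 2) * Fintype.card ι =
        Fintype.card ι + Fintype.card ι + (L * Fintype.card ι + L * Fintype.card ι) := by ring
    omega
  obtain ⟨k, k1, k2⟩ := asmtGreedy N L Lk ν A4 B hcard
  have kZ : ∀ l, ∀ x ∈ N, ν l (k l) x ∉ Z := fun l x hx h =>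
    k1 l x hx (Finset.mem_union_left _ h)
  have kr : ∀ l, ∀ x ∈ N, ∀ q, ν l (k l) x ≠ r' q := by
    intro l x hx q h
    apply k1 l x hx
    rw [hB, Finset.mem_union, Finset.mem_union, Finset.mem_image]
    exact Or.inr (Or.inl ⟨q, Finset.mem_univ _, h.symm⟩)
  have kφ : ∀ l, ∀ x ∈ N, ∀ q, ν l (k l) x ≠ φ (Sum.inr q) := by
    intro l x hx q h
    apply k1 l x hx
    rw [hB, Finset.mem_union, Finset.mem_union, Finset.mem_union, Finset.mem_image,
      Finset.mem_image]
    exact Or.inr (Or.inr (Or.inl ⟨q, Finset.mem_univ _, h.symm⟩))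
  have kψ : ∀ l, ∀ x ∈ N, ∀ l' y, ν l (k l) x ≠ ψ' l' y := by
    intro l x hx l' y h
    apply k1 l x hx
    rw [hB, Finset.mem_union, Finset.mem_union, Finset.mem_union, Finset.mem_image,
      Finset.mem_image, Finset.mem_image]
    exact Or.inr (Or.inr (Or.inr ⟨(l', y), Finset.mem_univ _, h.symm⟩))
  have hD : ∀ x ∈ F, x ∉ N → x ∈ F \ N := fun x h h' => Finset.mem_sdiff.2 ⟨h, h'⟩
  have hinr : ∀ q ∈ F, T.Qn q → Sum.inr q ∈ UC T F := by
    intro q hq hQ
    unfold UC
    rw [Finset.mem_filter]
    exact ⟨Finset.mem_univ _, Or.inr ⟨q, hq, hQ, rfl⟩⟩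
  have hinl : ∀ x ∈ F, Sum.inl x ∈ UC T F := by
    intro q hq
    unfold UC
    rw [Finset.mem_filter]
    exact ⟨Finset.mem_univ _, Or.inl ⟨q, hq, rfl⟩⟩
  have hFl : ∀ x ∈ F, Sum.inl x ∈ FC T F := by
    intro q hq
    unfold FC
    rw [Finset.mem_filter]
    exact ⟨Finset.mem_univ _, Or.inl ⟨q, hq, rfl⟩⟩
  have hFr : ∀ q ∈ F, T.Qn q → T.par q ∈ F → Sum.inr q ∈ FC T F := by
    intro q hq hQ hp
    unfold FC
    rw [Finset.mem_filter]
    exact ⟨Finset.mem_univ _, Or.inr ⟨q, hq, hQ, hp, rfl⟩⟩
  -- the roots of the nodes of the rest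
  have hr' : ∀ q ∈ F, q ∉ N → T.par q ∈ N → r' q = φ (Sum.inl (T.par q)) := by
    intro q hq hqN hp
    have := B1 q (hD q hq hqN) (fun h => (Finset.mem_sdiff.1 h).2 hp)
    exact this.trans (if_pos hp)
  have hr'' : ∀ q ∈ F, q ∉ N → T.par q ∉ F → r' q = b q := by
    intro q hq hqN hp
    have := B1 q (hD q hq hqN) (fun h => hp (Finset.mem_sdiff.1 h).1)
    exact this.trans (if_neg (fun h => hp (hNF h)))
  have hmix : ∀ q ∈ N, ∀ q' ∈ F, q' ∉ N → T.Qn q → T.Qn q' → φ (Sum.inr q) ≠ r' q' := by
    intro q hq q' hq' hq'N hQ hQ' h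
    by_cases hp : T.par q' ∈ F
    · by_cases hpN : T.par q' ∈ N
      · rw [hr' q' hq' hq'N hpN] at h
        have := hinj _ (hinr q (hNF hq) hQ) _ (hinl _ hp) h
        cases this
      · apply B8 q' (hD q' hq' hq'N) hQ' (hD _ hp hpN)
        rw [← h]
        exact Finset.mem_union_right _ (Finset.mem_image.2 ⟨q, hq, rfl⟩)
    · rw [hr'' q' hq' hq'N hp, ← hb q' hq' hp] at h
      have := Sum.inr_injective (hinj _ (hinr q (hNF hq) hQ) _ (hinr q' hq' hQ') h)
      rw [this] at hq
      exact hq'N hq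
  refine ⟨fun l => glu N (ν l (k l)) (ψ' l), fun q => if q ∈ N then φ (Sum.inr q) else r' q,
    ?_, ?_, ?_, ?_, ?_, ?_, ?_, ?_⟩
  · intro q hq hp
    by_cases hqN : q ∈ N
    · simp only [if_pos hqN]
      exact hb q hq hp
    · simp only [if_neg hqN]
      exact hr'' q hq hqN hp
  · intro l
    refine ⟨?_, ?_⟩
    · intro x hx hQ
      by_cases hxN : x ∈ N
      · simp only [if_pos hxN, asmtGluMem hxN]
        exact (A1 l (k l)).1 x hxN hQ
      · simp only [if_neg hxN, asmtGluNot hxN]
        exact (B2 l).1 x (hD x hx hxN) hQ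
    · intro x hx hp
      by_cases hxN : x ∈ N
      · have hpN := h1 x hxN hp
        simp only [asmtGluMem hxN, asmtGluMem hpN]
        exact (A1 l (k l)).2 x hxN hpN
      · by_cases hpN : T.par x ∈ N
        · simp only [asmtGluNot hxN, asmtGluMem hpN]
          exact A2 l (k l) x (hD x hx hxN) hpN
        · simp only [asmtGluNot hxN, asmtGluNot hpN]
          exact (B2 l).2 x (hD x hx hxN) (hD _ hp hpN)
  · intro l
    exact A3 l (k l)
  · intro l l' x x' hx hx' h
    by_cases hxN : x ∈ N
    · by_cases hxN' : x' ∈ N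
      · simp only [asmtGluMem hxN, asmtGluMem hxN'] at h
        exact k2 l l' x x' hxN hxN' h
      · simp only [asmtGluMem hxN, asmtGluNot hxN'] at h
        exact absurd h (kψ l x hxN l' x')
    · by_cases hxN' : x' ∈ N
      · simp only [asmtGluNot hxN, asmtGluMem hxN'] at h
        exact absurd h.symm (kψ l' x' hxN' l x)
      · simp only [asmtGluNot hxN, asmtGluNot hxN'] at h
        exact B4 l l' x x' (hD x hx hxN) (hD x' hx' hxN') h
  · intro l x q hx hq hQ
    by_cases hxN : x ∈ N
    · by_cases hqN : q ∈ N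
      · simp only [asmtGluMem hxN, if_pos hqN]
        exact kφ l x hxN q
      · simp only [asmtGluMem hxN, if_neg hqN]
        exact kr l x hxN q
    · by_cases hqN : q ∈ N
      · simp only [asmtGluNot hxN, if_pos hqN]
        intro h
        apply B7 l x (hD x hx hxN)
        rw [h]
        exact Finset.mem_union_right _ (Finset.mem_image.2 ⟨q, hqN, rfl⟩)
      · simp only [asmtGluNot hxN, if_neg hqN]
        exact B5 l x q (hD x hx hxN) (hD q hq hqN) hQ
  · intro q q' hq hq' hQ hQ' h
    by_cases hqN : q ∈ N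
    · by_cases hqN' : q' ∈ N
      · simp only [if_pos hqN, if_pos hqN'] at h
        exact Sum.inr_injective (hinj _ (hinr q hq hQ) _ (hinr q' hq' hQ') h)
      · simp only [if_pos hqN, if_neg hqN'] at h
        exact absurd h (hmix q hqN q' hq' hqN' hQ hQ')
    · by_cases hqN' : q' ∈ N
      · simp only [if_neg hqN, if_pos hqN'] at h
        exact absurd h.symm (hmix q' hqN' q hq hqN hQ' hQ)
      · simp only [if_neg hqN, if_neg hqN'] at h
        exact B6 q q' (hD q hq hqN) (hD q' hq' hqN') hQ hQ' h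
  · intro l x hx
    by_cases hxN : x ∈ N
    · simp only [asmtGluMem hxN]
      exact kZ l x hxN
    · simp only [asmtGluNot hxN]
      exact fun h => B7 l x (hD x hx hxN) (Finset.mem_union_left _ h)
  · intro q hq hQ hp
    by_cases hqN : q ∈ N
    · simp only [if_pos hqN]
      exact hZ _ (hFr q hq hQ hp)
    · simp only [if_neg hqN]
      by_cases hpN : T.par q ∈ N
      · rw [hr' q hq hqN hpN]
        exact hZ _ (hFl _ hp)
      · exact fun h => B8 q (hD q hq hqN) hQ (hD _ hp hpN) (Finset.mem_union_left _ h)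

end Pool.Agent.TH476.KK
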