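import Pool.Agent.TH476.KStm2

set_option autoImplicit false

open Classical

namespace Pool.Agent.TH476.KK.KAsmU

open Pool.Agent.TH476 Pool.Agent.TH476.KK

lemma in_U {k : ℕ} {ι : Type} [Fintype ι] (T : TE k ι) (N : Finset ι) (x : ι) (hx : x ∈ N) :
    Sum.inl x ∈ UC T N := by
  unfold UC
  exact Finset.mem_filter.mpr ⟨Finset.mem_univ _, Or.inl ⟨x, hx, rfl⟩⟩

lemma in_U' {k : ℕ} {ι : Type} [Fintype ι] (T : TE k ι) (N : Finset ι) (x : ι) (hx : x ∈ N)
    (hQ : T.Qn x) : Sum.inr x ∈ UC T N := by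
  unfold UC
  exact Finset.mem_filter.mpr ⟨Finset.mem_univ _, Or.inr ⟨x, hx, hQ, rfl⟩⟩

/-- double counting -/
lemma dbl {V : Type} [Fintype V] (Y : Finset V) (L L2 Q D K : ℕ) (hL : 0 < L) (hQ : 0 < Q)
    (hK : 0 < K) (hY : Y.card ≤ K * D) (hL2 : 2 * L * K * Q ≤ L2) (R : Fin L2 → V → Prop)
    (h : ∀ l, D ≤ Q * (Y.filter (fun y => R l y)).card) :
    D ≤ 2 * Q * (Y.filter (fun y =>
      L ≤ ((Finset.univ : Finset (Fin L2)).filter (fun l => R l y)).card)).card := by
  have hL2pos : 0 < L2 := lt_of_lt_of_le (by positivity) hL2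
  have h1 : ∑ l : Fin L2, (Y.filter (fun y => R l y)).card =
      ∑ y ∈ Y, ((Finset.univ : Finset (Fin L2)).filter (fun l => R l y)).card := by
    simp only [Finset.card_filter]
    rw [Finset.sum_comm]
  have h2 : ∑ y ∈ Y, ((Finset.univ : Finset (Fin L2)).filter (fun l => R l y)).card ≤
      (Y.filter (fun y =>
        L ≤ ((Finset.univ : Finset (Fin L2)).filter (fun l => R l y)).card)).card * L2 +
      (K * D) * L := by
    rw [← Finset.sum_filter_add_sum_filter_not Y (fun y =>
        L ≤ ((Finset.univ : Finset (Fin L2)).filter (fun l => R l y)).card)]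
    refine Nat.add_le_add ?_ ?_
    · rw [← smul_eq_mul, ← Finset.sum_const]
      refine Finset.sum_le_sum fun y _ => ?_
      refine (Finset.card_le_univ _).trans ?_
      rw [Fintype.card_fin]
    · refine le_trans (Finset.sum_le_sum (g := fun _ => L) fun y hy => ?_) ?_
      · have := (Finset.mem_filter.mp hy).2
        omega
      · rw [Finset.sum_const, smul_eq_mul]
        exact Nat.mul_le_mul_right _ ((Finset.card_filter_le _ _).trans hY)
  have h3 : L2 * D ≤ Q * ∑ l : Fin L2, (Y.filter (fun y => R l y)).card := by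
    rw [Finset.mul_sum]
    calc L2 * D = ∑ l : Fin L2, D := by
          rw [Finset.sum_const, Finset.card_univ, Fintype.card_fin, smul_eq_mul]
      _ ≤ _ := Finset.sum_le_sum fun l _ => h l
  obtain ⟨n1, hn1⟩ : ∃ n1, n1 = (Y.filter (fun y =>
        L ≤ ((Finset.univ : Finset (Fin L2)).filter (fun l => R l y)).card)).card := ⟨_, rfl⟩
  rw [← hn1] at h2 ⊢
  have h4 : L2 * D ≤ Q * (n1 * L2 + (K * D) * L) := h3.trans (Nat.mul_le_mul_left _ (h1 ▸ h2))
  have h5 : 2 * L * K * Q * D ≤ L2 * D := Nat.mul_le_mul_right _ hL2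
  have h6 : Q * (n1 * L2 + (K * D) * L) * 2 = L2 * (2 * Q * n1) + 2 * L * K * Q * D := by ring
  refine Nat.le_of_mul_le_mul_left ?_ hL2pos
  omega

end Pool.Agent.TH476.KK.KAsmU

namespace Pool.Agent.TH476.KK

open Pool.Agent.TH476 KAsmU

theorem asmU_holds : S_ASMU := by
  intro k ι _ T E0 N u hNE hu htop hpu hCu hCpu hE hN hch hNC hNu1 V _ G E Rt hRS φ hφ Z hZ
    L L2 Lk Q D K w hL hQ hK hwK hL2 hLk hB
  obtain ⟨ψ, r, b1, b2, b3, b4, b5, b6, b7, b8⟩ := hB
  have mEN : ∀ x, x ∈ E0 → x ∉ N → x ∈ E0 \ N := fun x h1 h2 => Finset.mem_sdiff.mpr ⟨h1, h2⟩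
  have hNu : ∀ x, x ∉ N → x ≠ u := fun x h1 h2 => h1 (h2 ▸ hu)
  have hUZ : ∀ c ∈ UC T N, φ c ∈ Z ∪ (UC T N).image φ := fun c hc =>
    Finset.mem_union_right _ (Finset.mem_image_of_mem _ hc)
  -- the root of a Q-node outside N
  have hr : ∀ q, q ∈ E0 → q ∉ N → T.Qn q →
      (T.par q ∈ N ∧ T.par q ≠ u ∧ r q = φ (Sum.inl (T.par q))) ∨
      (r q ∉ Z ∪ (UC T N).image φ) := by
    intro q hq hqN hQq
    have hpE := hE q hq (hNu q hqN)
    by_cases hp : T.par q ∈ N
    · refine Or.inl ⟨hp, fun h0 => hqN (hch q hq h0), b1 q (mEN q hq hqN) ?_⟩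
      intro h0
      exact (Finset.mem_sdiff.mp h0).2 hp
    · exact Or.inr (b8 q (mEN q hq hqN) hQq (mEN _ hpE hp))
  refine ⟨fun q => if q ∈ N then φ (Sum.inr q) else r q, ?_, ?_, ?_⟩
  · intro q hq q' hq' hQq hQq' he
    by_cases h1 : q ∈ N <;> by_cases h2 : q' ∈ N
    · simp only [if_pos h1, if_pos h2] at he
      exact Sum.inr_injective (hφ _ (in_U' T N q h1 hQq) _ (in_U' T N q' h2 hQq') he)
    · simp only [if_pos h1, if_neg h2] at he
      rcases hr q' hq' h2 hQq' with ⟨h3, _, h4⟩ | h3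
      · rw [h4] at he
        exact absurd (hφ _ (in_U' T N q h1 hQq) _ (in_U T N _ h3) he) (by simp)
      · exact absurd (he ▸ hUZ _ (in_U' T N q h1 hQq)) h3
    · simp only [if_neg h1, if_pos h2] at he
      rcases hr q hq h1 hQq with ⟨h3, _, h4⟩ | h3
      · rw [h4] at he
        exact absurd (hφ _ (in_U T N _ h3) _ (in_U' T N q' h2 hQq') he) (by simp)
      · exact absurd (he ▸ hUZ _ (in_U' T N q' h2 hQq')) h3
    · simp only [if_neg h1, if_neg h2] at he
      exact b6 q q' (mEN q hq h1) (mEN q' hq' h2) hQq hQq' he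
  · intro q hq hQq
    by_cases h1 : q ∈ N
    · simp only [if_pos h1]
      exact hZ _ (in_U' T N q h1 hQq) (by simp)
    · simp only [if_neg h1]
      rcases hr q hq h1 hQq with ⟨h3, h5, h4⟩ | h3
      · rw [h4]
        exact hZ _ (in_U T N _ h3) (fun h0 => h5 (Sum.inl_injective h0))
      · exact fun h0 => h3 (Finset.mem_union_left _ h0)
  · have h1 := dbl (Finset.univ.filter (fun y => Rt (T.par u) w y)) L L2 Q D K hL hQ hK hwK hL2
      (fun l y => Att T E Rt N (E0 \ N) (fun q => φ (Sum.inr q)) Lk (fun ψ' => E u y (ψ' u))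
        (ψ l))
      (fun l => by
        rw [Finset.filter_filter]
        exact b3 l)
    refine h1.trans (Nat.mul_le_mul_left _ (Finset.card_le_card ?_))
    intro y hy
    obtain ⟨hy1, hy2⟩ := Finset.mem_filter.mp hy
    have hwy := (Finset.mem_filter.mp hy1).2
    refine Finset.mem_filter.mpr ⟨Finset.mem_univ _, hwy, ?_⟩
    obtain ⟨S, hS1, hS2⟩ := Finset.exists_subset_card_eq hy2
    obtain ⟨σ, hσ1, hσ2⟩ : ∃ σ : Fin L → Fin L2, Function.Injective σ ∧ ∀ i,
        Att T E Rt N (E0 \ N) (fun q => φ (Sum.inr q)) Lk (fun ψ' => E u y (ψ' u))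
          (ψ (σ i)) :=
      ⟨fun i => (S.equivFinOfCardEq hS2).symm i, fun a b hab =>
        (S.equivFinOfCardEq hS2).symm.injective (Subtype.ext hab),
        fun i => (Finset.mem_filter.mp (hS1 ((S.equivFinOfCardEq hS2).symm i).2)).2⟩
    choose ν n1 n2 n3 n4 using hσ2
    obtain ⟨Z0, hZ0⟩ : ∃ Z0 : Finset V, Z0 = ((Finset.univ : Finset (Fin L)) ×ˢ E0).image
      (fun p => ψ (σ p.1) p.2) := ⟨_, rfl⟩
    have hZ0c : Z0.card ≤ L * Fintype.card ι := by
      rw [hZ0]
      refine Finset.card_image_le.trans ?_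
      rw [Finset.card_product, Finset.card_univ, Fintype.card_fin]
      exact Nat.mul_le_mul_left _ (Finset.card_le_univ _)
    have hZ0m : ∀ i x, x ∈ E0 → ψ (σ i) x ∈ Z0 := by
      intro i x hx
      rw [hZ0]
      exact Finset.mem_image.mpr ⟨(i, x), Finset.mem_product.mpr ⟨Finset.mem_univ _, hx⟩, rfl⟩
    obtain ⟨j, _, j2, j3⟩ := greedy (κ := Fin L) (fun i (j : Fin Lk) => N.image (ν i j))
      (Fintype.card ι) (fun _ _ => True) Z0
      (fun i j _ => Finset.card_image_le.trans (Finset.card_le_univ _))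
      (fun i Z' hZ' => by
        by_contra hcon
        push Not at hcon
        have hex : ∀ j : Fin Lk, ∃ x ∈ N, ν i j x ∈ Z' := by
          intro j
          have h2 := hcon j trivial
          rw [Finset.not_disjoint_iff] at h2
          obtain ⟨v, hv1, hv2⟩ := h2
          obtain ⟨x, hx, rfl⟩ := Finset.mem_image.mp hv1
          exact ⟨x, hx, hv2⟩
        choose x hx1 hx2 using hex
        have h3 : Fintype.card (Fin Lk) ≤ Z'.card := by
          rw [← Finset.card_univ]
          refine Finset.card_le_card_of_injOn (fun j => ν i j (x j)) (fun j _ => hx2 j) ?_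
          intro j1 _ j2 _ h4
          exact (n4 i j1 j2 (x j1) (x j2) (hx1 j1) (hx1 j2) h4).1
        rw [Fintype.card_fin] at h3 hZ'
        have h4 : L * Fintype.card ι * 2 = L * Fintype.card ι + L * Fintype.card ι := by ring
        omega)
    have mN : ∀ i x, x ∈ N → ν i (j i) x ∈ N.image (ν i (j i)) := fun i x hx =>
      Finset.mem_image_of_mem _ hx
    have gN : ∀ i x, x ∈ N → glu N (ν i (j i)) (ψ (σ i)) x = ν i (j i) x := fun i x hx => by
      unfold glu
      exact if_pos hx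
    have gE : ∀ i x, x ∉ N → glu N (ν i (j i)) (ψ (σ i)) x = ψ (σ i) x := fun i x hx => by
      unfold glu
      exact if_neg hx
    refine ⟨fun i => glu N (ν i (j i)) (ψ (σ i)), ?_, ?_, ?_⟩
    · intro i
      refine ⟨?_, ?_⟩
      · intro x hx hQx
        by_cases h2 : x ∈ N
        · simp only [if_pos h2, gN i x h2]
          exact (n1 i (j i)).1 x h2 hQx
        · simp only [if_neg h2, gE i x h2]
          exact (b2 (σ i)).1 x (mEN x hx h2) hQx
      · intro x hx hpx
        by_cases h2 : x ∈ N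
        · have h3 := hN x h2 (fun h0 => hpu (h0 ▸ hpx))
          simp only [gN i x h2, gN i _ h3]
          exact (n1 i (j i)).2 x h2 h3
        · by_cases h3 : T.par x ∈ N
          · simp only [gE i x h2, gN i _ h3]
            exact n2 i (j i) x (mEN x hx h2) h3
          · simp only [gE i x h2, gE i _ h3]
            exact (b2 (σ i)).2 x (mEN x hx h2) (mEN _ hpx h3)
    · intro i
      exact n3 i (j i)
    · intro i i' x x' hx hx' he
      by_cases h2 : x ∈ N <;> by_cases h3 : x' ∈ N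
      · simp only [gN i x h2, gN i' x' h3] at he
        by_cases hii : i = i'
        · subst hii
          exact ⟨rfl, (n4 i _ _ x x' h2 h3 he).2⟩
        · exact absurd (he ▸ mN i x h2)
            (Finset.disjoint_right.mp (j3 i i' hii) (mN i' x' h3))
      · simp only [gN i x h2, gE i' x' h3] at he
        exact absurd (hZ0m i' x' hx') (Finset.disjoint_left.mp (j2 i) (he ▸ mN i x h2))
      · simp only [gE i x h2, gN i' x' h3] at he
        exact absurd (hZ0m i x hx) (Finset.disjoint_left.mp (j2 i') (he ▸ mN i' x' h3))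
      · simp only [gE i x h2, gE i' x' h3] at he
        have := b4 (σ i) (σ i') x x' (mEN x hx h2) (mEN x' hx' h3) he
        exact ⟨hσ1 this.1, this.2⟩

end Pool.Agent.TH476.KK
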