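import Pool.Agent.TH476.KKst

set_option autoImplicit false

open Classical

namespace Pool.Agent.TH476.KK

variable {k : ℕ} {ι : Type} [Fintype ι]

/-- the claim for given constants and given sets -/
def CL (T : TE k ι) (K Q Q' L ζ L1 C : ℕ) (U F : Finset ι) : Prop :=
    ∀ (V : Type) [Fintype V] [Nonempty V] (G : SimpleGraph V) (D : ℕ), AR G D K →
    CntH T C (Fintype.card V) D →
    ∀ (E Rt : ι → V → V → Prop), RSok T G E Rt → ∀ B : ℕ → V → V → Prop,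
    BSp G k L1 B → ∀ (v0 : V) (Ω : Type) (b : Ω → ι → V)
    (Γ : Ω → (ι → V) → Prop) (Ωs : Finset Ω) (S : ℕ), 0 < S →
    (∀ q ∈ F, T.par q ∉ F → ∀ w, (Ωs.filter (fun ω => b ω q = w)).card ≤ S) →
    ∀ 𝓟 : Finset (Ω × (ι ⊕ ι → V)),
    (∀ p ∈ 𝓟, p.1 ∈ Ωs ∧ Fam T G E Rt B v0 F (b p.1) (Γ p.1) p.2) →
    Fintype.card V * S * D ^ (FC T F).card ≤ Q * 𝓟.card →
    (∃ u ∈ F, (¬ T.Cn u ∧ T.Cn (T.par u)) ∧ Fintype.card V ≤
      Q' * (Finset.univ.filter (fun w => PopW T E Rt (Dsc T U u) u L ζ Q' D w)).card) ∨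
    Fintype.card V * S ≤
      Q' * (Ωs.filter (fun ω => ∀ Z : Finset V, Z.card ≤ ζ → BUat T E Rt F (b ω) L (Γ ω) Z)).card

omit [Fintype ι] in
lemma admF_sdiff {T : TE k ι} {F N : Finset ι} (hF : AdmF T F)
    (c3 : ∀ x ∈ F, x ∉ N → T.par x ∈ N → T.Cn x) : AdmF T (F \ N) := by
  refine ⟨fun h => hF.1 (Finset.mem_sdiff.mp h).1, ?_⟩
  intro x hx hQ
  obtain ⟨hxF, hxN⟩ := Finset.mem_sdiff.mp hx
  exact Finset.mem_sdiff.mpr ⟨hF.2 x hxF hQ, fun hp => hQ (c3 x hxF hxN hp)⟩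

omit [Fintype ι] in
/-- different nodes outside N have different parents in N -/
lemma uniq_par {T : TE k ι} {F N : Finset ι} (hF : AdmF T F) (hNF : N ⊆ F)
    (c3 : ∀ x ∈ F, x ∉ N → T.par x ∈ N → T.Cn x) {q q' : ι} (hq : q ∈ F) (hq' : q' ∈ F)
    (hqN : q ∉ N) (hp : T.par q ∈ N) (he : T.par q = T.par q') : q = q' := by
  have hC := c3 q hq hqN hp
  have hpt : T.par q ≠ T.top := fun h => hF.1 (h ▸ hNF hp)
  have h1 := (T.C_par q hC hpt).1
  exact T.one (T.par q) q q' hpt h1 (hF.ne_top hq) (hF.ne_top hq') rfl he.symm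

lemma FC_mono (T : TE k ι) {N F : Finset ι} (h : N ⊆ F) : FC T N ⊆ FC T F := by
  intro c hc
  rcases c with x | q
  · rw [mem_FC_inl] at *
    exact h hc
  · rw [mem_FC_inr] at *
    exact ⟨h hc.1, hc.2.1, h hc.2.2⟩

lemma FC_card_le (T : TE k ι) (F : Finset ι) : (FC T F).card ≤ 2 * Fintype.card ι := by
  refine (Finset.card_le_univ _).trans ?_
  rw [Fintype.card_sum]
  omega

lemma FC_disj (T : TE k ι) {N D' : Finset ι} (h : ∀ x ∈ D', x ∉ N) :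
    Disjoint (FC T N) (FC T D') := by
  rw [Finset.disjoint_left]
  intro c hc hc'
  rcases c with x | q
  · rw [mem_FC_inl] at *
    exact h x hc' hc
  · rw [mem_FC_inr] at *
    exact h q hc'.1 hc.1

omit [Fintype ι] in
lemma resD_inl {V : Type} (T : TE k ι) (N D' : Finset ι) (v0 : V) (φ : ι ⊕ ι → V) {x : ι}
    (hx : x ∈ D') : resD T N D' v0 φ (Sum.inl x) = φ (Sum.inl x) := if_pos hx

omit [Fintype ι] in
lemma resD_inr {V : Type} (T : TE k ι) (N D' : Finset ι) (v0 : V) (φ : ι ⊕ ι → V) {q : ι}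
    (hq : q ∈ D') (hQ : T.Qn q) (hp : T.par q ∉ N) :
    resD T N D' v0 φ (Sum.inr q) = φ (Sum.inr q) := by
  show (if q ∈ D' ∧ T.Qn q then
      (if T.par q ∈ N then φ (Sum.inl (T.par q)) else φ (Sum.inr q)) else v0) = _
  rw [if_pos ⟨hq, hQ⟩, if_neg hp]

/-- fibres over a finite set of values -/
lemma card_le_fib' {α β : Type} (𝓢 : Finset α) (f : α → β) (B : Finset β) (m : ℕ)
    (hf : ∀ a ∈ 𝓢, f a ∈ B)
    (h : ∀ y ∈ B, ∀ 𝓢' : Finset α, (∀ a ∈ 𝓢', a ∈ 𝓢 ∧ f a = y) → 𝓢'.card ≤ m) :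
    𝓢.card ≤ B.card * m :=
  card_le_fib 𝓢 f B m hf fun y hy => h y hy _ fun _ ha => Finset.mem_filter.mp ha

/-- on FC D' the restriction agrees with the copy -/
lemma resD_FC {V : Type} (T : TE k ι) {N D' : Finset ι} (hd : ∀ x ∈ D', x ∉ N) (v0 : V)
    (φ : ι ⊕ ι → V) {c : ι ⊕ ι} (hc : c ∈ FC T D') : resD T N D' v0 φ c = φ c := by
  rcases c with x | q
  · exact resD_inl T N D' v0 φ ((mem_FC_inl T D' x).mp hc)
  · obtain ⟨h1, h2, h3⟩ := (mem_FC_inr T D' q).mp hc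
    exact resD_inr T N D' v0 φ h1 h2 (hd _ h3)

/-- the first case: the movable P-nodes have movable parents -/
lemma caseT (hres : S_RES) (hasm : S_ASMT) (T : TE k ι) (K : ℕ) (hK : 0 < K)
    (Q2 Q'' L ζ L1 Lk C : ℕ) (hLk : ζ + (2 * L + 2) * Fintype.card ι < Lk)
    (U F N : Finset ι) (hF : AdmF T F) (hN : KSt T F N)
    (hT : ∀ x ∈ N, T.par x ∈ F → T.par x ∈ N)
    (ih : CL T K (Q2 * K ^ (2 * Fintype.card ι)) Q'' L (ζ + Fintype.card ι) L1 C U (F \ N))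
    (V : Type) [Fintype V] [Nonempty V] (G : SimpleGraph V) (D : ℕ) (hG : AR G D K) (hD : 0 < D)
    (hC : CntH T C (Fintype.card V) D) (E Rt : ι → V → V → Prop)
    (hR : RSok T G E Rt) (B : ℕ → V → V → Prop) (hB : BSp G k L1 B) (v0 : V)
    (Ω : Type) (b : Ω → ι → V) (Γ : Ω → (ι → V) → Prop) (Ωs : Finset Ω) (S : ℕ) (hS0 : 0 < S)
    (hS : ∀ q ∈ F, T.par q ∉ F → ∀ w, (Ωs.filter (fun ω => b ω q = w)).card ≤ S)
    (Zf : Ω → Finset V)
    (𝓟 : Finset (Ω × (ι ⊕ ι → V)))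
    (h𝓟 : ∀ p ∈ 𝓟, p.1 ∈ Ωs ∧ Fam T G E Rt B v0 F (b p.1) (Γ p.1) p.2 ∧ (Zf p.1).card ≤ ζ ∧
      (∀ c ∈ FC T F, p.2 c ∉ Zf p.1) ∧ ¬ BUat T E Rt F (b p.1) L (Γ p.1) (Zf p.1) ∧
      Att T E Rt N (F \ N) (fun q => p.2 (Sum.inr q)) Lk (Γ p.1)
        (fun x => resD T N (F \ N) v0 p.2 (Sum.inl x)))
    (hcard : Fintype.card V * S * D ^ (FC T F).card ≤ Q2 * 𝓟.card) :
    ∃ u ∈ F, (¬ T.Cn u ∧ T.Cn (T.par u)) ∧ Fintype.card V ≤ Q'' * (Finset.univ.filter (fun w =>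
      PopW T E Rt (Dsc T U u) u L (ζ + Fintype.card ι) Q'' D w)).card := by
  have hadm : AdmF T (F \ N) := admF_sdiff hF hN.c3
  have hadmN : AdmF T N := ⟨fun h => hF.1 (hN.sub h), fun x hx hC =>
    hT x hx (hF.2 x (hN.sub hx) hC)⟩
  have hdis : ∀ x ∈ F \ N, x ∉ N := fun x hx => (Finset.mem_sdiff.mp hx).2
  have hDF : F \ N ⊆ F := Finset.sdiff_subset
  have hpN : ∀ q ∈ N, T.par q ∉ N → T.par q ∉ F := by
    intro q hq hp hpF
    exact hp (hT q hq hpF)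
  obtain ⟨b', hb'⟩ : ∃ b' : Ω × (ι ⊕ ι → V) → ι → V, b' = fun ω q =>
    if T.par q ∈ N then ω.2 (Sum.inl (T.par q)) else b ω.1 q := ⟨_, rfl⟩
  obtain ⟨Γ', hΓ'⟩ : ∃ Γ' : Ω × (ι ⊕ ι → V) → (ι → V) → Prop, Γ' = fun ω =>
    Att T E Rt N (F \ N) (fun q => ω.2 (Sum.inr q)) Lk (Γ ω.1) := ⟨_, rfl⟩
  obtain ⟨Ωs', hΩs'⟩ : ∃ Ωs' : Finset (Ω × (ι ⊕ ι → V)), Ωs' =
    𝓟.image (fun p => (p.1, resN T N v0 p.2)) := ⟨_, rfl⟩
  obtain ⟨𝓟', h𝓟'⟩ : ∃ 𝓟' : Finset ((Ω × (ι ⊕ ι → V)) × (ι ⊕ ι → V)), 𝓟' =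
    𝓟.image (fun p => ((p.1, resN T N v0 p.2), resD T N (F \ N) v0 p.2)) := ⟨_, rfl⟩
  obtain ⟨n, hn⟩ : ∃ n, n = (FC T N).card := ⟨_, rfl⟩
  have hKD : 0 < K * D := Nat.mul_pos hK hD
  have hcpy : ∀ p ∈ 𝓟, Cpy T G v0 N (b p.1) (resN T N v0 p.2) := by
    intro p hp
    refine cpy_resN (h𝓟 p hp).2.1.cp hN.sub (b p.1) ?_
    intro q hq hpq
    rw [if_pos (hadmN.Q_of hq hpq)]
    exact ⟨hpN q hq hpq, rfl⟩
  have hbb : ∀ p ∈ 𝓟, ∀ q, T.par q ∈ N → b' (p.1, resN T N v0 p.2) q =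
      p.2 (Sum.inl (T.par q)) := by
    intro p _ q hq
    rw [hb']
    simp only [hq, if_true]
    exact resN_inl T N v0 p.2 hq
  have hbb2 : ∀ ω, ∀ q, T.par q ∉ N → b' ω q = b ω.1 q := by
    intro ω q hq
    rw [hb']
    simp only [hq, if_false]
  -- spread of the new family
  have hspread : ∀ q ∈ F \ N, T.par q ∉ F \ N → ∀ w,
      (Ωs'.filter (fun ω => b' ω q = w)).card ≤ S * (K * D) ^ n := by
    intro q hq hpq w
    have h1 : ∀ ω ∈ Ωs', ω.1 ∈ Ωs ∧ Cpy T G v0 N (b ω.1) ω.2 := by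
      intro ω hω
      rw [hΩs'] at hω
      obtain ⟨p, hp, rfl⟩ := Finset.mem_image.mp hω
      exact ⟨(h𝓟 p hp).1, hcpy p hp⟩
    by_cases hpN' : T.par q ∈ N
    · have hmem : Sum.inl (T.par q) ∈ FC T N := (mem_FC_inl T N _).mpr hpN'
      have h2 := spread T N hadmN G D K hG v0 b Ωs S
        (fun q hq hp w => hS q (hN.sub hq) (hpN q hq hp) w) (T.dp (T.par q)) (T.par q) hpN' le_rfl
        {Sum.inl (T.par q)} (Finset.singleton_subset_iff.mpr hmem) (Finset.mem_singleton_self _)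
        (fun y hy => by rw [Sum.inl.inj (Finset.mem_singleton.mp hy)]) (fun _ => w)
        (Ωs'.filter (fun ω => b' ω q = w)) (fun p hp => h1 p (Finset.mem_filter.mp hp).1)
        (fun p hp c hc => by
          obtain ⟨h3, h4⟩ := Finset.mem_filter.mp hp
          rw [Finset.mem_singleton.mp hc, ← h4, hb']
          simp only [hpN', if_true])
      have h3 := fr_add T N {Sum.inl (T.par q)} (Finset.singleton_subset_iff.mpr hmem)
      rw [Finset.card_singleton] at h3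
      rw [h3, ← hn] at h2
      exact h2
    · have hpF : T.par q ∉ F := fun h => hpq (Finset.mem_sdiff.mpr ⟨h, hpN'⟩)
      have h2 := spread0 T N hadmN G D K hG v0 b Ωs S ∅ q w (hS q (hDF hq) hpF w) (fun _ => w)
        (Ωs'.filter (fun ω => b' ω q = w)) (fun p hp => h1 p (Finset.mem_filter.mp hp).1)
        (fun p hp c hc => absurd hc (Finset.notMem_empty _)) (fun p hp => by
          obtain ⟨h3, h4⟩ := Finset.mem_filter.mp hp
          rw [← h4, hbb2 _ _ hpN'])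
      rw [fr_empty, ← hn] at h2
      exact h2
  -- membership
  have hfam : ∀ p ∈ 𝓟', p.1 ∈ Ωs' ∧ Fam T G E Rt B v0 (F \ N) (b' p.1) (Γ' p.1) p.2 := by
    intro p' hp'
    rw [h𝓟'] at hp'
    obtain ⟨p, hp, rfl⟩ := Finset.mem_image.mp hp'
    obtain ⟨h1, h2, h3, h4, h5, h6⟩ := h𝓟 p hp
    refine ⟨?_, ?_⟩
    · rw [hΩs']
      exact Finset.mem_image.mpr ⟨p, hp, rfl⟩
    · have h7 := hres k ι T V G E Rt hR B v0 F (b p.1) (Γ p.1) p.2 h2 hF N (F \ N) hN.sub hDF hdis hadm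
        (fun q hq hpF => by
          by_cases h : T.par q ∈ N
          · exact Or.inr h
          · exact Or.inl (Finset.mem_sdiff.mpr ⟨hpF, h⟩))
        (fun q hq q' hq' hpN' hpp =>
          uniq_par hF hN.sub hN.c3 (hDF hq) (hDF hq') (hdis q hq) hpN' hpp)
        (Γ' (p.1, resN T N v0 p.2)) (by
          rw [hΓ']
          exact h6.congr_ρ fun q hq hQ => (resN_inr T N v0 p.2 hq hQ).symm)
      refine h7.congr_b ?_
      intro q hq hpq
      by_cases h : T.par q ∈ N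
      · rw [if_pos h]
        exact (hbb p hp q h).symm
      · rw [if_neg h, hbb2 _ _ h]
  -- cardinality
  obtain ⟨A0, hA0⟩ : ∃ A0, A0 = FC T N ∪ FC T (F \ N) := ⟨_, rfl⟩
  have hA0sub : A0 ⊆ FC T F := by
    rw [hA0]
    exact Finset.union_subset (FC_mono T hN.sub) (FC_mono T hDF)
  have hA0card : A0.card = n + (FC T (F \ N)).card := by
    rw [hA0, Finset.card_union_of_disjoint (FC_disj T hdis), hn]
  have hfr := fr_add T F A0 hA0sub
  have hmult : 𝓟.card ≤ 𝓟'.card * (K * D) ^ fr T F A0 := by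
    refine card_le_fib' 𝓟 (fun p => ((p.1, resN T N v0 p.2), resD T N (F \ N) v0 p.2)) 𝓟' _
      (fun p hp => by rw [h𝓟']; exact Finset.mem_image.mpr ⟨p, hp, rfl⟩) ?_
    intro y hy 𝓢 h𝓢
    rw [h𝓟'] at hy
    obtain ⟨p0, hp0, rfl⟩ := Finset.mem_image.mp hy
    have hS1 : ∀ p ∈ 𝓢, p ∈ 𝓟 ∧ p.1 = p0.1 ∧ resN T N v0 p.2 = resN T N v0 p0.2 ∧
        resD T N (F \ N) v0 p.2 = resD T N (F \ N) v0 p0.2 := by
      intro p hp
      obtain ⟨h1, h2⟩ := h𝓢 p hp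
      simp only [Prod.mk.injEq] at h2
      exact ⟨h1, h2.1.1, h2.1.2, h2.2⟩
    have hcs : 𝓢.card = (𝓢.image (fun p => p.2)).card := by
      rw [Finset.card_image_of_injOn]
      intro p hp1 p' hp2 h
      have e1 := (hS1 p hp1).2.1
      have e2 := (hS1 p' hp2).2.1
      exact Prod.ext (by rw [e1, e2]) h
    rw [hcs]
    refine ub T F A0 (fun x hx => hF.ne_top hx) (fun x hx _ hp => hF.Q_of hx hp) G D K hG v0
      (b p0.1) p0.2 _ ?_ ?_
    · intro φ hφ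
      obtain ⟨p, hp, rfl⟩ := Finset.mem_image.mp hφ
      obtain ⟨h1, h2, _⟩ := hS1 p hp
      rw [← h2]
      exact (h𝓟 p h1).2.1.cp
    · intro φ hφ c hc
      obtain ⟨p, hp, rfl⟩ := Finset.mem_image.mp hφ
      obtain ⟨h1, h2, h3, h4⟩ := hS1 p hp
      rw [hA0, Finset.mem_union] at hc
      rcases hc with hc | hc
      · have h5 := congrFun h3 c
        unfold resN at h5
        rw [if_pos (FC_sub T N hc), if_pos (FC_sub T N hc)] at h5
        exact h5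
      · have h5 := congrFun h4 c
        rw [resD_FC T hdis v0 p.2 hc, resD_FC T hdis v0 p0.2 hc] at h5
        exact h5
  have hdens : Fintype.card V * (S * (K * D) ^ n) * D ^ (FC T (F \ N)).card ≤
      Q2 * K ^ (2 * Fintype.card ι) * 𝓟'.card := by
    have hDe : 0 < D ^ fr T F A0 := pow_pos hD _
    refine Nat.le_of_mul_le_mul_right ?_ hDe
    have hle : fr T F A0 + n ≤ 2 * Fintype.card ι := by
      have := FC_card_le T F
      omega
    have hfD : D ^ (FC T F).card = D ^ n * D ^ (FC T (F \ N)).card * D ^ fr T F A0 := by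
      rw [← hfr, hA0card, ← pow_add, ← pow_add]
      congr 1
      omega
    calc Fintype.card V * (S * (K * D) ^ n) * D ^ (FC T (F \ N)).card * D ^ fr T F A0
        = K ^ n * (Fintype.card V * S * D ^ (FC T F).card) := by
          rw [hfD, mul_pow]
          ring
      _ ≤ K ^ n * (Q2 * (𝓟'.card * (K * D) ^ fr T F A0)) := by
          exact Nat.mul_le_mul_left _ (hcard.trans (Nat.mul_le_mul_left _ hmult))
      _ = Q2 * K ^ (fr T F A0 + n) * 𝓟'.card * D ^ fr T F A0 := by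
          rw [mul_pow, pow_add]
          ring
      _ ≤ _ := by
          gcongr
  rcases ih V G D hG hC E Rt hR B hB v0 (Ω × (ι ⊕ ι → V)) b' Γ' Ωs' (S * (K * D) ^ n)
    (Nat.mul_pos hS0 (pow_pos hKD _)) hspread 𝓟' hfam hdens with ⟨u, hu, hQu, h⟩ | h
  · exact ⟨u, hDF hu, hQu, h⟩
  · exfalso
    have hpos : 0 < Fintype.card V * (S * (K * D) ^ n) :=
      Nat.mul_pos Fintype.card_pos (Nat.mul_pos hS0 (pow_pos hKD _))
    have hne : (Ωs'.filter (fun ω => ∀ Z : Finset V, Z.card ≤ ζ + Fintype.card ι →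
        BUat T E Rt (F \ N) (b' ω) L (Γ' ω) Z)).Nonempty := by
      rw [← Finset.card_pos]
      by_contra h0
      have h0' : (Ωs'.filter (fun ω => ∀ Z : Finset V, Z.card ≤ ζ + Fintype.card ι →
        BUat T E Rt (F \ N) (b' ω) L (Γ' ω) Z)).card = 0 := by omega
      rw [h0', mul_zero] at h
      omega
    obtain ⟨ω, hω⟩ := hne
    obtain ⟨hω1, hω2⟩ := Finset.mem_filter.mp hω
    rw [hΩs'] at hω1
    obtain ⟨p, hp, rfl⟩ := Finset.mem_image.mp hω1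
    obtain ⟨h1, h2, h3, h4, h5, h6⟩ := h𝓟 p hp
    apply h5
    refine hasm k ι T F N hN.sub hF hT hN.c3 (fun q hq q' hq' hqN hqN' hpN' hpp =>
      uniq_par hF hN.sub hN.c3 hq hq' hqN hpN' hpp) V G E Rt hR (b p.1) p.2 h2.ij h2.cp.bs
      (Zf p.1) h4 L Lk (Γ p.1) (by omega) ?_
    · have h7 := hω2 (Zf p.1 ∪ N.image (fun q => p.2 (Sum.inr q))) (by
        refine (Finset.card_union_le _ _).trans ?_
        refine Nat.add_le_add h3 (Finset.card_image_le.trans (Finset.card_le_univ _)))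
      refine h7.mono le_rfl ?_ ?_
      · intro q hq hpq
        by_cases h : T.par q ∈ N
        · rw [hbb p hp q h, if_pos h]
        · rw [hbb2 _ _ h, if_neg h]
      · intro ψ hψ
        rw [hΓ'] at hψ
        exact Att.congr_ρ (fun q hq hQ => resN_inr T N v0 p.2 hq hQ) hψ

end Pool.Agent.TH476.KK
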