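import Pool.Agent.TH476.KCaseT

set_option autoImplicit false

open Classical

namespace Pool.Agent.TH476.KK

variable {k : ℕ} {ι : Type}

lemma dsc_sub {T : TE k ι} {U F : Finset ι} (hU : AncC T U)
    (hdc : ∀ x ∈ U, x ≠ T.top → T.par x ∈ F → x ∈ F) {u : ι} (hu : u ∈ F) (x : ι)
    (h : DscR T u x) : x ∈ U → x ∈ F := by
  induction h with
  | refl => exact fun _ => hu
  | step x hx _ ih => exact fun hxU => hdc x hxU hx (ih (hU x hxU hx))

lemma dsc_dp {T : TE k ι} {u : ι} (x : ι) (h : DscR T u x) :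
    T.dp u ≤ T.dp x ∧ (x ≠ u → T.dp u < T.dp x) := by
  induction h with
  | refl => exact ⟨le_rfl, fun h => absurd rfl h⟩
  | step x hx _ ih =>
    have := T.dp_par x hx
    exact ⟨by omega, fun _ => by omega⟩

lemma dsc_par {T : TE k ι} {u x : ι} (h : DscR T u x) (hne : x ≠ u) :
    x ≠ T.top ∧ DscR T u (T.par x) := by
  cases h with
  | refl => exact absurd rfl hne
  | step _ hx h => exact ⟨hx, h⟩

variable [Fintype ι]

lemma UC_eq_FC (T : TE k ι) {N : Finset ι} {u : ι} (hu : ¬ T.Cn u) (hk : T.Ln u → False)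
    (hN : ∀ x ∈ N, x ≠ u → T.par x ∈ N) : UC T N = FC T N := by
  ext c
  rcases c with x | q
  · rw [mem_UC_inl, mem_FC_inl]
  · rw [mem_UC_inr, mem_FC_inr]
    constructor
    · rintro ⟨h1, h2⟩
      exact ⟨h1, h2, hN q h1 fun h => by
        rcases h2 with h2 | h2
        · exact hu (h ▸ h2)
        · exact hk (h ▸ h2)⟩
    · rintro ⟨h1, h2, _⟩
      exact ⟨h1, h2⟩

/-- popular vertices from good base copies -/
lemma popU (hasm : S_ASMU) (T : TE k ι) (K : ℕ) (hK : 0 < K) (Q'' Q4 L ζ Lk : ℕ) (hQ4 : 0 < Q4)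
    (hL : 0 < L) (hLk : L * Fintype.card ι * 2 < Lk)
    (E0 N : Finset ι) (u : ι) (hNE : N ⊆ E0) (hu : u ∈ N) (htop : T.top ∉ E0)
    (hup : T.par u ∉ E0) (huC : ¬ T.Cn u) (huL : T.Ln u → False) (hupC : T.Cn (T.par u))
    (hE : ∀ x ∈ E0, x ≠ u → T.par x ∈ E0) (hNp : ∀ x ∈ N, x ≠ u → T.par x ∈ N)
    (hch : ∀ y ∈ E0, T.par y = u → y ∈ N) (c3 : ∀ x ∈ E0, x ∉ N → T.par x ∈ N → T.Cn x)
    (huq : ∀ q ∈ E0, ∀ q' ∈ E0, q ∉ N → q' ∉ N → T.par q ∈ N → T.par q = T.par q' → q = q')
    (V : Type) [Fintype V] [Nonempty V] (G : SimpleGraph V) (D : ℕ) (hG : AR G D K)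
    (hD : 2 * Q'' * (2 * Fintype.card ι) * ζ < D) (E Rt : ι → V → V → Prop)
    (hR : RSok T G E Rt) (v0 : V) (b : ι → V)
    (𝓔 : Finset (ι ⊕ ι → V)) (hcp : ∀ η ∈ 𝓔, Cpy T G v0 N b η)
    (hij : ∀ η ∈ 𝓔, ∀ c ∈ UC T N, ∀ c' ∈ UC T N, η c = η c' → c = c')
    (hBU : ∀ η ∈ 𝓔, ∀ Z : Finset V, Z.card ≤ ζ + 2 * Fintype.card ι →
      BUat T E Rt (E0 \ N) (fun q => η (Sum.inl (T.par q))) (2 * L * K * Q4)
      (fun ψ => D ≤ Q4 * (Finset.univ.filter (fun y => Rt (T.par u) (η (Sum.inl u)) y ∧
        Att T E Rt N (E0 \ N) (fun q => η (Sum.inr q)) Lk (fun ψ' => E u y (ψ' u)) ψ)).card) Z)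
    (h : Fintype.card V * (K * D) ^ fr T N {Sum.inl u} ≤ Q'' * 𝓔.card) :
    Fintype.card V ≤ 2 * Q'' *
      (Finset.univ.filter (fun w => PopW T E Rt E0 u L ζ (2 * Q4) D w)).card := by
  have hUF : UC T N = FC T N := UC_eq_FC T huC huL hNp
  have hD0 : 0 < D := by omega
  have hKD : 0 < K * D := Nat.mul_pos hK hD0
  have hNtop : ∀ x ∈ N, x ≠ T.top := fun x hx h => htop (h ▸ hNE hx)
  have huFC : Sum.inl u ∈ FC T N := (mem_FC_inl T N u).mpr hu
  obtain ⟨c, hc⟩ : ∃ c : V → ℕ, c = fun w => (𝓔.filter (fun η => η (Sum.inl u) = w)).card :=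
    ⟨_, rfl⟩
  have hcM : ∀ w, c w ≤ (K * D) ^ fr T N {Sum.inl u} := by
    intro w
    rw [hc]
    refine spreadU T N u hNtop hNp G D K hG v0 b (T.dp u) u hu le_rfl {Sum.inl u}
      (Finset.singleton_subset_iff.mpr huFC) (Finset.mem_singleton_self _)
      (fun y hy => by rw [Sum.inl.inj (Finset.mem_singleton.mp hy)]) (fun _ => w) _ ?_ ?_
    · intro η hη
      exact hcp η (Finset.mem_filter.mp hη).1
    · intro η hη c hc
      rw [Finset.mem_singleton.mp hc]
      exact (Finset.mem_filter.mp hη).2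
  have h1 := Pool.Agent.TH476.fib_split 𝓔 (fun η => η (Sum.inl u)) (Finset.univ : Finset V)
    (fun _ _ => Finset.mem_univ _) (2 * Q'') ((K * D) ^ fr T N {Sum.inl u})
    ((K * D) ^ fr T N {Sum.inl u}) c (fun y _ 𝓢 h𝓢 => by
      rw [hc]
      exact Finset.card_le_card fun a ha => Finset.mem_filter.mpr (h𝓢 a ha)) (fun y _ => hcM y)
  have hpop : (Finset.univ.filter (fun w =>
      (K * D) ^ fr T N {Sum.inl u} ≤ 2 * Q'' * c w)).card ≤
      (Finset.univ.filter (fun w => PopW T E Rt E0 u L ζ (2 * Q4) D w)).card := by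
    refine Finset.card_le_card ?_
    intro w hw
    have hw2 := (Finset.mem_filter.mp hw).2
    refine Finset.mem_filter.mpr ⟨Finset.mem_univ _, ?_⟩
    intro Z hZ
    have hcpos : 0 < c w := by
      by_contra h0
      have h0' : c w = 0 := by omega
      rw [h0', mul_zero] at hw2
      have := pow_pos hKD (fr T N {Sum.inl u})
      omega
    -- a base copy avoiding Z
    obtain ⟨η, hη, hηw, hηZ⟩ : ∃ η ∈ 𝓔, η (Sum.inl u) = w ∧
        ∀ c ∈ UC T N, c ≠ Sum.inl u → η c ∉ Z := by
      by_contra hcon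
      push Not at hcon
      have hcov : 𝓔.filter (fun η => η (Sum.inl u) = w) ⊆ (UC T N ×ˢ Z).biUnion
          (fun cz => 𝓔.filter (fun η => η (Sum.inl u) = w ∧ cz.1 ≠ Sum.inl u ∧ η cz.1 = cz.2)) := by
        intro η hη
        obtain ⟨h2, h3⟩ := Finset.mem_filter.mp hη
        obtain ⟨c', hc', hne, hcZ⟩ := hcon η h2 h3
        exact Finset.mem_biUnion.mpr ⟨(c', η c'), Finset.mem_product.mpr ⟨hc', hcZ⟩,
          Finset.mem_filter.mpr ⟨h2, h3, hne, rfl⟩⟩
      -- some coordinate other than u
      have hne : ∃ c0 ∈ UC T N, c0 ≠ Sum.inl u := by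
        have : (𝓔.filter (fun η => η (Sum.inl u) = w)).Nonempty := by
          rw [← Finset.card_pos]
          rw [hc] at hcpos
          exact hcpos
        obtain ⟨η, hη⟩ := this
        obtain ⟨h2, h3⟩ := Finset.mem_filter.mp hη
        obtain ⟨c', hc', hne, _⟩ := hcon η h2 h3
        exact ⟨c', hc', hne⟩
      have hfr1 := fr_add T N {Sum.inl u} (Finset.singleton_subset_iff.mpr huFC)
      rw [Finset.card_singleton] at hfr1
      have hm1 : 1 ≤ fr T N {Sum.inl u} := by
        obtain ⟨c0, hc0, hne0⟩ := hne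
        rw [hUF] at hc0
        unfold fr
        refine Finset.card_pos.mpr ⟨c0, Finset.mem_filter.mpr ⟨hc0, ?_⟩⟩
        rw [Finset.mem_singleton]
        exact hne0
      obtain ⟨m1, hm1'⟩ : ∃ m1, fr T N {Sum.inl u} = m1 + 1 := ⟨fr T N {Sum.inl u} - 1, by omega⟩
      have hpiece : ∀ cz ∈ UC T N ×ˢ Z, (𝓔.filter (fun η => η (Sum.inl u) = w ∧
          cz.1 ≠ Sum.inl u ∧ η cz.1 = cz.2)).card ≤ (K * D) ^ m1 := by
        rintro ⟨c', z⟩ hcz
        have hc' := (Finset.mem_product.mp hcz).1
        simp only at hc' ⊢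
        by_cases hne' : c' = Sum.inl u
        · rw [Finset.filter_false_of_mem]
          · simp
          · rintro η _ ⟨_, h4, _⟩
            exact h4 hne'
        · have hc'' : c' ∈ FC T N := by rw [← hUF]; exact hc'
          have hnotmem : c' ∉ ({Sum.inl u} : Finset (ι ⊕ ι)) := by
            rw [Finset.mem_singleton]
            exact hne'
          have hfr2 := fr_insert T N {Sum.inl u} c' hc'' hnotmem
          have h5 := spreadU T N u hNtop hNp G D K hG v0 b (T.dp u) u hu le_rfl
            (insert c' {Sum.inl u})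
            (Finset.insert_subset hc'' (Finset.singleton_subset_iff.mpr huFC))
            (Finset.mem_insert_of_mem (Finset.mem_singleton_self _))
            (fun y hy => by
              rcases Finset.mem_insert.mp hy with h | h
              · have hyN : y ∈ N := by
                  rw [← h] at hc''
                  exact (mem_FC_inl T N y).mp hc''
                -- depth of u is minimal
                have key : ∀ n y, y ∈ N → T.dp y ≤ n → T.dp u ≤ T.dp y := by
                  intro n
                  induction n with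
                  | zero =>
                    intro y hy hn
                    by_cases hyu : y = u
                    · rw [hyu]
                    · have := T.dp_par y (hNtop y hy)
                      omega
                  | succ n ih =>
                    intro y hy hn
                    by_cases hyu : y = u
                    · rw [hyu]
                    · have h6 := T.dp_par y (hNtop y hy)
                      have h7 := ih (T.par y) (hNp y hy hyu) (by omega)
                      omega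
                exact key _ y hyN le_rfl
              · rw [Sum.inl.inj (Finset.mem_singleton.mp h)])
            (fun c => if c = Sum.inl u then w else z)
            (𝓔.filter (fun η => η (Sum.inl u) = w ∧ c' ≠ Sum.inl u ∧ η c' = z))
            (fun η hη => hcp η (Finset.mem_filter.mp hη).1)
            (fun η hη c hc => by
              obtain ⟨_, h4, h5, h6⟩ := Finset.mem_filter.mp hη
              rcases Finset.mem_insert.mp hc with h | h
              · rw [h, if_neg hne']
                exact h6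
              · rw [Finset.mem_singleton.mp h, if_pos rfl]
                exact h4)
          have h8 : fr T N (insert c' {Sum.inl u}) = m1 := by omega
          rw [h8] at h5
          exact h5
      have h6 := (Finset.card_le_card hcov).trans
        (Finset.card_biUnion_le_card_mul _ _ _ hpiece)
      rw [Finset.card_product] at h6
      have h7 : c w ≤ (UC T N).card * Z.card * (K * D) ^ m1 := by
        rw [hc]
        exact h6
      have h8 : (UC T N).card ≤ 2 * Fintype.card ι := by
        rw [hUF]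
        exact FC_card_le T N
      rw [hm1', pow_succ] at hw2
      have h9 : (K * D) ^ m1 * (K * D) ≤
          (K * D) ^ m1 * (2 * Q'' * (2 * Fintype.card ι) * ζ) := by
        calc (K * D) ^ m1 * (K * D) ≤ 2 * Q'' * c w := hw2
          _ ≤ 2 * Q'' * ((2 * Fintype.card ι) * ζ * (K * D) ^ m1) := by
              refine Nat.mul_le_mul_left _ (h7.trans ?_)
              gcongr
          _ = _ := by ring
      have h10 := Nat.le_of_mul_le_mul_left h9 (pow_pos hKD m1)
      have h11 : D ≤ K * D := Nat.le_mul_of_pos_left D hK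
      omega
    have h12 := hasm k ι T E0 N u hNE hu htop hup huC hupC hE hNp hch c3 huq V G E Rt hR η
      (hij η hη) Z hηZ L (2 * L * K * Q4) Lk Q4 D K w hL hQ4 hK (by
        refine (Finset.card_le_card ?_).trans (hG.hi w)
        intro y hy
        exact (mem_nb _ _ _).mpr (hR.adjR _ w y (Finset.mem_filter.mp hy).2)) le_rfl hLk (by
        have h13 := hBU η hη (Z ∪ (UC T N).image η) (by
          refine (Finset.card_union_le _ _).trans (Nat.add_le_add hZ ?_)
          refine Finset.card_image_le.trans ?_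
          rw [hUF]
          exact FC_card_le T N)
        rw [hηw] at h13
        exact h13)
    exact h12
  have hX : 0 < (K * D) ^ fr T N {Sum.inl u} := pow_pos hKD _
  obtain ⟨X, hX'⟩ : ∃ X, X = (K * D) ^ fr T N {Sum.inl u} := ⟨_, rfl⟩
  rw [← hX'] at h1 h hX hpop
  rw [Finset.card_univ] at h1
  obtain ⟨P, hP⟩ : ∃ P, P = (Finset.univ.filter (fun w => PopW T E Rt E0 u L ζ (2 * Q4) D w)).card :=
    ⟨_, rfl⟩
  obtain ⟨P', hP'⟩ : ∃ P', P' = (Finset.univ.filter (fun w => X ≤ 2 * Q'' * c w)).card :=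
    ⟨_, rfl⟩
  rw [← hP, ← hP'] at hpop
  rw [← hP'] at h1
  rw [← hP]
  have h14 : 2 * Q'' * (P' * X) ≤ 2 * Q'' * (P * X) :=
    Nat.mul_le_mul_left _ (Nat.mul_le_mul_right _ hpop)
  have h15 : Fintype.card V * X ≤ (2 * Q'' * P) * X := by
    have h16 : 2 * (Fintype.card V * X) ≤ 2 * (Q'' * 𝓔.card) := Nat.mul_le_mul_left _ h
    have h17 : 2 * (Q'' * 𝓔.card) = 2 * Q'' * 𝓔.card := by ring
    have h18 : 2 * Q'' * (P * X) = (2 * Q'' * P) * X := by ring
    omega
  exact Nat.le_of_mul_le_mul_right h15 hX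

end Pool.Agent.TH476.KK
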