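import Pool.Agent.TH476.KCaseU

set_option autoImplicit false

open Classical

namespace Pool.Agent.TH476.KK

variable {k : ℕ} {ι : Type} [Fintype ι]

/-- the second case: a movable P-node u whose parent is fixed -/
lemma caseU (hres : S_RES) (hasm : S_ASMU) (T : TE k ι) (K : ℕ) (hK : 0 < K)
    (Q2 Q3 Q4 Q'' L ζ L1 Lk C : ℕ) (hQ2 : 0 < Q2)
    (hQ3 : Q3 = Q2 * K ^ (2 * Fintype.card ι)) (hQ4 : Q4 = 2 * Q3 * K ^ (2 * Fintype.card ι))
    (hL : 0 < L) (hLk : L * Fintype.card ι * 2 < Lk)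
    (U F N : Finset ι) (hU : AncC T U) (hF : AdmF T F)
    (hdc : ∀ x ∈ U, x ≠ T.top → T.par x ∈ F → x ∈ F) (hN : KSt T F N)
    (u : ι) (hu : u ∈ N) (huC : ¬ T.Cn u) (hupC : T.Cn (T.par u)) (hupN : T.par u ∉ N)
    (hmax : ∀ x ∈ N, T.par x ∈ F → T.dp u < T.dp x → T.par x ∈ N)
    (E0 N' : Finset ι) (hE : E0 = Dsc T U u) (hFU : F ⊆ U) (hN' : N' = E0.filter (fun x => x ∈ N))
    (ih0 : ∀ F' : Finset ι, F' ⊆ F → u ∉ F' → AdmF T F' →
      (∀ x ∈ U, x ≠ T.top → T.par x ∈ F' → x ∈ F') →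
      CL T K (2 * Q3 * K * K ^ (2 * Fintype.card ι)) Q'' (2 * L * K * Q4)
        (ζ + 2 * Fintype.card ι) L1 C U F')
    (Y : Finset (ι ⊕ ι)) (hRY : RF F ⊆ Y) (hNY : ∀ x ∈ N, Sum.inl x ∉ Y)
    (hYN : ∀ x ∈ F, x ∉ N → Sum.inl x ∈ Y)
    (V : Type) [Fintype V] [Nonempty V] (G : SimpleGraph V) (D : ℕ) (hG : AR G D K)
    (hD : 2 * Q'' * (2 * Fintype.card ι) * ζ < D)
    (hC : CntH T C (Fintype.card V) D) (E Rt : ι → V → V → Prop)
    (hR : RSok T G E Rt) (B : ℕ → V → V → Prop) (hB : BSp G k L1 B) (v0 : V)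
    (Ω : Type) (b : Ω → ι → V) (Γ : Ω → (ι → V) → Prop) (Ωs : Finset Ω) (S : ℕ) (hS0 : 0 < S)
    (hS : ∀ q ∈ F, T.par q ∉ F → ∀ w, (Ωs.filter (fun ω => b ω q = w)).card ≤ S)
    (𝓟 : Finset (Ω × (ι ⊕ ι → V)))
    (h𝓟0 : ∀ p ∈ 𝓟, p.1 ∈ Ωs ∧ Fam T G E Rt B v0 F (b p.1) (Γ p.1) p.2 ∧
      ∃ 𝓕 : Set (ι ⊕ ι → V), (∀ φ ∈ 𝓕, Fam T G E Rt B v0 F (b p.1) (Γ p.1) φ) ∧
        Rich 𝓕 Lk Y p.2)
    (hcard : Fintype.card V * S * D ^ (FC T F).card ≤ Q2 * 𝓟.card) :
    ∃ u ∈ F, (¬ T.Cn u ∧ T.Cn (T.par u)) ∧ Fintype.card V ≤ (2 * Q'' + 2 * Q4) * (Finset.univ.filter (fun w =>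
      PopW T E Rt (Dsc T U u) u L ζ (2 * Q'' + 2 * Q4) D w)).card := by
  have hD0 : 0 < D := by omega
  have hKD : 0 < K * D := Nat.mul_pos hK hD0
  have hKp : 0 < K ^ (2 * Fintype.card ι) := pow_pos hK _
  have hQ3p : 0 < Q3 := by rw [hQ3]; exact Nat.mul_pos hQ2 hKp
  have hQ4p : 0 < Q4 := by rw [hQ4]; exact Nat.mul_pos (by omega) hKp
  have huF : u ∈ F := hN.sub hu
  have hEF : E0 ⊆ F := by
    intro x hx
    rw [hE] at hx
    obtain ⟨h1, h2⟩ := Finset.mem_filter.mp hx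
    exact dsc_sub hU hdc huF x h2 h1
  have hEd : ∀ x ∈ E0, DscR T u x := fun x hx => by
    rw [hE] at hx
    exact (Finset.mem_filter.mp hx).2
  have huE : u ∈ E0 := by
    rw [hE]
    exact Finset.mem_filter.mpr ⟨hFU huF, DscR.refl⟩
  have hEp : ∀ x ∈ E0, x ≠ u → T.par x ∈ E0 := by
    intro x hx hne
    obtain ⟨h1, h2⟩ := dsc_par (hEd x hx) hne
    rw [hE] at hx ⊢
    exact Finset.mem_filter.mpr ⟨hU x (Finset.mem_filter.mp hx).1 h1, h2⟩
  have htopE : T.top ∉ E0 := fun h => hF.1 (hEF h)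
  have hupE : T.par u ∉ E0 := by
    intro h
    have h1 := (dsc_dp _ (hEd _ h)).1
    have h2 := T.dp_par u (hF.ne_top huF)
    omega
  have hN'E : N' ⊆ E0 := by
    rw [hN']
    exact Finset.filter_subset _ _
  have hN'N : ∀ x ∈ N', x ∈ N := fun x hx => by
    rw [hN'] at hx
    exact (Finset.mem_filter.mp hx).2
  have hN'i : ∀ x ∈ E0, x ∈ N → x ∈ N' := fun x hx hxN => by
    rw [hN']
    exact Finset.mem_filter.mpr ⟨hx, hxN⟩
  have huN' : u ∈ N' := hN'i u huE hu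
  have hN'p : ∀ x ∈ N', x ≠ u → T.par x ∈ N' := by
    intro x hx hne
    have hxE := hN'E hx
    have hpE := hEp x hxE hne
    refine hN'i _ hpE ?_
    exact hmax x (hN'N x hx) (hEF hpE) ((dsc_dp x (hEd x hxE)).2 hne)
  have hch : ∀ y ∈ E0, T.par y = u → y ∈ N' := fun y hy hp =>
    hN'i y hy (hN.c5 u hu huC hupC hupN y (hEF hy) hp)
  have huL : T.Ln u → False := fun h =>
    hN.c6 u hu huC hupC hupN ((T.L_iff u).mp h).2.1
  have hc3 : ∀ x ∈ E0, x ∉ N' → T.par x ∈ N' → T.Cn x := fun x hx hxN hp =>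
    hN.c3 x (hEF hx) (fun h => hxN (hN'i x hx h)) (hN'N _ hp)
  have huq : ∀ q ∈ E0, ∀ q' ∈ E0, q ∉ N' → q' ∉ N' → T.par q ∈ N' → T.par q = T.par q' →
      q = q' := fun q hq q' hq' hqN hqN' hp he =>
    uniq_par hF hN.sub hN.c3 (hEF hq) (hEF hq') (fun h => hqN (hN'i q hq h)) (hN'N _ hp) he
  have hDF : E0 \ N' ⊆ F := Finset.sdiff_subset.trans hEF
  have hdis : ∀ x ∈ E0 \ N', x ∉ N' := fun x hx => (Finset.mem_sdiff.mp hx).2
  have hdisN : ∀ x ∈ E0 \ N', x ∉ N := fun x hx h =>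
    hdis x hx (hN'i x (Finset.mem_sdiff.mp hx).1 h)
  have hne : ∀ x ∈ E0 \ N', x ≠ u := fun x hx h => hdis x hx (h ▸ huN')
  have hparD : ∀ x ∈ E0 \ N', T.par x ∈ E0 := fun x hx =>
    hEp x (Finset.mem_sdiff.mp hx).1 (hne x hx)
  have hPx : ∀ q ∈ E0 \ N', T.par q ∈ N' → T.Cn q := fun q hq hp =>
    hc3 q (Finset.mem_sdiff.mp hq).1 (hdis q hq) hp
  have hadm : AdmF T (E0 \ N') := by
    refine ⟨fun h => htopE (Finset.mem_sdiff.mp h).1, ?_⟩
    intro x hx hQ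
    exact Finset.mem_sdiff.mpr ⟨hparD x hx, fun hp => hQ (hPx x hx hp)⟩
  have htops : ∀ q ∈ E0 \ N', T.par q ∉ E0 \ N' → T.par q ∈ N' := by
    intro q hq hp
    by_contra h
    exact hp (Finset.mem_sdiff.mpr ⟨hparD q hq, h⟩)
  have hNtop : ∀ x ∈ N', x ≠ T.top := fun x hx h => htopE (h ▸ hN'E hx)
  have hpuF : T.par u ∈ F := hF.2 u huF huC
  have ih := ih0 (E0 \ N') hDF (fun h => hne u h rfl) hadm (by
    intro x hxU hxt hp
    obtain ⟨hp1, hp2⟩ := Finset.mem_sdiff.mp hp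
    have hxE : x ∈ E0 := by
      rw [hE]
      exact Finset.mem_filter.mpr ⟨hxU, DscR.step x hxt (hEd _ hp1)⟩
    refine Finset.mem_sdiff.mpr ⟨hxE, fun hxN => ?_⟩
    by_cases hxu : x = u
    · rw [hxu] at hp1
      exact hupE hp1
    · exact hp2 (hN'p x hxN hxu))
  have h𝓟 : ∀ p ∈ 𝓟, p.1 ∈ Ωs ∧ Fam T G E Rt B v0 F (b p.1) (Γ p.1) p.2 ∧
      Att T E Rt N' (E0 \ N') (fun q => p.2 (Sum.inr q)) Lk
        (fun ψ' => E u (p.2 (Sum.inl (T.par u))) (ψ' u))
        (fun x => resD T N' (E0 \ N') v0 p.2 (Sum.inl x)) := by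
    intro p hp
    obtain ⟨h1, h2, 𝓕, h3, h4⟩ := h𝓟0 p hp
    refine ⟨h1, h2, ?_⟩
    refine att_of_rich h3 hRY h4 (hN'E.trans hEF) hDF (fun x hx => hNY x (hN'N x hx))
      (fun x hx => hYN x (hDF hx) (hdisN x hx)) _ (fun _ _ _ => rfl) _
      (fun x hx => resD_inl T N' (E0 \ N') v0 p.2 hx) _ ?_
    · intro φ' hφ' hag
      have h5 : glu N' (fun x => φ' (Sum.inl x))
          (fun x => resD T N' (E0 \ N') v0 p.2 (Sum.inl x)) u = φ' (Sum.inl u) := if_pos huN'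
      rw [h5, ← hag _ (hYN _ hpuF hupN)]
      exact (h3 φ' hφ').gd.2 u huF hpuF
  have huFC : Sum.inl u ∈ FC T N' := (mem_FC_inl T N' u).mpr huN'
  have hUF : UC T N' = FC T N' := UC_eq_FC T huC huL hN'p
  -- dimensions
  obtain ⟨m1, hm1⟩ : ∃ m1, m1 = fr T N' {Sum.inl u} := ⟨_, rfl⟩
  have hm : m1 + 1 = (FC T N').card := by
    have := fr_add T N' {Sum.inl u} (Finset.singleton_subset_iff.mpr huFC)
    rw [Finset.card_singleton] at this
    omega
  obtain ⟨f2, hf2⟩ : ∃ f2, f2 = (FC T (E0 \ N')).card := ⟨_, rfl⟩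
  obtain ⟨A0, hA0⟩ : ∃ A0, A0 = insert (Sum.inl (T.par u)) (FC T N' ∪ FC T (E0 \ N')) := ⟨_, rfl⟩
  have hA0sub : A0 ⊆ FC T F := by
    rw [hA0]
    exact Finset.insert_subset ((mem_FC_inl T F _).mpr hpuF)
      (Finset.union_subset (FC_mono T (hN'E.trans hEF)) (FC_mono T hDF))
  have hA0card : A0.card = m1 + 1 + f2 + 1 := by
    rw [hA0, Finset.card_insert_of_notMem, Finset.card_union_of_disjoint (FC_disj T hdis), hm, hf2]
    intro h
    rcases Finset.mem_union.mp h with h | h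
    · exact hupE (hN'E ((mem_FC_inl T _ _).mp h))
    · exact hupE (Finset.mem_sdiff.mp ((mem_FC_inl T _ _).mp h)).1
  have hfr := fr_add T F A0 hA0sub
  obtain ⟨e, he⟩ : ∃ e, e = fr T F A0 := ⟨_, rfl⟩
  rw [← he, hA0card] at hfr
  have hFCle := FC_card_le T F
  -- the triples
  obtain ⟨Θ, hΘ⟩ : ∃ Θ : Ω × (ι ⊕ ι → V) → ((ι ⊕ ι → V) × (ι ⊕ ι → V)) × V, Θ = fun p =>
    ((resN T N' v0 p.2, resD T N' (E0 \ N') v0 p.2), p.2 (Sum.inl (T.par u))) := ⟨_, rfl⟩
  obtain ⟨𝓣, h𝓣⟩ : ∃ 𝓣, 𝓣 = 𝓟.image Θ := ⟨_, rfl⟩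
  have hmult : 𝓟.card ≤ 𝓣.card * (S * (K * D) ^ (e + 1)) := by
    refine card_le_fib' 𝓟 Θ 𝓣 _
      (fun p hp => by rw [h𝓣]; exact Finset.mem_image.mpr ⟨p, hp, rfl⟩) ?_
    intro y hy 𝓢 h𝓢
    rw [h𝓣] at hy
    obtain ⟨p0, hp0, rfl⟩ := Finset.mem_image.mp hy
    rw [he]
    refine spread T F hF G D K hG v0 b Ωs S hS (T.dp (T.par u)) (T.par u) hpuF le_rfl A0 hA0sub
      (by rw [hA0]; exact Finset.mem_insert_self _ _) ?_ p0.2 𝓢
      (fun p hp => ⟨(h𝓟 p (h𝓢 p hp).1).1, (h𝓟 p (h𝓢 p hp).1).2.1.cp⟩) ?_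
    · intro y hy
      have h1 := T.dp_par u (hF.ne_top huF)
      rw [hA0] at hy
      rcases Finset.mem_insert.mp hy with h | h
      · rw [Sum.inl.inj h]
      · have hyE : y ∈ E0 := by
          rcases Finset.mem_union.mp h with h | h
          · exact hN'E ((mem_FC_inl T _ _).mp h)
          · exact (Finset.mem_sdiff.mp ((mem_FC_inl T _ _).mp h)).1
        have := (dsc_dp y (hEd y hyE)).1
        omega
    · intro p hp c hc
      have h1 := (h𝓢 p hp).2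
      rw [hΘ] at h1
      simp only [Prod.mk.injEq] at h1
      obtain ⟨⟨h2, h3⟩, h4⟩ := h1
      rw [hA0] at hc
      rcases Finset.mem_insert.mp hc with h | h
      · rw [h]
        exact h4
      · rcases Finset.mem_union.mp h with hc | hc
        · have h5 := congrFun h2 c
          unfold resN at h5
          rw [if_pos (FC_sub T N' hc), if_pos (FC_sub T N' hc)] at h5
          exact h5
        · have h5 := congrFun h3 c
          rw [resD_FC T hdis v0 p.2 hc, resD_FC T hdis v0 p0.2 hc] at h5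
          exact h5
  have h𝓣card : Fintype.card V * D ^ (m1 + 1 + f2) ≤ Q3 * 𝓣.card := by
    have hpos : 0 < S * D ^ (e + 1) := Nat.mul_pos hS0 (pow_pos hD0 _)
    refine Nat.le_of_mul_le_mul_right ?_ hpos
    calc Fintype.card V * D ^ (m1 + 1 + f2) * (S * D ^ (e + 1))
        = Fintype.card V * S * D ^ (FC T F).card := by
          rw [← hfr, show e + (m1 + 1 + f2 + 1) = (m1 + 1 + f2) + (e + 1) by omega, pow_add]
          ring
      _ ≤ Q2 * (𝓣.card * (S * (K * D) ^ (e + 1))) := hcard.trans (Nat.mul_le_mul_left _ hmult)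
      _ = Q2 * K ^ (e + 1) * 𝓣.card * (S * D ^ (e + 1)) := by rw [mul_pow]; ring
      _ ≤ Q3 * 𝓣.card * (S * D ^ (e + 1)) := by
          rw [hQ3]
          gcongr
          omega
  -- the pairs
  obtain ⟨𝓠, h𝓠⟩ : ∃ 𝓠 : Finset ((ι ⊕ ι → V) × (ι ⊕ ι → V)), 𝓠 =
    𝓟.image (fun p => (resN T N' v0 p.2, resD T N' (E0 \ N') v0 p.2)) := ⟨_, rfl⟩
  obtain ⟨Γ', hΓ'⟩ : ∃ Γ' : (ι ⊕ ι → V) → (ι → V) → Prop, Γ' = fun η ψ =>
    D ≤ Q4 * (Finset.univ.filter (fun y => Rt (T.par u) (η (Sum.inl u)) y ∧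
        Att T E Rt N' (E0 \ N') (fun q => η (Sum.inr q)) Lk (fun ψ' => E u y (ψ' u)) ψ)).card :=
    ⟨_, rfl⟩
  have hcpN : ∀ p ∈ 𝓟, Cpy T G v0 N' (fun _ => v0) (resN T N' v0 p.2) := by
    intro p hp
    refine cpy_resN (h𝓟 p hp).2.1.cp (hN'E.trans hEF) (fun _ => v0) ?_
    intro q hq hpq
    have hqu : q = u := by
      by_contra h
      exact hpq (hN'p q hq h)
    rw [hqu, if_neg (show ¬ T.Qn u from fun h => h.elim huC huL)]
  have hFamD : ∀ p ∈ 𝓟, ∀ Γ'' : (ι → V) → Prop,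
      Γ'' (fun x => resD T N' (E0 \ N') v0 p.2 (Sum.inl x)) →
      Fam T G E Rt B v0 (E0 \ N') (fun q => resN T N' v0 p.2 (Sum.inl (T.par q))) Γ''
        (resD T N' (E0 \ N') v0 p.2) := by
    intro p hp Γ'' hΓ''
    have h7 := hres k ι T V G E Rt hR B v0 F (b p.1) (Γ p.1) p.2 (h𝓟 p hp).2.1 hF N' (E0 \ N')
      (hN'E.trans hEF) hDF hdis hadm (fun q hq _ => by
        by_cases h : T.par q ∈ N'
        · exact Or.inr h
        · exact Or.inl (Finset.mem_sdiff.mpr ⟨hparD q hq, h⟩))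
      (fun q hq q' hq' hp' hpp => uniq_par hF hN.sub hN.c3 (hDF hq) (hDF hq') (hdisN q hq)
        (hN'N _ hp') hpp) Γ'' hΓ''
    refine h7.congr_b ?_
    intro q hq hpq
    have h := htops q hq hpq
    rw [if_pos h]
    exact (resN_inl T N' v0 p.2 h).symm
  have h𝓠mem : ∀ π ∈ 𝓠, ∃ p ∈ 𝓟, π = (resN T N' v0 p.2, resD T N' (E0 \ N') v0 p.2) := by
    intro π hπ
    rw [h𝓠] at hπ
    obtain ⟨p, hp, h⟩ := Finset.mem_image.mp hπ
    exact ⟨p, hp, h.symm⟩
  have h𝓠card : 𝓠.card ≤ Fintype.card V * ((K * D) ^ m1 * (K * D) ^ f2) := by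
    have h1 := card_le_fib' 𝓠 (fun π => π.1 (Sum.inl u)) (Finset.univ : Finset V)
      ((K * D) ^ m1 * (K * D) ^ f2) (fun _ _ => Finset.mem_univ _) (fun w _ 𝓢 h𝓢 => by
        have h2 := card_le_fib' 𝓢 (fun π => π.1) (𝓢.image (fun π => π.1)) ((K * D) ^ f2)
          (fun π hπ => Finset.mem_image.mpr ⟨π, hπ, rfl⟩) (fun η _ 𝓢' h𝓢' => by
            have hcs : 𝓢'.card = (𝓢'.image (fun π => π.2)).card := by
              rw [Finset.card_image_of_injOn]
              intro π hπ π' hπ' h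
              have e1 := (h𝓢' π hπ).2
              have e2 := (h𝓢' π' hπ').2
              exact Prod.ext (by rw [e1, e2]) h
            rw [hcs, hf2, ← fr_empty]
            refine ub T (E0 \ N') ∅ (fun x hx => hadm.ne_top hx) (fun x hx _ hp => hadm.Q_of hx hp)
              G D K hG v0 (fun q => η (Sum.inl (T.par q))) (fun _ => v0) _ ?_
              (fun φ _ c hc => absurd hc (Finset.notMem_empty _))
            intro φ hφ
            obtain ⟨π, hπ, rfl⟩ := Finset.mem_image.mp hφ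
            obtain ⟨h3, h4⟩ := h𝓢' π hπ
            obtain ⟨p, hp, h5⟩ := h𝓠mem π (h𝓢 π h3).1
            have h6 := (hFamD p hp (fun _ => True) trivial).cp
            rw [h5] at h4 ⊢
            simp only at h4
            rw [← h4]
            exact h6)
        refine h2.trans (Nat.mul_le_mul_right _ ?_)
        rw [hm1]
        refine spreadU T N' u hNtop hN'p G D K hG v0 (fun _ => v0) (T.dp u) u huN' le_rfl
          {Sum.inl u} (Finset.singleton_subset_iff.mpr huFC) (Finset.mem_singleton_self _)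
          (fun y hy => by rw [Sum.inl.inj (Finset.mem_singleton.mp hy)]) (fun _ => w) _ ?_ ?_
        · intro φ hφ
          obtain ⟨π, hπ, rfl⟩ := Finset.mem_image.mp hφ
          obtain ⟨p, hp, h5⟩ := h𝓠mem π (h𝓢 π hπ).1
          rw [h5]
          exact hcpN p hp
        · intro φ hφ c hc
          obtain ⟨π, hπ, rfl⟩ := Finset.mem_image.mp hφ
          rw [Finset.mem_singleton.mp hc]
          exact (h𝓢 π hπ).2)
    rw [Finset.card_univ] at h1
    exact h1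
  -- splitting the triples
  obtain ⟨c, hc⟩ : ∃ c : (ι ⊕ ι → V) × (ι ⊕ ι → V) → ℕ, c = fun π =>
    (𝓣.filter (fun t => t.1 = π)).card := ⟨_, rfl⟩
  have hcM : ∀ π ∈ 𝓠, c π ≤ K * D := by
    intro π hπ
    rw [hc]
    refine le_trans ?_ (hG.hi (π.1 (Sum.inl u)))
    refine Finset.card_le_card_of_injOn (fun t => t.2) ?_ ?_
    · intro t ht
      obtain ⟨h1, h2⟩ := Finset.mem_filter.mp ht
      rw [h𝓣] at h1
      obtain ⟨p, hp, rfl⟩ := Finset.mem_image.mp h1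
      rw [← h2, hΘ]
      refine (mem_nb _ _ _).mpr ?_
      simp only
      rw [resN_inl T N' v0 p.2 huN']
      exact ((h𝓟 p hp).2.1.cp.pr u huF hpuF).symm
    · intro t ht t' ht' h
      have h1 := (Finset.mem_filter.mp ht).2
      have h2 := (Finset.mem_filter.mp ht').2
      exact Prod.ext (h1.trans h2.symm) h
  have hsplit := Pool.Agent.TH476.fib_split 𝓣 (fun t => t.1) 𝓠 (fun t ht => by
      rw [h𝓣] at ht
      obtain ⟨p, hp, rfl⟩ := Finset.mem_image.mp ht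
      rw [h𝓠, hΘ]
      exact Finset.mem_image.mpr ⟨p, hp, rfl⟩) Q4 D (K * D) c (fun y _ 𝓢 h𝓢 => by
      rw [hc]
      exact Finset.card_le_card fun a ha => Finset.mem_filter.mpr (h𝓢 a ha)) hcM
  obtain ⟨𝓠g, h𝓠g⟩ : ∃ 𝓠g, 𝓠g = 𝓠.filter (fun π => D ≤ Q4 * c π) := ⟨_, rfl⟩
  rw [← h𝓠g] at hsplit
  have hN1 : Fintype.card V * D ^ (m1 + f2) ≤ 2 * Q3 * K * 𝓠g.card := by
    have hKQ : 0 < 2 * K ^ (2 * Fintype.card ι) * D := by positivity
    refine Nat.le_of_mul_le_mul_right ?_ hKQ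
    have h1 : K ^ (m1 + f2) ≤ K ^ (2 * Fintype.card ι) :=
      Nat.pow_le_pow_right hK (by omega)
    have h2 : 𝓠.card * D ≤ Fintype.card V * D ^ (m1 + 1 + f2) * K ^ (2 * Fintype.card ι) := by
      calc 𝓠.card * D ≤ Fintype.card V * ((K * D) ^ m1 * (K * D) ^ f2) * D :=
            Nat.mul_le_mul_right _ h𝓠card
        _ = Fintype.card V * D ^ (m1 + 1 + f2) * K ^ (m1 + f2) := by
            rw [mul_pow, mul_pow, pow_add, pow_add, pow_add]
            ring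
        _ ≤ _ := Nat.mul_le_mul_left _ h1
    have h3 : 2 * K ^ (2 * Fintype.card ι) * (Fintype.card V * D ^ (m1 + 1 + f2)) ≤
        Q4 * 𝓣.card := by
      rw [hQ4]
      calc 2 * K ^ (2 * Fintype.card ι) * (Fintype.card V * D ^ (m1 + 1 + f2)) ≤
            2 * K ^ (2 * Fintype.card ι) * (Q3 * 𝓣.card) := Nat.mul_le_mul_left _ h𝓣card
        _ = _ := by ring
    have h4 : Fintype.card V * D ^ (m1 + 1 + f2) * K ^ (2 * Fintype.card ι) ≤
        Q4 * (𝓠g.card * (K * D)) := by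
      have h5 : 2 * K ^ (2 * Fintype.card ι) * (Fintype.card V * D ^ (m1 + 1 + f2)) =
        Fintype.card V * D ^ (m1 + 1 + f2) * K ^ (2 * Fintype.card ι) +
        Fintype.card V * D ^ (m1 + 1 + f2) * K ^ (2 * Fintype.card ι) := by ring
      omega
    calc Fintype.card V * D ^ (m1 + f2) * (2 * K ^ (2 * Fintype.card ι) * D)
        = 2 * (Fintype.card V * D ^ (m1 + 1 + f2) * K ^ (2 * Fintype.card ι)) := by
          rw [show m1 + 1 + f2 = (m1 + f2) + 1 by omega, pow_succ]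
          ring
      _ ≤ 2 * (Q4 * (𝓠g.card * (K * D))) := Nat.mul_le_mul_left _ h4
      _ = _ := by
          rw [hQ4]
          ring
  -- the new family
  obtain ⟨Ωs', hΩs'⟩ : ∃ Ωs' : Finset (ι ⊕ ι → V), Ωs' =
    𝓟.image (fun p => resN T N' v0 p.2) := ⟨_, rfl⟩
  have hfam : ∀ π ∈ 𝓠g, π.1 ∈ Ωs' ∧ Fam T G E Rt B v0 (E0 \ N')
      (fun q => π.1 (Sum.inl (T.par q))) (Γ' π.1) π.2 := by
    intro π hπ
    rw [h𝓠g] at hπ
    obtain ⟨h1, h2⟩ := Finset.mem_filter.mp hπ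
    obtain ⟨p, hp, h3⟩ := h𝓠mem π h1
    refine ⟨?_, ?_⟩
    · rw [hΩs', h3]
      exact Finset.mem_image.mpr ⟨p, hp, rfl⟩
    · have h4 : Γ' π.1 (fun x => resD T N' (E0 \ N') v0 p.2 (Sum.inl x)) := by
        rw [hΓ']
        refine h2.trans (Nat.mul_le_mul_left _ ?_)
        rw [hc]
        refine Finset.card_le_card_of_injOn (fun t => t.2) ?_ ?_
        · intro t ht
          obtain ⟨h5, h6⟩ := Finset.mem_filter.mp ht
          rw [h𝓣] at h5
          obtain ⟨p', hp', rfl⟩ := Finset.mem_image.mp h5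
          rw [hΘ] at h6 ⊢
          simp only at h6 ⊢
          rw [h3] at h6
          simp only [Prod.mk.injEq] at h6
          have h7 := h𝓟 p' hp'
          refine Finset.mem_coe.mpr (Finset.mem_filter.mpr ⟨Finset.mem_univ _, ?_, ?_⟩)
          · rw [h3]
            simp only
            rw [← h6.1, resN_inl T N' v0 p'.2 huN']
            exact (hR.sw' u (hF.ne_top huF) huC hupC _ _).mp (h7.2.1.gd.2 u huF hpuF)
          · rw [← h6.2]
            refine Att.congr_ρ ?_ h7.2.2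
            intro q hq hQ
            rw [h3]
            simp only
            rw [← h6.1, resN_inr T N' v0 p'.2 hq hQ]
        · intro t ht t' ht' h
          have h1 := (Finset.mem_filter.mp ht).2
          have h2 := (Finset.mem_filter.mp ht').2
          exact Prod.ext (h1.trans h2.symm) h
      have h5 := hFamD p hp (Γ' π.1) h4
      rw [h3] at h5 ⊢
      exact h5
  have hspread : ∀ q ∈ E0 \ N', T.par q ∉ E0 \ N' → ∀ w,
      (Ωs'.filter (fun η => η (Sum.inl (T.par q)) = w)).card ≤ (K * D) ^ m1 := by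
    intro q hq hpq w
    have hpN' := htops q hq hpq
    have hmem : Sum.inl (T.par q) ∈ FC T N' := (mem_FC_inl T N' _).mpr hpN'
    have h3 := fr_add T N' {Sum.inl (T.par q)} (Finset.singleton_subset_iff.mpr hmem)
    rw [Finset.card_singleton] at h3
    have h4 : m1 = fr T N' {Sum.inl (T.par q)} := by omega
    rw [h4]
    refine spreadU T N' u hNtop hN'p G D K hG v0 (fun _ => v0) (T.dp (T.par q)) (T.par q) hpN'
      le_rfl {Sum.inl (T.par q)} (Finset.singleton_subset_iff.mpr hmem)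
      (Finset.mem_singleton_self _)
      (fun y hy => by rw [Sum.inl.inj (Finset.mem_singleton.mp hy)]) (fun _ => w) _ ?_ ?_
    · intro φ hφ
      obtain ⟨h5, _⟩ := Finset.mem_filter.mp hφ
      rw [hΩs'] at h5
      obtain ⟨p, hp, rfl⟩ := Finset.mem_image.mp h5
      exact hcpN p hp
    · intro φ hφ c hc
      rw [Finset.mem_singleton.mp hc]
      exact (Finset.mem_filter.mp hφ).2
  have hdens : Fintype.card V * (K * D) ^ m1 * D ^ (FC T (E0 \ N')).card ≤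
      2 * Q3 * K * K ^ (2 * Fintype.card ι) * 𝓠g.card := by
    rw [← hf2]
    calc Fintype.card V * (K * D) ^ m1 * D ^ f2 = Fintype.card V * D ^ (m1 + f2) * K ^ m1 := by
          rw [mul_pow, pow_add]
          ring
      _ ≤ 2 * Q3 * K * 𝓠g.card * K ^ (2 * Fintype.card ι) :=
          Nat.mul_le_mul hN1 (Nat.pow_le_pow_right hK (by omega))
      _ = _ := by ring
  have hLle : L ≤ 2 * L * K * Q4 := by
    calc L = L * 1 := (mul_one L).symm
      _ ≤ L * (2 * K * Q4) := Nat.mul_le_mul_left _ (by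
          have : 0 < 2 * K * Q4 := by positivity
          omega)
      _ = _ := by ring
  rcases ih V G D hG hC E Rt hR B hB v0 (ι ⊕ ι → V) (fun η q => η (Sum.inl (T.par q))) Γ' Ωs'
    ((K * D) ^ m1) (pow_pos hKD _) hspread 𝓠g hfam hdens with ⟨u', hu', hQu', h⟩ | h
  · refine ⟨u', hDF hu', hQu', h.trans (Nat.mul_le_mul (by omega) (Finset.card_le_card ?_))⟩
    intro w hw
    refine Finset.mem_filter.mpr ⟨Finset.mem_univ _, (Finset.mem_filter.mp hw).2.mono hLle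
      (by omega) (by omega)⟩
  · have h1 := popU hasm T K hK Q'' Q4 L ζ Lk hQ4p hL hLk E0 N' u hN'E huN' htopE hupE huC huL
      hupC hEp hN'p hch hc3 huq V G D hG hD E Rt hR v0 (fun _ => v0)
      (Ωs'.filter (fun ω => ∀ Z : Finset V, Z.card ≤ ζ + 2 * Fintype.card ι →
        BUat T E Rt (E0 \ N') (fun q => ω (Sum.inl (T.par q))) (2 * L * K * Q4) (Γ' ω) Z))
      (fun η hη => by
        have h5 := (Finset.mem_filter.mp hη).1
        rw [hΩs'] at h5
        obtain ⟨p, hp, rfl⟩ := Finset.mem_image.mp h5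
        exact hcpN p hp)
      (fun η hη => by
        have h5 := (Finset.mem_filter.mp hη).1
        rw [hΩs'] at h5
        obtain ⟨p, hp, rfl⟩ := Finset.mem_image.mp h5
        exact resN_inj (h𝓟 p hp).2.1.ij (hN'E.trans hEF))
      (fun η hη Z hZ => by
        have h5 := (Finset.mem_filter.mp hη).2 Z hZ
        rw [hΓ'] at h5
        exact h5)
      (by rw [← hm1]; exact h)
    refine ⟨u, huF, ⟨huC, hupC⟩, h1.trans (Nat.mul_le_mul (by omega) (Finset.card_le_card ?_))⟩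
    intro w hw
    rw [← hE]
    exact Finset.mem_filter.mpr ⟨Finset.mem_univ _, (Finset.mem_filter.mp hw).2.mono le_rfl
      le_rfl (by omega)⟩

end Pool.Agent.TH476.KK
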