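import Pool.Agent.TH476.KStm2

set_option autoImplicit false

open Classical

namespace Pool.Agent.TH476.KK

namespace KCat

/-! ### the numbers of legs; `n + 1` centres, `d + 1` legs, `p = n + 1 + d` -/

/-- number of legs at the first `j` centres -/
def Kf (n d j : ℕ) : ℕ := if j < n + 1 then (d * j + n) / (n + 1) else d + 1

/-- number of legs at the centre `j` -/
def kf (n d j : ℕ) : ℕ := Kf n d (j + 1) - Kf n d j

theorem K_zero (n d : ℕ) : Kf n d 0 = 0 := by
  unfold Kf
  rw [if_pos (Nat.succ_pos n), Nat.mul_zero, Nat.zero_add]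
  exact Nat.div_eq_of_lt (by omega)

theorem K_top (n d : ℕ) : Kf n d (n + 1) = d + 1 := by
  unfold Kf
  rw [if_neg (lt_irrefl _)]

theorem K_lower (n d j : ℕ) (hj : j < n + 1) : d * j ≤ (n + 1) * Kf n d j := by
  unfold Kf
  rw [if_pos hj]
  have := Nat.div_add_mod (d * j + n) (n + 1)
  have h2 := Nat.mod_lt (d * j + n) (Nat.succ_pos n)
  simp only [Nat.succ_eq_add_one] at h2
  omega

theorem K_upper (n d j : ℕ) (hj : j < n + 1) : (n + 1) * Kf n d j ≤ d * j + n := by
  unfold Kf
  rw [if_pos hj]
  exact Nat.mul_div_le _ _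

theorem K_mono (n d j : ℕ) (hj : j < n + 1) : Kf n d j ≤ Kf n d (j + 1) := by
  by_cases h : j + 1 < n + 1
  · unfold Kf
    rw [if_pos hj, if_pos h]
    apply Nat.div_le_div_right
    have : d * j ≤ d * (j + 1) := Nat.mul_le_mul_left _ (Nat.le_succ _)
    omega
  · have h2 : j + 1 = n + 1 := by omega
    rw [h2, K_top]
    have h3 := K_upper n d j hj
    have h4 : (n + 1) * Kf n d j ≤ (n + 1) * (d + 1) := by
      refine le_trans h3 ?_
      have h5 : j = n := by omega
      subst h5
      nlinarith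
    exact Nat.le_of_mul_le_mul_left h4 (Nat.succ_pos n)

theorem k_cast (n d j : ℕ) (hj : j < n + 1) :
    ((kf n d j : ℕ) : ℤ) = (Kf n d (j + 1) : ℤ) - Kf n d j := by
  unfold kf
  rw [Nat.cast_sub (K_mono n d j hj)]

theorem k_sum (n d : ℕ) : ∑ i ∈ Finset.range (n + 1), kf n d i = d + 1 := by
  have h : ∀ m, m ≤ n + 1 → ∑ i ∈ Finset.range m, kf n d i = Kf n d m := by
    intro m
    induction m with
    | zero => intro _; simp [K_zero n d]
    | succ m ih =>
      intro hm
      rw [Finset.sum_range_succ, ih (by omega)]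
      have := K_mono n d m (by omega)
      unfold kf
      omega
  rw [h (n + 1) le_rfl, K_top]

/-- shifted sequence -/
def sh (x : ℕ → ℤ) (i : ℕ) : ℤ := if i = 0 then 0 else x (i - 1)

/-- the arithmetic part -/
theorem arith (n d : ℕ) (x : ℕ → ℤ) (hx : ∀ i, x i = 0 ∨ x i = 1) :
    0 ≤ ∑ i ∈ Finset.range (n + 1), (((n : ℤ) + 1 + d) * x i - (n + 1) * (kf n d i * x i) -
      (n + 1) * (x i * sh x i)) := by
  have key : ∀ j, j ≤ n + 1 →
      (sh x j = 0 → 0 ≤ ∑ i ∈ Finset.range j, (((n : ℤ) + 1 + d) * x i -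
        (n + 1) * (kf n d i * x i) - (n + 1) * (x i * sh x i))) ∧
      (sh x j = 1 → (n + 1) + (d : ℤ) * j - (n + 1) * Kf n d j ≤
        ∑ i ∈ Finset.range j, (((n : ℤ) + 1 + d) * x i - (n + 1) * (kf n d i * x i) -
      (n + 1) * (x i * sh x i))) := by
    intro j
    induction j with
    | zero =>
      intro _
      refine ⟨fun _ => by simp, fun h => ?_⟩
      simp [sh] at h
    | succ j ih =>
      intro hj
      have hj' : j < n + 1 := by omega
      obtain ⟨ih0, ih1⟩ := ih (by omega)
      rw [Finset.sum_range_succ]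
      set F := ∑ i ∈ Finset.range j, (((n : ℤ) + 1 + d) * x i - (n + 1) * (kf n d i * x i) -
        (n + 1) * (x i * sh x i)) with hF
      have hs : sh x (j + 1) = x j := by simp [sh]
      rw [hs]
      have hshx : sh x j = 0 ∨ sh x j = 1 := by
        unfold sh
        split_ifs
        · left; rfl
        · exact hx _
      have hk := k_cast n d j hj'
      have hL : (d : ℤ) * j ≤ (n + 1) * Kf n d j := by exact_mod_cast K_lower n d j hj'
      have hU : ((n : ℤ) + 1) * Kf n d j ≤ d * j + n := by exact_mod_cast K_upper n d j hj'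
      constructor
      · intro hxj
        rw [hxj]
        rcases hshx with h0 | h1
        · have := ih0 h0
          rw [h0]
          linarith
        · have hB := ih1 h1
          rw [h1]
          linarith
      · intro hxj
        rw [hxj, hk]
        push_cast
        rcases hshx with h0 | h1
        · have hF0 := ih0 h0
          rw [h0]
          linarith
        · have hB := ih1 h1
          rw [h1]
          linarith
  obtain ⟨k0, k1⟩ := key (n + 1) le_rfl
  have hsh : sh x (n + 1) = 0 ∨ sh x (n + 1) = 1 := by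
    have e : sh x (n + 1) = x n := by simp [sh]
    rw [e]
    exact hx n
  rcases hsh with h | h
  · exact k0 h
  · refine le_trans ?_ (k1 h)
    rw [K_top]
    push_cast
    linarith

/-- a path: the weight of the first `m` inner nodes -/
theorem path (a p : ℤ) (hp : 0 ≤ p) (w : ℕ → ℤ) (hw : ∀ i, w i = 0 ∨ w i = 1) (m : ℕ)
    (hm : p * m ≤ a) :
    0 ≤ ∑ j ∈ Finset.range m, (p * w (j + 1) + a * (w (j + 1) * (1 - w j))) ∧
    a * w m - ∑ j ∈ Finset.range m, (p * w (j + 1) + a * (w (j + 1) * (1 - w j))) ≤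
      (a - p * m) * w 0 := by
  induction m with
  | zero => simp
  | succ m ih =>
    have ha : 0 ≤ a := le_trans (by positivity) hm
    push_cast at hm
    obtain ⟨h1, h2⟩ := ih (by nlinarith)
    rw [Finset.sum_range_succ]
    push_cast
    set S := ∑ j ∈ Finset.range m, (p * w (j + 1) + a * (w (j + 1) * (1 - w j))) with hS
    rcases hw (m + 1) with e1 | e1 <;> rcases hw m with e2 | e2 <;> rcases hw 0 with e3 | e3 <;>
      rw [e1, e2, e3] <;> rw [e2, e3] at h2 <;> constructor <;> nlinarith

/-- a connection -/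
theorem conn (a p : ℤ) (hp : 0 ≤ p) (w : ℕ → ℤ) (hw : ∀ i, w i = 0 ∨ w i = 1) (k : ℕ)
    (hk : p * k ≤ a) (y : ℤ) (hy : y = 0 ∨ y = 1) :
    -((a - p * k) * (w 0 * y)) ≤
    ∑ j ∈ Finset.range k, (p * w (j + 1) + a * (w (j + 1) * (1 - w j))) - a * (y * w k) := by
  obtain ⟨h1, h2⟩ := path a p hp w hw k hk
  rcases hy with e | e <;> rw [e]
  · simpa using h1
  · linarith

/-- a leg with `k + 1` nodes -/
theorem leg (a p : ℤ) (hp : 0 ≤ p) (w : ℕ → ℤ) (hw : ∀ i, w i = 0 ∨ w i = 1) (k : ℕ)
    (hk : p * (k + 1) ≤ a) :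
    -((a - p * (k + 1)) * w 0) ≤
    ∑ j ∈ Finset.range k, (p * w (j + 1) + a * (w (j + 1) * (1 - w j))) + p * w (k + 1) -
      a * (w (k + 1) * w k) := by
  obtain ⟨h1, h2⟩ := path a p hp w hw k (by nlinarith)
  rcases hw (k + 1) with e | e <;> rw [e]
  · rcases hw 0 with e0 | e0 <;> rw [e0]
    · simpa using h1
    · nlinarith
  · rcases hw 0 with e0 | e0 <;> rw [e0] <;> rw [e0] at h2 <;> nlinarith

/-! ### the caterpillar; `k + 1` nodes on every connection and leg -/

/-- the legs -/
abbrev Lg (n d : ℕ) : Type := Σ i : Fin (n + 1), Fin (kf n d i)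

/-- connections and legs -/
abbrev Br (n d : ℕ) : Type := Fin n ⊕ Lg n d

/-- nodes -/
abbrev NT (k n d : ℕ) : Type := Option (Fin (n + 1) ⊕ (Br n d × Fin (k + 1)))

variable {k n d : ℕ}

/-- the centre at which a connection or leg starts -/
def bs : Br n d → ℕ
  | Sum.inl i => i
  | Sum.inr z => z.1

theorem bs_lt (b : Br n d) : bs b < n + 1 := by
  rcases b with i | z
  · exact i.2.trans (Nat.lt_succ_self n)
  · exact z.1.2

/-- the centre -/
def cn (i : Fin (n + 1)) : NT k n d := some (Sum.inl i)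

/-- inner node -/
def nd (b : Br n d) (j : Fin (k + 1)) : NT k n d := some (Sum.inr (b, j))

/-- parent -/
def par : NT k n d → NT k n d
  | none => none
  | some (Sum.inl i) =>
      if h : (i : ℕ) = 0 then none
      else some (Sum.inr (Sum.inl ⟨(i : ℕ) - 1, by have := i.2; omega⟩, Fin.last k))
  | some (Sum.inr z) =>
      if (z.2 : ℕ) = 0 then some (Sum.inl ⟨bs z.1, bs_lt z.1⟩)
      else some (Sum.inr (z.1, ⟨(z.2 : ℕ) - 1, by have := z.2.2; omega⟩))

/-- centres -/
def Cn : NT k n d → Prop
  | none => False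
  | some (Sum.inl _) => True
  | some (Sum.inr _) => False

/-- leg nodes -/
def lg : NT k n d → Prop
  | none => False
  | some (Sum.inl _) => False
  | some (Sum.inr z) => z.1.isRight = true

/-- ends of the legs -/
def Ln : NT k n d → Prop
  | none => False
  | some (Sum.inl _) => False
  | some (Sum.inr z) => z.1.isRight = true ∧ (z.2 : ℕ) = k

/-- position -/
def ps : NT k n d → ℕ
  | none => 0
  | some (Sum.inl _) => 0
  | some (Sum.inr z) => (z.2 : ℕ) + 1

/-- kind -/
def kb : NT k n d → Bool
  | none => false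
  | some (Sum.inl i) => decide ((i : ℕ) % 2 = 1)
  | some (Sum.inr z) => decide (bs z.1 % 2 = 1)

/-- depth -/
def dp : NT k n d → ℕ
  | none => 0
  | some (Sum.inl i) => 1 + (i : ℕ) * (k + 2)
  | some (Sum.inr z) => 2 + bs z.1 * (k + 2) + (z.2 : ℕ)

/-- the caterpillar -/
def TT (k n d : ℕ) : TE (k + 1) (NT k n d) where
  par := par
  Cn := Cn
  Ln := Ln
  lg := lg
  ps := ps
  kb := kb
  dp := dp
  top := none
  top_C := fun h => h
  top_L := fun h => h
  dp_par := by
    intro x hx
    rcases x with _ | i | ⟨b, j⟩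
    · exact absurd rfl hx
    · simp only [par]
      split_ifs with h
      · simp only [dp]; omega
      · simp only [dp, bs, Fin.val_last]
        obtain ⟨i, hi⟩ := i
        obtain ⟨m, rfl⟩ : ∃ m, i = m + 1 := ⟨i - 1, by simp at h; omega⟩
        simp only [Nat.add_sub_cancel]
        ring_nf
        omega
    · simp only [par]
      split_ifs with h
      · simp only [dp]; omega
      · simp only [dp]; omega
  topc := by
    intro x hx hp
    rcases x with _ | i | ⟨b, j⟩
    · exact absurd rfl hx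
    · trivial
    · simp only [par] at hp
      split_ifs at hp
  top1 := by
    have hc : ∀ z : NT k n d, z ≠ none → par z = none → z = cn ⟨0, Nat.succ_pos n⟩ := by
      intro z hz hpz
      rcases z with _ | i | ⟨b, j⟩
      · exact absurd rfl hz
      · simp only [par] at hpz
        by_cases h0 : (i : ℕ) = 0
        · have : i = ⟨0, Nat.succ_pos n⟩ := Fin.ext h0
          rw [this]; rfl
        · rw [dif_neg h0] at hpz
          exact absurd hpz (by simp)
      · simp only [par] at hpz
        split_ifs at hpz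
    intro x y hx hy hpx hpy
    rw [hc x hx hpx, hc y hy hpy]
  C_ps := by
    intro x hx
    rcases x with _ | i | ⟨b, j⟩
    · rfl
    · rfl
    · exact absurd hx (fun h => h)
  C_lg := by
    intro x hx
    rcases x with _ | i | ⟨b, j⟩
    · exact fun h => h
    · exact fun h => h
    · exact absurd hx (fun h => h)
  C_par := by
    intro x hx hp
    rcases x with _ | i | ⟨b, j⟩
    · exact absurd hx (fun h => h)
    · simp only [par] at hp ⊢
      by_cases h : (i : ℕ) = 0
      · rw [dif_pos h] at hp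
        exact absurd rfl hp
      · rw [dif_neg h]
        refine ⟨fun h => h, fun h => by simp [lg] at h, by simp [ps], ?_⟩
        simp only [kb, bs]
        rcases Nat.mod_two_eq_zero_or_one (i : ℕ) with e | e
        · have : ((i : ℕ) - 1) % 2 = 1 := by omega
          simp [e, this]
        · have : ((i : ℕ) - 1) % 2 = 0 := by omega
          simp [e, this]
    · exact absurd hx (fun h => h)
  N_ps := by
    intro x hx hC
    rcases x with _ | i | ⟨b, j⟩
    · exact absurd rfl hx
    · exact absurd trivial hC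
    · have hj := j.2
      simp only [par]
      split_ifs with h
      · refine ⟨?_, ?_, ?_⟩
        · simp only [ps]
          omega
        · simp only [ps]
          omega
        · simp only [kb]
      · refine ⟨?_, ?_, ?_⟩
        · simp only [ps]
          omega
        · simp only [ps]
          omega
        · simp only [kb]
  N_lg := by
    intro x hx hC hP
    rcases x with _ | i | ⟨b, j⟩
    · exact absurd rfl hx
    · exact absurd trivial hC
    · simp only [par] at hP ⊢
      split_ifs with h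
      · rw [if_pos h] at hP
        exact absurd trivial hP
      · rfl
  L_iff := by
    intro x
    rcases x with _ | i | ⟨b, j⟩
    · simp [Ln]
    · simp [Ln, lg]
    · simp [Ln, lg, ps]
  one := by
    have hc : ∀ (b : Br n d) (j : Fin (k + 1)) (y : NT k n d), y ≠ none → par y = nd b j →
        ((j : ℕ) = k ∧ ∃ (i : Fin (n + 1)), y = cn i ∧ (i : ℕ) = bs b + 1 ∧ b.isLeft = true) ∨
        ∃ h : (j : ℕ) + 1 < k + 1, y = nd b ⟨j + 1, h⟩ := by
      intro b j y hy hp
      rcases y with _ | i | ⟨b', j'⟩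
      · exact absurd rfl hy
      · left
        simp only [par] at hp
        by_cases h : (i : ℕ) = 0
        · rw [dif_pos h] at hp
          exact absurd hp (by simp [nd])
        · rw [dif_neg h] at hp
          simp only [nd, Option.some.injEq, Sum.inr.injEq, Prod.mk.injEq] at hp
          obtain ⟨h1, h2⟩ := hp
          refine ⟨by rw [← h2]; simp, i, rfl, ?_, ?_⟩
          · rw [← h1]
            simp only [bs]
            omega
          · rw [← h1]; rfl
      · right
        simp only [par] at hp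
        split_ifs at hp with h
        · exact absurd hp (by simp [nd])
        · simp only [nd, Option.some.injEq, Sum.inr.injEq, Prod.mk.injEq] at hp
          obtain ⟨h1, h2⟩ := hp
          have h3 := congrArg Fin.val h2
          simp only at h3 h
          have := j'.2
          refine ⟨by omega, ?_⟩
          simp only [nd, Option.some.injEq, Sum.inr.injEq, Prod.mk.injEq]
          refine ⟨h1, Fin.ext ?_⟩
          simp only
          omega
    intro x y y' hx hC hy hy' hp hp'
    rcases x with _ | i | ⟨b, j⟩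
    · exact absurd rfl hx
    · exact absurd trivial hC
    · rcases hc b j y hy hp with ⟨h1, i, rfl, h3, h4⟩ | ⟨h1, rfl⟩ <;>
        rcases hc b j y' hy' hp' with ⟨h1', i', rfl, h3', h4'⟩ | ⟨h1', rfl⟩
      · have : i = i' := Fin.ext (by omega)
        rw [this]
      · omega
      · omega
      · rfl
  chd := by
    intro x hx hC hL
    rcases x with _ | i | ⟨b, j⟩
    · exact absurd rfl hx
    · exact absurd trivial hC
    · by_cases hj : (j : ℕ) + 1 < k + 1
      · refine ⟨nd b ⟨j + 1, hj⟩, by simp [nd], ?_⟩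
        simp [par, nd]
      · have hj' : (j : ℕ) = k := by have := j.2; omega
        rcases b with i | z
        · refine ⟨cn ⟨(i : ℕ) + 1, by have := i.2; omega⟩, by simp [cn], ?_⟩
          simp only [par, cn]
          rw [dif_neg (by simp)]
          simp only [Nat.add_sub_cancel, Option.some.injEq, Sum.inr.injEq, Prod.mk.injEq]
          refine ⟨trivial, Fin.ext ?_⟩
          simp [hj']
        · exact absurd (show Ln (some (Sum.inr (Sum.inr z, j))) from ⟨rfl, hj'⟩) hL

theorem card_Br (n d : ℕ) : Fintype.card (Br n d) = n + (d + 1) := by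
  simp only [Br, Lg, Fintype.card_sum, Fintype.card_fin, Fintype.card_sigma]
  have h := k_sum n d
  rw [Finset.sum_range] at h
  rw [h]

theorem card_NT (k n d : ℕ) :
    Fintype.card (NT k n d) = (k + 1) * (n + 1 + d) + (n + 1) + 1 := by
  have h := card_Br n d
  simp only [NT, Fintype.card_option, Fintype.card_sum (α := Fin (n + 1)), Fintype.card_fin,
    Fintype.card_prod]
  rw [h]
  ring

theorem card_Q (k n d : ℕ) :
    (Finset.univ.filter (fun x => (TT k n d).Qn x)).card = n + 1 + d + 1 := by
  rw [Finset.card_filter]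
  have h := k_sum n d
  rw [Finset.sum_range] at h
  have h0 : ¬ (TT k n d).Qn none := by
    rintro (h | h)
    · exact h
    · exact h
  have h1 : ∀ i : Fin (n + 1), (TT k n d).Qn (some (Sum.inl i)) := fun i => Or.inl trivial
  have h2 : ∀ (b : Br n d) (j : Fin (k + 1)), (TT k n d).Qn (some (Sum.inr (b, j))) ↔
      (b.isRight = true ∧ j = Fin.last k) := by
    intro b j
    constructor
    · rintro (h | h)
      · exact absurd h (fun h => h)
      · exact ⟨h.1, Fin.ext (by simpa using h.2)⟩
    · rintro ⟨h3, h4⟩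
      exact Or.inr ⟨h3, by rw [h4]; simp⟩
  simp only [NT, Fintype.sum_option, Fintype.sum_sum_type, Fintype.sum_prod_type, h0, h1, h2,
    if_false, if_true, zero_add]
  simp only [Sum.isRight_inl, Sum.isRight_inr, true_and, Bool.false_eq_true, false_and, if_false,
    Finset.sum_const_zero, Finset.sum_ite_eq', Finset.mem_univ, if_true, Finset.sum_const,
    Finset.card_univ, Fintype.card_sigma, Fintype.card_fin, smul_eq_mul, mul_one, zero_add]
  rw [h]
  ring

theorem cf {α : Type} [Fintype α] (U : Finset α) (P : α → Prop) {_ : DecidablePred P}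
    {_ : ∀ z, Decidable (z ∈ U ∧ P z)} :
    ((U.filter P).card : ℤ) = ∑ z, if z ∈ U ∧ P z then 1 else 0 := by
  rw [← Finset.sum_filter, Finset.sum_const, nsmul_one]
  congr 2
  ext z
  simp

/-- indicator of the centres -/
noncomputable def xf (U : Finset (NT k n d)) (i : ℕ) : ℤ :=
  if h : i < n + 1 then (if (some (Sum.inl ⟨i, h⟩) : NT k n d) ∈ U then 1 else 0) else 0

/-- indicator of the nodes along a connection or leg -/
noncomputable def wf (U : Finset (NT k n d)) (b : Br n d) : ℕ → ℤ
  | 0 => xf U (bs b)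
  | j + 1 => if h : j < k + 1 then
      (if (some (Sum.inr (b, ⟨j, h⟩)) : NT k n d) ∈ U then 1 else 0) else 0

theorem xf01 (U : Finset (NT k n d)) (i : ℕ) : xf U i = 0 ∨ xf U i = 1 := by
  unfold xf
  split_ifs <;> simp

theorem wf01 (U : Finset (NT k n d)) (b : Br n d) (i : ℕ) : wf U b i = 0 ∨ wf U b i = 1 := by
  cases i with
  | zero => exact xf01 U _
  | succ j =>
    simp only [wf]
    split_ifs <;> simp

theorem xf_eq (U : Finset (NT k n d)) (i : Fin (n + 1)) :
    xf U i = if (some (Sum.inl i) : NT k n d) ∈ U then 1 else 0 := by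
  simp only [xf, i.2, dif_pos, Fin.eta]

theorem wf_eq (U : Finset (NT k n d)) (b : Br n d) (j : Fin (k + 1)) :
    wf U b (j + 1) = if (some (Sum.inr (b, j)) : NT k n d) ∈ U then 1 else 0 := by
  simp only [wf, j.2, dif_pos, Fin.eta]

theorem wf_par (U : Finset (NT k n d)) (b : Br n d) (j : Fin (k + 1)) :
    wf U b j = if par (some (Sum.inr (b, j)) : NT k n d) ∈ U then 1 else 0 := by
  simp only [par]
  by_cases h : (j : ℕ) = 0
  · rw [if_pos h, h]
    exact xf_eq U ⟨bs b, bs_lt b⟩
  · have hj := j.2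
    rw [if_neg h]
    have h1 := wf_eq U b (⟨(j : ℕ) - 1, by omega⟩ : Fin (k + 1))
    have h2 : ((⟨(j : ℕ) - 1, by omega⟩ : Fin (k + 1)) : ℕ) + 1 = j := by
      simp only
      omega
    rw [h2] at h1
    exact h1

theorem dec (f : NT k n d → ℤ) (h : f none = 0) :
    ∑ z, f z = ∑ i : Fin (n + 1), f (some (Sum.inl i)) +
      (∑ i : Fin n, ∑ j : Fin (k + 1), f (some (Sum.inr (Sum.inl i, j))) +
        ∑ z : Lg n d, ∑ j : Fin (k + 1), f (some (Sum.inr (Sum.inr z, j)))) := by
  rw [Fintype.sum_option, h, zero_add, Fintype.sum_sum_type, Fintype.sum_prod_type,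
    Fintype.sum_sum_type]

theorem e1 (U : Finset (NT k n d)) (hU : (none : NT k n d) ∉ U) :
    (U.card : ℤ) = ∑ i : Fin (n + 1), xf U i +
      (∑ i : Fin n, ∑ j : Fin (k + 1), wf U (Sum.inl i) (j + 1) +
        ∑ z : Lg n d, ∑ j : Fin (k + 1), wf U (Sum.inr z) (j + 1)) := by
  have : (U.card : ℤ) = ∑ z : NT k n d, if z ∈ U then 1 else 0 := by simp
  rw [this, dec _ (if_neg hU)]
  simp only [xf_eq, wf_eq]

/-- nodes with a root -/
def Qn (x : NT k n d) : Prop := Cn x ∨ Ln x

theorem e2 (U : Finset (NT k n d)) (hU : (none : NT k n d) ∉ U) :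
    ((U.filter (fun x => ¬ Qn x ∧ par x ∉ U)).card : ℤ) =
      ∑ i : Fin n, ∑ j : Fin (k + 1), wf U (Sum.inl i) (j + 1) * (1 - wf U (Sum.inl i) j) +
        ∑ z : Lg n d, ∑ j : Fin k, wf U (Sum.inr z) (j + 1) * (1 - wf U (Sum.inr z) j) := by
  have : ((U.filter (fun x => ¬ Qn x ∧ par x ∉ U)).card : ℤ) =
      ∑ z : NT k n d, if z ∈ U ∧ (¬ Qn z ∧ par z ∉ U) then 1 else 0 := cf U _
  rw [this, dec _ (if_neg fun h => hU h.1)]
  have h0 : ∀ i : Fin (n + 1), (if (some (Sum.inl i) : NT k n d) ∈ U ∧
      (¬ Qn (some (Sum.inl i) : NT k n d) ∧ par (some (Sum.inl i) : NT k n d) ∉ U)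
      then (1 : ℤ) else 0) = 0 := by
    intro i
    exact if_neg fun h => h.2.1 (Or.inl trivial)
  rw [Finset.sum_eq_zero fun i _ => h0 i, zero_add]
  have hn : ∀ (b : Br n d) (j : Fin (k + 1)), ¬ Qn (some (Sum.inr (b, j)) : NT k n d) →
      (if (some (Sum.inr (b, j)) : NT k n d) ∈ U ∧
      (¬ Qn (some (Sum.inr (b, j)) : NT k n d) ∧ par (some (Sum.inr (b, j)) : NT k n d) ∉ U)
      then (1 : ℤ) else 0) = wf U b (j + 1) * (1 - wf U b j) := by
    intro b j hq
    rw [wf_eq, wf_par]
    by_cases h1 : (some (Sum.inr (b, j)) : NT k n d) ∈ U <;>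
      by_cases h2 : par (some (Sum.inr (b, j)) : NT k n d) ∈ U <;> simp [h1, h2, hq]
  congr 1
  · refine Finset.sum_congr rfl fun i _ => Finset.sum_congr rfl fun j _ => ?_
    refine hn (Sum.inl i) j ?_
    rintro (h | h)
    · exact h
    · exact absurd h.1 (by simp)
  · refine Finset.sum_congr rfl fun z _ => ?_
    rw [Fin.sum_univ_castSucc]
    rw [if_neg (show ¬ ((some (Sum.inr (Sum.inr z, Fin.last k)) : NT k n d) ∈ U ∧
      (¬ Qn (some (Sum.inr (Sum.inr z, Fin.last k)) : NT k n d) ∧
        par (some (Sum.inr (Sum.inr z, Fin.last k)) : NT k n d) ∉ U)) from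
      fun h => h.2.1 (Or.inr ⟨rfl, by simp⟩)), add_zero]
    refine Finset.sum_congr rfl fun j _ => ?_
    have := hn (Sum.inr z) j.castSucc ?_
    · simpa using this
    · rintro (h | h)
      · exact h
      · have h3 := h.2
        simp only [Fin.val_castSucc] at h3
        have := j.2
        omega

theorem e3 (U : Finset (NT k n d)) (hU : (none : NT k n d) ∉ U) :
    ((U.filter (fun x => Qn x ∧ par x ∈ U)).card : ℤ) =
      ∑ i : Fin n, xf U (i + 1) * wf U (Sum.inl i) (k + 1) +
        ∑ z : Lg n d, wf U (Sum.inr z) (k + 1) * wf U (Sum.inr z) k := by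
  have : ((U.filter (fun x => Qn x ∧ par x ∈ U)).card : ℤ) =
      ∑ z : NT k n d, if z ∈ U ∧ (Qn z ∧ par z ∈ U) then 1 else 0 := cf U _
  rw [this, dec _ (if_neg fun h => hU h.1)]
  have h1 : ∑ i : Fin n, ∑ j : Fin (k + 1), (if (some (Sum.inr (Sum.inl i, j)) : NT k n d) ∈ U ∧
      (Qn (some (Sum.inr (Sum.inl i, j)) : NT k n d) ∧
        par (some (Sum.inr (Sum.inl i, j)) : NT k n d) ∈ U)
      then (1 : ℤ) else 0) = 0 := by
    refine Finset.sum_eq_zero fun i _ => Finset.sum_eq_zero fun j _ => if_neg ?_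
    rintro ⟨_, (h | h), _⟩
    · exact h
    · exact absurd h.1 (by simp)
  rw [h1, zero_add]
  congr 1
  · rw [Fin.sum_univ_succ, if_neg, zero_add]
    · refine Finset.sum_congr rfl fun i _ => ?_
      have h2 := xf_eq U i.succ
      have h3 := wf_eq U (Sum.inl i) (Fin.last k)
      rw [Fin.val_succ] at h2
      rw [Fin.val_last] at h3
      rw [h2, h3]
      have h4 : par (some (Sum.inl i.succ) : NT k n d) =
          some (Sum.inr (Sum.inl i, Fin.last k)) := by
        simp only [par]
        rw [dif_neg (by simp)]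
        simp
      rw [h4]
      have h5 : Qn (some (Sum.inl i.succ) : NT k n d) := Or.inl trivial
      by_cases h6 : (some (Sum.inl i.succ) : NT k n d) ∈ U <;>
        by_cases h7 : (some (Sum.inr (Sum.inl i, Fin.last k)) : NT k n d) ∈ U <;>
        simp [h5, h6, h7]
    · rintro ⟨_, _, h⟩
      simp only [par] at h
      rw [dif_pos (by simp)] at h
      exact hU h
  · refine Finset.sum_congr rfl fun z _ => ?_
    rw [Fin.sum_univ_castSucc, Finset.sum_eq_zero, zero_add]
    · have h2 := wf_eq U (Sum.inr z) (Fin.last k)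
      have h3 := wf_par U (Sum.inr z) (Fin.last k)
      rw [Fin.val_last] at h2 h3
      rw [h2, h3]
      have h5 : Qn (some (Sum.inr (Sum.inr z, Fin.last k)) : NT k n d) :=
        Or.inr ⟨rfl, by simp⟩
      by_cases h6 : (some (Sum.inr (Sum.inr z, Fin.last k)) : NT k n d) ∈ U <;>
        by_cases h7 : par (some (Sum.inr (Sum.inr z, Fin.last k)) : NT k n d) ∈ U <;>
        simp [h5, h6, h7]
    · intro j _
      refine if_neg ?_
      rintro ⟨_, (h | h), _⟩
      · exact h
      · have h3 := h.2
        simp only [Fin.val_castSucc] at h3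
        have := j.2
        omega

theorem balance (U : Finset (NT k n d)) (hU : (none : NT k n d) ∉ U) :
    ((k + 1) * (n + 1 + d) + (n + 1)) * (U.filter (fun x => Qn x ∧ par x ∈ U)).card ≤
      (n + 1 + d) * U.card + ((k + 1) * (n + 1 + d) + (n + 1)) *
        (U.filter (fun x => ¬ Qn x ∧ par x ∉ U)).card := by
  set p : ℤ := (n : ℤ) + 1 + d with hp
  set a : ℤ := (k + 1) * p + (n + 1) with ha
  have hp0 : 0 ≤ p := by positivity
  have hpa : p * (k + 1) ≤ a := by
    rw [ha]
    have : (0 : ℤ) ≤ (n : ℤ) + 1 := by positivity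
    linarith
  have hc : ∀ i : Fin n, -((n + 1) * (xf U i * xf U (i + 1))) ≤
      ∑ j : Fin (k + 1), (p * wf U (Sum.inl i) (j + 1) +
        a * (wf U (Sum.inl i) (j + 1) * (1 - wf U (Sum.inl i) j))) -
        a * (xf U (i + 1) * wf U (Sum.inl i) (k + 1)) := by
    intro i
    have h := conn a p hp0 (wf U (Sum.inl i)) (wf01 U _) (k + 1) (by push_cast; exact hpa)
      (xf U (i + 1)) (xf01 U _)
    rw [Finset.sum_range] at h
    have h2 : a - p * ((k + 1 : ℕ) : ℤ) = n + 1 := by
      rw [ha]; push_cast; ring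
    rw [h2] at h
    exact h
  have hl : ∀ z : Lg n d, -((n + 1) * xf U z.1) ≤
      ∑ j : Fin k, (p * wf U (Sum.inr z) (j + 1) +
        a * (wf U (Sum.inr z) (j + 1) * (1 - wf U (Sum.inr z) j))) +
        p * wf U (Sum.inr z) (k + 1) - a * (wf U (Sum.inr z) (k + 1) * wf U (Sum.inr z) k) := by
    intro z
    have h := leg a p hp0 (wf U (Sum.inr z)) (wf01 U _) k hpa
    rw [Finset.sum_range] at h
    have h2 : a - p * ((k : ℤ) + 1) = n + 1 := by
      rw [ha]; ring
    rw [h2] at h
    exact h
  have har := arith n d (xf U) (xf01 U)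
  have hs1 : ∑ i ∈ Finset.range (n + 1), xf U i * sh (xf U) i =
      ∑ i : Fin n, xf U i * xf U (i + 1) := by
    rw [Finset.sum_range, Fin.sum_univ_succ]
    simp only [sh, Fin.val_zero, if_true, mul_zero, zero_add, Fin.val_succ, Nat.add_sub_cancel,
      Nat.succ_ne_zero, if_false]
    exact Finset.sum_congr rfl fun i _ => by ring
  have hs2 : ∑ i ∈ Finset.range (n + 1), (kf n d i : ℤ) * xf U i = ∑ z : Lg n d, xf U z.1 := by
    rw [Finset.sum_range, Fintype.sum_sigma]
    simp
  have hs3 : ∑ i ∈ Finset.range (n + 1), xf U i = ∑ i : Fin (n + 1), xf U i := by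
    rw [Finset.sum_range]
  rw [Finset.sum_sub_distrib, Finset.sum_sub_distrib, ← Finset.mul_sum, ← Finset.mul_sum,
    ← Finset.mul_sum, hs1, hs2, hs3] at har
  have hC := Finset.sum_le_sum fun i (_ : i ∈ (Finset.univ : Finset (Fin n))) => hc i
  have hL := Finset.sum_le_sum fun z (_ : z ∈ (Finset.univ : Finset (Lg n d))) => hl z
  simp only [Finset.sum_neg_distrib, Finset.sum_sub_distrib, Finset.sum_add_distrib,
    ← Finset.mul_sum] at hC hL
  have h1 := e1 U hU
  have h2 := e2 U hU
  have h3 := e3 U hU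
  have h1' : ∑ z : Lg n d, ∑ j : Fin (k + 1), wf U (Sum.inr z) (j + 1) =
      ∑ z : Lg n d, ∑ j : Fin k, wf U (Sum.inr z) (j + 1) +
        ∑ z : Lg n d, wf U (Sum.inr z) (k + 1) := by
    rw [← Finset.sum_add_distrib]
    refine Finset.sum_congr rfl fun z _ => ?_
    rw [Fin.sum_univ_castSucc]
    simp
  rw [h1'] at h1
  rw [← hp] at har
  have h4 : (0 : ℤ) ≤ p * U.card + a * (U.filter (fun x => ¬ Qn x ∧ par x ∉ U)).card -
      a * (U.filter (fun x => Qn x ∧ par x ∈ U)).card := by
    rw [h1, h2, h3]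
    clear_value a p
    linarith
  have h5 : ((((k + 1) * (n + 1 + d) + (n + 1)) *
      (U.filter (fun x => Qn x ∧ par x ∈ U)).card : ℕ) : ℤ) ≤
      (((n + 1 + d) * U.card + ((k + 1) * (n + 1 + d) + (n + 1)) *
        (U.filter (fun x => ¬ Qn x ∧ par x ∉ U)).card : ℕ) : ℤ) := by
    push_cast
    linarith
  exact_mod_cast h5

end KCat

open KCat in
theorem cat_holds : S_CAT := by
  intro k p c hk hc hcp
  obtain ⟨k, rfl⟩ : ∃ m, k = m + 1 := ⟨k - 1, by omega⟩
  obtain ⟨n, rfl⟩ : ∃ n, c = n + 1 := ⟨c - 1, by omega⟩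
  obtain ⟨d, rfl⟩ : ∃ d, p = n + 1 + d := ⟨p - (n + 1), by omega⟩
  refine ⟨NT k n d, inferInstance, TT k n d, ?_, ?_, ?_, ?_⟩
  · rw [card_NT k n d]
  · exact ⟨some (Sum.inl ⟨0, Nat.succ_pos n⟩), trivial⟩
  · rw [card_Q k n d]
  · intro U hU
    have hb := balance U hU
    unfold frc
    convert hb using 3
    · ext z
      simp only [Finset.mem_filter]
      rfl
    · congr 1
      ext z
      simp only [Finset.mem_filter]
      rfl

end Pool.Agent.TH476.KK
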