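import Pool.Agent.TH476.GKp
import Pool.Agent.TH476.GClaim

set_option autoImplicit false

open Classical

namespace Pool.Agent.TH476.KK

open Pool.Agent.TH476

/-- Rooted trees for the k-th layer. The top is the root of its only child. Cn are the centres
(every centre has one root, a leaf of its own); two consecutive centres are joined by a path of
length k+1 with k inner nodes; Ln are the ends of the legs: a leg is a path of length k starting
at a centre, its end in Ln has one root of its own. ps is the position of a node in its leg or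
connection (0 for centres), kb the kind of the centre at which the leg or connection starts. -/
structure TE (k : ℕ) (ι : Type) where
  par : ι → ι
  Cn : ι → Prop
  Ln : ι → Prop
  lg : ι → Prop
  ps : ι → ℕ
  kb : ι → Bool
  dp : ι → ℕ
  top : ι
  top_C : ¬ Cn top
  top_L : ¬ Ln top
  dp_par : ∀ x, x ≠ top → dp (par x) < dp x
  topc : ∀ x, x ≠ top → par x = top → Cn x
  top1 : ∀ x y, x ≠ top → y ≠ top → par x = top → par y = top → x = y
  C_ps : ∀ x, Cn x → ps x = 0
  C_lg : ∀ x, Cn x → ¬ lg x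
  C_par : ∀ x, Cn x → par x ≠ top → ¬ Cn (par x) ∧ ¬ lg (par x) ∧ ps (par x) = k ∧
    kb x = !(kb (par x))
  N_ps : ∀ x, x ≠ top → ¬ Cn x → ps x = ps (par x) + 1 ∧ ps x ≤ k ∧ kb x = kb (par x)
  N_lg : ∀ x, x ≠ top → ¬ Cn x → ¬ Cn (par x) → (lg x ↔ lg (par x))
  L_iff : ∀ x, Ln x ↔ (x ≠ top ∧ lg x ∧ ps x = k)
  one : ∀ x y y', x ≠ top → ¬ Cn x → y ≠ top → y' ≠ top → par y = x → par y' = x → y = y'
  chd : ∀ x, x ≠ top → ¬ Cn x → ¬ Ln x → ∃ y, y ≠ top ∧ par y = x

variable {k : ℕ} {ι V : Type}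

/-- nodes with a root -/
def TE.Qn (T : TE k ι) (x : ι) : Prop := T.Cn x ∨ T.Ln x

/-- psi and r form a good copy of the nodes in F; E x is the relation between the parent and x,
Rt x the relation between the root of x and x -/
def GoodOn (T : TE k ι) (E Rt : ι → V → V → Prop) (F : Finset ι) (ψ r : ι → V) : Prop :=
  (∀ x ∈ F, T.Qn x → Rt x (r x) (ψ x)) ∧
  (∀ x ∈ F, T.par x ∈ F → E x (ψ (T.par x)) (ψ x))

/-- the relations are consistent: at a centre the parent and the root are interchangeable, and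
the first node of a connection or leg and the root of the centre are interchangeable -/
structure RSok (T : TE k ι) (G : SimpleGraph V) (E Rt : ι → V → V → Prop) : Prop where
  adjE : ∀ x a b, E x a b → G.Adj a b
  adjR : ∀ x a b, Rt x a b → G.Adj a b
  sw : ∀ x, T.Cn x → ∀ a b, (E x a b ↔ Rt x a b)
  sw' : ∀ u, u ≠ T.top → ¬ T.Cn u → T.Cn (T.par u) → ∀ y w, (E u y w ↔ Rt (T.par u) w y)

/-- L disjoint good copies of F with common roots; the root of a node whose parent is outside F is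
prescribed by b -/
def BUat (T : TE k ι) (E Rt : ι → V → V → Prop) (F : Finset ι) (b : ι → V) (L : ℕ)
    (Γ : (ι → V) → Prop) (Z : Finset V) : Prop :=
  ∃ (ψ : Fin L → ι → V) (r : ι → V),
    (∀ q ∈ F, T.par q ∉ F → r q = b q) ∧
    (∀ l, GoodOn T E Rt F (ψ l) r) ∧
    (∀ l, Γ (ψ l)) ∧
    (∀ l l' x x', x ∈ F → x' ∈ F → ψ l x = ψ l' x' → l = l' ∧ x = x') ∧
    (∀ l x q, x ∈ F → q ∈ F → T.Qn q → ψ l x ≠ r q) ∧
    (∀ q q', q ∈ F → q' ∈ F → T.Qn q → T.Qn q' → r q = r q' → q = q') ∧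
    (∀ l x, x ∈ F → ψ l x ∉ Z) ∧
    (∀ q ∈ F, T.Qn q → T.par q ∈ F → r q ∉ Z)

/-- used coordinates: inl x is the node x, inr q the root of q -/
noncomputable def UC [Fintype ι] (T : TE k ι) (F : Finset ι) : Finset (ι ⊕ ι) :=
  Finset.univ.filter (fun c => (∃ x ∈ F, c = Sum.inl x) ∨ ∃ q ∈ F, T.Qn q ∧ c = Sum.inr q)

/-- free coordinates -/
noncomputable def FC [Fintype ι] (T : TE k ι) (F : Finset ι) : Finset (ι ⊕ ι) :=
  Finset.univ.filter (fun c => (∃ x ∈ F, c = Sum.inl x) ∨
    ∃ q ∈ F, T.Qn q ∧ T.par q ∈ F ∧ c = Sum.inr q)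

/-- admissible sets of nodes -/
def AdmF (T : TE k ι) (F : Finset ι) : Prop :=
  T.top ∉ F ∧ ∀ x ∈ F, ¬ T.Cn x → T.par x ∈ F

/-- copies of F in G -/
structure Cpy [Fintype ι] (T : TE k ι) (G : SimpleGraph V) (v0 : V) (F : Finset ι)
    (b : ι → V) (φ : ι ⊕ ι → V) : Prop where
  rt : ∀ x ∈ F, T.Qn x → G.Adj (φ (Sum.inr x)) (φ (Sum.inl x))
  pr : ∀ x ∈ F, T.par x ∈ F → G.Adj (φ (Sum.inl (T.par x))) (φ (Sum.inl x))
  df : ∀ c, c ∉ UC T F → φ c = v0
  bs : ∀ q ∈ F, T.par q ∉ F → φ (Sum.inr q) = b q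

/-- u is an ancestor of x or x itself -/
inductive DscR (T : TE k ι) (u : ι) : ι → Prop
  | refl : DscR T u u
  | step (x : ι) : x ≠ T.top → DscR T u (T.par x) → DscR T u x

/-- descendants of u in U, with u -/
noncomputable def Dsc (T : TE k ι) (U : Finset ι) (u : ι) : Finset ι :=
  U.filter (fun x => DscR T u x)

/-- closed under parents -/
def AncC (T : TE k ι) (U : Finset ι) : Prop := ∀ x ∈ U, x ≠ T.top → T.par x ∈ U

/-- a node of U which is not a centre has its children in U -/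
def FreeC (T : TE k ι) (U : Finset ι) : Prop :=
  ∀ x ∈ U, x ≠ T.top → ¬ T.Cn x → ∀ y, y ≠ T.top → T.par y = x → y ∈ U

/-- adjacency of coordinates in the copy structure of F -/
def Nb (T : TE k ι) (F : Finset ι) (c d : ι ⊕ ι) : Prop :=
  (∃ x ∈ F, T.Qn x ∧ ((c = Sum.inl x ∧ d = Sum.inr x) ∨ (c = Sum.inr x ∧ d = Sum.inl x))) ∨
  (∃ x ∈ F, T.par x ∈ F ∧ ((c = Sum.inl x ∧ d = Sum.inl (T.par x)) ∨
    (c = Sum.inl (T.par x) ∧ d = Sum.inl x)))

/-- paths of length j in the copy structure of F -/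
def PthC (T : TE k ι) (F : Finset ι) (j : ℕ) (c : ℕ → ι ⊕ ι) : Prop :=
  (∀ i, i < j → Nb T F (c i) (c (i + 1))) ∧ ∀ i i', i ≤ j → i' ≤ j → c i = c i' → i = i'

/-- paths of length j in G without a bad pair of vertices at distance less than j on the path;
B i x y means that x, y is a rich pair for paths of length i -/
def PthV (G : SimpleGraph V) (B : ℕ → V → V → Prop) (j : ℕ) (p : ℕ → V) : Prop :=
  (∀ i, i < j → G.Adj (p i) (p (i + 1))) ∧ (∀ i i', i ≤ j → i' ≤ j → p i = p i' → i = i') ∧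
  ∀ a b, a < b → b ≤ j → 2 ≤ b - a → b - a < j → ¬ B (b - a) (p a) (p b)

/-- M internally disjoint admissible paths of length j between x and y -/
def Disj (G : SimpleGraph V) (B : ℕ → V → V → Prop) (j M : ℕ) (x y : V) : Prop :=
  ∃ P : Fin M → ℕ → V, (∀ l, P l 0 = x ∧ P l j = y ∧ PthV G B j (P l)) ∧
    ∀ l l' i i', l ≠ l' → 1 ≤ i → i < j → 1 ≤ i' → i' < j → P l i ≠ P l' i'

/-- pairs joined by L1 internally disjoint admissible paths of length j are bad -/
def BSp (G : SimpleGraph V) (k L1 : ℕ) (B : ℕ → V → V → Prop) : Prop :=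
  ∀ j, 2 ≤ j → j ≤ k + 1 → ∀ x y, Disj G B j L1 x y → B j x y

/-- good light injective copies of F over the base b with the side condition Γ -/
structure Fam [Fintype ι] (T : TE k ι) (G : SimpleGraph V) (E Rt : ι → V → V → Prop)
    (B : ℕ → V → V → Prop) (v0 : V) (F : Finset ι) (b : ι → V) (Γ : (ι → V) → Prop)
    (φ : ι ⊕ ι → V) : Prop where
  cp : Cpy T G v0 F b φ
  gd : GoodOn T E Rt F (fun x => φ (Sum.inl x)) (fun x => φ (Sum.inr x))
  ij : ∀ c ∈ UC T F, ∀ c' ∈ UC T F, φ c = φ c' → c = c'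
  lt : ∀ j c, 2 ≤ j → j ≤ k + 1 → PthC T F j c → ¬ B j (φ (c 0)) (φ (c j))
  gm : Γ (fun x => φ (Sum.inl x))

/-- number of free roots -/
noncomputable def frc (T : TE k ι) (F : Finset ι) : ℕ :=
  (F.filter (fun x => T.Qn x ∧ T.par x ∈ F)).card

/-- the counting hypothesis -/
def CntH (T : TE k ι) (C N D : ℕ) : Prop :=
  ∀ F : Finset ι, F.Nonempty → AdmF T F → C * N ^ frc T F ≤ D ^ (F.card + frc T F)

/-- L disjoint good copies of E0 with roots ρ, attached to y at u -/
def RichAt (T : TE k ι) (E Rt : ι → V → V → Prop) (E0 : Finset ι) (u : ι) (L : ℕ) (y : V)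
    (ρ : ι → V) : Prop :=
  ∃ α : Fin L → ι → V, (∀ l, GoodOn T E Rt E0 (α l) ρ) ∧ (∀ l, E u y (α l u)) ∧
    ∀ l l' x x', x ∈ E0 → x' ∈ E0 → α l x = α l' x' → l = l' ∧ x = x'

/-- w is popular: for every small Z some roots avoiding Z are rich at many y -/
def PopW [Fintype V] (T : TE k ι) (E Rt : ι → V → V → Prop) (E0 : Finset ι) (u : ι)
    (L ζ Q D : ℕ) (w : V) : Prop :=
  ∀ Z : Finset V, Z.card ≤ ζ → ∃ ρ : ι → V,
    (∀ q ∈ E0, ∀ q' ∈ E0, T.Qn q → T.Qn q' → ρ q = ρ q' → q = q') ∧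
    (∀ q ∈ E0, T.Qn q → ρ q ∉ Z) ∧
    D ≤ Q * (Finset.univ.filter (fun y => Rt (T.par u) w y ∧ RichAt T E Rt E0 u L y ρ)).card

/-- many disjoint copies of N with roots ρ, attached to ψ at the nodes of D' -/
def Att (T : TE k ι) (E Rt : ι → V → V → Prop) (N D' : Finset ι) (ρ : ι → V) (Lk : ℕ)
    (Γ : (ι → V) → Prop) (ψ : ι → V) : Prop :=
  ∃ ν : Fin Lk → ι → V, (∀ l, GoodOn T E Rt N (ν l) ρ) ∧
    (∀ l, ∀ q ∈ D', T.par q ∈ N → E q (ν l (T.par q)) (ψ q)) ∧
    (∀ l, Γ (glu N (ν l) ψ)) ∧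
    ∀ l l' x x', x ∈ N → x' ∈ N → ν l x = ν l' x' → l = l' ∧ x = x'

/-- restriction to D', the parents in N becoming the roots -/
noncomputable def resD (T : TE k ι) (N D' : Finset ι) (v0 : V) (φ : ι ⊕ ι → V) :
    ι ⊕ ι → V
  | Sum.inl x => if x ∈ D' then φ (Sum.inl x) else v0
  | Sum.inr q => if q ∈ D' ∧ T.Qn q then
      (if T.par q ∈ N then φ (Sum.inl (T.par q)) else φ (Sum.inr q)) else v0

/-- layered relations: step from position i to position i+1 in a connection or leg starting at a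
centre of kind b; R i relates layer i and layer i+1, centres of kind false lie in layer 0, of kind
true in layer k+1 -/
def Stp (k : ℕ) (R : ℕ → V → V → Prop) (b : Bool) (i : ℕ) (a c : V) : Prop :=
  if b then R (k - i) c a else R i a c

/-- relation between the parent and x -/
def ER (T : TE k ι) (R : ℕ → V → V → Prop) (x : ι) (a b : V) : Prop :=
  if T.Cn x then Stp k R (T.kb x) 0 b a else Stp k R (T.kb x) (T.ps x - 1) a b

/-- relation between the root of x and x -/
def RR (T : TE k ι) (R : ℕ → V → V → Prop) (x : ι) (a b : V) : Prop :=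
  if T.Cn x then Stp k R (T.kb x) 0 b a else Stp k R (T.kb x) k b a

/-- number of walks through the layers -/
noncomputable def WW [Fintype V] (k : ℕ) (R : ℕ → V → V → Prop) : ℕ :=
  (Finset.univ.filter (fun p : Fin (k + 2) → V =>
    ∀ i : Fin (k + 1), R i (p i.castSucc) (p i.succ))).card

/-- minimum degree m of the layered relation: every vertex which occurs in a layer has m
neighbours in the next and in the previous layer -/
def MinD [Fintype V] (k : ℕ) (R : ℕ → V → V → Prop) (m : ℕ) : Prop :=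
  ∀ i, i ≤ k → ∀ a b, R i a b →
    m ≤ (Finset.univ.filter (fun c => R i a c)).card ∧
    m ≤ (Finset.univ.filter (fun c => R i c b)).card ∧
    (i + 1 ≤ k → m ≤ (Finset.univ.filter (fun c => R (i + 1) b c)).card) ∧
    (1 ≤ i → m ≤ (Finset.univ.filter (fun c => R (i - 1) c a)).card)

/-- the layered relation lies in G and in the host relation He, directed from even to odd
layers -/
def Hst (G : SimpleGraph V) (He : V → V → Prop) (k : ℕ) (R : ℕ → V → V → Prop) : Prop :=
  ∀ i, i ≤ k → ∀ a b, R i a b → G.Adj a b ∧ (i % 2 = 0 → He a b) ∧ (i % 2 = 1 → He b a)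

/-- extension of a function on Fin (j+1) to ℕ -/
def ex (j : ℕ) (p : Fin (j + 1) → V) : ℕ → V :=
  fun i => p ⟨min i j, Nat.lt_succ_of_le (Nat.min_le_right i j)⟩

/-- admissible paths of length j between bad pairs -/
noncomputable def RCs [Fintype V] (G : SimpleGraph V) (B : ℕ → V → V → Prop) (j : ℕ) :
    Finset (Fin (j + 1) → V) :=
  Finset.univ.filter (fun p => PthV G B j (ex j p) ∧ B j (ex j p 0) (ex j p j))

/-- those whose edges of even index lie in He (directed along the path), those of odd index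
directed backwards -/
noncomputable def RCh [Fintype V] (G : SimpleGraph V) (B : ℕ → V → V → Prop)
    (He : V → V → Prop) (j : ℕ) : Finset (Fin (j + 1) → V) :=
  (RCs G B j).filter (fun p => ∀ i, i < j → (i % 2 = 0 → He (ex j p i) (ex j p (i + 1))) ∧
    (i % 2 = 1 → He (ex j p (i + 1)) (ex j p i)))

end Pool.Agent.TH476.KK
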