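import Pool.Agent.TH476.KStm

set_option autoImplicit false

open Classical

namespace Pool.Agent.TH476.KK

open Pool.Agent.TH476

namespace KEmb

variable {k : ℕ} {ι V St : Type}

/-- the invariant: n disjoint copies of the nodes of U with common roots, the centres carry
states with fuel m -/
def Inv (T : TE k ι) (G : SimpleGraph V) (Bd : St → V → V → Prop) (ok : ℕ → St → Prop)
    (U : Finset ι) (n m : ℕ) : Prop :=
  ∃ (ψ : Fin n → ι → V) (r : ι → V) (st : ι → St),
    (∀ l, ∀ x ∈ U, x ≠ T.top → T.Qn x → G.Adj (r x) (ψ l x)) ∧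
    (∀ l, ∀ x ∈ U, x ≠ T.top → T.par x ≠ T.top → G.Adj (ψ l (T.par x)) (ψ l x)) ∧
    (∀ l l' x x', x ∈ U → x ≠ T.top → x' ∈ U → x' ≠ T.top → ψ l x = ψ l' x' →
      l = l' ∧ x = x') ∧
    (∀ l x q, x ∈ U → x ≠ T.top → q ∈ U → T.Qn q → ψ l x ≠ r q) ∧
    (∀ q q', q ∈ U → q' ∈ U → T.Qn q → T.Qn q' → r q = r q' → q = q') ∧
    (∀ s ∈ U, T.Cn s → ∃ f, m ≤ f ∧ ok f (st s) ∧ ∀ l, Bd (st s) (r s) (ψ l s))

theorem Qn_top (T : TE k ι) {q : ι} (h : T.Qn q) : q ≠ T.top := by
  rintro rfl
  rcases h with h | h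
  · exact T.top_C h
  · exact T.top_L h

/-- the data of the invariant, with the copies exposed -/
theorem extend {T : TE k ι} {G : SimpleGraph V} {Bd : St → V → V → Prop} {ok : ℕ → St → Prop}
    {U : Finset ι} {n m : ℕ} {ψ : Fin n → ι → V} {r : ι → V} {st : ι → St}
    (hanc : AncC T U)
    (a1 : ∀ l, ∀ x ∈ U, x ≠ T.top → T.Qn x → G.Adj (r x) (ψ l x))
    (a2 : ∀ l, ∀ x ∈ U, x ≠ T.top → T.par x ≠ T.top → G.Adj (ψ l (T.par x)) (ψ l x))
    (i1 : ∀ l l' x x', x ∈ U → x ≠ T.top → x' ∈ U → x' ≠ T.top → ψ l x = ψ l' x' →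
      l = l' ∧ x = x')
    (i2 : ∀ l x q, x ∈ U → x ≠ T.top → q ∈ U → T.Qn q → ψ l x ≠ r q)
    (i3 : ∀ q q', q ∈ U → q' ∈ U → T.Qn q → T.Qn q' → r q = r q' → q = q')
    (s1 : ∀ s ∈ U, T.Cn s → ∃ f, m ≤ f ∧ ok f (st s) ∧ ∀ l, Bd (st s) (r s) (ψ l s))
    {K : ℕ} (sg : ℕ → ι) (hs0 : T.par (sg 0) ∈ U)
    (hsp : ∀ i, i + 1 < K → T.par (sg (i + 1)) = sg i)
    (hst : ∀ i, i < K → sg i ≠ T.top ∧ sg i ∉ U)
    (hsi : ∀ i i', i < K → i' < K → sg i = sg i' → i = i')
    (hsq : ∀ i, i < K → T.Qn (sg i) → i + 1 = K)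
    {n' m' : ℕ} (hm : m' ≤ m) (σ : Fin n' → Fin n) (hσ : ∀ l l', σ l = σ l' → l = l')
    (P : Fin n' → ℕ → V) (ρ : V) (a' : St)
    (hP0 : ∀ l, P l 0 = ψ (σ l) (T.par (sg 0)))
    (hPa : ∀ l i, i < K → G.Adj (P l i) (P l (i + 1)))
    (hPρ : ∀ l, G.Adj ρ (P l K))
    (hPU : ∀ l i, 1 ≤ i → i ≤ K → ∀ y ∈ U, y ≠ T.top → ∀ j, P l i ≠ ψ j y)
    (hPr : ∀ l i, 1 ≤ i → i ≤ K → ∀ q ∈ U, T.Qn q → P l i ≠ r q)
    (hPρ' : ∀ l i, 1 ≤ i → i ≤ K → P l i ≠ ρ)
    (hPi : ∀ l l' i i', 1 ≤ i → i ≤ K → 1 ≤ i' → i' ≤ K → P l i = P l' i' → l = l' ∧ i = i')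
    (hρU : ∀ y ∈ U, y ≠ T.top → ∀ j, ρ ≠ ψ j y)
    (hρr : ∀ q ∈ U, T.Qn q → ρ ≠ r q)
    (hC : ∀ i, i + 1 = K → T.Cn (sg i) → ∃ f, m' ≤ f ∧ ok f a' ∧ ∀ l, Bd a' ρ (P l K)) :
    Inv T G Bd ok (U ∪ (Finset.range K).image sg) n' m' := by
  -- the index of a new node
  obtain ⟨ix, hix⟩ : ∃ ix : ι → ℕ, ∀ i, i < K → ix (sg i) = i := by
    refine ⟨fun y => if h : ∃ i, i < K ∧ sg i = y then h.choose else 0, ?_⟩
    intro i hi
    have h : ∃ i', i' < K ∧ sg i' = sg i := ⟨i, hi, rfl⟩
    simp only [dif_pos h]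
    exact hsi _ _ h.choose_spec.1 hi h.choose_spec.2
  have hmem : ∀ y, y ∈ U ∪ (Finset.range K).image sg → y ∈ U ∨ ∃ i, i < K ∧ y = sg i := by
    intro y hy
    rw [Finset.mem_union, Finset.mem_image] at hy
    rcases hy with h | ⟨i, hi, h⟩
    · exact Or.inl h
    · exact Or.inr ⟨i, Finset.mem_range.1 hi, h.symm⟩
  set ψ' : Fin n' → ι → V := fun l y => if y ∈ U then ψ (σ l) y else P l (ix y + 1) with hψ'
  set r' : ι → V := fun y => if y ∈ U then r y else ρ with hr'
  set st' : ι → St := fun y => if y ∈ U then st y else a' with hst'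
  have eU : ∀ l y, y ∈ U → ψ' l y = ψ (σ l) y := fun l y hy => by
    simp only [hψ', if_pos hy]
  have eN : ∀ l i, i < K → ψ' l (sg i) = P l (i + 1) := fun l i hi => by
    simp only [hψ', if_neg (hst i hi).2, hix i hi]
  have rU : ∀ y, y ∈ U → r' y = r y := fun y hy => by simp only [hr', if_pos hy]
  have rN : ∀ i, i < K → r' (sg i) = ρ := fun i hi => by
    simp only [hr', if_neg (hst i hi).2]
  have tU : ∀ y, y ∈ U → st' y = st y := fun y hy => by simp only [hst', if_pos hy]
  have tN : ∀ i, i < K → st' (sg i) = a' := fun i hi => by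
    simp only [hst', if_neg (hst i hi).2]
  refine ⟨ψ', r', st', ?_, ?_, ?_, ?_, ?_, ?_⟩
  · intro l x hx hxt hq
    rcases hmem x hx with h | ⟨i, hi, rfl⟩
    · rw [rU x h, eU l x h]
      exact a1 _ x h hxt hq
    · rw [rN i hi, eN l i hi, hsq i hi hq]
      exact hPρ l
  · intro l x hx hxt hpt
    rcases hmem x hx with h | ⟨i, hi, rfl⟩
    · rw [eU l x h, eU l _ (hanc x h hxt)]
      exact a2 _ x h hxt hpt
    · rcases i with _ | i
      · rw [eU l _ hs0, eN l 0 hi, ← hP0]
        exact hPa l 0 hi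
      · rw [hsp i hi, eN l i (by omega), eN l (i + 1) hi]
        exact hPa l (i + 1) hi
  · intro l l' x x' hx hxt hx' hxt' he
    rcases hmem x hx with h | ⟨i, hi, rfl⟩ <;> rcases hmem x' hx' with h' | ⟨i', hi', rfl⟩
    · rw [eU l x h, eU l' x' h'] at he
      obtain ⟨h1, h2⟩ := i1 _ _ x x' h hxt h' hxt' he
      exact ⟨hσ _ _ h1, h2⟩
    · rw [eU l x h, eN l' i' hi'] at he
      exact absurd he.symm (hPU l' (i' + 1) (by omega) (by omega) x h hxt _)
    · rw [eN l i hi, eU l' x' h'] at he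
      exact absurd he (hPU l (i + 1) (by omega) (by omega) x' h' hxt' _)
    · rw [eN l i hi, eN l' i' hi'] at he
      obtain ⟨h1, h2⟩ := hPi l l' (i + 1) (i' + 1) (by omega) (by omega) (by omega) (by omega) he
      refine ⟨h1, ?_⟩
      rw [show i = i' by omega]
  · intro l x q hx hxt hq hqn
    rcases hmem x hx with h | ⟨i, hi, rfl⟩ <;> rcases hmem q hq with h' | ⟨i', hi', rfl⟩
    · rw [eU l x h, rU q h']
      exact i2 _ x q h hxt h' hqn
    · rw [eU l x h, rN i' hi']
      exact (hρU x h hxt _).symm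
    · rw [eN l i hi, rU q h']
      exact hPr l (i + 1) (by omega) (by omega) q h' hqn
    · rw [eN l i hi, rN i' hi']
      exact hPρ' l (i + 1) (by omega) (by omega)
  · intro q q' hq hq' hqn hqn' he
    rcases hmem q hq with h | ⟨i, hi, rfl⟩ <;> rcases hmem q' hq' with h' | ⟨i', hi', rfl⟩
    · rw [rU q h, rU q' h'] at he
      exact i3 q q' h h' hqn hqn' he
    · rw [rU q h, rN i' hi'] at he
      exact absurd he.symm (hρr q h hqn)
    · rw [rN i hi, rU q' h'] at he
      exact absurd he (hρr q' h' hqn')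
    · have h1 := hsq i hi hqn
      have h2 := hsq i' hi' hqn'
      rw [show i = i' by omega]
  · intro s hs hc
    rcases hmem s hs with h | ⟨i, hi, rfl⟩
    · obtain ⟨f, h1, h2, h3⟩ := s1 s h hc
      refine ⟨f, hm.trans h1, ?_, fun l => ?_⟩
      · rw [tU s h]
        exact h2
      · rw [tU s h, rU s h, eU l s h]
        exact h3 _
    · have hiK := hsq i hi (Or.inl hc)
      obtain ⟨f, h1, h2, h3⟩ := hC i hiK hc
      refine ⟨f, h1, ?_, fun l => ?_⟩
      · rw [tN i hi]
        exact h2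
      · rw [tN i hi, rN i hi, eN l i hi, hiK]
        exact h3 l

/-- a child of x, if there is one -/
noncomputable def nx (T : TE k ι) (x : ι) : ι :=
  if h : ∃ y, y ≠ T.top ∧ T.par y = x then h.choose else x

theorem nx_spec {T : TE k ι} {x : ι} (h : ∃ y, y ≠ T.top ∧ T.par y = x) :
    nx T x ≠ T.top ∧ T.par (nx T x) = x := by
  unfold nx
  rw [dif_pos h]
  exact h.choose_spec

/-- the nodes of a leg or connection -/
noncomputable def sgm (T : TE k ι) (x : ι) (i : ℕ) : ι := (nx T)^[i] x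

theorem sgm_zero (T : TE k ι) (x : ι) : sgm T x 0 = x := rfl

theorem sgm_succ (T : TE k ι) (x : ι) (i : ℕ) : sgm T x (i + 1) = nx T (sgm T x i) :=
  Function.iterate_succ_apply' _ _ _

theorem sgm_spec {T : TE k ι} {x : ι} (hxt : x ≠ T.top) (hxc : ¬ T.Cn x) (hp : T.ps x = 1) :
    ∀ i, i < k → sgm T x i ≠ T.top ∧ ¬ T.Cn (sgm T x i) ∧ T.ps (sgm T x i) = i + 1 ∧
      (T.lg (sgm T x i) ↔ T.lg x) ∧ (1 ≤ i → T.par (sgm T x i) = sgm T x (i - 1)) := by
  intro i
  induction i with
  | zero =>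
    intro _
    exact ⟨hxt, hxc, hp, Iff.rfl, fun h => by omega⟩
  | succ i ih =>
    intro hi
    obtain ⟨h1, h2, h3, h4, -⟩ := ih (by omega)
    have hL : ¬ T.Ln (sgm T x i) := by
      intro h
      have := ((T.L_iff _).1 h).2.2
      omega
    obtain ⟨g1, g2⟩ := nx_spec (T.chd _ h1 h2 hL)
    rw [← sgm_succ] at g1 g2
    have g3 : ¬ T.Cn (sgm T x (i + 1)) := by
      intro h
      have := (T.C_par _ h (by rw [g2]; exact h1)).2.2.1
      rw [g2] at this
      omega
    refine ⟨g1, g3, ?_, ?_, fun _ => by rw [g2]; rfl⟩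
    · rw [(T.N_ps _ g1 g3).1, g2, h3]
    · rw [T.N_lg _ g1 g3 (by rw [g2]; exact h2), g2, h4]

theorem sgm_last {T : TE k ι} {x : ι} (hk : 1 ≤ k) (hxt : x ≠ T.top) (hxc : ¬ T.Cn x)
    (hp : T.ps x = 1) (hl : ¬ T.lg x) :
    sgm T x k ≠ T.top ∧ T.Cn (sgm T x k) ∧ T.par (sgm T x k) = sgm T x (k - 1) := by
  obtain ⟨h1, h2, h3, h4, -⟩ := sgm_spec hxt hxc hp (k - 1) (by omega)
  have hL : ¬ T.Ln (sgm T x (k - 1)) := by
    intro h
    exact hl (h4.1 ((T.L_iff _).1 h).2.1)
  obtain ⟨g1, g2⟩ := nx_spec (T.chd _ h1 h2 hL)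
  have e : nx T (sgm T x (k - 1)) = sgm T x k := by
    rw [← sgm_succ]
    congr 1
    omega
  rw [e] at g1 g2
  refine ⟨g1, ?_, g2⟩
  by_contra g3
  have h5 := T.N_ps _ g1 g3
  rw [g2] at h5
  omega

/-- one step -/
theorem step (hk : 1 ≤ k) [Fintype ι] {T : TE k ι} {G : SimpleGraph V}
    {Bd : St → V → V → Prop} {ok : ℕ → St → Prop} {C ζ : ℕ} (hM : Mv G k C ζ St Bd ok)
    {U : Finset ι} (hanc : AncC T U) (hfree : FreeC T U) (ht : T.top ∈ U)
    (hs0 : ∀ y, y ≠ T.top → T.par y = T.top → y ∈ U) {n m n' : ℕ}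
    (hU : U ≠ Finset.univ) (hn : C * n' ≤ n) (hζ : (n + 1) * Fintype.card ι + n ≤ ζ)
    (h : Inv T G Bd ok U n (m + 1)) :
    ∃ U' : Finset ι, AncC T U' ∧ FreeC T U' ∧ U ⊂ U' ∧ Inv T G Bd ok U' n' m := by
  obtain ⟨ψ, r, st, a1, a2, i1, i2, i3, s1⟩ := h
  -- a minimal node outside U
  obtain ⟨x, hxU, hxmin⟩ : ∃ x, x ∉ U ∧ ∀ y, y ∉ U → T.dp x ≤ T.dp y := by
    have hne : (Finset.univ.filter (fun y => y ∉ U)).Nonempty := by
      by_contra hcon
      rw [Finset.not_nonempty_iff_eq_empty] at hcon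
      apply hU
      rw [Finset.eq_univ_iff_forall]
      intro y
      by_contra hy
      have : y ∈ Finset.univ.filter (fun y => y ∉ U) := by simp [hy]
      rw [hcon] at this
      exact absurd this (Finset.notMem_empty _)
    obtain ⟨x, hx, hmin⟩ := Finset.exists_min_image _ T.dp hne
    rw [Finset.mem_filter] at hx
    exact ⟨x, hx.2, fun y hy => hmin y (by simp [hy])⟩
  have hxt : x ≠ T.top := fun e => hxU (e ▸ ht)
  have hpU : T.par x ∈ U := by
    by_contra hcon
    have h1 := hxmin _ hcon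
    have h2 := T.dp_par x hxt
    omega
  have hpt : T.par x ≠ T.top := fun e => hxU (hs0 x hxt e)
  have hpc : T.Cn (T.par x) := by
    by_contra hcon
    exact hxU (hfree _ hpU hpt hcon x hxt rfl)
  have hxc : ¬ T.Cn x := fun hc => (T.C_par x hc hpt).1 hpc
  have hps : T.ps x = 1 := by
    have h1 := (T.N_ps x hxt hxc).1
    have h2 := T.C_ps _ hpc
    omega
  obtain ⟨f, hf1, hf2, hf3⟩ := s1 _ hpU hpc
  set s := T.par x with hs
  have hsg := sgm_spec hxt hxc hps
  -- the sets for the move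
  set S : Finset V := Finset.univ.image (fun j => ψ j s) with hS
  set Z : Finset V := ((Finset.univ ×ˢ (U.filter (fun y => y ≠ T.top ∧ y ≠ s))).image
    (fun p : Fin n × ι => ψ p.1 p.2)) ∪ (U.filter (fun q => T.Qn q)).image r with hZ
  have hScard : S.card = n := by
    rw [hS, Finset.card_image_of_injective, Finset.card_univ, Fintype.card_fin]
    intro j j' hj
    exact (i1 j j' s s hpU hpt hpU hpt hj).1
  have hZcard : Z.card ≤ (n + 1) * Fintype.card ι := by
    have h1 : ((Finset.univ ×ˢ (U.filter (fun y => y ≠ T.top ∧ y ≠ s))).image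
        (fun p : Fin n × ι => ψ p.1 p.2)).card ≤ n * Fintype.card ι := by
      refine Finset.card_image_le.trans ?_
      rw [Finset.card_product, Finset.card_univ, Fintype.card_fin]
      exact Nat.mul_le_mul_left _ (Finset.card_le_univ _)
    have h2 : ((U.filter (fun q => T.Qn q)).image r).card ≤ Fintype.card ι :=
      Finset.card_image_le.trans (Finset.card_le_univ _)
    calc Z.card ≤ _ := Finset.card_union_le _ _
      _ ≤ n * Fintype.card ι + Fintype.card ι := Nat.add_le_add h1 h2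
      _ = _ := by ring
  have hwZ : r s ∈ Z := by
    rw [hZ, Finset.mem_union]
    right
    exact Finset.mem_image_of_mem _ (Finset.mem_filter.2 ⟨hpU, Or.inl hpc⟩)
  have hSB : ∀ v ∈ S, Bd (st s) (r s) v := by
    intro v hv
    rw [hS, Finset.mem_image] at hv
    obtain ⟨j, -, rfl⟩ := hv
    exact hf3 j
  have hnot : ∀ v, v ∉ Z → v ∉ S → (∀ y ∈ U, y ≠ T.top → ∀ j, v ≠ ψ j y) ∧
      ∀ q ∈ U, T.Qn q → v ≠ r q := by
    intro v hvZ hvS
    constructor
    · rintro y hy hyt j rfl
      by_cases hys : y = s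
      · apply hvS
        rw [hS, Finset.mem_image]
        exact ⟨j, Finset.mem_univ _, by rw [hys]⟩
      · apply hvZ
        rw [hZ, Finset.mem_union]
        left
        rw [Finset.mem_image]
        exact ⟨(j, y), Finset.mem_product.2 ⟨Finset.mem_univ _,
          Finset.mem_filter.2 ⟨hy, hyt, hys⟩⟩, rfl⟩
    · rintro q hq hqn rfl
      apply hvZ
      rw [hZ, Finset.mem_union]
      right
      exact Finset.mem_image_of_mem _ (Finset.mem_filter.2 ⟨hq, hqn⟩)
  have hidx : ∀ v ∈ S, ∃ j, v = ψ j s := by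
    intro v hv
    rw [hS, Finset.mem_image] at hv
    obtain ⟨j, -, rfl⟩ := hv
    exact ⟨j, rfl⟩
  have hSζ : S.card ≤ ζ := by
    rw [hScard]
    omega
  have hZζ : Z.card ≤ ζ := by omega
  have hCn : C * n' ≤ S.card := by rw [hScard]; exact hn
  -- the nodes of the segment are outside U
  have hsgU : ∀ i, i < k → sgm T x i ∉ U := by
    intro i
    induction i with
    | zero => exact fun _ => hxU
    | succ i ih =>
      intro hi hmem
      have h1 := hsg (i + 1) hi
      have h2 := hanc _ hmem h1.1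
      rw [h1.2.2.2.2 (by omega)] at h2
      exact ih (by omega) h2
  have hsgi : ∀ i i', i < k → i' < k → sgm T x i = sgm T x i' → i = i' := by
    intro i i' hi hi' he
    have h1 := (hsg i hi).2.2.1
    have h2 := (hsg i' hi').2.2.1
    rw [he] at h1
    omega
  by_cases hlg : T.lg x
  · -- a leg
    obtain ⟨ρ, hρZ, hρS, P, hP, hPi⟩ := hM.leg f (st s) hf2 (r s) S Z n' hSB hwZ hCn hSζ hZζ
    choose σ hσ using fun l => hidx _ (hP l).1
    refine ⟨U ∪ (Finset.range k).image (sgm T x), ?_, ?_, ?_, ?_⟩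
    · intro y hy hyt
      rw [Finset.mem_union, Finset.mem_image] at hy ⊢
      rcases hy with h | ⟨i, hi, rfl⟩
      · exact Or.inl (hanc y h hyt)
      · rw [Finset.mem_range] at hi
        rcases i with _ | i
        · exact Or.inl hpU
        · right
          exact ⟨i, Finset.mem_range.2 (by omega), ((hsg (i + 1) hi).2.2.2.2 (by omega)).symm⟩
    · intro y hy hyt hyc z hzt hzp
      rw [Finset.mem_union, Finset.mem_image] at hy ⊢
      rcases hy with h | ⟨i, hi, rfl⟩
      · exact Or.inl (hfree y h hyt hyc z hzt hzp)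
      · rw [Finset.mem_range] at hi
        have h0 := hsg i hi
        have hlgi : T.lg (sgm T x i) := h0.2.2.2.1.2 hlg
        by_cases hik : i + 1 < k
        · right
          refine ⟨i + 1, Finset.mem_range.2 hik, ?_⟩
          have h1 := hsg (i + 1) hik
          exact T.one (sgm T x i) _ _ hyt hyc h1.1 hzt (h1.2.2.2.2 (by omega)) hzp
        · exfalso
          by_cases hzc : T.Cn z
          · have := (T.C_par z hzc (by rw [hzp]; exact hyt)).2.1
            rw [hzp] at this
            exact this hlgi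
          · have := T.N_ps z hzt hzc
            rw [hzp, h0.2.2.1] at this
            omega
    · rw [Finset.ssubset_iff_of_subset Finset.subset_union_left]
      refine ⟨x, ?_, hxU⟩
      rw [Finset.mem_union, Finset.mem_image]
      right
      exact ⟨0, Finset.mem_range.2 (by omega), rfl⟩
    · refine extend (m := m + 1) hanc a1 a2 i1 i2 i3 s1 (K := k) (sgm T x) hpU ?_ ?_ hsgi ?_
        (Nat.le_succ m) σ ?_ P ρ (st s) ?_ ?_ ?_ ?_ ?_ ?_ ?_ ?_ ?_ ?_
      · intro i hi
        exact (hsg (i + 1) hi).2.2.2.2 (by omega)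
      · exact fun i hi => ⟨(hsg i hi).1, hsgU i hi⟩
      · intro i hi hq
        rcases hq with h | h
        · exact absurd h (hsg i hi).2.1
        · have h1 := ((T.L_iff _).1 h).2.2
          rw [(hsg i hi).2.2.1] at h1
          exact h1
      · intro l l' he
        have h1 : P l 0 = P l' 0 := by rw [hσ l, hσ l', he]
        exact (hPi l l' 0 0 (by omega) (by omega) h1).1
      · exact hσ
      · exact fun l i hi => (hP l).2.2.1 i (by omega)
      · intro l
        have h1 := (hP l).2.2.1 k le_rfl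
        rw [(hP l).2.1] at h1
        exact h1.symm
      · intro l i hi1 hi2
        have h1 := (hP l).2.2.2 i hi1 hi2
        exact (hnot _ h1.1 h1.2.1).1
      · intro l i hi1 hi2
        have h1 := (hP l).2.2.2 i hi1 hi2
        exact (hnot _ h1.1 h1.2.1).2
      · intro l i hi1 hi2
        exact ((hP l).2.2.2 i hi1 hi2).2.2
      · intro l l' i i' _ hi _ hi' he
        exact hPi l l' i i' hi hi' he
      · exact (hnot ρ hρZ hρS).1
      · exact (hnot ρ hρZ hρS).2
      · intro i hi hc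
        exact absurd hc (hsg i (by omega)).2.1
  · -- a connection
    obtain ⟨g1, g2, g3⟩ := sgm_last hk hxt hxc hps hlg
    have hgU : sgm T x k ∉ U := by
      intro hmem
      have h2 := hanc _ hmem g1
      rw [g3] at h2
      exact hsgU (k - 1) (by omega) h2
    obtain ⟨f', rfl⟩ : ∃ f', f = f' + 1 := ⟨f - 1, by omega⟩
    obtain ⟨a', hok, ρ, hρZ, hρS, P, hP, hPi⟩ := hM.core f' (st s) hf2 (r s) S Z n' hSB hwZ
      hCn hSζ hZζ
    choose σ hσ using fun l => hidx _ (hP l).1
    have hpar : ∀ i, i + 1 < k + 1 → T.par (sgm T x (i + 1)) = sgm T x i := by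
      intro i hi
      by_cases hik : i + 1 < k
      · exact (hsg (i + 1) hik).2.2.2.2 (by omega)
      · have e : i + 1 = k := by omega
        rw [e, g3]
        congr 1
        omega
    refine ⟨U ∪ (Finset.range (k + 1)).image (sgm T x), ?_, ?_, ?_, ?_⟩
    · intro y hy hyt
      rw [Finset.mem_union, Finset.mem_image] at hy ⊢
      rcases hy with h | ⟨i, hi, rfl⟩
      · exact Or.inl (hanc y h hyt)
      · rw [Finset.mem_range] at hi
        rcases i with _ | i
        · exact Or.inl hpU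
        · right
          exact ⟨i, Finset.mem_range.2 (by omega), (hpar i hi).symm⟩
    · intro y hy hyt hyc z hzt hzp
      rw [Finset.mem_union, Finset.mem_image] at hy ⊢
      rcases hy with h | ⟨i, hi, rfl⟩
      · exact Or.inl (hfree y h hyt hyc z hzt hzp)
      · rw [Finset.mem_range] at hi
        have hik : i < k := by
          rcases lt_or_eq_of_le (Nat.lt_succ_iff.1 hi) with h | h
          · exact h
          · rw [h] at hyc
            exact absurd g2 hyc
        right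
        refine ⟨i + 1, Finset.mem_range.2 (by omega), ?_⟩
        have h1 : sgm T x (i + 1) ≠ T.top := by
          by_cases hik' : i + 1 < k
          · exact (hsg (i + 1) hik').1
          · have e : i + 1 = k := by omega
            rw [e]
            exact g1
        exact T.one (sgm T x i) _ _ hyt hyc h1 hzt (hpar i (by omega)) hzp
    · rw [Finset.ssubset_iff_of_subset Finset.subset_union_left]
      refine ⟨x, ?_, hxU⟩
      rw [Finset.mem_union, Finset.mem_image]
      right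
      exact ⟨0, Finset.mem_range.2 (by omega), rfl⟩
    · refine extend (m := m + 1) hanc a1 a2 i1 i2 i3 s1 (K := k + 1) (sgm T x) hpU
        hpar ?_ ?_ ?_ (Nat.le_succ m) σ ?_ P ρ a' ?_ ?_ ?_ ?_ ?_ ?_ ?_ ?_ ?_ ?_
      · intro i hi
        rcases lt_or_eq_of_le (Nat.lt_succ_iff.1 hi) with h | h
        · exact ⟨(hsg i h).1, hsgU i h⟩
        · rw [h]
          exact ⟨g1, hgU⟩
      · intro i i' hi hi' he
        rcases lt_or_eq_of_le (Nat.lt_succ_iff.1 hi) with h | h <;>
          rcases lt_or_eq_of_le (Nat.lt_succ_iff.1 hi') with h' | h'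
        · exact hsgi i i' h h' he
        · rw [h'] at he
          rw [← he] at g2
          exact absurd g2 (hsg i h).2.1
        · rw [h] at he
          rw [he] at g2
          exact absurd g2 (hsg i' h').2.1
        · omega
      · intro i hi hq
        rcases lt_or_eq_of_le (Nat.lt_succ_iff.1 hi) with h | h
        · exfalso
          rcases hq with h' | h'
          · exact (hsg i h).2.1 h'
          · exact hlg ((hsg i h).2.2.2.1.1 ((T.L_iff _).1 h').2.1)
        · omega
      · intro l l' he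
        have h1 : P l 0 = P l' 0 := by rw [hσ l, hσ l', he]
        exact (hPi l l' 0 0 (by omega) (by omega) h1).1
      · exact hσ
      · exact fun l i hi => (hP l).2.2.1 i (by omega)
      · exact fun l => hM.adj _ _ _ (hP l).2.1
      · intro l i hi1 hi2
        have h1 := (hP l).2.2.2 i hi1 hi2
        exact (hnot _ h1.1 h1.2.1).1
      · intro l i hi1 hi2
        have h1 := (hP l).2.2.2 i hi1 hi2
        exact (hnot _ h1.1 h1.2.1).2
      · intro l i hi1 hi2
        exact ((hP l).2.2.2 i hi1 hi2).2.2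
      · intro l l' i i' _ hi _ hi' he
        exact hPi l l' i i' hi hi' he
      · exact (hnot ρ hρZ hρS).1
      · exact (hnot ρ hρZ hρS).2
      · intro i hi hc
        exact ⟨f', by omega, hok, fun l => (hP l).2.1⟩

/-- all the steps -/
theorem all (hk : 1 ≤ k) [Fintype ι] {T : TE k ι} {G : SimpleGraph V}
    {Bd : St → V → V → Prop} {ok : ℕ → St → Prop} {C ζ n0 t : ℕ} (hC : 0 < C)
    (hM : Mv G k C ζ St Bd ok) (hζ : (n0 + 1) * Fintype.card ι + n0 ≤ ζ) :
    ∀ (m : ℕ) (U : Finset ι), AncC T U → FreeC T U → T.top ∈ U →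
    (∀ y, y ≠ T.top → T.par y = T.top → y ∈ U) →
    Fintype.card ι - U.card ≤ m → C ^ m * t ≤ n0 → Inv T G Bd ok U (C ^ m * t) m →
    ∃ m', Inv T G Bd ok Finset.univ (C ^ m' * t) m' := by
  intro m
  induction m with
  | zero =>
    intro U _ _ _ _ hc _ hI
    have h1 : U = Finset.univ := by
      rw [← Finset.card_eq_iff_eq_univ]
      have := Finset.card_le_univ U
      omega
    rw [h1] at hI
    exact ⟨0, hI⟩
  | succ m ih =>
    intro U hanc hfree ht hs0 hc hn hI
    by_cases hU : U = Finset.univ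
    · rw [hU] at hI
      exact ⟨m + 1, hI⟩
    · have hζ' : (C ^ (m + 1) * t + 1) * Fintype.card ι + C ^ (m + 1) * t ≤ ζ := by
        refine le_trans ?_ hζ
        exact Nat.add_le_add (Nat.mul_le_mul_right _ (by omega)) hn
      obtain ⟨U', h1, h2, h3, h4⟩ := step (n' := C ^ m * t) hk hM hanc hfree ht hs0 hU
        (by rw [pow_succ]; exact le_of_eq (by ring)) hζ' hI
      have hcard := Finset.card_lt_card h3
      refine ih U' h1 h2 (h3.1 ht) (fun y hy hy' => h3.1 (hs0 y hy hy')) (by omega) ?_ h4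
      refine le_trans ?_ hn
      rw [pow_succ]
      calc C ^ m * t = C ^ m * 1 * t := by ring
        _ ≤ C ^ m * C * t := by gcongr; exact hC

end KEmb

theorem emb_holds : S_EMB := by
  intro k hk ι _ T t C ht hC hcen
  obtain ⟨n0, hn0⟩ : ∃ n0, n0 = C ^ Fintype.card ι * t := ⟨_, rfl⟩
  refine ⟨(n0 + 1) * Fintype.card ι + n0, ?_⟩
  intro V G St Bd ok hM hIni
  -- the child of the top
  obtain ⟨s0, hs0t, hs0p⟩ : ∃ s0, s0 ≠ T.top ∧ T.par s0 = T.top := by
    obtain ⟨c, hc⟩ := hcen
    have hct : c ≠ T.top := fun e => T.top_C (e ▸ hc)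
    have hne : (Finset.univ.filter (fun y => y ≠ T.top)).Nonempty := ⟨c, by simp [hct]⟩
    obtain ⟨x, hx, hmin⟩ := Finset.exists_min_image _ T.dp hne
    rw [Finset.mem_filter] at hx
    refine ⟨x, hx.2, ?_⟩
    by_contra hcon
    have h1 := hmin (T.par x) (by simp [hcon])
    have h2 := T.dp_par x hx.2
    omega
  have hs0c : T.Cn s0 := T.topc s0 hs0t hs0p
  have hu : ∀ y, y ≠ T.top → T.par y = T.top → y = s0 :=
    fun y hy hyp => T.top1 y s0 hy hs0t hyp hs0p
  obtain ⟨a, w, S, hok, hSc, hwS, hSB⟩ := hIni n0 (by omega)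
  have hcard : 0 < Fintype.card ι := Fintype.card_pos_iff.2 ⟨s0⟩
  -- the initial state
  have hI : KEmb.Inv T G Bd ok {T.top, s0} (C ^ Fintype.card ι * t) (Fintype.card ι) := by
    rw [← hn0]
    have e := S.equivFin.symm
    have hmem : ∀ x, x ∈ ({T.top, s0} : Finset ι) → x ≠ T.top → x = s0 := by
      intro x hx hxt
      rw [Finset.mem_insert, Finset.mem_singleton] at hx
      rcases hx with h | h
      · exact absurd h hxt
      · exact h
    refine ⟨fun l _ => (e (Fin.cast hSc.symm l)).1, fun _ => w, fun _ => a, ?_, ?_, ?_, ?_, ?_, ?_⟩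
    · intro l x _ _ _
      exact hM.adj a _ _ (hSB _ (e _).2)
    · intro l x hx hxt hp
      rw [hmem x hx hxt] at hp
      exact absurd hs0p hp
    · intro l l' x x' hx hxt hx' hxt' he
      refine ⟨?_, by rw [hmem x hx hxt, hmem x' hx' hxt']⟩
      have h1 := e.injective (Subtype.ext he)
      exact Fin.cast_injective _ h1
    · intro l x q _ _ _ _ he
      have he' : (e (Fin.cast hSc.symm l)).1 = w := he
      have h2 := (e (Fin.cast hSc.symm l)).2
      rw [he'] at h2
      exact hwS h2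
    · intro q q' hq hq' hqn hqn' _
      rw [hmem q hq (KEmb.Qn_top T hqn), hmem q' hq' (KEmb.Qn_top T hqn')]
    · intro s _ _
      exact ⟨_, le_rfl, hok, fun l => hSB _ (e _).2⟩
  obtain ⟨m', ψ, r, st, a1, a2, i1, i2, i3, s1⟩ := KEmb.all (t := t) (n0 := n0) hk hC hM le_rfl
    (Fintype.card ι) {T.top, s0} (by
      intro y hy hyt
      rw [Finset.mem_insert, Finset.mem_singleton] at hy
      rcases hy with h | h
      · exact absurd h hyt
      · rw [h, hs0p]
        exact Finset.mem_insert_self _ _) (by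
      intro y hy hyt hyc
      rw [Finset.mem_insert, Finset.mem_singleton] at hy
      rcases hy with h | h
      · exact absurd h hyt
      · rw [h] at hyc
        exact absurd hs0c hyc) (Finset.mem_insert_self _ _) (by
      intro y hy hyp
      rw [hu y hy hyp]
      exact Finset.mem_insert_of_mem (Finset.mem_singleton_self _)) (Nat.sub_le _ _)
    (le_of_eq hn0.symm) hI
  have hle : t ≤ C ^ m' * t := Nat.le_mul_of_pos_left t (pow_pos hC _)
  have hF : ∀ x, x ∈ Finset.univ.erase T.top ↔ x ≠ T.top := by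
    intro x
    simp
  refine ⟨r s0, fun l => ψ (Fin.castLE hle l), r, ?_, ?_, fun _ => trivial, ?_, ?_, ?_, ?_, ?_⟩
  · intro q hq hpq
    have h1 : T.par q = T.top := by
      by_contra hcon
      exact hpq ((hF _).2 hcon)
    rw [hu q ((hF q).1 hq) h1]
  · intro l
    refine ⟨fun x hx hq => a1 _ x (Finset.mem_univ _) ((hF x).1 hx) hq, fun x hx hp => ?_⟩
    exact a2 _ x (Finset.mem_univ _) ((hF x).1 hx) ((hF _).1 hp)
  · intro l l' x x' hx hx' he
    obtain ⟨h1, h2⟩ := i1 _ _ x x' (Finset.mem_univ _) ((hF x).1 hx) (Finset.mem_univ _)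
      ((hF x').1 hx') he
    exact ⟨Fin.castLE_injective hle h1, h2⟩
  · intro l x q hx hq hqn
    exact i2 _ x q (Finset.mem_univ _) ((hF x).1 hx) (Finset.mem_univ _) hqn
  · intro q q' _ _ hqn hqn' he
    exact i3 q q' (Finset.mem_univ _) (Finset.mem_univ _) hqn hqn' he
  · intro l x _
    exact Finset.notMem_empty _
  · intro q _ _ _
    exact Finset.notMem_empty _

end Pool.Agent.TH476.KK
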