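import Pool.Agent.TH476.KStm

set_option autoImplicit false

open Classical

namespace Pool.Agent.TH476.KK

open Pool.Agent.TH476

/-- a pruned family of rich paths of length l: closed under reversal, every class of paths which
agree with a member on an interval of positions is large, every pair of ends has many paths -/
structure RSt {V : Type} [Fintype V] (G : SimpleGraph V) (B : ℕ → V → V → Prop) (l q D M' : ℕ)
    (𝓡 : Finset (Fin (l + 1) → V)) : Prop where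
  ne : 𝓡.Nonempty
  sub : ∀ p ∈ 𝓡, p ∈ RCs G B l
  rev : ∀ p ∈ 𝓡, (fun i => p i.rev) ∈ 𝓡
  cls : ∀ p ∈ 𝓡, ∀ i j, i ≤ j → j ≤ l → D ^ (l - (j - i)) ≤
    q * (𝓡.filter (fun p' => ∀ m, i ≤ m → m ≤ j → ex l p' m = ex l p m)).card
  pr : ∀ p ∈ 𝓡, M' ≤ (𝓡.filter (fun p' => ex l p' 0 = ex l p 0 ∧ ex l p' l = ex l p l)).card

/-- existence of the pruned family -/
def S_RST : Prop := ∀ l K Q : ℕ, 2 ≤ l → 0 < K → 0 < Q → ∃ q : ℕ, 0 < q ∧ ∀ M' : ℕ, ∃ M : ℕ,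
    ∀ (V : Type) [Fintype V] [Nonempty V] (G : SimpleGraph V) (D : ℕ)
    (B : ℕ → V → V → Prop), AR G D K → 0 < D → BSy B → RichSp G B l M →
    Fintype.card V * D ^ l ≤ Q * (RCs G B l).card → ∃ 𝓡, RSt G B l q D M' 𝓡

/-- paths of length l + 2 t between the ends of members of the pruned family -/
def S_EXT : Prop := ∀ l q F0 ζ t : ℕ, 2 ≤ l → 0 < q → ∃ M' D0 : ℕ,
    ∀ (V : Type) [Fintype V] [Nonempty V] (G : SimpleGraph V) (D : ℕ)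
    (B : ℕ → V → V → Prop) (𝓡 : Finset (Fin (l + 1) → V)), BSy B → BNd G B l F0 → D0 ≤ D →
    RSt G B l q D M' 𝓡 → ∀ p ∈ 𝓡, ∀ Z : Finset V, Z.card ≤ ζ →
    ∃ P : ℕ → V, P 0 = ex l p 0 ∧ P (l + 2 * t) = ex l p l ∧
      (∀ i, i < l + 2 * t → G.Adj (P i) (P (i + 1))) ∧
      (∀ i, 1 ≤ i → i < l + 2 * t → P i ∉ Z) ∧
      ∀ i i', i ≤ l + 2 * t → i' ≤ l + 2 * t → P i = P i' → i = i'

/-- switching the root for l = 2: s and s' are ends of a member of the family with middle h,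
and s' can be a centre with root v -/
def S_SW : Prop := ∀ K q : ℕ, 0 < K → 0 < q → ∃ C : ℕ, 0 < C ∧ ∀ ζ m0 : ℕ, ∃ M' D0 : ℕ,
    ∀ (V : Type) [Fintype V] [Nonempty V] (G : SimpleGraph V) (D : ℕ)
    (B : ℕ → V → V → Prop) (𝓡 : Finset (Fin (2 + 1) → V)), AR G D K → D0 ≤ D →
    RSt G B 2 q D M' 𝓡 → ∀ (h : V) (S Z : Finset V),
    (∀ s ∈ S, ∃ p ∈ 𝓡, ex 2 p 0 = s ∧ ex 2 p 1 = h) → S.card ≤ ζ → Z.card ≤ ζ → S.Nonempty →
    ∃ v, v ∉ Z ∧ v ∉ S ∧ v ≠ h ∧ ∃ S' ⊆ S, S.card ≤ C * S'.card ∧ ∀ s ∈ S',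
      m0 ≤ (Finset.univ.filter (fun s' => (∃ p ∈ 𝓡, ex 2 p 0 = s ∧ ex 2 p 1 = h ∧
        ex 2 p 2 = s') ∧ ∃ p ∈ 𝓡, ex 2 p 0 = s' ∧ ex 2 p 1 = v)).card

end Pool.Agent.TH476.KK
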