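import Pool.Agent.TH476.KClaim
import Pool.Agent.TH476.KHub
import Pool.Agent.TH476.GKp

set_option autoImplicit false

open Classical Asymptotics Filter

namespace Pool.Agent.TH476.KK

open Pool.Agent.TH476 Pool.Agent.W979.TE Pool.Agent.W979.TE4 Pool.Agent.W979.TE5

/-- all cases of the moves -/
theorem mv_all (hrst : S_RST) (hext : S_EXT) (hsw : S_SW)
    (mvE : S_RST → S_EXT → ∀ k l, 3 ≤ l → l ≤ k + 1 → (k + 1 - l) % 2 = 0 → S_MV k l)
    (mvO : S_RST → S_EXT → ∀ k l, 4 ≤ l → l ≤ k → (k + 1 - l) % 2 = 1 → S_MV k l)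
    (mv35 : S_RST → S_EXT → ∀ k, 5 ≤ k → k % 2 = 1 → S_MV k 3)
    (mv2o : S_RST → S_EXT → S_SW → ∀ k, 1 ≤ k → k % 2 = 1 → S_MV k 2)
    (mv2e : S_RST → S_EXT → S_SW → ∀ k, 2 ≤ k → k % 2 = 0 → S_MV k 2) :
    ∀ k l, 1 ≤ k → 2 ≤ l → l ≤ k + 1 → ¬ (k = 3 ∧ l = 3) → S_MV k l := by
  intro k l hk hl hlk hne
  by_cases h2 : l = 2
  · subst h2
    by_cases hodd : k % 2 = 1
    · exact mv2o hrst hext hsw k hk hodd
    · exact mv2e hrst hext hsw k (by omega) (by omega)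
  · by_cases hpar : (k + 1 - l) % 2 = 0
    · exact mvE hrst hext k l (by omega) hlk hpar
    · by_cases h3 : l = 3
      · subst h3
        exact mv35 hrst hext k (by omega) (by omega)
      · exact mvO hrst hext k l (by omega) (by omega) (by omega)

/-- good pairs from caterpillars -/
theorem goodK (hmain : S_MAIN) (hcat : S_CAT) (hgtd : S_GTD) (k p c : ℕ) (hk : 1 ≤ k)
    (hc : 1 ≤ c) (hcp : c ≤ p) : Good (k * p + c) (k * p + c + p) := by
  obtain ⟨ι, _, T, h1, h2, h3, h4⟩ := hcat k p c hk hc hcp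
  have hkp : 1 * 1 ≤ k * p := Nat.mul_le_mul hk (by omega)
  exact hgtd hmain k hk ι T (k * p + c) p (by omega) (by omega) h1 h2 h3 h4

/-- all exponents 2 - a / b -/
theorem exponents_all (hmain : S_MAIN) (hcat : S_CAT) (hgtd : S_GTD)
    (hkst : ∀ m : ℕ, 2 ≤ m → ∃ k : ℕ, ∃ H : SimpleGraph (Fin k), H.Colorable 2 ∧
      (fun n : ℕ => (SimpleGraph.extremalNumber n H : ℝ)) =Θ[atTop]
        (fun n : ℕ => (n : ℝ) ^ (2 - 1 / (m : ℝ)))) (a b : ℕ) (ha : 0 < a) (hab : a < b) :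
    ∃ k : ℕ, ∃ H : SimpleGraph (Fin k), H.Colorable 2 ∧
      (fun n : ℕ => (SimpleGraph.extremalNumber n H : ℝ)) =Θ[atTop]
        (fun n : ℕ => (n : ℝ) ^ (2 - (a : ℝ) / (b : ℝ))) := by
  by_cases hdvd : a ∣ b
  · obtain ⟨m, rfl⟩ := hdvd
    have hm : 2 ≤ m := by
      by_contra hlt
      have h1 : a * m ≤ a * 1 := Nat.mul_le_mul_left _ (by omega)
      omega
    have h2 := hkst m hm
    have h3 : (a : ℝ) / ((a * m : ℕ) : ℝ) = 1 / (m : ℝ) := by
      have ha' : (a : ℝ) ≠ 0 := by exact_mod_cast ha.ne'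
      push_cast
      rw [div_mul_eq_div_div, div_self ha']
    rw [h3]
    exact h2
  · obtain ⟨r, hr⟩ : ∃ r, r = b % a := ⟨_, rfl⟩
    have hr1 : 0 < r := by
      rw [hr]
      exact Nat.pos_of_ne_zero fun h => hdvd (Nat.dvd_of_mod_eq_zero h)
    have hr2 : r < a := by
      rw [hr]
      exact Nat.mod_lt _ ha
    obtain ⟨j, hj⟩ : ∃ j, b = a * j + r := ⟨b / a, by rw [hr]; exact (Nat.div_add_mod b a).symm⟩
    have hj1 : 1 ≤ j := by
      by_contra h0
      have : j = 0 := by omega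
      rw [this, mul_zero] at hj
      omega
    obtain ⟨i, rfl⟩ : ∃ i, j = i + 1 := ⟨j - 1, by omega⟩
    obtain ⟨k, hk⟩ : ∃ k, k = (a - 1) / r := ⟨_, rfl⟩
    obtain ⟨c0, hc0⟩ : ∃ c0, c0 = (a - 1) % r := ⟨_, rfl⟩
    have h4 : r * k + c0 = a - 1 := by
      rw [hk, hc0]
      exact Nat.div_add_mod _ _
    have h5 : c0 < r := by
      rw [hc0]
      exact Nat.mod_lt _ hr1
    have hk1 : 1 ≤ k := by
      rw [hk]
      exact (Nat.one_le_div_iff hr1).mpr (by omega)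
    have h6 := goodK hmain hcat hgtd k r (c0 + 1) hk1 (by omega) (by omega)
    have h7 : k * r + (c0 + 1) = a := by
      have : r * k = k * r := Nat.mul_comm _ _
      omega
    rw [h7] at h6
    have h8 := theta_of_good (m := a) (e := a + r + i * a) ha (by omega)
      (good_iter ha (by omega) h6 i)
    have h9 : a + r + i * a = b := by
      rw [hj]
      ring
    rw [h9] at h8
    exact h8

/-- the rational exponents -/
theorem rat_all (hmain : S_MAIN) (hcat : S_CAT) (hgtd : S_GTD)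
    (hkst : ∀ m : ℕ, 2 ≤ m → ∃ k : ℕ, ∃ H : SimpleGraph (Fin k), H.Colorable 2 ∧
      (fun n : ℕ => (SimpleGraph.extremalNumber n H : ℝ)) =Θ[atTop]
        (fun n : ℕ => (n : ℝ) ^ (2 - 1 / (m : ℝ)))) :
    ∀ p q : ℕ, 0 < p → p < q →
      ∃ k : ℕ, ∃ H : SimpleGraph (Fin k), H.Colorable 2 ∧
        (fun n : ℕ => (SimpleGraph.extremalNumber n H : ℝ)) =Θ[atTop]
          (fun n : ℕ => (n : ℝ) ^ (1 + (p : ℝ) / (q : ℝ))) := by
  intro p q hp hpq
  obtain ⟨a, rfl⟩ : ∃ a, q = p + a := ⟨q - p, by omega⟩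
  have h := exponents_all hmain hcat hgtd hkst a (p + a) (by omega) (by omega)
  have hq : ((p + a : ℕ) : ℝ) ≠ 0 := by
    have : 0 < p + a := by omega
    exact_mod_cast this.ne'
  have e : (2 : ℝ) - (a : ℝ) / ((p + a : ℕ) : ℝ) = 1 + (p : ℝ) / ((p + a : ℕ) : ℝ) := by
    field_simp
    push_cast
    ring
  rw [e] at h
  exact h

end Pool.Agent.TH476.KK
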