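import Pool.Agent.TH476.KStm2
import Pool.Agent.TH476.Up

set_option autoImplicit false

open Classical

namespace Pool.Agent.TH476.KK

open Pool.Agent.TH476 Pool.Agent.W979.TE Pool.Agent.W979.TE4 Pool.Agent.W979.TE5

namespace KFin

/-- blowups in the bipartite subgraph are blowups in the graph -/
lemma BUat_BG {k : ℕ} {ι : Type} (T : TE k ι) (F : Finset ι) (L : ℕ) {n : ℕ}
    (G : SimpleGraph (Fin n)) (U W : Finset (Fin n)) (w : {v : Fin n // v ∈ U ∪ W})
    (h : BUat T (fun _ => (BG G U W).Adj) (fun _ => (BG G U W).Adj) F (fun _ => w) L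
      (fun _ => True) ∅) :
    BUat T (fun _ => G.Adj) (fun _ => G.Adj) F (fun _ => w.1) L (fun _ => True) ∅ := by
  obtain ⟨ψ, r, h1, h2, h3, h4, h5, h6, h7, h8⟩ := h
  refine ⟨fun l x => (ψ l x).1, fun q => (r q).1, ?_, ?_, fun _ => trivial, ?_, ?_, ?_, ?_, ?_⟩
  · intro q hq hq'
    exact congrArg Subtype.val (h1 q hq hq')
  · intro l
    obtain ⟨a1, a2⟩ := h2 l
    exact ⟨fun x hx hq => (a1 x hx hq).1, fun x hx hp => (a2 x hx hp).1⟩
  · intro l l' x x' hx hx' he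
    exact h4 l l' x x' hx hx' (Subtype.ext he)
  · intro l x q hx hq hQ he
    exact h5 l x q hx hq hQ (Subtype.ext he)
  · intro q q' hq hq' hQ hQ' he
    exact h6 q q' hq hq' hQ hQ' (Subtype.ext he)
  · intro l x _
    exact Finset.notMem_empty _
  · intro q _ _ _
    exact Finset.notMem_empty _

/-- all the adjacent pairs of an almost regular graph -/
lemma gc_ge {V : Type} [Fintype V] (G : SimpleGraph V) (D K : ℕ) (hG : AR G D K) :
    Fintype.card V * D ≤ gc G.Adj := by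
  have h1 : gc G.Adj = ∑ v : V, (nb G v).card := by
    unfold gc
    rw [Finset.card_filter, ← Finset.univ_product_univ, Finset.sum_product]
    refine Finset.sum_congr rfl fun v _ => ?_
    unfold nb
    rw [Finset.card_filter]
  rw [h1]
  calc Fintype.card V * D = ∑ _v : V, D := by
        rw [Finset.sum_const, Finset.card_univ, smul_eq_mul]
    _ ≤ _ := Finset.sum_le_sum fun v _ => hG.lo v

/-- the conclusion -/
def Cc {k : ℕ} {ι : Type} [Fintype ι] (T : TE k ι) (t : ℕ) {V : Type} (G : SimpleGraph V) :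
    Prop :=
  ∃ w, BUat T (fun _ => G.Adj) (fun _ => G.Adj) (Finset.univ.erase T.top) (fun _ => w) t
    (fun _ => True) ∅

lemma Mv.mono {V : Type} {G : SimpleGraph V} {k C ζ ζ' : ℕ} {St : Type}
    {Bd : St → V → V → Prop} {ok : ℕ → St → Prop} (h : Mv G k C ζ St Bd ok) (hz : ζ' ≤ ζ) :
    Mv G k C ζ' St Bd ok where
  adj := h.adj
  leg := fun n a ha w S Z n' h1 h2 h3 h4 h5 =>
    h.leg n a ha w S Z n' h1 h2 h3 (h4.trans hz) (h5.trans hz)
  core := fun n a ha w S Z n' h1 h2 h3 h4 h5 =>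
    h.core n a ha w S Z n' h1 h2 h3 (h4.trans hz) (h5.trans hz)

lemma Ini.mono {V : Type} {ζ ζ' : ℕ} {St : Type}
    {Bd : St → V → V → Prop} {ok : ℕ → St → Prop} {n : ℕ} (h : Ini ζ St Bd ok n)
    (hz : ζ' ≤ ζ) : Ini ζ' St Bd ok n :=
  fun n0 hn0 => h n0 (hn0.trans hz)

lemma Disj.mono {V : Type} {G : SimpleGraph V} {B : ℕ → V → V → Prop} {j M M' : ℕ} {x y : V}
    (h : Disj G B j M x y) (hM : M' ≤ M) : Disj G B j M' x y := by
  obtain ⟨P, h1, h2⟩ := h
  refine ⟨fun l => P (Fin.castLE hM l), fun l => h1 _, fun l l' i i' hl h3 h4 h5 h6 => ?_⟩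
  refine h2 _ _ i i' (fun he => hl ?_) h3 h4 h5 h6
  exact Fin.castLE_injective hM he

/-- what one length gives -/
def PP {k : ℕ} {ι : Type} [Fintype ι] (T : TE k ι) (t K Qh Q' l : ℕ) (L : ℕ → ℕ) (D0 : ℕ) :
    Prop :=
  ∀ L' : ℕ → ℕ, (∀ j, j ≤ l → L' j = L j) → ∀ (V : Type) [Fintype V] [Nonempty V]
    (G : SimpleGraph V) (D : ℕ) (B : ℕ → V → V → Prop), AR G D K → D0 ≤ D →
    IsB G k L' B → BSy B →
    Cc T t G ∨ (RCs G B l).card * Q' ≤ Fintype.card V * D ^ l ∨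
    (l = 3 ∧ ∃ He : V → V → Prop, (∀ a b, He a b → G.Adj a b) ∧
      Fintype.card V * D ≤ Qh * gc He ∧
      (RCh G B He 3).card * Q' ≤ Fintype.card V * D ^ 3)

/-- one length, not (3,3) -/
lemma step_gen (hemb : S_EMB) (hbnd : S_BND) {k : ℕ} (hk : 1 ≤ k) {ι : Type} [Fintype ι]
    (T : TE k ι) (t K Qh Q' : ℕ) (ht : 0 < t) (hK : 0 < K) (hQ' : 0 < Q')
    (hC : ∃ x, T.Cn x) (l : ℕ) (_hl2 : 2 ≤ l) (hlk : l ≤ k + 1) (hmv : S_MV k l)
    (L : ℕ → ℕ) :
    ∃ M D0, ∀ L2 : ℕ → ℕ, (∀ j, j < l → L2 j = L j) → L2 l = M → PP T t K Qh Q' l L2 D0 := by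
  obtain ⟨F0, hF0⟩ := hbnd k l L hlk
  obtain ⟨C, hC0, hmv1⟩ := hmv K Q' hK hQ'
  obtain ⟨ζ0, hemb1⟩ := hemb k hk ι T t C ht hC0 hC
  obtain ⟨M, D0, hmv2⟩ := hmv1 F0 (max ζ0 (Fintype.card ι))
  refine ⟨M, D0, fun L2 hL2 hL2l L' hL' V _ _ G D B hAR hD hB hBs => ?_⟩
  by_cases hR : Fintype.card V * D ^ l ≤ Q' * (RCs G B l).card
  · left
    have hrs : RichSp G B l M := by
      intro x y hxy
      have h := ((hB l x y).1 hxy).2.2
      rw [hL' l le_rfl, hL2l] at h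
      exact h
    have hbn : BNd G B l F0 := hF0 L' (fun j hj => by rw [hL' j hj.le, hL2 j hj]) V G B hB
    obtain ⟨St, Bd, ok, hM, hI⟩ := hmv2 V G D B hAR hD hBs hrs hbn hR
    exact hemb1 V G St Bd ok (Mv.mono hM (le_max_left _ _))
      (Ini.mono (hI (Fintype.card ι) (le_max_right _ _)) (le_max_left _ _))
  · push Not at hR
    right; left
    rw [mul_comm]
    exact hR.le

/-- one length, (3,3) -/
lemma step_33 (hemb : S_EMB) (hbnd : S_BND) {ι : Type} [Fintype ι]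
    (T : TE 3 ι) (t K Qh Q' : ℕ) (ht : 0 < t)
    (hC : ∃ x, T.Cn x)
    (hmv : ∀ q : ℕ, ∃ C : ℕ, 0 < C ∧
      ∀ F0 ζ : ℕ, ∃ M D0 : ℕ, ∀ (V : Type) [Fintype V] [Nonempty V] (G : SimpleGraph V) (D : ℕ)
      (B : ℕ → V → V → Prop), AR G D K → D0 ≤ D → BSy B → RichSp G B 3 M → BNd G B 3 F0 →
      (∃ (St : Type) (Bd : St → V → V → Prop) (ok : ℕ → St → Prop), Mv G 3 C ζ St Bd ok ∧
        Ini ζ St Bd ok (Fintype.card ι)) ∨
      ∃ He : V → V → Prop, (∀ a b, He a b → G.Adj a b) ∧ Fintype.card V * D ≤ Qh * gc He ∧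
        (RCh G B He 3).card * q ≤ Fintype.card V * D ^ 3)
    (L : ℕ → ℕ) :
    ∃ M D0, ∀ L2 : ℕ → ℕ, (∀ j, j < 3 → L2 j = L j) → L2 3 = M → PP T t K Qh Q' 3 L2 D0 := by
  obtain ⟨F0, hF0⟩ := hbnd 3 3 L (by norm_num)
  obtain ⟨C, hC0, hmv1⟩ := hmv Q'
  obtain ⟨ζ0, hemb1⟩ := hemb 3 (by norm_num) ι T t C ht hC0 hC
  obtain ⟨M, D0, hmv2⟩ := hmv1 F0 ζ0
  refine ⟨M, D0, fun L2 hL2 hL2l L' hL' V _ _ G D B hAR hD hB hBs => ?_⟩
  have hrs : RichSp G B 3 M := by
    intro x y hxy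
    have h := ((hB 3 x y).1 hxy).2.2
    rw [hL' 3 le_rfl, hL2l] at h
    exact h
  have hbn : BNd G B 3 F0 := hF0 L' (fun j hj => by rw [hL' j hj.le, hL2 j hj]) V G B hB
  rcases hmv2 V G D B hAR hD hBs hrs hbn with ⟨St, Bd, ok, hM, hI⟩ | hHe
  · left
    exact hemb1 V G St Bd ok hM hI
  · right; right
    exact ⟨rfl, hHe⟩

/-- all the lengths -/
lemma all_len {k : ℕ} {ι : Type} [Fintype ι]
    (T : TE k ι) (t K Qh Q' : ℕ)
    (hst : ∀ l, 2 ≤ l → l ≤ k + 1 → ∀ L : ℕ → ℕ, ∃ M D0, ∀ L2 : ℕ → ℕ,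
      (∀ j, j < l → L2 j = L j) → L2 l = M → PP T t K Qh Q' l L2 D0) :
    ∀ m, m ≤ k + 1 → ∃ (L : ℕ → ℕ) (D0 : ℕ), ∀ l, 2 ≤ l → l ≤ m → PP T t K Qh Q' l L D0 := by
  intro m
  induction m with
  | zero =>
    intro _
    exact ⟨fun _ => 0, 0, fun l h1 h2 => absurd h2 (by omega)⟩
  | succ m ih =>
    intro hm
    obtain ⟨L, D0, hL⟩ := ih (by omega)
    by_cases hm2 : 2 ≤ m + 1
    · obtain ⟨M, D1, hM⟩ := hst (m + 1) hm2 hm L
      refine ⟨fun j => if j = m + 1 then M else L j, max D0 D1, fun l h1 h2 => ?_⟩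
      rcases Nat.lt_or_ge m l with hlm | hlm
      · have hle : l = m + 1 := by omega
        subst hle
        have h3 := hM (fun j => if j = m + 1 then M else L j)
          (fun j hj => if_neg (by omega)) (if_pos rfl)
        intro L' hL' V _ _ G D B hAR hD
        exact h3 L' hL' V G D B hAR ((le_max_right _ _).trans hD)
      · have h3 := hL l h1 hlm
        intro L' hL' V _ _ G D B hAR hD
        refine h3 L' (fun j hj => ?_) V G D B hAR ((le_max_left _ _).trans hD)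
        rw [hL' j hj]
        exact if_neg (by omega)
    · exact ⟨L, D0, fun l h1 h2 => absurd h2 (by omega)⟩

/-- relations ER lie in G -/
lemma ER_adj {k : ℕ} {ι V : Type} (T : TE k ι) (G : SimpleGraph V) (He : V → V → Prop)
    (R : ℕ → V → V → Prop) (hR : Hst G He k R) (x : ι) (hx : x ≠ T.top) (a b : V)
    (h : ER T R x a b) : G.Adj a b := by
  unfold ER Stp at h
  by_cases hc : T.Cn x
  · rw [if_pos hc] at h
    cases hb : T.kb x
    · rw [hb] at h
      simp only [Bool.false_eq_true, if_false] at h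
      exact (hR 0 (Nat.zero_le _) _ _ h).1.symm
    · rw [hb] at h
      simp only [if_true] at h
      exact (hR (k - 0) (Nat.sub_le _ _) _ _ h).1
  · rw [if_neg hc] at h
    have hps := (T.N_ps x hx hc).2.1
    cases hb : T.kb x
    · rw [hb] at h
      simp only [Bool.false_eq_true, if_false] at h
      exact (hR _ (by omega) _ _ h).1
    · rw [hb] at h
      simp only [if_true] at h
      exact (hR _ (Nat.sub_le _ _) _ _ h).1.symm

lemma RR_adj {k : ℕ} {ι V : Type} (T : TE k ι) (G : SimpleGraph V) (He : V → V → Prop)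
    (R : ℕ → V → V → Prop) (hR : Hst G He k R) (x : ι) (a b : V)
    (h : RR T R x a b) : G.Adj a b := by
  unfold RR Stp at h
  by_cases hc : T.Cn x
  · rw [if_pos hc] at h
    cases hb : T.kb x
    · rw [hb] at h
      simp only [Bool.false_eq_true, if_false] at h
      exact (hR 0 (Nat.zero_le _) _ _ h).1.symm
    · rw [hb] at h
      simp only [if_true] at h
      exact (hR (k - 0) (Nat.sub_le _ _) _ _ h).1
  · rw [if_neg hc] at h
    cases hb : T.kb x
    · rw [hb] at h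
      simp only [Bool.false_eq_true, if_false] at h
      exact (hR k le_rfl _ _ h).1.symm
    · rw [hb] at h
      simp only [if_true] at h
      exact (hR _ (Nat.sub_le _ _) _ _ h).1

lemma Cc_of {k : ℕ} {ι V : Type} [Fintype ι] (T : TE k ι) (t : ℕ) (G : SimpleGraph V)
    (He : V → V → Prop)
    (R : ℕ → V → V → Prop) (hR : Hst G He k R) (w : V)
    (h : BUat T (ER T R) (RR T R) (Finset.univ.erase T.top) (fun _ => w) t (fun _ => True) ∅) :
    Cc T t G := by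
  obtain ⟨ψ, r, h1, h2, h3, h4⟩ := h
  refine ⟨w, ψ, r, h1, fun l => ?_, h3, h4⟩
  obtain ⟨a1, a2⟩ := h2 l
  exact ⟨fun x hx hq => RR_adj T G He R hR x _ _ (a1 x hx hq),
    fun x hx hp => ER_adj T G He R hR x (Finset.ne_of_mem_erase hx) _ _ (a2 x hx hp)⟩

end KFin

/-- the upper bound from the pieces -/
theorem fin_holds : S_FIN := by
  intro hemb hisb hbnd hmv hmv3 hind hden k hk ι _ T a p hp hcι hC hQn hbal t ht
  have ha : 1 ≤ a := by
    by_contra hcon
    have h1 : Fintype.card ι ≤ 1 := by omega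
    obtain ⟨x, hx⟩ := hC
    rw [Fintype.card_le_one_iff] at h1
    exact T.top_C (h1 x T.top ▸ hx)
  obtain ⟨b, hb⟩ : ∃ b, b = a + p := ⟨_, rfl⟩
  obtain ⟨ε, hε⟩ : ∃ ε : ℝ, ε = (p : ℝ) / (b : ℝ) := ⟨_, rfl⟩
  have hbpos : (0 : ℝ) < b := by
    have : 0 < b := by omega
    exact_mod_cast this
  have hppos : (0 : ℝ) < (p : ℝ) := by
    have : 0 < p := by omega
    exact_mod_cast this
  have hε0 : 0 < ε := by rw [hε]; positivity
  have hε1 : ε < 1 := by
    rw [hε, div_lt_one hbpos]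
    exact_mod_cast (by omega : p < b)
  have hexp : (2 - (a : ℝ) / ((a + p : ℕ) : ℝ)) = 1 + ε := by
    rw [← hb, hε]
    have h1 : (a : ℝ) = (b : ℝ) - (p : ℝ) := by
      rw [eq_sub_iff_add_eq]
      exact_mod_cast (by omega : a + p = b)
    rw [h1]
    field_simp
    ring
  rw [hexp]
  obtain ⟨K, hK, hreg⟩ := Pool.Agent.W247.BC.reg_holds ε hε0 hε1
  obtain ⟨Qh, hQh, hmv3'⟩ := hmv3 K (Fintype.card ι) hK
  obtain ⟨Qd, hQd, hden1⟩ := hden k K hK Qh hQh
  obtain ⟨Q', hQ', hind1⟩ := hind k hk ι T K hK (Fintype.card ι) Qd t hQd ht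
  have hst : ∀ l, 2 ≤ l → l ≤ k + 1 → ∀ L : ℕ → ℕ, ∃ M D0, ∀ L2 : ℕ → ℕ,
      (∀ j, j < l → L2 j = L j) → L2 l = M → KFin.PP T t K Qh Q' l L2 D0 := by
    intro l hl2 hlk L
    by_cases h33 : k = 3 ∧ l = 3
    · obtain ⟨hk3, hl3⟩ := h33
      subst hk3
      subst hl3
      exact KFin.step_33 hemb hbnd T t K Qh Q' ht hC hmv3' L
    · exact KFin.step_gen hemb hbnd hk T t K Qh Q' ht hK hQ' hC l hl2 hlk
        (hmv k l hk hl2 hlk h33) L
  obtain ⟨L, D0, hL⟩ := KFin.all_len T t K Qh Q' hst (k + 1) le_rfl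
  obtain ⟨L1, hL1⟩ : ∃ L1, ∀ j, j ≤ k + 1 → L j ≤ L1 := by
    refine ⟨∑ j ∈ Finset.range (k + 2), L j, fun j hj => ?_⟩
    exact Finset.single_le_sum (f := L) (fun i _ => Nat.zero_le _) (Finset.mem_range.2 (by omega))
  obtain ⟨C1, hind2⟩ := hind1 L1
  obtain ⟨C0, hC0def⟩ : ∃ C0, C0 = C1 + D0 + 1 := ⟨_, rfl⟩
  obtain ⟨C', hC'⟩ := hreg (max (C0 : ℝ) 1)
  refine ⟨C', fun n G hno => ?_⟩
  by_contra hcon
  push Not at hcon
  obtain ⟨U, W, D, hUW, hU, hW, hD, hdU, hdW⟩ := hC' n G hcon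
  apply hno
  have hN : (1 : ℝ) ≤ ((U.card + W.card : ℕ) : ℝ) := by
    have := hU.card_pos
    exact_mod_cast (by omega : 1 ≤ U.card + W.card)
  have hC1 : (1 : ℝ) ≤ max (C0 : ℝ) 1 := le_max_right _ _
  have hC0 : (C0 : ℝ) ≤ max (C0 : ℝ) 1 := le_max_left _ _
  have hne : Nonempty {v : Fin n // v ∈ U ∪ W} := by
    obtain ⟨u, hu⟩ := hU
    exact ⟨⟨u, Finset.mem_union_left _ hu⟩⟩
  have hcard : Fintype.card {v : Fin n // v ∈ U ∪ W} = U.card + W.card := by
    rw [Fintype.card_coe, Finset.card_union_of_disjoint hUW]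
  have hAR : AR (BG G U W) D K := by
    constructor
    · intro v
      rcases Finset.mem_union.mp v.2 with h | h
      · rw [(BG_nb G U W hUW v).1 h]
        exact (hdU v.1 h).1
      · rw [(BG_nb G U W hUW v).2 h]
        exact (hdW v.1 h).1
    · intro v
      rcases Finset.mem_union.mp v.2 with h | h
      · rw [(BG_nb G U W hUW v).1 h]
        exact (hdU v.1 h).2
      · rw [(BG_nb G U W hUW v).2 h]
        exact (hdW v.1 h).2
  have hCD : C0 ≤ D := by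
    have := Pool.Agent.W715.BC.pow_ineq (max (C0 : ℝ) 1) _ D ε hC1 hN hD 1 0 le_rfl
      (by simpa using hε0.le)
    rw [pow_zero, mul_one, pow_one] at this
    exact_mod_cast hC0.trans this
  have hcnt : CntH T C1 (Fintype.card {v : Fin n // v ∈ U ∪ W}) D := by
    intro F hF hadm
    have h1 : a * frc T F ≤ p * F.card := hbal F hadm
    obtain ⟨s, hs⟩ : ∃ s, s = frc T F := ⟨_, rfl⟩
    rw [← hs] at h1 ⊢
    have hFc := hF.card_pos
    have h2 := Pool.Agent.W715.BC.pow_ineq (max (C0 : ℝ) 1) _ D ε hC1 hN hD (F.card + s) s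
      (by omega) (by
        rw [hε, div_mul_eq_mul_div, le_div_iff₀ hbpos]
        have h5 : s * b ≤ p * (F.card + s) := by
          rw [hb]
          nlinarith
        have h7 : ((s * b : ℕ) : ℝ) ≤ ((p * (F.card + s) : ℕ) : ℝ) := by exact_mod_cast h5
        push_cast at h7 ⊢
        linarith)
    have h3 : (C1 : ℝ) ≤ (C0 : ℝ) := by exact_mod_cast (by omega : C1 ≤ C0)
    have h4 : (C1 : ℝ) * ((U.card + W.card : ℕ) : ℝ) ^ s ≤ (D : ℝ) ^ (F.card + s) :=
      (mul_le_mul_of_nonneg_right (h3.trans hC0) (by positivity)).trans h2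
    rw [hcard]
    exact_mod_cast h4
  have key : KFin.Cc T t (BG G U W) := by
    obtain ⟨B, hB, hBs⟩ := hisb {v : Fin n // v ∈ U ∪ W} (BG G U W) k L
    by_contra hno2
    have hbsp : BSp (BG G U W) k L1 B := by
      intro j hj2 hjk x y hd
      exact (hB j x y).2 ⟨hj2, hjk, KFin.Disj.mono hd (hL1 j hjk)⟩
    have hall : ∀ l, 2 ≤ l → l ≤ k + 1 →
        (RCs (BG G U W) B l).card * Q' ≤ Fintype.card {v : Fin n // v ∈ U ∪ W} * D ^ l ∨
        (l = 3 ∧ ∃ He : {v : Fin n // v ∈ U ∪ W} → {v : Fin n // v ∈ U ∪ W} → Prop,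
          (∀ a b, He a b → (BG G U W).Adj a b) ∧
          Fintype.card {v : Fin n // v ∈ U ∪ W} * D ≤ Qh * gc He ∧
          (RCh (BG G U W) B He 3).card * Q' ≤
            Fintype.card {v : Fin n // v ∈ U ∪ W} * D ^ 3) := by
      intro l h1 h2
      rcases hL l h1 h2 L (fun _ _ => rfl) _ (BG G U W) D B hAR (by omega) hB hBs with h | h
      · exact absurd h hno2
      · exact h
    obtain ⟨He, hHe, hgc, hfew⟩ : ∃ He : {v : Fin n // v ∈ U ∪ W} →
        {v : Fin n // v ∈ U ∪ W} → Prop, (∀ a b, He a b → (BG G U W).Adj a b) ∧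
          Fintype.card {v : Fin n // v ∈ U ∪ W} * D ≤ Qh * gc He ∧
          Few (BG G U W) k B He Q' D := by
      by_cases h33 : ∃ He : {v : Fin n // v ∈ U ∪ W} → {v : Fin n // v ∈ U ∪ W} → Prop,
          (∀ a b, He a b → (BG G U W).Adj a b) ∧
          Fintype.card {v : Fin n // v ∈ U ∪ W} * D ≤ Qh * gc He ∧
          (RCh (BG G U W) B He 3).card * Q' ≤
            Fintype.card {v : Fin n // v ∈ U ∪ W} * D ^ 3
      · obtain ⟨He, h1, h2, h3⟩ := h33
        refine ⟨He, h1, h2, fun j hj2 hjk => ?_⟩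
        rcases hall j hj2 hjk with h | ⟨rfl, h⟩
        · exact Or.inl h
        · exact Or.inr ⟨rfl, h3⟩
      · refine ⟨(BG G U W).Adj, fun _ _ h => h, ?_, fun j hj2 hjk => ?_⟩
        · exact (KFin.gc_ge _ D K hAR).trans (Nat.le_mul_of_pos_left _ hQh)
        · rcases hall j hj2 hjk with h | ⟨rfl, h⟩
          · exact Or.inl h
          · exact absurd h h33
    obtain ⟨R, hR, hWW⟩ := hden1 _ (BG G U W) D hAR (by omega) He hHe hgc
    obtain ⟨w, hw⟩ := hind2 Finset.univ (by rw [Finset.card_univ]) (Finset.mem_univ _)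
      (fun x _ _ => Finset.mem_univ _) (fun x _ _ _ y _ _ => Finset.mem_univ _)
      _ (BG G U W) D hAR (by omega) hcnt He R hR hWW B hBs hbsp hfew
    exact hno2 (KFin.Cc_of T t _ He R hR w hw)
  obtain ⟨w, hw⟩ := key
  exact ⟨w.1, KFin.BUat_BG T _ t G U W w hw⟩

end Pool.Agent.TH476.KK
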