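import Pool.Agent.TH476.KStm2

set_option autoImplicit false

open Classical

namespace Pool.Agent.TH476.KK.KInd

open Pool.Agent.TH476 Pool.Agent.TH476.KK

variable {k : ℕ} {ι V : Type}

lemma admF_erase (T : TE k ι) (U : Finset ι) (hU : AncC T U) : AdmF T (U.erase T.top) := by
  refine ⟨Finset.notMem_erase _ _, fun x hx hq => ?_⟩
  obtain ⟨h1, h2⟩ := Finset.mem_erase.mp hx
  refine Finset.mem_erase.mpr ⟨?_, hU x h2 h1⟩
  intro h
  exact hq (T.topc x h1 h)

lemma top_notMem_Dsc (T : TE k ι) (U : Finset ι) (u : ι) (hu : u ≠ T.top) :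
    T.top ∉ Dsc T U u := by
  intro h
  have h2 := (Finset.mem_filter.mp h).2
  have key : ∀ x, DscR T u x → x = T.top → False := by
    intro x hx
    induction hx with
    | refl => exact fun h => hu h
    | step x hx _ _ => exact fun h => hx h
  exact key _ h2 rfl

lemma ancC_sdiff (T : TE k ι) (U : Finset ι) (u : ι) (hU : AncC T U) :
    AncC T (U \ Dsc T U u) := by
  intro x hx hxt
  obtain ⟨h1, h2⟩ := Finset.mem_sdiff.mp hx
  refine Finset.mem_sdiff.mpr ⟨hU x h1 hxt, fun h => h2 ?_⟩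
  exact Finset.mem_filter.mpr ⟨h1, DscR.step x hxt (Finset.mem_filter.mp h).2⟩

lemma freeC_sdiff (T : TE k ι) (U : Finset ι) (u : ι) (hU : FreeC T U)
    (hu : T.Cn (T.par u)) : FreeC T (U \ Dsc T U u) := by
  intro x hx hxt hxc y hyt hyx
  obtain ⟨h1, h2⟩ := Finset.mem_sdiff.mp hx
  refine Finset.mem_sdiff.mpr ⟨hU x h1 hxt hxc y hyt hyx, fun h => ?_⟩
  have h3 := (Finset.mem_filter.mp h).2
  cases h3 with
  | refl => exact hxc (hyx ▸ hu)
  | step _ _ h4 =>
    rw [hyx] at h4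
    exact h2 (Finset.mem_filter.mpr ⟨h1, h4⟩)

lemma card_sdiff_le (T : TE k ι) (U : Finset ι) (u : ι) (hu : u ∈ U) (n : ℕ)
    (hn : U.card ≤ n + 1) : (U \ Dsc T U u).card ≤ n := by
  have h : (U \ Dsc T U u).card < U.card := by
    refine Finset.card_lt_card ?_
    rw [Finset.ssubset_iff_subset_ne]
    refine ⟨Finset.sdiff_subset, fun h => ?_⟩
    have h1 : u ∈ U \ Dsc T U u := by
      rw [h]
      exact hu
    exact (Finset.mem_sdiff.mp h1).2 (Finset.mem_filter.mpr ⟨hu, DscR.refl⟩)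
  omega

lemma cntH_mono (T : TE k ι) (C C' N D : ℕ) (h : C' ≤ C) (hc : CntH T C N D) : CntH T C' N D :=
  fun F h1 h2 => (Nat.mul_le_mul_right _ h).trans (hc F h1 h2)

lemma buat_le (T : TE k ι) (E Rt : ι → V → V → Prop) (F : Finset ι) (b : ι → V) (L L' : ℕ)
    (h : L ≤ L') (Γ : (ι → V) → Prop) (Z : Finset V) (hb : BUat T E Rt F b L' Γ Z) :
    BUat T E Rt F b L Γ Z := by
  obtain ⟨ψ, r, h1, h2, h3, h4, h5, h6, h7, h8⟩ := hb
  refine ⟨fun l => ψ (Fin.castLE h l), r, h1, fun l => h2 _, fun l => h3 _, ?_, fun l => h5 _, h6,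
    fun l => h7 _, h8⟩
  intro l l' x x' hx hx' he
  obtain ⟨h9, h10⟩ := h4 _ _ x x' hx hx' he
  exact ⟨Fin.castLE_injective h h9, h10⟩

lemma buat_mono (T : TE k ι) (E Rt E' Rt' : ι → V → V → Prop) (F : Finset ι) (b : ι → V) (L : ℕ)
    (hE : ∀ x a c, E x a c → E' x a c) (hR : ∀ x a c, Rt x a c → Rt' x a c)
    (Γ : (ι → V) → Prop) (Z : Finset V) (hb : BUat T E Rt F b L Γ Z) :
    BUat T E' Rt' F b L Γ Z := by
  obtain ⟨ψ, r, h1, h2, h3, h4, h5, h6, h7, h8⟩ := hb
  exact ⟨ψ, r, h1, fun l => ⟨fun x hx hq => hR _ _ _ ((h2 l).1 x hx hq),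
    fun x hx hq => hE _ _ _ ((h2 l).2 x hx hq)⟩, h3, h4, h5, h6, h7, h8⟩

lemma stp_mono (R R' : ℕ → V → V → Prop) (h : ∀ i a c, R i a c → R' i a c) (b : Bool) (i : ℕ)
    (a c : V) (hs : Stp k R b i a c) : Stp k R' b i a c := by
  unfold Stp at *
  cases b
  · simp only [Bool.false_eq_true, if_false] at *
    exact h _ _ _ hs
  · simp only [if_true] at *
    exact h _ _ _ hs

lemma er_mono (T : TE k ι) (R R' : ℕ → V → V → Prop) (h : ∀ i a c, R i a c → R' i a c) (x : ι)
    (a c : V) (hs : ER T R x a c) : ER T R' x a c := by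
  unfold ER at *
  by_cases hx : T.Cn x
  · rw [if_pos hx] at *
    exact stp_mono R R' h _ _ _ _ hs
  · rw [if_neg hx] at *
    exact stp_mono R R' h _ _ _ _ hs

lemma rr_mono (T : TE k ι) (R R' : ℕ → V → V → Prop) (h : ∀ i a c, R i a c → R' i a c) (x : ι)
    (a c : V) (hs : RR T R x a c) : RR T R' x a c := by
  unfold RR at *
  by_cases hx : T.Cn x
  · rw [if_pos hx] at *
    exact stp_mono R R' h _ _ _ _ hs
  · rw [if_neg hx] at *
    exact stp_mono R R' h _ _ _ _ hs

lemma stp_adj (G : SimpleGraph V) (R : ℕ → V → V → Prop) (h : ∀ i a c, R i a c → G.Adj a c)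
    (b : Bool) (i : ℕ) (a c : V) (hs : Stp k R b i a c) : G.Adj a c := by
  unfold Stp at hs
  cases b
  · simp only [Bool.false_eq_true, if_false] at hs
    exact h _ _ _ hs
  · simp only [if_true] at hs
    exact (h _ _ _ hs).symm

lemma rsok (T : TE k ι) (G : SimpleGraph V) (R : ℕ → V → V → Prop)
    (h : ∀ i a c, R i a c → G.Adj a c) : RSok T G (ER T R) (RR T R) where
  adjE x a c hs := by
    unfold ER at hs
    by_cases hx : T.Cn x
    · rw [if_pos hx] at hs
      exact (stp_adj G R h _ _ _ _ hs).symm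
    · rw [if_neg hx] at hs
      exact stp_adj G R h _ _ _ _ hs
  adjR x a c hs := by
    unfold RR at hs
    by_cases hx : T.Cn x
    · rw [if_pos hx] at hs
      exact (stp_adj G R h _ _ _ _ hs).symm
    · rw [if_neg hx] at hs
      exact (stp_adj G R h _ _ _ _ hs).symm
  sw x hx a c := by
    unfold ER RR
    rw [if_pos hx, if_pos hx]
  sw' u hu huc hpc y w := by
    unfold ER RR
    obtain ⟨h1, _, h3⟩ := T.N_ps u hu huc
    rw [if_neg huc, if_pos hpc, h3, h1, T.C_ps _ hpc]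

lemma popW_mono [Fintype V] (T : TE k ι) (E Rt : ι → V → V → Prop) (E0 : Finset ι) (u : ι)
    (L ζ Q Q' D : ℕ) (hQ : Q ≤ Q') (w : V) (h : PopW T E Rt E0 u L ζ Q D w) :
    PopW T E Rt E0 u L ζ Q' D w := by
  intro Z hZ
  obtain ⟨ρ, h1, h2, h3⟩ := h Z hZ
  exact ⟨ρ, h1, h2, h3.trans (Nat.mul_le_mul_right _ hQ)⟩

lemma few_mono [Fintype V] (G : SimpleGraph V) (B : ℕ → V → V → Prop) (He : V → V → Prop)
    (Q Q' D : ℕ) (hQ : Q ≤ Q') (h : Few G k B He Q' D) : Few G k B He Q D := by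
  intro j h1 h2
  rcases h j h1 h2 with h3 | ⟨h3, h4⟩
  · exact Or.inl ((Nat.mul_le_mul_left _ hQ).trans h3)
  · exact Or.inr ⟨h3, (Nat.mul_le_mul_left _ hQ).trans h4⟩

lemma hst_mono (G : SimpleGraph V) (He : V → V → Prop) (R R' : ℕ → V → V → Prop)
    (h : ∀ i a c, R' i a c → R i a c) (hs : Hst G He k R) : Hst G He k R' :=
  fun i hi a c hr => hs i hi a c (h i a c hr)

/-- the layered relation with the layers above k removed -/
def cutR (k : ℕ) (R : ℕ → V → V → Prop) : ℕ → V → V → Prop := fun i a c => i ≤ k ∧ R i a c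

lemma ww_cut [Fintype V] (R : ℕ → V → V → Prop) : WW k R ≤ WW k (cutR k R) := by
  unfold WW
  refine Finset.card_le_card fun p hp => ?_
  refine Finset.mem_filter.mpr ⟨Finset.mem_univ _, fun i => ⟨Nat.lt_succ_iff.mp i.2, ?_⟩⟩
  exact (Finset.mem_filter.mp hp).2 i

end Pool.Agent.TH476.KK.KInd

namespace Pool.Agent.TH476.KK

open Pool.Agent.TH476 KInd

theorem ind_holds : S_CLAIM → S_PRN → S_INIT → S_RED → S_IND := by
  intro hclaim hprn hinit hred k hk ι _ T K hK n
  induction n with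
  | zero =>
    intro Q L _ _
    refine ⟨1, one_pos, fun L1 => ⟨0, ?_⟩⟩
    intro U hU htop
    rw [Nat.le_zero, Finset.card_eq_zero] at hU
    rw [hU] at htop
    exact absurd htop (Finset.notMem_empty _)
  | succ n ih =>
    intro Q L hQ hL
    obtain ⟨Qp, hQp, hprn⟩ := hprn k K hK Q hQ
    obtain ⟨Qi, D0, hQi, hinit⟩ := hinit k hk ι T K hK Qp hQp
    obtain ⟨Qc, hQc, hclaim⟩ := hclaim k hk ι T K hK Qi hQi
    obtain ⟨L', ζ', Qr, hLL', hQr, hred⟩ := hred k hk ι T K hK L hL (Qc + Qp)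
      (Nat.add_pos_left hQc _)
    obtain ⟨Qh, hQh, ih⟩ := ih Qr L hQr hL
    refine ⟨Qi + Qh, Nat.add_pos_left hQi _, fun L1 => ?_⟩
    obtain ⟨Cc, hclaim⟩ := hclaim L' ζ' L1 (lt_of_lt_of_le hL hLL')
    obtain ⟨Ch, ih⟩ := ih L1
    refine ⟨Cc + D0 + Ch + 1, ?_⟩
    intro U hUn htop hanc hfree V _ _ G D hAR hCD hcnt He R hHst hWW B hBSy hBSp hFew
    -- cut and prune
    have hHst1 : Hst G He k (cutR k R) :=
      hst_mono G He R _ (fun i a c h => h.2) hHst
    obtain ⟨R', m, hR'1, hMin, hDm, hWW'⟩ := hprn V G D hAR (by omega) He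
      (cutR k R) hHst1 (hWW.trans (Nat.mul_le_mul_left _ (ww_cut R)))
    have hR'R : ∀ i a c, R' i a c → R i a c := fun i a c h => (hR'1 i a c h).2
    have hHst' : Hst G He k R' := hst_mono G He R R' hR'R hHst
    have hadj : ∀ i a c, R' i a c → G.Adj a c := fun i a c h =>
      (hHst' i (hR'1 i a c h).1 a c h).1
    have hFewi : Few G k B He Qi D := few_mono G B He _ _ D (Nat.le_add_right _ _) hFew
    have hFewh : Few G k B He Qh D := few_mono G B He _ _ D (Nat.le_add_left _ _) hFew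
    obtain ⟨𝓟, hP1, hP2⟩ := hinit U hanc V G D hAR (by omega) He R' hHst' m hMin hDm hWW' B hBSy
      hFewi (Classical.arbitrary V)
    have hmain := hclaim U (U.erase T.top) hanc hfree (Finset.erase_subset _ _)
      (admF_erase T U hanc) (fun x hx hxt _ => Finset.mem_erase.mpr ⟨hxt, hx⟩) V G D hAR
      (cntH_mono T _ _ _ _ (by omega) hcnt) (ER T R') (RR T R') (rsok T G R' hadj) B hBSy hBSp
      (Classical.arbitrary V) V (fun w _ => w)
      (fun _ _ => True) Finset.univ 1 one_pos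
      (fun q _ _ w => by
        have : (Finset.univ.filter (fun ω : V => ω = w)) ⊆ {w} := by
          intro y hy
          exact Finset.mem_singleton.mpr (Finset.mem_filter.mp hy).2
        exact (Finset.card_le_card this).trans (by rw [Finset.card_singleton]))
      𝓟 (fun p hp => ⟨Finset.mem_univ _, hP1 p hp⟩) (by rw [mul_one]; exact hP2)
    rcases hmain with ⟨u, hu, huc, hupc, hpop⟩ | hmain
    · obtain ⟨hut, huU⟩ := Finset.mem_erase.mp hu
      have hpop' : Fintype.card V ≤ (Qc + Qp) * (Finset.univ.filter (fun w =>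
          PopW T (ER T R') (RR T R') (Dsc T U u) u L' ζ' (Qc + Qp) D w)).card := by
        refine hpop.trans (Nat.mul_le_mul (Nat.le_add_right _ _) (Finset.card_le_card ?_))
        intro w hw
        exact Finset.mem_filter.mpr ⟨Finset.mem_univ _,
          popW_mono T _ _ _ _ _ _ _ _ _ (Nat.le_add_right _ _) w (Finset.mem_filter.mp hw).2⟩
      obtain ⟨R'', hR'', hWW'', htr⟩ := hred U u hanc huU hut huc hupc V G D hAR (by omega) He R'
        hHst' m hMin (hDm.trans (Nat.mul_le_mul_right _ (Nat.le_add_left _ _))) hpop'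
      obtain ⟨w, hw⟩ := ih (U \ Dsc T U u) (card_sdiff_le T U u huU n hUn)
        (Finset.mem_sdiff.mpr ⟨htop, top_notMem_Dsc T U u hut⟩) (ancC_sdiff T U u hanc)
        (freeC_sdiff T U u hfree hupc) V G D hAR
        (by omega) (cntH_mono T _ _ _ _ (by omega) hcnt) He R'' (hst_mono G He R' R'' hR'' hHst')
        hWW'' B hBSy hBSp hFewh
      exact ⟨w, buat_mono T _ _ _ _ _ _ _ (er_mono T R' R hR'R) (rr_mono T R' R hR'R) _ _
        (htr w hw)⟩
    · rw [mul_one] at hmain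
      have hpos : 0 < (Finset.univ.filter (fun ω : V => ∀ Z : Finset V, Z.card ≤ ζ' →
          BUat T (ER T R') (RR T R') (U.erase T.top) ((fun w _ => w : V → ι → V) ω) L'
            ((fun _ _ => True : V → (ι → V) → Prop) ω) Z)).card := by
        refine Nat.pos_of_ne_zero fun h0 => ?_
        rw [h0, mul_zero] at hmain
        have : 0 < Fintype.card V := Fintype.card_pos
        omega
      obtain ⟨w, hw⟩ := Finset.card_pos.mp hpos
      have hw2 := (Finset.mem_filter.mp hw).2 ∅ (by rw [Finset.card_empty]; exact Nat.zero_le _)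
      exact ⟨w, buat_mono T _ _ _ _ _ _ _ (er_mono T R' R hR'R) (rr_mono T R' R hR'R) _ _
        (buat_le T _ _ _ _ L L' hLL' _ _ hw2)⟩

end Pool.Agent.TH476.KK
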