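import Pool.Agent.TH476.KStm2

/-!
# The initial family of light copies (`S_INIT`), all k
-/

set_option autoImplicit false

open Classical

namespace Pool.Agent.TH476.KK

open Pool.Agent.TH476

namespace KInit

section generic

lemma compl_card {α : Type} [Fintype α] (S : Finset α) :
    Sᶜ.card = Fintype.card α - S.card := Finset.card_compl S

lemma image_sub {α β : Type} (s : Finset α) (f : α → β) (t : Finset β)
    (h : ∀ a ∈ s, f a ∈ t) : (s.image f).card ≤ t.card := by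
  refine Finset.card_le_card ?_
  intro b hb
  obtain ⟨a, ha, rfl⟩ := Finset.mem_image.1 hb
  exact h a ha

/-- the elements x with x or r x in X -/
noncomputable def both {α : Type} [Fintype α] (X : Finset α) (r : α → α) : Finset α :=
  Finset.univ.filter (fun x => x ∈ X ∨ r x ∈ X)

lemma mem_both {α : Type} [Fintype α] (X : Finset α) (r : α → α) (x : α) :
    x ∈ both X r ↔ x ∈ X ∨ r x ∈ X := by
  unfold both
  simp

lemma both_card {α : Type} [Fintype α] (X : Finset α) (r : α → α)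
    (hr : Function.Injective r) : (both X r).card ≤ 2 * X.card := by
  have h1 : (Finset.univ.filter (fun x => r x ∈ X)).card ≤ X.card := by
    refine Finset.card_le_card_of_injOn r ?_ (fun a _ b _ h => hr h)
    intro x hx
    exact (Finset.mem_filter.1 (Finset.mem_coe.1 hx)).2
  have h2 : (both X r).card ≤ (X ∪ Finset.univ.filter (fun x => r x ∈ X)).card := by
    refine Finset.card_le_card ?_
    intro x hx
    rcases (mem_both X r x).1 hx with h | h
    · exact Finset.mem_union_left _ h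
    · exact Finset.mem_union_right _ (Finset.mem_filter.2 ⟨Finset.mem_univ _, h⟩)
  have h3 := Finset.card_union_le X (Finset.univ.filter (fun x => r x ∈ X))
  omega

/-- projection to an injective sequence of coordinates -/
lemma proj_seq {κ V β : Type} [Fintype κ] [Fintype V] (T : SimpleGraph κ) (hT : T.Connected)
    (G : SimpleGraph V) (D K : ℕ) (hG : AR G D K) (S : Finset κ) (hS : S.Nonempty)
    (𝓢 : Finset (κ → V)) (h1 : ∀ φ ∈ 𝓢, Hom T G φ) (res : (κ → V) → β)
    (hres : ∀ φ ∈ 𝓢, ∀ ψ ∈ 𝓢, res φ = res ψ → ∀ u ∈ S, φ u = ψ u) (X : Finset β)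
    (hX : ∀ φ ∈ 𝓢, res φ ∈ X) :
    𝓢.card ≤ (K * D) ^ (Fintype.card κ - S.card) * X.card := by
  have h2 := proj_le T hT G D K hG S hS 𝓢 h1 res hres
  rw [compl_card] at h2
  exact h2.trans (Nat.mul_le_mul_left _ (image_sub 𝓢 res X hX))

lemma image_card {α β : Type} (s : Finset α) (f : α → β) (hf : Function.Injective f) :
    (s.image f).card = s.card := Finset.card_image_of_injective _ hf

end generic

section layers

variable {V : Type}

/-- the relation between two consecutive layers i and j -/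
def RL (R : ℕ → V → V → Prop) (i : ℕ) (a : V) (j : ℕ) (b : V) : Prop :=
  (j = i + 1 → R i a b) ∧ (i = j + 1 → R j b a)

lemma RL_symm {R : ℕ → V → V → Prop} {i j : ℕ} {a b : V} (h : RL R i a j b) : RL R j b i a :=
  ⟨h.2, h.1⟩

/-- a occurs in layer i -/
def Oc (k : ℕ) (R : ℕ → V → V → Prop) (i : ℕ) (a : V) : Prop :=
  (i ≤ k ∧ ∃ b, R i a b) ∨ ∃ j, i = j + 1 ∧ j ≤ k ∧ ∃ b, R j b a

lemma oc_up [Fintype V] {k m : ℕ} {R : ℕ → V → V → Prop} (hM : MinD k R m) {i : ℕ} {a : V}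
    (hi : i ≤ k) (ha : Oc k R i a) : m ≤ (Finset.univ.filter (fun c => R i a c)).card := by
  rcases ha with ⟨_, b, h⟩ | ⟨j, hj, hjk, b, h⟩
  · exact (hM i hi a b h).1
  · subst hj
    exact (hM j hjk b a h).2.2.1 hi

lemma oc_dn [Fintype V] {k m : ℕ} {R : ℕ → V → V → Prop} (hM : MinD k R m) {j : ℕ} {a : V}
    (hj : j ≤ k) (ha : Oc k R (j + 1) a) :
    m ≤ (Finset.univ.filter (fun c => R j c a)).card := by
  rcases ha with ⟨hjk, b, h⟩ | ⟨j', hj', _, b, h⟩
  · have h1 := (hM (j + 1) hjk a b h).2.2.2 (by omega)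
    simpa using h1
  · have : j = j' := by omega
    subst this
    exact (hM j hj b a h).2.1

lemma oc_V [Fintype V] {k m : ℕ} {R : ℕ → V → V → Prop} (hM : MinD k R m) {i : ℕ} {a : V}
    (ha : Oc k R i a) : m ≤ Fintype.card V := by
  rcases ha with ⟨hi, b, h⟩ | ⟨j, _, hjk, b, h⟩
  · exact (hM i hi a b h).1.trans (Finset.card_le_univ _)
  · exact (hM j hjk b a h).1.trans (Finset.card_le_univ _)

/-- walks are counted by their vertex in layer i -/
lemma walk_le [Fintype V] {G : SimpleGraph V} {D K : ℕ} (hG : AR G D K) {k : ℕ}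
    {R : ℕ → V → V → Prop} (hR : ∀ i, i ≤ k → ∀ a b, R i a b → G.Adj a b) (i : ℕ)
    (hi : i ≤ k + 1) :
    WW k R ≤ (K * D) ^ (k + 1) * (Finset.univ.filter (fun a => Oc k R i a)).card := by
  let p : Fin (k + 2) → Fin (k + 2) := fun v => ⟨v.1 - 1, by omega⟩
  have hp : ∀ v : Fin (k + 2), v ≠ 0 → (p v).1 < v.1 := by
    intro v hv
    have h1 : v.1 ≠ 0 := fun h => hv (Fin.ext h)
    show v.1 - 1 < v.1
    omega
  let i' : Fin (k + 2) := ⟨i, by omega⟩
  have h1 := proj_seq (PT p 0) (PT_conn p 0 (fun v => v.1) hp) G D K hG {i'}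
    (Finset.singleton_nonempty _)
    (Finset.univ.filter (fun p : Fin (k + 2) → V =>
      ∀ i : Fin (k + 1), R i (p i.castSucc) (p i.succ)))
    (fun φ hφ => by
      rw [hom_PT p 0 (fun v => v.1) hp]
      intro v hv
      obtain ⟨j, rfl⟩ := Fin.exists_succ_eq.mpr hv
      have h2 := (Finset.mem_filter.1 hφ).2 j
      have h3 : p j.succ = j.castSucc := by
        apply Fin.ext
        show j.succ.1 - 1 = j.castSucc.1
        simp
      rw [h3]
      exact hR _ (by omega) _ _ h2)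
    (fun φ => φ i')
    (fun φ _ ψ _ h u hu => by
      rw [Finset.mem_singleton.1 hu]
      exact h)
    (Finset.univ.filter (fun a => Oc k R i a))
    (fun φ hφ => by
      have h2 := (Finset.mem_filter.1 hφ).2
      refine Finset.mem_filter.2 ⟨Finset.mem_univ _, ?_⟩
      by_cases hik : i ≤ k
      · exact Or.inl ⟨hik, _, h2 ⟨i, by omega⟩⟩
      · have hik' : i = k + 1 := by omega
        subst hik'
        exact Or.inr ⟨k, rfl, le_rfl, _, h2 ⟨k, by omega⟩⟩)
  unfold WW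
  rw [Finset.card_singleton, Fintype.card_fin, show k + 2 - 1 = k + 1 from rfl] at h1
  exact h1

lemma RL_adj {G : SimpleGraph V} {k : ℕ} {R : ℕ → V → V → Prop}
    (hR : ∀ i, i ≤ k → ∀ a b, R i a b → G.Adj a b) {i j : ℕ} {a b : V} (hi : i ≤ k + 1)
    (hj : j ≤ k + 1) (hij : j = i + 1 ∨ i = j + 1) (h : RL R i a j b) : G.Adj a b := by
  rcases hij with h1 | h1
  · exact hR i (by omega) _ _ (h.1 h1)
  · exact (hR j (by omega) _ _ (h.2 h1)).symm

/-- direction of the host relation -/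
lemma RL_he {G : SimpleGraph V} {He : V → V → Prop} {k : ℕ} {R : ℕ → V → V → Prop}
    (hR : Hst G He k R) {i j : ℕ} {a b : V} (hi : i ≤ k + 1)
    (hj : j ≤ k + 1) (hij : j = i + 1 ∨ i = j + 1) (h : RL R i a j b) :
    (i % 2 = 0 → He a b) ∧ (i % 2 = 1 → He b a) := by
  rcases hij with h1 | h1
  · exact (hR i (by omega) _ _ (h.1 h1)).2
  · have h2 := (hR j (by omega) _ _ (h.2 h1)).2
    exact ⟨fun h3 => h2.2 (by omega), fun h3 => h2.1 (by omega)⟩

end layers

section paths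

variable {V : Type} {G : SimpleGraph V} {B : ℕ → V → V → Prop} {j : ℕ}

lemma ex_eq (p : ℕ → V) (i : ℕ) (hi : i ≤ j) : ex j (fun i : Fin (j + 1) => p i) i = p i := by
  show p (min i j) = p i
  rw [min_eq_left hi]

lemma pthV_congr {p p' : ℕ → V} (h : ∀ i, i ≤ j → p i = p' i) (hp : PthV G B j p) :
    PthV G B j p' := by
  obtain ⟨h1, h2, h3⟩ := hp
  refine ⟨?_, ?_, ?_⟩
  · intro i hi
    rw [← h i (by omega), ← h (i + 1) (by omega)]
    exact h1 i hi
  · intro i i' hi hi' he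
    rw [← h i hi, ← h i' hi'] at he
    exact h2 i i' hi hi' he
  · intro a b hab hb h4 h5
    rw [← h a (by omega), ← h b hb]
    exact h3 a b hab hb h4 h5

lemma pthV_rev (hB : BSy B) {p : ℕ → V} (hp : PthV G B j p) :
    PthV G B j (fun i => p (j - i)) := by
  obtain ⟨h1, h2, h3⟩ := hp
  refine ⟨?_, ?_, ?_⟩
  · intro i hi
    have h4 := h1 (j - (i + 1)) (by omega)
    rw [show j - (i + 1) + 1 = j - i by omega] at h4
    exact h4.symm
  · intro i i' hi hi' he
    have := h2 (j - i) (j - i') (by omega) (by omega) he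
    omega
  · intro a b hab hb h4 h5 h6
    apply h3 (j - b) (j - a) (by omega) (by omega) (by omega) (by omega)
    rw [show j - a - (j - b) = b - a by omega]
    exact hB _ _ _ h6

variable [Fintype V]

lemma rs_RCs {p : ℕ → V} (h1 : PthV G B j p) (h2 : B j (p 0) (p j)) :
    (fun i : Fin (j + 1) => p i) ∈ RCs G B j := by
  unfold RCs
  refine Finset.mem_filter.2 ⟨Finset.mem_univ _, ?_, ?_⟩
  · exact pthV_congr (fun i hi => (ex_eq p i hi).symm) h1
  · rw [ex_eq p 0 (Nat.zero_le _), ex_eq p j le_rfl]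
    exact h2

/-- the rich paths which may occur -/
noncomputable def PB (G : SimpleGraph V) (B : ℕ → V → V → Prop) (He : V → V → Prop)
    (Q' D : ℕ) (j : ℕ) : Finset (Fin (j + 1) → V) :=
  if (RCs G B j).card * Q' ≤ Fintype.card V * D ^ j then RCs G B j
  else both (RCh G B He j) (fun p i => p i.rev)

lemma PB_card {He : V → V → Prop} {Q' D k : ℕ} (hF : Few G k B He Q' D) (hj : 2 ≤ j)
    (hjk : j ≤ k + 1) : (PB G B He Q' D j).card * Q' ≤ 2 * (Fintype.card V * D ^ j) := by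
  unfold PB
  split_ifs with h
  · omega
  · rcases hF j hj hjk with h1 | ⟨_, h1⟩
    · exact absurd h1 h
    · have h2 := both_card (RCh G B He j) (fun p i => p i.rev) (by
        intro p q he
        funext i
        have h5 := congrFun he i.rev
        simpa using h5)
      calc _ ≤ 2 * (RCh G B He j).card * Q' := Nat.mul_le_mul_right _ h2
        _ = 2 * ((RCh G B He j).card * Q') := by ring
        _ ≤ _ := Nat.mul_le_mul_left _ h1

lemma mem_RCh {He : V → V → Prop} {p : ℕ → V} (h1 : PthV G B j p) (h2 : B j (p 0) (p j))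
    (h3 : ∀ i, i < j → (i % 2 = 0 → He (p i) (p (i + 1))) ∧
      (i % 2 = 1 → He (p (i + 1)) (p i))) :
    (fun i : Fin (j + 1) => p i) ∈ RCh G B He j := by
  unfold RCh
  refine Finset.mem_filter.2 ⟨rs_RCs h1 h2, ?_⟩
  intro i hi
  rw [ex_eq p i hi.le, ex_eq p (i + 1) hi]
  exact h3 i hi

lemma PB_mem {He : V → V → Prop} {Q' D k : ℕ} (hB : BSy B) (hF : Few G k B He Q' D)
    (hj : 2 ≤ j) (hjk : j ≤ k + 1) {p : ℕ → V} (h1 : PthV G B j p) (h2 : B j (p 0) (p j))
    (e : ℕ) (h3 : ∀ i, i < j → ((e + i) % 2 = 0 → He (p i) (p (i + 1))) ∧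
      ((e + i) % 2 = 1 → He (p (i + 1)) (p i))) :
    (fun i : Fin (j + 1) => p i) ∈ PB G B He Q' D j := by
  unfold PB
  split_ifs with h
  · exact rs_RCs h1 h2
  · rcases hF j hj hjk with h4 | ⟨hodd, _⟩
    · exact absurd h4 h
    · by_cases he : e % 2 = 0
      · refine (mem_both _ _ _).2 (Or.inl (mem_RCh h1 h2 ?_))
        intro i hi
        exact ⟨fun h5 => (h3 i hi).1 (by omega), fun h5 => (h3 i hi).2 (by omega)⟩
      · refine (mem_both _ _ _).2 (Or.inr ?_)
        have h6 : (fun i : Fin (j + 1) => (fun i : Fin (j + 1) => p i) i.rev) =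
            (fun i : Fin (j + 1) => p (j - i)) := by
          funext i
          show p (i.rev : Fin (j + 1)).1 = p (j - i.1)
          have h5 : (i.rev : Fin (j + 1)).1 = j - i.1 := by
            rw [Fin.val_rev]
            omega
          rw [h5]
        rw [h6]
        · refine mem_RCh (p := fun i => p (j - i)) (pthV_rev hB h1) ?_ ?_
          · show B j (p (j - 0)) (p (j - j))
            rw [Nat.sub_zero, Nat.sub_self]
            exact hB _ _ _ h2
          · intro i hi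
            show (i % 2 = 0 → He (p (j - i)) (p (j - (i + 1)))) ∧
              (i % 2 = 1 → He (p (j - (i + 1))) (p (j - i)))
            have h5 := h3 (j - (i + 1)) (by omega)
            rw [show j - (i + 1) + 1 = j - i by omega] at h5
            exact ⟨fun h6 => h5.2 (by omega), fun h6 => h5.1 (by omega)⟩

end paths

section count

variable {κ V : Type} [Fintype κ] [Fintype V]

/-- the choices -/
noncomputable def ch (k : ℕ) (R : ℕ → V → V → Prop) (p : κ → κ) (ly : κ → ℕ) (v : κ)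
    (h : κ → V) : Finset V :=
  if Oc k R (ly (p v)) (h (p v)) then
    Finset.univ.filter (fun z => RL R (ly (p v)) (h (p v)) (ly v) z)
  else Finset.univ

/-- good maps -/
def Gd (R : ℕ → V → V → Prop) (p : κ → κ) (u0 : κ) (ly : κ → ℕ) (h : κ → V) : Prop :=
  ∀ v, v ≠ u0 → RL R (ly (p v)) (h (p v)) (ly v) (h v)

/-- light maps -/
def LtA (T : SimpleGraph κ) (B : ℕ → V → V → Prop) (k : ℕ) (h : κ → V) : Prop :=
  ∀ j (c : ℕ → κ), 2 ≤ j → j ≤ k + 1 → (∀ i, i < j → T.Adj (c i) (c (i + 1))) →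
    (∀ i i', i ≤ j → i' ≤ j → c i = c i' → i = i') → ¬ B j (h (c 0)) (h (c j))

lemma ch_ge {k m : ℕ} {R : ℕ → V → V → Prop} (hM : MinD k R m) {p : κ → κ} {ly : κ → ℕ}
    {v : κ} (hl : ly v = ly (p v) + 1 ∨ ly (p v) = ly v + 1) (h1 : ly v ≤ k + 1)
    (h2 : ly (p v) ≤ k + 1) (hm : m ≤ Fintype.card V) (h : κ → V) :
    m ≤ (ch k R p ly v h).card := by
  unfold ch
  split_ifs with h3
  · rcases hl with h4 | h4
    · refine (oc_up hM (by omega) h3).trans (Finset.card_le_card ?_)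
      intro z hz
      refine Finset.mem_filter.2 ⟨Finset.mem_univ _, fun _ => (Finset.mem_filter.1 hz).2, ?_⟩
      intro h5
      omega
    · rw [h4] at h3
      refine (oc_dn hM (by omega) h3).trans (Finset.card_le_card ?_)
      intro z hz
      refine Finset.mem_filter.2 ⟨Finset.mem_univ _, ?_, fun _ => (Finset.mem_filter.1 hz).2⟩
      intro h5
      omega
  · rw [Finset.card_univ]
    exact hm

omit [Fintype κ] in
lemma side {k : ℕ} {R : ℕ → V → V → Prop} [Fintype κ] {p : κ → κ} {u0 : κ} {rk : κ → ℕ}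
    (hp : ∀ v, v ≠ u0 → rk (p v) < rk v) {ly : κ → ℕ}
    (hl : ∀ v, v ≠ u0 → (ly v = ly (p v) + 1 ∨ ly (p v) = ly v + 1))
    (hly : ∀ v, ly v ≤ k + 1) {w : V} (hw : Oc k R (ly u0) w) {h : κ → V}
    (hh : h ∈ EX (ch k R p ly) {u0} (fun _ => w)) :
    ∀ (n : ℕ) (v : κ), rk v ≤ n → Oc k R (ly v) (h v) := by
  rw [mem_EX] at hh
  obtain ⟨h1, h2⟩ := hh
  have h0 : h u0 = w := h1 u0 (Finset.mem_singleton_self _)
  intro n
  induction n with
  | zero =>
    intro v hv
    by_cases hv0 : v = u0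
    · subst hv0
      rw [h0]
      exact hw
    · have := hp v hv0
      omega
  | succ n ih =>
    intro v hv
    by_cases hv0 : v = u0
    · subst hv0
      rw [h0]
      exact hw
    · have h3 := ih (p v) (by have := hp v hv0; omega)
      have h4 := h2 v (by simpa using hv0)
      unfold ch at h4
      rw [if_pos h3] at h4
      have h5 := (Finset.mem_filter.1 h4).2
      have h6 := hly v
      have h7 := hly (p v)
      rcases hl v hv0 with h8 | h8
      · exact Or.inr ⟨ly (p v), h8, by omega, _, h5.1 h8⟩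
      · exact Or.inl ⟨by omega, _, h5.2 h8⟩

lemma edge {k : ℕ} {R : ℕ → V → V → Prop} {p : κ → κ} {u0 : κ} {rk : κ → ℕ}
    (hp : ∀ v, v ≠ u0 → rk (p v) < rk v) {ly : κ → ℕ}
    (hl : ∀ v, v ≠ u0 → (ly v = ly (p v) + 1 ∨ ly (p v) = ly v + 1))
    (hly : ∀ v, ly v ≤ k + 1) {w : V} (hw : Oc k R (ly u0) w) {h : κ → V}
    (hh : h ∈ EX (ch k R p ly) {u0} (fun _ => w)) : Gd R p u0 ly h := by
  intro v hv0
  have h3 := side hp hl hly hw hh (rk (p v)) (p v) le_rfl
  rw [mem_EX] at hh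
  have h4 := hh.2 v (by simpa using hv0)
  unfold ch at h4
  rw [if_pos h3] at h4
  exact (Finset.mem_filter.1 h4).2

lemma count_ge {k m : ℕ} {R : ℕ → V → V → Prop} (hM : MinD k R m) {p : κ → κ} {u0 : κ}
    {rk : κ → ℕ} (hp : ∀ v, v ≠ u0 → rk (p v) < rk v) {ly : κ → ℕ}
    (hl : ∀ v, v ≠ u0 → (ly v = ly (p v) + 1 ∨ ly (p v) = ly v + 1))
    (hly : ∀ v, ly v ≤ k + 1) (f : ℕ) (hf : Fintype.card κ = f + 1) :
    (Finset.univ.filter (fun w => Oc k R (ly u0) w)).card * m ^ f ≤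
      (Finset.univ.filter (fun h : κ → V => Gd R p u0 ly h)).card := by
  have h1 : ∀ w ∈ Finset.univ.filter (fun w => Oc k R (ly u0) w),
      m ^ f ≤ ((Finset.univ.filter (fun h : κ → V => Gd R p u0 ly h)).filter
      (fun h => h u0 = w)).card := by
    intro w hw'
    have hw := (Finset.mem_filter.1 hw').2
    have h2 := ext_ge rk (ch k R p ly) (fun _ => m) ({u0} : Finset κ)ᶜ.card {u0}
      (fun _ => w) rfl
      (fun v hv φ ψ h => by
        unfold ch
        rw [h (p v) (hp v (by simpa using hv))])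
      (fun v hv φ => ch_ge hM (hl v (by simpa using hv)) (hly _) (hly _) (oc_V hM hw) φ)
    rw [Finset.prod_const, Finset.card_compl, Finset.card_singleton, hf, Nat.add_sub_cancel] at h2
    refine h2.trans (Finset.card_le_card ?_)
    intro h hh
    rw [Finset.mem_filter, Finset.mem_filter]
    refine ⟨⟨Finset.mem_univ _, edge hp hl hly hw hh⟩, ?_⟩
    exact ((mem_EX _ _ _ _).1 hh).1 u0 (Finset.mem_singleton_self _)
  calc _ = ∑ _w ∈ Finset.univ.filter (fun w => Oc k R (ly u0) w), m ^ f := by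
        rw [Finset.sum_const, smul_eq_mul]
    _ ≤ ∑ w ∈ Finset.univ.filter (fun w => Oc k R (ly u0) w),
      ((Finset.univ.filter (fun h : κ → V => Gd R p u0 ly h)).filter
      (fun h => h u0 = w)).card := Finset.sum_le_sum h1
    _ = ((Finset.univ.filter (fun w => Oc k R (ly u0) w)).biUnion
      (fun w => (Finset.univ.filter (fun h : κ → V => Gd R p u0 ly h)).filter
      (fun h => h u0 = w))).card := by
        rw [Finset.card_biUnion]
        intro a _ b _ hab
        rw [Function.onFun, Finset.disjoint_left]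
        intro h h3 h4
        exact hab (((Finset.mem_filter.1 h3).2).symm.trans (Finset.mem_filter.1 h4).2)
    _ ≤ _ := by
        refine Finset.card_le_card ?_
        intro h hh
        obtain ⟨w, _, h3⟩ := Finset.mem_biUnion.1 hh
        exact (Finset.mem_filter.1 h3).1

/-- homomorphisms with prescribed types along an injective sequence of coordinates -/
lemma bad_le (T : SimpleGraph κ) (hT : T.Connected) (G : SimpleGraph V) (D K : ℕ)
    (hG : AR G D K) (j : ℕ) (c : Fin (j + 1) → κ) (hc : Function.Injective c)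
    (X : Finset (Fin (j + 1) → V)) :
    (Finset.univ.filter (fun φ : κ → V => Hom T G φ ∧ (fun i => φ (c i)) ∈ X)).card ≤
      (K * D) ^ (Fintype.card κ - (j + 1)) * X.card := by
  have h1 := proj_seq T hT G D K hG (Finset.univ.image c) ⟨c 0, Finset.mem_image_of_mem _
    (Finset.mem_univ _)⟩
    (Finset.univ.filter (fun φ : κ → V => Hom T G φ ∧ (fun i => φ (c i)) ∈ X))
    (fun φ hφ => (Finset.mem_filter.1 hφ).2.1)
    (fun φ i => φ (c i))
    (fun φ _ ψ _ h u hu => by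
      obtain ⟨i, _, rfl⟩ := Finset.mem_image.1 hu
      exact congrFun h i) X
    (fun φ hφ => (Finset.mem_filter.1 hφ).2.2)
  rw [image_card _ _ hc, Finset.card_univ, Fintype.card_fin] at h1
  exact h1

lemma gd_adj {R : ℕ → V → V → Prop} {p : κ → κ} {u0 : κ} {rk : κ → ℕ}
    (hp : ∀ v, v ≠ u0 → rk (p v) < rk v) {ly : κ → ℕ}
    (hl : ∀ v, v ≠ u0 → (ly v = ly (p v) + 1 ∨ ly (p v) = ly v + 1))
    {h : κ → V} (hh : Gd R p u0 ly h) {u v : κ} (huv : (PT p u0).Adj u v) :
    RL R (ly u) (h u) (ly v) (h v) ∧ (ly v = ly u + 1 ∨ ly u = ly v + 1) := by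
  rcases (PT_adj p u0 rk hp u v).1 huv with ⟨h1, rfl⟩ | ⟨h1, rfl⟩
  · exact ⟨hh v h1, hl v h1⟩
  · exact ⟨RL_symm (hh u h1), (hl u h1).symm⟩

/-- a bad map has a bad path -/
lemma bad_path {k : ℕ} {R : ℕ → V → V → Prop} {p : κ → κ} {u0 : κ} {rk : κ → ℕ}
    (hp : ∀ v, v ≠ u0 → rk (p v) < rk v) {ly : κ → ℕ}
    (hl : ∀ v, v ≠ u0 → (ly v = ly (p v) + 1 ∨ ly (p v) = ly v + 1))
    (hly : ∀ v, ly v ≤ k + 1) {G : SimpleGraph V} {B : ℕ → V → V → Prop}
    {He : V → V → Prop} {Q' D : ℕ} (hst : Hst G He k R) (hB : BSy B)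
    (hF : Few G k B He Q' D) {h : κ → V} (hh : Gd R p u0 ly h) (hi : Function.Injective h)
    (hL : ¬ LtA (PT p u0) B k h) :
    ∃ (j : ℕ) (c : ℕ → κ), 2 ≤ j ∧ j ≤ k + 1 ∧ (∀ i i', i ≤ j → i' ≤ j → c i = c i' → i = i') ∧
      (fun i : Fin (j + 1) => h (c i)) ∈ PB G B He Q' D j := by
  have hex : ∃ j, ∃ (c : ℕ → κ), 2 ≤ j ∧ j ≤ k + 1 ∧
      (∀ i, i < j → (PT p u0).Adj (c i) (c (i + 1))) ∧
      (∀ i i', i ≤ j → i' ≤ j → c i = c i' → i = i') ∧ B j (h (c 0)) (h (c j)) := by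
    unfold LtA at hL
    push Not at hL
    obtain ⟨j, c, h1, h2, h3, h4, h5⟩ := hL
    exact ⟨j, c, h1, h2, h3, h4, h5⟩
  obtain ⟨j, ⟨c, h1, h2, h3, h4, h5⟩, hmin⟩ : ∃ j, (∃ (c : ℕ → κ), 2 ≤ j ∧ j ≤ k + 1 ∧
      (∀ i, i < j → (PT p u0).Adj (c i) (c (i + 1))) ∧
      (∀ i i', i ≤ j → i' ≤ j → c i = c i' → i = i') ∧ B j (h (c 0)) (h (c j))) ∧
      ∀ j' < j, ¬ (∃ (c : ℕ → κ), 2 ≤ j' ∧ j' ≤ k + 1 ∧
      (∀ i, i < j' → (PT p u0).Adj (c i) (c (i + 1))) ∧
      (∀ i i', i ≤ j' → i' ≤ j' → c i = c i' → i = i') ∧ B j' (h (c 0)) (h (c j'))) :=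
    ⟨Nat.find hex, Nat.find_spec hex, fun j' hj' => Nat.find_min hex hj'⟩
  have hpar : ∀ i, i ≤ j → ly (c i) % 2 = (ly (c 0) + i) % 2 := by
    intro i
    induction i with
    | zero =>
      intro _
      rfl
    | succ i ih =>
      intro hij
      have h6 := ih (by omega)
      have h7 := (gd_adj hp hl hh (h3 i (by omega))).2
      omega
  refine ⟨j, c, h1, h2, h4, ?_⟩
  refine PB_mem (p := fun i => h (c i)) hB hF h1 h2 ?_ h5 (ly (c 0)) ?_
  · refine ⟨?_, ?_, ?_⟩
    · intro i hij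
      obtain ⟨h6, h7⟩ := gd_adj hp hl hh (h3 i hij)
      exact RL_adj (fun i hi a b hab => (hst i hi a b hab).1) (hly _) (hly _) h7 h6
    · intro i i' hij hij' he
      exact h4 i i' hij hij' (hi he)
    · intro a b hab hb h6 h7 h8
      refine hmin (b - a) h7 ⟨fun i => c (a + i), h6, by omega, ?_, ?_, ?_⟩
      · intro i hi'
        exact h3 (a + i) (by omega)
      · intro i i' hi1 hi2 he
        have := h4 (a + i) (a + i') (by omega) (by omega) he
        omega
      · show B (b - a) (h (c (a + 0))) (h (c (a + (b - a))))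
        rw [Nat.add_zero, show a + (b - a) = b by omega]
        exact h8
  · intro i hij
    obtain ⟨h6, h7⟩ := gd_adj hp hl hh (h3 i hij)
    have h8 := RL_he hst (hly _) (hly _) h7 h6
    have h9 := hpar i hij.le
    exact ⟨fun h10 => h8.1 (by omega), fun h10 => h8.2 (by omega)⟩

/-- the light injective good maps -/
lemma core_init [Nonempty V] {k md : ℕ} {R : ℕ → V → V → Prop} {p : κ → κ} {u0 : κ}
    {rk : κ → ℕ} (hp : ∀ v, v ≠ u0 → rk (p v) < rk v) {ly : κ → ℕ}
    (hl : ∀ v, v ≠ u0 → (ly v = ly (p v) + 1 ∨ ly (p v) = ly v + 1))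
    (hly : ∀ v, ly v ≤ k + 1) {G : SimpleGraph V} {B : ℕ → V → V → Prop}
    {He : V → V → Prop} {D K Q Q' f m M W : ℕ}
    (hG : AR G D K) (hf : Fintype.card κ = f + 1) (hf1 : 1 ≤ f) (hfm : f ≤ m) (hK : 0 < K)
    (hQ : 0 < Q) (hst : Hst G He k R) (hMD : MinD k R md) (hDm : D ≤ Q * md)
    (hWW : Fintype.card V * D ^ (k + 1) ≤ Q * WW k R) (hB : BSy B)
    (hM : M = Q ^ (m + 1) * K ^ (k + 1)) (hW : W = (k + 2) * (m + 1) ^ (k + 2))
    (hD : 4 * M * (m + 1) ^ 2 * K ^ m + 1 ≤ D) (hQ' : 8 * M * W * K ^ m ≤ Q')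
    (hF : Few G k B He Q' D) :
    ∃ 𝓖 : Finset (κ → V), (∀ h ∈ 𝓖, Function.Injective h ∧ LtA (PT p u0) B k h ∧
      Gd R p u0 ly h) ∧ Fintype.card V * D ^ f ≤ Q' * 𝓖.card := by
  obtain ⟨N, hN⟩ : ∃ N, N = Fintype.card V := ⟨_, rfl⟩
  have hD0 : 0 < D := by omega
  have hR : ∀ i, i ≤ k → ∀ a b, R i a b → G.Adj a b := fun i hi a b hab => (hst i hi a b hab).1
  have hWpos : 0 < W := by rw [hW]; positivity
  have hMpos : 0 < M := by rw [hM]; positivity
  -- the number of base vertices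
  obtain ⟨A, hA⟩ : ∃ A, A = (Finset.univ.filter (fun w => Oc k R (ly u0) w)).card := ⟨_, rfl⟩
  have hwalk := walk_le hG hR (ly u0) (hly u0)
  rw [← hA] at hwalk
  have hcnt := count_ge hMD hp hl hly f hf
  rw [← hA] at hcnt
  rw [← hN] at hWW
  have hAc : N ≤ Q * K ^ (k + 1) * A := by
    have h1 : N * D ^ (k + 1) ≤ (Q * K ^ (k + 1) * A) * D ^ (k + 1) := by
      calc N * D ^ (k + 1) ≤ Q * WW k R := hWW
        _ ≤ Q * ((K * D) ^ (k + 1) * A) := Nat.mul_le_mul_left _ hwalk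
        _ = (Q * K ^ (k + 1) * A) * D ^ (k + 1) := by rw [mul_pow]; ring
    exact Nat.le_of_mul_le_mul_right h1 (by positivity)
  obtain ⟨𝓗, h𝓗⟩ : ∃ 𝓗, 𝓗 = Finset.univ.filter (fun h : κ → V => Gd R p u0 ly h) := ⟨_, rfl⟩
  rw [← h𝓗] at hcnt
  have hbig : N * D ^ f ≤ M * 𝓗.card := by
    calc N * D ^ f ≤ (Q * K ^ (k + 1) * A) * (Q * md) ^ f :=
          Nat.mul_le_mul hAc (Nat.pow_le_pow_left hDm f)
      _ = (Q ^ (f + 1) * K ^ (k + 1)) * (A * md ^ f) := by rw [mul_pow]; ring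
      _ ≤ (Q ^ (m + 1) * K ^ (k + 1)) * 𝓗.card := by
          refine Nat.mul_le_mul (Nat.mul_le_mul_right _ ?_) hcnt
          exact Nat.pow_le_pow_right hQ (by omega)
      _ = M * 𝓗.card := by rw [hM]
  have hG𝓗 : ∀ h ∈ 𝓗, Gd R p u0 ly h := by
    intro h hh
    rw [h𝓗] at hh
    exact (Finset.mem_filter.1 hh).2
  have hHom : ∀ h ∈ 𝓗, Hom (PT p u0) G h := by
    intro h hh u v huv
    obtain ⟨h6, h7⟩ := gd_adj hp hl (hG𝓗 h hh) huv
    exact RL_adj hR (hly _) (hly _) h7 h6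
  obtain ⟨n1, hn1⟩ : ∃ n1, n1 = (Finset.univ.filter (fun φ : κ → V => Hom (PT p u0) G φ ∧
    ¬ Function.Injective φ)).card := ⟨_, rfl⟩
  obtain ⟨𝓨, h𝓨⟩ : ∃ 𝓨 : Finset (κ → V), 𝓨 = 𝓗.filter (fun φ : κ → V =>
    Function.Injective φ ∧ ¬ LtA (PT p u0) B k φ) := ⟨_, rfl⟩
  have hb1 : n1 ≤ (f + 1) ^ 2 * (N * (K * D) ^ (f - 1)) := by
    have h1 := noninj_le (PT p u0) (PT_conn p u0 rk hp) G D K hG
    rw [← hn1, hf, ← hN, show f + 1 - 2 = f - 1 by omega] at h1
    exact h1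
  have hKm : ∀ j, j ≤ m → K ^ j ≤ K ^ m := fun j hj => Nat.pow_le_pow_right hK hj
  have hb1' : 4 * M * n1 ≤ N * D ^ f := by
    obtain ⟨e, he⟩ : ∃ e, f = e + 1 := ⟨f - 1, by omega⟩
    subst he
    rw [Nat.add_sub_cancel] at hb1
    calc 4 * M * n1 ≤ 4 * M * ((e + 1 + 1) ^ 2 * (N * (K * D) ^ e)) :=
          Nat.mul_le_mul_left _ hb1
      _ = (4 * M * (e + 1 + 1) ^ 2 * K ^ e) * (N * D ^ e) := by rw [mul_pow]; ring
      _ ≤ (4 * M * (m + 1) ^ 2 * K ^ m) * (N * D ^ e) := by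
          refine Nat.mul_le_mul_right _ (Nat.mul_le_mul (Nat.mul_le_mul_left _ ?_)
            (hKm e (by omega)))
          exact Nat.pow_le_pow_left (by omega) 2
      _ ≤ D * (N * D ^ e) := Nat.mul_le_mul_right _ (by omega)
      _ = N * D ^ (e + 1) := by ring
  -- the maps with a bad path
  obtain ⟨I, hI⟩ : ∃ I : Finset (ℕ × (Fin (k + 1 + 1) → κ)), I = (Finset.range (k + 2) ×ˢ
    (Finset.univ : Finset (Fin (k + 1 + 1) → κ))).filter (fun z => 2 ≤ z.1 ∧
      Function.Injective (fun i : Fin (z.1 + 1) => ex (k + 1) z.2 i)) := ⟨_, rfl⟩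
  have hIc : I.card ≤ W := by
    rw [hI]
    refine (Finset.card_filter_le _ _).trans ?_
    rw [Finset.card_product, Finset.card_range, Finset.card_univ, Fintype.card_fun,
      Fintype.card_fin, hf, hW]
    exact Nat.mul_le_mul_left _ (Nat.pow_le_pow_left (by omega) _)
  have hYsub : 𝓨 ⊆ I.biUnion (fun z => Finset.univ.filter (fun φ : κ → V =>
      Hom (PT p u0) G φ ∧ (fun i : Fin (z.1 + 1) => φ (ex (k + 1) z.2 i)) ∈
        PB G B He Q' D z.1)) := by
    intro h hh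
    rw [h𝓨] at hh
    obtain ⟨h1, h2, h3⟩ := Finset.mem_filter.1 hh
    obtain ⟨j, c, h4, h5, h6, h7⟩ := bad_path hp hl hly hst hB hF (hG𝓗 h h1) h2 h3
    have hex : ∀ i, i ≤ k + 1 → ex (k + 1) (fun i : Fin (k + 1 + 1) => c i) i = c i :=
      fun i hi => ex_eq c i hi
    refine Finset.mem_biUnion.2 ⟨(j, fun i : Fin (k + 1 + 1) => c i), ?_, ?_⟩
    · rw [hI, Finset.mem_filter, Finset.mem_product]
      refine ⟨⟨Finset.mem_range.2 (by omega), Finset.mem_univ _⟩, h4, ?_⟩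
      intro i i' he
      have he' : ex (k + 1) (fun i : Fin (k + 1 + 1) => c i) i.1 =
        ex (k + 1) (fun i : Fin (k + 1 + 1) => c i) i'.1 := he
      have hi := i.2
      have hi' := i'.2
      simp only at hi hi'
      rw [hex i.1 (by omega), hex i'.1 (by omega)] at he'
      exact Fin.ext (h6 i.1 i'.1 (by omega) (by omega) he')
    · refine Finset.mem_filter.2 ⟨Finset.mem_univ _, hHom h h1, ?_⟩
      have h8 : (fun i : Fin (j + 1) => h (ex (k + 1) (fun i : Fin (k + 1 + 1) => c i) i)) =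
          (fun i : Fin (j + 1) => h (c i)) := by
        funext i
        rw [hex i.1 (by omega)]
      show (fun i : Fin (j + 1) => h (ex (k + 1) (fun i : Fin (k + 1 + 1) => c i) i)) ∈
        PB G B He Q' D j
      rw [h8]
      exact h7
  have hz : ∀ z ∈ I, 4 * M * W * (Finset.univ.filter (fun φ : κ → V =>
      Hom (PT p u0) G φ ∧ (fun i : Fin (z.1 + 1) => φ (ex (k + 1) z.2 i)) ∈
        PB G B He Q' D z.1)).card ≤ N * D ^ f := by
    rintro ⟨j, c⟩ hz
    rw [hI, Finset.mem_filter, Finset.mem_product] at hz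
    obtain ⟨⟨h1, _⟩, h2, h3⟩ := hz
    simp only at h1 h2 h3 ⊢
    rw [Finset.mem_range] at h1
    have h4 := bad_le (PT p u0) (PT_conn p u0 rk hp) G D K hG j
      (fun i : Fin (j + 1) => ex (k + 1) c i) h3 (PB G B He Q' D j)
    have h5 : j + 1 ≤ f + 1 := by
      have := Fintype.card_le_of_injective _ h3
      rw [Fintype.card_fin, hf] at this
      exact this
    rw [hf, show f + 1 - (j + 1) = f - j by omega] at h4
    have h6 := PB_card (j := j) hF h2 (by omega)
    rw [← hN] at h6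
    have h7 : 2 * (4 * M * W * ((K * D) ^ (f - j) * (PB G B He Q' D j).card)) ≤
        2 * (N * D ^ f) := by
      calc 2 * (4 * M * W * ((K * D) ^ (f - j) * (PB G B He Q' D j).card))
          = (8 * M * W * K ^ (f - j)) * (D ^ (f - j) * (PB G B He Q' D j).card) := by
            rw [mul_pow]; ring
        _ ≤ (8 * M * W * K ^ m) * (D ^ (f - j) * (PB G B He Q' D j).card) := by
            refine Nat.mul_le_mul_right _ (Nat.mul_le_mul_left _ (hKm _ (by omega)))
        _ ≤ Q' * (D ^ (f - j) * (PB G B He Q' D j).card) := Nat.mul_le_mul_right _ hQ'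
        _ = D ^ (f - j) * ((PB G B He Q' D j).card * Q') := by ring
        _ ≤ D ^ (f - j) * (2 * (N * D ^ j)) := Nat.mul_le_mul_left _ h6
        _ = 2 * (N * (D ^ (f - j) * D ^ j)) := by ring
        _ = 2 * (N * D ^ f) := by rw [← pow_add, show f - j + j = f by omega]
    have h8 := Nat.mul_le_mul_left (4 * M * W) h4
    omega
  have hb2' : 4 * M * 𝓨.card ≤ N * D ^ f := by
    have h1 : 𝓨.card ≤ ∑ z ∈ I, (Finset.univ.filter (fun φ : κ → V =>
      Hom (PT p u0) G φ ∧ (fun i : Fin (z.1 + 1) => φ (ex (k + 1) z.2 i)) ∈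
        PB G B He Q' D z.1)).card :=
      (Finset.card_le_card hYsub).trans Finset.card_biUnion_le
    have h2 : W * (4 * M * 𝓨.card) ≤ W * (N * D ^ f) := by
      calc W * (4 * M * 𝓨.card) = 4 * M * W * 𝓨.card := by ring
        _ ≤ 4 * M * W * ∑ z ∈ I, (Finset.univ.filter (fun φ : κ → V =>
          Hom (PT p u0) G φ ∧ (fun i : Fin (z.1 + 1) => φ (ex (k + 1) z.2 i)) ∈
            PB G B He Q' D z.1)).card := Nat.mul_le_mul_left _ h1
        _ = ∑ z ∈ I, 4 * M * W * (Finset.univ.filter (fun φ : κ → V =>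
          Hom (PT p u0) G φ ∧ (fun i : Fin (z.1 + 1) => φ (ex (k + 1) z.2 i)) ∈
            PB G B He Q' D z.1)).card := Finset.mul_sum _ _ _
        _ ≤ ∑ _z ∈ I, N * D ^ f := Finset.sum_le_sum hz
        _ = I.card * (N * D ^ f) := by rw [Finset.sum_const, smul_eq_mul]
        _ ≤ W * (N * D ^ f) := Nat.mul_le_mul_right _ hIc
    exact Nat.le_of_mul_le_mul_left h2 hWpos
  refine ⟨𝓗.filter (fun h => Function.Injective h ∧ LtA (PT p u0) B k h), ?_, ?_⟩
  · intro h hh
    obtain ⟨h1, h2, h3⟩ := Finset.mem_filter.1 hh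
    exact ⟨h2, h3, hG𝓗 h h1⟩
  · obtain ⟨s, hs'⟩ : ∃ s, s = (𝓗.filter (fun h => Function.Injective h ∧
      LtA (PT p u0) B k h)).card := ⟨_, rfl⟩
    rw [← hs', ← hN]
    have h1 : 𝓗.card ≤ s + (n1 + 𝓨.card) := by
      rw [hs', hn1, h𝓨]
      refine le_trans (Finset.card_le_card ?_) ((Finset.card_union_le _ _).trans
        (Nat.add_le_add_left (Finset.card_union_le _ _) _))
      intro h hh
      have h2 := hHom h hh
      by_cases hi : Function.Injective h
      · by_cases hl' : LtA (PT p u0) B k h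
        · exact Finset.mem_union.2 (Or.inl (Finset.mem_filter.2 ⟨hh, hi, hl'⟩))
        · exact Finset.mem_union.2 (Or.inr (Finset.mem_union.2 (Or.inr
            (Finset.mem_filter.2 ⟨hh, hi, hl'⟩))))
      · exact Finset.mem_union.2 (Or.inr (Finset.mem_union.2 (Or.inl
          (Finset.mem_filter.2 ⟨Finset.mem_univ _, h2, hi⟩))))
    have h2 : M * 𝓗.card ≤ M * (s + (n1 + 𝓨.card)) := Nat.mul_le_mul_left _ h1
    have h3 : N * D ^ f ≤ 2 * M * s := by nlinarith
    refine h3.trans (Nat.mul_le_mul_right _ (le_trans ?_ hQ'))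
    have h4 : 0 < W * K ^ m := by positivity
    calc 2 * M ≤ 8 * M := by omega
      _ ≤ 8 * M * (W * K ^ m) := Nat.le_mul_of_pos_right _ h4
      _ = _ := by ring

end count

section tree

variable {k : ℕ} {ι : Type} [Fintype ι]

lemma mem_UC (T : TE k ι) (F : Finset ι) (c : ι ⊕ ι) :
    c ∈ UC T F ↔ (∃ x ∈ F, c = Sum.inl x) ∨ ∃ q ∈ F, T.Qn q ∧ c = Sum.inr q := by
  unfold UC
  simp

lemma mem_FC (T : TE k ι) (F : Finset ι) (c : ι ⊕ ι) :
    c ∈ FC T F ↔ (∃ x ∈ F, c = Sum.inl x) ∨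
      ∃ q ∈ F, T.Qn q ∧ T.par q ∈ F ∧ c = Sum.inr q := by
  unfold FC
  simp

omit [Fintype ι] in
/-- the node with the parent at the top -/
lemma exists_q0 (T : TE k ι) (U : Finset ι) (hU : AncC T U) (hne : (U.erase T.top).Nonempty) :
    ∃ q ∈ U.erase T.top, T.par q = T.top := by
  obtain ⟨q, hq, hmin⟩ := Finset.exists_min_image (U.erase T.top) T.dp hne
  refine ⟨q, hq, ?_⟩
  by_contra hcon
  obtain ⟨h1, h2⟩ := Finset.mem_erase.1 hq
  have h3 := hmin (T.par q) (Finset.mem_erase.2 ⟨hcon, hU q h2 h1⟩)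
  have h4 := T.dp_par q h1
  omega

/-- the predecessor of a coordinate -/
noncomputable def pc (T : TE k ι) (F : Finset ι) : ι ⊕ ι → ι ⊕ ι
  | Sum.inl x => if T.par x ∈ F then Sum.inl (T.par x) else Sum.inr x
  | Sum.inr q => Sum.inl q

/-- the rank of a coordinate -/
noncomputable def rc (T : TE k ι) (F : Finset ι) : ι ⊕ ι → ℕ
  | Sum.inl x => 2 * T.dp x + 1
  | Sum.inr q => if T.par q ∈ F then 2 * T.dp q + 2 else 0

/-- the layer of a coordinate -/
noncomputable def lc (T : TE k ι) : ι ⊕ ι → ℕ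
  | Sum.inl x => if T.kb x = true then k + 1 - T.ps x else T.ps x
  | Sum.inr q => if T.Cn q then (if T.kb q = true then k else 1)
      else (if T.kb q = true then 0 else k + 1)

/-- the shape of the set of nodes -/
structure Shp (T : TE k ι) (F : Finset ι) (q0 : ι) : Prop where
  top : T.top ∉ F
  mem : q0 ∈ F
  par : T.par q0 = T.top
  uni : ∀ x ∈ F, T.par x ∉ F → x = q0

omit [Fintype ι] in
lemma shp_ne {T : TE k ι} {F : Finset ι} {q0 : ι} (h : Shp T F q0) {x : ι} (hx : x ∈ F) :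
    x ≠ T.top := fun h' => h.top (h' ▸ hx)

omit [Fintype ι] in
lemma shp_Cn {T : TE k ι} {F : Finset ι} {q0 : ι} (h : Shp T F q0) : T.Cn q0 :=
  T.topc q0 (shp_ne h h.mem) h.par

omit [Fintype ι] in
lemma shp_Qn {T : TE k ι} {F : Finset ι} {q0 : ι} (h : Shp T F q0) : T.Qn q0 :=
  Or.inl (shp_Cn h)

omit [Fintype ι] in
lemma shp_parF {T : TE k ι} {F : Finset ι} {q0 : ι} (h : Shp T F q0) : T.par q0 ∉ F := by
  rw [h.par]
  exact h.top

lemma pc_mem {T : TE k ι} {F : Finset ι} {q0 : ι} (h : Shp T F q0) (c : ι ⊕ ι)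
    (hc : c ∈ UC T F) : pc T F c ∈ UC T F := by
  rw [mem_UC] at hc ⊢
  rcases hc with ⟨x, hx, rfl⟩ | ⟨q, hq, _, rfl⟩
  · by_cases h1 : T.par x ∈ F
    · left
      exact ⟨T.par x, h1, by simp [pc, h1]⟩
    · right
      have h2 := h.uni x hx h1
      refine ⟨x, hx, ?_, by simp [pc, h1]⟩
      rw [h2]
      exact shp_Qn h
  · left
    exact ⟨q, hq, rfl⟩

lemma rc_lt {T : TE k ι} {F : Finset ι} {q0 : ι} (h : Shp T F q0) (c : ι ⊕ ι)
    (hc : c ∈ UC T F) (hne : c ≠ Sum.inr q0) : rc T F (pc T F c) < rc T F c := by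
  rw [mem_UC] at hc
  rcases hc with ⟨x, hx, rfl⟩ | ⟨q, hq, _, rfl⟩
  · by_cases h1 : T.par x ∈ F
    · have h2 := T.dp_par x (shp_ne h hx)
      simp only [pc, h1, if_true, rc]
      omega
    · simp only [pc, h1, if_false, rc]
      omega
  · by_cases h1 : T.par q ∈ F
    · simp only [pc, rc, h1, if_true]
      omega
    · exact absurd (by rw [h.uni q hq h1]) hne

omit [Fintype ι] in
lemma ps_le {T : TE k ι} {F : Finset ι} {q0 : ι} (h : Shp T F q0) {x : ι} (hx : x ∈ F) :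
    T.ps x ≤ k := by
  by_cases hC : T.Cn x
  · rw [T.C_ps x hC]
    exact Nat.zero_le _
  · exact (T.N_ps x (shp_ne h hx) hC).2.1

lemma lc_le {T : TE k ι} {F : Finset ι} {q0 : ι} (h : Shp T F q0) (c : ι ⊕ ι)
    (hc : c ∈ UC T F) : lc T c ≤ k + 1 := by
  rw [mem_UC] at hc
  rcases hc with ⟨x, hx, rfl⟩ | ⟨q, hq, _, rfl⟩
  · have h1 := ps_le h hx
    simp only [lc]
    split_ifs <;> omega
  · simp only [lc]
    split_ifs <;> omega

omit [Fintype ι] in
/-- layers of a node and its root -/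
lemma lc_root {T : TE k ι} {F : Finset ι} {q0 : ι} (h : Shp T F q0) (hk : 1 ≤ k) {x : ι}
    (hx : x ∈ F) (hQ : T.Qn x) :
    (lc T (Sum.inr x) = lc T (Sum.inl x) + 1 ∨ lc T (Sum.inl x) = lc T (Sum.inr x) + 1) ∧
    ∀ {V : Type} (R : ℕ → V → V → Prop) (a b : V),
      RL R (lc T (Sum.inr x)) a (lc T (Sum.inl x)) b → RR T R x a b := by
  by_cases hC : T.Cn x
  · have h0 := T.C_ps x hC
    cases hb : T.kb x with
    | false =>
      have e1 : lc T (Sum.inl x) = 0 := by simp [lc, hb, h0]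
      have e2 : lc T (Sum.inr x) = 1 := by simp [lc, hb, hC]
      rw [e1, e2]
      refine ⟨Or.inl rfl, ?_⟩
      intro V R a b hab
      unfold RR Stp
      rw [if_pos hC, hb]
      simpa using hab.2 rfl
    | true =>
      have e1 : lc T (Sum.inl x) = k + 1 := by simp [lc, hb, h0]
      have e2 : lc T (Sum.inr x) = k := by simp [lc, hb, hC]
      rw [e1, e2]
      refine ⟨Or.inr rfl, ?_⟩
      intro V R a b hab
      unfold RR Stp
      rw [if_pos hC, hb]
      simpa using hab.1 rfl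
  · have hL : T.Ln x := hQ.resolve_left hC
    have h0 : T.ps x = k := ((T.L_iff x).1 hL).2.2
    cases hb : T.kb x with
    | false =>
      have e1 : lc T (Sum.inl x) = k := by simp [lc, hb, h0]
      have e2 : lc T (Sum.inr x) = k + 1 := by simp [lc, hb, hC]
      rw [e1, e2]
      refine ⟨Or.inl rfl, ?_⟩
      intro V R a b hab
      unfold RR Stp
      rw [if_neg hC, hb]
      simpa using hab.2 rfl
    | true =>
      have e1 : lc T (Sum.inl x) = 1 := by
        simp only [lc, hb, if_true, h0]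
        omega
      have e2 : lc T (Sum.inr x) = 0 := by simp [lc, hb, hC]
      rw [e1, e2]
      refine ⟨Or.inr rfl, ?_⟩
      intro V R a b hab
      unfold RR Stp
      rw [if_neg hC, hb]
      simpa using hab.1 rfl

omit [Fintype ι] in
/-- layers of a node and its parent -/
lemma lc_par {T : TE k ι} {F : Finset ι} {q0 : ι} (h : Shp T F q0) {x : ι}
    (hx : x ∈ F) (hpx : T.par x ∈ F) :
    (lc T (Sum.inl x) = lc T (Sum.inl (T.par x)) + 1 ∨
      lc T (Sum.inl (T.par x)) = lc T (Sum.inl x) + 1) ∧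
    ∀ {V : Type} (R : ℕ → V → V → Prop) (a b : V),
      RL R (lc T (Sum.inl (T.par x))) a (lc T (Sum.inl x)) b → ER T R x a b := by
  by_cases hC : T.Cn x
  · have h0 := T.C_ps x hC
    obtain ⟨_, _, h1, h2⟩ := T.C_par x hC (shp_ne h hpx)
    cases hb : T.kb (T.par x) with
    | false =>
      rw [hb] at h2
      have e1 : lc T (Sum.inl x) = k + 1 := by simp [lc, h2, h0]
      have e2 : lc T (Sum.inl (T.par x)) = k := by simp [lc, hb, h1]
      rw [e1, e2]
      refine ⟨Or.inl rfl, ?_⟩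
      intro V R a b hab
      unfold ER Stp
      rw [if_pos hC, h2]
      simpa using hab.1 rfl
    | true =>
      rw [hb] at h2
      have e1 : lc T (Sum.inl x) = 0 := by simp [lc, h2, h0]
      have e2 : lc T (Sum.inl (T.par x)) = 1 := by
        simp only [lc, hb, if_true, h1]
        omega
      rw [e1, e2]
      refine ⟨Or.inr rfl, ?_⟩
      intro V R a b hab
      unfold ER Stp
      rw [if_pos hC, h2]
      simpa using hab.2 rfl
  · obtain ⟨h0, h1, h2⟩ := T.N_ps x (shp_ne h hx) hC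
    cases hb : T.kb (T.par x) with
    | false =>
      rw [hb] at h2
      have e1 : lc T (Sum.inl x) = T.ps (T.par x) + 1 := by simp [lc, h2, h0]
      have e2 : lc T (Sum.inl (T.par x)) = T.ps (T.par x) := by simp [lc, hb]
      rw [e1, e2]
      refine ⟨Or.inl rfl, ?_⟩
      intro V R a b hab
      unfold ER Stp
      rw [if_neg hC, h2, h0]
      simpa using hab.1 rfl
    | true =>
      rw [hb] at h2
      have e1 : lc T (Sum.inl x) = k - T.ps (T.par x) := by
        simp only [lc, h2, if_true, h0]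
        omega
      have e2 : lc T (Sum.inl (T.par x)) = k - T.ps (T.par x) + 1 := by
        simp only [lc, hb, if_true]
        omega
      rw [e1, e2]
      refine ⟨Or.inr rfl, ?_⟩
      intro V R a b hab
      unfold ER Stp
      rw [if_neg hC, h2, h0]
      simpa using hab.2 rfl

lemma lc_step {T : TE k ι} {F : Finset ι} {q0 : ι} (h : Shp T F q0) (hk : 1 ≤ k) (c : ι ⊕ ι)
    (hc : c ∈ UC T F) (hne : c ≠ Sum.inr q0) :
    lc T c = lc T (pc T F c) + 1 ∨ lc T (pc T F c) = lc T c + 1 := by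
  rw [mem_UC] at hc
  rcases hc with ⟨x, hx, rfl⟩ | ⟨q, hq, hQ, rfl⟩
  · by_cases h1 : T.par x ∈ F
    · have h2 := (lc_par h hx h1).1
      simp only [pc, h1, if_true]
      exact h2
    · have h3 : T.Qn x := by
        rw [h.uni x hx h1]
        exact shp_Qn h
      have h2 := (lc_root h hk hx h3).1
      simp only [pc, h1, if_false]
      exact h2.symm
  · exact (lc_root h hk hq hQ).1

lemma card_UC {T : TE k ι} {F : Finset ι} {q0 : ι} (h : Shp T F q0) :
    (UC T F).card = (FC T F).card + 1 := by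
  have h1 : Sum.inr q0 ∉ FC T F := by
    rw [mem_FC]
    rintro (⟨x, _, hx⟩ | ⟨q, _, _, hq, he⟩)
    · simp at hx
    · have : q0 = q := Sum.inr.inj he
      rw [← this] at hq
      exact shp_parF h hq
  have h2 : UC T F = insert (Sum.inr q0) (FC T F) := by
    ext c
    rw [Finset.mem_insert, mem_UC, mem_FC]
    constructor
    · rintro (⟨x, hx, rfl⟩ | ⟨q, hq, hQ, rfl⟩)
      · exact Or.inr (Or.inl ⟨x, hx, rfl⟩)
      · by_cases h3 : T.par q ∈ F
        · exact Or.inr (Or.inr ⟨q, hq, hQ, h3, rfl⟩)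
        · exact Or.inl (by rw [h.uni q hq h3])
    · rintro (rfl | ⟨x, hx, rfl⟩ | ⟨q, hq, hQ, _, rfl⟩)
      · exact Or.inr ⟨q0, h.mem, shp_Qn h, rfl⟩
      · exact Or.inl ⟨x, hx, rfl⟩
      · exact Or.inr ⟨q, hq, hQ, rfl⟩
  rw [h2, Finset.card_insert_of_notMem h1]

/-- the coordinates in use -/
abbrev UK (T : TE k ι) (F : Finset ι) : Type := {c : ι ⊕ ι // c ∈ UC T F}

/-- extension by a constant -/
noncomputable def xt {V : Type} (T : TE k ι) (F : Finset ι) (v0 : V) (h : UK T F → V) :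
    ι ⊕ ι → V := fun c => if hc : c ∈ UC T F then h ⟨c, hc⟩ else v0

lemma xt_eq {V : Type} (T : TE k ι) (F : Finset ι) (v0 : V) (h : UK T F → V) (c : ι ⊕ ι)
    (hc : c ∈ UC T F) : xt T F v0 h c = h ⟨c, hc⟩ := by
  unfold xt
  rw [dif_pos hc]

/-- light injective good maps give members of the family -/
lemma fam_of {V : Type} [Fintype V] {T : TE k ι} {F : Finset ι} {q0 : ι} (hF : Shp T F q0)
    (hk : 1 ≤ k) (G : SimpleGraph V) (R : ℕ → V → V → Prop)
    (hR : ∀ i, i ≤ k → ∀ a b, R i a b → G.Adj a b) (v0 : V) (B : ℕ → V → V → Prop)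
    (p : UK T F → UK T F) (hp : ∀ c, (p c).1 = pc T F c.1) (u0 : UK T F)
    (hu0 : u0.1 = Sum.inr q0) (rk : UK T F → ℕ) (hrk : ∀ v, v ≠ u0 → rk (p v) < rk v)
    (h : UK T F → V) (h1 : Function.Injective h) (h2 : LtA (PT p u0) B k h)
    (h3 : Gd R p u0 (fun c => lc T c.1) h) :
    Fam T G (ER T R) (RR T R) B v0 F (fun _ => h u0) (fun _ => True) (xt T F v0 h) := by
  have hin : ∀ x ∈ F, (Sum.inl x : ι ⊕ ι) ∈ UC T F := fun x hx =>
    (mem_UC T F _).2 (Or.inl ⟨x, hx, rfl⟩)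
  have hir : ∀ x ∈ F, T.Qn x → (Sum.inr x : ι ⊕ ι) ∈ UC T F := fun x hx hQ =>
    (mem_UC T F _).2 (Or.inr ⟨x, hx, hQ, rfl⟩)
  have hl0 : ∀ x (hx : (Sum.inl x : ι ⊕ ι) ∈ UC T F), (⟨Sum.inl x, hx⟩ : UK T F) ≠ u0 := by
    intro x hx he
    have := congrArg Subtype.val he
    rw [hu0] at this
    simp at this
  have hr0 : ∀ x (hx : (Sum.inr x : ι ⊕ ι) ∈ UC T F), T.par x ∈ F →
      (⟨Sum.inr x, hx⟩ : UK T F) ≠ u0 := by
    intro x hx hpx he
    have := congrArg Subtype.val he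
    rw [hu0] at this
    have h4 : x = q0 := Sum.inr.inj this
    rw [h4] at hpx
    exact shp_parF hF hpx
  -- the predecessors
  have e1 : ∀ x (hx : x ∈ F) (hpx : T.par x ∈ F), p ⟨Sum.inl x, hin x hx⟩ =
      ⟨Sum.inl (T.par x), hin _ hpx⟩ := by
    intro x hx hpx
    apply Subtype.ext
    rw [hp]
    simp [pc, hpx]
  have e2 : ∀ x (hx : x ∈ F) (hpx : T.par x ∉ F) (hQ : T.Qn x), p ⟨Sum.inl x, hin x hx⟩ =
      ⟨Sum.inr x, hir x hx hQ⟩ := by
    intro x hx hpx hQ
    apply Subtype.ext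
    rw [hp]
    simp [pc, hpx]
  have e3 : ∀ x (hx : x ∈ F) (hQ : T.Qn x), p ⟨Sum.inr x, hir x hx hQ⟩ =
      ⟨Sum.inl x, hin x hx⟩ := by
    intro x hx hQ
    apply Subtype.ext
    rw [hp]
    rfl
  have g1 : ∀ x (hx : x ∈ F) (hQ : T.Qn x), RL R (lc T (Sum.inr x))
      (h ⟨Sum.inr x, hir x hx hQ⟩) (lc T (Sum.inl x)) (h ⟨Sum.inl x, hin x hx⟩) := by
    intro x hx hQ
    by_cases hpx : T.par x ∈ F
    · have h4 := h3 ⟨Sum.inr x, hir x hx hQ⟩ (hr0 x _ hpx)
      rw [e3 x hx hQ] at h4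
      exact RL_symm h4
    · have h4 := h3 ⟨Sum.inl x, hin x hx⟩ (hl0 x _)
      rw [e2 x hx hpx hQ] at h4
      exact h4
  have g2 : ∀ x (hx : x ∈ F) (hpx : T.par x ∈ F), RL R (lc T (Sum.inl (T.par x)))
      (h ⟨Sum.inl (T.par x), hin _ hpx⟩) (lc T (Sum.inl x)) (h ⟨Sum.inl x, hin x hx⟩) := by
    intro x hx hpx
    have h4 := h3 ⟨Sum.inl x, hin x hx⟩ (hl0 x _)
    rw [e1 x hx hpx] at h4
    exact h4
  have key : ∀ c d, Nb T F c d → ∃ (hc : c ∈ UC T F) (hd : d ∈ UC T F),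
      (PT p u0).Adj ⟨c, hc⟩ ⟨d, hd⟩ := by
    have k1 : ∀ x (hx : x ∈ F) (hQ : T.Qn x), (PT p u0).Adj ⟨Sum.inl x, hin x hx⟩
        ⟨Sum.inr x, hir x hx hQ⟩ := by
      intro x hx hQ
      rw [PT_adj p u0 rk hrk]
      by_cases hpx : T.par x ∈ F
      · exact Or.inl ⟨hr0 x _ hpx, (e3 x hx hQ).symm⟩
      · exact Or.inr ⟨hl0 x _, (e2 x hx hpx hQ).symm⟩
    have k2 : ∀ x (hx : x ∈ F) (hpx : T.par x ∈ F), (PT p u0).Adj ⟨Sum.inl x, hin x hx⟩
        ⟨Sum.inl (T.par x), hin _ hpx⟩ := by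
      intro x hx hpx
      rw [PT_adj p u0 rk hrk]
      exact Or.inr ⟨hl0 x _, (e1 x hx hpx).symm⟩
    rintro c d (⟨x, hx, hQ, (⟨rfl, rfl⟩ | ⟨rfl, rfl⟩)⟩ | ⟨x, hx, hpx, (⟨rfl, rfl⟩ | ⟨rfl, rfl⟩)⟩)
    · exact ⟨hin x hx, hir x hx hQ, k1 x hx hQ⟩
    · exact ⟨hir x hx hQ, hin x hx, (k1 x hx hQ).symm⟩
    · exact ⟨hin x hx, hin _ hpx, k2 x hx hpx⟩
    · exact ⟨hin _ hpx, hin x hx, (k2 x hx hpx).symm⟩
  refine ⟨⟨?_, ?_, ?_, ?_⟩, ⟨?_, ?_⟩, ?_, ?_, trivial⟩
  · intro x hx hQ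
    rw [xt_eq T F v0 h _ (hir x hx hQ), xt_eq T F v0 h _ (hin x hx)]
    exact RL_adj hR (lc_le hF _ (hir x hx hQ)) (lc_le hF _ (hin x hx))
      (lc_root hF hk hx hQ).1.symm (g1 x hx hQ)
  · intro x hx hpx
    rw [xt_eq T F v0 h _ (hin _ hpx), xt_eq T F v0 h _ (hin x hx)]
    exact RL_adj hR (lc_le hF _ (hin _ hpx)) (lc_le hF _ (hin x hx))
      (lc_par hF hx hpx).1 (g2 x hx hpx)
  · intro c hc
    unfold xt
    rw [dif_neg hc]
  · intro q hq hpq
    have h4 := hF.uni q hq hpq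
    subst h4
    rw [xt_eq T F v0 h _ (hir q hq (shp_Qn hF))]
    congr 1
    exact Subtype.ext hu0.symm
  · intro x hx hQ
    show RR T R x (xt T F v0 h (Sum.inr x)) (xt T F v0 h (Sum.inl x))
    rw [xt_eq T F v0 h _ (hir x hx hQ), xt_eq T F v0 h _ (hin x hx)]
    exact (lc_root hF hk hx hQ).2 R _ _ (g1 x hx hQ)
  · intro x hx hpx
    show ER T R x (xt T F v0 h (Sum.inl (T.par x))) (xt T F v0 h (Sum.inl x))
    rw [xt_eq T F v0 h _ (hin _ hpx), xt_eq T F v0 h _ (hin x hx)]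
    exact (lc_par hF hx hpx).2 R _ _ (g2 x hx hpx)
  · intro c hc c' hc' he
    rw [xt_eq T F v0 h _ hc, xt_eq T F v0 h _ hc'] at he
    exact congrArg Subtype.val (h1 he)
  · intro j c hj hjk hc
    obtain ⟨hc1, hc2⟩ := hc
    have hmem : ∀ i, i ≤ j → c i ∈ UC T F := by
      intro i hi
      by_cases hij : i < j
      · obtain ⟨h4, _, _⟩ := key _ _ (hc1 i hij)
        exact h4
      · have hij' : i = (j - 1) + 1 := by omega
        rw [hij']
        obtain ⟨_, h4, _⟩ := key _ _ (hc1 (j - 1) (by omega))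
        exact h4
    let c' : ℕ → UK T F := fun i => if h : c i ∈ UC T F then ⟨c i, h⟩ else u0
    have hc' : ∀ i (hi : i ≤ j), c' i = ⟨c i, hmem i hi⟩ := by
      intro i hi
      show (if h : c i ∈ UC T F then (⟨c i, h⟩ : UK T F) else u0) = _
      rw [dif_pos (hmem i hi)]
    rw [xt_eq T F v0 h _ (hmem 0 (by omega)), xt_eq T F v0 h _ (hmem j le_rfl),
      ← hc' 0 (by omega), ← hc' j le_rfl]
    refine h2 j c' hj hjk ?_ ?_
    · intro i hi
      rw [hc' i hi.le, hc' (i + 1) hi]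
      obtain ⟨_, _, h4⟩ := key _ _ (hc1 i hi)
      exact h4
    · intro i i' hi hi' he
      rw [hc' i hi, hc' i' hi'] at he
      exact hc2 i i' hi hi' (congrArg Subtype.val he)

end tree

end KInit

open KInit in
theorem init_holds : S_INIT := by
  intro k hk ι _ T K hK Q hQ
  obtain ⟨m, hm⟩ : ∃ m, m = Fintype.card (ι ⊕ ι) := ⟨_, rfl⟩
  obtain ⟨M, hM⟩ : ∃ M, M = Q ^ (m + 1) * K ^ (k + 1) := ⟨_, rfl⟩
  obtain ⟨W, hW⟩ : ∃ W, W = (k + 2) * (m + 1) ^ (k + 2) := ⟨_, rfl⟩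
  have hMpos : 0 < M := by rw [hM]; positivity
  have hWpos : 0 < W := by rw [hW]; positivity
  refine ⟨8 * M * W * K ^ m, 4 * M * (m + 1) ^ 2 * K ^ m + 1, by positivity, ?_⟩
  intro U hU V _ _ G D hG hD He R hst md hMD hDm hWW B hB hFew v0
  have hR : ∀ i, i ≤ k → ∀ a b, R i a b → G.Adj a b := fun i hi a b hab => (hst i hi a b hab).1
  by_cases hne : (U.erase T.top).Nonempty
  · obtain ⟨q0, hq0, hpq⟩ := exists_q0 T U hU hne
    have hS : Shp T (U.erase T.top) q0 := by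
      refine ⟨Finset.notMem_erase _ _, hq0, hpq, ?_⟩
      intro x hx hpx
      obtain ⟨h1, h2⟩ := Finset.mem_erase.1 hx
      refine T.top1 x q0 h1 (Finset.mem_erase.1 hq0).1 ?_ hpq
      by_contra h3
      exact hpx (Finset.mem_erase.2 ⟨h3, hU x h2 h1⟩)
    obtain ⟨F, hF⟩ : ∃ F, F = U.erase T.top := ⟨_, rfl⟩
    rw [← hF] at hS ⊢
    let p : UK T F → UK T F := fun c => ⟨pc T F c.1, pc_mem hS c.1 c.2⟩
    let u0 : UK T F := ⟨Sum.inr q0, (mem_UC T F _).2 (Or.inr ⟨q0, hS.mem, shp_Qn hS, rfl⟩)⟩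
    let rk : UK T F → ℕ := fun c => rc T F c.1
    have hrk : ∀ v, v ≠ u0 → rk (p v) < rk v := fun v hv =>
      rc_lt hS v.1 v.2 (fun h => hv (Subtype.ext h))
    have hcard : Fintype.card (UK T F) = (FC T F).card + 1 := by
      rw [← card_UC hS]
      exact Fintype.card_coe _
    have hf1 : 1 ≤ (FC T F).card :=
      Finset.card_pos.2 ⟨Sum.inl q0, (mem_FC T F _).2 (Or.inl ⟨q0, hS.mem, rfl⟩)⟩
    have hfm : (FC T F).card ≤ m := by
      rw [hm]
      exact Finset.card_le_univ _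
    obtain ⟨𝓖, h1, h2⟩ := core_init (ly := fun c : UK T F => lc T c.1) hrk
      (fun v hv => lc_step hS hk v.1 v.2 (fun h => hv (Subtype.ext h)))
      (fun v => lc_le hS v.1 v.2) hG hcard hf1 hfm hK hQ hst hMD hDm hWW hB hM hW hD
      le_rfl hFew
    refine ⟨𝓖.image (fun h => (h u0, xt T F v0 h)), ?_, ?_⟩
    · intro z hz
      obtain ⟨h, hh, rfl⟩ := Finset.mem_image.1 hz
      obtain ⟨k1, k2, k3⟩ := h1 h hh
      exact fam_of hS hk G R hR v0 B p (fun _ => rfl) u0 rfl rk hrk h k1 k2 k3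
    · rw [Finset.card_image_of_injective]
      · exact h2
      · intro h h' he
        have h3 : xt T F v0 h = xt T F v0 h' := (Prod.mk.inj he).2
        funext c
        have h4 := congrFun h3 c.1
        rw [xt_eq T F v0 h _ c.2, xt_eq T F v0 h' _ c.2] at h4
        exact h4
  · rw [Finset.not_nonempty_iff_eq_empty] at hne
    rw [hne]
    have hUe : ∀ c, c ∉ UC T (∅ : Finset ι) := by
      intro c hc
      rw [mem_UC] at hc
      rcases hc with ⟨x, hx, _⟩ | ⟨x, hx, _⟩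
      · exact absurd hx (Finset.notMem_empty _)
      · exact absurd hx (Finset.notMem_empty _)
    refine ⟨Finset.univ.image (fun w => (w, fun _ => v0)), ?_, ?_⟩
    · intro z hz
      obtain ⟨w, _, rfl⟩ := Finset.mem_image.1 hz
      refine ⟨⟨?_, ?_, ?_, ?_⟩, ⟨?_, ?_⟩, ?_, ?_, trivial⟩
      · intro x hx
        exact absurd hx (Finset.notMem_empty _)
      · intro x hx
        exact absurd hx (Finset.notMem_empty _)
      · intro c _
        rfl
      · intro x hx
        exact absurd hx (Finset.notMem_empty _)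
      · intro x hx
        exact absurd hx (Finset.notMem_empty _)
      · intro x hx
        exact absurd hx (Finset.notMem_empty _)
      · intro c hc
        exact absurd hc (hUe c)
      · intro j c hj _ hc
        rcases hc.1 0 (by omega) with ⟨x, hx, _⟩ | ⟨x, hx, _⟩
        · exact absurd hx (Finset.notMem_empty _)
        · exact absurd hx (Finset.notMem_empty _)
    · have h1 : (FC T (∅ : Finset ι)).card = 0 := by
        rw [Finset.card_eq_zero, Finset.eq_empty_iff_forall_notMem]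
        intro c hc
        rw [mem_FC] at hc
        rcases hc with ⟨x, hx, _⟩ | ⟨x, hx, _⟩
        · exact absurd hx (Finset.notMem_empty _)
        · exact absurd hx (Finset.notMem_empty _)
      rw [h1, pow_zero, mul_one, Finset.card_image_of_injective _ (fun a b h => (Prod.mk.inj h).1),
        Finset.card_univ]
      exact Nat.le_mul_of_pos_left _ (by positivity)

end Pool.Agent.TH476.KK
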