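import Pool.Agent.W979.TE.Lower

/-!
# The Turan exponents `2 - 1/m`

The lower bound is the Bukh-Conlon lower bound for the star with `m` leaves rooted at the leaves,
the upper bound is that of Kovari, Sos and Turan.
-/

set_option autoImplicit false

open Classical Asymptotics Filter

namespace Pool.Agent.TH476.KK.KKmt

open Pool.Agent.W979.TE

/-- the star with `m` leaves, centre `none` -/
def star (m : ℕ) : SimpleGraph (Option (Fin m)) where
  Adj a b := a.isNone ≠ b.isNone
  symm := ⟨fun _ _ h => h.symm⟩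
  loopless := ⟨fun _ h => h rfl⟩

/-- the set of the leaves -/
def leaves (m : ℕ) : Set (Option (Fin m)) := {x | x ≠ none}

lemma compl_leaves (m : ℕ) : (leaves m)ᶜ = {none} := by
  ext x
  simp [leaves]

lemma eS_star (m : ℕ) : eS (star m) {none} = m := by
  have h : ({e | e ∈ (star m).edgeSet ∧ ∃ v ∈ ({none} : Set (Option (Fin m))), v ∈ e} :
      Set (Sym2 (Option (Fin m)))) = Set.range (fun i : Fin m => s(none, some i)) := by
    ext e
    constructor
    · rintro ⟨he, v, hv, hve⟩
      rw [Set.mem_singleton_iff] at hv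
      subst hv
      obtain ⟨w, rfl⟩ := Sym2.mem_iff_exists.1 hve
      rw [SimpleGraph.mem_edgeSet] at he
      cases w with
      | none => exact absurd rfl he
      | some i => exact ⟨i, rfl⟩
    · rintro ⟨i, rfl⟩
      refine ⟨?_, none, rfl, ?_⟩
      · rw [SimpleGraph.mem_edgeSet]
        show Option.isNone none ≠ Option.isNone (some i)
        simp
      · simp
  unfold eS
  rw [h, ← Set.image_univ, Set.ncard_image_of_injective, Set.ncard_univ, Nat.card_fin]
  intro i j hij
  simp only [Sym2.eq_iff, Option.some.injEq, reduceCtorEq, true_and, false_and, or_false] at hij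
  exact hij

/-- a blowup of the star from a complete bipartite subgraph -/
lemma hasBU_of {n m t : ℕ} (G : SimpleGraph (Fin n)) (φ : Fin m ↪ Fin n)
    (h : t ≤ (Finset.univ.filter (fun v : Fin n => ∀ i, G.Adj v (φ i))).card) :
    HasBU (star m) (leaves m) t G := by
  obtain ⟨S, hS, hcard⟩ := Finset.exists_subset_card_eq h
  let ψ : Fin t → Fin n := fun j => (S.equivFin.symm (Fin.cast hcard.symm j) : Fin n)
  have hψ : Function.Injective ψ := by
    intro a b hab
    have h1 := S.equivFin.symm.injective (Subtype.ext hab)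
    exact Fin.ext (by simpa [Fin.ext_iff] using h1)
  have hadj : ∀ j i, G.Adj (ψ j) (φ i) := by
    intro j i
    have h1 : ψ j ∈ S := (S.equivFin.symm (Fin.cast hcard.symm j)).2
    have h2 := hS h1
    rw [Finset.mem_filter] at h2
    exact h2.2 i
  let f : BV (Option (Fin m)) (leaves m) t → Fin n := fun p =>
    match p.1.1 with
    | none => ψ ⟨p.1.2, p.2.1⟩
    | some i => φ i
  have hadj2 : ∀ a b : BV (Option (Fin m)) (leaves m) t, (star m).Adj a.1.1 b.1.1 →
      G.Adj (f a) (f b) := by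
    rintro ⟨⟨a, j⟩, ha⟩ ⟨⟨b, j'⟩, hb⟩ hab
    cases a with
    | none =>
      cases b with
      | none => exact absurd rfl hab
      | some i => exact hadj ⟨j, ha.1⟩ i
    | some i =>
      cases b with
      | none => exact (hadj ⟨j', hb.1⟩ i).symm
      | some i' => exact absurd rfl hab
  refine ⟨f, ?_, ?_⟩
  · rintro ⟨⟨a, j⟩, ha⟩ ⟨⟨b, j'⟩, hb⟩ hab
    cases a with
    | none =>
      cases b with
      | none =>
        have h1 := hψ (show ψ ⟨j, ha.1⟩ = ψ ⟨j', hb.1⟩ from hab)
        rw [Fin.mk.injEq] at h1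
        subst h1
        rfl
      | some i =>
        have h1 : ψ ⟨j, ha.1⟩ = φ i := hab
        exact absurd (hadj ⟨j, ha.1⟩ i) (by rw [h1]; exact G.irrefl)
    | some i =>
      cases b with
      | none =>
        have h1 : φ i = ψ ⟨j', hb.1⟩ := hab
        exact absurd (hadj ⟨j', hb.1⟩ i) (by rw [h1]; exact G.irrefl)
      | some i' =>
        have h1 := φ.injective (show φ i = φ i' from hab)
        have h2 : j = 0 := ha.2 (by simp [leaves])
        have h3 : j' = 0 := hb.2 (by simp [leaves])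
        subst h1 h2 h3
        rfl
  · intro a b hab
    rw [BU, SimpleGraph.fromRel_adj] at hab
    rcases hab.2 with h1 | h1
    · exact hadj2 a b h1.1
    · exact (hadj2 b a h1.1).symm

/-- the count of stars -/
lemma count {n m t : ℕ} (G : SimpleGraph (Fin n)) (hG : ¬ HasBU (star m) (leaves m) t G) :
    ∑ v : Fin n, (G.degree v + 1 - m) ^ m ≤ n ^ m * t := by
  have h1 : ∀ v : Fin n, (G.degree v + 1 - m) ^ m ≤
      (Finset.bipartiteAbove (fun (v : Fin n) (φ : Fin m ↪ Fin n) => ∀ i, G.Adj v (φ i))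
        Finset.univ v).card := by
    intro v
    refine (Nat.pow_sub_le_descFactorial _ _).trans ?_
    have h2 : (G.degree v).descFactorial m =
        Fintype.card (Fin m ↪ {w // w ∈ G.neighborFinset v}) := by
      rw [Fintype.card_embedding_eq, Fintype.card_fin, Fintype.card_coe,
        SimpleGraph.card_neighborFinset_eq_degree]
    rw [h2, ← Finset.card_univ]
    refine Finset.card_le_card_of_injOn
      (fun φ => φ.trans (Function.Embedding.subtype (fun w => w ∈ G.neighborFinset v))) ?_ ?_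
    · intro φ _
      simp only [Finset.bipartiteAbove, Finset.coe_filter, Finset.mem_univ, true_and,
        Set.mem_ofPred_eq]
      intro i
      have := (φ i).2
      rw [SimpleGraph.mem_neighborFinset] at this
      exact this
    · intro φ _ ψ _ hφψ
      ext i
      have := DFunLike.congr_fun hφψ i
      simpa using congrArg Fin.val this
  have h3 : ∀ φ : Fin m ↪ Fin n,
      (Finset.bipartiteBelow (fun (v : Fin n) (φ : Fin m ↪ Fin n) => ∀ i, G.Adj v (φ i))
        Finset.univ φ).card ≤ t := by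
    intro φ
    by_contra hcon
    exact hG (hasBU_of G φ (le_of_lt (not_le.1 hcon)))
  calc ∑ v : Fin n, (G.degree v + 1 - m) ^ m
      ≤ ∑ v : Fin n, (Finset.bipartiteAbove
          (fun (v : Fin n) (φ : Fin m ↪ Fin n) => ∀ i, G.Adj v (φ i)) Finset.univ v).card :=
        Finset.sum_le_sum (fun v _ => h1 v)
    _ = ∑ φ : Fin m ↪ Fin n, (Finset.bipartiteBelow
          (fun (v : Fin n) (φ : Fin m ↪ Fin n) => ∀ i, G.Adj v (φ i)) Finset.univ φ).card :=
        Finset.sum_card_bipartiteAbove_eq_sum_card_bipartiteBelow _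
    _ ≤ ∑ _φ : Fin m ↪ Fin n, t := Finset.sum_le_sum (fun φ _ => h3 φ)
    _ = Fintype.card (Fin m ↪ Fin n) * t := by
        rw [Finset.sum_const, Finset.card_univ, smul_eq_mul]
    _ ≤ n ^ m * t := by
        refine Nat.mul_le_mul_right _ ?_
        rw [Fintype.card_embedding_eq, Fintype.card_fin, Fintype.card_fin]
        exact Nat.descFactorial_le_pow _ _

/-- the bound of Kovari, Sos and Turan -/
lemma upper {n m t : ℕ} (hm : 2 ≤ m) (ht : 0 < t) (G : SimpleGraph (Fin n))
    (hG : ¬ HasBU (star m) (leaves m) t G) :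
    (G.edgeFinset.card : ℝ) ≤ ((t : ℝ) + m) * (n : ℝ) ^ (2 - 1 / (m : ℝ)) := by
  have hm0 : (0 : ℝ) < m := by exact_mod_cast (by omega : 0 < m)
  have hm1 : (1 : ℝ) ≤ m := by exact_mod_cast (by omega : 1 ≤ m)
  have ht1 : (1 : ℝ) ≤ t := by exact_mod_cast ht
  rcases Nat.eq_zero_or_pos n with hn | hn
  · subst hn
    have : G.edgeFinset.card = 0 := by
      rw [Finset.card_eq_zero, Finset.eq_empty_iff_forall_notMem]
      intro e
      induction e using Sym2.ind with
      | _ x y => exact x.elim0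
    rw [this]
    simp only [Nat.cast_zero]
    positivity
  have hn1 : (1 : ℝ) ≤ n := by exact_mod_cast hn
  have hn0 : (0 : ℝ) < n := by linarith
  set x : Fin n → ℝ := fun v => ((G.degree v + 1 - m : ℕ) : ℝ) with hx
  have hx0 : ∀ v ∈ (Finset.univ : Finset (Fin n)), 0 ≤ x v := fun v _ => Nat.cast_nonneg _
  obtain ⟨k, rfl⟩ : ∃ k, m = k + 1 := ⟨m - 1, by omega⟩
  have h1 := pow_sum_le_card_mul_sum_pow hx0 k
  rw [Finset.card_univ, Fintype.card_fin] at h1
  have h2 : ∑ v, x v ^ (k + 1) ≤ (n : ℝ) ^ (k + 1) * t := by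
    have h0 : ((∑ v : Fin n, (G.degree v + 1 - (k + 1)) ^ (k + 1) : ℕ) : ℝ) ≤
        ((n ^ (k + 1) * t : ℕ) : ℝ) := Nat.cast_le.2 (count G hG)
    rw [Nat.cast_sum, Nat.cast_mul, Nat.cast_pow] at h0
    simp only [Nat.cast_pow] at h0
    exact h0
  have h3 : (∑ v, x v) ^ (k + 1) ≤ ((t : ℝ) * (n : ℝ) ^ (2 - 1 / ((k + 1 : ℕ) : ℝ))) ^ (k + 1) := by
    have h4 : ((n : ℝ) ^ (2 - 1 / ((k + 1 : ℕ) : ℝ))) ^ (k + 1) = (n : ℝ) ^ k * (n : ℝ) ^ (k + 1) := by
      rw [← Real.rpow_natCast, ← Real.rpow_mul hn0.le, ← pow_add, ← Real.rpow_natCast]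
      congr 1
      field_simp
      push_cast
      ring
    rw [mul_pow, h4]
    calc (∑ v, x v) ^ (k + 1) ≤ (n : ℝ) ^ k * ∑ v, x v ^ (k + 1) := h1
      _ ≤ (n : ℝ) ^ k * ((n : ℝ) ^ (k + 1) * t) := by gcongr
      _ = t * ((n : ℝ) ^ k * (n : ℝ) ^ (k + 1)) := by ring
      _ ≤ (t : ℝ) ^ (k + 1) * ((n : ℝ) ^ k * (n : ℝ) ^ (k + 1)) := by
          gcongr
          exact le_self_pow₀ ht1 (by omega)
  have h5 : ∑ v, x v ≤ (t : ℝ) * (n : ℝ) ^ (2 - 1 / ((k + 1 : ℕ) : ℝ)) :=
    le_of_pow_le_pow_left₀ (by omega) (by positivity) h3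
  have h6 : (2 : ℝ) * (G.edgeFinset.card : ℝ) = ∑ v, (G.degree v : ℝ) := by
    have := G.sum_degrees_eq_twice_card_edges
    exact_mod_cast this.symm
  have h7 : ∑ v, (G.degree v : ℝ) ≤ ∑ v, (x v + ((k + 1 : ℕ) : ℝ)) := by
    refine Finset.sum_le_sum (fun v _ => ?_)
    have h0 : G.degree v ≤ (G.degree v + 1 - (k + 1)) + (k + 1) := by omega
    show (G.degree v : ℝ) ≤ ((G.degree v + 1 - (k + 1) : ℕ) : ℝ) + ((k + 1 : ℕ) : ℝ)
    rw [← Nat.cast_add]
    exact Nat.cast_le.2 h0
  rw [Finset.sum_add_distrib, Finset.sum_const, Finset.card_univ, Fintype.card_fin,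
    nsmul_eq_mul] at h7
  have h8 : (n : ℝ) ≤ (n : ℝ) ^ (2 - 1 / ((k + 1 : ℕ) : ℝ)) := by
    have h9 : 1 / ((k + 1 : ℕ) : ℝ) ≤ 1 := by
      rw [div_le_one hm0]
      exact hm1
    calc (n : ℝ) = (n : ℝ) ^ (1 : ℝ) := (Real.rpow_one _).symm
      _ ≤ _ := Real.rpow_le_rpow_of_exponent_le hn1 (by linarith)
  have h10 : (0 : ℝ) ≤ G.edgeFinset.card := Nat.cast_nonneg _
  have h11 : (n : ℝ) * ((k + 1 : ℕ) : ℝ) ≤
      (n : ℝ) ^ (2 - 1 / ((k + 1 : ℕ) : ℝ)) * ((k + 1 : ℕ) : ℝ) :=
    mul_le_mul_of_nonneg_right h8 hm0.le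
  linarith

end Pool.Agent.TH476.KK.KKmt

namespace Pool.Agent.TH476.KK

open Pool.Agent.W979.TE KKmt

/-- the exponents `2 - 1/m` -/
theorem kst_exp : ∀ m : ℕ, 2 ≤ m → ∃ k : ℕ, ∃ H : SimpleGraph (Fin k), H.Colorable 2 ∧
    (fun n : ℕ => (SimpleGraph.extremalNumber n H : ℝ)) =Θ[Filter.atTop]
      (fun n : ℕ => (n : ℝ) ^ (2 - 1 / (m : ℝ))) := by
  intro m hm
  obtain ⟨t, ht, c, hc, n0, hlow⟩ := lower (Option (Fin m)) (star m) (leaves m) 1 m
    (by rw [compl_leaves, Set.ncard_singleton]) (by rw [compl_leaves, eS_star]) one_pos (by omega)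
    (by
      intro S hS
      rw [compl_leaves] at hS
      rcases Set.subset_singleton_iff_eq.1 hS with h | h
      · rw [h, Set.ncard_empty, mul_zero]
        exact Nat.zero_le _
      · rw [h, Set.ncard_singleton, eS_star, mul_one, one_mul])
  rw [Nat.cast_one] at hlow
  have hcol : (BU (star m) (leaves m) t).Colorable 2 := by
    refine ⟨SimpleGraph.Coloring.mk (fun v => if v.1.1.isNone then (0 : Fin 2) else 1) ?_⟩
    intro a b hab
    rw [BU, SimpleGraph.fromRel_adj] at hab
    have h1 : a.1.1.isNone ≠ b.1.1.isNone := by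
      rcases hab.2 with h | h
      · exact h.1
      · exact h.1.symm
    cases ha : a.1.1.isNone <;> cases hb : b.1.1.isNone <;> simp_all
  have hfin : Finite (BV (Option (Fin m)) (leaves m) t) := by
    apply Finite.of_injective (fun p : BV (Option (Fin m)) (leaves m) t =>
      ((p.1.1, (⟨p.1.2, p.2.1⟩ : Fin t)) : Option (Fin m) × Fin t))
    intro a b hab
    simp only [Prod.mk.injEq, Fin.mk.injEq] at hab
    exact Subtype.ext (Prod.ext hab.1 hab.2)
  have := Fintype.ofFinite (BV (Option (Fin m)) (leaves m) t)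
  have hiff : ∀ {n : ℕ} (G : SimpleGraph (Fin n)), HasBU (star m) (leaves m) t G ↔
      (BU (star m) (leaves m) t).IsContained G := by
    intro n G
    constructor
    · rintro ⟨f, hf, hadj⟩
      exact ⟨⟨⟨f, fun {a b} h => hadj a b h⟩, hf⟩⟩
    · rintro ⟨f⟩
      exact ⟨f, f.injective, fun a b h => f.toHom.map_rel h⟩
  set θ : ℝ := 2 - 1 / (m : ℝ) with hθ
  let eq := Fintype.equivFin (BV (Option (Fin m)) (leaves m) t)
  let H := (BU (star m) (leaves m) t).map eq.toEmbedding
  have iso : BU (star m) (leaves m) t ≃g H := SimpleGraph.Iso.map eq (BU (star m) (leaves m) t)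
  refine ⟨_, H, hcol.of_hom iso.symm.toHom, ?_⟩
  have hex : ∀ n, SimpleGraph.extremalNumber n H =
      SimpleGraph.extremalNumber n (BU (star m) (leaves m) t) :=
    fun n => SimpleGraph.extremalNumber_congr_right iso.symm
  simp only [hex]
  constructor
  · apply IsBigO.of_bound ((t : ℝ) + m)
    filter_upwards with n
    rw [Real.norm_of_nonneg (Nat.cast_nonneg _), Real.norm_of_nonneg (by positivity)]
    have h0 : (0 : ℝ) ≤ ((t : ℝ) + m) * (n : ℝ) ^ θ := by positivity
    have := (SimpleGraph.extremalNumber_le_iff_of_nonneg (V := Fin n)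
      (BU (star m) (leaves m) t) h0).2 (by
      intro G _ hfree
      have h1 : ¬ HasBU (star m) (leaves m) t G := by
        intro hG
        exact hfree ((hiff G).1 hG)
      have h2 := upper hm ht G h1
      rw [← hθ] at h2
      refine le_trans (le_of_eq ?_) h2
      congr 2
      ext e
      simp only [SimpleGraph.mem_edgeFinset])
    rwa [Fintype.card_fin] at this
  · apply IsBigO.of_bound (1 / c)
    filter_upwards [eventually_ge_atTop n0] with n hn
    rw [Real.norm_of_nonneg (Nat.cast_nonneg _), Real.norm_of_nonneg (by positivity)]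
    obtain ⟨G, hG, hcard'⟩ := hlow n hn
    rw [hiff] at hG
    have h1 : G.edgeFinset.card ≤ SimpleGraph.extremalNumber n (BU (star m) (leaves m) t) := by
      have := SimpleGraph.card_edgeFinset_le_extremalNumber (G := G)
        (H := BU (star m) (leaves m) t) hG
      rwa [Fintype.card_fin] at this
    have hnc : G.edgeSet.ncard = G.edgeFinset.card := by
      rw [Set.ncard_eq_toFinset_card', SimpleGraph.edgeFinset]
    rw [hnc] at hcard'
    have h2 : (G.edgeFinset.card : ℝ) ≤
        (SimpleGraph.extremalNumber n (BU (star m) (leaves m) t) : ℝ) := by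
      exact_mod_cast h1
    have h3 := hcard'.trans h2
    calc (n : ℝ) ^ θ = 1 / c * (c * (n : ℝ) ^ θ) := by
          rw [← mul_assoc, one_div_mul_cancel hc.ne', one_mul]
      _ ≤ _ := mul_le_mul_of_nonneg_left h3 (by positivity)

end Pool.Agent.TH476.KK
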