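import Pool.Agent.TH476.KHub

set_option autoImplicit false

open Classical

namespace Pool.Agent.TH476.KK.KMv2e

open Pool.Agent.TH476 Pool.Agent.TH476.KK

/-- triples of the family -/
def Tr {V : Type} (𝓡 : Finset (Fin (2 + 1) → V)) (a h b : V) : Prop :=
  ∃ p ∈ 𝓡, ex 2 p 0 = a ∧ ex 2 p 1 = h ∧ ex 2 p 2 = b

/-- first vertices of members with middle h -/
def AA {V : Type} (𝓡 : Finset (Fin (2 + 1) → V)) (h z : V) : Prop :=
  ∃ p ∈ 𝓡, ex 2 p 0 = z ∧ ex 2 p 1 = h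

lemma ext3 {V : Type} (p p' : Fin (2 + 1) → V) (h0 : ex 2 p 0 = ex 2 p' 0)
    (h1 : ex 2 p 1 = ex 2 p' 1) (h2 : ex 2 p 2 = ex 2 p' 2) : p = p' := by
  funext i
  fin_cases i
  · exact h0
  · exact h1
  · exact h2

section basic

variable {V : Type} [Fintype V] {G : SimpleGraph V} {B : ℕ → V → V → Prop} {q D M' : ℕ}
  {𝓡 : Finset (Fin (2 + 1) → V)}

lemma RSt_mono {M'' : ℕ} (hle : M'' ≤ M') (hR : RSt G B 2 q D M' 𝓡) : RSt G B 2 q D M'' 𝓡 :=
  ⟨hR.ne, hR.sub, hR.rev, hR.cls, fun p hp => hle.trans (hR.pr p hp)⟩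

lemma Tr_symm (hR : RSt G B 2 q D M' 𝓡) {a h b : V} (hT : Tr 𝓡 a h b) : Tr 𝓡 b h a := by
  obtain ⟨p, hp, h0, h1, h2⟩ := hT
  exact ⟨fun i => p i.rev, hR.rev p hp, h2, h1, h0⟩

lemma Tr_AA {a h b : V} (hT : Tr 𝓡 a h b) : AA 𝓡 h a := by
  obtain ⟨p, hp, h0, h1, _⟩ := hT
  exact ⟨p, hp, h0, h1⟩

lemma AA_Tr {a h : V} (hT : AA 𝓡 h a) : ∃ b, Tr 𝓡 a h b := by
  obtain ⟨p, hp, h0, h1⟩ := hT
  exact ⟨_, p, hp, h0, h1, rfl⟩

lemma Tr_adj (hR : RSt G B 2 q D M' 𝓡) {a h b : V} (hT : Tr 𝓡 a h b) :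
    G.Adj a h ∧ G.Adj h b ∧ a ≠ b := by
  obtain ⟨p, hp, h0, h1, h2⟩ := hT
  have h3 := hR.sub p hp
  unfold RCs at h3
  obtain ⟨h4, h5, _⟩ := (Finset.mem_filter.mp h3).2.1
  have h6 : G.Adj (ex 2 p 0) (ex 2 p 1) := h4 0 (by omega)
  have h7 : G.Adj (ex 2 p 1) (ex 2 p 2) := h4 1 (by omega)
  rw [h0, h1] at h6
  rw [h1, h2] at h7
  refine ⟨h6, h7, ?_⟩
  intro h8
  have h9 := h5 0 2 (by omega) (by omega) (h0.trans (h8.trans h2.symm))
  omega

lemma AA_adj (hR : RSt G B 2 q D M' 𝓡) {a h : V} (hT : AA 𝓡 h a) : G.Adj h a := by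
  obtain ⟨b, hb⟩ := AA_Tr hT
  exact (Tr_adj hR hb).1.symm

lemma cnt1 (hR : RSt G B 2 q D M' 𝓡) {a h : V} (hA : AA 𝓡 h a) :
    D ≤ q * (Finset.univ.filter (fun b => Tr 𝓡 a h b)).card := by
  obtain ⟨p, hp, h0, h1⟩ := hA
  have h2 := hR.cls p hp 0 1 (by omega) (by omega)
  have h3 : D ^ (2 - (1 - 0)) = D := by norm_num
  rw [h3] at h2
  refine h2.trans (Nat.mul_le_mul_left _ ?_)
  refine Finset.card_le_card_of_injOn (fun p' => ex 2 p' 2) ?_ ?_
  · intro p' hp'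
    obtain ⟨hp1, hp2⟩ := Finset.mem_filter.mp (Finset.mem_coe.mp hp')
    refine Finset.mem_coe.mpr (Finset.mem_filter.mpr ⟨Finset.mem_univ _, p', hp1, ?_, ?_, rfl⟩)
    · rw [hp2 0 le_rfl (by omega)]
      exact h0
    · rw [hp2 1 (by omega) le_rfl]
      exact h1
  · intro p1 hp1 p2 hp2 he
    obtain ⟨_, h4⟩ := Finset.mem_filter.mp (Finset.mem_coe.mp hp1)
    obtain ⟨_, h5⟩ := Finset.mem_filter.mp (Finset.mem_coe.mp hp2)
    exact ext3 p1 p2 ((h4 0 le_rfl (by omega)).trans (h5 0 le_rfl (by omega)).symm)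
      ((h4 1 (by omega) le_rfl).trans (h5 1 (by omega) le_rfl).symm) he

lemma cnt1' (hR : RSt G B 2 q D M' 𝓡) {a h b : V} (hA : Tr 𝓡 a h b) :
    D ≤ q * (Finset.univ.filter (fun a' => Tr 𝓡 a' h b)).card := by
  refine (cnt1 hR (Tr_AA (Tr_symm hR hA))).trans (Nat.mul_le_mul_left _ (Finset.card_le_card ?_))
  intro x hx
  exact Finset.mem_filter.mpr ⟨Finset.mem_univ _, Tr_symm hR (Finset.mem_filter.mp hx).2⟩

lemma cnt2 (hR : RSt G B 2 q D M' 𝓡) {a h b : V} (hA : Tr 𝓡 a h b) :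
    M' ≤ (Finset.univ.filter (fun y => Tr 𝓡 a y b)).card := by
  obtain ⟨p, hp, h0, h1, h2⟩ := hA
  refine (hR.pr p hp).trans ?_
  refine Finset.card_le_card_of_injOn (fun p' => ex 2 p' 1) ?_ ?_
  · intro p' hp'
    obtain ⟨hp1, hp2, hp3⟩ := Finset.mem_filter.mp (Finset.mem_coe.mp hp')
    exact Finset.mem_coe.mpr (Finset.mem_filter.mpr ⟨Finset.mem_univ _, p', hp1,
      hp2.trans h0, rfl, hp3.trans h2⟩)
  · intro p1 hp1 p2 hp2 he
    obtain ⟨_, h4, h4'⟩ := Finset.mem_filter.mp (Finset.mem_coe.mp hp1)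
    obtain ⟨_, h5, h5'⟩ := Finset.mem_filter.mp (Finset.mem_coe.mp hp2)
    exact ext3 p1 p2 (h4.trans h5.symm) he (h4'.trans h5'.symm)

end basic

section tools

variable {V : Type} [Fintype V]

lemma dbl (S N : Finset V) (W : V → V → Prop) :
    ∑ s ∈ S, (N.filter (fun ρ => W s ρ)).card = ∑ ρ ∈ N, (S.filter (fun s => W s ρ)).card :=
  Finset.sum_card_bipartiteAbove_eq_sum_card_bipartiteBelow W

/-- a common vertex for many members of S -/
lemma common (S N X : Finset V) (W : V → V → Prop) (D K c : ℕ) (hK : 0 < K) (hD : 0 < D)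
    (hS : S.Nonempty) (hN : N.card ≤ K * D) (hX : 2 * c * X.card ≤ D)
    (hW : ∀ s ∈ S, D ≤ c * (N.filter (fun ρ => W s ρ)).card) :
    ∃ ρ ∈ N, ρ ∉ X ∧ S.card ≤ 2 * c * K * (S.filter (fun s => W s ρ)).card := by
  by_contra hcon
  push Not at hcon
  have h1 : ∀ s ∈ S, D ≤ 2 * c * ((N \ X).filter (fun ρ => W s ρ)).card := by
    intro s hs
    have h2 := hW s hs
    have h3 : (N.filter (fun ρ => W s ρ)).card ≤
        ((N \ X).filter (fun ρ => W s ρ)).card + X.card := by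
      have : N.filter (fun ρ => W s ρ) ⊆ (N \ X).filter (fun ρ => W s ρ) ∪ X := by
        intro ρ hρ
        obtain ⟨h4, h5⟩ := Finset.mem_filter.mp hρ
        by_cases h6 : ρ ∈ X
        · exact Finset.mem_union_right _ h6
        · exact Finset.mem_union_left _ (Finset.mem_filter.mpr
            ⟨Finset.mem_sdiff.mpr ⟨h4, h6⟩, h5⟩)
      exact (Finset.card_le_card this).trans (Finset.card_union_le _ _)
    have h4 : c * (N.filter (fun ρ => W s ρ)).card ≤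
        c * (((N \ X).filter (fun ρ => W s ρ)).card + X.card) := Nat.mul_le_mul_left _ h3
    have h5 : 2 * (c * (((N \ X).filter (fun ρ => W s ρ)).card + X.card)) =
        2 * c * ((N \ X).filter (fun ρ => W s ρ)).card + 2 * c * X.card := by ring
    omega
  have h2 : S.card * D ≤ 2 * c * ∑ s ∈ S, ((N \ X).filter (fun ρ => W s ρ)).card := by
    rw [Finset.mul_sum, ← smul_eq_mul, ← Finset.sum_const]
    exact Finset.sum_le_sum h1
  rw [dbl] at h2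
  have hSc : 0 < S.card := Finset.card_pos.mpr hS
  have h3 : 2 * c * K * ∑ ρ ∈ N \ X, (S.filter (fun s => W s ρ)).card < K * (S.card * D) ∨
      N \ X = ∅ := by
    by_cases hemp : N \ X = ∅
    · exact Or.inr hemp
    · refine Or.inl ?_
      rw [Finset.mul_sum]
      calc ∑ ρ ∈ N \ X, 2 * c * K * (S.filter (fun s => W s ρ)).card < ∑ ρ ∈ N \ X, S.card := by
            refine Finset.sum_lt_sum_of_nonempty (Finset.nonempty_iff_ne_empty.mpr hemp) ?_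
            intro ρ hρ
            obtain ⟨h4, h5⟩ := Finset.mem_sdiff.mp hρ
            exact hcon ρ h4 h5
        _ = (N \ X).card * S.card := by rw [Finset.sum_const, smul_eq_mul]
        _ ≤ (K * D) * S.card := Nat.mul_le_mul_right _
            ((Finset.card_le_card Finset.sdiff_subset).trans hN)
        _ = K * (S.card * D) := by ring
  rcases h3 with h3 | h3
  · have h4 : K * (S.card * D) ≤ K * (2 * c * ∑ ρ ∈ N \ X, (S.filter (fun s => W s ρ)).card) :=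
      Nat.mul_le_mul_left _ h2
    have h5 : K * (2 * c * ∑ ρ ∈ N \ X, (S.filter (fun s => W s ρ)).card) =
      2 * c * K * ∑ ρ ∈ N \ X, (S.filter (fun s => W s ρ)).card := by ring
    omega
  · rw [h3, Finset.sum_empty, mul_zero] at h2
    have : 0 < S.card * D := Nat.mul_pos hSc hD
    omega

lemma pick (S' : Finset V) (n' : ℕ) (h : n' ≤ S'.card) :
    ∃ s : Fin n' → V, Function.Injective s ∧ ∀ l, s l ∈ S' := by
  obtain ⟨T, hT1, hT2⟩ := Finset.exists_subset_card_eq h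
  refine ⟨fun i => (T.equivFinOfCardEq hT2).symm i, ?_, ?_⟩
  · intro a b hab
    exact (T.equivFinOfCardEq hT2).symm.injective (Subtype.ext hab)
  · intro l
    exact hT1 ((T.equivFinOfCardEq hT2).symm l).2

/-- distinct choices for the members of S -/
lemma grd (S Z0 : Finset V) (P : V → V → Prop) (m0 : ℕ)
    (hP : ∀ y ∈ S, m0 ≤ (Finset.univ.filter (fun z => P y z)).card)
    (hm : Z0.card + S.card < m0) :
    ∃ z : V → V, (∀ y ∈ S, P y (z y) ∧ z y ∉ Z0) ∧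
      ∀ y ∈ S, ∀ y' ∈ S, z y = z y' → y = y' := by
  obtain ⟨a, h1, h2, h3⟩ := greedy1 (κ := {y // y ∈ S}) (fun y z => P y z) Z0 (by
    intro y Z' hZ'
    rw [Fintype.card_coe] at hZ'
    obtain ⟨a, ha1, ha2⟩ := exists_notMem _ Z' (lt_of_lt_of_le (by omega) (hP y.1 y.2))
    exact ⟨a, (Finset.mem_filter.mp ha1).2, ha2⟩)
  refine ⟨fun v => if h : v ∈ S then a ⟨v, h⟩ else v, ?_, ?_⟩
  · intro y hy
    simp only [dif_pos hy]
    exact ⟨h1 ⟨y, hy⟩, h2 ⟨y, hy⟩⟩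
  · intro y hy y' hy' he
    simp only [dif_pos hy, dif_pos hy'] at he
    have := h3 he
    exact congrArg Subtype.val this

/-- a vertex outside a small set -/
lemma fresh (G : SimpleGraph V) (D : ℕ) [Nonempty V] (hlo : ∀ v, D ≤ (nb G v).card)
    (Z : Finset V) (h : Z.card < D) : ∃ v, v ∉ Z := by
  obtain ⟨v0⟩ := (inferInstance : Nonempty V)
  obtain ⟨a, _, ha⟩ := exists_notMem (nb G v0) Z (lt_of_lt_of_le h (hlo v0))
  exact ⟨a, ha⟩

/-- extension of rich paths -/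
def EX (G : SimpleGraph V) (𝓡 : Finset (Fin (2 + 1) → V)) (t ζ' : ℕ) : Prop :=
  ∀ p ∈ 𝓡, ∀ Z : Finset V, Z.card ≤ ζ' →
    ∃ P : ℕ → V, P 0 = ex 2 p 0 ∧ P (2 + 2 * t) = ex 2 p 2 ∧
      (∀ i, i < 2 + 2 * t → G.Adj (P i) (P (i + 1))) ∧
      (∀ i, 1 ≤ i → i < 2 + 2 * t → P i ∉ Z) ∧
      ∀ i i', i ≤ 2 + 2 * t → i' ≤ 2 + 2 * t → P i = P i' → i = i'

/-- a family of paths with disjoint interiors -/
lemma route (G : SimpleGraph V) (𝓡 : Finset (Fin (2 + 1) → V)) (t ζ' : ℕ) (hext : EX G 𝓡 t ζ')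
    (n' : ℕ) (a h b : Fin n' → V) (hT : ∀ l, Tr 𝓡 (a l) (h l) (b l)) (Z0 : Finset V)
    (hZ : Z0.card + n' * (2 + 2 * t) ≤ ζ') :
    ∃ P : Fin n' → ℕ → V, (∀ l, P l 0 = a l ∧ P l (2 + 2 * t) = b l ∧
      (∀ i, i < 2 + 2 * t → G.Adj (P l i) (P l (i + 1))) ∧
      (∀ i, 1 ≤ i → i < 2 + 2 * t → P l i ∉ Z0) ∧
      ∀ i i', i ≤ 2 + 2 * t → i' ≤ 2 + 2 * t → P l i = P l i' → i = i') ∧
      ∀ l l' i i', l ≠ l' → 1 ≤ i → i < 2 + 2 * t → 1 ≤ i' → i' < 2 + 2 * t →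
        P l i ≠ P l' i' := by
  obtain ⟨P, h1, h2, h3⟩ := greedy (κ := Fin n') (α := ℕ → V)
    (fun _ P => (Finset.Ico 1 (2 + 2 * t)).image P) (2 + 2 * t)
    (fun l P => P 0 = a l ∧ P (2 + 2 * t) = b l ∧
      (∀ i, i < 2 + 2 * t → G.Adj (P i) (P (i + 1))) ∧
      ∀ i i', i ≤ 2 + 2 * t → i' ≤ 2 + 2 * t → P i = P i' → i = i') Z0 (by
        intro l P _
        refine Finset.card_image_le.trans ?_
        rw [Nat.card_Ico]
        omega) (by
        intro l Z hZ'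
        rw [Fintype.card_fin] at hZ'
        obtain ⟨p, hp, h0, _, h2⟩ := hT l
        obtain ⟨P, hP1, hP2, hP3, hP4, hP5⟩ := hext p hp Z (by omega)
        refine ⟨P, ⟨hP1.trans h0, hP2.trans h2, hP3, hP5⟩, ?_⟩
        rw [Finset.disjoint_left]
        intro x hx
        obtain ⟨i, hi, rfl⟩ := Finset.mem_image.mp hx
        obtain ⟨hi1, hi2⟩ := Finset.mem_Ico.mp hi
        exact hP4 i hi1 hi2)
  refine ⟨P, ?_, ?_⟩
  · intro l
    obtain ⟨h4, h5, h6, h7⟩ := h1 l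
    refine ⟨h4, h5, h6, ?_, h7⟩
    intro i hi1 hi2
    exact Finset.disjoint_left.mp (h2 l) (Finset.mem_image_of_mem _ (Finset.mem_Ico.mpr ⟨hi1, hi2⟩))
  · intro l l' i i' hl hi1 hi2 hi1' hi2' he
    refine Finset.disjoint_left.mp (h3 l l' hl) (Finset.mem_image_of_mem _
      (Finset.mem_Ico.mpr ⟨hi1, hi2⟩)) ?_
    rw [he]
    exact Finset.mem_image_of_mem _ (Finset.mem_Ico.mpr ⟨hi1', hi2'⟩)

end tools

section inj

variable {V : Type}

lemma injA (m n' : ℕ) (P : Fin n' → ℕ → V) (Z0 : Finset V)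
    (ha : ∀ l l', P l 0 = P l' 0 → l = l') (haZ : ∀ l, P l 0 ∈ Z0)
    (hin : ∀ l i, 1 ≤ i → i < m → P l i ∉ Z0)
    (hdis : ∀ l l' i i', l ≠ l' → 1 ≤ i → i < m → 1 ≤ i' → i' < m → P l i ≠ P l' i')
    (hinj : ∀ l i i', i ≤ m → i' ≤ m → P l i = P l i' → i = i') :
    ∀ l l' i i', i < m → i' < m → P l i = P l' i' → l = l' ∧ i = i' := by
  intro l l' i i' hi hi' he
  by_cases hl : l = l'
  · subst hl
    exact ⟨rfl, hinj l i i' hi.le hi'.le he⟩
  · exfalso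
    rcases Nat.eq_zero_or_pos i with h0 | h0
    · rcases Nat.eq_zero_or_pos i' with h0' | h0'
      · rw [h0, h0'] at he
        exact hl (ha l l' he)
      · rw [h0] at he
        exact hin l' i' h0' hi' (he ▸ haZ l)
    · rcases Nat.eq_zero_or_pos i' with h0' | h0'
      · rw [h0'] at he
        exact hin l i h0 hi (he ▸ haZ l')
      · exact hdis l l' i i' hl h0 hi h0' hi' he

lemma injB (m n' : ℕ) (P : Fin n' → ℕ → V) (Z0 : Finset V)
    (ha : ∀ l l', P l 0 = P l' 0 → l = l') (haZ : ∀ l, P l 0 ∈ Z0)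
    (hin : ∀ l i, 1 ≤ i → i < m → P l i ∉ Z0)
    (hdis : ∀ l l' i i', l ≠ l' → 1 ≤ i → i < m → 1 ≤ i' → i' < m → P l i ≠ P l' i')
    (hinj : ∀ l i i', i ≤ m → i' ≤ m → P l i = P l i' → i = i')
    (hb : ∀ l l', P l m = P l' m → l = l') (hbZ : ∀ l, P l m ∈ Z0)
    (hab : ∀ l l', P l 0 ≠ P l' m) :
    ∀ l l' i i', i ≤ m → i' ≤ m → P l i = P l' i' → l = l' ∧ i = i' := by
  intro l l' i i' hi hi' he
  rcases Nat.lt_or_ge i m with h1 | h1
  · rcases Nat.lt_or_ge i' m with h2 | h2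
    · exact injA m n' P Z0 ha haZ hin hdis hinj l l' i i' h1 h2 he
    · have h3 : i' = m := le_antisymm hi' h2
      subst h3
      exfalso
      rcases Nat.eq_zero_or_pos i with h0 | h0
      · rw [h0] at he
        exact hab l l' he
      · exact hin l i h0 h1 (he ▸ hbZ l')
  · have h3 : i = m := le_antisymm hi h1
    subst h3
    rcases Nat.lt_or_ge i' i with h2 | h2
    · exfalso
      rcases Nat.eq_zero_or_pos i' with h0 | h0
      · rw [h0] at he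
        exact hab l' l he.symm
      · exact hin l' i' h0 h2 (he ▸ hbZ l)
    · have h4 : i' = i := le_antisymm hi' h2
      subst h4
      exact ⟨hb l l' he, rfl⟩

end inj

section asm

variable {V : Type}

/-- the conclusion for legs -/
def LegC (G : SimpleGraph V) (k : ℕ) (S Z : Finset V) (n' : ℕ) : Prop :=
  ∃ ρ, ρ ∉ Z ∧ ρ ∉ S ∧ ∃ P : Fin n' → ℕ → V,
      (∀ l, P l 0 ∈ S ∧ P l (k + 1) = ρ ∧ (∀ i, i ≤ k → G.Adj (P l i) (P l (i + 1))) ∧
        ∀ i, 1 ≤ i → i ≤ k → P l i ∉ Z ∧ P l i ∉ S ∧ P l i ≠ ρ) ∧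
      ∀ l l' i i', i ≤ k → i' ≤ k → P l i = P l' i' → l = l' ∧ i = i'

/-- the conclusion for core moves -/
def CoreC (G : SimpleGraph V) (k : ℕ) (Q : V → V → Prop) (S Z : Finset V) (n' : ℕ) : Prop :=
  ∃ w', w' ∉ Z ∧ w' ∉ S ∧ ∃ P : Fin n' → ℕ → V,
      (∀ l, P l 0 ∈ S ∧ Q w' (P l (k + 1)) ∧ (∀ i, i ≤ k → G.Adj (P l i) (P l (i + 1))) ∧
        ∀ i, 1 ≤ i → i ≤ k + 1 → P l i ∉ Z ∧ P l i ∉ S ∧ P l i ≠ w') ∧
      ∀ l l' i i', i ≤ k + 1 → i' ≤ k + 1 → P l i = P l' i' → l = l' ∧ i = i'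

/-- families of paths with disjoint interiors avoiding Z0 -/
structure Pf (G : SimpleGraph V) (m n' : ℕ) (Z0 : Finset V) (P : Fin n' → ℕ → V) : Prop where
  adj : ∀ l i, i < m → G.Adj (P l i) (P l (i + 1))
  out : ∀ l i, 1 ≤ i → i < m → P l i ∉ Z0
  inj : ∀ l i i', i ≤ m → i' ≤ m → P l i = P l i' → i = i'
  dis : ∀ l l' i i', l ≠ l' → 1 ≤ i → i < m → 1 ≤ i' → i' < m → P l i ≠ P l' i'

lemma asmEleg (G : SimpleGraph V) (m n' : ℕ) (S Z Z0 : Finset V) (ρ : V) (P : Fin n' → ℕ → V)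
    (h : Pf G m n' Z0 P) (hρZ : ρ ∉ Z) (hρS : ρ ∉ S) (hZ0 : Z ⊆ Z0) (hS0 : S ⊆ Z0)
    (hρ0 : ρ ∈ Z0) (ha : ∀ l, P l 0 ∈ S) (haI : ∀ l l', P l 0 = P l' 0 → l = l')
    (hb : ∀ l, P l m ∉ Z ∧ P l m ∉ S ∧ P l m ≠ ρ) (hbI : ∀ l l', P l m = P l' m → l = l')
    (hb0 : ∀ l, P l m ∈ Z0) (hbρ : ∀ l, G.Adj (P l m) ρ) : LegC G m S Z n' := by
  refine ⟨ρ, hρZ, hρS, fun l i => if i ≤ m then P l i else ρ, ?_, ?_⟩
  · intro l
    refine ⟨?_, ?_, ?_, ?_⟩
    · simp only [Nat.zero_le, if_true]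
      exact ha l
    · have : ¬ m + 1 ≤ m := by omega
      simp only [if_neg this]
    · intro i hi
      simp only [if_pos hi]
      rcases Nat.lt_or_ge i m with h1 | h1
      · rw [if_pos (by omega : i + 1 ≤ m)]
        exact h.adj l i h1
      · have h2 : i = m := le_antisymm hi h1
        subst h2
        rw [if_neg (by omega : ¬ i + 1 ≤ i)]
        exact hbρ l
    · intro i hi1 hi2
      simp only [if_pos hi2]
      rcases Nat.lt_or_ge i m with h1 | h1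
      · have h3 := h.out l i hi1 h1
        exact ⟨fun h4 => h3 (hZ0 h4), fun h4 => h3 (hS0 h4), fun h4 => h3 (h4 ▸ hρ0)⟩
      · have h2 : i = m := le_antisymm hi2 h1
        subst h2
        exact hb l
  · intro l l' i i' hi hi' he
    simp only [if_pos hi, if_pos hi'] at he
    exact injB m n' P Z0 haI (fun l => hS0 (ha l)) h.out h.dis h.inj hbI hb0
      (fun l l' h0 => (hb l').2.1 (h0 ▸ ha l)) l l' i i' hi hi' he

lemma asmEcore (G : SimpleGraph V) (m n' : ℕ) (Q : V → V → Prop) (S Z Z0 : Finset V) (w' : V)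
    (P : Fin n' → ℕ → V) (e : Fin n' → V)
    (h : Pf G m n' Z0 P) (hρZ : w' ∉ Z) (hρS : w' ∉ S) (hZ0 : Z ⊆ Z0) (hS0 : S ⊆ Z0)
    (hρ0 : w' ∈ Z0) (ha : ∀ l, P l 0 ∈ S) (haI : ∀ l l', P l 0 = P l' 0 → l = l')
    (hb : ∀ l, P l m ∉ Z ∧ P l m ∉ S ∧ P l m ≠ w') (hbI : ∀ l l', P l m = P l' m → l = l')
    (hb0 : ∀ l, P l m ∈ Z0) (he : ∀ l, e l ∉ Z ∧ e l ∉ S ∧ e l ≠ w')
    (heI : ∀ l l', e l = e l' → l = l') (he0 : ∀ l, e l ∈ Z0) (hbe : ∀ l l', P l m ≠ e l')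
    (hadj : ∀ l, G.Adj (P l m) (e l)) (hQ : ∀ l, Q w' (e l)) : CoreC G m Q S Z n' := by
  refine ⟨w', hρZ, hρS, fun l i => if i ≤ m then P l i else e l, ?_, ?_⟩
  · intro l
    refine ⟨?_, ?_, ?_, ?_⟩
    · simp only [Nat.zero_le, if_true]
      exact ha l
    · have : ¬ m + 1 ≤ m := by omega
      simp only [if_neg this]
      exact hQ l
    · intro i hi
      simp only [if_pos hi]
      rcases Nat.lt_or_ge i m with h1 | h1
      · rw [if_pos (by omega : i + 1 ≤ m)]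
        exact h.adj l i h1
      · have h2 : i = m := le_antisymm hi h1
        subst h2
        rw [if_neg (by omega : ¬ i + 1 ≤ i)]
        exact hadj l
    · intro i hi1 hi2
      rcases Nat.lt_or_ge i m with h1 | h1
      · have h3 := h.out l i hi1 h1
        simp only [if_pos h1.le]
        exact ⟨fun h4 => h3 (hZ0 h4), fun h4 => h3 (hS0 h4), fun h4 => h3 (h4 ▸ hρ0)⟩
      · rcases Nat.lt_or_ge m i with h5 | h5
        · simp only [if_neg (by omega : ¬ i ≤ m)]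
          exact he l
        · have h2 : i = m := le_antisymm h5 h1
          subst h2
          simp only [le_refl, if_true]
          exact hb l
  · have hPe : ∀ l l' i, i ≤ m → P l i ≠ e l' := by
      intro l l' i hi h0
      rcases Nat.lt_or_ge i m with h1 | h1
      · rcases Nat.eq_zero_or_pos i with h2 | h2
        · rw [h2] at h0
          exact (he l').2.1 (h0 ▸ ha l)
        · exact h.out l i h2 h1 (h0 ▸ he0 l')
      · have h2 : i = m := le_antisymm hi h1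
        subst h2
        exact hbe l l' h0
    intro l l' i i' hi hi' h0
    by_cases h1 : i ≤ m
    · by_cases h2 : i' ≤ m
      · simp only [if_pos h1, if_pos h2] at h0
        exact injB m n' P Z0 haI (fun l => hS0 (ha l)) h.out h.dis h.inj hbI hb0
          (fun l l' h0 => (hb l').2.1 (h0 ▸ ha l)) l l' i i' h1 h2 h0
      · simp only [if_pos h1, if_neg h2] at h0
        exact absurd h0 (hPe l l' i h1)
    · by_cases h2 : i' ≤ m
      · simp only [if_neg h1, if_pos h2] at h0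
        exact absurd h0.symm (hPe l' l i' h2)
      · simp only [if_neg h1, if_neg h2] at h0
        exact ⟨heI l l' h0, by omega⟩

lemma asmOleg (G : SimpleGraph V) (m n' : ℕ) (hm : 0 < m) (S Z Z0 : Finset V) (ρ : V)
    (y : Fin n' → V) (P : Fin n' → ℕ → V)
    (h : Pf G m n' Z0 P) (hρZ : ρ ∉ Z) (hρS : ρ ∉ S) (hZ0 : Z ⊆ Z0) (hS0 : S ⊆ Z0)
    (hρ0 : ρ ∈ Z0) (hy : ∀ l, y l ∈ S) (hyI : ∀ l l', y l = y l' → l = l')
    (hyP : ∀ l, G.Adj (y l) (P l 0)) (ha : ∀ l, P l 0 ∉ Z ∧ P l 0 ∉ S ∧ P l 0 ≠ ρ)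
    (ha0 : ∀ l, P l 0 ∈ Z0) (haI : ∀ l l', P l 0 = P l' 0 → l = l')
    (hb : ∀ l, P l m = ρ) : LegC G m S Z n' := by
  refine ⟨ρ, hρZ, hρS, fun l i => if i = 0 then y l else P l (i - 1), ?_, ?_⟩
  · intro l
    refine ⟨?_, ?_, ?_, ?_⟩
    · simp only [if_true]
      exact hy l
    · simp only [if_neg (by omega : ¬ m + 1 = 0), Nat.add_sub_cancel]
      exact hb l
    · intro i hi
      rcases Nat.eq_zero_or_pos i with h1 | h1
      · subst h1
        simp only [if_true, if_neg (by omega : ¬ 0 + 1 = 0), Nat.add_sub_cancel]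
        exact hyP l
      · simp only [if_neg (by omega : ¬ i = 0), if_neg (by omega : ¬ i + 1 = 0),
          Nat.add_sub_cancel]
        have h2 := h.adj l (i - 1) (by omega)
        rw [Nat.sub_add_cancel h1] at h2
        exact h2
    · intro i hi1 hi2
      simp only [if_neg (by omega : ¬ i = 0)]
      rcases Nat.eq_zero_or_pos (i - 1) with h1 | h1
      · rw [h1]
        exact ha l
      · have h3 := h.out l (i - 1) h1 (by omega)
        exact ⟨fun h4 => h3 (hZ0 h4), fun h4 => h3 (hS0 h4), fun h4 => h3 (h4 ▸ hρ0)⟩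
  · have hPy : ∀ l l' i, i < m → P l i ≠ y l' := by
      intro l l' i hi h0
      rcases Nat.eq_zero_or_pos i with h2 | h2
      · rw [h2] at h0
        exact (ha l).2.1 (h0 ▸ hy l')
      · exact h.out l i h2 hi (h0 ▸ hS0 (hy l'))
    intro l l' i i' hi hi' h0
    by_cases h1 : i = 0
    · by_cases h2 : i' = 0
      · simp only [if_pos h1, if_pos h2] at h0
        exact ⟨hyI l l' h0, h1.trans h2.symm⟩
      · simp only [if_pos h1, if_neg h2] at h0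
        exact absurd h0.symm (hPy l' l (i' - 1) (by omega))
    · by_cases h2 : i' = 0
      · simp only [if_neg h1, if_pos h2] at h0
        exact absurd h0 (hPy l l' (i - 1) (by omega))
      · simp only [if_neg h1, if_neg h2] at h0
        obtain ⟨h3, h4⟩ := injA m n' P Z0 haI ha0 h.out h.dis h.inj l l' (i - 1) (i' - 1)
          (by omega) (by omega) h0
        exact ⟨h3, by omega⟩

lemma asmOcore (G : SimpleGraph V) (m n' : ℕ) (hm : 0 < m) (Q : V → V → Prop)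
    (S Z Z0 : Finset V) (w' : V)
    (y : Fin n' → V) (P : Fin n' → ℕ → V)
    (h : Pf G m n' Z0 P) (hρZ : w' ∉ Z) (hρS : w' ∉ S) (hZ0 : Z ⊆ Z0) (hS0 : S ⊆ Z0)
    (hρ0 : w' ∈ Z0) (hy : ∀ l, y l ∈ S) (hyI : ∀ l l', y l = y l' → l = l')
    (hyP : ∀ l, G.Adj (y l) (P l 0)) (ha : ∀ l, P l 0 ∉ Z ∧ P l 0 ∉ S ∧ P l 0 ≠ w')
    (ha0 : ∀ l, P l 0 ∈ Z0) (haI : ∀ l l', P l 0 = P l' 0 → l = l')
    (hb : ∀ l, P l m ∉ Z ∧ P l m ∉ S ∧ P l m ≠ w') (hbI : ∀ l l', P l m = P l' m → l = l')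
    (hb0 : ∀ l, P l m ∈ Z0) (hab : ∀ l l', P l 0 ≠ P l' m) (hQ : ∀ l, Q w' (P l m)) :
    CoreC G m Q S Z n' := by
  refine ⟨w', hρZ, hρS, fun l i => if i = 0 then y l else P l (i - 1), ?_, ?_⟩
  · intro l
    refine ⟨?_, ?_, ?_, ?_⟩
    · simp only [if_true]
      exact hy l
    · simp only [if_neg (by omega : ¬ m + 1 = 0), Nat.add_sub_cancel]
      exact hQ l
    · intro i hi
      rcases Nat.eq_zero_or_pos i with h1 | h1
      · subst h1
        simp only [if_true, if_neg (by omega : ¬ 0 + 1 = 0), Nat.add_sub_cancel]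
        exact hyP l
      · simp only [if_neg (by omega : ¬ i = 0), if_neg (by omega : ¬ i + 1 = 0),
          Nat.add_sub_cancel]
        have h2 := h.adj l (i - 1) (by omega)
        rw [Nat.sub_add_cancel h1] at h2
        exact h2
    · intro i hi1 hi2
      simp only [if_neg (by omega : ¬ i = 0)]
      rcases Nat.eq_zero_or_pos (i - 1) with h1 | h1
      · rw [h1]
        exact ha l
      · rcases Nat.lt_or_ge (i - 1) m with h5 | h5
        · have h3 := h.out l (i - 1) h1 h5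
          exact ⟨fun h4 => h3 (hZ0 h4), fun h4 => h3 (hS0 h4), fun h4 => h3 (h4 ▸ hρ0)⟩
        · have h6 : i - 1 = m := by omega
          rw [h6]
          exact hb l
  · have hPy : ∀ l l' i, i ≤ m → P l i ≠ y l' := by
      intro l l' i hi h0
      rcases Nat.eq_zero_or_pos i with h2 | h2
      · rw [h2] at h0
        exact (ha l).2.1 (h0 ▸ hy l')
      · rcases Nat.lt_or_ge i m with h5 | h5
        · exact h.out l i h2 h5 (h0 ▸ hS0 (hy l'))
        · have h6 : i = m := by omega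
          rw [h6] at h0
          exact (hb l).2.1 (h0 ▸ hy l')
    intro l l' i i' hi hi' h0
    by_cases h1 : i = 0
    · by_cases h2 : i' = 0
      · simp only [if_pos h1, if_pos h2] at h0
        exact ⟨hyI l l' h0, h1.trans h2.symm⟩
      · simp only [if_pos h1, if_neg h2] at h0
        exact absurd h0.symm (hPy l' l (i' - 1) (by omega))
    · by_cases h2 : i' = 0
      · simp only [if_neg h1, if_pos h2] at h0
        exact absurd h0 (hPy l l' (i - 1) (by omega))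
      · simp only [if_neg h1, if_neg h2] at h0
        obtain ⟨h3, h4⟩ := injB m n' P Z0 haI ha0 h.out h.dis h.inj hbI hb0 hab l l' (i - 1)
          (i' - 1) (by omega) (by omega) h0
        exact ⟨h3, by omega⟩

end asm

section moves

variable {V : Type} [Fintype V]

/-- switching -/
def SWH (𝓡 : Finset (Fin (2 + 1) → V)) (ζs m0 C : ℕ) : Prop :=
  ∀ (h : V) (S Z : Finset V), (∀ s ∈ S, AA 𝓡 h s) → S.card ≤ ζs → Z.card ≤ ζs → S.Nonempty →
    ∃ v, v ∉ Z ∧ v ∉ S ∧ v ≠ h ∧ ∃ S' ⊆ S, S.card ≤ C * S'.card ∧ ∀ s ∈ S',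
      m0 ≤ (Finset.univ.filter (fun s' => Tr 𝓡 s h s' ∧ AA 𝓡 v s')).card

/-- neighbours in A_h -/
def BA (G : SimpleGraph V) (𝓡 : Finset (Fin (2 + 1) → V)) (h y z : V) : Prop :=
  AA 𝓡 h z ∧ G.Adj y z

/-- possible centres -/
def Bd (G : SimpleGraph V) (𝓡 : Finset (Fin (2 + 1) → V)) (m0 : ℕ) :
    Option V → V → V → Prop
  | none, w, s => AA 𝓡 w s
  | some h, r, y => G.Adj r y ∧
      m0 ≤ (Finset.univ.filter (fun z => BA G 𝓡 h y z)).card

structure Cx (G : SimpleGraph V) (B : ℕ → V → V → Prop) (𝓡 : Finset (Fin (2 + 1) → V))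
    (q D M' K t ζ m0 ζ' Csw C : ℕ) : Prop where
  rst : RSt G B 2 q D M' 𝓡
  hi : ∀ v, (nb G v).card ≤ K * D
  lo : ∀ v, D ≤ (nb G v).card
  ext : EX G 𝓡 t ζ'
  sw : SWH 𝓡 (2 * ζ) m0 Csw
  hq : 0 < q
  hK : 0 < K
  hCsw : 0 < Csw
  c1 : Csw ≤ C
  c2 : 2 * (2 * K * q ^ 2) * K ≤ C
  c3 : 2 * q * K ≤ C
  m0l : 8 * ζ + 8 ≤ m0
  zl : 8 * ζ + 8 + ζ * (2 + 2 * t) ≤ ζ'
  Ml : 8 * ζ + 8 + m0 * K * (2 * K * q ^ 2) < M'
  Dl : 2 * (2 * K * q ^ 2) * (8 * ζ + 8) ≤ D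
  Dl2 : 2 * q * (8 * ζ + 8) ≤ D
  Dl3 : 8 * ζ + 8 ≤ D

variable {G : SimpleGraph V} {B : ℕ → V → V → Prop} {𝓡 : Finset (Fin (2 + 1) → V)}
  {q D M' K t ζ m0 ζ' Csw C : ℕ}

lemma legE (cx : Cx G B 𝓡 q D M' K t ζ m0 ζ' Csw C) (w : V) (S Z : Finset V) (n' : ℕ)
    (hS : ∀ s ∈ S, AA 𝓡 w s) (hn : 0 < n') (hC : C * n' ≤ S.card) (hSζ : S.card ≤ ζ)
    (hZζ : Z.card ≤ ζ) : LegC G (2 + 2 * t) S Z n' := by
  have hC' : Csw * n' ≤ S.card := (Nat.mul_le_mul_right _ cx.c1).trans hC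
  have hne : S.Nonempty := Finset.card_pos.mp (lt_of_lt_of_le (Nat.mul_pos cx.hCsw hn) hC')
  have hnS : n' ≤ S.card := (Nat.le_mul_of_pos_left n' cx.hCsw).trans hC'
  obtain ⟨v, hvZ, hvS, hvh, S', hS'S, hS'c, hS'⟩ := cx.sw w S Z hS (by omega) (by omega) hne
  have hn' : n' ≤ S'.card := Nat.le_of_mul_le_mul_left (hC'.trans hS'c) cx.hCsw
  obtain ⟨s, hs1, hs2⟩ := pick S' n' hn'
  have h1 := Finset.card_insert_le v (Z ∪ S)
  have h2 := Finset.card_union_le Z S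
  have hm0 := cx.m0l
  obtain ⟨b, hb1, hb2, hb3⟩ := greedy1 (κ := Fin n') (fun l s' => Tr 𝓡 (s l) w s' ∧ AA 𝓡 v s')
    (insert v (Z ∪ S)) (by
      intro l Z' hZ'
      rw [Fintype.card_fin] at hZ'
      obtain ⟨a, ha1, ha2⟩ := exists_notMem _ Z' (lt_of_lt_of_le (by omega) (hS' (s l) (hs2 l)))
      exact ⟨a, (Finset.mem_filter.mp ha1).2, ha2⟩)
  obtain ⟨Z0, hZ0⟩ : ∃ Z0, Z0 = insert v (Z ∪ S) ∪ Finset.univ.image b := ⟨_, rfl⟩
  have hZ0c : Z0.card ≤ 8 * ζ + 8 := by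
    rw [hZ0]
    have h3 := Finset.card_union_le (insert v (Z ∪ S)) (Finset.univ.image b)
    have h4 : (Finset.univ.image b).card ≤ n' := by
      refine Finset.card_image_le.trans ?_
      rw [Finset.card_univ, Fintype.card_fin]
    omega
  have hnt : n' * (2 + 2 * t) ≤ ζ * (2 + 2 * t) := Nat.mul_le_mul_right _ (hnS.trans hSζ)
  have hzl := cx.zl
  obtain ⟨P, hP1, hP2⟩ := route G 𝓡 t ζ' cx.ext n' s (fun _ => w) b (fun l => (hb1 l).1) Z0
    (by omega)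
  have hvn : v ∈ Z0 := by
    rw [hZ0]
    exact Finset.mem_union_left _ (Finset.mem_insert_self _ _)
  have hbn : ∀ l, b l ∈ Z0 := by
    intro l
    rw [hZ0]
    exact Finset.mem_union_right _ (Finset.mem_image_of_mem _ (Finset.mem_univ _))
  refine asmEleg G (2 + 2 * t) n' S Z Z0 v P
    ⟨fun l => (hP1 l).2.2.1, fun l => (hP1 l).2.2.2.1, fun l => (hP1 l).2.2.2.2, hP2⟩ hvZ hvS ?_ ?_
    hvn ?_ ?_ ?_ ?_ ?_ ?_
  · intro x hx
    rw [hZ0]
    exact Finset.mem_union_left _ (Finset.mem_insert_of_mem (Finset.mem_union_left _ hx))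
  · intro x hx
    rw [hZ0]
    exact Finset.mem_union_left _ (Finset.mem_insert_of_mem (Finset.mem_union_right _ hx))
  · intro l
    rw [(hP1 l).1]
    exact hS'S (hs2 l)
  · intro l l' h0
    rw [(hP1 l).1, (hP1 l').1] at h0
    exact hs1 h0
  · intro l
    rw [(hP1 l).2.1]
    refine ⟨?_, ?_, ?_⟩
    · exact fun h0 => hb2 l (Finset.mem_insert_of_mem (Finset.mem_union_left _ h0))
    · exact fun h0 => hb2 l (Finset.mem_insert_of_mem (Finset.mem_union_right _ h0))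
    · exact fun h0 => hb2 l (h0 ▸ Finset.mem_insert_self _ _)
  · intro l l' h0
    rw [(hP1 l).2.1, (hP1 l').2.1] at h0
    exact hb3 h0
  · intro l
    rw [(hP1 l).2.1]
    exact hbn l
  · intro l
    rw [(hP1 l).2.1]
    exact (AA_adj cx.rst (hb1 l).2).symm

/-- common ends of members starting with s, w and r, w -/
noncomputable def IJ (𝓡 : Finset (Fin (2 + 1) → V)) (w s r : V) : Finset V :=
  Finset.univ.filter (fun z => Tr 𝓡 s w z ∧ Tr 𝓡 r w z)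

/-- many common ends -/
def WG (𝓡 : Finset (Fin (2 + 1) → V)) (c D : ℕ) (w s r : V) : Prop :=
  D ≤ c * (IJ 𝓡 w s r).card

lemma many (cx : Cx G B 𝓡 q D M' K t ζ m0 ζ' Csw C) (w s : V) (hs : AA 𝓡 w s) :
    D ≤ (2 * K * q ^ 2) * ((Finset.univ.filter (fun r => AA 𝓡 w r)).filter (fun r =>
      WG 𝓡 (2 * K * q ^ 2) D w s r)).card := by
  obtain ⟨A, hA⟩ : ∃ A, A = Finset.univ.filter (fun r => AA 𝓡 w r) := ⟨_, rfl⟩
  obtain ⟨Gs, hGs⟩ : ∃ Gs, Gs = Finset.univ.filter (fun z => Tr 𝓡 s w z) := ⟨_, rfl⟩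
  obtain ⟨Ag, hAg⟩ : ∃ Ag, Ag = A.filter (fun r => WG 𝓡 (2 * K * q ^ 2) D w s r) := ⟨_, rfl⟩
  obtain ⟨Ab, hAb⟩ : ∃ Ab, Ab = A.filter (fun r => ¬ WG 𝓡 (2 * K * q ^ 2) D w s r) := ⟨_, rfl⟩
  rw [← hA, ← hAg]
  have hD : 0 < D := by
    have := cx.Dl3
    omega
  have hK := cx.hK
  have hq := cx.hq
  have hAc : A.card ≤ K * D := by
    refine (Finset.card_le_card ?_).trans (cx.hi w)
    intro r hr
    rw [hA] at hr
    exact (mem_nb _ _ _).mpr (AA_adj cx.rst (Finset.mem_filter.mp hr).2)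
  have h1 : D ≤ q * Gs.card := by
    rw [hGs]
    exact cnt1 cx.rst hs
  have h2 : Gs.card * D ≤ q * ∑ z ∈ Gs, (A.filter (fun r => Tr 𝓡 r w z)).card := by
    rw [Finset.mul_sum, ← smul_eq_mul, ← Finset.sum_const]
    refine Finset.sum_le_sum fun z hz => ?_
    rw [hGs] at hz
    refine (cnt1' cx.rst (Finset.mem_filter.mp hz).2).trans (Nat.mul_le_mul_left _
      (Finset.card_le_card ?_))
    intro r hr
    have h3 := (Finset.mem_filter.mp hr).2
    rw [hA]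
    exact Finset.mem_filter.mpr ⟨Finset.mem_filter.mpr ⟨Finset.mem_univ _, Tr_AA h3⟩, h3⟩
  have h3 : ∑ z ∈ Gs, (A.filter (fun r => Tr 𝓡 r w z)).card = ∑ r ∈ A, (IJ 𝓡 w s r).card := by
    rw [dbl Gs A (fun z r => Tr 𝓡 r w z)]
    refine Finset.sum_congr rfl fun r _ => ?_
    congr 1
    rw [hGs]
    unfold IJ
    rw [Finset.filter_filter]
  have h4 : ∑ r ∈ A, (IJ 𝓡 w s r).card = ∑ r ∈ Ag, (IJ 𝓡 w s r).card +
      ∑ r ∈ Ab, (IJ 𝓡 w s r).card := by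
    rw [hAg, hAb]
    exact (Finset.sum_filter_add_sum_filter_not A _ _).symm
  have h5 : ∑ r ∈ Ag, (IJ 𝓡 w s r).card ≤ Ag.card * (K * D) := by
    rw [← smul_eq_mul, ← Finset.sum_const]
    refine Finset.sum_le_sum fun r _ => ?_
    refine (Finset.card_le_card ?_).trans (cx.hi w)
    intro z hz
    exact (mem_nb _ _ _).mpr (Tr_adj cx.rst (Finset.mem_filter.mp hz).2.1).2.1
  have h6 : (2 * K * q ^ 2) * ∑ r ∈ Ab, (IJ 𝓡 w s r).card ≤ K * D * D := by
    rw [Finset.mul_sum]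
    calc ∑ r ∈ Ab, (2 * K * q ^ 2) * (IJ 𝓡 w s r).card ≤ ∑ r ∈ Ab, D := by
          refine Finset.sum_le_sum fun r hr => ?_
          rw [hAb] at hr
          have := (Finset.mem_filter.mp hr).2
          unfold WG at this
          omega
      _ = Ab.card * D := by rw [Finset.sum_const, smul_eq_mul]
      _ ≤ _ := by
          refine Nat.mul_le_mul_right _ (le_trans ?_ hAc)
          rw [hAb]
          exact Finset.card_filter_le _ _
  have h7 : 2 * q ^ 2 * ∑ r ∈ Ab, (IJ 𝓡 w s r).card ≤ D * D := by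
    refine Nat.le_of_mul_le_mul_left ?_ hK
    calc K * (2 * q ^ 2 * ∑ r ∈ Ab, (IJ 𝓡 w s r).card) =
        (2 * K * q ^ 2) * ∑ r ∈ Ab, (IJ 𝓡 w s r).card := by ring
      _ ≤ K * D * D := h6
      _ = K * (D * D) := by ring
  have h8 : D * D ≤ q ^ 2 * ∑ r ∈ A, (IJ 𝓡 w s r).card := by
    calc D * D ≤ q * Gs.card * D := Nat.mul_le_mul_right _ h1
      _ = q * (Gs.card * D) := by ring
      _ ≤ q * (q * ∑ z ∈ Gs, (A.filter (fun r => Tr 𝓡 r w z)).card) := Nat.mul_le_mul_left _ h2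
      _ = _ := by rw [h3]; ring
  rw [h4] at h8
  have h9 : 2 * (q ^ 2 * (∑ r ∈ Ag, (IJ 𝓡 w s r).card + ∑ r ∈ Ab, (IJ 𝓡 w s r).card)) =
      2 * q ^ 2 * ∑ r ∈ Ag, (IJ 𝓡 w s r).card + 2 * q ^ 2 * ∑ r ∈ Ab, (IJ 𝓡 w s r).card := by ring
  have h10 : 2 * q ^ 2 * ∑ r ∈ Ag, (IJ 𝓡 w s r).card ≤ 2 * q ^ 2 * (Ag.card * (K * D)) :=
    Nat.mul_le_mul_left _ h5
  have h11 : D * D ≤ (2 * K * q ^ 2 * Ag.card) * D := by
    have h12 : 2 * q ^ 2 * (Ag.card * (K * D)) = (2 * K * q ^ 2 * Ag.card) * D := by ring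
    omega
  exact Nat.le_of_mul_le_mul_right h11 hD

lemma mid (cx : Cx G B 𝓡 q D M' K t ζ m0 ζ' Csw C) (w s r : V)
    (h : WG 𝓡 (2 * K * q ^ 2) D w s r) (X : Finset V) (hX : X.card ≤ 8 * ζ + 8) :
    ∃ y, m0 ≤ ((IJ 𝓡 w s r).filter (fun z => Tr 𝓡 r y z)).card ∧ y ∉ X := by
  by_contra hcon
  push Not at hcon
  have hcon' : ∀ y, y ∉ X → ((IJ 𝓡 w s r).filter (fun z => Tr 𝓡 r y z)).card ≤ m0 := by
    intro y hy
    by_contra h0
    push Not at h0
    exact hy (hcon y h0.le)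
  obtain ⟨I, hI⟩ : ∃ I, I = IJ 𝓡 w s r := ⟨_, rfl⟩
  unfold WG at h
  rw [← hI] at h hcon'
  have hD : 0 < D := by
    have := cx.Dl3
    omega
  have hIpos : 0 < I.card := by
    rcases Nat.eq_zero_or_pos I.card with h0 | h0
    · rw [h0, mul_zero] at h
      omega
    · exact h0
  have h1 : I.card * M' ≤ ∑ z ∈ I, ((nb G r).filter (fun y => Tr 𝓡 r y z)).card := by
    rw [← smul_eq_mul, ← Finset.sum_const]
    refine Finset.sum_le_sum fun z hz => ?_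
    rw [hI] at hz
    refine (cnt2 cx.rst (Finset.mem_filter.mp hz).2.2).trans (Finset.card_le_card ?_)
    intro y hy
    have h2 := (Finset.mem_filter.mp hy).2
    exact Finset.mem_filter.mpr ⟨(mem_nb _ _ _).mpr (Tr_adj cx.rst h2).1, h2⟩
  rw [dbl I (nb G r) (fun z y => Tr 𝓡 r y z)] at h1
  have h2 : ∑ y ∈ nb G r, (I.filter (fun z => Tr 𝓡 r y z)).card ≤
      ∑ y ∈ nb G r, ((if y ∈ X then I.card else 0) + m0) := by
    refine Finset.sum_le_sum fun y _ => ?_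
    by_cases hy : y ∈ X
    · rw [if_pos hy]
      exact (Finset.card_filter_le _ _).trans (Nat.le_add_right _ _)
    · rw [if_neg hy, zero_add]
      exact hcon' y hy
  have h3 : ∑ y ∈ nb G r, ((if y ∈ X then I.card else 0) + m0) ≤
      (8 * ζ + 8) * I.card + (K * D) * m0 := by
    rw [Finset.sum_add_distrib, ← Finset.sum_filter, Finset.sum_const, Finset.sum_const,
      smul_eq_mul, smul_eq_mul]
    refine Nat.add_le_add (Nat.mul_le_mul_right _ (le_trans (Finset.card_le_card ?_) hX))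
      (Nat.mul_le_mul_right _ (cx.hi r))
    intro y hy
    exact (Finset.mem_filter.mp hy).2
  have h4 : (K * D) * m0 ≤ (m0 * K * (2 * K * q ^ 2)) * I.card := by
    calc (K * D) * m0 = (m0 * K) * D := by ring
      _ ≤ (m0 * K) * ((2 * K * q ^ 2) * I.card) := Nat.mul_le_mul_left _ h
      _ = _ := by ring
  have h5 : M' * I.card ≤ (8 * ζ + 8 + m0 * K * (2 * K * q ^ 2)) * I.card := by
    calc M' * I.card = I.card * M' := by ring
      _ ≤ (8 * ζ + 8) * I.card + (K * D) * m0 := h1.trans (h2.trans h3)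
      _ ≤ (8 * ζ + 8) * I.card + (m0 * K * (2 * K * q ^ 2)) * I.card := Nat.add_le_add_left h4 _
      _ = _ := by ring
  have h6 := Nat.le_of_mul_le_mul_right h5 hIpos
  have h7 := cx.Ml
  omega

lemma coreE (cx : Cx G B 𝓡 q D M' K t ζ m0 ζ' Csw C) (w : V) (S Z : Finset V) (n' : ℕ)
    (hS : ∀ s ∈ S, AA 𝓡 w s) (hn : 0 < n') (hC : C * n' ≤ S.card) (hSζ : S.card ≤ ζ)
    (hZζ : Z.card ≤ ζ) : CoreC G (2 + 2 * t) (Bd G 𝓡 m0 (some w)) S Z n' := by
  have hK := cx.hK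
  have hq := cx.hq
  have hcpos : 0 < 2 * (2 * K * q ^ 2) * K := by positivity
  have hC' : 2 * (2 * K * q ^ 2) * K * n' ≤ S.card := (Nat.mul_le_mul_right _ cx.c2).trans hC
  have hne : S.Nonempty := Finset.card_pos.mp (lt_of_lt_of_le (Nat.mul_pos hcpos hn) hC')
  have hnS : n' ≤ S.card := (Nat.le_mul_of_pos_left n' hcpos).trans hC'
  have hD : 0 < D := by
    have := cx.Dl3
    omega
  have hZS := Finset.card_union_le Z S
  obtain ⟨r, hrA, hrZS, hrS⟩ := common S (Finset.univ.filter (fun r => AA 𝓡 w r)) (Z ∪ S)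
    (fun s r => WG 𝓡 (2 * K * q ^ 2) D w s r) D K (2 * K * q ^ 2) hK hD hne (by
      refine (Finset.card_le_card ?_).trans (cx.hi w)
      intro r hr
      exact (mem_nb _ _ _).mpr (AA_adj cx.rst (Finset.mem_filter.mp hr).2)) (by
      refine le_trans (Nat.mul_le_mul_left _ ?_) cx.Dl
      omega) (fun s hs => many cx w s (hS s hs))
  obtain ⟨s, hs1, hs2⟩ := pick _ n' (Nat.le_of_mul_le_mul_left (hC'.trans hrS) hcpos)
  have hsS : ∀ l, s l ∈ S := fun l => (Finset.mem_filter.mp (hs2 l)).1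
  have hsI : ∀ l, WG 𝓡 (2 * K * q ^ 2) D w (s l) r :=
    fun l => (Finset.mem_filter.mp (hs2 l)).2
  have hm0 := cx.m0l
  obtain ⟨y, hy1, hy2, hy3⟩ := greedy1 (κ := Fin n')
    (fun l y => m0 ≤ ((IJ 𝓡 w (s l) r).filter (fun z => Tr 𝓡 r y z)).card) (Z ∪ S) (by
      intro l Z' hZ'
      rw [Fintype.card_fin] at hZ'
      exact mid cx w (s l) r (hsI l) Z' (by omega))
  obtain ⟨Z1, hZ1⟩ : ∃ Z1, Z1 = insert r (Z ∪ S) ∪ Finset.univ.image y := ⟨_, rfl⟩
  have hZ1c : Z1.card ≤ 3 * ζ + 1 := by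
    rw [hZ1]
    have h1 := Finset.card_insert_le r (Z ∪ S)
    have h3 := Finset.card_union_le (insert r (Z ∪ S)) (Finset.univ.image y)
    have h4 : (Finset.univ.image y).card ≤ n' := by
      refine Finset.card_image_le.trans ?_
      rw [Finset.card_univ, Fintype.card_fin]
    omega
  obtain ⟨z, hz1, hz2, hz3⟩ := greedy1 (κ := Fin n')
    (fun l z => z ∈ IJ 𝓡 w (s l) r ∧ Tr 𝓡 r (y l) z) Z1 (by
      intro l Z' hZ'
      rw [Fintype.card_fin] at hZ'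
      obtain ⟨a, ha1, ha2⟩ := exists_notMem _ Z' (lt_of_lt_of_le (by omega) (hy1 l))
      exact ⟨a, ⟨(Finset.mem_filter.mp ha1).1, (Finset.mem_filter.mp ha1).2⟩, ha2⟩)
  obtain ⟨Z0, hZ0⟩ : ∃ Z0, Z0 = Z1 ∪ Finset.univ.image z := ⟨_, rfl⟩
  have hZ0c : Z0.card ≤ 8 * ζ + 8 := by
    rw [hZ0]
    have h3 := Finset.card_union_le Z1 (Finset.univ.image z)
    have h4 : (Finset.univ.image z).card ≤ n' := by
      refine Finset.card_image_le.trans ?_
      rw [Finset.card_univ, Fintype.card_fin]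
    omega
  have hnt : n' * (2 + 2 * t) ≤ ζ * (2 + 2 * t) := Nat.mul_le_mul_right _ (hnS.trans hSζ)
  have hzl := cx.zl
  have hTs : ∀ l, Tr 𝓡 (s l) w (z l) := fun l => (Finset.mem_filter.mp (hz1 l).1).2.1
  obtain ⟨P, hP1, hP2⟩ := route G 𝓡 t ζ' cx.ext n' s (fun _ => w) z hTs Z0 (by omega)
  have hZ10 : Z1 ⊆ Z0 := by
    rw [hZ0]
    exact Finset.subset_union_left
  have hin1 : insert r (Z ∪ S) ⊆ Z1 := by
    rw [hZ1]
    exact Finset.subset_union_left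
  have hyn : ∀ l, y l ∈ Z1 := by
    intro l
    rw [hZ1]
    exact Finset.mem_union_right _ (Finset.mem_image_of_mem _ (Finset.mem_univ _))
  have hzn : ∀ l, z l ∈ Z0 := by
    intro l
    rw [hZ0]
    exact Finset.mem_union_right _ (Finset.mem_image_of_mem _ (Finset.mem_univ _))
  refine asmEcore G (2 + 2 * t) n' (Bd G 𝓡 m0 (some w)) S Z Z0 r P y
    ⟨fun l => (hP1 l).2.2.1, fun l => (hP1 l).2.2.2.1, fun l => (hP1 l).2.2.2.2, hP2⟩
    (fun h0 => hrZS (Finset.mem_union_left _ h0)) (fun h0 => hrZS (Finset.mem_union_right _ h0))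
    (fun x hx => hZ10 (hin1 (Finset.mem_insert_of_mem (Finset.mem_union_left _ hx))))
    (fun x hx => hZ10 (hin1 (Finset.mem_insert_of_mem (Finset.mem_union_right _ hx))))
    (hZ10 (hin1 (Finset.mem_insert_self _ _))) ?_ ?_ ?_ ?_ ?_ ?_ ?_ ?_ ?_ ?_ ?_
  · intro l
    rw [(hP1 l).1]
    exact hsS l
  · intro l l' h0
    rw [(hP1 l).1, (hP1 l').1] at h0
    exact hs1 h0
  · intro l
    rw [(hP1 l).2.1]
    refine ⟨?_, ?_, ?_⟩
    · exact fun h0 => hz2 l (hin1 (Finset.mem_insert_of_mem (Finset.mem_union_left _ h0)))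
    · exact fun h0 => hz2 l (hin1 (Finset.mem_insert_of_mem (Finset.mem_union_right _ h0)))
    · exact fun h0 => hz2 l (h0 ▸ hin1 (Finset.mem_insert_self _ _))
  · intro l l' h0
    rw [(hP1 l).2.1, (hP1 l').2.1] at h0
    exact hz3 h0
  · intro l
    rw [(hP1 l).2.1]
    exact hzn l
  · intro l
    refine ⟨?_, ?_, ?_⟩
    · exact fun h0 => hy2 l (Finset.mem_union_left _ h0)
    · exact fun h0 => hy2 l (Finset.mem_union_right _ h0)
    · intro h0
      have h1 := (Tr_adj cx.rst (hz1 l).2).1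
      rw [h0] at h1
      exact G.loopless.irrefl _ h1
  · intro l l' h0
    exact hy3 h0
  · intro l
    exact hZ10 (hyn l)
  · intro l l' h0
    rw [(hP1 l).2.1] at h0
    exact hz2 l (h0 ▸ hyn l')
  · intro l
    rw [(hP1 l).2.1]
    exact (Tr_adj cx.rst (hz1 l).2).2.1.symm
  · intro l
    refine ⟨(Tr_adj cx.rst (hz1 l).2).1, (hy1 l).trans (Finset.card_le_card ?_)⟩
    intro x hx
    obtain ⟨h1, h2⟩ := Finset.mem_filter.mp hx
    refine Finset.mem_filter.mpr ⟨Finset.mem_univ _, ?_, (Tr_adj cx.rst h2).2.1⟩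
    exact Tr_AA (Tr_symm cx.rst (Finset.mem_filter.mp h1).2.1)

lemma legO (cx : Cx G B 𝓡 q D M' K t ζ m0 ζ' Csw C) (h w : V) (S Z : Finset V) (n' : ℕ)
    (hS : ∀ s ∈ S, Bd G 𝓡 m0 (some h) w s) (hn : 0 < n') (hC : C * n' ≤ S.card)
    (hSζ : S.card ≤ ζ) (hZζ : Z.card ≤ ζ) : LegC G (2 + 2 * t) S Z n' := by
  have hK := cx.hK
  have hq := cx.hq
  have hcpos : 0 < 2 * q * K := by positivity
  have hC' : 2 * q * K * n' ≤ S.card := (Nat.mul_le_mul_right _ cx.c3).trans hC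
  have hne : S.Nonempty := Finset.card_pos.mp (lt_of_lt_of_le (Nat.mul_pos hcpos hn) hC')
  have hnS : n' ≤ S.card := (Nat.le_mul_of_pos_left n' hcpos).trans hC'
  have hD : 0 < D := by
    have := cx.Dl3
    omega
  have hZS := Finset.card_union_le Z S
  have hm0 := cx.m0l
  obtain ⟨z, hz1, hz2⟩ := grd S (Z ∪ S) (fun y z => BA G 𝓡 h y z) m0
    (fun y hy => (hS y hy).2) (by omega)
  obtain ⟨X, hX⟩ : ∃ X, X = (Z ∪ S) ∪ S.image z := ⟨_, rfl⟩
  have hXc : X.card ≤ 3 * ζ := by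
    rw [hX]
    have h1 := Finset.card_union_le (Z ∪ S) (S.image z)
    have h2 : (S.image z).card ≤ S.card := Finset.card_image_le
    omega
  obtain ⟨ρ, hρN, hρX, hρS⟩ := common S (nb G h) X (fun y ρ => Tr 𝓡 (z y) h ρ) D K q hK hD hne
    (cx.hi h) (by
      refine le_trans (Nat.mul_le_mul_left _ ?_) cx.Dl2
      omega) (by
      intro y hy
      refine (cnt1 cx.rst (hz1 y hy).1.1).trans (Nat.mul_le_mul_left _ (Finset.card_le_card ?_))
      intro x hx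
      have h1 := (Finset.mem_filter.mp hx).2
      exact Finset.mem_filter.mpr ⟨(mem_nb _ _ _).mpr (Tr_adj cx.rst h1).2.1, h1⟩)
  have hn' : n' ≤ (S.filter (fun y => Tr 𝓡 (z y) h ρ)).card :=
    Nat.le_of_mul_le_mul_left (hC'.trans hρS) hcpos
  obtain ⟨y, hy1, hy2⟩ := pick _ n' hn'
  have hyS : ∀ l, y l ∈ S := fun l => (Finset.mem_filter.mp (hy2 l)).1
  have hyT : ∀ l, Tr 𝓡 (z (y l)) h ρ := fun l => (Finset.mem_filter.mp (hy2 l)).2
  obtain ⟨Z0, hZ0⟩ : ∃ Z0, Z0 = insert ρ X := ⟨_, rfl⟩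
  have hZ0c : Z0.card ≤ 8 * ζ + 8 := by
    rw [hZ0]
    have := Finset.card_insert_le ρ X
    omega
  have hnt : n' * (2 + 2 * t) ≤ ζ * (2 + 2 * t) := Nat.mul_le_mul_right _ (hnS.trans hSζ)
  have hzl := cx.zl
  obtain ⟨P, hP1, hP2⟩ := route G 𝓡 t ζ' cx.ext n' (fun l => z (y l)) (fun _ => h) (fun _ => ρ)
    hyT Z0 (by omega)
  have hX0 : X ⊆ Z0 := by
    rw [hZ0]
    exact Finset.subset_insert _ _
  have hZX : Z ⊆ X := by
    rw [hX]
    exact Finset.subset_union_left.trans Finset.subset_union_left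
  have hSX : S ⊆ X := by
    rw [hX]
    exact Finset.subset_union_right.trans Finset.subset_union_left
  have hzX : ∀ l, z (y l) ∈ X := by
    intro l
    rw [hX]
    exact Finset.mem_union_right _ (Finset.mem_image_of_mem _ (hyS l))
  refine asmOleg G (2 + 2 * t) n' (by omega) S Z Z0 ρ y P
    ⟨fun l => (hP1 l).2.2.1, fun l => (hP1 l).2.2.2.1, fun l => (hP1 l).2.2.2.2, hP2⟩
    (fun h0 => hρX (hZX h0)) (fun h0 => hρX (hSX h0)) (hZX.trans hX0) (hSX.trans hX0)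
    (by rw [hZ0]; exact Finset.mem_insert_self _ _) hyS (fun l l' h0 => hy1 h0) ?_ ?_ ?_ ?_ ?_
  · intro l
    rw [(hP1 l).1]
    exact (hz1 _ (hyS l)).1.2
  · intro l
    rw [(hP1 l).1]
    refine ⟨?_, ?_, ?_⟩
    · exact fun h0 => (hz1 _ (hyS l)).2 (Finset.mem_union_left _ h0)
    · exact fun h0 => (hz1 _ (hyS l)).2 (Finset.mem_union_right _ h0)
    · exact fun h0 => hρX (h0 ▸ hzX l)
  · intro l
    rw [(hP1 l).1]
    exact hX0 (hzX l)
  · intro l l' h0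
    rw [(hP1 l).1, (hP1 l').1] at h0
    exact hy1 (hz2 _ (hyS l) _ (hyS l') h0)
  · intro l
    exact (hP1 l).2.1

lemma coreO (cx : Cx G B 𝓡 q D M' K t ζ m0 ζ' Csw C) (h w : V) (S Z : Finset V) (n' : ℕ)
    (hS : ∀ s ∈ S, Bd G 𝓡 m0 (some h) w s) (hn : 0 < n') (hC : C * n' ≤ S.card)
    (hSζ : S.card ≤ ζ) (hZζ : Z.card ≤ ζ) :
    CoreC G (2 + 2 * t) (Bd G 𝓡 m0 none) S Z n' := by
  have hC' : Csw * n' ≤ S.card := (Nat.mul_le_mul_right _ cx.c1).trans hC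
  have hne : S.Nonempty := Finset.card_pos.mp (lt_of_lt_of_le (Nat.mul_pos cx.hCsw hn) hC')
  have hnS : n' ≤ S.card := (Nat.le_mul_of_pos_left n' cx.hCsw).trans hC'
  have hZS := Finset.card_union_le Z S
  have hm0 := cx.m0l
  obtain ⟨z, hz1, hz2⟩ := grd S (Z ∪ S) (fun y z => BA G 𝓡 h y z) m0
    (fun y hy => (hS y hy).2) (by omega)
  have hzc : (S.image z).card = S.card := Finset.card_image_of_injOn (by
    intro a ha b hb hab
    exact hz2 a (Finset.mem_coe.mp ha) b (Finset.mem_coe.mp hb) hab)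
  obtain ⟨v, hvZ, hvS, hvh, S', hS'S, hS'c, hS'⟩ := cx.sw h (S.image z) (Z ∪ S) (by
    intro x hx
    obtain ⟨y, hy, rfl⟩ := Finset.mem_image.mp hx
    exact (hz1 y hy).1.1) (by omega) (by omega) (hne.image z)
  rw [hzc] at hS'c
  have hn' : n' ≤ S'.card := Nat.le_of_mul_le_mul_left (hC'.trans hS'c) cx.hCsw
  obtain ⟨u, hu1, hu2⟩ := pick S' n' hn'
  have hu3 : ∀ l, ∃ y, y ∈ S ∧ z y = u l := fun l => Finset.mem_image.mp (hS'S (hu2 l))
  choose y hyS hyu using hu3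
  obtain ⟨X, hX⟩ : ∃ X, X = insert v ((Z ∪ S) ∪ S.image z) := ⟨_, rfl⟩
  have hXc : X.card ≤ 3 * ζ + 1 := by
    rw [hX]
    have h0 := Finset.card_insert_le v ((Z ∪ S) ∪ S.image z)
    have h1 := Finset.card_union_le (Z ∪ S) (S.image z)
    omega
  obtain ⟨b, hb1, hb2, hb3⟩ := greedy1 (κ := Fin n') (fun l s' => Tr 𝓡 (u l) h s' ∧ AA 𝓡 v s') X
    (by
      intro l Z' hZ'
      rw [Fintype.card_fin] at hZ'
      obtain ⟨a, ha1, ha2⟩ := exists_notMem _ Z' (lt_of_lt_of_le (by omega) (hS' (u l) (hu2 l)))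
      exact ⟨a, (Finset.mem_filter.mp ha1).2, ha2⟩)
  obtain ⟨Z0, hZ0⟩ : ∃ Z0, Z0 = X ∪ Finset.univ.image b := ⟨_, rfl⟩
  have hZ0c : Z0.card ≤ 8 * ζ + 8 := by
    rw [hZ0]
    have h3 := Finset.card_union_le X (Finset.univ.image b)
    have h4 : (Finset.univ.image b).card ≤ n' := by
      refine Finset.card_image_le.trans ?_
      rw [Finset.card_univ, Fintype.card_fin]
    omega
  have hnt : n' * (2 + 2 * t) ≤ ζ * (2 + 2 * t) := Nat.mul_le_mul_right _ (hnS.trans hSζ)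
  have hzl := cx.zl
  obtain ⟨P, hP1, hP2⟩ := route G 𝓡 t ζ' cx.ext n' u (fun _ => h) b (fun l => (hb1 l).1) Z0
    (by omega)
  have hX0 : X ⊆ Z0 := by
    rw [hZ0]
    exact Finset.subset_union_left
  have hZX : Z ⊆ X := by
    rw [hX]
    exact (Finset.subset_union_left.trans Finset.subset_union_left).trans
      (Finset.subset_insert _ _)
  have hSX : S ⊆ X := by
    rw [hX]
    exact (Finset.subset_union_right.trans Finset.subset_union_left).trans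
      (Finset.subset_insert _ _)
  have hvX : v ∈ X := by
    rw [hX]
    exact Finset.mem_insert_self _ _
  have huX : ∀ l, u l ∈ X := by
    intro l
    rw [hX]
    exact Finset.mem_insert_of_mem (Finset.mem_union_right _ (hS'S (hu2 l)))
  have hbn : ∀ l, b l ∈ Z0 := by
    intro l
    rw [hZ0]
    exact Finset.mem_union_right _ (Finset.mem_image_of_mem _ (Finset.mem_univ _))
  have huout : ∀ l, u l ∉ Z ∪ S := by
    intro l
    rw [← hyu l]
    exact (hz1 _ (hyS l)).2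
  refine asmOcore G (2 + 2 * t) n' (by omega) (Bd G 𝓡 m0 none) S Z Z0 v y P
    ⟨fun l => (hP1 l).2.2.1, fun l => (hP1 l).2.2.2.1, fun l => (hP1 l).2.2.2.2, hP2⟩
    (fun h0 => hvZ (Finset.mem_union_left _ h0)) (fun h0 => hvZ (Finset.mem_union_right _ h0))
    (hZX.trans hX0) (hSX.trans hX0) (hX0 hvX) hyS ?_ ?_ ?_ ?_ ?_ ?_ ?_ ?_ ?_ ?_
  · intro l l' h0
    have h1 := congrArg z h0
    rw [hyu l, hyu l'] at h1
    exact hu1 h1
  · intro l
    rw [(hP1 l).1, ← hyu l]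
    exact (hz1 _ (hyS l)).1.2
  · intro l
    rw [(hP1 l).1]
    refine ⟨?_, ?_, ?_⟩
    · exact fun h0 => huout l (Finset.mem_union_left _ h0)
    · exact fun h0 => huout l (Finset.mem_union_right _ h0)
    · exact fun h0 => hvS (h0 ▸ hS'S (hu2 l))
  · intro l
    rw [(hP1 l).1]
    exact hX0 (huX l)
  · intro l l' h0
    rw [(hP1 l).1, (hP1 l').1] at h0
    exact hu1 h0
  · intro l
    rw [(hP1 l).2.1]
    refine ⟨?_, ?_, ?_⟩
    · exact fun h0 => hb2 l (hZX h0)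
    · exact fun h0 => hb2 l (hSX h0)
    · exact fun h0 => hb2 l (h0 ▸ hvX)
  · intro l l' h0
    rw [(hP1 l).2.1, (hP1 l').2.1] at h0
    exact hb3 h0
  · intro l
    rw [(hP1 l).2.1]
    exact hbn l
  · intro l l' h0
    rw [(hP1 l).1, (hP1 l').2.1] at h0
    exact hb2 l' (h0 ▸ huX l)
  · intro l
    rw [(hP1 l).2.1]
    exact (hb1 l).2

lemma leg0 [Nonempty V] (cx : Cx G B 𝓡 q D M' K t ζ m0 ζ' Csw C) (k : ℕ) (S Z : Finset V)
    (hSζ : S.card ≤ ζ) (hZζ : Z.card ≤ ζ) : LegC G k S Z 0 := by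
  have hZS := Finset.card_union_le Z S
  have h1 := cx.Dl3
  obtain ⟨v, hv⟩ := fresh G D cx.lo (Z ∪ S) (by omega)
  exact ⟨v, fun h0 => hv (Finset.mem_union_left _ h0), fun h0 => hv (Finset.mem_union_right _ h0),
    fun l => l.elim0, fun l => l.elim0, fun l => l.elim0⟩

lemma core0 [Nonempty V] (cx : Cx G B 𝓡 q D M' K t ζ m0 ζ' Csw C) (k : ℕ) (Q : V → V → Prop)
    (S Z : Finset V) (hSζ : S.card ≤ ζ) (hZζ : Z.card ≤ ζ) : CoreC G k Q S Z 0 := by
  have hZS := Finset.card_union_le Z S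
  have h1 := cx.Dl3
  obtain ⟨v, hv⟩ := fresh G D cx.lo (Z ∪ S) (by omega)
  exact ⟨v, fun h0 => hv (Finset.mem_union_left _ h0), fun h0 => hv (Finset.mem_union_right _ h0),
    fun l => l.elim0, fun l => l.elim0, fun l => l.elim0⟩

lemma all [Nonempty V] (cx : Cx G B 𝓡 q D M' K t ζ m0 ζ' Csw C) :
    Mv G (2 + 2 * t) C ζ (Option V) (Bd G 𝓡 m0) (fun _ _ => True) := by
  refine ⟨?_, ?_, ?_⟩
  · intro a w s h
    cases a with
    | none => exact AA_adj cx.rst h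
    | some h' => exact h.1
  · intro n a _ w S Z n' hS _ hC hSζ hZζ
    rcases Nat.eq_zero_or_pos n' with h0 | h0
    · subst h0
      exact leg0 cx _ S Z hSζ hZζ
    · cases a with
      | none => exact legE cx w S Z n' hS h0 hC hSζ hZζ
      | some h' => exact legO cx h' w S Z n' hS h0 hC hSζ hZζ
  · intro n a _ w S Z n' hS _ hC hSζ hZζ
    rcases Nat.eq_zero_or_pos n' with h0 | h0
    · subst h0
      exact ⟨none, trivial, core0 cx _ _ S Z hSζ hZζ⟩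
    · cases a with
      | none => exact ⟨some w, trivial, coreE cx w S Z n' hS h0 hC hSζ hZζ⟩
      | some h' => exact ⟨none, trivial, coreO cx h' w S Z n' hS h0 hC hSζ hZζ⟩

lemma ini (cx : Cx G B 𝓡 q D M' K t ζ m0 ζ' Csw C) (n : ℕ) :
    Ini ζ (Option V) (Bd G 𝓡 m0) (fun _ _ => True) n := by
  intro n0 hn0
  obtain ⟨p, hp⟩ := cx.rst.ne
  have hT : Tr 𝓡 (ex 2 p 0) (ex 2 p 1) (ex 2 p 2) := ⟨p, hp, rfl, rfl, rfl⟩
  have h1 := cnt1 cx.rst (Tr_AA hT)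
  have h2 : n0 ≤ (Finset.univ.filter (fun b => Tr 𝓡 (ex 2 p 0) (ex 2 p 1) b)).card := by
    by_contra hlt
    push Not at hlt
    have h3 : q * (Finset.univ.filter (fun b => Tr 𝓡 (ex 2 p 0) (ex 2 p 1) b)).card ≤ q * ζ :=
      Nat.mul_le_mul_left _ (by omega)
    have h4 := cx.Dl2
    have h5 : 2 * q * (8 * ζ + 8) = 16 * (q * ζ) + 16 * q := by ring
    have hq := cx.hq
    omega
  obtain ⟨S, hS1, hS2⟩ := Finset.exists_subset_card_eq h2
  have hS3 : ∀ s ∈ S, AA 𝓡 (ex 2 p 1) s := fun s hs =>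
    Tr_AA (Tr_symm cx.rst (Finset.mem_filter.mp (hS1 hs)).2)
  refine ⟨none, ex 2 p 1, S, trivial, hS2, ?_, hS3⟩
  intro h0
  exact G.loopless.irrefl _ (AA_adj cx.rst (hS3 _ h0))

end moves

end Pool.Agent.TH476.KK.KMv2e

namespace Pool.Agent.TH476.KK

open Pool.Agent.TH476

theorem mv2e_holds : S_RST → S_EXT → S_SW → ∀ k, 2 ≤ k → k % 2 = 0 → S_MV k 2 := by
  intro hRST hEXT hSW k hk hk2 K Q hK hQ
  obtain ⟨t, rfl⟩ : ∃ t, k = 2 + 2 * t := ⟨(k - 2) / 2, by omega⟩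
  obtain ⟨q, hq, hRST'⟩ := hRST 2 K Q le_rfl hK hQ
  obtain ⟨Csw, hCsw, hSW'⟩ := hSW K q hK hq
  refine ⟨Csw + 2 * (2 * K * q ^ 2) * K + 2 * q * K, by omega, ?_⟩
  intro F0 ζ
  obtain ⟨m0, hm0⟩ : ∃ m0, m0 = 8 * ζ + 8 := ⟨_, rfl⟩
  obtain ⟨ζ', hζ'⟩ : ∃ ζ', ζ' = 8 * ζ + 8 + ζ * (2 + 2 * t) := ⟨_, rfl⟩
  obtain ⟨M1, D1, hEXT'⟩ := hEXT 2 q F0 ζ' t le_rfl hq
  obtain ⟨M2, D2, hSW''⟩ := hSW' (2 * ζ) m0
  obtain ⟨M', hM'⟩ : ∃ M', M' = M1 + M2 + (8 * ζ + 8 + m0 * K * (2 * K * q ^ 2)) + 1 := ⟨_, rfl⟩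
  obtain ⟨M, hM⟩ := hRST' M'
  refine ⟨M, D1 + D2 + 2 * (2 * K * q ^ 2) * (8 * ζ + 8) + 2 * q * (8 * ζ + 8) + (8 * ζ + 8), ?_⟩
  intro V _ _ G D B hG hD hB hRich hBN hcnt
  obtain ⟨𝓡, hR⟩ := hM V G D B hG (by omega) hB hRich hcnt
  have cx : KMv2e.Cx G B 𝓡 q D M' K t ζ m0 ζ' Csw
      (Csw + 2 * (2 * K * q ^ 2) * K + 2 * q * K) := by
    refine ⟨hR, hG.hi, hG.lo, ?_, ?_, hq, hK, hCsw, by omega, by omega, by omega, by omega,
      by omega, by omega, by omega, by omega, by omega⟩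
    · intro p hp Z hZ
      exact hEXT' V G D B 𝓡 hB hBN (by omega) (KMv2e.RSt_mono (by omega) hR) p hp Z hZ
    · intro h S Z h1 h2 h3 h4
      obtain ⟨v, a1, a2, a3, S', b1, b2, b3⟩ := hSW'' V G D B 𝓡 hG (by omega)
        (KMv2e.RSt_mono (by omega) hR) h S Z h1 h2 h3 h4
      exact ⟨v, a1, a2, a3, S', b1, b2, fun s hs => (b3 s hs).trans (Finset.card_le_card
        fun x hx => Finset.mem_filter.mpr (Finset.mem_filter.mp hx))⟩
  exact ⟨Option V, KMv2e.Bd G 𝓡 m0, fun _ _ => True, KMv2e.all cx, fun n _ => KMv2e.ini cx n⟩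

end Pool.Agent.TH476.KK
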