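import Pool.Agent.TH476.KHub

/-!
# Moves from rich paths of length 2, k odd
-/

set_option autoImplicit false

open Classical

namespace Pool.Agent.TH476.KK

open Pool.Agent.TH476

namespace KMv2o

/-- paths chosen one after the other -/
lemma seqp {V : Type} (m ζ' : ℕ) (s : ℕ → V) (Cd : ℕ → (ℕ → V) → Prop) (Av : Finset V) (n' : ℕ)
    (hs : ∀ l, l < n' → s l ∈ Av)
    (hsi : ∀ l l', l < n' → l' < n' → s l = s l' → l = l')
    (hz : Av.card + n' * (m + 1) ≤ ζ')
    (h : ∀ l, l < n' → ∀ Z : Finset V, Z.card ≤ ζ' → ∃ P : ℕ → V, P 0 = s l ∧ Cd l P ∧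
      (∀ i, 1 ≤ i → i ≤ m → P i ∉ Z) ∧ ∀ i i', i ≤ m → i' ≤ m → P i = P i' → i = i') :
    ∀ j, j ≤ n' → ∃ P : ℕ → ℕ → V, (∀ l, l < j → P l 0 = s l ∧ Cd l (P l) ∧
      ∀ i, 1 ≤ i → i ≤ m → P l i ∉ Av) ∧
      ∀ l l' i i', l < j → l' < j → i ≤ m → i' ≤ m → P l i = P l' i' → l = l' ∧ i = i' := by
  intro j
  induction j with
  | zero =>
    intro _
    exact ⟨fun _ => s, fun l hl => absurd hl (Nat.not_lt_zero _),
      fun l l' i i' hl => absurd hl (Nat.not_lt_zero _)⟩
  | succ j ih =>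
    intro hj
    obtain ⟨P, h1, h2⟩ := ih (by omega)
    obtain ⟨W, hW⟩ : ∃ W : Finset V, W = Av ∪
      (Finset.range j ×ˢ Finset.range (m + 1)).image (fun z => P z.1 z.2) := ⟨_, rfl⟩
    have hWc : W.card ≤ ζ' := by
      rw [hW]
      refine (Finset.card_union_le _ _).trans ?_
      have h3 : ((Finset.range j ×ˢ Finset.range (m + 1)).image (fun z => P z.1 z.2)).card ≤
          j * (m + 1) := by
        refine Finset.card_image_le.trans ?_
        rw [Finset.card_product, Finset.card_range, Finset.card_range]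
      have h4 : j * (m + 1) ≤ n' * (m + 1) := Nat.mul_le_mul_right _ (by omega)
      omega
    have hAvW : ∀ x, x ∉ W → x ∉ Av := by
      intro x hx hx'
      apply hx
      rw [hW]
      exact Finset.mem_union_left _ hx'
    have hPW : ∀ x, x ∉ W → ∀ l i, l < j → i ≤ m → x ≠ P l i := by
      intro x hx l i hl hi he
      apply hx
      rw [hW, he]
      refine Finset.mem_union_right _ (Finset.mem_image.2 ⟨(l, i), ?_, rfl⟩)
      rw [Finset.mem_product]
      exact ⟨Finset.mem_range.2 hl, Finset.mem_range.2 (by omega)⟩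
    obtain ⟨R, r1, r2, r3, r4⟩ := h j (by omega) W hWc
    have key : ∀ l' i i', l' < j → i ≤ m → i' ≤ m → R i ≠ P l' i' := by
      intro l' i i' hl' hi hi'
      by_cases h0 : i = 0
      · subst h0
        rw [r1]
        intro he
        by_cases h5 : i' = 0
        · subst h5
          rw [(h1 l' hl').1] at he
          have := hsi j l' (by omega) (by omega) he
          omega
        · apply (h1 l' hl').2.2 i' (by omega) hi'
          rw [← he]
          exact hs j (by omega)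
      · exact hPW _ (r3 i (by omega) hi) l' i' hl' hi'
    refine ⟨fun l => if l = j then R else P l, ?_, ?_⟩
    · intro l hl
      by_cases hlj : l = j
      · subst hlj
        simp only [if_true]
        exact ⟨r1, r2, fun i hi hi' => hAvW _ (r3 i hi hi')⟩
      · simp only [hlj, if_false]
        exact h1 l (by omega)
    · intro l l' i i' hl hl' hi hi' he
      by_cases hlj : l = j
      · by_cases hlj' : l' = j
        · subst hlj
          subst hlj'
          simp only [if_true] at he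
          exact ⟨rfl, r4 i i' hi hi' he⟩
        · subst hlj
          simp only [if_true, hlj', if_false] at he
          exact absurd he (key l' i i' (by omega) hi hi')
      · by_cases hlj' : l' = j
        · subst hlj'
          simp only [if_true, hlj, if_false] at he
          exact absurd he.symm (key l i' i (by omega) hi' hi)
        · simp only [hlj, hlj', if_false] at he
          exact h2 l l' i i' (by omega) (by omega) hi hi' he

/-- an injective enumeration of a part of a set -/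
lemma enum {V : Type} [Nonempty V] (S : Finset V) (n' : ℕ) (h : n' ≤ S.card) :
    ∃ s : ℕ → V, (∀ l, l < n' → s l ∈ S) ∧
      ∀ l l', l < n' → l' < n' → s l = s l' → l = l' := by
  obtain ⟨v0⟩ : Nonempty V := inferInstance
  refine ⟨fun l => if hl : l < S.card then (S.equivFin.symm ⟨l, hl⟩ : V) else v0, ?_, ?_⟩
  · intro l hl
    simp only [dif_pos (lt_of_lt_of_le hl h)]
    exact (S.equivFin.symm _).2
  · intro l l' hl hl' he
    simp only [dif_pos (lt_of_lt_of_le hl h), dif_pos (lt_of_lt_of_le hl' h)] at he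
    have h1 := S.equivFin.symm.injective (Subtype.ext he)
    exact congrArg Fin.val h1

/-- a new vertex -/
lemma newv {V : Type} [Fintype V] [Nonempty V] (G : SimpleGraph V) (D K : ℕ) (hG : AR G D K)
    (Z : Finset V) (hZ : Z.card < D) : ∃ v, v ∉ Z := by
  obtain ⟨v0⟩ : Nonempty V := inferInstance
  have h1 := hG.lo v0
  by_contra h2
  push Not at h2
  have h3 : (nb G v0).card ≤ Z.card := Finset.card_le_card (fun x _ => h2 x)
  omega

section two

variable {V : Type} [Fintype V]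

omit [Fintype V] in
lemma ext2 {p p' : Fin (2 + 1) → V} (h0 : ex 2 p 0 = ex 2 p' 0) (h1 : ex 2 p 1 = ex 2 p' 1)
    (h2 : ex 2 p 2 = ex 2 p' 2) : p = p' := by
  funext i
  fin_cases i
  · exact h0
  · exact h1
  · exact h2

/-- the possible third vertices -/
noncomputable def Gs (𝓡 : Finset (Fin (2 + 1) → V)) (w s : V) : Finset V :=
  Finset.univ.filter (fun z => ∃ p ∈ 𝓡, ex 2 p 0 = s ∧ ex 2 p 1 = w ∧ ex 2 p 2 = z)

lemma mem_Gs (𝓡 : Finset (Fin (2 + 1) → V)) (w s z : V) :
    z ∈ Gs 𝓡 w s ↔ ∃ p ∈ 𝓡, ex 2 p 0 = s ∧ ex 2 p 1 = w ∧ ex 2 p 2 = z := by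
  unfold Gs
  simp

variable {G : SimpleGraph V} {B : ℕ → V → V → Prop} {q D M' : ℕ} {𝓡 : Finset (Fin (2 + 1) → V)}

lemma pv (h : RSt G B 2 q D M' 𝓡) {p : Fin (2 + 1) → V} (hp : p ∈ 𝓡) : PthV G B 2 (ex 2 p) := by
  have h1 := h.sub p hp
  unfold RCs at h1
  exact (Finset.mem_filter.1 h1).2.1

lemma Gs_sub (h : RSt G B 2 q D M' 𝓡) (w s : V) : Gs 𝓡 w s ⊆ nb G w := by
  intro z hz
  obtain ⟨p, hp, _, h2, h3⟩ := (mem_Gs 𝓡 w s z).1 hz
  rw [mem_nb, ← h2, ← h3]
  exact (pv h hp).1 1 (by omega)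

lemma Gs_ge (h : RSt G B 2 q D M' 𝓡) (w s : V) (hs : ∃ p ∈ 𝓡, ex 2 p 0 = s ∧ ex 2 p 1 = w) :
    D ≤ q * (Gs 𝓡 w s).card := by
  obtain ⟨p, hp, h1, h2⟩ := hs
  have h3 := h.cls p hp 0 1 (by omega) (by omega)
  rw [show 2 - (1 - 0) = 1 from rfl, pow_one] at h3
  refine h3.trans (Nat.mul_le_mul_left _ ?_)
  refine Finset.card_le_card_of_injOn (fun p' => ex 2 p' 2) ?_ ?_
  · intro p' hp'
    obtain ⟨h4, h5⟩ := Finset.mem_filter.1 (Finset.mem_coe.1 hp')
    rw [Finset.mem_coe, mem_Gs]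
    refine ⟨p', h4, ?_, ?_, rfl⟩
    · rw [h5 0 (by omega) (by omega), h1]
    · rw [h5 1 (by omega) (by omega), h2]
  · intro p' hp' p'' hp'' he
    obtain ⟨_, h5⟩ := Finset.mem_filter.1 (Finset.mem_coe.1 hp')
    obtain ⟨_, h6⟩ := Finset.mem_filter.1 (Finset.mem_coe.1 hp'')
    refine ext2 ?_ ?_ he
    · rw [h5 0 (by omega) (by omega), h6 0 (by omega) (by omega)]
    · rw [h5 1 (by omega) (by omega), h6 1 (by omega) (by omega)]

lemma cls12 (h : RSt G B 2 q D M' 𝓡) {p : Fin (2 + 1) → V} (hp : p ∈ 𝓡) :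
    ∃ X : Finset (Fin (2 + 1) → V), D ≤ q * X.card ∧
      ∀ p' ∈ X, p' ∈ 𝓡 ∧ ex 2 p' 1 = ex 2 p 1 ∧ ex 2 p' 2 = ex 2 p 2 := by
  have h3 := h.cls p hp 1 2 (by omega) le_rfl
  rw [show 2 - (2 - 1) = 1 from rfl, pow_one] at h3
  refine ⟨_, h3, ?_⟩
  intro p' hp'
  obtain ⟨a1, a2⟩ := Finset.mem_filter.1 hp'
  exact ⟨a1, a2 1 le_rfl (by omega), a2 2 (by omega) le_rfl⟩

/-- the averaging -/
lemma avg2 (h : RSt G B 2 q D M' 𝓡) (K : ℕ) (hG : AR G D K) (w : V)
    (S Z : Finset V) (ζ : ℕ) (hS : ∀ s ∈ S, ∃ p ∈ 𝓡, ex 2 p 0 = s ∧ ex 2 p 1 = w)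
    (hSn : S.Nonempty) (hSc : S.card ≤ ζ) (hZc : Z.card ≤ ζ) (hD : 4 * ζ * q + 1 ≤ D) :
    ∃ ρ, ρ ∉ Z ∧ ρ ∉ S ∧ S.card ≤ 2 * q * K * (S.filter (fun s => ρ ∈ Gs 𝓡 w s)).card := by
  obtain ⟨W, hW⟩ : ∃ W : Finset V, W = nb G w \ (Z ∪ S) := ⟨_, rfl⟩
  have hWc : W.card ≤ K * D := by
    rw [hW]
    exact (Finset.card_le_card Finset.sdiff_subset).trans (hG.hi w)
  have h1 : ∀ s ∈ S, D ≤ 2 * q * (W.filter (fun ρ => ρ ∈ Gs 𝓡 w s)).card := by
    intro s hs
    have h2 := Gs_ge h w s (hS s hs)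
    have h3 : (Gs 𝓡 w s).card ≤ (W.filter (fun ρ => ρ ∈ Gs 𝓡 w s)).card + (Z ∪ S).card := by
      refine le_trans (Finset.card_le_card ?_) (Finset.card_union_le _ _)
      intro z hz
      by_cases hz' : z ∈ Z ∪ S
      · exact Finset.mem_union_right _ hz'
      · refine Finset.mem_union_left _ (Finset.mem_filter.2 ⟨?_, hz⟩)
        rw [hW]
        exact Finset.mem_sdiff.2 ⟨Gs_sub h w s hz, hz'⟩
    have h4 : (Z ∪ S).card ≤ 2 * ζ := (Finset.card_union_le _ _).trans (by omega)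
    have h5 : q * (Gs 𝓡 w s).card ≤
        q * ((W.filter (fun ρ => ρ ∈ Gs 𝓡 w s)).card + 2 * ζ) :=
      Nat.mul_le_mul_left _ (by omega)
    nlinarith
  by_contra hcon
  push Not at hcon
  have h2 : S.card * D ≤ 2 * q * ∑ s ∈ S, (W.filter (fun ρ => ρ ∈ Gs 𝓡 w s)).card := by
    rw [Finset.mul_sum, ← smul_eq_mul (a := S.card), ← Finset.sum_const]
    exact Finset.sum_le_sum h1
  have h3 : ∑ s ∈ S, (W.filter (fun ρ => ρ ∈ Gs 𝓡 w s)).card =
      ∑ ρ ∈ W, (S.filter (fun s => ρ ∈ Gs 𝓡 w s)).card := by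
    simp only [Finset.card_filter]
    exact Finset.sum_comm
  have hSpos : 0 < S.card := Finset.card_pos.2 hSn
  have hDpos : 0 < D := by omega
  have h4 : W.Nonempty := by
    by_contra h5
    rw [Finset.not_nonempty_iff_eq_empty] at h5
    rw [h3, h5, Finset.sum_empty, Nat.mul_zero] at h2
    have : 0 < S.card * D := Nat.mul_pos hSpos hDpos
    omega
  have h5 : ∑ ρ ∈ W, 2 * q * K * (S.filter (fun s => ρ ∈ Gs 𝓡 w s)).card <
      ∑ _ρ ∈ W, S.card := by
    refine Finset.sum_lt_sum_of_nonempty h4 fun ρ hρ => ?_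
    rw [hW, Finset.mem_sdiff, Finset.mem_union, not_or] at hρ
    exact hcon ρ hρ.2.1 hρ.2.2
  rw [← Finset.mul_sum, Finset.sum_const, smul_eq_mul, ← h3] at h5
  have h6 : W.card * S.card ≤ K * D * S.card := Nat.mul_le_mul_right _ hWc
  have h7 : K * (S.card * D) ≤
      K * (2 * q * ∑ s ∈ S, (W.filter (fun ρ => ρ ∈ Gs 𝓡 w s)).card) :=
    Nat.mul_le_mul_left _ h2
  have h8 : K * (S.card * D) = K * D * S.card := by ring
  have h9 : K * (2 * q * ∑ s ∈ S, (W.filter (fun ρ => ρ ∈ Gs 𝓡 w s)).card) =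
      2 * q * K * ∑ s ∈ S, (W.filter (fun ρ => ρ ∈ Gs 𝓡 w s)).card := by ring
  omega

end two

end KMv2o

open KMv2o in
theorem mv2o_holds : S_RST → S_EXT → S_SW → ∀ k, 1 ≤ k → k % 2 = 1 → S_MV k 2 := by
  intro hRST hEXT hSW k hk hkodd K Q hK hQ
  obtain ⟨t, ht⟩ : ∃ t, k + 1 = 2 + 2 * t := ⟨(k - 1) / 2, by omega⟩
  obtain ⟨q, hq, hRST⟩ := hRST 2 K Q le_rfl hK hQ
  obtain ⟨C1, hC1, hSW⟩ := hSW K q hK hq
  refine ⟨2 * q * K * C1, by positivity, ?_⟩
  intro F0 ζ
  obtain ⟨ζ', hζ'⟩ : ∃ ζ', ζ' = 2 * ζ + 1 + ζ * (k + 2) := ⟨_, rfl⟩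
  obtain ⟨M1, D1, hEXT⟩ := hEXT 2 q F0 ζ' t le_rfl hq
  obtain ⟨M2, D2, hSW⟩ := hSW ζ (ζ' + 1)
  obtain ⟨M, hRST⟩ := hRST (M1 + M2)
  refine ⟨M, D1 + D2 + 4 * ζ * q + 2 * ζ + 2, ?_⟩
  intro V _ _ G D B hG hD hB hRi hBN hRC
  obtain ⟨𝓡, h𝓡⟩ := hRST V G D B hG (by omega) hB hRi hRC
  have h𝓡1 : RSt G B 2 q D M1 𝓡 := ⟨h𝓡.ne, h𝓡.sub, h𝓡.rev, h𝓡.cls,
    fun p hp => le_trans (by omega) (h𝓡.pr p hp)⟩
  have h𝓡2 : RSt G B 2 q D M2 𝓡 := ⟨h𝓡.ne, h𝓡.sub, h𝓡.rev, h𝓡.cls,
    fun p hp => le_trans (by omega) (h𝓡.pr p hp)⟩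
  have hE := hEXT V G D B 𝓡 hB hBN (by omega) h𝓡1
  have hS' := hSW V G D B 𝓡 hG (by omega) h𝓡2
  refine ⟨Unit, fun _ w s => ∃ p ∈ 𝓡, ex 2 p 0 = s ∧ ex 2 p 1 = w, fun _ _ => True, ?_, ?_⟩
  · refine ⟨?_, ?_, ?_⟩
    · rintro _ w s ⟨p, hp, h1, h2⟩
      rw [← h1, ← h2]
      exact ((pv h𝓡 hp).1 0 (by omega)).symm
    · -- legs
      intro _ _ _ w S Z n' hSB hwZ hn' hSc hZc
      by_cases hSn : S.Nonempty
      · obtain ⟨ρ, hρZ, hρS, hρc⟩ := avg2 h𝓡 K hG w S Z ζ hSB hSn hSc hZc (by omega)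
        refine ⟨ρ, hρZ, hρS, ?_⟩
        have hcard : n' ≤ (S.filter (fun s => ρ ∈ Gs 𝓡 w s)).card := by
          have h1 : 2 * q * K * n' ≤ 2 * q * K * (S.filter (fun s => ρ ∈ Gs 𝓡 w s)).card := by
            refine le_trans ?_ (hn'.trans hρc)
            have h2 : 2 * q * K * n' * 1 ≤ 2 * q * K * n' * C1 := Nat.mul_le_mul_left _ hC1
            calc 2 * q * K * n' = 2 * q * K * n' * 1 := by ring
              _ ≤ 2 * q * K * n' * C1 := h2
              _ = 2 * q * K * C1 * n' := by ring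
          exact Nat.le_of_mul_le_mul_left h1 (by positivity)
        obtain ⟨s, hs1, hs2⟩ := enum _ n' hcard
        have hn'ζ : n' ≤ ζ := hcard.trans ((Finset.card_filter_le _ _).trans hSc)
        obtain ⟨P, h1, h2⟩ := seqp k ζ' s
          (fun _ P => P (k + 1) = ρ ∧ ∀ i, i ≤ k → G.Adj (P i) (P (i + 1)))
          (Z ∪ S ∪ {ρ}) n'
          (fun l hl => Finset.mem_union_left _ (Finset.mem_union_right _
            (Finset.mem_filter.1 (hs1 l hl)).1)) hs2
          (by
            have h3 : (Z ∪ S ∪ {ρ}).card ≤ 2 * ζ + 1 := by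
              refine (Finset.card_union_le _ _).trans ?_
              have := Finset.card_union_le Z S
              rw [Finset.card_singleton]
              omega
            have h4 : n' * (k + 1) ≤ ζ * (k + 2) := Nat.mul_le_mul hn'ζ (by omega)
            omega)
          (by
            intro l hl Z' hZ'
            obtain ⟨p, hp, p0, p1, p2⟩ := (mem_Gs 𝓡 w (s l) ρ).1 (Finset.mem_filter.1 (hs1 l hl)).2
            obtain ⟨P, e1, e2, e3, e4, e5⟩ := hE p hp Z' hZ'
            rw [← ht] at e2 e3 e4 e5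
            exact ⟨P, e1.trans p0, ⟨e2.trans p2, fun i hi => e3 i (by omega)⟩,
              fun i hi hi' => e4 i hi (by omega),
              fun i i' hi hi' => e5 i i' (by omega) (by omega)⟩)
          n' le_rfl
        refine ⟨fun l => P l, ?_, ?_⟩
        · intro l
          obtain ⟨a1, ⟨a2, a3⟩, a4⟩ := h1 l l.2
          refine ⟨?_, a2, a3, ?_⟩
          · show P l 0 ∈ S
            rw [a1]
            exact (Finset.mem_filter.1 (hs1 l l.2)).1
          · intro i hi hi'
            have a5 := a4 i hi hi'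
            rw [Finset.mem_union, Finset.mem_union, Finset.mem_singleton, not_or, not_or] at a5
            exact ⟨a5.1.1, a5.1.2, a5.2⟩
        · intro l l' i i' hi hi' he
          obtain ⟨a1, a2⟩ := h2 l l' i i' l.2 l'.2 hi hi' he
          exact ⟨Fin.ext a1, a2⟩
      · rw [Finset.not_nonempty_iff_eq_empty] at hSn
        subst hSn
        have hn0 : n' = 0 := by
          rw [Finset.card_empty] at hn'
          have h2 : 0 < 2 * q * K * C1 := by positivity
          by_contra h3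
          have : 0 < 2 * q * K * C1 * n' := Nat.mul_pos h2 (by omega)
          omega
        subst hn0
        obtain ⟨ρ, hρ⟩ := newv G D K hG Z (by omega)
        exact ⟨ρ, hρ, Finset.notMem_empty _, fun l => l.elim0, fun l => l.elim0,
          fun l => l.elim0⟩
    · -- core moves
      intro _ _ _ w S Z n' hSB hwZ hn' hSc hZc
      refine ⟨(), trivial, ?_⟩
      by_cases hSn : S.Nonempty
      · obtain ⟨v, hvZ, hvS, hvw, S', hS'S, hS'c, hS'm⟩ := hS' w S Z hSB hSc hZc hSn
        refine ⟨v, hvZ, hvS, ?_⟩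
        have hcard : n' ≤ S'.card := by
          have h1 : C1 * n' ≤ C1 * S'.card := by
            refine le_trans ?_ (hn'.trans hS'c)
            have h2 : C1 * n' * 1 ≤ C1 * n' * (2 * q * K) :=
              Nat.mul_le_mul_left _ (by
                have : 0 < 2 * q * K := by positivity
                omega)
            calc C1 * n' = C1 * n' * 1 := by ring
              _ ≤ C1 * n' * (2 * q * K) := h2
              _ = 2 * q * K * C1 * n' := by ring
          exact Nat.le_of_mul_le_mul_left h1 hC1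
        obtain ⟨s, hs1, hs2⟩ := enum _ n' hcard
        have hn'ζ : n' ≤ ζ := hcard.trans ((Finset.card_le_card hS'S).trans hSc)
        obtain ⟨P, h1, h2⟩ := seqp (k + 1) ζ' s
          (fun _ P => (∃ p ∈ 𝓡, ex 2 p 0 = P (k + 1) ∧ ex 2 p 1 = v) ∧
            ∀ i, i ≤ k → G.Adj (P i) (P (i + 1)))
          (Z ∪ S ∪ {v}) n'
          (fun l hl => Finset.mem_union_left _ (Finset.mem_union_right _
            (hS'S (hs1 l hl)))) hs2
          (by
            have h3 : (Z ∪ S ∪ {v}).card ≤ 2 * ζ + 1 := by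
              refine (Finset.card_union_le _ _).trans ?_
              have := Finset.card_union_le Z S
              rw [Finset.card_singleton]
              omega
            have h4 : n' * (k + 1 + 1) ≤ ζ * (k + 2) := Nat.mul_le_mul hn'ζ (by omega)
            omega)
          (by
            intro l hl Z' hZ'
            have h3 := hS'm (s l) (hs1 l hl)
            obtain ⟨s', hs', hs'Z⟩ : ∃ s', s' ∈ (Finset.univ.filter (fun s' =>
                (∃ p ∈ 𝓡, ex 2 p 0 = s l ∧ ex 2 p 1 = w ∧ ex 2 p 2 = s') ∧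
                ∃ p ∈ 𝓡, ex 2 p 0 = s' ∧ ex 2 p 1 = v)) ∧ s' ∉ Z' := by
              by_contra hcon
              push Not at hcon
              have h4 := Finset.card_le_card (fun x hx => hcon x hx)
              omega
            obtain ⟨⟨p, hp, p0, p1, p2⟩, hp'⟩ := (Finset.mem_filter.1 hs').2
            obtain ⟨P, e1, e2, e3, e4, e5⟩ := hE p hp Z' hZ'
            rw [← ht] at e2 e3 e4 e5
            have e2' := e2.trans p2
            refine ⟨P, e1.trans p0, ⟨?_, fun i hi => e3 i (by omega)⟩, ?_,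
              fun i i' hi hi' => e5 i i' (by omega) (by omega)⟩
            · rw [e2']
              exact hp'
            · intro i hi hi'
              by_cases hik : i = k + 1
              · rw [hik, e2']
                exact hs'Z
              · exact e4 i hi (by omega))
          n' le_rfl
        refine ⟨fun l => P l, ?_, ?_⟩
        · intro l
          obtain ⟨a1, ⟨a2, a3⟩, a4⟩ := h1 l l.2
          refine ⟨?_, a2, a3, ?_⟩
          · show P l 0 ∈ S
            rw [a1]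
            exact hS'S (hs1 l l.2)
          · intro i hi hi'
            have a5 := a4 i hi hi'
            rw [Finset.mem_union, Finset.mem_union, Finset.mem_singleton, not_or, not_or] at a5
            exact ⟨a5.1.1, a5.1.2, a5.2⟩
        · intro l l' i i' hi hi' he
          obtain ⟨a1, a2⟩ := h2 l l' i i' l.2 l'.2 hi hi' he
          exact ⟨Fin.ext a1, a2⟩
      · rw [Finset.not_nonempty_iff_eq_empty] at hSn
        subst hSn
        have hn0 : n' = 0 := by
          rw [Finset.card_empty] at hn'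
          have h2 : 0 < 2 * q * K * C1 := by positivity
          by_contra h3
          have : 0 < 2 * q * K * C1 * n' := Nat.mul_pos h2 (by omega)
          omega
        subst hn0
        obtain ⟨ρ, hρ⟩ := newv G D K hG Z (by omega)
        exact ⟨ρ, hρ, Finset.notMem_empty _, fun l => l.elim0, fun l => l.elim0,
          fun l => l.elim0⟩
  · -- the initial set
    intro _ _ n0 hn0
    obtain ⟨p, hp⟩ := h𝓡.ne
    obtain ⟨X, h3, hXm⟩ := cls12 h𝓡 hp
    have h4 : (X.image (fun p' => ex 2 p' 0)).card = X.card := by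
      refine Finset.card_image_of_injOn ?_
      intro p' hp' p'' hp'' he
      obtain ⟨_, a2, a3⟩ := hXm p' (Finset.mem_coe.1 hp')
      obtain ⟨_, b2, b3⟩ := hXm p'' (Finset.mem_coe.1 hp'')
      exact ext2 he (a2.trans b2.symm) (a3.trans b3.symm)
    have h5 : n0 ≤ (X.image (fun p' => ex 2 p' 0)).card := by
      rw [h4]
      have h6 : q * n0 ≤ q * X.card := by
        refine le_trans ?_ h3
        have : q * n0 ≤ q * ζ := Nat.mul_le_mul_left _ hn0
        nlinarith
      exact Nat.le_of_mul_le_mul_left h6 hq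
    obtain ⟨S, hS1, hS2⟩ := Finset.exists_subset_card_eq h5
    refine ⟨(), ex 2 p 1, S, trivial, hS2, ?_, ?_⟩
    · intro hw
      obtain ⟨p', hp', he⟩ := Finset.mem_image.1 (hS1 hw)
      obtain ⟨a1, a2, _⟩ := hXm p' hp'
      have a4 := (pv h𝓡 a1).1 0 (by omega)
      apply a4.ne
      exact he.trans a2.symm
    · intro s hs
      obtain ⟨p', hp', he⟩ := Finset.mem_image.1 (hS1 hs)
      obtain ⟨a1, a2, _⟩ := hXm p' hp'
      exact ⟨p', a1, he, a2⟩

end Pool.Agent.TH476.KK
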