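import Pool.Agent.TH476.KStm

/-!
# The case k = 3, l = 3: moves or a dense host with few rich walks of length 3
-/

set_option autoImplicit false

open Classical

namespace Pool.Agent.TH476.KK

open Pool.Agent.TH476

namespace KMv33

variable {V : Type}

/-- rich paths of length three -/
structure Ar (G : SimpleGraph V) (B : ℕ → V → V → Prop) (x0 x1 x2 x3 : V) : Prop where
  a01 : G.Adj x0 x1
  a12 : G.Adj x1 x2
  a23 : G.Adj x2 x3
  n02 : x0 ≠ x2
  n03 : x0 ≠ x3
  n13 : x1 ≠ x3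
  b02 : ¬ B 2 x0 x2
  b13 : ¬ B 2 x1 x3
  b03 : B 3 x0 x3

lemma PthV3 (G : SimpleGraph V) (B : ℕ → V → V → Prop) (p : ℕ → V) (h : PthV G B 3 p) :
    G.Adj (p 0) (p 1) ∧ G.Adj (p 1) (p 2) ∧ G.Adj (p 2) (p 3) ∧ p 0 ≠ p 2 ∧ p 0 ≠ p 3 ∧
      p 1 ≠ p 3 ∧ ¬ B 2 (p 0) (p 2) ∧ ¬ B 2 (p 1) (p 3) := by
  obtain ⟨h1, h2, h3⟩ := h
  refine ⟨h1 0 (by norm_num), h1 1 (by norm_num), h1 2 (by norm_num), ?_, ?_, ?_, ?_, ?_⟩
  · intro h; exact absurd (h2 0 2 (by norm_num) (by norm_num) h) (by norm_num)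
  · intro h; exact absurd (h2 0 3 (by norm_num) (by norm_num) h) (by norm_num)
  · intro h; exact absurd (h2 1 3 (by norm_num) (by norm_num) h) (by norm_num)
  · exact h3 0 2 (by norm_num) (by norm_num) (by norm_num) (by norm_num)
  · exact h3 1 3 (by norm_num) (by norm_num) (by norm_num) (by norm_num)

lemma Ar_of (G : SimpleGraph V) (B : ℕ → V → V → Prop) (p : ℕ → V) (h : PthV G B 3 p)
    (hb : B 3 (p 0) (p 3)) : Ar G B (p 0) (p 1) (p 2) (p 3) := by
  obtain ⟨h1, h2, h3, h4, h5, h6, h7, h8⟩ := PthV3 G B p h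
  exact ⟨h1, h2, h3, h4, h5, h6, h7, h8, hb⟩

/-- light paths of length two -/
lemma light2 [Fintype V] {G : SimpleGraph V} {B : ℕ → V → V → Prop} {F0 : ℕ}
    (h : BNd G B 3 F0) (x y : V) (hxy : x ≠ y) (hb : ¬ B 2 x y) :
    (Finset.univ.filter (fun z => G.Adj x z ∧ G.Adj z y)).card ≤ F0 := by
  refine le_trans ?_ (h 2 (by norm_num) (by norm_num) x y)
  refine Finset.card_le_card_of_injOn (fun z => (fun i : Fin (2 + 1) =>
    if i.1 = 0 then x else if i.1 = 1 then z else y)) ?_ ?_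
  · intro z hz
    rw [Finset.mem_coe, Finset.mem_filter] at hz ⊢
    obtain ⟨-, hz1, hz2⟩ := hz
    refine ⟨Finset.mem_univ _, ⟨?_, ?_, ?_⟩, fun _ => hb, ?_, ?_⟩
    · intro i hi
      interval_cases i
      · exact hz1
      · exact hz2
    · intro i i' hi hi' he
      have e0 : (ex 2 (fun i : Fin (2 + 1) => if i.1 = 0 then x else if i.1 = 1 then z else y)) 0
        = x := rfl
      have e1 : (ex 2 (fun i : Fin (2 + 1) => if i.1 = 0 then x else if i.1 = 1 then z else y)) 1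
        = z := rfl
      have e2 : (ex 2 (fun i : Fin (2 + 1) => if i.1 = 0 then x else if i.1 = 1 then z else y)) 2
        = y := rfl
      interval_cases i <;> interval_cases i' <;> simp only [e0, e1, e2] at he
      · rfl
      · exact absurd he hz1.ne
      · exact absurd he hxy
      · exact absurd he.symm hz1.ne
      · rfl
      · exact absurd he hz2.ne
      · exact absurd he.symm hxy
      · exact absurd he.symm hz2.ne
      · rfl
    · intro a b h1 h2 h3 h4
      omega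
    · rfl
    · rfl
  · intro z _ z' _ he
    have := congrFun he ⟨1, by norm_num⟩
    simpa using this

/-- one of M disjoint paths avoids a small set -/
lemma exPath {G : SimpleGraph V} {B : ℕ → V → V → Prop} {M : ℕ} (h : RichSp G B 3 M)
    (s a : V) (hb : B 3 s a) (U : Finset V) (hU : U.card < M) :
    ∃ p1 p2, p1 ∉ U ∧ p2 ∉ U ∧ G.Adj s p1 ∧ G.Adj p1 p2 ∧ G.Adj p2 a ∧ s ≠ p2 ∧ p1 ≠ a ∧
      s ≠ a := by
  obtain ⟨P, hP, hd⟩ := h s a hb
  by_contra hcon
  have h1 : ∀ l, P l 1 ∈ U ∨ P l 2 ∈ U := by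
    intro l
    by_contra hl
    push Not at hl
    obtain ⟨h0, h3, hp⟩ := hP l
    obtain ⟨g1, g2, g3, g4, g5, g6, -, -⟩ := PthV3 G B _ hp
    rw [h0] at g1 g4 g5
    rw [h3] at g3 g5 g6
    exact hcon ⟨P l 1, P l 2, hl.1, hl.2, g1, g2, g3, g4, g6, g5⟩
  have h2 : M ≤ U.card := by
    have h3 : (Finset.univ : Finset (Fin M)).card ≤ U.card := by
      refine Finset.card_le_card_of_injOn (fun l => if P l 1 ∈ U then P l 1 else P l 2) ?_ ?_
      · intro l _
        simp only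
        split_ifs with hl
        · exact hl
        · exact (h1 l).resolve_left hl
      · intro l _ l' _ he
        by_contra hne
        simp only at he
        split_ifs at he
        · exact hd l l' 1 1 hne (by norm_num) (by norm_num) (by norm_num) (by norm_num) he
        · exact hd l l' 1 2 hne (by norm_num) (by norm_num) (by norm_num) (by norm_num) he
        · exact hd l l' 2 1 hne (by norm_num) (by norm_num) (by norm_num) (by norm_num) he
        · exact hd l l' 2 2 hne (by norm_num) (by norm_num) (by norm_num) (by norm_num) he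
    rwa [Finset.card_univ, Fintype.card_fin] at h3
  omega

/-- rich pairs have many rich paths -/
lemma W_ge [Fintype V] {G : SimpleGraph V} {B : ℕ → V → V → Prop} {M : ℕ}
    (h : RichSp G B 3 M) (x r : V) (hb : B 3 x r) :
    M ≤ (Finset.univ.filter (fun e : V × V => Ar G B x e.1 e.2 r)).card := by
  obtain ⟨P, hP, hd⟩ := h x r hb
  have h3 : (Finset.univ : Finset (Fin M)).card ≤
      (Finset.univ.filter (fun e : V × V => Ar G B x e.1 e.2 r)).card := by
    refine Finset.card_le_card_of_injOn (fun l => (P l 1, P l 2)) ?_ ?_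
    · intro l _
      rw [Finset.mem_coe, Finset.mem_filter]
      obtain ⟨h0, h3, hp⟩ := hP l
      have := Ar_of G B _ hp (by rw [h0, h3]; exact hb)
      rw [h0, h3] at this
      exact ⟨Finset.mem_univ _, this⟩
    · intro l _ l' _ he
      by_contra hne
      exact hd l l' 1 1 hne (by norm_num) (by norm_num) (by norm_num) (by norm_num)
        (congrArg Prod.fst he)
  rwa [Finset.card_univ, Fintype.card_fin] at h3

/-- greedy choice of disjoint paths -/
lemma greedy (m : ℕ) (S' U0 : Finset V) (hS : S' ⊆ U0) (Φ : (ℕ → V) → Prop)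
    (H : ∀ s ∈ S', ∀ U : Finset V, U0 ⊆ U → U.card ≤ U0.card + m * S'.card →
      ∃ p : ℕ → V, p 0 = s ∧ (∀ i, 1 ≤ i → i ≤ m → p i ∉ U) ∧
        (∀ i i', i ≤ m → i' ≤ m → p i = p i' → i = i') ∧ Φ p) :
    ∀ n' : ℕ, n' ≤ S'.card → ∃ P : Fin n' → ℕ → V,
      (∀ l, P l 0 ∈ S' ∧ Φ (P l) ∧ ∀ i, 1 ≤ i → i ≤ m → P l i ∉ U0) ∧
      ∀ l l' i i', i ≤ m → i' ≤ m → P l i = P l' i' → l = l' ∧ i = i' := by
  intro n'
  induction n' with
  | zero => exact fun _ => ⟨fun l => l.elim0, fun l => l.elim0, fun l => l.elim0⟩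
  | succ n' ih =>
    intro hn
    obtain ⟨P, hP1, hP2⟩ := ih (by omega)
    -- a new starting point
    obtain ⟨s, hs, hs'⟩ : ∃ s ∈ S', ∀ l, P l 0 ≠ s := by
      by_contra hcon
      push Not at hcon
      have h1 : S' ⊆ Finset.univ.image (fun l => P l 0) := by
        intro s hs
        obtain ⟨l, hl⟩ := hcon s hs
        exact Finset.mem_image.2 ⟨l, Finset.mem_univ _, hl⟩
      have h2 := (Finset.card_le_card h1).trans Finset.card_image_le
      rw [Finset.card_univ, Fintype.card_fin] at h2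
      omega
    obtain ⟨U, hU⟩ : ∃ U : Finset V, U = U0 ∪ (Finset.univ : Finset (Fin n' × Fin m)).image
      (fun z => P z.1 (z.2.1 + 1)) := ⟨_, rfl⟩
    have hUc : U.card ≤ U0.card + m * S'.card := by
      rw [hU]
      refine (Finset.card_union_le _ _).trans ?_
      have h3 := Finset.card_image_le (s := (Finset.univ : Finset (Fin n' × Fin m)))
        (f := fun z => P z.1 (z.2.1 + 1))
      rw [Finset.card_univ, Fintype.card_prod, Fintype.card_fin, Fintype.card_fin] at h3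
      have h4 : n' * m ≤ m * S'.card := by
        rw [mul_comm]
        exact Nat.mul_le_mul_left m (by omega)
      omega
    obtain ⟨p, hp0, hp1, hp2, hp3⟩ := H s hs U (by rw [hU]; exact Finset.subset_union_left) hUc
    have hpP : ∀ l i i', i ≤ m → i' ≤ m → p i ≠ P l i' := by
      intro l i i' hi hi' he
      rcases Nat.eq_zero_or_pos i with h0 | h0
      · subst h0
        rw [hp0] at he
        rcases Nat.eq_zero_or_pos i' with h0' | h0'
        · subst h0'
          exact hs' l he.symm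
        · exact (hP1 l).2.2 i' h0' hi' (he ▸ hS hs)
      · rcases Nat.eq_zero_or_pos i' with h0' | h0'
        · subst h0'
          refine hp1 i h0 hi ?_
          rw [he, hU]
          exact Finset.mem_union_left _ (hS (hP1 l).1)
        · refine hp1 i h0 hi ?_
          rw [he, hU]
          refine Finset.mem_union_right _ (Finset.mem_image.2 ⟨(l, ⟨i' - 1, by omega⟩),
            Finset.mem_univ _, ?_⟩)
          simp only
          rw [show i' - 1 + 1 = i' by omega]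
    refine ⟨Fin.cons p P, ?_, ?_⟩
    · intro l
      refine Fin.cases ?_ (fun l => ?_) l
      · simp only [Fin.cons_zero]
        refine ⟨hp0 ▸ hs, hp3, fun i h1 h2 h3 => hp1 i h1 h2 ?_⟩
        rw [hU]
        exact Finset.mem_union_left _ h3
      · simp only [Fin.cons_succ]
        exact hP1 l
    · intro l l'
      refine Fin.cases ?_ (fun l => ?_) l
      · refine Fin.cases ?_ (fun l' => ?_) l'
        · intro i i' hi hi' he
          simp only [Fin.cons_zero] at he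
          exact ⟨rfl, hp2 i i' hi hi' he⟩
        · intro i i' hi hi' he
          simp only [Fin.cons_zero, Fin.cons_succ] at he
          exact absurd he (hpP l' i i' hi hi')
      · refine Fin.cases ?_ (fun l' => ?_) l'
        · intro i i' hi hi' he
          simp only [Fin.cons_zero, Fin.cons_succ] at he
          exact absurd he.symm (hpP l i' i hi' hi)
        · intro i i' hi hi' he
          simp only [Fin.cons_succ] at he
          obtain ⟨h1, h2⟩ := hP2 l l' i i' hi hi' he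
          exact ⟨by rw [h1], h2⟩

/-- averaging -/
lemma heavy (S : Finset V) (f : V → ℕ) (W c : ℕ) (hW : 0 < W) (hf : ∀ s ∈ S, f s ≤ W)
    (h : S.card * W ≤ c * ∑ s ∈ S, f s) :
    S.card ≤ 2 * c * (S.filter (fun s => W ≤ 2 * c * f s)).card := by
  have h1 : 2 * c * ∑ s ∈ S, f s ≤
      2 * c * ((S.filter (fun s => W ≤ 2 * c * f s)).card * W) + S.card * W := by
    rw [← Finset.sum_filter_add_sum_filter_not S (fun s => W ≤ 2 * c * f s), mul_add]
    refine Nat.add_le_add ?_ ?_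
    · refine Nat.mul_le_mul_left _ ?_
      rw [← smul_eq_mul]
      exact Finset.sum_le_card_nsmul _ _ _ fun s hs => hf s (Finset.mem_filter.1 hs).1
    · rw [Finset.mul_sum]
      calc ∑ s ∈ S.filter (fun s => ¬ W ≤ 2 * c * f s), 2 * c * f s
          ≤ (S.filter (fun s => ¬ W ≤ 2 * c * f s)).card • W :=
            Finset.sum_le_card_nsmul _ _ _ fun s hs => by
              have := (Finset.mem_filter.1 hs).2
              omega
        _ ≤ S.card * W := by
            rw [smul_eq_mul]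
            exact Nat.mul_le_mul_right _ (Finset.card_filter_le _ _)
  have h2 : S.card * W ≤ 2 * c * (S.filter (fun s => W ≤ 2 * c * f s)).card * W := by
    have h3 : 2 * (S.card * W) ≤ 2 * (c * ∑ s ∈ S, f s) := Nat.mul_le_mul_left 2 h
    have h4 : 2 * (c * ∑ s ∈ S, f s) = 2 * c * ∑ s ∈ S, f s := by ring
    have h5 : 2 * c * ((S.filter (fun s => W ≤ 2 * c * f s)).card * W) =
      2 * c * (S.filter (fun s => W ≤ 2 * c * f s)).card * W := by ring
    omega
  exact Nat.le_of_mul_le_mul_right h2 hW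

section counts

variable [Fintype V]

lemma cardP (P : V → V → Prop) :
    (Finset.univ.filter (fun e : V × V => P e.1 e.2)).card =
      ∑ v, (Finset.univ.filter (fun w => P v w)).card := by
  rw [Finset.card_filter, Fintype.sum_prod_type]
  refine Finset.sum_congr rfl fun v _ => ?_
  rw [Finset.card_filter]

lemma cardP' (P : V → V → Prop) :
    (Finset.univ.filter (fun e : V × V => P e.1 e.2)).card =
      ∑ w, (Finset.univ.filter (fun v => P v w)).card := by
  rw [Finset.card_filter, Fintype.sum_prod_type, Finset.sum_comm]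
  refine Finset.sum_congr rfl fun v _ => ?_
  rw [Finset.card_filter]

/-- the levels -/
noncomputable def Fl (G : SimpleGraph V) (B : ℕ → V → V → Prop) (q1 D : ℕ) :
    ℕ → Finset (V × V)
  | 0 => Finset.univ.filter (fun e => G.Adj e.1 e.2)
  | j + 1 => (Fl G B q1 D j).filter (fun e => D ^ 2 ≤
      q1 * ((Fl G B q1 D j).filter (fun f => Ar G B e.1 e.2 f.1 f.2)).card)

variable {G : SimpleGraph V} {B : ℕ → V → V → Prop} {q1 D : ℕ}

lemma Fl_sub (j : ℕ) : Fl G B q1 D (j + 1) ⊆ Fl G B q1 D j := Finset.filter_subset _ _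

lemma Fl_adj (j : ℕ) (e : V × V) (h : e ∈ Fl G B q1 D j) : G.Adj e.1 e.2 := by
  induction j with
  | zero => exact (Finset.mem_filter.1 h).2
  | succ j ih => exact ih (Fl_sub j h)

/-- arcs into a level -/
def Lv (G : SimpleGraph V) (B : ℕ → V → V → Prop) (q1 D j : ℕ) (s w x a : V) : Prop :=
  (x, a) ∈ Fl G B q1 D j ∧ Ar G B s w x a

lemma Fl_sum (j : ℕ) (s w : V) :
    ((Fl G B q1 D j).filter (fun f => Ar G B s w f.1 f.2)).card =
      ∑ x, (Finset.univ.filter (fun a => Lv G B q1 D j s w x a)).card := by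
  rw [← cardP (fun x a => Lv G B q1 D j s w x a)]
  congr 1
  ext e
  rw [Finset.mem_filter, Finset.mem_filter]
  constructor
  · rintro ⟨h1, h2⟩; exact ⟨Finset.mem_univ _, h1, h2⟩
  · rintro ⟨-, h1, h2⟩; exact ⟨h1, h2⟩

lemma Fl_spec (j : ℕ) (s w : V) (h : (s, w) ∈ Fl G B q1 D (j + 1)) :
    D ^ 2 ≤ q1 * ∑ x, (Finset.univ.filter (fun a => Lv G B q1 D j s w x a)).card := by
  rw [← Fl_sum]
  exact (Finset.mem_filter.1 h).2

/-- a common neighbour of `w` in many arcs -/
lemma stepX {K : ℕ} (hK : 0 < K) (hG : AR G D K) (j ζ : ℕ)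
    (hD : 4 * K * q1 * ζ < D) (w : V) (S Z : Finset V)
    (hS : ∀ s ∈ S, (s, w) ∈ Fl G B q1 D (j + 1)) (hne : S.Nonempty) (hSζ : S.card ≤ ζ)
    (hZζ : Z.card ≤ ζ) : ∃ x, x ∉ Z ∧ x ∉ S ∧ ∃ S' ⊆ S, S.card ≤ 4 * K ^ 2 * q1 * S'.card ∧
      ∀ s ∈ S', K * D ≤ 4 * K ^ 2 * q1 *
        (Finset.univ.filter (fun a => Lv G B q1 D j s w x a)).card := by
  obtain ⟨dg, hdg⟩ : ∃ dg : V → V → ℕ, dg = fun s x =>
    (Finset.univ.filter (fun a => Lv G B q1 D j s w x a)).card := ⟨_, rfl⟩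
  have hD0 : 0 < D := by omega
  have hdK : ∀ s x, dg s x ≤ K * D := by
    intro s x
    rw [hdg]
    refine le_trans (Finset.card_le_card ?_) (hG.hi x)
    intro a ha
    rw [mem_nb]
    exact (Finset.mem_filter.1 ha).2.2.a23
  have hd0 : ∀ s x, x ∉ nb G w → dg s x = 0 := by
    intro s x hx
    rw [hdg, Finset.card_eq_zero, Finset.filter_eq_empty_iff]
    intro a _ ha
    exact hx ((mem_nb G w x).2 ha.2.a12)
  have htot : ∀ s ∈ S, D ^ 2 ≤ q1 * ∑ x, dg s x := by
    intro s hs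
    rw [hdg]
    exact Fl_spec j s w (hS s hs)
  obtain ⟨x, hx, hxS⟩ : ∃ x, x ∉ Z ∪ S ∧ S.card * D ≤ 2 * K * q1 * ∑ s ∈ S, dg s x := by
    by_contra hcon
    push Not at hcon
    have e1 : S.card * D ^ 2 ≤ q1 * ∑ x, ∑ s ∈ S, dg s x := by
      rw [Finset.sum_comm, Finset.mul_sum, ← smul_eq_mul]
      exact Finset.card_nsmul_le_sum _ _ _ htot
    have e2 : ∑ x, ∑ s ∈ S, dg s x ≤ ∑ x ∈ Z ∪ S, ∑ s ∈ S, dg s x +
        ∑ x ∈ nb G w \ (Z ∪ S), ∑ s ∈ S, dg s x := by
      have h1 : ∑ x, ∑ s ∈ S, dg s x =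
          ∑ x ∈ (Z ∪ S) ∪ (nb G w \ (Z ∪ S)), ∑ s ∈ S, dg s x := by
        symm
        refine Finset.sum_subset (Finset.subset_univ _) fun x _ hx => ?_
        refine Finset.sum_eq_zero fun s _ => hd0 s x ?_
        intro hxn
        apply hx
        by_cases hxz : x ∈ Z ∪ S
        · exact Finset.mem_union_left _ hxz
        · exact Finset.mem_union_right _ (Finset.mem_sdiff.2 ⟨hxn, hxz⟩)
      rw [h1, Finset.sum_union]
      exact Finset.disjoint_sdiff
    have e3 : ∑ x ∈ Z ∪ S, ∑ s ∈ S, dg s x ≤ (2 * ζ) * (S.card * (K * D)) := by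
      calc ∑ x ∈ Z ∪ S, ∑ s ∈ S, dg s x ≤ (Z ∪ S).card • (S.card * (K * D)) := by
            refine Finset.sum_le_card_nsmul _ _ _ fun x _ => ?_
            rw [← smul_eq_mul]
            exact Finset.sum_le_card_nsmul _ _ _ fun s _ => hdK s x
        _ ≤ (2 * ζ) * (S.card * (K * D)) := by
            rw [smul_eq_mul]
            refine Nat.mul_le_mul_right _ ((Finset.card_union_le _ _).trans ?_)
            omega
    have e4 : 2 * K * q1 * ∑ x ∈ nb G w \ (Z ∪ S), ∑ s ∈ S, dg s x ≤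
        (K * D) * (S.card * D) := by
      rw [Finset.mul_sum]
      calc ∑ x ∈ nb G w \ (Z ∪ S), 2 * K * q1 * ∑ s ∈ S, dg s x
          ≤ (nb G w \ (Z ∪ S)).card • (S.card * D) := by
            refine Finset.sum_le_card_nsmul _ _ _ fun x hx => ?_
            exact (hcon x (Finset.mem_sdiff.1 hx).2).le
        _ ≤ (K * D) * (S.card * D) := by
            rw [smul_eq_mul]
            exact Nat.mul_le_mul_right _ ((Finset.card_le_card Finset.sdiff_subset).trans (hG.hi w))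
    have hs0 : 0 < S.card := hne.card_pos
    have e5 : K * S.card * D * D ≤ K * S.card * D * (4 * K * q1 * ζ) := by
      have h1 : 2 * K * (S.card * D ^ 2) ≤ 2 * K * (q1 * ∑ x, ∑ s ∈ S, dg s x) :=
        Nat.mul_le_mul_left _ e1
      have h2 : 2 * K * q1 * ∑ x, ∑ s ∈ S, dg s x ≤ 2 * K * q1 * (∑ x ∈ Z ∪ S, ∑ s ∈ S, dg s x +
        ∑ x ∈ nb G w \ (Z ∪ S), ∑ s ∈ S, dg s x) := Nat.mul_le_mul_left _ e2
      have h3 : 2 * K * q1 * ∑ x ∈ Z ∪ S, ∑ s ∈ S, dg s x ≤
        2 * K * q1 * ((2 * ζ) * (S.card * (K * D))) := Nat.mul_le_mul_left _ e3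
      nlinarith
    have e6 : D ≤ 4 * K * q1 * ζ := Nat.le_of_mul_le_mul_left e5 (by positivity)
    omega
  refine ⟨x, fun h => hx (Finset.mem_union_left _ h), fun h => hx (Finset.mem_union_right _ h),
    S.filter (fun s => K * D ≤ 2 * (2 * K ^ 2 * q1) * dg s x), Finset.filter_subset _ _, ?_, ?_⟩
  · have h1 := heavy S (fun s => dg s x) (K * D) (2 * K ^ 2 * q1) (by positivity)
      (fun s _ => hdK s x) (by nlinarith)
    have e : 2 * (2 * K ^ 2 * q1) = 4 * K ^ 2 * q1 := by ring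
    rw [e] at h1 ⊢
    exact h1
  · intro s hs
    have h1 := (Finset.mem_filter.1 hs).2
    have e : 2 * (2 * K ^ 2 * q1) = 4 * K ^ 2 * q1 := by ring
    rw [e, hdg] at h1
    exact h1

end counts

section counts2

variable [Fintype V] {G : SimpleGraph V} {B : ℕ → V → V → Prop} {q1 D : ℕ}

lemma sum_le_of (f : V → ℕ) (U : Finset V) (c : ℕ) (h0 : ∀ v, v ∉ U → f v = 0)
    (h1 : ∀ v, f v ≤ c) : ∑ v, f v ≤ U.card * c := by
  have h2 : ∑ v, f v = ∑ v ∈ U, f v := by
    symm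
    exact Finset.sum_subset (Finset.subset_univ _) fun v _ hv => h0 v hv
  rw [h2, ← smul_eq_mul]
  exact Finset.sum_le_card_nsmul _ _ _ fun v _ => h1 v

lemma card_zero (P : V → Prop) (h : ∀ v, ¬ P v) :
    (Finset.univ.filter (fun v => P v)).card = 0 := by
  rw [Finset.card_eq_zero, Finset.filter_eq_empty_iff]
  exact fun v _ => h v

/-- number of rich paths from `x` to `r` -/
noncomputable def Wf (G : SimpleGraph V) (B : ℕ → V → V → Prop) (x r : V) : ℕ :=
  (Finset.univ.filter (fun e : V × V => Ar G B x e.1 e.2 r)).card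

/-- arcs through `A` into a level -/
def Wp (G : SimpleGraph V) (B : ℕ → V → V → Prop) (q1 D j : ℕ) (A : Finset V) (x r a s1 : V) :
    Prop := a ∈ A ∧ Lv G B q1 D j x a s1 r

/-- number of arcs through `A` into a level, ending in `r` -/
noncomputable def Ws (G : SimpleGraph V) (B : ℕ → V → V → Prop) (q1 D j : ℕ) (A : Finset V)
    (x r : V) : ℕ :=
  (Finset.univ.filter (fun e : V × V => Wp G B q1 D j A x r e.1 e.2)).card

lemma Ws_le (j : ℕ) (A : Finset V) (x r : V) : Ws G B q1 D j A x r ≤ Wf G B x r := by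
  refine Finset.card_le_card fun e he => ?_
  rw [Finset.mem_filter] at he ⊢
  exact ⟨he.1, he.2.2.2⟩

lemma T1 (j : ℕ) (A : Finset V) (x : V) (hA : ∀ a ∈ A, (x, a) ∈ Fl G B q1 D (j + 1)) :
    A.card * D ^ 2 ≤ q1 * ∑ r, Ws G B q1 D j A x r := by
  have h1 : ∑ r, Ws G B q1 D j A x r =
      ∑ a, ∑ r, (Finset.univ.filter (fun s1 => Wp G B q1 D j A x r a s1)).card := by
    rw [Finset.sum_comm]
    exact Finset.sum_congr rfl fun r _ => cardP (fun a s1 => Wp G B q1 D j A x r a s1)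
  have h2 : ∀ a ∈ A, ∑ r, (Finset.univ.filter (fun s1 => Wp G B q1 D j A x r a s1)).card =
      ∑ s1, (Finset.univ.filter (fun r => Lv G B q1 D j x a s1 r)).card := by
    intro a ha
    rw [← cardP (fun s1 r => Lv G B q1 D j x a s1 r), cardP' (fun s1 r => Lv G B q1 D j x a s1 r)]
    refine Finset.sum_congr rfl fun r _ => ?_
    congr 1
    ext s1
    rw [Finset.mem_filter, Finset.mem_filter]
    exact ⟨fun h => ⟨h.1, h.2.2⟩, fun h => ⟨h.1, ha, h.2⟩⟩
  have h3 : ∑ a ∈ A, ∑ s1, (Finset.univ.filter (fun r => Lv G B q1 D j x a s1 r)).card ≤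
      ∑ r, Ws G B q1 D j A x r := by
    rw [h1, ← Finset.sum_congr rfl h2]
    exact Finset.sum_le_sum_of_subset (Finset.subset_univ _)
  calc A.card * D ^ 2 ≤ ∑ a ∈ A, q1 *
        ∑ s1, (Finset.univ.filter (fun r => Lv G B q1 D j x a s1 r)).card := by
        rw [← smul_eq_mul]
        exact Finset.card_nsmul_le_sum _ _ _ fun a ha => Fl_spec j x a (hA a ha)
    _ = q1 * ∑ a ∈ A, ∑ s1, (Finset.univ.filter (fun r => Lv G B q1 D j x a s1 r)).card := by
        rw [Finset.mul_sum]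
    _ ≤ _ := Nat.mul_le_mul_left _ h3

lemma T2 {K : ℕ} (hG : AR G D K) (x : V) : ∑ r, Wf G B x r ≤ (K * D) ^ 3 := by
  have h1 : ∑ r, Wf G B x r =
      ∑ a, ∑ r, (Finset.univ.filter (fun s1 => Ar G B x a s1 r)).card := by
    rw [Finset.sum_comm]
    exact Finset.sum_congr rfl fun r _ => cardP (fun a s1 => Ar G B x a s1 r)
  rw [h1]
  have h2 : ∀ a, ∑ r, (Finset.univ.filter (fun s1 => Ar G B x a s1 r)).card ≤
      (K * D) * (K * D) := by
    intro a
    rw [← cardP' (fun s1 r => Ar G B x a s1 r), cardP (fun s1 r => Ar G B x a s1 r)]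
    refine (sum_le_of _ (nb G a) (K * D) ?_ ?_).trans (Nat.mul_le_mul_right _ (hG.hi a))
    · intro s1 hs1
      exact card_zero _ fun r hr => hs1 ((mem_nb G a s1).2 hr.a12)
    · intro s1
      refine (Finset.card_le_card ?_).trans (hG.hi s1)
      intro r hr
      rw [mem_nb]
      exact (Finset.mem_filter.1 hr).2.a23
  refine (sum_le_of _ (nb G x) ((K * D) * (K * D)) ?_ h2).trans ?_
  · intro a ha
    refine Finset.sum_eq_zero fun r _ => ?_
    exact card_zero _ fun s1 hs1 => ha ((mem_nb G x a).2 hs1.a01)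
  · calc (nb G x).card * (K * D * (K * D)) ≤ (K * D) * (K * D * (K * D)) :=
        Nat.mul_le_mul_right _ (hG.hi x)
      _ = (K * D) ^ 3 := by ring

lemma lt_a {F0 : ℕ} (hF : BNd G B 3 F0) (x s1 r : V) :
    (Finset.univ.filter (fun a => Ar G B x a s1 r)).card ≤ F0 := by
  by_cases h : x ≠ s1 ∧ ¬ B 2 x s1
  · refine (Finset.card_le_card ?_).trans (light2 hF x s1 h.1 h.2)
    intro a ha
    rw [Finset.mem_filter] at ha ⊢
    exact ⟨ha.1, ha.2.a01, ha.2.a12⟩
  · rw [card_zero _ fun a ha => h ⟨ha.n02, ha.b02⟩]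
    exact Nat.zero_le _

lemma lt_s {F0 : ℕ} (hF : BNd G B 3 F0) (x a r : V) :
    (Finset.univ.filter (fun s1 => Ar G B x a s1 r)).card ≤ F0 := by
  by_cases h : a ≠ r ∧ ¬ B 2 a r
  · refine (Finset.card_le_card ?_).trans (light2 hF a r h.1 h.2)
    intro s1 hs1
    rw [Finset.mem_filter] at hs1 ⊢
    exact ⟨hs1.1, hs1.2.a12, hs1.2.a23⟩
  · rw [card_zero _ fun s1 hs1 => h ⟨hs1.n13, hs1.b13⟩]
    exact Nat.zero_le _

lemma T3 {K F0 : ℕ} (hG : AR G D K) (hF : BNd G B 3 F0) (x r : V) :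
    Wf G B x r ≤ K * D * F0 := by
  rw [Wf, cardP' (fun a s1 => Ar G B x a s1 r)]
  refine (sum_le_of _ (nb G r) F0 ?_ (fun s1 => lt_a hF x s1 r)).trans
    (Nat.mul_le_mul_right _ (hG.hi r))
  intro s1 hs1
  exact card_zero _ fun a ha => hs1 ((mem_nb G r s1).2 ha.a23.symm)

/-- pairs with a used first vertex -/
def KA (G : SimpleGraph V) (B : ℕ → V → V → Prop) (U : Finset V) (x r a s1 : V) : Prop :=
  a ∈ U ∧ Ar G B x a s1 r

/-- pairs with a used second vertex -/
def KB (G : SimpleGraph V) (B : ℕ → V → V → Prop) (U : Finset V) (x r a s1 : V) : Prop :=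
  s1 ∈ U ∧ Ar G B x a s1 r

lemma killA {F0 : ℕ} (hF : BNd G B 3 F0) (U : Finset V) (x r : V) :
    (Finset.univ.filter (fun e : V × V => KA G B U x r e.1 e.2)).card ≤ U.card * F0 := by
  rw [cardP (fun a s1 => KA G B U x r a s1)]
  refine sum_le_of _ U F0 ?_ ?_
  · intro a ha
    exact card_zero _ fun s1 h => ha h.1
  · intro a
    refine (Finset.card_le_card ?_).trans (lt_s hF x a r)
    intro s1 h
    rw [Finset.mem_filter] at h ⊢
    exact ⟨h.1, h.2.2⟩

lemma killB {F0 : ℕ} (hF : BNd G B 3 F0) (U : Finset V) (x r : V) :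
    (Finset.univ.filter (fun e : V × V => KB G B U x r e.1 e.2)).card ≤ U.card * F0 := by
  rw [cardP' (fun a s1 => KB G B U x r a s1)]
  refine sum_le_of _ U F0 ?_ ?_
  · intro s1 hs1
    exact card_zero _ fun a h => hs1 h.1
  · intro s1
    refine (Finset.card_le_card ?_).trans (lt_a hF x s1 r)
    intro a h
    rw [Finset.mem_filter] at h ⊢
    exact ⟨h.1, h.2.2⟩

lemma pick {F0 : ℕ} (hF : BNd G B 3 F0) (j : ℕ) (A U : Finset V) (x r : V)
    (h : 2 * (U.card * F0) < Ws G B q1 D j A x r) :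
    ∃ a s1, a ∈ A ∧ Lv G B q1 D j x a s1 r ∧ a ∉ U ∧ s1 ∉ U := by
  by_contra hcon
  have h1 : (Finset.univ.filter (fun e : V × V => Wp G B q1 D j A x r e.1 e.2)) ⊆
      (Finset.univ.filter (fun e : V × V => KA G B U x r e.1 e.2)) ∪
      (Finset.univ.filter (fun e : V × V => KB G B U x r e.1 e.2)) := by
    intro e he
    rw [Finset.mem_filter] at he
    rw [Finset.mem_union, Finset.mem_filter, Finset.mem_filter]
    by_cases h2 : e.1 ∈ U
    · exact Or.inl ⟨Finset.mem_univ _, h2, he.2.2.2⟩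
    · by_cases h3 : e.2 ∈ U
      · exact Or.inr ⟨Finset.mem_univ _, h3, he.2.2.2⟩
      · exact absurd ⟨e.1, e.2, he.2.1, he.2.2, h2, h3⟩ hcon
  have h2 := (Finset.card_le_card h1).trans (Finset.card_union_le _ _)
  have h3 := killA hF U x r
  have h4 := killB hF U x r
  have h5 : Ws G B q1 D j A x r =
    (Finset.univ.filter (fun e : V × V => Wp G B q1 D j A x r e.1 e.2)).card := rfl
  omega

/-- a common end of many arcs -/
lemma stepR {K F0 c1 : ℕ} (hK : 0 < K) (hq1 : 0 < q1) (hc1 : 0 < c1) (hG : AR G D K)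
    (hF : BNd G B 3 F0) (j ζ : ℕ) (hD : 2 * (2 * c1 * q1 * K ^ 2) * ζ * F0 < D) (hD0 : 0 < D)
    (x : V) (S' Z : Finset V) (A : V → Finset V)
    (hA : ∀ s ∈ S', ∀ a ∈ A s, (x, a) ∈ Fl G B q1 D (j + 1))
    (hA' : ∀ s ∈ S', K * D ≤ c1 * (A s).card) (hne : S'.Nonempty) (hZ : Z.card ≤ 2 * ζ) :
    ∃ r, r ∉ Z ∧ 0 < Wf G B x r ∧ ∃ S'' ⊆ S',
      S'.card ≤ 2 * (2 * c1 * q1 * K ^ 2) * S''.card ∧
      ∀ s ∈ S'', Wf G B x r ≤ 2 * (2 * c1 * q1 * K ^ 2) * Ws G B q1 D j (A s) x r := by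
  obtain ⟨c2, hc2⟩ : ∃ c2, c2 = 2 * c1 * q1 * K ^ 2 := ⟨_, rfl⟩
  rw [← hc2] at hD ⊢
  have hs0 : 0 < S'.card := hne.card_pos
  obtain ⟨r, hr, hr0, hrS⟩ : ∃ r, r ∉ Z ∧ 0 < Wf G B x r ∧
      S'.card * Wf G B x r ≤ c2 * ∑ s ∈ S', Ws G B q1 D j (A s) x r := by
    by_contra hcon
    push Not at hcon
    have hc : ∀ r, r ∉ Z → c2 * ∑ s ∈ S', Ws G B q1 D j (A s) x r ≤ S'.card * Wf G B x r := by
      intro r hr
      rcases Nat.eq_zero_or_pos (Wf G B x r) with h0 | h0
      · have h1 : ∑ s ∈ S', Ws G B q1 D j (A s) x r = 0 := by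
          refine Finset.sum_eq_zero fun s _ => ?_
          have := Ws_le (G := G) (B := B) (q1 := q1) (D := D) j (A s) x r
          omega
        rw [h1, h0, mul_zero, mul_zero]
      · exact (hcon r hr h0).le
    have e1 : S'.card * (K * D ^ 3) ≤ c1 * q1 * ∑ r, ∑ s ∈ S', Ws G B q1 D j (A s) x r := by
      rw [Finset.sum_comm, Finset.mul_sum, ← smul_eq_mul]
      refine Finset.card_nsmul_le_sum _ _ _ fun s hs => ?_
      have h1 := T1 j (A s) x (hA s hs)
      have h2 := hA' s hs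
      calc K * D ^ 3 = K * D * D ^ 2 := by ring
        _ ≤ c1 * (A s).card * D ^ 2 := Nat.mul_le_mul_right _ h2
        _ = c1 * ((A s).card * D ^ 2) := by ring
        _ ≤ c1 * (q1 * ∑ r, Ws G B q1 D j (A s) x r) := Nat.mul_le_mul_left _ h1
        _ = c1 * q1 * ∑ r, Ws G B q1 D j (A s) x r := by ring
    have e2 : ∑ r, ∑ s ∈ S', Ws G B q1 D j (A s) x r =
        ∑ r ∈ Z, ∑ s ∈ S', Ws G B q1 D j (A s) x r +
        ∑ r ∈ Zᶜ, ∑ s ∈ S', Ws G B q1 D j (A s) x r := by
      rw [Finset.sum_add_sum_compl]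
    have e3 : ∑ r ∈ Z, ∑ s ∈ S', Ws G B q1 D j (A s) x r ≤ (2 * ζ) * (S'.card * (K * D * F0)) := by
      calc ∑ r ∈ Z, ∑ s ∈ S', Ws G B q1 D j (A s) x r ≤ Z.card • (S'.card * (K * D * F0)) := by
            refine Finset.sum_le_card_nsmul _ _ _ fun r _ => ?_
            rw [← smul_eq_mul]
            exact Finset.sum_le_card_nsmul _ _ _ fun s _ =>
              (Ws_le j (A s) x r).trans (T3 hG hF x r)
        _ ≤ (2 * ζ) * (S'.card * (K * D * F0)) := by
            rw [smul_eq_mul]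
            exact Nat.mul_le_mul_right _ hZ
    have e4 : c2 * ∑ r ∈ Zᶜ, ∑ s ∈ S', Ws G B q1 D j (A s) x r ≤ S'.card * (K * D) ^ 3 := by
      calc c2 * ∑ r ∈ Zᶜ, ∑ s ∈ S', Ws G B q1 D j (A s) x r
          = ∑ r ∈ Zᶜ, c2 * ∑ s ∈ S', Ws G B q1 D j (A s) x r := by rw [Finset.mul_sum]
        _ ≤ ∑ r ∈ Zᶜ, S'.card * Wf G B x r :=
            Finset.sum_le_sum fun r hr => hc r (Finset.mem_compl.1 hr)
        _ ≤ ∑ r, S'.card * Wf G B x r := Finset.sum_le_sum_of_subset (Finset.subset_univ _)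
        _ = S'.card * ∑ r, Wf G B x r := by rw [Finset.mul_sum]
        _ ≤ S'.card * (K * D) ^ 3 := Nat.mul_le_mul_left _ (T2 hG x)
    -- c2 * e1
    have e5 : c2 * (S'.card * (K * D ^ 3)) ≤ c1 * q1 * (c2 * ((2 * ζ) *
        (S'.card * (K * D * F0))) + S'.card * (K * D) ^ 3) := by
      calc c2 * (S'.card * (K * D ^ 3))
          ≤ c2 * (c1 * q1 * ∑ r, ∑ s ∈ S', Ws G B q1 D j (A s) x r) := Nat.mul_le_mul_left _ e1
        _ = c1 * q1 * (c2 * ∑ r ∈ Z, ∑ s ∈ S', Ws G B q1 D j (A s) x r +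
            c2 * ∑ r ∈ Zᶜ, ∑ s ∈ S', Ws G B q1 D j (A s) x r) := by rw [e2]; ring
        _ ≤ _ := Nat.mul_le_mul_left _ (Nat.add_le_add (Nat.mul_le_mul_left _ e3) e4)
    have e6 : (c1 * q1 * S'.card * K * D) * (K ^ 2 * D ^ 2) ≤
        (c1 * q1 * S'.card * K * D) * (2 * c2 * ζ * F0) := by
      have h1 : c2 * (S'.card * (K * D ^ 3)) =
          2 * ((c1 * q1 * S'.card * K * D) * (K ^ 2 * D ^ 2)) := by rw [hc2]; ring
      have h2 : c1 * q1 * (c2 * ((2 * ζ) * (S'.card * (K * D * F0))) + S'.card * (K * D) ^ 3) =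
          (c1 * q1 * S'.card * K * D) * (2 * c2 * ζ * F0) +
          (c1 * q1 * S'.card * K * D) * (K ^ 2 * D ^ 2) := by ring
      rw [h1, h2] at e5
      omega
    have e7 : K ^ 2 * D ^ 2 ≤ 2 * c2 * ζ * F0 := Nat.le_of_mul_le_mul_left e6 (by positivity)
    have e8 : D ≤ K ^ 2 * D ^ 2 := by
      calc D = 1 * D ^ 1 := by ring
        _ ≤ K ^ 2 * D ^ 2 := Nat.mul_le_mul (Nat.one_le_pow _ _ hK)
            (Nat.pow_le_pow_right hD0 (by norm_num))
    omega
  refine ⟨r, hr, hr0, S'.filter (fun s => Wf G B x r ≤ 2 * c2 * Ws G B q1 D j (A s) x r),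
    Finset.filter_subset _ _, ?_, ?_⟩
  · exact heavy S' (fun s => Ws G B q1 D j (A s) x r) (Wf G B x r) c2 hr0
      (fun s _ => Ws_le j (A s) x r) hrS
  · intro s hs
    exact (Finset.mem_filter.1 hs).2

end counts2

section fin

variable [Fintype V] {G : SimpleGraph V} {B : ℕ → V → V → Prop} {q1 D : ℕ}

omit [Fintype V] in
lemma inj_of {m : ℕ} {p : ℕ → V} (h : ∀ i i', i < i' → i' ≤ m → p i ≠ p i') :
    ∀ i i', i ≤ m → i' ≤ m → p i = p i' → i = i' := by
  intro i i' hi hi' he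
  rcases lt_trichotomy i i' with h1 | h1 | h1
  · exact absurd he (h i i' h1 hi')
  · exact h1
  · exact absurd he.symm (h i' i h1 hi)

/-- a path with five vertices -/
def p5 (a b c d e : V) : ℕ → V
  | 0 => a
  | 1 => b
  | 2 => c
  | 3 => d
  | _ => e

lemma exists_out [Nonempty V] {K : ℕ} (hG : AR G D K) (U : Finset V) (h : U.card < D) :
    ∃ v, v ∉ U := by
  by_contra hcon
  push Not at hcon
  obtain ⟨v⟩ := (inferInstance : Nonempty V)
  have h1 := hG.lo v
  have h2 : nb G v ⊆ U := fun w _ => hcon w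
  have := Finset.card_le_card h2
  omega

lemma leg [Nonempty V] {K M C c1 c2 ζ : ℕ} (hK : 0 < K) (hq1 : 0 < q1) (hG : AR G D K)
    (hR : RichSp G B 3 M) (hc1 : c1 = 4 * K ^ 2 * q1) (hc2 : 0 < c2) (hC : C = c1 * c2)
    (hD1 : 4 * K * q1 * ζ < D) (hD2 : c1 * (6 * ζ + 4) < D) (hD3 : 2 * ζ < D)
    (hM : 6 * ζ + 4 < M) (j : ℕ) (w : V) (S Z : Finset V) (n' : ℕ)
    (hS : ∀ s ∈ S, (s, w) ∈ Fl G B q1 D (j + 1)) (hn : C * n' ≤ S.card) (hSζ : S.card ≤ ζ)
    (hZζ : Z.card ≤ ζ) :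
    ∃ ρ, ρ ∉ Z ∧ ρ ∉ S ∧ ∃ P : Fin n' → ℕ → V,
      (∀ l, P l 0 ∈ S ∧ P l (3 + 1) = ρ ∧ (∀ i, i ≤ 3 → G.Adj (P l i) (P l (i + 1))) ∧
        ∀ i, 1 ≤ i → i ≤ 3 → P l i ∉ Z ∧ P l i ∉ S ∧ P l i ≠ ρ) ∧
      ∀ l l' i i', i ≤ 3 → i' ≤ 3 → P l i = P l' i' → l = l' ∧ i = i' := by
  have hc1' : 0 < c1 := by rw [hc1]; positivity
  have hC0 : 0 < C := by rw [hC]; positivity
  rcases S.eq_empty_or_nonempty with hE | hne
  · have hn0 : n' = 0 := by
      rw [hE, Finset.card_empty] at hn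
      rcases Nat.eq_zero_or_pos n' with h | h
      · exact h
      · have := Nat.mul_pos hC0 h
        omega
    subst hn0
    obtain ⟨ρ, hρ⟩ := exists_out hG (Z ∪ S) (by
      have := Finset.card_union_le Z S
      omega)
    exact ⟨ρ, fun h => hρ (Finset.mem_union_left _ h), fun h => hρ (Finset.mem_union_right _ h),
      fun l => l.elim0, fun l => l.elim0, fun l => l.elim0⟩
  obtain ⟨x, hxZ, hxS, S', hS'S, hS'c, hA⟩ := stepX hK hG j ζ hD1 w S Z hS hne hSζ hZζ
  rw [← hc1] at hS'c hA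
  have hn' : n' ≤ S'.card := by
    have h1 : c1 * n' ≤ c1 * S'.card := by
      calc c1 * n' ≤ c1 * (c2 * n') := Nat.mul_le_mul_left _ (Nat.le_mul_of_pos_left _ hc2)
        _ = C * n' := by rw [hC]; ring
        _ ≤ S.card := hn
        _ ≤ c1 * S'.card := hS'c
    exact Nat.le_of_mul_le_mul_left h1 hc1'
  obtain ⟨U0, hU0⟩ : ∃ U0 : Finset V, U0 = insert x (Z ∪ S) := ⟨_, rfl⟩
  have hU0c : U0.card ≤ 2 * ζ + 1 := by
    rw [hU0]
    have h1 := Finset.card_insert_le x (Z ∪ S)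
    have h2 := Finset.card_union_le Z S
    omega
  have hS'c' : S'.card ≤ ζ := (Finset.card_le_card hS'S).trans hSζ
  obtain ⟨P, hP1, hP2⟩ := greedy 3 S' U0 (by
      rw [hU0]
      exact fun s hs => Finset.mem_insert_of_mem (Finset.mem_union_right _ (hS'S hs)))
    (fun p => p 4 = x ∧ ∀ i, i ≤ 3 → G.Adj (p i) (p (i + 1))) (by
      intro s hs U hU hUc
      have hUc' : U.card ≤ 6 * ζ + 4 := by omega
      obtain ⟨a, ha, haU⟩ : ∃ a ∈ (Finset.univ.filter (fun a => Lv G B q1 D j s w x a)), a ∉ U := by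
        apply Finset.exists_mem_notMem_of_card_lt_card
        have h1 := hA s hs
        have h2 : D ≤ K * D := Nat.le_mul_of_pos_left _ hK
        have h3 : c1 * U.card ≤ c1 * (6 * ζ + 4) := Nat.mul_le_mul_left _ hUc'
        have h4 : c1 * U.card < c1 * (Finset.univ.filter (fun a => Lv G B q1 D j s w x a)).card := by
          omega
        exact Nat.lt_of_mul_lt_mul_left h4
      have ha' := (Finset.mem_filter.1 ha).2.2
      obtain ⟨u1, u2, h1, h2, h3, h4, h5, h6, h7, h8⟩ := exPath hR s a ha'.b03 U (by omega)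
      refine ⟨p5 s u1 u2 a x, rfl, ?_, ?_, rfl, ?_⟩
      · intro i hi hi'
        interval_cases i
        · exact h1
        · exact h2
        · exact haU
      · apply inj_of
        intro i i' hi hi'
        interval_cases i' <;> interval_cases i
        · exact h3.ne
        · exact h6
        · exact h4.ne
        · exact h8
        · exact h7
        · exact h5.ne
      · intro i hi
        interval_cases i
        · exact h3
        · exact h4
        · exact h5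
        · exact ha'.a23.symm) n' hn'
  refine ⟨x, hxZ, hxS, P, ?_, hP2⟩
  intro l
  obtain ⟨h1, ⟨h2, h3⟩, h4⟩ := hP1 l
  refine ⟨hS'S h1, h2, h3, ?_⟩
  intro i hi hi'
  have h5 := h4 i hi hi'
  rw [hU0] at h5
  refine ⟨fun h => h5 (Finset.mem_insert_of_mem (Finset.mem_union_left _ h)),
    fun h => h5 (Finset.mem_insert_of_mem (Finset.mem_union_right _ h)), fun h => h5 ?_⟩
  rw [h]
  exact Finset.mem_insert_self _ _

lemma core [Nonempty V] {K M C c1 c2 ζ F0 : ℕ} (hK : 0 < K) (hq1 : 0 < q1) (hG : AR G D K)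
    (hR : RichSp G B 3 M) (hF : BNd G B 3 F0) (hc1 : c1 = 4 * K ^ 2 * q1)
    (hc2 : c2 = 2 * (2 * c1 * q1 * K ^ 2)) (hC : C = c1 * c2)
    (hD1 : 4 * K * q1 * ζ < D) (hD2 : c2 * ζ * F0 < D) (hD3 : 2 * ζ < D)
    (hM : c2 * (2 * ((6 * ζ + 4) * F0)) + 6 * ζ + 4 < M) (j : ℕ) (w : V) (S Z : Finset V) (n' : ℕ)
    (hS : ∀ s ∈ S, (s, w) ∈ Fl G B q1 D (j + 2)) (hn : C * n' ≤ S.card) (hSζ : S.card ≤ ζ)
    (hZζ : Z.card ≤ ζ) :
    ∃ w', w' ∉ Z ∧ w' ∉ S ∧ ∃ P : Fin n' → ℕ → V,
      (∀ l, P l 0 ∈ S ∧ (P l (3 + 1), w') ∈ Fl G B q1 D j ∧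
        (∀ i, i ≤ 3 → G.Adj (P l i) (P l (i + 1))) ∧
        ∀ i, 1 ≤ i → i ≤ 3 + 1 → P l i ∉ Z ∧ P l i ∉ S ∧ P l i ≠ w') ∧
      ∀ l l' i i', i ≤ 3 + 1 → i' ≤ 3 + 1 → P l i = P l' i' → l = l' ∧ i = i' := by
  have hc1' : 0 < c1 := by rw [hc1]; positivity
  have hc2' : 0 < c2 := by rw [hc2]; positivity
  have hC0 : 0 < C := by rw [hC]; positivity
  rcases S.eq_empty_or_nonempty with hE | hne
  · have hn0 : n' = 0 := by
      rw [hE, Finset.card_empty] at hn
      rcases Nat.eq_zero_or_pos n' with h | h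
      · exact h
      · have := Nat.mul_pos hC0 h
        omega
    subst hn0
    obtain ⟨ρ, hρ⟩ := exists_out hG (Z ∪ S) (by
      have := Finset.card_union_le Z S
      omega)
    exact ⟨ρ, fun h => hρ (Finset.mem_union_left _ h), fun h => hρ (Finset.mem_union_right _ h),
      fun l => l.elim0, fun l => l.elim0, fun l => l.elim0⟩
  obtain ⟨x, hxZ, hxS, S', hS'S, hS'c, hA⟩ := stepX hK hG (j + 1) ζ hD1 w S Z hS hne hSζ hZζ
  rw [← hc1] at hS'c hA
  have hS'c' : S'.card ≤ ζ := (Finset.card_le_card hS'S).trans hSζ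
  have hne' : S'.Nonempty := by
    rw [← Finset.card_pos]
    rcases Nat.eq_zero_or_pos S'.card with h | h
    · have := hne.card_pos
      rw [h, mul_zero] at hS'c
      omega
    · exact h
  obtain ⟨A, hAdef⟩ : ∃ A : V → Finset V, A = fun s =>
    (Finset.univ.filter (fun a => Lv G B q1 D (j + 1) s w x a)) := ⟨_, rfl⟩
  have hAA : ∀ s ∈ S', K * D ≤ c1 * (A s).card := by
    intro s hs
    rw [hAdef]
    exact hA s hs
  obtain ⟨r, hrZ, hr0, S'', hS'', hS''c, hW⟩ := stepR hK hq1 hc1' hG hF j ζ (by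
      rw [← hc2]; exact hD2) (by omega) x S' (Z ∪ S) A (by
      intro s _ a ha
      rw [hAdef] at ha
      exact (Finset.mem_filter.1 ha).2.1) hAA hne' (by
      have := Finset.card_union_le Z S
      omega)
  rw [← hc2] at hS''c hW
  have hn' : n' ≤ S''.card := by
    have h1 : C * n' ≤ C * S''.card := by
      calc C * n' ≤ S.card := hn
        _ ≤ c1 * S'.card := hS'c
        _ ≤ c1 * (c2 * S''.card) := Nat.mul_le_mul_left _ hS''c
        _ = C * S''.card := by rw [hC]; ring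
    exact Nat.le_of_mul_le_mul_left h1 hC0
  -- many rich paths from `x` to `r`
  have hWM : M ≤ Wf G B x r := by
    obtain ⟨e, he⟩ := Finset.card_pos.1 hr0
    exact W_ge hR x r (Finset.mem_filter.1 he).2.b03
  obtain ⟨U0, hU0⟩ : ∃ U0 : Finset V, U0 = insert r (Z ∪ S) := ⟨_, rfl⟩
  have hU0c : U0.card ≤ 2 * ζ + 1 := by
    rw [hU0]
    have h1 := Finset.card_insert_le r (Z ∪ S)
    have h2 := Finset.card_union_le Z S
    omega
  have hS''c' : S''.card ≤ ζ := (Finset.card_le_card hS'').trans hS'c'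
  have hSU0 : S ⊆ U0 := by
    rw [hU0]
    exact fun s hs => Finset.mem_insert_of_mem (Finset.mem_union_right _ hs)
  obtain ⟨P, hP1, hP2⟩ := greedy 4 S'' U0 (fun s hs => hSU0 (hS'S (hS'' hs)))
    (fun p => (p 4, r) ∈ Fl G B q1 D j ∧ ∀ i, i ≤ 3 → G.Adj (p i) (p (i + 1))) (by
      intro s hs U hU hUc
      have hUc' : U.card ≤ 6 * ζ + 4 := by omega
      have h0 : 2 * (U.card * F0) < Ws G B q1 D j (A s) x r := by
        by_contra hcon
        push Not at hcon
        have h1 := hW s hs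
        have h2 : U.card * F0 ≤ (6 * ζ + 4) * F0 := Nat.mul_le_mul_right _ hUc'
        have h3 : c2 * Ws G B q1 D j (A s) x r ≤ c2 * (2 * ((6 * ζ + 4) * F0)) :=
          Nat.mul_le_mul_left _ (by omega)
        omega
      obtain ⟨a, s1, haA, hLv, haU, hs1U⟩ := pick hF j (A s) U x r h0
      have ha' : Ar G B s w x a := by
        rw [hAdef] at haA
        exact (Finset.mem_filter.1 haA).2.2
      have hr' := hLv.2
      obtain ⟨u1, u2, h1, h2, h3, h4, h5, h6, h7, h8⟩ := exPath hR s a ha'.b03 (insert s1 U) (by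
        have := Finset.card_insert_le s1 U
        omega)
      have h1' : u1 ∉ U := fun h => h1 (Finset.mem_insert_of_mem h)
      have h2' : u2 ∉ U := fun h => h2 (Finset.mem_insert_of_mem h)
      have h1s : u1 ≠ s1 := fun h => h1 (h ▸ Finset.mem_insert_self _ _)
      have h2s : u2 ≠ s1 := fun h => h2 (h ▸ Finset.mem_insert_self _ _)
      have hss : s ≠ s1 := fun h => hs1U (h ▸ hU (hSU0 (hS'S (hS'' hs))))
      refine ⟨p5 s u1 u2 a s1, rfl, ?_, ?_, hLv.1, ?_⟩
      · intro i hi hi'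
        interval_cases i
        · exact h1'
        · exact h2'
        · exact haU
        · exact hs1U
      · apply inj_of
        intro i i' hi hi'
        interval_cases i' <;> interval_cases i
        · exact h3.ne
        · exact h6
        · exact h4.ne
        · exact h8
        · exact h7
        · exact h5.ne
        · exact hss
        · exact h1s
        · exact h2s
        · exact hr'.a12.ne
      · intro i hi
        interval_cases i
        · exact h3
        · exact h4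
        · exact h5
        · exact hr'.a12) n' hn'
  refine ⟨r, fun h => hrZ (Finset.mem_union_left _ h), fun h => hrZ (Finset.mem_union_right _ h),
    P, ?_, hP2⟩
  intro l
  obtain ⟨h1, ⟨h2, h3⟩, h4⟩ := hP1 l
  refine ⟨hS'S (hS'' h1), h2, h3, ?_⟩
  intro i hi hi'
  have h5 := h4 i hi hi'
  rw [hU0] at h5
  refine ⟨fun h => h5 (Finset.mem_insert_of_mem (Finset.mem_union_left _ h)),
    fun h => h5 (Finset.mem_insert_of_mem (Finset.mem_union_right _ h)), fun h => h5 ?_⟩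
  rw [h]
  exact Finset.mem_insert_self _ _

/-- membership as a relation -/
def Mem2 (F : Finset (V × V)) (a b : V) : Prop := (a, b) ∈ F

omit [Fintype V] in
lemma ex3 (p : Fin (3 + 1) → V) (i : Fin (3 + 1)) : ex 3 p i.1 = p i := by
  unfold ex
  congr 1
  ext
  simp only
  omega

lemma card_Mem2 (F : Finset (V × V)) :
    (Finset.univ.filter (fun e : V × V => Mem2 F e.1 e.2)).card = F.card := by
  congr 1
  ext e
  rw [Finset.mem_filter]
  exact ⟨fun h => h.2, fun h => ⟨Finset.mem_univ _, h⟩⟩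

lemma Fl0_lo {K : ℕ} (hG : AR G D K) : Fintype.card V * D ≤ (Fl G B q1 D 0).card := by
  have h1 : (Fl G B q1 D 0).card = ∑ v, (nb G v).card := cardP (fun a b => G.Adj a b)
  rw [h1, ← smul_eq_mul, ← Finset.card_univ]
  exact Finset.card_nsmul_le_sum _ _ _ fun v _ => hG.lo v

lemma Fl0_hi {K : ℕ} (hG : AR G D K) : (Fl G B q1 D 0).card ≤ Fintype.card V * (K * D) := by
  have h1 : (Fl G B q1 D 0).card = ∑ v, (nb G v).card := cardP (fun a b => G.Adj a b)
  rw [h1, ← smul_eq_mul, ← Finset.card_univ]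
  exact Finset.sum_le_card_nsmul _ _ _ fun v _ => hG.hi v

lemma Fl_le0 (j : ℕ) : Fl G B q1 D j ⊆ Fl G B q1 D 0 := by
  induction j with
  | zero => exact Finset.Subset.refl _
  | succ j ih => exact (Fl_sub j).trans ih

lemma tele (m : ℕ) : (Fl G B q1 D 0).card = (Fl G B q1 D m).card +
    ∑ j ∈ Finset.range m, (Fl G B q1 D j \ Fl G B q1 D (j + 1)).card := by
  induction m with
  | zero => simp
  | succ m ih =>
    rw [Finset.sum_range_succ, ih]
    have := Finset.card_sdiff_add_card_eq_card (Fl_sub (G := G) (B := B) (q1 := q1) (D := D) m)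
    omega

lemma caseA {K J : ℕ} (hJ : 0 < J) (hG : AR G D K)
    (h : 2 * (Fl G B q1 D J).card < Fintype.card V * D) :
    ∃ j, Fintype.card V * D ≤ 2 * J * (Fl G B q1 D j \ Fl G B q1 D (j + 1)).card := by
  by_contra hcon
  push Not at hcon
  have h1 := tele (G := G) (B := B) (q1 := q1) (D := D) J
  have h2 := Fl0_lo (B := B) (q1 := q1) hG
  have h3 : 2 * J * ∑ j ∈ Finset.range J, (Fl G B q1 D j \ Fl G B q1 D (j + 1)).card ≤
      J * (Fintype.card V * D) := by
    rw [Finset.mul_sum]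
    calc ∑ j ∈ Finset.range J, 2 * J * (Fl G B q1 D j \ Fl G B q1 D (j + 1)).card
        ≤ (Finset.range J).card • (Fintype.card V * D) :=
          Finset.sum_le_card_nsmul _ _ _ fun j _ => (hcon j).le
      _ = J * (Fintype.card V * D) := by rw [Finset.card_range, smul_eq_mul]
  have h4 : J * (2 * (Fl G B q1 D J).card) < J * (Fintype.card V * D) :=
    Nat.mul_lt_mul_of_pos_left h hJ
  have h5 : 2 * J * (Fintype.card V * D) ≤ 2 * J * (Fl G B q1 D 0).card := Nat.mul_le_mul_left _ h2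
  rw [h1, mul_add] at h5
  nlinarith

lemma rch_le (j : ℕ) :
    q1 * (RCh G B (Mem2 (Fl G B q1 D j \ Fl G B q1 D (j + 1))) 3).card ≤
      (Fl G B q1 D j \ Fl G B q1 D (j + 1)).card * D ^ 2 := by
  have h1 : (RCh G B (Mem2 (Fl G B q1 D j \ Fl G B q1 D (j + 1))) 3).card ≤
      ((Fl G B q1 D j \ Fl G B q1 D (j + 1)).sigma (fun e =>
        (Fl G B q1 D j).filter (fun f => Ar G B e.1 e.2 f.1 f.2))).card := by
    refine Finset.card_le_card_of_injOn (fun p => ⟨(ex 3 p 0, ex 3 p 1), (ex 3 p 2, ex 3 p 3)⟩) ?_ ?_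
    · intro p hp
      rw [Finset.mem_coe, RCh, Finset.mem_filter, RCs, Finset.mem_filter] at hp
      obtain ⟨⟨-, hp1, hp2⟩, hp3⟩ := hp
      have g0 := (hp3 0 (by norm_num)).1 rfl
      have g2 := (hp3 2 (by norm_num)).1 rfl
      rw [Finset.mem_coe, Finset.mem_sigma, Finset.mem_filter]
      exact ⟨g0, (Finset.mem_sdiff.1 g2).1, Ar_of G B _ hp1 hp2⟩
    · intro p _ p' _ he
      simp only [Sigma.mk.injEq, Prod.mk.injEq, heq_eq_eq] at he
      obtain ⟨⟨e0, e1⟩, e2, e3⟩ := he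
      funext i
      rw [← ex3 p i, ← ex3 p' i]
      obtain ⟨i, hi⟩ := i
      simp only
      interval_cases i
      · exact e0
      · exact e1
      · exact e2
      · exact e3
  rw [Finset.card_sigma] at h1
  calc q1 * (RCh G B (Mem2 (Fl G B q1 D j \ Fl G B q1 D (j + 1))) 3).card
      ≤ q1 * ∑ e ∈ Fl G B q1 D j \ Fl G B q1 D (j + 1),
        ((Fl G B q1 D j).filter (fun f => Ar G B e.1 e.2 f.1 f.2)).card :=
        Nat.mul_le_mul_left _ h1
    _ = ∑ e ∈ Fl G B q1 D j \ Fl G B q1 D (j + 1), q1 *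
        ((Fl G B q1 D j).filter (fun f => Ar G B e.1 e.2 f.1 f.2)).card := by
        rw [Finset.mul_sum]
    _ ≤ (Fl G B q1 D j \ Fl G B q1 D (j + 1)).card • D ^ 2 := by
        refine Finset.sum_le_card_nsmul _ _ _ fun e he => ?_
        rw [Finset.mem_sdiff] at he
        by_contra hcon
        push Not at hcon
        exact he.2 (Finset.mem_filter.2 ⟨he.1, hcon.le⟩)
    _ = _ := by rw [smul_eq_mul]

end fin

end KMv33

theorem mv33_holds : S_MV3 := by
  intro K n hK
  refine ⟨2 * (2 * n + 2), by omega, fun q => ?_⟩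
  obtain ⟨q1, hq1⟩ : ∃ q1, q1 = K * (q + 1) := ⟨_, rfl⟩
  obtain ⟨c1, hc1⟩ : ∃ c1, c1 = 4 * K ^ 2 * q1 := ⟨_, rfl⟩
  obtain ⟨c2, hc2⟩ : ∃ c2, c2 = 2 * (2 * c1 * q1 * K ^ 2) := ⟨_, rfl⟩
  have hq10 : 0 < q1 := by rw [hq1]; positivity
  have hc10 : 0 < c1 := by rw [hc1]; positivity
  have hc20 : 0 < c2 := by rw [hc2]; positivity
  refine ⟨c1 * c2, by positivity, fun F0 ζ => ?_⟩
  refine ⟨c2 * (2 * ((6 * ζ + 4) * F0)) + 6 * ζ + 5,
    4 * K * q1 * ζ + c2 * ζ * F0 + c1 * (6 * ζ + 4) + 2 * ζ + 1, ?_⟩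
  intro V _ _ G D B hG hD _ hR hF
  by_cases hcase : 2 * (KMv33.Fl G B q1 D (2 * n + 2)).card < Fintype.card V * D
  · right
    obtain ⟨j, hj⟩ := KMv33.caseA (by omega) hG hcase
    refine ⟨KMv33.Mem2 (KMv33.Fl G B q1 D j \ KMv33.Fl G B q1 D (j + 1)), ?_, ?_, ?_⟩
    · intro a b hab
      exact KMv33.Fl_adj j (a, b) (Finset.mem_sdiff.1 hab).1
    · rw [gc, KMv33.card_Mem2]
      exact hj
    · have h1 := KMv33.rch_le (G := G) (B := B) (q1 := q1) (D := D) j
      have h2 : (KMv33.Fl G B q1 D j \ KMv33.Fl G B q1 D (j + 1)).card ≤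
          Fintype.card V * (K * D) :=
        (Finset.card_le_card (Finset.sdiff_subset.trans (KMv33.Fl_le0 j))).trans
          (KMv33.Fl0_hi hG)
      have h3 := h1.trans (Nat.mul_le_mul_right (D ^ 2) h2)
      have h4 : K * ((q + 1) *
          (RCh G B (KMv33.Mem2 (KMv33.Fl G B q1 D j \ KMv33.Fl G B q1 D (j + 1))) 3).card) ≤
          K * (Fintype.card V * D ^ 3) := by
        calc K * ((q + 1) *
          (RCh G B (KMv33.Mem2 (KMv33.Fl G B q1 D j \ KMv33.Fl G B q1 D (j + 1))) 3).card) =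
          q1 * (RCh G B (KMv33.Mem2 (KMv33.Fl G B q1 D j \ KMv33.Fl G B q1 D (j + 1))) 3).card := by
              rw [hq1]; ring
          _ ≤ Fintype.card V * (K * D) * D ^ 2 := h3
          _ = K * (Fintype.card V * D ^ 3) := by ring
      have h5 := Nat.le_of_mul_le_mul_left h4 hK
      nlinarith
  · left
    push Not at hcase
    refine ⟨ℕ, fun j w s => (s, w) ∈ KMv33.Fl G B q1 D j, fun m j => 2 * m + 1 ≤ j, ⟨?_, ?_, ?_⟩, ?_⟩
    · intro j w s h
      exact (KMv33.Fl_adj j (s, w) h).symm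
    · intro m a ha w S Z n' hS _ hn hSζ hZζ
      obtain ⟨j, rfl⟩ : ∃ j, a = j + 1 := ⟨a - 1, by omega⟩
      exact KMv33.leg hK hq10 hG hR hc1 hc20 rfl (by omega) (by omega) (by omega) (by omega) j w S Z
        n' hS hn hSζ hZζ
    · intro m a ha w S Z n' hS _ hn hSζ hZζ
      obtain ⟨j, rfl⟩ : ∃ j, a = j + 2 := ⟨a - 2, by omega⟩
      exact ⟨j, by omega, KMv33.core hK hq10 hG hR hF hc1 hc2 rfl (by omega) (by omega) (by omega)
        (by omega) j w S Z n' hS hn hSζ hZζ⟩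
    · intro n0 hn0
      obtain ⟨w, hw⟩ : ∃ w, D ≤ 2 * (Finset.univ.filter (fun s =>
          KMv33.Mem2 (KMv33.Fl G B q1 D (2 * n + 2)) s w)).card := by
        by_contra hcon
        push Not at hcon
        have h1 : 2 * (KMv33.Fl G B q1 D (2 * n + 2)).card < Fintype.card V * D := by
          rw [← KMv33.card_Mem2 (KMv33.Fl G B q1 D (2 * n + 2)),
            KMv33.cardP' (fun s w => KMv33.Mem2 (KMv33.Fl G B q1 D (2 * n + 2)) s w),
            Finset.mul_sum, ← smul_eq_mul (Fintype.card V) D, ← Finset.card_univ]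
          rw [← Finset.sum_const]
          exact Finset.sum_lt_sum_of_nonempty Finset.univ_nonempty fun w _ => hcon w
        omega
      obtain ⟨S, hS1, hS2⟩ := Finset.exists_subset_card_eq (s := Finset.univ.filter (fun s =>
          KMv33.Mem2 (KMv33.Fl G B q1 D (2 * n + 2)) s w)) (n := n0) (by omega)
      refine ⟨2 * n + 2, w, S, by omega, hS2, ?_, ?_⟩
      · intro hwS
        have := (Finset.mem_filter.1 (hS1 hwS)).2
        exact (KMv33.Fl_adj _ (w, w) this).ne rfl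
      · intro s hs
        exact (Finset.mem_filter.1 (hS1 hs)).2

end Pool.Agent.TH476.KK
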