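import Pool.Agent.TH476.KHub

set_option autoImplicit false

open Classical

namespace Pool.Agent.TH476.KK

open Pool.Agent.TH476

namespace KMv35

variable {V : Type}

/-- paths with given starts, chosen one after the other -/
lemma sel (m ζ : ℕ) (U : Finset V) (good : V → (ℕ → V) → Prop) (T : Finset V) (hTU : T ⊆ U)
    (hU : U.card + T.card * m ≤ ζ)
    (h : ∀ s ∈ T, ∀ Z : Finset V, Z.card ≤ ζ → ∃ P : ℕ → V, P 0 = s ∧ good s P ∧
      (∀ j, 1 ≤ j → j ≤ m → P j ∉ Z) ∧ ∀ j j', j ≤ m → j' ≤ m → P j = P j' → j = j') :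
    ∃ P : V → ℕ → V,
      (∀ s ∈ T, P s 0 = s ∧ good s (P s) ∧ (∀ j, 1 ≤ j → j ≤ m → P s j ∉ U)) ∧
      ∀ s ∈ T, ∀ s' ∈ T, ∀ j j', j ≤ m → j' ≤ m → P s j = P s' j' → s = s' ∧ j = j' := by
  induction T using Finset.induction_on with
  | empty => exact ⟨fun s _ => s, by simp, by simp⟩
  | insert a T ha ih =>
    have hT : T ⊆ U := fun x hx => hTU (Finset.mem_insert_of_mem hx)
    have haU : a ∈ U := hTU (Finset.mem_insert_self a T)
    have hc : (insert a T).card = T.card + 1 := Finset.card_insert_of_notMem ha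
    rw [hc] at hU
    have hU' : U.card + T.card * m ≤ ζ := by
      have : (T.card + 1) * m = T.card * m + m := by ring
      omega
    obtain ⟨P, hP1, hP2⟩ := ih hT hU' (fun s hs => h s (Finset.mem_insert_of_mem hs))
    obtain ⟨Z, hZ⟩ : ∃ Z : Finset V, Z = U ∪ T.biUnion (fun s => (Finset.Icc 1 m).image (P s)) :=
      ⟨_, rfl⟩
    have hZc : Z.card ≤ ζ := by
      have h1 : (T.biUnion (fun s => (Finset.Icc 1 m).image (P s))).card ≤ T.card * m := by
        refine Finset.card_biUnion_le_card_mul _ _ _ (fun s _ => ?_)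
        refine Finset.card_image_le.trans ?_
        simp
      have h2 := Finset.card_union_le U (T.biUnion (fun s => (Finset.Icc 1 m).image (P s)))
      rw [hZ]
      omega
    have hZU : ∀ x ∈ U, x ∈ Z := fun x hx => by
      rw [hZ]
      exact Finset.mem_union_left _ hx
    have hZP : ∀ s ∈ T, ∀ j, 1 ≤ j → j ≤ m → P s j ∈ Z := by
      intro s hs j h1 h2
      rw [hZ]
      refine Finset.mem_union_right _ (Finset.mem_biUnion.mpr ⟨s, hs, ?_⟩)
      exact Finset.mem_image.mpr ⟨j, Finset.mem_Icc.mpr ⟨h1, h2⟩, rfl⟩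
    obtain ⟨A, hA0, hA1, hA2, hA3⟩ := h a (Finset.mem_insert_self a T) Z hZc
    have hcross : ∀ s ∈ T, ∀ j j', j ≤ m → j' ≤ m → A j ≠ P s j' := by
      intro s hs j j' hj hj' he
      rcases Nat.eq_zero_or_pos j with h0 | h0
      · rw [h0, hA0] at he
        rcases Nat.eq_zero_or_pos j' with h1 | h1
        · rw [h1, (hP1 s hs).1] at he
          exact ha (he ▸ hs)
        · exact (hP1 s hs).2.2 j' h1 hj' (he ▸ haU)
      · refine hA2 j h0 hj ?_
        rw [he]
        rcases Nat.eq_zero_or_pos j' with h1 | h1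
        · rw [h1, (hP1 s hs).1]
          exact hZU s (hT hs)
        · exact hZP s hs j' h1 hj'
    refine ⟨fun s => if s = a then A else P s, ?_, ?_⟩
    · intro s hs
      by_cases hsa : s = a
      · subst hsa
        simp only [if_true]
        exact ⟨hA0, hA1, fun j h1 h2 h3 => hA2 j h1 h2 (hZU _ h3)⟩
      · simp only [hsa, if_false]
        rcases Finset.mem_insert.mp hs with h1 | h1
        · exact absurd h1 hsa
        · exact hP1 s h1
    · intro s hs s' hs' j j' hj hj' he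
      by_cases hsa : s = a
      · by_cases hsa' : s' = a
        · simp only [hsa, hsa', if_true] at he
          exact ⟨hsa.trans hsa'.symm, hA3 j j' hj hj' he⟩
        · simp only [hsa, hsa', if_true, if_false] at he
          rcases Finset.mem_insert.mp hs' with h1 | h1
          · exact absurd h1 hsa'
          · exact absurd he (hcross s' h1 j j' hj hj')
      · rcases Finset.mem_insert.mp hs with h0 | h0
        · exact absurd h0 hsa
        by_cases hsa' : s' = a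
        · simp only [hsa, hsa', if_true, if_false] at he
          exact absurd he.symm (hcross s h0 j' j hj' hj)
        · simp only [hsa, hsa', if_false] at he
          rcases Finset.mem_insert.mp hs' with h1 | h1
          · exact absurd h1 hsa'
          · exact hP2 s h0 s' h1 j j' hj hj' he

/-- averaging -/
lemma avg (S Y : Finset V) (f : V → V → ℕ) (K q D : ℕ) (hD : 0 < D)
    (hY : Y.Nonempty) (hYc : Y.card ≤ K * D) (hf : ∀ s y, f s y ≤ K * D)
    (hs : ∀ s ∈ S, D * D ≤ 2 * q * ∑ y ∈ Y, f s y) :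
    ∃ y ∈ Y, S.card ≤ (4 * q * K + 1) * K *
      (S.filter (fun s => D ≤ (4 * q * K + 1) * f s y)).card := by
  by_contra hcon
  push Not at hcon
  obtain ⟨a, ha⟩ : ∃ a, a = 4 * q * K + 1 := ⟨_, rfl⟩
  rw [← ha] at hcon
  obtain ⟨y0, hy0⟩ := hY
  have hS : 0 < S.card := lt_of_le_of_lt (Nat.zero_le _) (hcon y0 hy0)
  have h1 : ∀ y ∈ Y, a * ∑ s ∈ S, f s y ≤ 2 * S.card * D := by
    intro y hy
    have h2 := hcon y hy
    have h3 : ∑ s ∈ S, f s y = ∑ s ∈ S.filter (fun s => D ≤ a * f s y), f s y +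
        ∑ s ∈ S.filter (fun s => ¬ D ≤ a * f s y), f s y :=
      (Finset.sum_filter_add_sum_filter_not S _ _).symm
    have h4 : ∑ s ∈ S.filter (fun s => D ≤ a * f s y), f s y ≤
        (S.filter (fun s => D ≤ a * f s y)).card * (K * D) := by
      have := Finset.sum_le_card_nsmul (S.filter (fun s => D ≤ a * f s y)) (fun s => f s y)
        (K * D) (fun s _ => hf s y)
      simpa using this
    have h5 : a * ∑ s ∈ S.filter (fun s => ¬ D ≤ a * f s y), f s y ≤ S.card * D := by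
      rw [Finset.mul_sum]
      have h6 : ∑ s ∈ S.filter (fun s => ¬ D ≤ a * f s y), a * f s y ≤
          (S.filter (fun s => ¬ D ≤ a * f s y)).card * D := by
        have := Finset.sum_le_card_nsmul (S.filter (fun s => ¬ D ≤ a * f s y))
          (fun s => a * f s y) D (fun s hs => by
            have := (Finset.mem_filter.mp hs).2
            show a * f s y ≤ D
            omega)
        simpa using this
      exact h6.trans (Nat.mul_le_mul_right _ (Finset.card_filter_le _ _))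
    have h7 : a * K * (S.filter (fun s => D ≤ a * f s y)).card * D ≤ S.card * D :=
      Nat.mul_le_mul_right _ h2.le
    calc a * ∑ s ∈ S, f s y = a * ∑ s ∈ S.filter (fun s => D ≤ a * f s y), f s y +
          a * ∑ s ∈ S.filter (fun s => ¬ D ≤ a * f s y), f s y := by rw [h3]; ring
      _ ≤ a * ((S.filter (fun s => D ≤ a * f s y)).card * (K * D)) + S.card * D := by
          gcongr
      _ = a * K * (S.filter (fun s => D ≤ a * f s y)).card * D + S.card * D := by ring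
      _ ≤ S.card * D + S.card * D := by gcongr
      _ = 2 * S.card * D := by ring
  have h2 : a * ∑ s ∈ S, ∑ y ∈ Y, f s y ≤ K * D * (2 * S.card * D) := by
    rw [Finset.sum_comm, Finset.mul_sum]
    have h3 : ∑ y ∈ Y, a * ∑ s ∈ S, f s y ≤ Y.card * (2 * S.card * D) := by
      have := Finset.sum_le_card_nsmul Y (fun y => a * ∑ s ∈ S, f s y) _ h1
      simpa using this
    exact h3.trans (Nat.mul_le_mul_right _ hYc)
  have h3 : S.card * (D * D) ≤ 2 * q * ∑ s ∈ S, ∑ y ∈ Y, f s y := by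
    rw [Finset.mul_sum]
    have := Finset.card_nsmul_le_sum S (fun s => 2 * q * ∑ y ∈ Y, f s y) (D * D) hs
    simpa using this
  have h4 : a * (S.card * (D * D)) ≤ 4 * q * K * (S.card * (D * D)) := by
    calc a * (S.card * (D * D)) ≤ a * (2 * q * ∑ s ∈ S, ∑ y ∈ Y, f s y) :=
          Nat.mul_le_mul_left _ h3
      _ = 2 * q * (a * ∑ s ∈ S, ∑ y ∈ Y, f s y) := by ring
      _ ≤ 2 * q * (K * D * (2 * S.card * D)) := Nat.mul_le_mul_left _ h2
      _ = 4 * q * K * (S.card * (D * D)) := by ring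
  have h5 : 0 < S.card * (D * D) := Nat.mul_pos hS (Nat.mul_pos hD hD)
  have h6 : a ≤ 4 * q * K := Nat.le_of_mul_le_mul_right h4 h5
  omega

lemma ex_ext3 (p p' : Fin (3 + 1) → V) (h0 : ex 3 p 0 = ex 3 p' 0) (h1 : ex 3 p 1 = ex 3 p' 1)
    (h2 : ex 3 p 2 = ex 3 p' 2) (h3 : ex 3 p 3 = ex 3 p' 3) : p = p' := by
  funext i
  have h : ∀ j : Fin 4, ex 3 p j = ex 3 p' j := by
    intro j
    fin_cases j
    · exact h0
    · exact h1
    · exact h2
    · exact h3
  have h4 := h i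
  have h5 : min (i : ℕ) 3 = i := by
    have := i.isLt
    omega
  unfold ex at h4
  have h6 : (⟨min (i : ℕ) 3, Nat.lt_succ_of_le (Nat.min_le_right (i : ℕ) 3)⟩ : Fin (3 + 1)) = i :=
    Fin.ext h5
  rw [h6] at h4
  exact h4

lemma ex_rev0 (p : Fin (3 + 1) → V) : ex 3 (fun i => p i.rev) 0 = ex 3 p 3 := rfl

lemma ex_rev1 (p : Fin (3 + 1) → V) : ex 3 (fun i => p i.rev) 1 = ex 3 p 2 := rfl

/-- `s` can be a centre with root `w` -/
def Bd [Fintype V] (𝓡 : Finset (Fin (3 + 1) → V)) (w s : V) : Prop :=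
  ∃ p ∈ 𝓡, ex 3 p 0 = s ∧ ex 3 p 1 = w

/-- members through `s, w, y` -/
noncomputable def Fb [Fintype V] (𝓡 : Finset (Fin (3 + 1) → V)) (w s y : V) :
    Finset (Fin (3 + 1) → V) :=
  𝓡.filter (fun p => ex 3 p 0 = s ∧ ex 3 p 1 = w ∧ ex 3 p 2 = y)

variable [Fintype V]

lemma adj_of {G : SimpleGraph V} {B : ℕ → V → V → Prop} {q D M' : ℕ}
    {𝓡 : Finset (Fin (3 + 1) → V)} (hR : RSt G B 3 q D M' 𝓡) {p : Fin (3 + 1) → V}
    (hp : p ∈ 𝓡) (i : ℕ) (hi : i < 3) : G.Adj (ex 3 p i) (ex 3 p (i + 1)) := by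
  have h1 := hR.sub p hp
  unfold RCs at h1
  exact (Finset.mem_filter.mp h1).2.1.1 i hi

lemma inj_of {G : SimpleGraph V} {B : ℕ → V → V → Prop} {q D M' : ℕ}
    {𝓡 : Finset (Fin (3 + 1) → V)} (hR : RSt G B 3 q D M' 𝓡) {p : Fin (3 + 1) → V}
    (hp : p ∈ 𝓡) (i i' : ℕ) (hi : i ≤ 3) (hi' : i' ≤ 3) (h : ex 3 p i = ex 3 p i') :
    i = i' := by
  have h1 := hR.sub p hp
  unfold RCs at h1
  exact (Finset.mem_filter.mp h1).2.1.2.1 i i' hi hi' h

lemma cls_le {G : SimpleGraph V} {B : ℕ → V → V → Prop} {q D M' : ℕ}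
    {𝓡 : Finset (Fin (3 + 1) → V)} (hR : RSt G B 3 q D M' 𝓡) {p : Fin (3 + 1) → V}
    (hp : p ∈ 𝓡) (i j : ℕ) (hij : i ≤ j) (hj : j ≤ 3) (X : Finset (Fin (3 + 1) → V))
    (hX : ∀ p' ∈ 𝓡, (∀ m, i ≤ m → m ≤ j → ex 3 p' m = ex 3 p m) → p' ∈ X) :
    D ^ (3 - (j - i)) ≤ q * X.card := by
  refine (hR.cls p hp i j hij hj).trans (Nat.mul_le_mul_left _ (Finset.card_le_card ?_))
  intro p' hp'
  obtain ⟨h1, h2⟩ := Finset.mem_filter.mp hp'
  exact hX p' h1 h2

lemma Fb_le_of (𝓡 : Finset (Fin (3 + 1) → V)) (w s y : V) (X : Finset V)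
    (h : ∀ p ∈ 𝓡, ex 3 p 0 = s → ex 3 p 1 = w → ex 3 p 2 = y → ex 3 p 3 ∈ X) :
    (Fb 𝓡 w s y).card ≤ X.card := by
  refine Finset.card_le_card_of_injOn (fun p => ex 3 p 3) ?_ ?_
  · intro p hp
    obtain ⟨h1, h2, h3, h4⟩ := Finset.mem_filter.mp (Finset.mem_coe.mp hp)
    exact Finset.mem_coe.mpr (h p h1 h2 h3 h4)
  · intro p hp p' hp' he
    obtain ⟨_, h2, h3, h4⟩ := Finset.mem_filter.mp (Finset.mem_coe.mp hp)
    obtain ⟨_, h2', h3', h4'⟩ := Finset.mem_filter.mp (Finset.mem_coe.mp hp')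
    exact ex_ext3 p p' (h2.trans h2'.symm) (h3.trans h3'.symm) (h4.trans h4'.symm) he

/-- one step: many centres have the same new root -/
lemma hstep {G : SimpleGraph V} {B : ℕ → V → V → Prop} {q D M' K ζ : ℕ}
    {𝓡 : Finset (Fin (3 + 1) → V)} (hR : RSt G B 3 q D M' 𝓡) (hG : AR G D K) (hK : 0 < K)
    (hq : 0 < q) (w : V) (S Z : Finset V) (hS : ∀ s ∈ S, Bd 𝓡 w s) (hZ : Z.card ≤ ζ)
    (hD : (4 * q * K + 1) * ζ < D) :
    ∃ y, y ∉ Z ∧ ∃ T ⊆ S, S.card ≤ (4 * q * K + 1) * K * T.card ∧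
      ∀ s ∈ T, D ≤ (4 * q * K + 1) * (Fb 𝓡 w s y).card := by
  have hD0 : 0 < D := lt_of_le_of_lt (Nat.zero_le _) hD
  have hqK : 0 < q * K := Nat.mul_pos hq hK
  have hζD : ζ < D := by
    refine lt_of_le_of_lt ?_ hD
    exact Nat.le_mul_of_pos_left ζ (by omega)
  have hfb : ∀ s y, (Fb 𝓡 w s y).card ≤ K * D := by
    intro s y
    refine (Fb_le_of 𝓡 w s y (nb G y) ?_).trans (hG.hi y)
    intro p hp _ _ h2
    rw [mem_nb, ← h2]
    exact adj_of hR hp 2 (by norm_num)
  obtain ⟨Y, hYdef⟩ : ∃ Y : Finset V, Y = (nb G w).filter (fun y => y ∉ Z) := ⟨_, rfl⟩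
  have hYne : Y.Nonempty := by
    by_contra hcon
    rw [Finset.not_nonempty_iff_eq_empty] at hcon
    have h1 : nb G w ⊆ Z := by
      intro y hy
      by_contra hyZ
      have : y ∈ Y := by
        rw [hYdef]
        exact Finset.mem_filter.mpr ⟨hy, hyZ⟩
      rw [hcon] at this
      simp at this
    have h2 := Finset.card_le_card h1
    have h3 := hG.lo w
    omega
  have hYc : Y.card ≤ K * D := by
    rw [hYdef]
    exact (Finset.card_filter_le _ _).trans (hG.hi w)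
  have hsum : ∀ s ∈ S, D * D ≤ 2 * q * ∑ y ∈ Y, (Fb 𝓡 w s y).card := by
    intro s hs
    obtain ⟨p, hp, hp0, hp1⟩ := hS s hs
    obtain ⟨X, hX⟩ : ∃ X : Finset (Fin (3 + 1) → V),
        X = Y.biUnion (fun y => Fb 𝓡 w s y) ∪ Z.biUnion (fun y => Fb 𝓡 w s y) := ⟨_, rfl⟩
    have h1 := cls_le hR hp 0 1 (by norm_num) (by norm_num) X (by
      intro p' h4 h5
      have h6 := (h5 0 le_rfl (by norm_num)).trans hp0
      have h7 := (h5 1 (by norm_num) le_rfl).trans hp1
      have h8 : p' ∈ Fb 𝓡 w s (ex 3 p' 2) := Finset.mem_filter.mpr ⟨h4, h6, h7, rfl⟩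
      rw [hX]
      by_cases h9 : ex 3 p' 2 ∈ Z
      · exact Finset.mem_union_right _ (Finset.mem_biUnion.mpr ⟨_, h9, h8⟩)
      · refine Finset.mem_union_left _ (Finset.mem_biUnion.mpr ⟨_, ?_, h8⟩)
        rw [hYdef]
        refine Finset.mem_filter.mpr ⟨?_, h9⟩
        rw [mem_nb, ← h7]
        exact adj_of hR h4 1 (by norm_num))
    have h2 : X.card ≤ ∑ y ∈ Y, (Fb 𝓡 w s y).card + ζ * (K * D) := by
      rw [hX]
      refine (Finset.card_union_le _ _).trans ?_
      refine Nat.add_le_add Finset.card_biUnion_le ?_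
      refine (Finset.card_biUnion_le_card_mul _ _ _ (fun y _ => hfb s y)).trans ?_
      exact Nat.mul_le_mul_right _ hZ
    have h3 : D ^ (3 - (1 - 0)) = D * D := by
      norm_num
      ring
    rw [h3] at h1
    have h4 : 2 * q * (ζ * (K * D)) ≤ D * D := by
      have h5 : 2 * q * K * ζ ≤ D := by
        refine le_trans ?_ hD.le
        refine Nat.mul_le_mul_right _ ?_
        have : 2 * q * K = 2 * (q * K) := by ring
        have h6 : 4 * q * K = 4 * (q * K) := by ring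
        omega
      calc 2 * q * (ζ * (K * D)) = (2 * q * K * ζ) * D := by ring
        _ ≤ D * D := Nat.mul_le_mul_right _ h5
    have h5 := Nat.mul_le_mul_left q h2
    have h6 : q * (∑ y ∈ Y, (Fb 𝓡 w s y).card + ζ * (K * D)) =
        q * ∑ y ∈ Y, (Fb 𝓡 w s y).card + q * (ζ * (K * D)) := by ring
    have h7 : 2 * q * (ζ * (K * D)) = 2 * (q * (ζ * (K * D))) := by ring
    have h8 : 2 * q * ∑ y ∈ Y, (Fb 𝓡 w s y).card = 2 * (q * ∑ y ∈ Y, (Fb 𝓡 w s y).card) := by
      ring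
    rw [h8]
    rw [h7] at h4
    rw [h6] at h5
    have h9 := h1.trans h5
    generalize q * ∑ y ∈ Y, (Fb 𝓡 w s y).card = A at *
    generalize q * (ζ * (K * D)) = A' at *
    generalize D * D = A'' at *
    omega
  obtain ⟨y, hy, hy2⟩ := avg S Y (fun s y => (Fb 𝓡 w s y).card) K q D hD0 hYne hYc hfb hsum
  rw [hYdef] at hy
  refine ⟨y, (Finset.mem_filter.mp hy).2, _, Finset.filter_subset _ _, hy2, ?_⟩
  intro s hs
  exact (Finset.mem_filter.mp hs).2

/-- step and selection of paths -/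
lemma hs_sel {G : SimpleGraph V} {B : ℕ → V → V → Prop} {q D M' K ζ m : ℕ}
    {𝓡 : Finset (Fin (3 + 1) → V)} (hR : RSt G B 3 q D M' 𝓡) (hG : AR G D K) (hK : 0 < K)
    (hq : 0 < q) (hE : ∀ p ∈ 𝓡, ∀ Z : Finset V, Z.card ≤ ζ →
      ∃ P : ℕ → V, P 0 = ex 3 p 0 ∧ P m = ex 3 p 3 ∧
      (∀ i, i < m → G.Adj (P i) (P (i + 1))) ∧ (∀ i, 1 ≤ i → i < m → P i ∉ Z) ∧
      ∀ i i', i ≤ m → i' ≤ m → P i = P i' → i = i')
    (w : V) (S U : Finset V) (hS : ∀ s ∈ S, Bd 𝓡 w s) (hSU : S ⊆ U)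
    (hU : U.card + 1 + S.card * m ≤ ζ) (hD : (4 * q * K + 1) * ζ < D) :
    ∃ y, y ∉ U ∧ ∃ T ⊆ S, S.card ≤ (4 * q * K + 1) * K * T.card ∧ ∃ P : V → ℕ → V,
      (∀ s ∈ T, P s 0 = s ∧ (∀ i, i < m → G.Adj (P s i) (P s (i + 1))) ∧ Bd 𝓡 y (P s m) ∧
        ∀ j, 1 ≤ j → j ≤ m → P s j ∉ U ∧ P s j ≠ y) ∧
      ∀ s ∈ T, ∀ s' ∈ T, ∀ j j', j ≤ m → j' ≤ m → P s j = P s' j' → s = s' ∧ j = j' := by
  have hUc : U.card ≤ ζ := by omega
  obtain ⟨y, hyU, T, hTS, hTc, hT⟩ := hstep hR hG hK hq w S U hS hUc hD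
  refine ⟨y, hyU, T, hTS, hTc, ?_⟩
  have hTc2 : T.card ≤ S.card := Finset.card_le_card hTS
  have hins : (insert y U).card ≤ U.card + 1 := Finset.card_insert_le _ _
  have hUU : (insert y U).card + T.card * m ≤ ζ := by
    have := Nat.mul_le_mul_right m hTc2
    omega
  obtain ⟨P, hP1, hP2⟩ := sel m ζ (insert y U)
    (fun _ P => (∀ i, i < m → G.Adj (P i) (P (i + 1))) ∧ Bd 𝓡 y (P m)) T
    (fun x hx => Finset.mem_insert_of_mem (hSU (hTS hx))) hUU (by
      intro s hs Z hZ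
      obtain ⟨p, hp, hp0, hp1, hp2, hp3⟩ : ∃ p ∈ 𝓡, ex 3 p 0 = s ∧ ex 3 p 1 = w ∧
          ex 3 p 2 = y ∧ ex 3 p 3 ∉ Z := by
        by_contra hcon
        push Not at hcon
        have h1 := Fb_le_of 𝓡 w s y Z hcon
        have h2 := hT s hs
        have h3 : (4 * q * K + 1) * (Fb 𝓡 w s y).card ≤ (4 * q * K + 1) * ζ :=
          Nat.mul_le_mul_left _ (h1.trans hZ)
        omega
      obtain ⟨P, h0, h1, h2, h3, h4⟩ := hE p hp Z hZ
      refine ⟨P, h0.trans hp0, ⟨h2, ?_⟩, ?_, h4⟩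
      · refine ⟨_, hR.rev p hp, ?_, ?_⟩
        · rw [ex_rev0, h1]
        · rw [ex_rev1, hp2]
      · intro j hj1 hj2
        rcases Nat.lt_or_ge j m with h5 | h5
        · exact h3 j hj1 h5
        · have h6 : j = m := le_antisymm hj2 h5
          rw [h6, h1]
          exact hp3)
  refine ⟨P, ?_, hP2⟩
  intro s hs
  obtain ⟨h0, ⟨h1, h2⟩, h3⟩ := hP1 s hs
  refine ⟨h0, h1, h2, ?_⟩
  intro j hj1 hj2
  have h4 := h3 j hj1 hj2
  exact ⟨fun h5 => h4 (Finset.mem_insert_of_mem h5), fun h5 => h4 (h5 ▸ Finset.mem_insert_self _ _)⟩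

omit [Fintype V] in
/-- enumeration of a part of a finite set -/
lemma enum (T : Finset V) (n : ℕ) (h : n ≤ T.card) :
    ∃ e : Fin n → V, (∀ l, e l ∈ T) ∧ ∀ l l', e l = e l' → l = l' := by
  refine ⟨fun l => (T.equivFin.symm (Fin.castLE h l) : V), fun l => ?_, fun l l' he => ?_⟩
  · exact (T.equivFin.symm (Fin.castLE h l)).2
  · have h1 := T.equivFin.symm.injective (Subtype.ext he)
    exact Fin.castLE_injective h h1

end KMv35

open KMv35

theorem mv35_holds : S_RST → S_EXT → ∀ k, 5 ≤ k → k % 2 = 1 → S_MV k 3 := by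
  intro hRST hEXT k hk hk2 K Q hK hQ
  obtain ⟨q, hq, hqM⟩ := hRST 3 K Q (by norm_num) hK hQ
  obtain ⟨t, ht⟩ : ∃ t, k = 5 + 2 * t := ⟨(k - 5) / 2, by omega⟩
  obtain ⟨c, hc⟩ : ∃ c, c = (4 * q * K + 1) * K := ⟨_, rfl⟩
  have hcpos : 0 < c := by
    rw [hc]
    exact Nat.mul_pos (by omega) hK
  refine ⟨c * c, Nat.mul_pos hcpos hcpos, ?_⟩
  intro F0 ζ
  obtain ⟨ζ', hζ'⟩ : ∃ ζ', ζ' = 6 * ζ + 2 + ζ * k := ⟨_, rfl⟩
  obtain ⟨M1, D1, h1⟩ := hEXT 3 q F0 ζ' 0 (by norm_num) hq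
  obtain ⟨M2, D2, h2⟩ := hEXT 3 q F0 ζ' t (by norm_num) hq
  obtain ⟨M3, D3, h3⟩ := hEXT 3 q F0 ζ' (t + 1) (by norm_num) hq
  obtain ⟨M, hM⟩ := hqM (M1 + M2 + M3)
  refine ⟨M, D1 + D2 + D3 + (4 * q * K + 1) * ζ' + q * ζ + 1, ?_⟩
  intro V _ _ G D B hG hD hB hRich hBN hcount
  have hD0 : 0 < D := by omega
  obtain ⟨𝓡, hR⟩ := hM V G D B hG hD0 hB hRich hcount
  have hmono : ∀ M', M' ≤ M1 + M2 + M3 → RSt G B 3 q D M' 𝓡 := fun M' hM' =>
    ⟨hR.ne, hR.sub, hR.rev, hR.cls, fun p hp => hM'.trans (hR.pr p hp)⟩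
  have hE1 := h1 V G D B 𝓡 hB hBN (by omega) (hmono M1 (by omega))
  have hE2 := h2 V G D B 𝓡 hB hBN (by omega) (hmono M2 (by omega))
  have hE3 := h3 V G D B 𝓡 hB hBN (by omega) (hmono M3 (by omega))
  have hDζ : (4 * q * K + 1) * ζ' < D := by omega
  refine ⟨Unit, fun _ w s => Bd 𝓡 w s, fun _ _ => True, ⟨?_, ?_, ?_⟩, ?_⟩
  · rintro _ w s ⟨p, hp, h0, h1'⟩
    rw [← h0, ← h1']
    exact (adj_of hR hp 0 (by norm_num)).symm
  · -- leg
    intro _ _ _ w S Z n' hS hw hn' hSc hZc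
    obtain ⟨m, hm⟩ : ∃ m, m = 3 + 2 * (t + 1) := ⟨_, rfl⟩
    rw [← hm] at hE3
    have hmk : m = k := by omega
    subst hmk
    have hUc := Finset.card_union_le Z S
    obtain ⟨y, hyU, T, hTS, hTc, P, hP1, hP2⟩ := hs_sel hR hG hK hq hE3 w S (Z ∪ S)
      hS Finset.subset_union_right (by
        have := Nat.mul_le_mul_right m hSc
        omega) hDζ
    have hnT : n' ≤ T.card := by
      rw [← hc] at hTc
      have h4 : c * (c * n') ≤ c * T.card := by
        calc c * (c * n') = c * c * n' := by ring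
          _ ≤ S.card := hn'
          _ ≤ c * T.card := hTc
      have h5 : c * n' ≤ T.card := Nat.le_of_mul_le_mul_left h4 hcpos
      exact (Nat.le_mul_of_pos_left n' hcpos).trans h5
    obtain ⟨e, he1, he2⟩ := enum T n' hnT
    refine ⟨y, fun h => hyU (Finset.mem_union_left _ h), fun h => hyU (Finset.mem_union_right _ h),
      fun l j => if j ≤ m then P (e l) j else y, ?_, ?_⟩
    · intro l
      obtain ⟨g0, g1, g2, g3⟩ := hP1 (e l) (he1 l)
      refine ⟨?_, ?_, ?_, ?_⟩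
      · simp only [Nat.zero_le, if_true]
        rw [g0]
        exact hTS (he1 l)
      · simp
      · intro i hi
        simp only [hi, if_true]
        by_cases hi2 : i + 1 ≤ m
        · simp only [hi2, if_true]
          exact g1 i (by omega)
        · simp only [hi2, if_false]
          have hi3 : i = m := by omega
          rw [hi3]
          obtain ⟨p, hp, hp0, hp1⟩ := g2
          rw [← hp0, ← hp1]
          exact adj_of hR hp 0 (by norm_num)
      · intro i hi1 hi2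
        simp only [hi2, if_true]
        obtain ⟨g4, g5⟩ := g3 i hi1 hi2
        exact ⟨fun h => g4 (Finset.mem_union_left _ h), fun h => g4 (Finset.mem_union_right _ h),
          g5⟩
    · intro l l' i i' hi hi' h
      simp only [hi, hi', if_true] at h
      obtain ⟨h4, h5⟩ := hP2 _ (he1 l) _ (he1 l') i i' hi hi' h
      exact ⟨he2 l l' h4, h5⟩
  · -- core
    intro _ _ _ w S Z n' hS hw hn' hSc hZc
    have hUc := Finset.card_union_le Z S
    obtain ⟨y, hyU, T, hTS, hTc, P, hP1, hP2⟩ := hs_sel hR hG hK hq hE1 w S (Z ∪ S)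
      hS Finset.subset_union_right (by
        have := Nat.mul_le_mul_left S.card (show 3 + 2 * 0 ≤ k by omega)
        have h5 := Nat.mul_le_mul_right k hSc
        omega) hDζ
    simp only [Nat.mul_zero, Nat.add_zero] at hP1 hP2
    obtain ⟨W, hW⟩ : ∃ W : Finset V, W = T.biUnion (fun s => (Finset.range 4).image (P s)) :=
      ⟨_, rfl⟩
    have hTSc := Finset.card_le_card hTS
    have hWc : W.card ≤ ζ * 4 := by
      rw [hW]
      refine (Finset.card_biUnion_le_card_mul _ _ 4 (fun s _ => ?_)).trans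
        (Nat.mul_le_mul_right _ (hTSc.trans hSc))
      refine Finset.card_image_le.trans ?_
      simp
    have hWm : ∀ s ∈ T, ∀ j, j ≤ 3 → P s j ∈ W := by
      intro s hs j hj
      rw [hW]
      exact Finset.mem_biUnion.mpr ⟨s, hs, Finset.mem_image.mpr ⟨j, Finset.mem_range.mpr (by omega),
        rfl⟩⟩
    obtain ⟨S2, hS2⟩ : ∃ S2 : Finset V, S2 = T.image (fun s => P s 3) := ⟨_, rfl⟩
    have hS2c : S2.card = T.card := by
      rw [hS2]
      refine Finset.card_image_of_injOn ?_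
      intro s hs s' hs' h
      exact (hP2 s (Finset.mem_coe.mp hs) s' (Finset.mem_coe.mp hs') 3 3 le_rfl le_rfl h).1
    obtain ⟨U2, hU2⟩ : ∃ U2 : Finset V, U2 = (Z ∪ S) ∪ W := ⟨_, rfl⟩
    have hU2c : U2.card ≤ 6 * ζ := by
      rw [hU2]
      have := Finset.card_union_le (Z ∪ S) W
      omega
    have hZU2 : ∀ x, x ∉ U2 → x ∉ Z ∧ x ∉ S ∧ x ∉ W := by
      intro x hx
      rw [hU2] at hx
      simp only [Finset.mem_union, not_or] at hx
      exact ⟨hx.1.1, hx.1.2, hx.2⟩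
    have hBd2 : ∀ z ∈ S2, Bd 𝓡 y z := by
      intro z hz
      rw [hS2] at hz
      obtain ⟨s, hs, rfl⟩ := Finset.mem_image.mp hz
      exact (hP1 s hs).2.2.1
    have hS2U2 : S2 ⊆ U2 := by
      intro z hz
      rw [hS2] at hz
      obtain ⟨s, hs, rfl⟩ := Finset.mem_image.mp hz
      rw [hU2]
      exact Finset.mem_union_right _ (hWm s hs 3 le_rfl)
    obtain ⟨w', hw'U, T2, hT2S, hT2c, P2, hP21, hP22⟩ := hs_sel hR hG hK hq hE2 y S2 U2
      hBd2 hS2U2 (by
        have h4 := Nat.mul_le_mul_left S2.card (show 3 + 2 * t ≤ k by omega)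
        have h5 := Nat.mul_le_mul_right k ((hS2c.le.trans hTSc).trans hSc)
        omega) hDζ
    have hnT : n' ≤ T2.card := by
      rw [← hc] at hTc hT2c
      rw [hS2c] at hT2c
      have h4 : c * c * n' ≤ c * c * T2.card := by
        calc c * c * n' ≤ S.card := hn'
          _ ≤ c * T.card := hTc
          _ ≤ c * (c * T2.card) := Nat.mul_le_mul_left _ hT2c
          _ = c * c * T2.card := by ring
      exact Nat.le_of_mul_le_mul_left h4 (Nat.mul_pos hcpos hcpos)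
    obtain ⟨e, he1, he2⟩ := enum T2 n' hnT
    have hback : ∀ l : Fin n', ∃ s ∈ T, P s 3 = e l := by
      intro l
      have h4 := hT2S (he1 l)
      rw [hS2] at h4
      exact Finset.mem_image.mp h4
    choose σ hσ1 hσ2 using hback
    obtain ⟨hw'Z, hw'S, hw'W⟩ := hZU2 w' hw'U
    refine ⟨(), trivial, w', hw'Z, hw'S,
      fun l j => if j ≤ 3 then P (σ l) j else P2 (e l) (j - 3), ?_, ?_⟩
    · intro l
      obtain ⟨g0, g1, g2, g3⟩ := hP1 (σ l) (hσ1 l)
      obtain ⟨f0, f1, f2, f3⟩ := hP21 (e l) (he1 l)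
      refine ⟨?_, ?_, ?_, ?_⟩
      · simp only [Nat.zero_le, if_true]
        rw [g0]
        exact hTS (hσ1 l)
      · have h4 : ¬ k + 1 ≤ 3 := by omega
        simp only [h4, if_false]
        have h5 : k + 1 - 3 = 3 + 2 * t := by omega
        rw [h5]
        exact f2
      · intro i hi
        by_cases hi3 : i + 1 ≤ 3
        · have hi4 : i ≤ 3 := by omega
          simp only [hi3, hi4, if_true]
          exact g1 i (by omega)
        · by_cases hi4 : i ≤ 3
          · have hi5 : i = 3 := by omega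
            subst hi5
            simp only [le_refl, if_true]
            have h4 : ¬ 3 + 1 ≤ 3 := by omega
            simp only [h4, if_false]
            rw [hσ2 l, ← f0]
            have h5 : 3 + 1 - 3 = 0 + 1 := by norm_num
            rw [f0, h5]
            have h6 := f1 0 (by omega)
            rw [f0] at h6
            exact h6
          · simp only [hi3, hi4, if_false]
            have h5 : i + 1 - 3 = (i - 3) + 1 := by omega
            rw [h5]
            exact f1 (i - 3) (by omega)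
      · intro i hi1 hi2
        by_cases hi3 : i ≤ 3
        · simp only [hi3, if_true]
          obtain ⟨g4, g5⟩ := g3 i hi1 hi3
          refine ⟨fun h => g4 (Finset.mem_union_left _ h),
            fun h => g4 (Finset.mem_union_right _ h), fun h => hw'W ?_⟩
          rw [← h]
          exact hWm _ (hσ1 l) i hi3
        · simp only [hi3, if_false]
          obtain ⟨f4, f5⟩ := f3 (i - 3) (by omega) (by omega)
          obtain ⟨f6, f7, _⟩ := hZU2 _ f4
          exact ⟨f6, f7, f5⟩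
    · intro l l' i i' hi hi' h
      have hmix : ∀ (l l' : Fin n') (i i' : ℕ), i ≤ 3 → ¬ i' ≤ 3 → i' ≤ k + 1 →
          P (σ l) i ≠ P2 (e l') (i' - 3) := by
        intro l l' i i' h4 h5 h6 h7
        have h8 := (hP21 (e l') (he1 l')).2.2.2 (i' - 3) (by omega) (by omega)
        refine (hZU2 _ h8.1).2.2 ?_
        rw [← h7]
        exact hWm _ (hσ1 l) i h4
      by_cases hi3 : i ≤ 3
      · by_cases hi3' : i' ≤ 3
        · simp only [hi3, hi3', if_true] at h
          obtain ⟨h4, h5⟩ := hP2 _ (hσ1 l) _ (hσ1 l') i i' hi3 hi3' h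
          refine ⟨he2 l l' ?_, h5⟩
          rw [← hσ2 l, ← hσ2 l', h4]
        · simp only [hi3, hi3', if_true, if_false] at h
          exact absurd h (hmix l l' i i' hi3 hi3' hi')
      · by_cases hi3' : i' ≤ 3
        · simp only [hi3, hi3', if_true, if_false] at h
          exact absurd h.symm (hmix l' l i' i hi3' hi3 hi)
        · simp only [hi3, hi3', if_false] at h
          obtain ⟨h4, h5⟩ := hP22 _ (he1 l) _ (he1 l') (i - 3) (i' - 3) (by omega) (by omega) h
          exact ⟨he2 l l' h4, by omega⟩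
  · -- initial sets
    intro _ _ n0 hn0
    obtain ⟨p, hp⟩ := hR.ne
    obtain ⟨A, hA⟩ : ∃ A : Finset (Fin (3 + 1) → V), A = 𝓡.filter (fun p' =>
      ex 3 p' 1 = ex 3 p 1 ∧ ex 3 p' 2 = ex 3 p 2 ∧ ex 3 p' 3 = ex 3 p 3) := ⟨_, rfl⟩
    have h4 := cls_le hR hp 1 3 (by norm_num) (by norm_num) A (by
      intro p' h5 h6
      rw [hA]
      exact Finset.mem_filter.mpr ⟨h5, h6 1 (by norm_num) (by norm_num),
        h6 2 (by norm_num) (by norm_num), h6 3 (by norm_num) (by norm_num)⟩)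
    obtain ⟨X, hX⟩ : ∃ X : Finset V, X = A.image (fun p' => ex 3 p' 0) := ⟨_, rfl⟩
    have hXc : X.card = A.card := by
      rw [hX]
      refine Finset.card_image_of_injOn ?_
      intro a ha b hb hab
      rw [hA] at ha hb
      obtain ⟨_, a1, a2, a3⟩ := Finset.mem_filter.mp (Finset.mem_coe.mp ha)
      obtain ⟨_, b1, b2, b3⟩ := Finset.mem_filter.mp (Finset.mem_coe.mp hb)
      exact ex_ext3 a b hab (a1.trans b1.symm) (a2.trans b2.symm) (a3.trans b3.symm)
    have hpow : D ^ (3 - (3 - 1)) = D := by norm_num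
    rw [← hXc, hpow] at h4
    have hn0X : n0 ≤ X.card := by
      have h5 : q * n0 ≤ q * ζ := Nat.mul_le_mul_left _ hn0
      have h6 : q * n0 ≤ q * X.card := by omega
      exact Nat.le_of_mul_le_mul_left h6 hq
    obtain ⟨S, hSX, hSc⟩ := Finset.exists_subset_card_eq hn0X
    have hSm : ∀ s ∈ S, ∃ p' ∈ 𝓡, ex 3 p' 0 = s ∧ ex 3 p' 1 = ex 3 p 1 := by
      intro s hs
      have h5 := hSX hs
      rw [hX] at h5
      obtain ⟨p', hp', rfl⟩ := Finset.mem_image.mp h5
      rw [hA] at hp'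
      obtain ⟨h6, h7, _⟩ := Finset.mem_filter.mp hp'
      exact ⟨p', h6, rfl, h7⟩
    refine ⟨(), ex 3 p 1, S, trivial, hSc, ?_, hSm⟩
    intro hw
    obtain ⟨p', hp', h5, h6⟩ := hSm _ hw
    have h7 := inj_of hR hp' 0 1 (by norm_num) (by norm_num) (h5.trans h6.symm)
    omega

end Pool.Agent.TH476.KK
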