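import Pool.Agent.TH476.KHub

set_option autoImplicit false

open Classical

namespace Pool.Agent.TH476.KK.MvE

open Pool.Agent.TH476 Pool.Agent.TH476.KK

/-- choosing paths one after the other -/
lemma seq {V : Type} (m N : ℕ) : ∀ (n : ℕ) (good : Fin n → (ℕ → V) → Prop),
    (∀ a, ∀ U : Finset V, U.card ≤ N → ∃ Q : ℕ → V, good a Q ∧ ∀ i, 1 ≤ i → i ≤ m → Q i ∉ U) →
    n * (m + 1) ≤ N → ∃ P : Fin n → ℕ → V, (∀ a, good a (P a)) ∧
      ∀ a b, a < b → ∀ i i', 1 ≤ i → i ≤ m → i' ≤ m → P b i ≠ P a i' := by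
  intro n
  induction n with
  | zero =>
    intro good _ _
    exact ⟨fun a => a.elim0, fun a => a.elim0, fun a => a.elim0⟩
  | succ n ih =>
    intro good h hN
    have hN' : n * (m + 1) ≤ N := by
      have : n * (m + 1) ≤ (n + 1) * (m + 1) := Nat.mul_le_mul_right _ (Nat.le_succ n)
      omega
    obtain ⟨P0, h1, h2⟩ := ih (fun a => good a.castSucc) (fun a U hU => h a.castSucc U hU) hN'
    obtain ⟨Q, h3, h4⟩ := h (Fin.last n) (Finset.univ.biUnion fun a : Fin n =>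
      (Finset.range (m + 1)).image (P0 a)) (by
        refine (Finset.card_biUnion_le).trans ?_
        refine (Finset.sum_le_sum fun a _ => Finset.card_image_le).trans ?_
        rw [Finset.sum_const, Finset.card_univ, Fintype.card_fin, Finset.card_range, smul_eq_mul]
        exact hN')
    refine ⟨Fin.snoc (α := fun _ => ℕ → V) P0 Q, ?_, ?_⟩
    · intro a
      refine Fin.lastCases ?_ (fun a => ?_) a
      · rw [Fin.snoc_last]
        exact h3
      · rw [Fin.snoc_castSucc]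
        exact h1 a
    · intro a b hab i i' hi him hi'
      induction a using Fin.lastCases with
      | last => exact absurd (Fin.le_last b) (not_le.mpr hab)
      | cast a =>
        induction b using Fin.lastCases with
        | last =>
          rw [Fin.snoc_last, Fin.snoc_castSucc]
          intro heq
          refine h4 i hi him ?_
          rw [heq]
          exact Finset.mem_biUnion.mpr ⟨a, Finset.mem_univ _, Finset.mem_image.mpr
            ⟨i', Finset.mem_range.mpr (by omega), rfl⟩⟩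
        | cast b =>
          rw [Fin.snoc_castSucc, Fin.snoc_castSucc]
          exact h2 a b (by simpa using hab) i i' hi him hi'

lemma ex_le {V : Type} {l : ℕ} (p : Fin (l + 1) → V) (i : ℕ) (h : i ≤ l) :
    ex l p i = p ⟨i, Nat.lt_succ_of_le h⟩ := by
  unfold ex
  congr 1
  exact Fin.ext (Nat.min_eq_left h)

variable {V : Type} [Fintype V] {G : SimpleGraph V} {B : ℕ → V → V → Prop} {l D K : ℕ}

lemma hom_of {p : Fin (l + 1) → V} (h : p ∈ RCs G B l) :
    Hom (SimpleGraph.pathGraph (l + 1)) G p := by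
  have h1 := (Finset.mem_filter.mp h).2.1.1
  have h2 : ∀ u v : Fin (l + 1), u.val + 1 = v.val → G.Adj (p u) (p v) := by
    intro u v huv
    have h3 := h1 u.val (by omega)
    rw [ex_le _ _ (by omega), ex_le _ _ (by omega)] at h3
    have h4 : (⟨u.val + 1, Nat.lt_succ_of_le (by omega)⟩ : Fin (l + 1)) = v := Fin.ext huv
    rw [h4] at h3
    exact h3
  intro u v huv
  rcases SimpleGraph.pathGraph_adj.mp huv with h | h
  · exact h2 u v h
  · exact (h2 v u h).symm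

lemma cnt {j : ℕ} (hG : AR G D K) (S : Finset (Fin (j + 1))) (hS : S.Nonempty)
    (ψ : Fin (j + 1) → V) (𝓢 : Finset (Fin (j + 1) → V))
    (h1 : ∀ φ ∈ 𝓢, Hom (SimpleGraph.pathGraph (j + 1)) G φ)
    (h2 : ∀ φ ∈ 𝓢, ∀ u ∈ S, φ u = ψ u) : 𝓢.card ≤ (K * D) ^ (j + 1 - S.card) := by
  have h := hom_le (SimpleGraph.pathGraph (j + 1)) (SimpleGraph.pathGraph_connected j) G D K hG S hS
    ψ 𝓢 h1 h2
  have h' := @Finset.card_compl (Fin (j + 1)) (fun a b => Classical.propDecidable (a = b)) _ S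
  rw [h', Fintype.card_fin] at h
  exact h

/-- few members with prescribed first two vertices have the vertex c in X -/
lemma bad (hG : AR G D K) (𝓡 : Finset (Fin (l + 1) → V)) (h𝓡 : ∀ p ∈ 𝓡, p ∈ RCs G B l) (c : ℕ)
    (hc : 2 ≤ c) (hcl : c ≤ l) (s w : V) (X : Finset V) :
    (𝓡.filter (fun p => (ex l p 0 = s ∧ ex l p 1 = w) ∧ ex l p c ∈ X)).card ≤
      (K * D) ^ (l - 2) * X.card := by
  refine Finset.card_le_mul_card_image_of_maps_to (f := fun p => ex l p c)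
    (fun p hp => (Finset.mem_filter.mp hp).2.2) _ ?_
  intro x _
  have hl0 : 0 < l + 1 := by omega
  have hl1 : 1 < l + 1 := by omega
  have hlc : c < l + 1 := by omega
  obtain ⟨S3, hS3⟩ : ∃ S3 : Finset (Fin (l + 1)), S3 = {⟨0, hl0⟩, ⟨1, hl1⟩, ⟨c, hlc⟩} := ⟨_, rfl⟩
  have h3 : S3.card = 3 := by
    rw [Finset.card_eq_three]
    refine ⟨_, _, _, ?_, ?_, ?_, hS3⟩ <;>
      exact fun h => absurd (congrArg Fin.val h) (by simp; try omega)
  have h := cnt (j := l) hG S3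
    ⟨⟨0, hl0⟩, by rw [hS3]; simp⟩ (fun i => if i.val = 0 then s else if i.val = 1 then w else x)
    ((𝓡.filter (fun p => (ex l p 0 = s ∧ ex l p 1 = w) ∧ ex l p c ∈ X)).filter
      (fun p => ex l p c = x)) (fun p hp => hom_of (h𝓡 p (Finset.mem_filter.mp
        (Finset.mem_filter.mp hp).1).1)) (by
      intro p hp u hu
      obtain ⟨hp1, hp2⟩ := Finset.mem_filter.mp hp
      obtain ⟨hp3, ⟨hp4, hp5⟩, hp6⟩ := Finset.mem_filter.mp hp1
      rw [ex_le _ _ (by omega)] at hp4 hp5 hp2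
      rw [hS3] at hu
      simp only [Finset.mem_insert, Finset.mem_singleton] at hu
      rcases hu with rfl | rfl | rfl
      · simpa using hp4
      · simpa using hp5
      · have : ¬ c = 0 := by omega
        have h' : ¬ c = 1 := by omega
        simpa [this, h'] using hp2)
  rw [h3] at h
  exact h

omit [Fintype V] in
lemma dist {n m : ℕ} {P : Fin n → ℕ → V} {X : Finset V} (h0 : ∀ a, P a 0 ∈ X)
    (hX : ∀ a i, 1 ≤ i → i ≤ m → P a i ∉ X) (hs : ∀ a b, P a 0 = P b 0 → a = b)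
    (hinj : ∀ a i i', i ≤ m → i' ≤ m → P a i = P a i' → i = i')
    (hlt : ∀ a b, a < b → ∀ i i', 1 ≤ i → i ≤ m → i' ≤ m → P b i ≠ P a i') :
    ∀ a b i i', i ≤ m → i' ≤ m → P a i = P b i' → a = b ∧ i = i' := by
  have key : ∀ a b, a < b → ∀ i i', i ≤ m → i' ≤ m → P a i ≠ P b i' := by
    intro a b hab i i' hi hi' heq
    by_cases h : 1 ≤ i'
    · exact hlt a b hab i' i h hi' hi heq.symm
    · have h' : i' = 0 := by omega
      subst h'
      by_cases h1 : 1 ≤ i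
      · exact hX a i h1 hi (heq ▸ h0 b)
      · have h2 : i = 0 := by omega
        subst h2
        exact absurd (hs a b heq) (ne_of_lt hab)
  intro a b i i' hi hi' heq
  rcases lt_trichotomy a b with h | h | h
  · exact absurd heq (key a b h i i' hi hi')
  · subst h
    exact ⟨rfl, hinj a i i' hi hi' heq⟩
  · exact absurd heq.symm (key b a h i' i hi' hi)

variable {q M' : ℕ} {𝓡 : Finset (Fin (l + 1) → V)}

lemma low (h : RSt G B l q D M' 𝓡) (hl : 1 ≤ l) {s w : V}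
    (hs : ∃ p ∈ 𝓡, ex l p 0 = s ∧ ex l p 1 = w) :
    D ^ (l - 1) ≤ q * (𝓡.filter (fun p => ex l p 0 = s ∧ ex l p 1 = w)).card := by
  obtain ⟨p, hp, rfl, rfl⟩ := hs
  refine (h.cls p hp 0 1 (Nat.zero_le _) hl).trans (Nat.mul_le_mul_left _
    (Finset.card_le_card ?_))
  intro p' hp'
  obtain ⟨h1, h2⟩ := Finset.mem_filter.mp hp'
  exact Finset.mem_filter.mpr ⟨h1, h2 0 le_rfl (Nat.zero_le _), h2 1 (Nat.zero_le _) le_rfl⟩

lemma low' (hG : AR G D K) (h : RSt G B l q D M' 𝓡) (hl : 2 ≤ l) {s w : V}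
    (hs : ∃ p ∈ 𝓡, ex l p 0 = s ∧ ex l p 1 = w) (c : ℕ) (hc : 2 ≤ c) (hcl : c ≤ l)
    (X : Finset V) (x : ℕ) (hx : X.card ≤ x) (hD : 2 * q * x * K ^ (l - 2) ≤ D) :
    D ^ (l - 1) ≤ 2 * q *
      (𝓡.filter (fun p => (ex l p 0 = s ∧ ex l p 1 = w) ∧ ex l p c ∉ X)).card := by
  have h1 := low h (by omega) hs
  have h2 := bad hG 𝓡 h.sub c hc hcl s w X
  have h3 : (𝓡.filter (fun p => ex l p 0 = s ∧ ex l p 1 = w)).card ≤
      (𝓡.filter (fun p => (ex l p 0 = s ∧ ex l p 1 = w) ∧ ex l p c ∈ X)).card +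
      (𝓡.filter (fun p => (ex l p 0 = s ∧ ex l p 1 = w) ∧ ex l p c ∉ X)).card := by
    refine (Finset.card_le_card ?_).trans (Finset.card_union_le _ _)
    intro p hp
    obtain ⟨h4, h5⟩ := Finset.mem_filter.mp hp
    by_cases h6 : ex l p c ∈ X
    · exact Finset.mem_union_left _ (Finset.mem_filter.mpr ⟨h4, h5, h6⟩)
    · exact Finset.mem_union_right _ (Finset.mem_filter.mpr ⟨h4, h5, h6⟩)
  generalize (𝓡.filter (fun p => (ex l p 0 = s ∧ ex l p 1 = w) ∧ ex l p c ∈ X)).card = b at *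
  generalize (𝓡.filter (fun p => (ex l p 0 = s ∧ ex l p 1 = w) ∧ ex l p c ∉ X)).card = g at *
  generalize (𝓡.filter (fun p => ex l p 0 = s ∧ ex l p 1 = w)).card = A at *
  have h7 : 2 * q * b ≤ D ^ (l - 1) := by
    calc 2 * q * b ≤ 2 * q * ((K * D) ^ (l - 2) * X.card) := by gcongr
      _ ≤ 2 * q * ((K * D) ^ (l - 2) * x) := by gcongr
      _ = 2 * q * x * K ^ (l - 2) * D ^ (l - 2) := by rw [mul_pow]; ring
      _ ≤ D * D ^ (l - 2) := by gcongr
      _ = D ^ (l - 1) := by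
        rw [← pow_succ']
        congr 1
        omega
  have h8 : 2 * D ^ (l - 1) ≤ 2 * q * b + 2 * q * g := by
    calc 2 * D ^ (l - 1) ≤ 2 * (q * A) := by gcongr
      _ ≤ 2 * (q * (b + g)) := by gcongr
      _ = 2 * q * b + 2 * q * g := by ring
  omega

lemma tot (hG : AR G D K) (h : RSt G B l q D M' 𝓡) (hl : 2 ≤ l) (S : Finset V) (w : V)
    (hS : ∀ s ∈ S, ∃ p ∈ 𝓡, ex l p 0 = s ∧ ex l p 1 = w) (c : ℕ) (hc : 2 ≤ c) (hcl : c ≤ l)
    (X : Finset V) (x : ℕ) (hx : X.card ≤ x) (hD : 2 * q * x * K ^ (l - 2) ≤ D) :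
    S.card * D ^ (l - 1) ≤ 2 * q *
      (𝓡.filter (fun p => (ex l p 0 ∈ S ∧ ex l p 1 = w) ∧ ex l p c ∉ X)).card := by
  obtain ⟨𝓐, h𝓐⟩ : ∃ 𝓐, 𝓐 = 𝓡.filter
    (fun p => (ex l p 0 ∈ S ∧ ex l p 1 = w) ∧ ex l p c ∉ X) := ⟨_, rfl⟩
  rw [← h𝓐]
  have h1 : ∑ s ∈ S, D ^ (l - 1) ≤
      ∑ s ∈ S, 2 * q * (𝓐.filter (fun p => ex l p 0 = s)).card := by
    refine Finset.sum_le_sum fun s hs => ?_
    refine (low' hG h hl (hS s hs) c hc hcl X x hx hD).trans
      (Nat.mul_le_mul_left _ (Finset.card_le_card ?_))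
    intro p hp
    obtain ⟨h2, ⟨h3, h4⟩, h5⟩ := Finset.mem_filter.mp hp
    refine Finset.mem_filter.mpr ⟨?_, h3⟩
    rw [h𝓐]
    exact Finset.mem_filter.mpr ⟨h2, ⟨h3 ▸ hs, h4⟩, h5⟩
  have h2 : 𝓐.card = ∑ s ∈ S, (𝓐.filter (fun p => ex l p 0 = s)).card := by
    refine Finset.card_eq_sum_card_fiberwise fun p hp => ?_
    rw [h𝓐] at hp
    exact (Finset.mem_filter.mp hp).2.1.1
  rw [Finset.sum_const, smul_eq_mul, ← Finset.mul_sum] at h1
  rw [h2]
  exact h1

lemma seg_cnt {m : ℕ} (hG : AR G D K) (𝓐 : Finset (Fin (l + 1) → V))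
    (hA : ∀ p ∈ 𝓐, p ∈ RCs G B l) (e : Fin (m + 1) → Fin (l + 1))
    (he : ∀ u v : Fin (m + 1), u.val + 1 = v.val → (e u).val + 1 = (e v).val) (w : V)
    (hw : ∀ p ∈ 𝓐, p (e 0) = w) :
    (𝓐.image (fun p => fun i => p (e i))).card ≤ (K * D) ^ m := by
  have h := cnt (j := m) hG {0} ⟨0, by simp⟩ (fun _ => w) (𝓐.image (fun p => fun i => p (e i)))
    (by
      intro φ hφ
      obtain ⟨p, hp, rfl⟩ := Finset.mem_image.mp hφ
      intro u v huv
      refine hom_of (hA p hp) _ _ ?_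
      rw [SimpleGraph.pathGraph_adj] at huv ⊢
      rcases huv with h1 | h1
      · exact Or.inl (he u v h1)
      · exact Or.inr (he v u h1)) (by
      intro φ hφ u hu
      obtain ⟨p, hp, rfl⟩ := Finset.mem_image.mp hφ
      rw [Finset.mem_singleton] at hu
      subst hu
      exact hw p hp)
  simpa using h

lemma pick {α : Type} (s : Finset α) (n : ℕ) (h : n ≤ s.card) :
    ∃ f : Fin n → α, Function.Injective f ∧ ∀ a, f a ∈ s := by
  obtain ⟨t, ht, hc⟩ := Finset.exists_subset_card_eq h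
  refine ⟨fun a => ((Finset.equivFinOfCardEq hc).symm a : α), ?_, fun a => ht (Subtype.prop _)⟩
  intro a b hab
  exact (Finset.equivFinOfCardEq hc).symm.injective (Subtype.ext hab)

/-- the common end of the legs -/
lemma legsel (hG : AR G D K) (h : RSt G B l q D M' 𝓡) (hl : 2 ≤ l) (hq : 0 < q) (hK : 0 < K)
    (hD0 : 0 < D) (S : Finset V) (w : V)
    (hS : ∀ s ∈ S, ∃ p ∈ 𝓡, ex l p 0 = s ∧ ex l p 1 = w)
    (X : Finset V) (x : ℕ) (hx : X.card ≤ x) (hD : 2 * q * x * K ^ (l - 2) ≤ D) (n : ℕ)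
    (hn : 0 < n) (hC : 4 * q * K ^ (l - 1) * n ≤ S.card) :
    ∃ (ρ : V) (π : Fin n → Fin (l + 1) → V), ρ ∉ X ∧
      (∀ a, π a ∈ 𝓡 ∧ ex l (π a) 0 ∈ S ∧ ex l (π a) l = ρ) ∧
      ∀ a b, ex l (π a) 0 = ex l (π b) 0 → a = b := by
  have ht := tot hG h hl S w hS l hl le_rfl X x hx hD
  obtain ⟨𝓐, h𝓐⟩ : ∃ 𝓐, 𝓐 = 𝓡.filter
    (fun p => (ex l p 0 ∈ S ∧ ex l p 1 = w) ∧ ex l p l ∉ X) := ⟨_, rfl⟩
  rw [← h𝓐] at ht
  have hmem : ∀ p ∈ 𝓐, p ∈ 𝓡 ∧ (ex l p 0 ∈ S ∧ ex l p 1 = w) ∧ ex l p l ∉ X := by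
    intro p hp
    rw [h𝓐] at hp
    exact Finset.mem_filter.mp hp
  obtain ⟨e, he⟩ : ∃ e : Fin (l - 1 + 1) → Fin (l + 1), e = fun i => ⟨i.val + 1, by omega⟩ :=
    ⟨_, rfl⟩
  obtain ⟨μ, hμ⟩ : ∃ μ : (Fin (l + 1) → V) → Fin (l - 1 + 1) → V, μ = fun p i => p (e i) :=
    ⟨_, rfl⟩
  have hμ' : ∀ p i, μ p i = p (e i) := fun p i => by rw [hμ]
  have hseg : (𝓐.image μ).card ≤ (K * D) ^ (l - 1) := by
    rw [hμ]
    exact seg_cnt (m := l - 1) hG 𝓐 (fun p hp => h.sub p (hmem p hp).1) e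
      (by rw [he]; intro u v huv; simp only; omega) w (by
        intro p hp
        have h1 := (hmem p hp).2.1.2
        rw [ex_le _ _ (by omega)] at h1
        rw [he]
        exact h1)
  obtain ⟨τ, hτ, hτn⟩ : ∃ τ ∈ 𝓐.image μ, n ≤ (𝓐.filter (fun p => μ p = τ)).card := by
    by_contra hcon
    push Not at hcon
    have h1 : 𝓐.card ≤ (n - 1) * (𝓐.image μ).card :=
      Finset.card_le_mul_card_image _ _ fun τ hτ => by
        have := hcon τ hτ
        omega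
    have h2 : S.card * D ^ (l - 1) ≤ (2 * q * K ^ (l - 1) * (n - 1)) * D ^ (l - 1) := by
      calc S.card * D ^ (l - 1) ≤ 2 * q * 𝓐.card := ht
        _ ≤ 2 * q * ((n - 1) * (K * D) ^ (l - 1)) := by gcongr; exact h1.trans (by gcongr)
        _ = (2 * q * K ^ (l - 1) * (n - 1)) * D ^ (l - 1) := by rw [mul_pow]; ring
    have h3 := Nat.le_of_mul_le_mul_right h2 (pow_pos hD0 _)
    have h4 : 0 < q * K ^ (l - 1) := Nat.mul_pos hq (pow_pos hK _)
    have h5 : 2 * q * K ^ (l - 1) * (n - 1) < 4 * q * K ^ (l - 1) * n := by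
      have h6 : 2 * q * K ^ (l - 1) * (n - 1) ≤ 2 * q * K ^ (l - 1) * n :=
        Nat.mul_le_mul_left _ (Nat.sub_le _ _)
      have h7 : 0 < q * K ^ (l - 1) * n := Nat.mul_pos h4 hn
      have h8 : 4 * q * K ^ (l - 1) * n = 4 * (q * K ^ (l - 1) * n) := by ring
      have h9 : 2 * q * K ^ (l - 1) * n = 2 * (q * K ^ (l - 1) * n) := by ring
      omega
    omega
  obtain ⟨π, hπ, hπm⟩ := pick _ n hτn
  obtain ⟨p0, hp0, hp0τ⟩ := Finset.mem_image.mp hτ
  have hall : ∀ a, π a ∈ 𝓐 ∧ μ (π a) = τ := fun a => Finset.mem_filter.mp (hπm a)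
  have hlast : ∀ p : Fin (l + 1) → V, μ p = τ → ex l p l = τ ⟨l - 1, by omega⟩ := by
    intro p hp
    rw [← hp, hμ', ex_le _ _ le_rfl, he]
    congr 1
    exact Fin.ext (by simp only; omega)
  refine ⟨ex l p0 l, π, (hmem p0 hp0).2.2, fun a => ⟨(hmem _ (hall a).1).1,
    (hmem _ (hall a).1).2.1.1, ?_⟩, ?_⟩
  · rw [hlast _ (hall a).2, hlast _ hp0τ]
  · intro a b hab
    refine hπ ?_
    funext i
    by_cases hi : i.val = 0
    · rw [ex_le _ _ (by omega), ex_le _ _ (by omega)] at hab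
      have h1 : i = ⟨0, Nat.lt_succ_of_le (by omega)⟩ := Fin.ext hi
      rw [h1]
      exact hab
    · have h1 : i = e ⟨i.val - 1, by omega⟩ := by
        rw [he]
        exact Fin.ext (by simp only; omega)
      have h2 := congrFun ((hall a).2.trans (hall b).2.symm) ⟨i.val - 1, by omega⟩
      rw [hμ', hμ', ← h1] at h2
      exact h2

/-- the common root of the new centres -/
lemma coresel (hG : AR G D K) (h : RSt G B l q D M' 𝓡) (hl : 3 ≤ l) (hq : 0 < q) (hK : 0 < K)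
    (hD0 : 0 < D) (S : Finset V) (w : V)
    (hS : ∀ s ∈ S, ∃ p ∈ 𝓡, ex l p 0 = s ∧ ex l p 1 = w)
    (X : Finset V) (x : ℕ) (hx : X.card ≤ x) (hD : 2 * q * x * K ^ (l - 2) ≤ D) (N : ℕ)
    (hN : 4 * q * K ^ (l - 2) * N ≤ D) (n : ℕ)
    (hn : 0 < n) (hC : 4 * q * K ^ (l - 1) * n ≤ S.card) :
    ∃ (w' : V) (s : Fin n → V), w' ∉ X ∧ Function.Injective s ∧ (∀ a, s a ∈ S) ∧
      ∀ a, ∀ U : Finset V, U.card ≤ N → ∃ p ∈ 𝓡, ex l p 0 = s a ∧ ex l p (l - 1) = w' ∧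
        ex l p l ∉ U := by
  have ht := tot hG h (by omega) S w hS (l - 1) (by omega) (by omega) X x hx hD
  obtain ⟨𝓐, h𝓐⟩ : ∃ 𝓐, 𝓐 = 𝓡.filter
    (fun p => (ex l p 0 ∈ S ∧ ex l p 1 = w) ∧ ex l p (l - 1) ∉ X) := ⟨_, rfl⟩
  rw [← h𝓐] at ht
  have hmem : ∀ p ∈ 𝓐, p ∈ 𝓡 ∧ (ex l p 0 ∈ S ∧ ex l p 1 = w) ∧ ex l p (l - 1) ∉ X := by
    intro p hp
    rw [h𝓐] at hp
    exact Finset.mem_filter.mp hp
  obtain ⟨e, he⟩ : ∃ e : Fin (l - 2 + 1) → Fin (l + 1), e = fun i => ⟨i.val + 1, by omega⟩ :=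
    ⟨_, rfl⟩
  obtain ⟨μ, hμ⟩ : ∃ μ : (Fin (l + 1) → V) → Fin (l - 2 + 1) → V, μ = fun p i => p (e i) :=
    ⟨_, rfl⟩
  have hμ' : ∀ p i, μ p i = p (e i) := fun p i => by rw [hμ]
  have hseg : (𝓐.image μ).card ≤ (K * D) ^ (l - 2) := by
    rw [hμ]
    exact seg_cnt (m := l - 2) hG 𝓐 (fun p hp => h.sub p (hmem p hp).1) e
      (by rw [he]; intro u v huv; simp only; omega) w (by
        intro p hp
        have h1 := (hmem p hp).2.1.2
        rw [ex_le _ _ (by omega)] at h1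
        rw [he]
        exact h1)
  have h4 : 0 < q * K ^ (l - 1) := Nat.mul_pos hq (pow_pos hK _)
  have hC0 : 0 < 4 * q * K ^ (l - 1) := by
    have : 4 * q * K ^ (l - 1) = 4 * (q * K ^ (l - 1)) := by ring
    omega
  have hS0 : 0 < S.card := lt_of_lt_of_le (Nat.mul_pos hC0 hn) hC
  have hA0 : 0 < 𝓐.card := by
    have h1 : 0 < S.card * D ^ (l - 1) := Nat.mul_pos hS0 (pow_pos hD0 _)
    exact Nat.pos_of_mul_pos_left (lt_of_lt_of_le h1 ht)
  obtain ⟨τ, hτ, hmax⟩ := Finset.exists_max_image (𝓐.image μ)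
    (fun τ => (𝓐.filter (fun p => μ p = τ)).card)
    ((Finset.card_pos.mp hA0).image _)
  obtain ⟨𝓕, h𝓕⟩ : ∃ 𝓕, 𝓕 = 𝓐.filter (fun p => μ p = τ) := ⟨_, rfl⟩
  have hF1 : 𝓐.card ≤ 𝓕.card * (K * D) ^ (l - 2) := by
    refine (Finset.card_le_mul_card_image 𝓐 𝓕.card fun τ' hτ' => ?_).trans
      (Nat.mul_le_mul_left _ hseg)
    rw [h𝓕]
    exact hmax τ' hτ'
  have hFm : ∀ p ∈ 𝓕, p ∈ 𝓐 ∧ μ p = τ := by
    intro p hp
    rw [h𝓕] at hp
    exact Finset.mem_filter.mp hp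
  -- members with the same start and the same last vertex are equal
  have heqp : ∀ p ∈ 𝓕, ∀ p' ∈ 𝓕, ex l p 0 = ex l p' 0 → ∀ i : Fin (l + 1), i.val ≠ l →
      p i = p' i := by
    intro p hp p' hp' h0 i hi
    by_cases hi0 : i.val = 0
    · rw [ex_le _ _ (by omega), ex_le _ _ (by omega)] at h0
      have h1 : i = ⟨0, Nat.lt_succ_of_le (by omega)⟩ := Fin.ext hi0
      rw [h1]
      exact h0
    · have h1 : i = e ⟨i.val - 1, by omega⟩ := by
        rw [he]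
        exact Fin.ext (by simp only; omega)
      have h2 := congrFun ((hFm p hp).2.trans (hFm p' hp').2.symm) ⟨i.val - 1, by omega⟩
      rw [hμ', hμ', ← h1] at h2
      exact h2
  have hFs : ∀ s, (𝓕.filter (fun p => ex l p 0 = s)).card ≤ K * D := by
    intro s
    rcases (𝓕.filter (fun p => ex l p 0 = s)).eq_empty_or_nonempty with h1 | ⟨p1, hp1⟩
    · rw [h1]
      simp
    · obtain ⟨hp2, hp3⟩ := Finset.mem_filter.mp hp1
      have h2 := cnt (j := l) hG (Finset.univ.erase (Fin.last l))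
        ⟨⟨0, by omega⟩, Finset.mem_erase.mpr ⟨by
          intro h5
          have := congrArg Fin.val h5
          simp at this
          omega, Finset.mem_univ _⟩⟩ p1 (𝓕.filter (fun p => ex l p 0 = s))
        (fun p hp => hom_of (h.sub p (hmem p (hFm p (Finset.mem_filter.mp hp).1).1).1)) (by
          intro p hp u hu
          obtain ⟨hp4, hp5⟩ := Finset.mem_filter.mp hp
          refine heqp p hp4 p1 hp2 (hp5.trans hp3.symm) u ?_
          intro h6
          exact (Finset.mem_erase.mp hu).1 (Fin.ext (by simpa using h6)))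
      rw [Finset.card_erase_of_mem (Finset.mem_univ _), Finset.card_univ, Fintype.card_fin] at h2
      have h3 : l + 1 - (l + 1 - 1) = 1 := by omega
      rw [h3, pow_one] at h2
      exact h2
  obtain ⟨𝓖, h𝓖⟩ : ∃ 𝓖, 𝓖 = S.filter (fun s => N < (𝓕.filter (fun p => ex l p 0 = s)).card) :=
    ⟨_, rfl⟩
  have hF2 : 𝓕.card ≤ 𝓖.card * (K * D) + S.card * N := by
    have h1 : 𝓕.card = ∑ s ∈ S, (𝓕.filter (fun p => ex l p 0 = s)).card :=
      Finset.card_eq_sum_card_fiberwise fun p hp => (hmem p (hFm p hp).1).2.1.1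
    have h2 : ∀ s ∈ S, (𝓕.filter (fun p => ex l p 0 = s)).card ≤
        (if N < (𝓕.filter (fun p => ex l p 0 = s)).card then K * D else 0) + N := by
      intro s _
      by_cases h3 : N < (𝓕.filter (fun p => ex l p 0 = s)).card
      · rw [if_pos h3]
        exact (hFs s).trans (Nat.le_add_right _ _)
      · rw [if_neg h3]
        omega
    rw [h1]
    refine (Finset.sum_le_sum h2).trans ?_
    rw [Finset.sum_add_distrib, Finset.sum_const, smul_eq_mul, ← Finset.sum_filter,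
      Finset.sum_const, smul_eq_mul, ← h𝓖]
  have hmain : S.card ≤ 4 * q * K ^ (l - 1) * 𝓖.card := by
    have h1 : S.card * D * D ^ (l - 2) ≤ 2 * q * K ^ (l - 2) * 𝓕.card * D ^ (l - 2) := by
      calc S.card * D * D ^ (l - 2) = S.card * D ^ (l - 1) := by
            rw [mul_assoc, ← pow_succ']
            congr 2
            omega
        _ ≤ 2 * q * 𝓐.card := ht
        _ ≤ 2 * q * (𝓕.card * (K * D) ^ (l - 2)) := by gcongr
        _ = 2 * q * K ^ (l - 2) * 𝓕.card * D ^ (l - 2) := by rw [mul_pow]; ring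
    have h2 := Nat.le_of_mul_le_mul_right h1 (pow_pos hD0 _)
    have h3 : 2 * (S.card * D) ≤ 4 * q * K ^ (l - 1) * 𝓖.card * D + S.card * D := by
      calc 2 * (S.card * D) ≤ 2 * (2 * q * K ^ (l - 2) * 𝓕.card) := by gcongr
        _ ≤ 2 * (2 * q * K ^ (l - 2) * (𝓖.card * (K * D) + S.card * N)) := by gcongr
        _ = 4 * q * (K ^ (l - 2) * K) * 𝓖.card * D + S.card * (4 * q * K ^ (l - 2) * N) := by
          ring
        _ = 4 * q * K ^ (l - 1) * 𝓖.card * D + S.card * (4 * q * K ^ (l - 2) * N) := by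
          rw [← pow_succ]
          congr 5
          omega
        _ ≤ _ := by gcongr
    have h5 : S.card * D ≤ 4 * q * K ^ (l - 1) * 𝓖.card * D := by omega
    exact Nat.le_of_mul_le_mul_right h5 hD0
  have hng : n ≤ 𝓖.card := Nat.le_of_mul_le_mul_left (hC.trans hmain) hC0
  obtain ⟨s, hs, hsm⟩ := pick _ n hng
  have hlast : ∀ p : Fin (l + 1) → V, μ p = τ →
      ex l p (l - 1) = τ ⟨l - 2, by omega⟩ := by
    intro p hp
    rw [← hp, hμ', ex_le _ _ (by omega), he]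
    congr 1
    exact Fin.ext (by simp only; omega)
  obtain ⟨p0, hp0, hp0τ⟩ := Finset.mem_image.mp hτ
  have hsG : ∀ a, s a ∈ S ∧ N < (𝓕.filter (fun p => ex l p 0 = s a)).card := by
    intro a
    have h1 := hsm a
    rw [h𝓖] at h1
    exact Finset.mem_filter.mp h1
  refine ⟨ex l p0 (l - 1), s, (hmem p0 hp0).2.2, hs, fun a => (hsG a).1, ?_⟩
  intro a U hU
  by_contra hcon
  push Not at hcon
  have h1 : (𝓕.filter (fun p => ex l p 0 = s a)).card ≤ U.card := by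
    refine Finset.card_le_card_of_injOn (fun p => ex l p l) ?_ ?_
    · intro p hp
      obtain ⟨hp1, hp2⟩ := Finset.mem_filter.mp (Finset.mem_coe.mp hp)
      refine Finset.mem_coe.mpr (hcon p (hmem p (hFm p hp1).1).1 hp2 ?_)
      rw [hlast _ (hFm p hp1).2, hlast _ hp0τ]
    · intro p hp p' hp' heq
      obtain ⟨hp1, hp2⟩ := Finset.mem_filter.mp (Finset.mem_coe.mp hp)
      obtain ⟨hp3, hp4⟩ := Finset.mem_filter.mp (Finset.mem_coe.mp hp')
      funext i
      by_cases hi : i.val = l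
      · simp only at heq
        rw [ex_le _ _ le_rfl, ex_le _ _ le_rfl] at heq
        have h2 : i = ⟨l, Nat.lt_succ_of_le le_rfl⟩ := Fin.ext hi
        rw [h2]
        exact heq
      · exact heqp p hp1 p' hp3 (hp2.trans hp4.symm) i hi
  have h2 := (hsG a).2
  omega

end Pool.Agent.TH476.KK.MvE

namespace Pool.Agent.TH476.KK

open Pool.Agent.TH476 MvE

theorem mvE_holds : S_RST → S_EXT → ∀ k l, 3 ≤ l → l ≤ k + 1 → (k + 1 - l) % 2 = 0 →
    S_MV k l := by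
  intro hRST hEXT k l hl hlk hpar K Q hK hQ
  obtain ⟨q, hq, hRST⟩ := hRST l K Q (by omega) hK hQ
  have hC0 : 0 < 4 * q * K ^ (l - 1) := Nat.mul_pos (by omega) (pow_pos hK _)
  refine ⟨4 * q * K ^ (l - 1), hC0, ?_⟩
  intro F0 ζ
  obtain ⟨t, ht⟩ : ∃ t, l + 2 * t = k + 1 := ⟨(k + 1 - l) / 2, by omega⟩
  obtain ⟨N1, hN1⟩ : ∃ N1, N1 = ζ * (k + 2) + 2 * ζ + 1 := ⟨_, rfl⟩
  obtain ⟨M', D0', hEXT⟩ := hEXT l q F0 N1 t (by omega) hq
  obtain ⟨M, hM⟩ := hRST M'
  refine ⟨M, D0' + 2 * q * (2 * ζ) * K ^ (l - 2) + 4 * q * K ^ (l - 2) * N1 + 2 * ζ + q * ζ + 2,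
    ?_⟩
  intro V _ _ G D B hG hD hB hR hN hcard
  obtain ⟨𝓡, h𝓡⟩ := hM V G D B hG (by omega) hB hR hcard
  have hpv : ∀ p ∈ 𝓡, PthV G B l (ex l p) := fun p hp =>
    (Finset.mem_filter.mp (h𝓡.sub p hp)).2.1
  -- paths of length k + 1 avoiding small sets
  have hpath : ∀ p ∈ 𝓡, ∀ Z : Finset V, Z.card ≤ N1 → ∃ P : ℕ → V, P 0 = ex l p 0 ∧
      P (k + 1) = ex l p l ∧ (∀ i, i ≤ k → G.Adj (P i) (P (i + 1))) ∧
      (∀ i, 1 ≤ i → i ≤ k → P i ∉ Z) ∧
      ∀ i i', i ≤ k + 1 → i' ≤ k + 1 → P i = P i' → i = i' := by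
    intro p hp Z hZ
    obtain ⟨P, h1, h2, h3, h4, h5⟩ := hEXT V G D B 𝓡 hB hN (by omega) h𝓡 p hp Z hZ
    rw [ht] at h2 h3 h4 h5
    exact ⟨P, h1, h2, fun i hi => h3 i (by omega), fun i hi hi' => h4 i hi (by omega), h5⟩
  refine ⟨Unit, fun _ w s => ∃ p ∈ 𝓡, ex l p 0 = s ∧ ex l p 1 = w, fun _ _ => True, ⟨?_, ?_, ?_⟩,
    ?_⟩
  · rintro _ w s ⟨p, hp, rfl, rfl⟩
    exact ((hpv p hp).1 0 (by omega)).symm
  · intro _ _ _ w S Z n' hS hwZ hCn hSζ hZζ
    have hX : (Z ∪ S).card ≤ 2 * ζ := (Finset.card_union_le _ _).trans (by omega)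
    rcases Nat.eq_zero_or_pos n' with h0 | hn'
    · subst h0
      obtain ⟨ρ, hρ⟩ : ∃ ρ, ρ ∉ Z ∪ S := by
        by_contra hcon
        push Not at hcon
        obtain ⟨v⟩ := ‹Nonempty V›
        have h1 : (nb G v).card ≤ (Z ∪ S).card := Finset.card_le_card fun x _ => hcon x
        have h2 := hG.lo v
        omega
      rw [Finset.mem_union, not_or] at hρ
      exact ⟨ρ, hρ.1, hρ.2, fun a => a.elim0, fun a => a.elim0, fun a => a.elim0⟩
    · have hn'ζ : n' ≤ ζ := (Nat.le_mul_of_pos_left n' hC0).trans (hCn.trans hSζ)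
      obtain ⟨ρ, π, hρ, hπ, hπi⟩ := legsel hG h𝓡 (by omega) hq hK (by omega) S w hS (Z ∪ S)
        (2 * ζ) hX (by omega) n' hn' hCn
      obtain ⟨P, hP1, hP2⟩ := seq k (ζ * (k + 2)) n' (fun a Q => Q 0 = ex l (π a) 0 ∧
        Q (k + 1) = ρ ∧ (∀ i, i ≤ k → G.Adj (Q i) (Q (i + 1))) ∧
        (∀ i, 1 ≤ i → i ≤ k → Q i ∉ Z ∪ S) ∧
        ∀ i i', i ≤ k + 1 → i' ≤ k + 1 → Q i = Q i' → i = i') (by
          intro a U hU
          obtain ⟨P, h1, h2, h3, h4, h5⟩ := hpath (π a) (hπ a).1 (U ∪ (Z ∪ S))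
            ((Finset.card_union_le _ _).trans (by omega))
          refine ⟨P, ⟨h1, h2.trans (hπ a).2.2, h3, fun i hi hi' hmem => h4 i hi hi'
            (Finset.mem_union_right _ hmem), h5⟩, fun i hi hi' hmem => h4 i hi hi'
            (Finset.mem_union_left _ hmem)⟩) (by
          calc n' * (k + 1) ≤ ζ * (k + 2) := Nat.mul_le_mul hn'ζ (by omega))
      rw [Finset.mem_union, not_or] at hρ
      refine ⟨ρ, hρ.1, hρ.2, P, ?_, ?_⟩
      · intro a
        obtain ⟨h1, h2, h3, h4, h5⟩ := hP1 a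
        refine ⟨h1 ▸ (hπ a).2.1, h2, h3, fun i hi hi' => ?_⟩
        have h6 := h4 i hi hi'
        rw [Finset.mem_union, not_or] at h6
        refine ⟨h6.1, h6.2, fun h7 => ?_⟩
        have := h5 i (k + 1) (by omega) le_rfl (h7.trans h2.symm)
        omega
      · exact dist (X := Z ∪ S) (fun a => Finset.mem_union_right _ ((hP1 a).1 ▸ (hπ a).2.1))
          (fun a => (hP1 a).2.2.2.1) (fun a b hab => hπi a b (by
            rw [← (hP1 a).1, ← (hP1 b).1]
            exact hab))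
          (fun a i i' hi hi' => (hP1 a).2.2.2.2 i i' (by omega) (by omega)) hP2
  · intro _ _ _ w S Z n' hS hwZ hCn hSζ hZζ
    have hX : (Z ∪ S).card ≤ 2 * ζ := (Finset.card_union_le _ _).trans (by omega)
    rcases Nat.eq_zero_or_pos n' with h0 | hn'
    · subst h0
      obtain ⟨ρ, hρ⟩ : ∃ ρ, ρ ∉ Z ∪ S := by
        by_contra hcon
        push Not at hcon
        obtain ⟨v⟩ := ‹Nonempty V›
        have h1 : (nb G v).card ≤ (Z ∪ S).card := Finset.card_le_card fun x _ => hcon x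
        have h2 := hG.lo v
        omega
      rw [Finset.mem_union, not_or] at hρ
      exact ⟨(), trivial, ρ, hρ.1, hρ.2, fun a => a.elim0, fun a => a.elim0, fun a => a.elim0⟩
    · have hn'ζ : n' ≤ ζ := (Nat.le_mul_of_pos_left n' hC0).trans (hCn.trans hSζ)
      obtain ⟨w', s, hw', hs, hsS, hsel⟩ := coresel hG h𝓡 hl hq hK (by omega) S w hS (Z ∪ S)
        (2 * ζ) hX (by omega) N1 (by omega) n' hn' hCn
      obtain ⟨P, hP1, hP2⟩ := seq (k + 1) (ζ * (k + 2)) n' (fun a Q => Q 0 = s a ∧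
        (∃ p ∈ 𝓡, ex l p 0 = Q (k + 1) ∧ ex l p 1 = w') ∧
        (∀ i, i ≤ k → G.Adj (Q i) (Q (i + 1))) ∧
        (∀ i, 1 ≤ i → i ≤ k + 1 → Q i ∉ Z ∪ S ∧ Q i ≠ w') ∧
        ∀ i i', i ≤ k + 1 → i' ≤ k + 1 → Q i = Q i' → i = i') (by
          intro a U hU
          have hcd : (insert w' (U ∪ (Z ∪ S))).card ≤ N1 := by
            refine (Finset.card_insert_le _ _).trans ?_
            have := Finset.card_union_le U (Z ∪ S)
            omega
          obtain ⟨p, hp, hp0, hp1, hpU⟩ := hsel a _ hcd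
          obtain ⟨P, h1, h2, h3, h4, h5⟩ := hpath p hp _ hcd
          have h6 : ∀ i, 1 ≤ i → i ≤ k + 1 → P i ∉ insert w' (U ∪ (Z ∪ S)) := by
            intro i hi hi'
            rcases Nat.lt_or_ge i (k + 1) with h7 | h7
            · exact h4 i hi (by omega)
            · have h8 : i = k + 1 := by omega
              rw [h8, h2]
              exact hpU
          refine ⟨P, ⟨h1.trans hp0, ⟨_, h𝓡.rev p hp, ?_, ?_⟩, h3, fun i hi hi' => ⟨fun h7 =>
            h6 i hi hi' (Finset.mem_insert_of_mem (Finset.mem_union_right _ h7)), fun h7 =>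
            h6 i hi hi' (h7 ▸ Finset.mem_insert_self _ _)⟩, h5⟩, fun i hi hi' h7 =>
            h6 i hi hi' (Finset.mem_insert_of_mem (Finset.mem_union_left _ h7))⟩
          · rw [h2, ex_le _ _ (Nat.zero_le _), ex_le _ _ le_rfl]
            congr 1
          · rw [← hp1, ex_le _ _ (by omega), ex_le _ _ (by omega)]
            congr 1) (by
          calc n' * (k + 1 + 1) ≤ ζ * (k + 2) := Nat.mul_le_mul hn'ζ (by omega))
      rw [Finset.mem_union, not_or] at hw'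
      refine ⟨(), trivial, w', hw'.1, hw'.2, P, ?_, ?_⟩
      · intro a
        obtain ⟨h1, h2, h3, h4, h5⟩ := hP1 a
        refine ⟨h1 ▸ hsS a, h2, h3, fun i hi hi' => ?_⟩
        obtain ⟨h6, h7⟩ := h4 i hi hi'
        rw [Finset.mem_union, not_or] at h6
        exact ⟨h6.1, h6.2, h7⟩
      · exact dist (X := Z ∪ S) (fun a => Finset.mem_union_right _ ((hP1 a).1 ▸ hsS a))
          (fun a i hi hi' => ((hP1 a).2.2.2.1 i hi hi').1) (fun a b hab => hs (by
            rw [← (hP1 a).1, ← (hP1 b).1]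
            exact hab))
          (fun a => (hP1 a).2.2.2.2) hP2
  · intro n _ n0 hn0
    obtain ⟨p, hp⟩ := h𝓡.ne
    obtain ⟨ok, hok⟩ : ∃ ok : (Fin (l + 1) → V) → Prop,
      ok = fun p' => ∀ m, 1 ≤ m → m ≤ l → ex l p' m = ex l p m := ⟨_, rfl⟩
    obtain ⟨𝓗, h𝓗⟩ : ∃ 𝓗, 𝓗 = 𝓡.filter ok := ⟨_, rfl⟩
    have h1 : D ^ (l - (l - 1)) ≤ q * 𝓗.card := by
      refine (h𝓡.cls p hp 1 l (by omega) le_rfl).trans (Nat.mul_le_mul_left _
        (Finset.card_le_card fun p' hp' => ?_))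
      rw [Finset.mem_filter] at hp'
      rw [h𝓗]
      refine Finset.mem_filter.mpr ⟨hp'.1, ?_⟩
      rw [hok]
      exact hp'.2
    have hmem : ∀ p' ∈ 𝓗, p' ∈ 𝓡 ∧ ∀ m, 1 ≤ m → m ≤ l → ex l p' m = ex l p m := by
      intro p' hp'
      rw [h𝓗] at hp'
      obtain ⟨h2, h3⟩ := Finset.mem_filter.mp hp'
      rw [hok] at h3
      exact ⟨h2, h3⟩
    have h2 : l - (l - 1) = 1 := by omega
    rw [h2, pow_one] at h1
    have h3 : (𝓗.image (fun p' => ex l p' 0)).card = 𝓗.card := by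
      refine Finset.card_image_of_injOn fun p1 hp1 p2 hp2 heq => ?_
      have hp1' := hmem p1 (Finset.mem_coe.mp hp1)
      have hp2' := hmem p2 (Finset.mem_coe.mp hp2)
      funext i
      by_cases hi : i.val = 0
      · rw [ex_le _ _ (Nat.zero_le _), ex_le _ _ (Nat.zero_le _)] at heq
        have h4 : i = ⟨0, Nat.lt_succ_of_le (Nat.zero_le _)⟩ := Fin.ext hi
        rw [h4]
        exact heq
      · have h4 := (hp1'.2 i.val (by omega) (by omega)).trans
          (hp2'.2 i.val (by omega) (by omega)).symm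
        rw [ex_le _ _ (by omega), ex_le _ _ (by omega)] at h4
        exact h4
    have h4 : n0 ≤ (𝓗.image (fun p' => ex l p' 0)).card := by
      rw [h3]
      have h5 : q * ζ ≤ q * 𝓗.card := by omega
      have h6 := Nat.le_of_mul_le_mul_left h5 hq
      omega
    obtain ⟨S, hS, hSc⟩ := Finset.exists_subset_card_eq h4
    refine ⟨(), ex l p 1, S, trivial, hSc, ?_, ?_⟩
    · intro hw
      obtain ⟨p', hp', heq⟩ := Finset.mem_image.mp (hS hw)
      obtain ⟨h5, h6⟩ := hmem p' hp'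
      rw [← h6 1 le_rfl (by omega)] at heq
      have := (hpv p' h5).2.1 0 1 (by omega) (by omega) heq
      omega
    · intro s hs
      obtain ⟨p', hp', heq⟩ := Finset.mem_image.mp (hS hs)
      obtain ⟨h5, h6⟩ := hmem p' hp'
      exact ⟨p', h5, heq, h6 1 le_rfl (by omega)⟩

end Pool.Agent.TH476.KK
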