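import Pool.Agent.TH476.KHub

set_option autoImplicit false

open Classical

namespace Pool.Agent.TH476.KK.KMvO

open Pool.Agent.TH476

section plain

variable {V : Type}

lemma ex_fin (l : ℕ) (p : Fin (l + 1) → V) (i : Fin (l + 1)) : ex l p i.1 = p i :=
  congrArg p (Fin.ext (Nat.min_eq_left (Nat.le_of_lt_succ i.2)))

lemma ex_mk (l : ℕ) (p : Fin (l + 1) → V) (i : ℕ) (hi : i ≤ l) :
    ex l p i = p ⟨i, Nat.lt_succ_of_le hi⟩ :=
  congrArg p (Fin.ext (Nat.min_eq_left hi))

lemma ex_rev (l : ℕ) (p : Fin (l + 1) → V) (i : ℕ) (hi : i ≤ l) :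
    ex l (fun j => p j.rev) i = ex l p (l - i) := by
  rw [ex_mk l _ i hi, ex_mk l p (l - i) (Nat.sub_le _ _)]
  refine congrArg p (Fin.ext ?_)
  rw [Fin.val_rev]
  show l + 1 - (i + 1) = l - i
  omega

/-- averaging: some tuple is good for many s -/
lemma avg {α β γ : Type} [DecidableEq γ] (S : Finset α) (hS : S.Nonempty) (R : α → Finset β) (π : β → γ)
    (𝒯 : Finset γ) (a b N U : ℕ) (ha : 0 < a) (h1 : ∀ s ∈ S, a ≤ b * (R s).card)
    (h2 : ∀ s ∈ S, ∀ p ∈ R s, π p ∈ 𝒯) (hN : 𝒯.card ≤ N)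
    (hU : ∀ s ∈ S, ∀ t ∈ 𝒯, ((R s).filter (fun p => π p = t)).card ≤ U) :
    ∃ t ∈ 𝒯, S.card * a ≤ 2 * b * N * U *
      (S.filter (fun s => a ≤ 2 * b * N * ((R s).filter (fun p => π p = t)).card)).card := by
  by_contra hcon
  push Not at hcon
  obtain ⟨s0, hs0⟩ := hS
  have hR0 : (R s0).Nonempty := by
    rw [← Finset.card_pos]
    have h3 := h1 s0 hs0
    rcases Nat.eq_zero_or_pos (R s0).card with h4 | h4
    · rw [h4] at h3
      omega
    · exact h4
  obtain ⟨p0, hp0⟩ := hR0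
  have hT0 : 𝒯.Nonempty := ⟨π p0, h2 s0 hs0 p0 hp0⟩
  have hNpos : 0 < N := lt_of_lt_of_le (Finset.card_pos.mpr hT0) hN
  -- each t
  have h3 : ∀ t ∈ 𝒯, b * N * ∑ s ∈ S, ((R s).filter (fun p => π p = t)).card < S.card * a := by
    intro t ht
    have h4 := hcon t ht
    set St := S.filter (fun s => a ≤ 2 * b * N * ((R s).filter (fun p => π p = t)).card) with hSt
    have h5 : ∑ s ∈ S, 2 * b * N * ((R s).filter (fun p => π p = t)).card ≤
        2 * b * N * U * St.card + S.card * a := by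
      have h6 : ∀ s ∈ S, 2 * b * N * ((R s).filter (fun p => π p = t)).card ≤
          (if s ∈ St then 2 * b * N * U else 0) + a := by
        intro s hs
        by_cases h7 : s ∈ St
        · rw [if_pos h7]
          have := Nat.mul_le_mul_left (2 * b * N) (hU s hs t ht)
          omega
        · rw [if_neg h7]
          have h8 : ¬ a ≤ 2 * b * N * ((R s).filter (fun p => π p = t)).card := by
            intro h9
            exact h7 (Finset.mem_filter.mpr ⟨hs, h9⟩)
          omega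
      refine (Finset.sum_le_sum h6).trans ?_
      rw [Finset.sum_add_distrib, Finset.sum_const, smul_eq_mul, ← Finset.sum_filter,
        Finset.sum_const, smul_eq_mul]
      have h9 : (S.filter (fun s => s ∈ St)).card ≤ St.card := by
        refine Finset.card_le_card ?_
        intro s hs
        exact (Finset.mem_filter.mp hs).2
      have h10 := Nat.mul_le_mul_right (2 * b * N * U) h9
      rw [mul_comm St.card] at h10
      omega
    rw [← Finset.mul_sum] at h5
    have h6 : 2 * (b * N * ∑ s ∈ S, ((R s).filter (fun p => π p = t)).card) < 2 * (S.card * a) := by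
      calc 2 * (b * N * ∑ s ∈ S, ((R s).filter (fun p => π p = t)).card)
          = 2 * b * N * ∑ s ∈ S, ((R s).filter (fun p => π p = t)).card := by ring
        _ ≤ 2 * b * N * U * St.card + S.card * a := h5
        _ < S.card * a + S.card * a := Nat.add_lt_add_right h4 _
        _ = 2 * (S.card * a) := by ring
    omega
  have h4 : ∑ t ∈ 𝒯, (b * N * ∑ s ∈ S, ((R s).filter (fun p => π p = t)).card) <
      ∑ t ∈ 𝒯, S.card * a := Finset.sum_lt_sum_of_nonempty hT0 h3
  rw [← Finset.mul_sum, Finset.sum_comm, Finset.sum_const, smul_eq_mul] at h4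
  have h5 : ∑ s ∈ S, ∑ t ∈ 𝒯, ((R s).filter (fun p => π p = t)).card = ∑ s ∈ S, (R s).card := by
    refine Finset.sum_congr rfl fun s hs => ?_
    exact (Finset.card_eq_sum_card_fiberwise (f := π) (t := 𝒯)
      (fun p hp => Finset.mem_coe.mpr (h2 s hs p (Finset.mem_coe.mp hp)))).symm
  rw [h5] at h4
  have h6 : S.card * a ≤ b * ∑ s ∈ S, (R s).card := by
    rw [Finset.mul_sum, ← smul_eq_mul (a := S.card), ← Finset.sum_const]
    exact Finset.sum_le_sum h1
  have h7 : N * (S.card * a) ≤ N * (b * ∑ s ∈ S, (R s).card) := Nat.mul_le_mul_left _ h6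
  have h8 : 𝒯.card * (S.card * a) ≤ N * (S.card * a) := Nat.mul_le_mul_right _ hN
  have h9 : b * N * ∑ s ∈ S, (R s).card = N * (b * ∑ s ∈ S, (R s).card) := by ring
  omega

/-- greedy choice of disjoint paths -/
lemma greedy (A : V → (ℕ → V) → Prop) (m ζ' : ℕ) : ∀ (n' : ℕ) (S' Z0 : Finset V),
    (∀ s ∈ S', ∀ Z' : Finset V, Z'.card ≤ ζ' → ∃ P : ℕ → V, P 0 = s ∧ A s P ∧
      (∀ i, 1 ≤ i → i ≤ m → P i ∉ Z') ∧ ∀ i i', i ≤ m → i' ≤ m → P i = P i' → i = i') →
    S' ⊆ Z0 → n' ≤ S'.card → Z0.card + n' * (m + 1) ≤ ζ' →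
    ∃ P : Fin n' → ℕ → V, (∀ j, P j 0 ∈ S' ∧ A (P j 0) (P j) ∧
      ∀ i, 1 ≤ i → i ≤ m → P j i ∉ Z0) ∧
      ∀ j j' i i', i ≤ m → i' ≤ m → P j i = P j' i' → j = j' ∧ i = i' := by
  intro n'
  induction n' with
  | zero =>
    intro S' Z0 _ _ _ _
    exact ⟨fun j => j.elim0, fun j => j.elim0, fun j => j.elim0⟩
  | succ n ih =>
    intro S' Z0 h hsub hn hZ
    have hne : S'.Nonempty := by
      rw [← Finset.card_pos]
      omega
    obtain ⟨s, hs⟩ := hne
    obtain ⟨P, hP0, hPA, hPZ, hPi⟩ := h s hs Z0 (by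
      have : 0 ≤ (n + 1) * (m + 1) := Nat.zero_le _
      omega)
    set Z1 : Finset V := Z0 ∪ (Finset.range (m + 1)).image P with hZ1
    have hZ1c : Z1.card ≤ Z0.card + (m + 1) := by
      refine (Finset.card_union_le _ _).trans ?_
      have := (Finset.card_image_le (s := Finset.range (m + 1)) (f := P))
      rw [Finset.card_range] at this
      omega
    have hmem : ∀ i, i ≤ m → P i ∈ Z1 := by
      intro i hi
      rw [hZ1, Finset.mem_union]
      right
      exact Finset.mem_image.mpr ⟨i, Finset.mem_range.mpr (by omega), rfl⟩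
    obtain ⟨Q, hQ1, hQ2⟩ := ih (S'.erase s) Z1 (fun s' hs' => h s' (Finset.mem_of_mem_erase hs'))
      (fun s' hs' => Finset.mem_union_left _ (hsub (Finset.mem_of_mem_erase hs')))
      (by rw [Finset.card_erase_of_mem hs]; omega)
      (by
        have h3 : (n + 1) * (m + 1) = n * (m + 1) + (m + 1) := by ring
        omega)
    have hcross : ∀ (j : Fin n) (i i' : ℕ), i ≤ m → i' ≤ m → P i = Q j i' → False := by
      intro j i i' hi hi' he
      rcases Nat.eq_zero_or_pos i' with h0 | h0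
      · subst h0
        have h3 := (hQ1 j).1
        rw [← he] at h3
        rcases Nat.eq_zero_or_pos i with h4 | h4
        · subst h4
          rw [hP0] at h3
          exact (Finset.notMem_erase s S') h3
        · exact hPZ i h4 hi (hsub (Finset.mem_of_mem_erase h3))
      · exact (hQ1 j).2.2 i' h0 hi' (he ▸ hmem i hi)
    refine ⟨Fin.cons P Q, ?_, ?_⟩
    · intro j
      refine Fin.cases ?_ ?_ j
      · simp only [Fin.cons_zero]
        rw [hP0]
        exact ⟨hs, hPA, hPZ⟩
      · intro j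
        simp only [Fin.cons_succ]
        refine ⟨Finset.mem_of_mem_erase (hQ1 j).1, (hQ1 j).2.1, fun i hi hi' hc => ?_⟩
        exact (hQ1 j).2.2 i hi hi' (Finset.mem_union_left _ hc)
    · intro j j'
      refine Fin.cases ?_ ?_ j
      · refine Fin.cases ?_ ?_ j'
        · intro i i' hi hi' he
          simp only [Fin.cons_zero] at he
          exact ⟨rfl, hPi i i' hi hi' he⟩
        · intro j' i i' hi hi' he
          simp only [Fin.cons_zero, Fin.cons_succ] at he
          exact (hcross j' i i' hi hi' he).elim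
      · intro j
        refine Fin.cases ?_ ?_ j'
        · intro i i' hi hi' he
          simp only [Fin.cons_zero, Fin.cons_succ] at he
          exact (hcross j i' i hi' hi he.symm).elim
        · intro j' i i' hi hi' he
          simp only [Fin.cons_succ] at he
          obtain ⟨h3, h4⟩ := hQ2 j j' i i' hi hi' he
          exact ⟨by rw [h3], h4⟩

end plain

variable {V : Type} [Fintype V]

/-- number of walks with prescribed vertices at the positions in J -/
lemma pin (G : SimpleGraph V) (D K n : ℕ) (hG : AR G D K) (J : Finset ℕ) (hJ : J.Nonempty)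
    (hJn : ∀ j ∈ J, j ≤ n) (c : ℕ → V) (𝓢 : Finset (Fin (n + 1) → V))
    (h1 : ∀ p ∈ 𝓢, ∀ i, i < n → G.Adj (ex n p i) (ex n p (i + 1)))
    (h2 : ∀ p ∈ 𝓢, ∀ j ∈ J, ex n p j = c j) : 𝓢.card ≤ (K * D) ^ (n + 1 - J.card) := by
  set J' : Finset (Fin (n + 1)) := Finset.univ.filter (fun u => u.1 ∈ J) with hJ'
  have hc : J'.card = J.card := by
    rw [← Finset.card_map Fin.valEmbedding]
    refine congrArg Finset.card ?_
    ext j
    rw [Finset.mem_map]
    constructor
    · rintro ⟨u, hu, rfl⟩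
      exact (Finset.mem_filter.mp hu).2
    · intro hj
      exact ⟨⟨j, Nat.lt_succ_of_le (hJn j hj)⟩, Finset.mem_filter.mpr ⟨Finset.mem_univ _, hj⟩, rfl⟩
  have hne : J'.Nonempty := by
    rw [← Finset.card_pos, hc]
    exact Finset.card_pos.mpr hJ
  have h := hom_le (SimpleGraph.pathGraph (n + 1)) (SimpleGraph.pathGraph_connected n) G D K hG
    J' hne (fun u => c u.1) 𝓢 (by
      intro p hp u v huv
      rw [SimpleGraph.pathGraph_adj] at huv
      rcases huv with huv | huv
      · have h3 := h1 p hp u.1 (by omega)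
        rw [huv, ex_fin, ex_fin] at h3
        exact h3
      · have h3 := h1 p hp v.1 (by omega)
        rw [huv, ex_fin, ex_fin] at h3
        exact h3.symm) (by
      intro p hp u hu
      have h3 := h2 p hp u.1 (Finset.mem_filter.mp hu).2
      rw [ex_fin] at h3
      exact h3)
  rwa [@Finset.card_compl _ (fun a b => propDecidable (a = b)), Fintype.card_fin, hc] at h

lemma adj_of {G : SimpleGraph V} {B : ℕ → V → V → Prop} {l q D M' : ℕ}
    {𝓡 : Finset (Fin (l + 1) → V)} (hR : RSt G B l q D M' 𝓡) {p : Fin (l + 1) → V} (hp : p ∈ 𝓡)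
    (i : ℕ) (hi : i < l) : G.Adj (ex l p i) (ex l p (i + 1)) :=
  (Finset.mem_filter.mp (hR.sub p hp)).2.1.1 i hi

lemma inj_of {G : SimpleGraph V} {B : ℕ → V → V → Prop} {l q D M' : ℕ}
    {𝓡 : Finset (Fin (l + 1) → V)} (hR : RSt G B l q D M' 𝓡) {p : Fin (l + 1) → V} (hp : p ∈ 𝓡)
    (i i' : ℕ) (hi : i ≤ l) (hi' : i' ≤ l) (he : ex l p i = ex l p i') : i = i' :=
  (Finset.mem_filter.mp (hR.sub p hp)).2.1.2.1 i i' hi hi' he

/-- the common part of paths starting at many vertices around w -/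
lemma hub (G : SimpleGraph V) (B : ℕ → V → V → Prop) (l q D K M' ζ' x d : ℕ) (hG : AR G D K)
    (𝓡 : Finset (Fin (l + 1) → V)) (hR : RSt G B l q D M' 𝓡) (hd1 : 1 ≤ d) (hd : d + 2 ≤ l)
    (hx : x + 1 + d ≤ l) (hD : 4 * q * K ^ (l - 2) * (l + 1) * ζ' < D) (w : V)
    (S Z0 : Finset V) (hS : ∀ s ∈ S, ∃ p ∈ 𝓡, ex l p x = s ∧ ex l p (x + 1) = w)
    (hS0 : S.Nonempty) (hZ : Z0.card ≤ ζ') :
    ∃ v, v ∉ Z0 ∧ ∃ S' ⊆ S, S.card ≤ 4 * q * K ^ (l - 1) * S'.card ∧ ∀ s ∈ S', ∀ Z' : Finset V,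
      Z'.card ≤ ζ' → ∃ p ∈ 𝓡, ex l p x = s ∧ ex l p (x + 1) = w ∧ ex l p (x + 1 + d) = v ∧
        ∀ j, j ≤ l → (j < x ∨ x + 1 + d < j) → ex l p j ∉ Z' := by
  have hDpos : 0 < D := by omega
  obtain ⟨m, hm⟩ : ∃ m, l = m + 2 := ⟨l - 2, by omega⟩
  have hm1 : l - 1 = m + 1 := by omega
  have hm2 : l - 2 = m := by omega
  set R : V → Finset (Fin (l + 1) → V) := fun s => 𝓡.filter (fun p => ex l p x = s ∧
    ex l p (x + 1) = w ∧ ex l p (x + 1 + d) ∉ Z0) with hRdef
  set π : (Fin (l + 1) → V) → (Fin (d + 1) → V) := fun p u => ex l p (x + 1 + u.1) with hπ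
  set 𝒯 : Finset (Fin (d + 1) → V) := Finset.univ.filter (fun τ => ex d τ 0 = w ∧
    ∀ i, i < d → G.Adj (ex d τ i) (ex d τ (i + 1))) with h𝒯
  have hπex : ∀ p i, i ≤ d → ex d (π p) i = ex l p (x + 1 + i) := by
    intro p i hi
    rw [ex_mk d _ i hi]
  -- lower bound
  have h1 : ∀ s ∈ S, D ^ (l - 1) ≤ 2 * q * (R s).card := by
    intro s hs
    obtain ⟨p, hp, hps, hpw⟩ := hS s hs
    have h3 := hR.cls p hp x (x + 1) (by omega) (by omega)
    have e1 : l - (x + 1 - x) = l - 1 := by omega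
    rw [e1] at h3
    have hsub : 𝓡.filter (fun p' => ∀ m, x ≤ m → m ≤ x + 1 → ex l p' m = ex l p m) ⊆
        R s ∪ Z0.biUnion (fun z => 𝓡.filter (fun p' => ex l p' x = s ∧ ex l p' (x + 1) = w ∧
          ex l p' (x + 1 + d) = z)) := by
      intro p' hp'
      obtain ⟨h4, h5⟩ := Finset.mem_filter.mp hp'
      have h6 : ex l p' x = s := by rw [h5 x le_rfl (by omega), hps]
      have h7 : ex l p' (x + 1) = w := by rw [h5 (x + 1) (by omega) le_rfl, hpw]
      rw [Finset.mem_union]
      by_cases h8 : ex l p' (x + 1 + d) ∈ Z0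
      · right
        exact Finset.mem_biUnion.mpr ⟨_, h8, Finset.mem_filter.mpr ⟨h4, h6, h7, rfl⟩⟩
      · left
        exact Finset.mem_filter.mpr ⟨h4, h6, h7, h8⟩
    have h4 : (Z0.biUnion (fun z => 𝓡.filter (fun p' => ex l p' x = s ∧ ex l p' (x + 1) = w ∧
          ex l p' (x + 1 + d) = z))).card ≤ ζ' * (K * D) ^ m := by
      refine (Finset.card_biUnion_le_card_mul _ _ ((K * D) ^ m) fun z _ => ?_).trans
        (Nat.mul_le_mul_right _ hZ)
      have h5 := pin G D K l hG {x, x + 1, x + 1 + d} ⟨x, by simp⟩ (by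
          intro j hj
          simp only [Finset.mem_insert, Finset.mem_singleton] at hj
          omega) (fun j => if j = x then s else if j = x + 1 then w else z)
        (𝓡.filter (fun p' => ex l p' x = s ∧ ex l p' (x + 1) = w ∧ ex l p' (x + 1 + d) = z))
        (fun p' hp' i hi => adj_of hR (Finset.mem_filter.mp hp').1 i hi) (by
          intro p' hp' j hj
          obtain ⟨_, h6, h7, h8⟩ := Finset.mem_filter.mp hp'
          simp only [Finset.mem_insert, Finset.mem_singleton] at hj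
          rcases hj with rfl | rfl | rfl
          · rw [if_pos rfl]
            exact h6
          · rw [if_neg (by omega), if_pos rfl]
            exact h7
          · rw [if_neg (by omega), if_neg (by omega)]
            exact h8)
      have hc : ({x, x + 1, x + 1 + d} : Finset ℕ).card = 3 :=
        Finset.card_eq_three.mpr ⟨x, x + 1, x + 1 + d, by omega, by omega, by omega, rfl⟩
      rw [hc] at h5
      have e2 : l + 1 - 3 = m := by omega
      rw [e2] at h5
      exact h5
    have h5 := (Finset.card_le_card hsub).trans (Finset.card_union_le _ _)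
    have h6 : 2 * (q * (ζ' * (K * D) ^ m)) ≤ D ^ (l - 1) := by
      rw [hm1]
      calc 2 * (q * (ζ' * (K * D) ^ m)) = (2 * q * K ^ m * ζ') * D ^ m := by rw [mul_pow]; ring
        _ ≤ D * D ^ m := by
            refine Nat.mul_le_mul_right _ ?_
            refine le_trans ?_ hD.le
            rw [hm2]
            calc 2 * q * K ^ m * ζ' = 2 * q * K ^ m * 1 * ζ' := by ring
              _ ≤ 4 * q * K ^ m * (l + 1) * ζ' := by
                refine Nat.mul_le_mul_right _ ?_
                refine Nat.mul_le_mul ?_ (by omega)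
                refine Nat.mul_le_mul_right _ ?_
                omega
        _ = D ^ (m + 1) := by ring
    have h7 : q * (𝓡.filter (fun p' => ∀ m, x ≤ m → m ≤ x + 1 → ex l p' m = ex l p m)).card ≤
        q * (R s).card + q * (ζ' * (K * D) ^ m) := by
      rw [← mul_add]
      refine Nat.mul_le_mul_left _ (h5.trans ?_)
      exact Nat.add_le_add_left h4 _
    have h8 : 2 * q * (R s).card = 2 * (q * (R s).card) := by ring
    omega
  have h2 : ∀ s ∈ S, ∀ p ∈ R s, π p ∈ 𝒯 := by
    intro s _ p hp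
    obtain ⟨h3, _, h4, _⟩ := Finset.mem_filter.mp hp
    refine Finset.mem_filter.mpr ⟨Finset.mem_univ _, ?_, ?_⟩
    · rw [hπex p 0 (Nat.zero_le _)]
      exact h4
    · intro i hi
      rw [hπex p i hi.le, hπex p (i + 1) hi]
      exact adj_of hR h3 (x + 1 + i) (by omega)
  have hN : 𝒯.card ≤ (K * D) ^ d := by
    have h5 := pin G D K d hG {0} ⟨0, by simp⟩ (by
        intro j hj
        rw [Finset.mem_singleton.mp hj]
        exact Nat.zero_le _) (fun _ => w) 𝒯
      (fun τ hτ => (Finset.mem_filter.mp hτ).2.2) (by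
        intro τ hτ j hj
        rw [Finset.mem_singleton.mp hj]
        exact (Finset.mem_filter.mp hτ).2.1)
    rw [Finset.card_singleton] at h5
    exact h5
  have hagree : ∀ p t, π p = t → ∀ j, x + 1 ≤ j → j ≤ x + 1 + d → ex l p j = ex d t (j - (x + 1)) := by
    intro p t hpt j hj1 hj2
    rw [← hpt, hπex p _ (by omega)]
    congr 1
    omega
  have hU : ∀ s ∈ S, ∀ t ∈ 𝒯, ((R s).filter (fun p => π p = t)).card ≤
      (K * D) ^ (l - 1 - d) := by
    intro s _ t _
    have h5 := pin G D K l hG (Finset.Icc x (x + 1 + d)) ⟨x, by simp; omega⟩ (by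
        intro j hj
        have := (Finset.mem_Icc.mp hj).2
        omega) (fun j => if j = x then s else ex d t (j - (x + 1)))
      ((R s).filter (fun p => π p = t))
      (fun p' hp' i hi => adj_of hR
        (Finset.mem_filter.mp (Finset.mem_filter.mp hp').1).1 i hi) (by
        intro p' hp' j hj
        obtain ⟨h6, h7⟩ := Finset.mem_filter.mp hp'
        obtain ⟨_, h8, _, _⟩ := Finset.mem_filter.mp h6
        obtain ⟨h9, h10⟩ := Finset.mem_Icc.mp hj
        by_cases h11 : j = x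
        · rw [if_pos h11, h11]
          exact h8
        · rw [if_neg h11]
          exact hagree p' t h7 j (by omega) h10)
    rw [Nat.card_Icc] at h5
    have e2 : l + 1 - (x + 1 + d + 1 - x) = l - 1 - d := by omega
    rw [e2] at h5
    exact h5
  obtain ⟨t, ht, hmain⟩ := avg S hS0 R π 𝒯 (D ^ (l - 1)) (2 * q) ((K * D) ^ d)
    ((K * D) ^ (l - 1 - d)) (Nat.pow_pos hDpos) h1 h2 hN hU
  set S' := S.filter (fun s => D ^ (l - 1) ≤ 2 * (2 * q) * (K * D) ^ d *
    ((R s).filter (fun p => π p = t)).card) with hS'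
  have hcard : S.card ≤ 4 * q * K ^ (l - 1) * S'.card := by
    have e3 : 2 * (2 * q) * (K * D) ^ d * (K * D) ^ (l - 1 - d) * S'.card =
        (4 * q * K ^ (l - 1) * S'.card) * D ^ (l - 1) := by
      have e4 : (K * D) ^ d * (K * D) ^ (l - 1 - d) = K ^ (l - 1) * D ^ (l - 1) := by
        rw [← pow_add, ← mul_pow]
        congr 1
        omega
      calc 2 * (2 * q) * (K * D) ^ d * (K * D) ^ (l - 1 - d) * S'.card
          = 4 * q * ((K * D) ^ d * (K * D) ^ (l - 1 - d)) * S'.card := by ring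
        _ = _ := by rw [e4]; ring
    rw [e3] at hmain
    exact Nat.le_of_mul_le_mul_right hmain (Nat.pow_pos hDpos)
  -- members of X s for s in S'
  have hbig : ∀ s ∈ S', ∀ Z' : Finset V, Z'.card ≤ ζ' → ∃ p ∈ (R s).filter (fun p => π p = t),
      ∀ j, j ≤ l → (j < x ∨ x + 1 + d < j) → ex l p j ∉ Z' := by
    intro s hs Z' hZ'
    obtain ⟨_, hs2⟩ := Finset.mem_filter.mp hs
    by_contra hcon
    push Not at hcon
    have hsub : (R s).filter (fun p => π p = t) ⊆ ((Finset.range (l + 1)).filter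
        (fun j => j < x ∨ x + 1 + d < j)).biUnion (fun j => Z'.biUnion (fun z =>
          ((R s).filter (fun p => π p = t)).filter (fun p => ex l p j = z))) := by
      intro p hp
      obtain ⟨j, hj1, hj2, hj3⟩ := hcon p hp
      exact Finset.mem_biUnion.mpr ⟨j, Finset.mem_filter.mpr ⟨Finset.mem_range.mpr (by omega),
        hj2⟩, Finset.mem_biUnion.mpr ⟨_, hj3, Finset.mem_filter.mpr ⟨hp, rfl⟩⟩⟩
    have hcard2 : ((R s).filter (fun p => π p = t)).card ≤
        (l + 1) * (ζ' * (K * D) ^ (m - d)) := by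
      refine (Finset.card_le_card hsub).trans ?_
      refine (Finset.card_biUnion_le_card_mul _ _ (ζ' * (K * D) ^ (m - d)) ?_).trans ?_
      · intro j hj
        obtain ⟨hj1, hj2⟩ := Finset.mem_filter.mp hj
        have hj3 := Finset.mem_range.mp hj1
        refine (Finset.card_biUnion_le_card_mul _ _ ((K * D) ^ (m - d)) fun z _ => ?_).trans
          (Nat.mul_le_mul_right _ hZ')
        have h5 := pin G D K l hG (insert j (Finset.Icc x (x + 1 + d))) ⟨j, by simp⟩ (by
            intro j' hj'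
            rcases Finset.mem_insert.mp hj' with h6 | h6
            · omega
            · have := (Finset.mem_Icc.mp h6).2
              omega) (fun j' => if j' = j then z else if j' = x then s else
                ex d t (j' - (x + 1)))
          (((R s).filter (fun p => π p = t)).filter (fun p => ex l p j = z))
          (fun p' hp' i hi => adj_of hR (Finset.mem_filter.mp
            (Finset.mem_filter.mp (Finset.mem_filter.mp hp').1).1).1 i hi) (by
            intro p' hp' j' hj'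
            obtain ⟨h6, h6'⟩ := Finset.mem_filter.mp hp'
            obtain ⟨h6, h7⟩ := Finset.mem_filter.mp h6
            obtain ⟨_, h8, _, _⟩ := Finset.mem_filter.mp h6
            by_cases h12 : j' = j
            · rw [if_pos h12, h12]
              exact h6'
            rw [if_neg h12]
            have hj4 : j' ∈ Finset.Icc x (x + 1 + d) := by
              rcases Finset.mem_insert.mp hj' with h13 | h13
              · exact absurd h13 h12
              · exact h13
            obtain ⟨h9, h10⟩ := Finset.mem_Icc.mp hj4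
            by_cases h11 : j' = x
            · rw [if_pos h11, h11]
              exact h8
            · rw [if_neg h11]
              exact hagree p' t h7 j' (by omega) h10)
        rw [Finset.card_insert_of_notMem (by
          intro h13
          obtain ⟨h9, h10⟩ := Finset.mem_Icc.mp h13
          omega), Nat.card_Icc] at h5
        have e2 : l + 1 - (x + 1 + d + 1 - x + 1) = m - d := by omega
        rw [e2] at h5
        exact h5
      · refine Nat.mul_le_mul_right _ ?_
        refine (Finset.card_filter_le _ _).trans ?_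
        rw [Finset.card_range]
    have h6 : D ^ (l - 1) ≤ 2 * (2 * q) * (K * D) ^ d * ((l + 1) * (ζ' * (K * D) ^ (m - d))) :=
      hs2.trans (Nat.mul_le_mul_left _ hcard2)
    have e4 : (K * D) ^ d * (K * D) ^ (m - d) = K ^ m * D ^ m := by
      rw [← pow_add, ← mul_pow]
      congr 1
      omega
    have e5 : 2 * (2 * q) * (K * D) ^ d * ((l + 1) * (ζ' * (K * D) ^ (m - d))) =
        (4 * q * K ^ (l - 2) * (l + 1) * ζ') * D ^ m := by
      rw [hm2]
      calc 2 * (2 * q) * (K * D) ^ d * ((l + 1) * (ζ' * (K * D) ^ (m - d)))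
          = 4 * q * (l + 1) * ζ' * ((K * D) ^ d * (K * D) ^ (m - d)) := by ring
        _ = _ := by rw [e4]; ring
    rw [e5, hm1] at h6
    have h7 : (4 * q * K ^ (l - 2) * (l + 1) * ζ') * D ^ m < D * D ^ m :=
      Nat.mul_lt_mul_of_pos_right hD (Nat.pow_pos hDpos)
    have h8 : D * D ^ m = D ^ (m + 1) := by ring
    omega
  have hS'ne : S'.Nonempty := by
    rw [← Finset.card_pos]
    rcases Nat.eq_zero_or_pos S'.card with h3 | h3
    · rw [h3] at hcard
      have := Finset.card_pos.mpr hS0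
      omega
    · exact h3
  refine ⟨ex d t d, ?_, S', Finset.filter_subset _ _, hcard, ?_⟩
  · obtain ⟨s, hs⟩ := hS'ne
    obtain ⟨p, hp, _⟩ := hbig s hs ∅ (by simp)
    obtain ⟨h3, h4⟩ := Finset.mem_filter.mp hp
    obtain ⟨_, _, _, h5⟩ := Finset.mem_filter.mp h3
    have h6 := hagree p t h4 (x + 1 + d) (by omega) le_rfl
    have e6 : x + 1 + d - (x + 1) = d := by omega
    rw [e6] at h6
    rw [← h6]
    exact h5
  · intro s hs Z' hZ'
    obtain ⟨p, hp, hp2⟩ := hbig s hs Z' hZ'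
    obtain ⟨h3, h4⟩ := Finset.mem_filter.mp hp
    obtain ⟨h7, h8, h9, _⟩ := Finset.mem_filter.mp h3
    have h6 := hagree p t h4 (x + 1 + d) (by omega) le_rfl
    have e6 : x + 1 + d - (x + 1) = d := by omega
    rw [e6] at h6
    exact ⟨p, h7, h8, h9, h6, hp2⟩

/-- from the choice of a new vertex and a large subset to disjoint paths -/
lemma fin (m C ζ ζ' : ℕ) (hC : 0 < C) (hζ : 2 * ζ + 1 + ζ * (m + 1) ≤ ζ')
    (hV : 2 * ζ < Fintype.card V) (A : V → (ℕ → V) → Prop)
    (S Z : Finset V) (n' : ℕ) (hn : C * n' ≤ S.card) (hS : S.card ≤ ζ) (hZ : Z.card ≤ ζ)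
    (H : S.Nonempty → ∀ Z0 : Finset V, Z0.card ≤ ζ' → ∃ v, v ∉ Z0 ∧ ∃ S' ⊆ S,
      S.card ≤ C * S'.card ∧ ∀ s ∈ S', ∀ Z' : Finset V, Z'.card ≤ ζ' → ∃ P : ℕ → V, P 0 = s ∧
        A v P ∧ (∀ i, 1 ≤ i → i ≤ m → P i ∉ Z') ∧
        ∀ i i', i ≤ m → i' ≤ m → P i = P i' → i = i') :
    ∃ v, v ∉ Z ∧ v ∉ S ∧ ∃ P : Fin n' → ℕ → V,
      (∀ j, P j 0 ∈ S ∧ A v (P j) ∧
        ∀ i, 1 ≤ i → i ≤ m → P j i ∉ Z ∧ P j i ∉ S ∧ P j i ≠ v) ∧
      ∀ j j' i i', i ≤ m → i' ≤ m → P j i = P j' i' → j = j' ∧ i = i' := by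
  have hZS : (Z ∪ S).card ≤ 2 * ζ := by
    have := Finset.card_union_le Z S
    omega
  rcases S.eq_empty_or_nonempty with h0 | h0
  · have hn0 : n' = 0 := by
      rw [h0, Finset.card_empty] at hn
      rcases Nat.eq_zero_or_pos n' with h | h
      · exact h
      · have := Nat.mul_pos hC h
        omega
    obtain ⟨v, hv⟩ : ∃ v, v ∉ Z ∪ S := by
      by_contra hcon
      push Not at hcon
      have h1 : Fintype.card V ≤ (Z ∪ S).card := by
        rw [← Finset.card_univ]
        exact Finset.card_le_card (fun v _ => hcon v)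
      omega
    rw [Finset.notMem_union] at hv
    subst hn0
    exact ⟨v, hv.1, hv.2, fun j => j.elim0, fun j => j.elim0, fun j => j.elim0⟩
  · obtain ⟨v, hv, S', hS', hc, hmain⟩ := H h0 (Z ∪ S) (by omega)
    rw [Finset.notMem_union] at hv
    have hn1 : n' ≤ S'.card := Nat.le_of_mul_le_mul_left (hn.trans hc) hC
    have hn2 : n' ≤ ζ := by
      have : 1 * n' ≤ C * n' := Nat.mul_le_mul_right _ hC
      omega
    have hn3 : n' * (m + 1) ≤ ζ * (m + 1) := Nat.mul_le_mul_right _ hn2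
    have hins : (insert v (Z ∪ S)).card ≤ (Z ∪ S).card + 1 := Finset.card_insert_le _ _
    obtain ⟨P, hP1, hP2⟩ := greedy (fun _ P => A v P) m ζ' n' S' (insert v (Z ∪ S)) hmain
      (fun s hs => Finset.mem_insert_of_mem (Finset.mem_union_right _ (hS' hs))) hn1 (by omega)
    refine ⟨v, hv.1, hv.2, P, fun j => ⟨hS' (hP1 j).1, (hP1 j).2.1, fun i hi hi' => ?_⟩, hP2⟩
    have h1 := (hP1 j).2.2 i hi hi'
    rw [Finset.mem_insert, not_or, Finset.notMem_union] at h1
    exact ⟨h1.2.1, h1.2.2, h1.1⟩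

/-- an edge at the end of a path -/
lemma bldE (G : SimpleGraph V) (B : ℕ → V → V → Prop) (l q D M' k : ℕ) (hl : 4 ≤ l)
    (hk : 1 ≤ k) (𝓡 : Finset (Fin (l + 1) → V)) (hR : RSt G B l q D M' 𝓡) (Z' : Finset V)
    (p : Fin (l + 1) → V) (hp : p ∈ 𝓡) (P0 : ℕ → V) (h0 : P0 0 = ex l p 0)
    (h1 : P0 k = ex l p l) (h2 : ∀ i, i < k → G.Adj (P0 i) (P0 (i + 1)))
    (h3 : ∀ i, 1 ≤ i → i < k → P0 i ∉ insert (ex l p (l - 1)) Z')
    (h4 : ∀ i i', i ≤ k → i' ≤ k → P0 i = P0 i' → i = i') (h5 : ex l p l ∉ Z') :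
    ∃ P : ℕ → V, P 0 = ex l p 0 ∧ P (k + 1) = ex l p (l - 1) ∧
      (∀ i, i ≤ k → G.Adj (P i) (P (i + 1))) ∧ (∀ i, 1 ≤ i → i ≤ k → P i ∉ Z') ∧
      ∀ i i', i ≤ k + 1 → i' ≤ k + 1 → P i = P i' → i = i' := by
  have hP : ∀ i, i ≤ k → (if i ≤ k then P0 i else ex l p (l - 1)) = P0 i :=
    fun i hi => if_pos hi
  have hP' : (if k + 1 ≤ k then P0 (k + 1) else ex l p (l - 1)) = ex l p (l - 1) :=
    if_neg (by omega)
  have hx : ∀ i, i ≤ k → P0 i = ex l p (l - 1) → False := by
    intro i hi he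
    rcases Nat.eq_zero_or_pos i with h | h
    · subst h
      rw [h0] at he
      have := inj_of hR hp 0 (l - 1) (by omega) (by omega) he
      omega
    · rcases Nat.lt_or_ge i k with h' | h'
      · exact h3 i h h' (he ▸ Finset.mem_insert_self _ _)
      · have : i = k := by omega
        subst this
        rw [h1] at he
        have := inj_of hR hp l (l - 1) (by omega) (by omega) he
        omega
  refine ⟨fun i => if i ≤ k then P0 i else ex l p (l - 1), ?_, hP', ?_, ?_, ?_⟩
  · show (if 0 ≤ k then P0 0 else ex l p (l - 1)) = ex l p 0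
    rw [hP 0 (Nat.zero_le _)]
    exact h0
  · intro i hi
    show G.Adj (if i ≤ k then P0 i else ex l p (l - 1))
      (if i + 1 ≤ k then P0 (i + 1) else ex l p (l - 1))
    rw [hP i hi]
    rcases Nat.lt_or_ge i k with h | h
    · rw [hP (i + 1) h]
      exact h2 i h
    · have : i = k := by omega
      subst this
      rw [hP', h1]
      have h6 := adj_of hR hp (l - 1) (by omega)
      have e : l - 1 + 1 = l := by omega
      rw [e] at h6
      exact h6.symm
  · intro i hi hi'
    show (if i ≤ k then P0 i else ex l p (l - 1)) ∉ Z'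
    rw [hP i hi']
    rcases Nat.lt_or_ge i k with h | h
    · exact fun hc => h3 i hi h (Finset.mem_insert_of_mem hc)
    · have : i = k := by omega
      subst this
      rw [h1]
      exact h5
  · intro i i' hi hi' he
    change (if i ≤ k then P0 i else ex l p (l - 1)) =
      (if i' ≤ k then P0 i' else ex l p (l - 1)) at he
    rcases Nat.lt_or_ge k i with h | h
    · have e : i = k + 1 := by omega
      subst e
      rw [hP'] at he
      rcases Nat.lt_or_ge k i' with h' | h'
      · omega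
      · rw [hP i' h'] at he
        exact (hx i' h' he.symm).elim
    · rw [hP i h] at he
      rcases Nat.lt_or_ge k i' with h' | h'
      · have e : i' = k + 1 := by omega
        subst e
        rw [hP'] at he
        exact (hx i h he).elim
      · rw [hP i' h'] at he
        exact h4 i i' h h' he

/-- an edge at the start of a path -/
lemma bldO (G : SimpleGraph V) (B : ℕ → V → V → Prop) (l q D M' k : ℕ) (hl : 4 ≤ l)
    (hk : 1 ≤ k) (𝓡 : Finset (Fin (l + 1) → V)) (hR : RSt G B l q D M' 𝓡) (Z' : Finset V)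
    (p : Fin (l + 1) → V) (hp : p ∈ 𝓡) (P0 : ℕ → V) (h0 : P0 0 = ex l p 0)
    (h1 : P0 k = ex l p l) (h2 : ∀ i, i < k → G.Adj (P0 i) (P0 (i + 1)))
    (h3 : ∀ i, 1 ≤ i → i < k → P0 i ∉ insert (ex l p 1) Z')
    (h4 : ∀ i i', i ≤ k → i' ≤ k → P0 i = P0 i' → i = i') (h5 : ex l p 0 ∉ Z') :
    ∃ P : ℕ → V, P 0 = ex l p 1 ∧ P (k + 1) = ex l p l ∧
      (∀ i, i ≤ k → G.Adj (P i) (P (i + 1))) ∧ (∀ i, 1 ≤ i → i ≤ k → P i ∉ Z') ∧
      ∀ i i', i ≤ k + 1 → i' ≤ k + 1 → P i = P i' → i = i' := by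
  have hP : ∀ i, (if i + 1 = 0 then ex l p 1 else P0 (i + 1 - 1)) = P0 i := by
    intro i
    rw [if_neg (by omega), Nat.add_sub_cancel]
  have hx : ∀ i, i ≤ k → P0 i = ex l p 1 → False := by
    intro i hi he
    rcases Nat.eq_zero_or_pos i with h | h
    · subst h
      rw [h0] at he
      have := inj_of hR hp 0 1 (by omega) (by omega) he
      omega
    · rcases Nat.lt_or_ge i k with h' | h'
      · exact h3 i h h' (he ▸ Finset.mem_insert_self _ _)
      · have : i = k := by omega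
        subst this
        rw [h1] at he
        have := inj_of hR hp l 1 (by omega) (by omega) he
        omega
  refine ⟨fun i => if i = 0 then ex l p 1 else P0 (i - 1), if_pos rfl, ?_, ?_, ?_, ?_⟩
  · show (if k + 1 = 0 then ex l p 1 else P0 (k + 1 - 1)) = ex l p l
    rw [hP k]
    exact h1
  · intro i hi
    show G.Adj (if i = 0 then ex l p 1 else P0 (i - 1))
      (if i + 1 = 0 then ex l p 1 else P0 (i + 1 - 1))
    rw [hP i]
    rcases Nat.eq_zero_or_pos i with h | h
    · subst h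
      rw [if_pos rfl, h0]
      exact (adj_of hR hp 0 (by omega)).symm
    · obtain ⟨j, rfl⟩ : ∃ j, i = j + 1 := ⟨i - 1, by omega⟩
      rw [hP j]
      exact h2 j (by omega)
  · intro i hi hi'
    show (if i = 0 then ex l p 1 else P0 (i - 1)) ∉ Z'
    obtain ⟨j, rfl⟩ : ∃ j, i = j + 1 := ⟨i - 1, by omega⟩
    rw [hP j]
    rcases Nat.eq_zero_or_pos j with h | h
    · subst h
      rw [h0]
      exact h5
    · exact fun hc => h3 j h (by omega) (Finset.mem_insert_of_mem hc)
  · intro i i' hi hi' he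
    change (if i = 0 then ex l p 1 else P0 (i - 1)) =
      (if i' = 0 then ex l p 1 else P0 (i' - 1)) at he
    rcases Nat.eq_zero_or_pos i with h | h
    · subst h
      rw [if_pos rfl] at he
      rcases Nat.eq_zero_or_pos i' with h' | h'
      · omega
      · rw [if_neg (by omega)] at he
        exact (hx (i' - 1) (by omega) he.symm).elim
    · rw [if_neg (show ¬ i = 0 by omega)] at he
      rcases Nat.eq_zero_or_pos i' with h' | h'
      · rw [if_pos h'] at he
        exact (hx (i - 1) (by omega) he).elim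
      · rw [if_neg (show ¬ i' = 0 by omega)] at he
        have := h4 (i - 1) (i' - 1) (by omega) (by omega) he
        omega

/-- s is a possible centre with root w -/
def Bdd (l : ℕ) (𝓡 : Finset (Fin (l + 1) → V)) (a : Bool) (w s : V) : Prop :=
  ∃ p ∈ 𝓡, ex l p a.toNat = s ∧ ex l p (a.toNat + 1) = w

lemma moves (G : SimpleGraph V) (B : ℕ → V → V → Prop) (l q D K M' ζ ζ' k : ℕ) (hG : AR G D K)
    (hq : 0 < q) (hK : 0 < K) (hl : 4 ≤ l) (hk : 1 ≤ k)
    (𝓡 : Finset (Fin (l + 1) → V)) (hR : RSt G B l q D M' 𝓡)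
    (hD : 4 * q * K ^ (l - 2) * (l + 1) * ζ' < D) (hζ : 2 * ζ + 1 + ζ * (k + 2) ≤ ζ')
    (hV : 2 * ζ < Fintype.card V)
    (hE : ∀ p ∈ 𝓡, ∀ Z : Finset V, Z.card ≤ ζ' + 1 → ∃ P : ℕ → V, P 0 = ex l p 0 ∧
      P k = ex l p l ∧ (∀ i, i < k → G.Adj (P i) (P (i + 1))) ∧
      (∀ i, 1 ≤ i → i < k → P i ∉ Z) ∧ ∀ i i', i ≤ k → i' ≤ k → P i = P i' → i = i') :
    Mv G k (4 * q * K ^ (l - 1)) ζ Bool (Bdd l 𝓡) (fun _ _ => True) := by
  have hC : 0 < 4 * q * K ^ (l - 1) := by positivity
  have hins : ∀ (v : V) (Z' : Finset V), Z'.card ≤ ζ' → (insert v Z').card ≤ ζ' + 1 := by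
    intro v Z' h
    have := Finset.card_insert_le v Z'
    omega
  have hζ1 : 2 * ζ + 1 + ζ * (k + 1) ≤ ζ' := by
    have : ζ * (k + 1) ≤ ζ * (k + 2) := Nat.mul_le_mul_left _ (by omega)
    omega
  have e1 : l - 1 + 1 = l := by omega
  refine ⟨?_, ?_, ?_⟩
  · rintro a w s ⟨p, hp, rfl, rfl⟩
    refine (adj_of hR hp a.toNat ?_).symm
    have := Bool.toNat_le a
    omega
  · intro n a _ w S Z n' hS _ hn hSc hZc
    have hmain := fin k (4 * q * K ^ (l - 1)) ζ ζ' hC hζ1 hV (fun v P => P (k + 1) = v ∧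
      ∀ i, i ≤ k → G.Adj (P i) (P (i + 1))) S Z n' hn hSc hZc (by
        intro hne Z0 hZ0
        cases a with
        | false =>
          obtain ⟨v, hv, S', hS', hc, hX⟩ := hub G B l q D K M' ζ' 0 (l - 2) hG 𝓡 hR (by omega)
            (by omega) (by omega) hD w S Z0 hS hne hZ0
          refine ⟨v, hv, S', hS', hc, fun s hs Z' hZ' => ?_⟩
          obtain ⟨p, hp, hp0, hp1, hp2, hp3⟩ := hX s hs Z' hZ'
          have e2 : 0 + 1 + (l - 2) = l - 1 := by omega
          rw [e2] at hp2 hp3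
          obtain ⟨P0, a0, a1, a2, a3, a4⟩ := hE p hp (insert (ex l p (l - 1)) Z') (hins _ _ hZ')
          obtain ⟨P, b0, b1, b2, b3, b4⟩ := bldE G B l q D M' k hl hk 𝓡 hR Z' p hp P0 a0 a1 a2 a3
            a4 (hp3 l le_rfl (Or.inr (by omega)))
          exact ⟨P, b0.trans hp0, ⟨b1.trans hp2, b2⟩, b3,
            fun i i' hi hi' => b4 i i' (by omega) (by omega)⟩
        | true =>
          obtain ⟨v, hv, S', hS', hc, hX⟩ := hub G B l q D K M' ζ' 1 (l - 2) hG 𝓡 hR (by omega)
            (by omega) (by omega) hD w S Z0 hS hne hZ0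
          refine ⟨v, hv, S', hS', hc, fun s hs Z' hZ' => ?_⟩
          obtain ⟨p, hp, hp0, hp1, hp2, hp3⟩ := hX s hs Z' hZ'
          have e2 : 1 + 1 + (l - 2) = l := by omega
          rw [e2] at hp2 hp3
          obtain ⟨P0, a0, a1, a2, a3, a4⟩ := hE p hp (insert (ex l p 1) Z') (hins _ _ hZ')
          obtain ⟨P, b0, b1, b2, b3, b4⟩ := bldO G B l q D M' k hl hk 𝓡 hR Z' p hp P0 a0 a1 a2 a3
            a4 (hp3 0 (Nat.zero_le _) (Or.inl (by omega)))
          exact ⟨P, b0.trans hp0, ⟨b1.trans hp2, b2⟩, b3,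
            fun i i' hi hi' => b4 i i' (by omega) (by omega)⟩)
    obtain ⟨v, hv1, hv2, P, hP1, hP2⟩ := hmain
    exact ⟨v, hv1, hv2, P, fun j => ⟨(hP1 j).1, (hP1 j).2.1.1, (hP1 j).2.1.2, (hP1 j).2.2⟩, hP2⟩
  · intro n a _ w S Z n' hS _ hn hSc hZc
    have hmain := fin (k + 1) (4 * q * K ^ (l - 1)) ζ ζ' hC hζ hV
      (fun v P => Bdd l 𝓡 (!a) v (P (k + 1)) ∧
      ∀ i, i ≤ k → G.Adj (P i) (P (i + 1))) S Z n' hn hSc hZc (by
        intro hne Z0 hZ0
        cases a with
        | false =>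
          obtain ⟨v, hv, S', hS', hc, hX⟩ := hub G B l q D K M' ζ' 0 (l - 3) hG 𝓡 hR (by omega)
            (by omega) (by omega) hD w S Z0 hS hne hZ0
          refine ⟨v, hv, S', hS', hc, fun s hs Z' hZ' => ?_⟩
          obtain ⟨p, hp, hp0, hp1, hp2, hp3⟩ := hX s hs Z' hZ'
          have e2 : 0 + 1 + (l - 3) = l - 2 := by omega
          rw [e2] at hp2 hp3
          obtain ⟨P0, a0, a1, a2, a3, a4⟩ := hE p hp (insert (ex l p (l - 1)) Z') (hins _ _ hZ')
          obtain ⟨P, b0, b1, b2, b3, b4⟩ := bldE G B l q D M' k hl hk 𝓡 hR Z' p hp P0 a0 a1 a2 a3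
            a4 (hp3 l le_rfl (Or.inr (by omega)))
          refine ⟨P, b0.trans hp0, ⟨?_, b2⟩, ?_, b4⟩
          · refine ⟨fun i => p i.rev, hR.rev p hp, ?_, ?_⟩
            · show ex l (fun i => p i.rev) 1 = P (k + 1)
              rw [ex_rev l p 1 (by omega), b1]
            · show ex l (fun i => p i.rev) 2 = v
              rw [ex_rev l p 2 (by omega), hp2]
          · intro i hi hi'
            rcases Nat.lt_or_ge k i with h | h
            · have : i = k + 1 := by omega
              rw [this, b1]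
              exact hp3 (l - 1) (by omega) (Or.inr (by omega))
            · exact b3 i hi h
        | true =>
          obtain ⟨v, hv, S', hS', hc, hX⟩ := hub G B l q D K M' ζ' 1 (l - 3) hG 𝓡 hR (by omega)
            (by omega) (by omega) hD w S Z0 hS hne hZ0
          refine ⟨v, hv, S', hS', hc, fun s hs Z' hZ' => ?_⟩
          obtain ⟨p, hp, hp0, hp1, hp2, hp3⟩ := hX s hs Z' hZ'
          have e2 : 1 + 1 + (l - 3) = l - 1 := by omega
          rw [e2] at hp2 hp3
          obtain ⟨P0, a0, a1, a2, a3, a4⟩ := hE p hp (insert (ex l p 1) Z') (hins _ _ hZ')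
          obtain ⟨P, b0, b1, b2, b3, b4⟩ := bldO G B l q D M' k hl hk 𝓡 hR Z' p hp P0 a0 a1 a2 a3
            a4 (hp3 0 (Nat.zero_le _) (Or.inl (by omega)))
          refine ⟨P, b0.trans hp0, ⟨?_, b2⟩, ?_, b4⟩
          · refine ⟨fun i => p i.rev, hR.rev p hp, ?_, ?_⟩
            · show ex l (fun i => p i.rev) 0 = P (k + 1)
              rw [ex_rev l p 0 (by omega), b1]
              rfl
            · show ex l (fun i => p i.rev) 1 = v
              rw [ex_rev l p 1 (by omega), hp2]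
          · intro i hi hi'
            rcases Nat.lt_or_ge k i with h | h
            · have : i = k + 1 := by omega
              rw [this, b1]
              exact hp3 l le_rfl (Or.inr (by omega))
            · exact b3 i hi h)
    obtain ⟨v, hv1, hv2, P, hP1, hP2⟩ := hmain
    exact ⟨!a, trivial, v, hv1, hv2, P,
      fun j => ⟨(hP1 j).1, (hP1 j).2.1.1, (hP1 j).2.1.2, (hP1 j).2.2⟩, hP2⟩

/-- many possible centres around one root -/
lemma init (G : SimpleGraph V) (B : ℕ → V → V → Prop) (l q D K M' ζ : ℕ) (hG : AR G D K)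
    (hq : 0 < q) (hK : 0 < K) (hDpos : 0 < D) (hl : 2 ≤ l) (𝓡 : Finset (Fin (l + 1) → V))
    (hR : RSt G B l q D M' 𝓡) (hD : q * K ^ (l - 1) * ζ ≤ D) :
    ∃ w, ζ ≤ (Finset.univ.filter (fun s => Bdd l 𝓡 false w s)).card := by
  obtain ⟨p, hp⟩ := hR.ne
  refine ⟨ex l p 1, ?_⟩
  set w := ex l p 1 with hw
  set S1 := Finset.univ.filter (fun s => Bdd l 𝓡 false w s) with hS1
  have h3 := hR.cls p hp 1 1 le_rfl (by omega)
  have e0 : l - (1 - 1) = l := by omega
  rw [e0] at h3
  have hsub : ∀ F : Finset (Fin (l + 1) → V), (∀ p' ∈ F, p' ∈ 𝓡 ∧ ex l p' 1 = w) →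
      F ⊆ S1.biUnion (fun s => 𝓡.filter (fun p' => ex l p' 0 = s ∧ ex l p' 1 = w)) := by
    intro F hF p' hp'
    obtain ⟨h4, h6⟩ := hF p' hp'
    exact Finset.mem_biUnion.mpr ⟨ex l p' 0, Finset.mem_filter.mpr ⟨Finset.mem_univ _,
      ⟨p', h4, rfl, h6⟩⟩, Finset.mem_filter.mpr ⟨h4, rfl, h6⟩⟩
  have h5 : (S1.biUnion (fun s => 𝓡.filter (fun p' => ex l p' 0 = s ∧ ex l p' 1 = w))).card ≤
      S1.card * (K * D) ^ (l - 1) := by
    refine Finset.card_biUnion_le_card_mul _ _ _ fun s _ => ?_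
    have h6 := pin G D K l hG {0, 1} ⟨0, by simp⟩ (by
        intro j hj
        simp only [Finset.mem_insert, Finset.mem_singleton] at hj
        omega) (fun j => if j = 0 then s else w)
      (𝓡.filter (fun p' => ex l p' 0 = s ∧ ex l p' 1 = w))
      (fun p' hp' i hi => adj_of hR (Finset.mem_filter.mp hp').1 i hi) (by
        intro p' hp' j hj
        obtain ⟨_, h7, h8⟩ := Finset.mem_filter.mp hp'
        simp only [Finset.mem_insert, Finset.mem_singleton] at hj
        rcases hj with rfl | rfl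
        · rw [if_pos rfl]
          exact h7
        · rw [if_neg (by omega)]
          exact h8)
    have hc : ({0, 1} : Finset ℕ).card = 2 := rfl
    rw [hc] at h6
    have e2 : l + 1 - 2 = l - 1 := by omega
    rw [e2] at h6
    exact h6
  obtain ⟨m, hm⟩ : ∃ m, l = m + 1 := ⟨l - 1, by omega⟩
  have e3 : l - 1 = m := by omega
  rw [e3] at h5 hD
  have h6 : D * D ^ m ≤ (q * K ^ m * S1.card) * D ^ m := by
    calc D * D ^ m = D ^ l := by rw [hm]; ring
      _ ≤ q * (S1.card * (K * D) ^ m) := by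
          refine h3.trans (Nat.mul_le_mul_left _ ((Finset.card_le_card (hsub _ ?_)).trans h5))
          intro p' hp'
          obtain ⟨h4, h6⟩ := Finset.mem_filter.mp hp'
          exact ⟨h4, h6 1 le_rfl le_rfl⟩
      _ = (q * K ^ m * S1.card) * D ^ m := by rw [mul_pow]; ring
  have h7 : D ≤ q * K ^ m * S1.card := Nat.le_of_mul_le_mul_right h6 (Nat.pow_pos hDpos)
  exact Nat.le_of_mul_le_mul_left (hD.trans h7) (by positivity)

end Pool.Agent.TH476.KK.KMvO

namespace Pool.Agent.TH476.KK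

open Pool.Agent.TH476

theorem mvO_holds : S_RST → S_EXT → ∀ k l, 4 ≤ l → l ≤ k → (k + 1 - l) % 2 = 1 → S_MV k l := by
  intro hRST hEXT k l hl hlk hpar K Q hK hQ
  obtain ⟨q, hq, hq2⟩ := hRST l K Q (by omega) hK hQ
  obtain ⟨t, ht⟩ : ∃ t, k = l + 2 * t := ⟨(k - l) / 2, by omega⟩
  refine ⟨4 * q * K ^ (l - 1), by positivity, ?_⟩
  intro F0 ζ
  obtain ⟨ζ', hζ'⟩ : ∃ ζ', ζ' = 2 * ζ + 1 + ζ * (k + 2) := ⟨_, rfl⟩
  obtain ⟨M', D0, hD0⟩ := hEXT l q F0 (ζ' + 1) t (by omega) hq
  obtain ⟨M, hM⟩ := hq2 M'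
  refine ⟨M, D0 + 4 * q * K ^ (l - 2) * (l + 1) * ζ' + 1 + 2 * ζ + 1 + q * K ^ (l - 1) * ζ, ?_⟩
  intro V _ _ G D B hG hD hB hRich hBN hcnt
  obtain ⟨𝓡, hR⟩ := hM V G D B hG (by omega) hB hRich hcnt
  have hV : 2 * ζ < Fintype.card V := by
    obtain ⟨v⟩ := (inferInstance : Nonempty V)
    have h1 := hG.lo v
    have h2 : (nb G v).card ≤ Fintype.card V := Finset.card_le_univ _
    omega
  refine ⟨Bool, KMvO.Bdd l 𝓡, fun _ _ => True, ?_, ?_⟩
  · refine KMvO.moves G B l q D K M' ζ ζ' k hG hq hK hl (by omega) 𝓡 hR (by omega) (by omega) hV ?_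
    intro p hp Z hZ
    obtain ⟨P, h1, h2, h3, h4, h5⟩ := hD0 V G D B 𝓡 hB hBN (by omega) hR p hp Z hZ
    rw [← ht] at h2 h3 h4 h5
    exact ⟨P, h1, h2, h3, h4, h5⟩
  · intro n _ n0 hn0
    obtain ⟨w, hw⟩ := KMvO.init G B l q D K M' ζ hG hq hK (by omega) (by omega) 𝓡 hR (by omega)
    obtain ⟨S, hS1, hS2⟩ := Finset.exists_subset_card_eq (hn0.trans hw)
    have hS3 : ∀ s ∈ S, KMvO.Bdd l 𝓡 false w s := fun s hs => (Finset.mem_filter.mp (hS1 hs)).2
    refine ⟨false, w, S, trivial, hS2, ?_, hS3⟩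
    intro hwS
    obtain ⟨p, hp, h1, h2⟩ := hS3 w hwS
    have h3 := KMvO.adj_of hR hp 0 (by omega)
    have h1' : ex l p 0 = w := h1
    have h2' : ex l p (0 + 1) = w := h2
    rw [h1', h2'] at h3
    exact h3.ne rfl

end Pool.Agent.TH476.KK
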