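import Pool.Agent.TH476.KStm2

/-!
# Pruning layered relations and dense host relations
-/

set_option autoImplicit false

open Classical

namespace Pool.Agent.TH476.KK

open Pool.Agent.TH476

namespace KPrn

/-- extremal subsets: every value which occurs in a projection has a large fibre -/
lemma extremal {α β J : Type} [Fintype J] (A : Finset α) (f : J → α → β) (q0 c : ℕ) :
    ∃ S : Finset α, S ⊆ A ∧
      (∀ j, ∀ p ∈ S, c ≤ q0 * (S.filter (fun p' => f j p' = f j p)).card) ∧
      q0 * A.card ≤ q0 * S.card + c * ∑ j, (A.image (f j)).card := by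
  obtain ⟨S, hS, hmax⟩ := Finset.exists_max_image A.powerset
    (fun S : Finset α => ((q0 * S.card : ℕ) : ℤ) - ((c * ∑ j, (S.image (f j)).card : ℕ) : ℤ))
    ⟨∅, Finset.empty_mem_powerset _⟩
  rw [Finset.mem_powerset] at hS
  refine ⟨S, hS, ?_, ?_⟩
  · intro j p hp
    obtain ⟨T, hT⟩ : ∃ T, T = S.filter (fun p' => f j p' = f j p) := ⟨_, rfl⟩
    have hTS : T ⊆ S := by rw [hT]; exact Finset.filter_subset _ _
    have h1 := hmax (S \ T) (Finset.mem_powerset.mpr (Finset.sdiff_subset.trans hS))
    have h2 : (S \ T).card + T.card = S.card := Finset.card_sdiff_add_card_eq_card hTS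
    have h3 : (∑ i, ((S \ T).image (f i)).card) + 1 ≤ ∑ i, (S.image (f i)).card := by
      rw [← Finset.add_sum_erase Finset.univ _ (Finset.mem_univ j),
        ← Finset.add_sum_erase Finset.univ (fun i => (S.image (f i)).card) (Finset.mem_univ j)]
      have h4 : ∑ i ∈ Finset.univ.erase j, ((S \ T).image (f i)).card ≤
          ∑ i ∈ Finset.univ.erase j, (S.image (f i)).card :=
        Finset.sum_le_sum fun i _ => Finset.card_le_card
          (Finset.image_subset_image Finset.sdiff_subset)
      have h5 : ((S \ T).image (f j)).card + 1 ≤ (S.image (f j)).card := by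
        have h6 : f j p ∉ (S \ T).image (f j) := by
          intro h
          obtain ⟨p', hp', he⟩ := Finset.mem_image.mp h
          obtain ⟨h7, h8⟩ := Finset.mem_sdiff.mp hp'
          apply h8
          rw [hT, Finset.mem_filter]
          exact ⟨h7, he⟩
        rw [← Finset.card_insert_of_notMem h6]
        apply Finset.card_le_card
        intro x hx
        rcases Finset.mem_insert.mp hx with rfl | hx
        · exact Finset.mem_image_of_mem _ hp
        · exact Finset.image_subset_image Finset.sdiff_subset hx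
      omega
    rw [← hT]
    obtain ⟨a, ha⟩ : ∃ a, a = ∑ i, ((S \ T).image (f i)).card := ⟨_, rfl⟩
    obtain ⟨b, hb⟩ : ∃ b, b = ∑ i, (S.image (f i)).card := ⟨_, rfl⟩
    rw [← ha, ← hb] at h3
    simp only [← ha, ← hb] at h1
    have h7 : q0 * S.card = q0 * (S \ T).card + q0 * T.card := by rw [← h2, Nat.mul_add]
    have h8 : c * a + c ≤ c * b := by
      have := Nat.mul_le_mul_left c h3
      rwa [Nat.mul_add, Nat.mul_one] at this
    omega
  · have h1 := hmax A (Finset.mem_powerset.mpr (Finset.Subset.refl _))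
    omega

lemma card_compl_inst {α : Type} [Fintype α] (i1 : DecidableEq α) (s : Finset α) :
    (@compl _ (@BooleanAlgebra.toCompl _ (@Finset.booleanAlgebra α _ i1)) s).card =
      Fintype.card α - s.card := by
  rw [Finset.card_compl]

lemma card_pair_inst {α : Type} (i1 : DecidableEq α) {a b : α} (h : a ≠ b) :
    (@insert _ _ (@Finset.instInsert α i1) a {b} : Finset α).card = 2 := by
  rw [Finset.card_pair h]

/-- number of functions with at least d v choices at v -/
lemma ext_univ {ι V : Type} [Fintype ι] [Fintype V] (rk : ι → ℕ) (c : ι → (ι → V) → Finset V)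
    (d : ι → ℕ) (ψ : ι → V)
    (h1 : ∀ v, ∀ φ ψ : ι → V, (∀ u, rk u < rk v → φ u = ψ u) → c v φ = c v ψ)
    (h2 : ∀ v, ∀ φ, d v ≤ (c v φ).card) (𝓢 : Finset (ι → V))
    (h3 : ∀ φ : ι → V, (∀ v, φ v ∈ c v φ) → φ ∈ 𝓢) : ∏ v, d v ≤ 𝓢.card := by
  have h := ext_ge rk c d (Fintype.card ι) ∅ ψ (by rw [Finset.compl_empty, Finset.card_univ])
    (fun v _ => h1 v) (fun v _ => h2 v)
  rw [Finset.compl_empty] at h
  refine h.trans (Finset.card_le_card fun φ hφ => h3 φ fun v => ?_)
  exact ((mem_EX c ∅ ψ φ).mp hφ).2 v (Finset.notMem_empty _)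

variable {V : Type} [Fintype V]

/-- walks in G with one prescribed vertex -/
lemma fib (k : ℕ) (G : SimpleGraph V) (D K : ℕ) (hG : AR G D K)
    (S : Finset (Fin (k + 2) → V))
    (hS : ∀ p ∈ S, ∀ i : Fin (k + 1), G.Adj (p i.castSucc) (p i.succ)) (j j' : Fin (k + 2))
    (hj : j ≠ j') (v : V) :
    (S.filter (fun p => p j = v)).card ≤
      (K * D) ^ k * ((S.filter (fun p => p j = v)).image (fun p => p j')).card := by
  have h := proj_le (SimpleGraph.pathGraph (k + 2)) (SimpleGraph.pathGraph_connected (k + 1)) G D K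
    hG {j, j'} ⟨j, by simp⟩ (S.filter (fun p => p j = v)) (by
      intro φ hφ u w huw
      have hφ' := hS φ (Finset.mem_filter.mp hφ).1
      rw [SimpleGraph.pathGraph_adj] at huw
      rcases huw with h | h
      · have := hφ' ⟨u.val, by omega⟩
        have e1 : (⟨u.val, by omega⟩ : Fin (k + 1)).castSucc = u := rfl
        have e2 : (⟨u.val, by omega⟩ : Fin (k + 1)).succ = w := by
          apply Fin.ext
          simp only [Fin.val_succ]
          exact h
        rw [e1, e2] at this
        exact this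
      · have := hφ' ⟨w.val, by omega⟩
        have e1 : (⟨w.val, by omega⟩ : Fin (k + 1)).castSucc = w := rfl
        have e2 : (⟨w.val, by omega⟩ : Fin (k + 1)).succ = u := by
          apply Fin.ext
          simp only [Fin.val_succ]
          exact h
        rw [e1, e2] at this
        exact this.symm) (fun p => p j') (by
      intro φ hφ ψ hψ he u hu
      rcases Finset.mem_insert.mp hu with rfl | hu
      · rw [(Finset.mem_filter.mp hφ).2, (Finset.mem_filter.mp hψ).2]
      · rw [Finset.mem_singleton.mp hu]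
        exact he)
  rw [card_compl_inst, Fintype.card_fin, card_pair_inst _ hj] at h
  have e : k + 2 - 2 = k := by omega
  rw [e] at h
  exact h

/-- rounding up -/
lemma ceil_le {D c x : ℕ} (hc : 0 < c) (h : D ≤ c * x) : (D + c - 1) / c ≤ x := by
  have : (D + c - 1) / c < x + 1 := by
    rw [Nat.div_lt_iff_lt_mul hc]
    have : (x + 1) * c = c * x + c := by ring
    omega
  omega

lemma le_ceil {D c : ℕ} (hc : 0 < c) : D ≤ c * ((D + c - 1) / c) := by
  have h1 := Nat.div_add_mod (D + c - 1) c
  have h2 := Nat.mod_lt (D + c - 1) hc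
  omega

end KPrn

open KPrn in
/-- pruning layered relations -/
theorem prn_holds : S_PRN := by
  intro k K hK Q hQ
  obtain ⟨q0, hq0⟩ : ∃ q0, q0 = 2 * Q * (k + 2) := ⟨_, rfl⟩
  have hq0pos : 0 < q0 := by rw [hq0]; positivity
  obtain ⟨c, hc⟩ : ∃ c, c = q0 * K ^ k := ⟨_, rfl⟩
  have hcpos : 0 < c := by rw [hc]; positivity
  have hq0c : q0 ≤ c := by
    rw [hc]
    exact Nat.le_mul_of_pos_right _ (by positivity)
  refine ⟨c, hcpos, ?_⟩
  intro V _ _ G D hG hD He R hR hWW
  obtain ⟨A, hA⟩ : ∃ A, A = Finset.univ.filter (fun p : Fin (k + 2) → V =>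
    ∀ i : Fin (k + 1), R i (p i.castSucc) (p i.succ)) := ⟨_, rfl⟩
  have hWA : WW k R = A.card := by rw [hA]; rfl
  obtain ⟨S, hSA, hS1, hS2⟩ := extremal (β := V) A (fun (j : Fin (k + 2)) p => p j) q0
    (D ^ (k + 1))
  have hRS : ∀ p ∈ S, ∀ i : Fin (k + 1), R i (p i.castSucc) (p i.succ) := by
    intro p hp
    have := hSA hp
    rw [hA, Finset.mem_filter] at this
    exact this.2
  have hGS : ∀ p ∈ S, ∀ i : Fin (k + 1), G.Adj (p i.castSucc) (p i.succ) := fun p hp i =>
    (hR i (Nat.lt_succ_iff.mp i.2) _ _ (hRS p hp i)).1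
  -- degrees
  have hdeg : ∀ j j' : Fin (k + 2), j ≠ j' → ∀ p ∈ S,
      (D + c - 1) / c ≤ ((S.filter (fun p' => p' j = p j)).image (fun p' => p' j')).card := by
    intro j j' hj p hp
    apply ceil_le hcpos
    have h1 := hS1 j p hp
    have h2 := fib k G D K hG S hGS j j' hj (p j)
    obtain ⟨x, hx⟩ : ∃ x, x = ((S.filter (fun p' => p' j = p j)).image (fun p' => p' j')).card :=
      ⟨_, rfl⟩
    rw [← hx] at h2 ⊢
    have h3 : D ^ k * D ≤ D ^ k * (c * x) := by
      calc D ^ k * D = D ^ (k + 1) := (pow_succ _ _).symm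
        _ ≤ q0 * (S.filter (fun p' => p' j = p j)).card := h1
        _ ≤ q0 * ((K * D) ^ k * x) := Nat.mul_le_mul_left _ h2
        _ = D ^ k * (c * x) := by rw [hc, mul_pow]; ring
    exact Nat.le_of_mul_le_mul_left h3 (by positivity)
  obtain ⟨R', hR'⟩ : ∃ R' : ℕ → V → V → Prop, ∀ i a b, (R' i a b ↔
    ∃ h : i ≤ k, ∃ p ∈ S, p ⟨i, by omega⟩ = a ∧ p ⟨i + 1, by omega⟩ = b) :=
    ⟨fun i a b => ∃ h : i ≤ k, ∃ p ∈ S, p ⟨i, by omega⟩ = a ∧ p ⟨i + 1, by omega⟩ = b,
      fun _ _ _ => Iff.rfl⟩
  refine ⟨R', (D + c - 1) / c, ?_, ?_, le_ceil hcpos, ?_⟩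
  · intro i a b hab
    obtain ⟨h, p, hp, rfl, rfl⟩ := (hR' i a b).mp hab
    exact hRS p hp ⟨i, by omega⟩
  · intro i hi a b hab
    obtain ⟨h, p, hp, rfl, rfl⟩ := (hR' i a b).mp hab
    refine ⟨?_, ?_, ?_, ?_⟩
    · refine (hdeg ⟨i, by omega⟩ ⟨i + 1, by omega⟩ (by
        intro h
        have := congrArg Fin.val h
        simp at this) p hp).trans (Finset.card_le_card ?_)
      intro x hx
      obtain ⟨p', hp', rfl⟩ := Finset.mem_image.mp hx
      obtain ⟨h1, h2⟩ := Finset.mem_filter.mp hp'
      rw [Finset.mem_filter]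
      exact ⟨Finset.mem_univ _, (hR' _ _ _).mpr ⟨h, p', h1, h2, rfl⟩⟩
    · refine (hdeg ⟨i + 1, by omega⟩ ⟨i, by omega⟩ (by
        intro h
        have := congrArg Fin.val h
        simp at this) p hp).trans (Finset.card_le_card ?_)
      intro x hx
      obtain ⟨p', hp', rfl⟩ := Finset.mem_image.mp hx
      obtain ⟨h1, h2⟩ := Finset.mem_filter.mp hp'
      rw [Finset.mem_filter]
      exact ⟨Finset.mem_univ _, (hR' _ _ _).mpr ⟨h, p', h1, rfl, h2⟩⟩
    · intro hi2
      refine (hdeg ⟨i + 1, by omega⟩ ⟨i + 1 + 1, by omega⟩ (by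
        intro h
        have := congrArg Fin.val h
        simp at this) p hp).trans (Finset.card_le_card ?_)
      intro x hx
      obtain ⟨p', hp', rfl⟩ := Finset.mem_image.mp hx
      obtain ⟨h1, h2⟩ := Finset.mem_filter.mp hp'
      rw [Finset.mem_filter]
      exact ⟨Finset.mem_univ _, (hR' _ _ _).mpr ⟨hi2, p', h1, h2, rfl⟩⟩
    · intro hi2
      obtain ⟨i, rfl⟩ : ∃ i', i = i' + 1 := ⟨i - 1, by omega⟩
      refine (hdeg ⟨i + 1, by omega⟩ ⟨i, by omega⟩ (by
        intro h
        have := congrArg Fin.val h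
        simp at this) p hp).trans (Finset.card_le_card ?_)
      intro x hx
      obtain ⟨p', hp', rfl⟩ := Finset.mem_image.mp hx
      obtain ⟨h1, h2⟩ := Finset.mem_filter.mp hp'
      rw [Finset.mem_filter]
      have e : i + 1 - 1 = i := rfl
      rw [e]
      exact ⟨Finset.mem_univ _, (hR' _ _ _).mpr ⟨by omega, p', h1, rfl, h2⟩⟩
  · have h1 : S.card ≤ WW k R' := by
      unfold WW
      apply Finset.card_le_card
      intro p hp
      rw [Finset.mem_filter]
      exact ⟨Finset.mem_univ _, fun i => (hR' _ _ _).mpr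
        ⟨Nat.lt_succ_iff.mp i.2, p, hp, rfl, rfl⟩⟩
    have h2 : ∑ j : Fin (k + 2), (A.image (fun p => p j)).card ≤ (k + 2) * Fintype.card V := by
      calc ∑ j : Fin (k + 2), (A.image (fun p => p j)).card
          ≤ ∑ _j : Fin (k + 2), Fintype.card V :=
            Finset.sum_le_sum fun j _ => Finset.card_le_univ _
        _ = _ := by rw [Finset.sum_const, Finset.card_univ, Fintype.card_fin, smul_eq_mul]
    have h3 : D ^ (k + 1) * ∑ j : Fin (k + 2), (A.image (fun p => p j)).card ≤
        (k + 2) * (Fintype.card V * D ^ (k + 1)) := by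
      calc _ ≤ D ^ (k + 1) * ((k + 2) * Fintype.card V) := Nat.mul_le_mul_left _ h2
        _ = _ := by ring
    have h4 : 2 * ((k + 2) * (Fintype.card V * D ^ (k + 1))) ≤ q0 * A.card := by
      rw [hWA] at hWW
      calc 2 * ((k + 2) * (Fintype.card V * D ^ (k + 1)))
          ≤ 2 * ((k + 2) * (Q * A.card)) := by gcongr
        _ = q0 * A.card := by rw [hq0]; ring
    have h5 : Fintype.card V * D ^ (k + 1) ≤ (k + 2) * (Fintype.card V * D ^ (k + 1)) :=
      Nat.le_mul_of_pos_left _ (by omega)
    have h6 : q0 * S.card ≤ c * S.card := Nat.mul_le_mul_right _ hq0c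
    have h7 := Nat.mul_le_mul_left c h1
    omega

open KPrn in
/-- dense host relations give dense layered relations -/
theorem den_holds : S_DEN := by
  intro k K hK Q hQ
  obtain ⟨q0, hq0⟩ : ∃ q0, q0 = 4 * Q := ⟨_, rfl⟩
  have hq0pos : 0 < q0 := by omega
  refine ⟨q0 * K * q0 ^ (k + 1), by positivity, ?_⟩
  intro V _ _ G D hG hD He hHe hgc
  obtain ⟨A, hA⟩ : ∃ A, A = Finset.univ.filter (fun z : V × V => He z.1 z.2) := ⟨_, rfl⟩
  have hgA : gc He = A.card := by rw [hA]; rfl
  obtain ⟨S, hSA, hS1, hS2⟩ := extremal (β := V) A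
    (fun (j : Bool) (z : V × V) => if j then z.2 else z.1) q0 D
  have hHS : ∀ z ∈ S, He z.1 z.2 := by
    intro z hz
    have := hSA hz
    rw [hA, Finset.mem_filter] at this
    exact this.2
  obtain ⟨m, hm⟩ : ∃ m, m = (D + q0 - 1) / q0 := ⟨_, rfl⟩
  have hDm : D ≤ q0 * m := by rw [hm]; exact le_ceil hq0pos
  obtain ⟨R, hRdef⟩ : ∃ R : ℕ → V → V → Prop, R = fun i a b =>
    if i % 2 = 0 then (a, b) ∈ S else (b, a) ∈ S := ⟨_, rfl⟩
  have hR0 : ∀ i a b, i % 2 = 0 → (R i a b ↔ (a, b) ∈ S) := by
    intro i a b hi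
    rw [hRdef]
    simp only [hi, if_true]
  have hR1 : ∀ i a b, i % 2 = 1 → (R i a b ↔ (b, a) ∈ S) := by
    intro i a b hi
    rw [hRdef]
    simp only [hi, one_ne_zero, if_false]
  have hflip : ∀ i a b, R i a b → R (i + 1) b a := by
    intro i a b h
    rcases Nat.mod_two_eq_zero_or_one i with hi | hi
    · rw [hR1 _ _ _ (by omega)]
      exact (hR0 i a b hi).mp h
    · rw [hR0 _ _ _ (by omega)]
      exact (hR1 i a b hi).mp h
  have hdeg : ∀ i a b, R i a b → m ≤ (Finset.univ.filter (fun y => R i a y)).card := by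
    intro i a b h
    rw [hm]
    apply ceil_le hq0pos
    rcases Nat.mod_two_eq_zero_or_one i with hi | hi
    · refine (hS1 false (a, b) ((hR0 i a b hi).mp h)).trans (Nat.mul_le_mul_left _ ?_)
      refine Finset.card_le_card_of_injOn (fun z => z.2) ?_ ?_
      · intro z hz
        obtain ⟨h1, h2⟩ := Finset.mem_filter.mp hz
        simp only [Bool.false_eq_true, if_false] at h2
        rw [Finset.mem_coe, Finset.mem_filter]
        refine ⟨Finset.mem_univ _, (hR0 i a z.2 hi).mpr ?_⟩
        rw [← h2]
        exact h1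
      · intro z hz z' hz' he
        have h2 := (Finset.mem_filter.mp hz).2
        have h2' := (Finset.mem_filter.mp hz').2
        simp only [Bool.false_eq_true, if_false] at h2 h2'
        exact Prod.ext (h2.trans h2'.symm) he
    · refine (hS1 true (b, a) ((hR1 i a b hi).mp h)).trans (Nat.mul_le_mul_left _ ?_)
      refine Finset.card_le_card_of_injOn (fun z => z.1) ?_ ?_
      · intro z hz
        obtain ⟨h1, h2⟩ := Finset.mem_filter.mp hz
        simp only [if_true] at h2
        rw [Finset.mem_coe, Finset.mem_filter]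
        refine ⟨Finset.mem_univ _, (hR1 i a z.1 hi).mpr ?_⟩
        rw [← h2]
        exact h1
      · intro z hz z' hz' he
        have h2 := (Finset.mem_filter.mp hz).2
        have h2' := (Finset.mem_filter.mp hz').2
        simp only [if_true] at h2 h2'
        exact Prod.ext he (h2.trans h2'.symm)
  refine ⟨R, ?_, ?_⟩
  · intro i _ a b h
    rcases Nat.mod_two_eq_zero_or_one i with hi | hi
    · have h1 := hHS _ ((hR0 i a b hi).mp h)
      exact ⟨hHe _ _ h1, fun _ => h1, fun h => by omega⟩
    · have h1 := hHS _ ((hR1 i a b hi).mp h)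
      exact ⟨(hHe _ _ h1).symm, fun h => by omega, fun _ => h1⟩
  · obtain ⟨X, hX⟩ : ∃ X, X = S.image Prod.fst := ⟨_, rfl⟩
    -- walks
    have hwalk : X.card * m ^ (k + 1) ≤ WW k R := by
      obtain ⟨c, hc⟩ : ∃ c : Fin (k + 2) → (Fin (k + 2) → V) → Finset V, c = fun v φ =>
        if v.val = 0 then X else
          if ∃ y, R (v.val - 1) (φ ⟨v.val - 1, by omega⟩) y then
            Finset.univ.filter (fun y => R (v.val - 1) (φ ⟨v.val - 1, by omega⟩) y)
          else Finset.univ := ⟨_, rfl⟩
      obtain ⟨v0⟩ : Nonempty V := inferInstance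
      have hmN : m ≤ Fintype.card V := by
        have h1 := hG.lo v0
        have h2 : (nb G v0).card ≤ Fintype.card V := Finset.card_le_univ _
        have h3 : m ≤ D := by
          rw [hm]
          apply ceil_le hq0pos
          exact Nat.le_mul_of_pos_left _ hq0pos
        omega
      have h := ext_univ (fun v : Fin (k + 2) => v.val) c
        (fun v => if v.val = 0 then X.card else m) (fun _ => v0)
        (by
          intro v φ ψ h
          rw [hc]
          simp only
          by_cases hv : v.val = 0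
          · rw [if_pos hv, if_pos hv]
          · rw [if_neg hv, if_neg hv]
            rw [h ⟨v.val - 1, by omega⟩ (by
              show v.val - 1 < v.val
              omega)])
        (by
          intro v φ
          rw [hc]
          simp only
          by_cases hv : v.val = 0
          · rw [if_pos hv, if_pos hv]
          · rw [if_neg hv, if_neg hv]
            by_cases hy : ∃ y, R (v.val - 1) (φ ⟨v.val - 1, by omega⟩) y
            · rw [if_pos hy]
              obtain ⟨y, hy⟩ := hy
              exact hdeg _ _ _ hy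
            · rw [if_neg hy, Finset.card_univ]
              exact hmN)
      have hprod : ∏ v : Fin (k + 2), (if v.val = 0 then X.card else m) =
          X.card * m ^ (k + 1) := by
        rw [Fin.prod_univ_succ]
        simp
      rw [← hprod]
      refine h _ fun φ hφ2 => ?_
      have key : ∀ i : ℕ, ∀ hi : i ≤ k, (∃ y, R i (φ ⟨i, by omega⟩) y) ∧
          R i (φ ⟨i, by omega⟩) (φ ⟨i + 1, by omega⟩) := by
        have step : ∀ i : ℕ, ∀ hi : i ≤ k, (∃ y, R i (φ ⟨i, by omega⟩) y) →
            R i (φ ⟨i, by omega⟩) (φ ⟨i + 1, by omega⟩) := by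
          intro i hi hy
          have h1 := hφ2 ⟨i + 1, by omega⟩
          rw [hc] at h1
          simp only at h1
          rw [if_neg (by omega)] at h1
          have hy' : ∃ y, R (i + 1 - 1) (φ ⟨i + 1 - 1, by omega⟩) y := hy
          rw [if_pos hy'] at h1
          exact (Finset.mem_filter.mp h1).2
        intro i
        induction i with
        | zero =>
          intro hi
          have h0 := hφ2 ⟨0, by omega⟩
          rw [hc] at h0
          simp only [if_true] at h0
          rw [hX] at h0
          obtain ⟨z, hz, hz2⟩ := Finset.mem_image.mp h0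
          have hy : ∃ y, R 0 (φ ⟨0, by omega⟩) y := by
            refine ⟨z.2, (hR0 0 _ _ rfl).mpr ?_⟩
            rw [← hz2]
            exact hz
          exact ⟨hy, step 0 hi hy⟩
        | succ i ih =>
          intro hi
          obtain ⟨-, h2⟩ := ih (by omega)
          have hy : ∃ y, R (i + 1) (φ ⟨i + 1, by omega⟩) y := ⟨_, hflip _ _ _ h2⟩
          exact ⟨hy, step (i + 1) hi hy⟩
      rw [Finset.mem_filter]
      exact ⟨Finset.mem_univ _, fun i => (key i.val (Nat.lt_succ_iff.mp i.2)).2⟩
    have hSX : S.card ≤ K * D * X.card := by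
      rw [hX]
      refine Finset.card_le_mul_card_image S _ fun x hx => ?_
      refine le_trans ?_ (hG.hi x)
      refine Finset.card_le_card_of_injOn (fun z => z.2) ?_ ?_
      · intro z hz
        obtain ⟨h1, h2⟩ := Finset.mem_filter.mp hz
        rw [Finset.mem_coe, mem_nb, ← h2]
        exact hHe _ _ (hHS z h1)
      · intro z hz z' hz' he
        have h2 := (Finset.mem_filter.mp hz).2
        have h2' := (Finset.mem_filter.mp hz').2
        exact Prod.ext (h2.trans h2'.symm) he
    have hNX : Fintype.card V ≤ q0 * K * X.card := by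
      rw [hgA] at hgc
      have h1 : ∑ j : Bool, (A.image (fun z : V × V => if j then z.2 else z.1)).card ≤
          2 * Fintype.card V := by
        calc _ ≤ ∑ _j : Bool, Fintype.card V := Finset.sum_le_sum fun j _ => Finset.card_le_univ _
          _ = _ := by rw [Finset.sum_const, Finset.card_univ, Fintype.card_bool, smul_eq_mul]
      have h2 : D * ∑ j : Bool, (A.image (fun z : V × V => if j then z.2 else z.1)).card ≤
          2 * (Fintype.card V * D) := by
        calc _ ≤ D * (2 * Fintype.card V) := Nat.mul_le_mul_left _ h1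
          _ = _ := by ring
      have h3 : 4 * (Fintype.card V * D) ≤ q0 * A.card := by
        calc 4 * (Fintype.card V * D) ≤ 4 * (Q * A.card) := Nat.mul_le_mul_left _ hgc
          _ = q0 * A.card := by rw [hq0]; ring
      have h4 : Fintype.card V * D ≤ q0 * S.card := by omega
      have h5 : Fintype.card V * D ≤ q0 * K * X.card * D := by
        calc Fintype.card V * D ≤ q0 * S.card := h4
          _ ≤ q0 * (K * D * X.card) := Nat.mul_le_mul_left _ hSX
          _ = _ := by ring
      exact Nat.le_of_mul_le_mul_right h5 hD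
    calc Fintype.card V * D ^ (k + 1) ≤ (q0 * K * X.card) * (q0 * m) ^ (k + 1) := by gcongr
      _ = q0 * K * q0 ^ (k + 1) * (X.card * m ^ (k + 1)) := by rw [mul_pow]; ring
      _ ≤ _ := Nat.mul_le_mul_left _ hwalk

end Pool.Agent.TH476.KK
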