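import Pool.Agent.TH476.KStm2
import Pool.Agent.TH476.GRed

set_option autoImplicit false

open Classical

namespace Pool.Agent.TH476.KK.KRed

open Pool.Agent.TH476 Pool.Agent.TH476.KK

section tree

variable {k : ℕ} {ι : Type} (T : TE k ι)

lemma mem_Dsc (U : Finset ι) (u x : ι) : x ∈ Dsc T U u ↔ x ∈ U ∧ DscR T u x := by
  unfold Dsc
  rw [Finset.mem_filter]

lemma dscR_dp {u x : ι} (h : DscR T u x) : T.dp u ≤ T.dp x := by
  induction h with
  | refl => exact le_rfl
  | step x hx _ ih => exact ih.trans (T.dp_par x hx).le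

lemma dscR_par {u x : ι} (h : DscR T u x) (hne : x ≠ u) :
    x ≠ T.top ∧ DscR T u (T.par x) := by
  cases h with
  | refl => exact absurd rfl hne
  | step _ hx h => exact ⟨hx, h⟩

lemma not_dscR_par {u : ι} (hu : u ≠ T.top) : ¬ DscR T u (T.par u) := by
  intro h
  have h1 := dscR_dp T h
  have h2 := T.dp_par u hu
  omega

lemma not_dscR_top {u : ι} (hu : u ≠ T.top) : ¬ DscR T u T.top := by
  intro h
  exact (dscR_par T h (Ne.symm hu)).1 rfl

end tree

/-- disjoint systems of roots at a popular vertex -/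
lemma pop_roots {k : ℕ} {ι V : Type} [Fintype ι] [Fintype V] (T : TE k ι)
    (E Rt : ι → V → V → Prop)
    (E0 : Finset ι) (u : ι) (L' ζ Q D m : ℕ) (w : V) (h : PopW T E Rt E0 u L' ζ Q D w)
    (hζ : m * Fintype.card ι ≤ ζ) :
    ∃ ρ : Fin m → ι → V,
      (∀ j, ∀ q ∈ E0, ∀ q' ∈ E0, T.Qn q → T.Qn q' → ρ j q = ρ j q' → q = q') ∧
      (∀ j, D ≤ Q * (Finset.univ.filter (fun y => Rt (T.par u) w y ∧
        RichAt T E Rt E0 u L' y (ρ j))).card) ∧
      ∀ i j, i ≠ j → Disjoint ((E0.filter (fun q => T.Qn q)).image (ρ i))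
        ((E0.filter (fun q => T.Qn q)).image (ρ j)) := by
  obtain ⟨ρ, h1, -, h3⟩ := greedy (κ := Fin m) (α := ι → V) (V := V)
    (fun _ ρ => (E0.filter (fun q => T.Qn q)).image ρ) (Fintype.card ι)
    (fun _ ρ => (∀ q ∈ E0, ∀ q' ∈ E0, T.Qn q → T.Qn q' → ρ q = ρ q' → q = q') ∧
      D ≤ Q * (Finset.univ.filter (fun y => Rt (T.par u) w y ∧
        RichAt T E Rt E0 u L' y ρ)).card) ∅
    (fun _ ρ _ => Finset.card_image_le.trans (Finset.card_le_univ _))
    (fun _ Z hZ => by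
      rw [Finset.card_empty, zero_add, Fintype.card_fin] at hZ
      obtain ⟨ρ, h1, h2, h3⟩ := h Z (hZ.trans hζ)
      refine ⟨ρ, ⟨h1, h3⟩, ?_⟩
      rw [Finset.disjoint_left]
      intro a ha
      obtain ⟨q, hq, rfl⟩ := Finset.mem_image.mp ha
      rw [Finset.mem_filter] at hq
      exact h2 q hq.1 hq.2)
  exact ⟨ρ, fun j => (h1 j).1, fun j => (h1 j).2, h3⟩

/-- the neighbours of a popular vertex rich for many systems of roots -/
lemma pop_X {k : ℕ} {ι V : Type} [Fintype ι] [Fintype V] (T : TE k ι)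
    (E Rt : ι → V → V → Prop)
    (E0 : Finset ι) (u : ι) (L' ζ Q K D m M : ℕ) (w : V) (h : PopW T E Rt E0 u L' ζ Q D w)
    (hζ : m * Fintype.card ι ≤ ζ)
    (hN : (Finset.univ.filter (fun y => Rt (T.par u) w y)).card ≤ K * D)
    (hQ : 0 < Q) (hK : 0 < K) (hM : 0 < M) (hD : 0 < D) (hm : m = 2 * Q * K * M) :
    ∃ (ρ : Fin m → ι → V) (J : Finset (Fin m)) (X : Finset V), M ≤ J.card ∧
      (∀ j, ∀ q ∈ E0, ∀ q' ∈ E0, T.Qn q → T.Qn q' → ρ j q = ρ j q' → q = q') ∧
      (∀ i j, i ≠ j → Disjoint ((E0.filter (fun q => T.Qn q)).image (ρ i))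
        ((E0.filter (fun q => T.Qn q)).image (ρ j))) ∧
      (∀ y ∈ X, Rt (T.par u) w y ∧ ∀ j ∈ J, RichAt T E Rt E0 u L' y (ρ j)) ∧
      D ≤ 2 * Q * 2 ^ m * X.card := by
  obtain ⟨ρ, h1, h2, h3⟩ := pop_roots T E Rt E0 u L' ζ Q D m w h hζ
  have h4 := GRed.bigset (Finset.univ.filter (fun y => Rt (T.par u) w y)) m M Q K D
    (fun j => Finset.univ.filter (fun y => Rt (T.par u) w y ∧
      RichAt T E Rt E0 u L' y (ρ j)))
    (fun j y hy => by
      rw [Finset.mem_filter] at hy ⊢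
      exact ⟨hy.1, hy.2.1⟩) hN hQ hK hM hm h2
  obtain ⟨J, hJ1, hJ2⟩ := GRed.pigJ _ m M Q D _ hD h4
  refine ⟨ρ, J, _, hJ1, h1, h3, ?_, hJ2⟩
  intro y hy
  rw [Finset.mem_filter] at hy
  refine ⟨(Finset.mem_filter.mp hy.1).2, fun j hj => ?_⟩
  exact (Finset.mem_filter.mp (hy.2 j hj)).2.2

/-- from copies of the smaller tree to copies of the whole tree -/
lemma transfer {k : ℕ} {ι V : Type} [Fintype ι] [Nonempty V] (T : TE k ι)
    (E Rt E' Rt' : ι → V → V → Prop)
    (U : Finset ι) (u : ι) (hU : AncC T U) (huU : u ∈ U) (hut : u ≠ T.top)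
    (huC : ¬ T.Cn u) (hsC : T.Cn (T.par u))
    (L L' m M : ℕ) (hL : 0 < L) (hM : (L + 1) * Fintype.card ι < M)
    (hL' : (2 * L + 2) * Fintype.card ι < L')
    (hEE : ∀ x a b, E' x a b → E x a b) (hRR : ∀ x a b, Rt' x a b → Rt x a b)
    (ρ : V → Fin m → ι → V) (J : V → Finset (Fin m))
    (hJ : ∀ w y, Rt' (T.par u) w y → M ≤ (J w).card)
    (hinj : ∀ w y, Rt' (T.par u) w y → ∀ j, ∀ q ∈ Dsc T U u, ∀ q' ∈ Dsc T U u,
      T.Qn q → T.Qn q' → ρ w j q = ρ w j q' → q = q')
    (hdis : ∀ w y, Rt' (T.par u) w y → ∀ i j, i ≠ j →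
      Disjoint (((Dsc T U u).filter (fun q => T.Qn q)).image (ρ w i))
        (((Dsc T U u).filter (fun q => T.Qn q)).image (ρ w j)))
    (hrich : ∀ w y, Rt' (T.par u) w y → ∀ j ∈ J w,
      RichAt T E Rt (Dsc T U u) u L' y (ρ w j)) (w0 : V)
    (hBU : BUat T E' Rt' ((U \ Dsc T U u).erase T.top) (fun _ => w0) L (fun _ => True) ∅) :
    BUat T E Rt (U.erase T.top) (fun _ => w0) L (fun _ => True) ∅ := by
  obtain ⟨E0, hE0⟩ : ∃ E0, E0 = Dsc T U u := ⟨_, rfl⟩
  rw [← hE0] at hinj hdis hrich hBU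
  have memE : ∀ x, x ∈ E0 ↔ x ∈ U ∧ DscR T u x := fun x => by
    rw [hE0]
    exact mem_Dsc T U u x
  obtain ⟨U', hU'⟩ : ∃ U', U' = (U \ E0).erase T.top := ⟨_, rfl⟩
  rw [← hU'] at hBU
  have memU' : ∀ x, x ∈ U' ↔ x ≠ T.top ∧ x ∈ U ∧ x ∉ E0 := fun x => by
    rw [hU', Finset.mem_erase, Finset.mem_sdiff]
  have htopE : T.top ∉ E0 := fun h => not_dscR_top T hut ((memE _).mp h).2
  have memF : ∀ x, x ∈ U.erase T.top ↔ x ∈ E0 ∨ x ∈ U' := by
    intro x
    rw [Finset.mem_erase, memU']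
    constructor
    · rintro ⟨h1, h2⟩
      by_cases h : x ∈ E0
      · exact Or.inl h
      · exact Or.inr ⟨h1, h2, h⟩
    · rintro (h | h)
      · exact ⟨fun h' => htopE (h' ▸ h), ((memE x).mp h).1⟩
      · exact ⟨h.1, h.2.1⟩
  have hUE : ∀ x ∈ U', x ∉ E0 := fun x hx => ((memU' x).mp hx).2.2
  have huE : u ∈ E0 := (memE u).mpr ⟨huU, DscR.refl⟩
  have hparE : ∀ x ∈ E0, x ≠ u → T.par x ∈ E0 := by
    intro x hx hne
    have h1 := (memE x).mp hx
    have h2 := dscR_par T h1.2 hne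
    exact (memE _).mpr ⟨hU x h1.1 h2.1, h2.2⟩
  have hparU : ∀ x ∈ U', T.par x ∉ E0 := by
    intro x hx h
    have h1 := (memU' x).mp hx
    exact h1.2.2 ((memE x).mpr ⟨h1.2.1, DscR.step x h1.1 ((memE _).mp h).2⟩)
  obtain ⟨v, hv⟩ : ∃ v, v = T.par u := ⟨_, rfl⟩
  rw [← hv] at hsC hJ hinj hdis hrich
  have hvQ : T.Qn v := Or.inl hsC
  have hvt : v ≠ T.top := fun h => T.top_C (h ▸ hsC)
  have hvE : v ∉ E0 := fun h => not_dscR_par T hut (hv ▸ ((memE v).mp h).2)
  have hvU' : v ∈ U' := (memU' v).mpr ⟨hvt, hv ▸ hU u huU hut, hvE⟩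
  obtain ⟨ψ, r, b1, b2, -, b4, b5, b6, -, -⟩ := hBU
  have hgv : ∀ l, Rt' v (r v) (ψ l v) := fun l => (b2 l).1 v hvU' hvQ
  obtain ⟨Used, hUsed⟩ : ∃ Used : Finset V, Used =
    ((Finset.univ : Finset (Fin L)) ×ˢ U').image (fun p => ψ p.1 p.2) ∪ U'.image r := ⟨_, rfl⟩
  have hUc : Used.card ≤ (L + 1) * Fintype.card ι := by
    rw [hUsed]
    refine (Finset.card_union_le _ _).trans ?_
    have h1 : (((Finset.univ : Finset (Fin L)) ×ˢ U').image (fun p => ψ p.1 p.2)).card ≤
        L * Fintype.card ι := by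
      refine Finset.card_image_le.trans ?_
      rw [Finset.card_product, Finset.card_univ, Fintype.card_fin]
      exact Nat.mul_le_mul_left _ (Finset.card_le_univ _)
    have h2 : (U'.image r).card ≤ Fintype.card ι :=
      Finset.card_image_le.trans (Finset.card_le_univ _)
    calc _ ≤ L * Fintype.card ι + Fintype.card ι := Nat.add_le_add h1 h2
      _ = _ := by ring
  have hUψ : ∀ l, ∀ x ∈ U', ψ l x ∈ Used := by
    intro l x hx
    rw [hUsed]
    exact Finset.mem_union_left _ (Finset.mem_image.mpr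
      ⟨(l, x), Finset.mem_product.mpr ⟨Finset.mem_univ _, hx⟩, rfl⟩)
  have hUr : ∀ x ∈ U', r x ∈ Used := by
    intro x hx
    rw [hUsed]
    exact Finset.mem_union_right _ (Finset.mem_image.mpr ⟨x, hx, rfl⟩)
  have hg0 := hgv ⟨0, hL⟩
  obtain ⟨j, hj, hjd⟩ := GRed.avoidJ (J (r v))
    (fun i => (E0.filter (fun q => T.Qn q)).image (ρ (r v) i)) (hdis _ _ hg0) Used
    (lt_of_lt_of_le (lt_of_le_of_lt hUc hM) (hJ _ _ hg0))
  obtain ⟨ρ0, hρ0⟩ : ∃ ρ0, ρ0 = ρ (r v) j := ⟨_, rfl⟩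
  have hρU : ∀ q ∈ E0, T.Qn q → ρ0 q ∉ Used := by
    intro q hq hqQ
    rw [Finset.disjoint_left] at hjd
    refine hjd (Finset.mem_image.mpr ⟨q, Finset.mem_filter.mpr ⟨hq, hqQ⟩, ?_⟩)
    rw [hρ0]
  have hρi : ∀ q ∈ E0, ∀ q' ∈ E0, T.Qn q → T.Qn q' → ρ0 q = ρ0 q' → q = q' := by
    rw [hρ0]
    exact hinj _ _ hg0 j
  have hRich : ∀ l, RichAt T E Rt E0 u L' (ψ l v) ρ0 := by
    intro l
    rw [hρ0]
    exact hrich _ _ (hgv l) j hj
  obtain ⟨a, a1, a2, a3⟩ := greedy (κ := Fin L) (α := ι → V) (V := V)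
    (fun _ a => E0.image a) (Fintype.card ι)
    (fun l a => GoodOn T E Rt E0 a ρ0 ∧ E u (ψ l v) (a u) ∧
      ∀ x ∈ E0, ∀ x' ∈ E0, a x = a x' → x = x') (Used ∪ E0.image ρ0)
    (fun _ a _ => Finset.card_image_le.trans (Finset.card_le_univ _))
    (fun l Z hZ => by
      rw [Fintype.card_fin] at hZ
      obtain ⟨α, c1, c2, c3⟩ := hRich l
      have h1 : (Used ∪ E0.image ρ0).card ≤ (L + 1) * Fintype.card ι + Fintype.card ι :=
        (Finset.card_union_le _ _).trans (Nat.add_le_add hUc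
          (Finset.card_image_le.trans (Finset.card_le_univ _)))
      have h2 : Z.card < L' := by
        refine lt_of_le_of_lt (hZ.trans (Nat.add_le_add_right h1 _)) ?_
        calc (L + 1) * Fintype.card ι + Fintype.card ι + L * Fintype.card ι
            = (2 * L + 2) * Fintype.card ι := by ring
          _ < L' := hL'
      obtain ⟨i, hi⟩ := avoid (fun i => E0.image (α i)) (by
        intro i i' hne
        rw [Finset.disjoint_left]
        intro z hz hz'
        obtain ⟨x, hx, rfl⟩ := Finset.mem_image.mp hz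
        obtain ⟨x', hx', hxx⟩ := Finset.mem_image.mp hz'
        exact hne (c3 i' i x' x hx' hx hxx).1.symm) Z h2
      exact ⟨α i, ⟨c1 i, c2 i, fun x hx x' hx' h => (c3 i i x x' hx hx' h).2⟩, hi⟩)
  have a2' : ∀ l, ∀ x ∈ E0, a l x ∉ Used ∧ ∀ q ∈ E0, a l x ≠ ρ0 q := by
    intro l x hx
    have h1 := Finset.disjoint_left.mp (a2 l) (Finset.mem_image.mpr ⟨x, hx, rfl⟩)
    rw [Finset.mem_union, not_or] at h1
    exact ⟨h1.1, fun q hq h => h1.2 (Finset.mem_image.mpr ⟨q, hq, h.symm⟩)⟩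
  have a3' : ∀ l l' x x', x ∈ E0 → x' ∈ E0 → a l x = a l' x' → l = l' ∧ x = x' := by
    intro l l' x x' hx hx' h
    by_cases hll : l = l'
    · subst hll
      exact ⟨rfl, (a1 l).2.2 x hx x' hx' h⟩
    · exact absurd (Finset.mem_image.mpr ⟨x', hx', h.symm⟩)
        (Finset.disjoint_left.mp (a3 l l' hll) (Finset.mem_image.mpr ⟨x, hx, rfl⟩))
  refine ⟨fun l x => if x ∈ E0 then a l x else ψ l x, fun x => if x ∈ E0 then ρ0 x else r x,
    ?_, ?_, fun _ => trivial, ?_, ?_, ?_, fun _ _ _ => Finset.notMem_empty _,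
    fun _ _ _ _ => Finset.notMem_empty _⟩
  · -- base
    intro q hq hpar
    rcases (memF q).mp hq with h | h
    · exfalso
      by_cases hqu : q = u
      · subst hqu
        exact hpar ((memF _).mpr (Or.inr (hv ▸ hvU')))
      · exact hpar ((memF _).mpr (Or.inl (hparE q h hqu)))
    · show (if q ∈ E0 then ρ0 q else r q) = w0
      rw [if_neg (hUE q h)]
      exact b1 q h (fun h' => hpar ((memF _).mpr (Or.inr h')))
  · -- good
    intro l
    refine ⟨?_, ?_⟩
    · intro x hx hxQ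
      show Rt x (if x ∈ E0 then ρ0 x else r x) (if x ∈ E0 then a l x else ψ l x)
      rcases (memF x).mp hx with h | h
      · rw [if_pos h, if_pos h]
        exact (a1 l).1.1 x h hxQ
      · rw [if_neg (hUE x h), if_neg (hUE x h)]
        exact hRR _ _ _ ((b2 l).1 x h hxQ)
    · intro x hx hpx
      show E x (if T.par x ∈ E0 then a l (T.par x) else ψ l (T.par x))
        (if x ∈ E0 then a l x else ψ l x)
      rcases (memF x).mp hx with h | h
      · by_cases hne : x = u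
        · subst hne
          rw [if_pos h, ← hv, if_neg hvE]
          exact (a1 l).2.1
        · rw [if_pos h, if_pos (hparE x h hne)]
          exact (a1 l).1.2 x h (hparE x h hne)
      · rw [if_neg (hUE x h), if_neg (hparU x h)]
        exact hEE _ _ _ ((b2 l).2 x h (((memF _).mp hpx).resolve_left (hparU x h)))
  · -- disjoint copies
    intro l l' x x' hx hx' h
    change (if x ∈ E0 then a l x else ψ l x) = (if x' ∈ E0 then a l' x' else ψ l' x') at h
    rcases (memF x).mp hx with h1 | h1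
    · rw [if_pos h1] at h
      rcases (memF x').mp hx' with h2 | h2
      · rw [if_pos h2] at h
        exact a3' l l' x x' h1 h2 h
      · rw [if_neg (hUE x' h2)] at h
        exact absurd (h ▸ hUψ l' x' h2) (a2' l x h1).1
    · rw [if_neg (hUE x h1)] at h
      rcases (memF x').mp hx' with h2 | h2
      · rw [if_pos h2] at h
        exact absurd (h ▸ hUψ l x h1) (a2' l' x' h2).1
      · rw [if_neg (hUE x' h2)] at h
        exact b4 l l' x x' h1 h2 h
  · -- no copy meets the roots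
    intro l x q hx hq hqQ
    show (if x ∈ E0 then a l x else ψ l x) ≠ (if q ∈ E0 then ρ0 q else r q)
    rcases (memF x).mp hx with h1 | h1
    · rw [if_pos h1]
      rcases (memF q).mp hq with h2 | h2
      · rw [if_pos h2]
        exact (a2' l x h1).2 q h2
      · rw [if_neg (hUE q h2)]
        intro h
        exact (a2' l x h1).1 (h ▸ hUr q h2)
    · rw [if_neg (hUE x h1)]
      rcases (memF q).mp hq with h2 | h2
      · rw [if_pos h2]
        intro h
        exact hρU q h2 hqQ (h ▸ hUψ l x h1)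
      · rw [if_neg (hUE q h2)]
        exact b5 l x q h1 h2 hqQ
  · -- roots distinct
    intro q q' hq hq' hqQ hqQ' h
    change (if q ∈ E0 then ρ0 q else r q) = (if q' ∈ E0 then ρ0 q' else r q') at h
    rcases (memF q).mp hq with h1 | h1
    · rw [if_pos h1] at h
      rcases (memF q').mp hq' with h2 | h2
      · rw [if_pos h2] at h
        exact hρi q h1 q' h2 hqQ hqQ' h
      · rw [if_neg (hUE q' h2)] at h
        exact absurd (h ▸ hUr q' h2) (hρU q h1 hqQ)
    · rw [if_neg (hUE q h1)] at h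
      rcases (memF q').mp hq' with h2 | h2
      · rw [if_pos h2] at h
        exact absurd (h ▸ hUr q h1) (hρU q' h2 hqQ')
      · rw [if_neg (hUE q' h2)] at h
        exact b6 q q' h1 h2 hqQ hqQ' h

section walks

variable {V : Type} [Fintype V]

lemma WW_congr (k : ℕ) (R S : ℕ → V → V → Prop)
    (h : ∀ i, i ≤ k → ∀ a c, R i a c ↔ S i a c) : WW k R = WW k S := by
  unfold WW
  congr 1
  ext p
  rw [Finset.mem_filter, Finset.mem_filter]
  constructor
  · rintro ⟨h1, h2⟩
    exact ⟨h1, fun i => (h i (Nat.lt_succ_iff.mp i.2) _ _).mp (h2 i)⟩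
  · rintro ⟨h1, h2⟩
    exact ⟨h1, fun i => (h i (Nat.lt_succ_iff.mp i.2) _ _).mpr (h2 i)⟩

/-- reversing the walks -/
lemma WW_rev (k : ℕ) (R : ℕ → V → V → Prop) :
    WW k (fun i a c => R (k - i) c a) ≤ WW k R := by
  unfold WW
  refine Finset.card_le_card_of_injOn (fun p i => p (Fin.rev i)) ?_ ?_
  · intro p hp
    have hp' := (Finset.mem_filter.mp (Finset.mem_coe.mp hp)).2
    refine Finset.mem_coe.mpr (Finset.mem_filter.mpr ⟨Finset.mem_univ _, ?_⟩)
    intro i
    have h1 := hp' (Fin.rev i)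
    have h2 : k - ((Fin.rev i : Fin (k + 1)) : ℕ) = (i : ℕ) := by
      rw [Fin.val_rev]
      have := i.2
      omega
    show R i (p (Fin.rev i.castSucc)) (p (Fin.rev i.succ))
    rw [Fin.rev_castSucc, Fin.rev_succ]
    change R (k - ((Fin.rev i : Fin (k + 1)) : ℕ)) (p (Fin.rev i).succ)
      (p (Fin.rev i).castSucc) at h1
    rw [h2] at h1
    exact h1
  · intro p _ p' _ h
    funext i
    have h1 := congrFun h (Fin.rev i)
    change p (Fin.rev (Fin.rev i)) = p' (Fin.rev (Fin.rev i)) at h1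
    rwa [Fin.rev_rev] at h1

/-- one more step -/
lemma WW_step (S : ℕ → V → V → Prop) (j m : ℕ)
    (h : ∀ a b, S j a b → m ≤ (Finset.univ.filter (fun c => S (j + 1) b c)).card) :
    WW j S * m ≤ WW (j + 1) S := by
  unfold WW
  obtain ⟨A, hA⟩ : ∃ A, A = Finset.univ.filter (fun p : Fin (j + 2) → V =>
    ∀ i : Fin (j + 1), S i (p i.castSucc) (p i.succ)) := ⟨_, rfl⟩
  obtain ⟨B, hB⟩ : ∃ B, B = Finset.univ.filter (fun p : Fin (j + 2 + 1) → V =>
    ∀ i : Fin (j + 1 + 1), S i (p i.castSucc) (p i.succ)) := ⟨_, rfl⟩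
  have memA : ∀ p, p ∈ A ↔ ∀ i : Fin (j + 1), S i (p i.castSucc) (p i.succ) := by
    intro p
    rw [hA, Finset.mem_filter]
    exact ⟨fun h => h.2, fun h => ⟨Finset.mem_univ _, h⟩⟩
  have memB : ∀ p, p ∈ B ↔ ∀ i : Fin (j + 1 + 1), S i (p i.castSucc) (p i.succ) := by
    intro p
    rw [hB, Finset.mem_filter]
    exact ⟨fun h => h.2, fun h => ⟨Finset.mem_univ _, h⟩⟩
  have key : A.card * m ≤ B.card := by
    rw [Finset.card_eq_sum_card_fiberwise (s := B) (t := A)
      (f := fun (q : Fin (j + 2 + 1) → V) (i : Fin (j + 2)) => q i.castSucc)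
      (fun q hq => by
        rw [Finset.mem_coe, memB] at hq
        rw [Finset.mem_coe, memA]
        intro i
        have h1 := hq i.castSucc
        rw [Fin.succ_castSucc] at h1
        exact h1)]
    rw [← smul_eq_mul, ← Finset.sum_const]
    refine Finset.sum_le_sum fun p hp => ?_
    have hp' := (memA p).mp hp
    refine (h _ _ (hp' (Fin.last j))).trans ?_
    refine Finset.card_le_card_of_injOn (fun c => Fin.snoc (α := fun _ => V) p c) ?_ ?_
    · intro c hc
      have hc' := (Finset.mem_filter.mp (Finset.mem_coe.mp hc)).2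
      refine Finset.mem_coe.mpr (Finset.mem_filter.mpr ⟨(memB _).mpr ?_, ?_⟩)
      · obtain ⟨q, hq⟩ : ∃ q : Fin (j + 2 + 1) → V, q = Fin.snoc (α := fun _ => V) p c :=
          ⟨_, rfl⟩
        have e1 : ∀ i : Fin (j + 2), q i.castSucc = p i := fun i => by
          rw [hq]
          exact Fin.snoc_castSucc (α := fun _ => V) c p i
        have e2 : q (Fin.last (j + 2)) = c := by
          rw [hq]
          exact Fin.snoc_last (α := fun _ => V) c p
        show ∀ i : Fin (j + 1 + 1), S i (Fin.snoc (α := fun _ => V) p c i.castSucc)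
          (Fin.snoc (α := fun _ => V) p c i.succ)
        rw [← hq]
        intro i
        refine Fin.lastCases ?_ (fun i => ?_) i
        · rw [Fin.succ_last, e1]
          rw [e2]
          exact hc'
        · rw [Fin.succ_castSucc, e1]
          rw [e1]
          exact hp' i
      · funext i
        show Fin.snoc (α := fun _ => V) p c i.castSucc = p i
        rw [Fin.snoc_castSucc]
    · intro c _ c' _ hcc
      have h1 := congrFun hcc (Fin.last _)
      change Fin.snoc (α := fun _ => V) p c (Fin.last _) =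
        Fin.snoc (α := fun _ => V) p c' (Fin.last _) at h1
      rwa [Fin.snoc_last, Fin.snoc_last] at h1
  rw [hA, hB] at key
  exact key

lemma WW_zero (S : ℕ → V → V → Prop) (P : V → Prop) (X : V → Finset V)
    (h : ∀ w, P w → ∀ y ∈ X w, S 0 y w) :
    ∑ w ∈ Finset.univ.filter P, (X w).card ≤ WW 0 S := by
  rw [← Finset.card_sigma]
  unfold WW
  refine Finset.card_le_card_of_injOn (fun z => ![z.2, z.1]) ?_ ?_
  · intro z hz
    have hz' := Finset.mem_sigma.mp (Finset.mem_coe.mp hz)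
    refine Finset.mem_coe.mpr (Finset.mem_filter.mpr ⟨Finset.mem_univ _, ?_⟩)
    rintro ⟨i, hi⟩
    have hi0 : i = 0 := by omega
    subst hi0
    exact h z.1 (Finset.mem_filter.mp hz'.1).2 z.2 hz'.2
  · rintro ⟨w, y⟩ _ ⟨w', y'⟩ _ hzz
    have h0 : y = y' := congrFun hzz 0
    have h1 : w = w' := congrFun hzz 1
    subst h0
    subst h1
    rfl

/-- counting walks beginning with a restricted first step -/
lemma WW_ge (k m : ℕ) (S S' : ℕ → V → V → Prop) (P : V → Prop) (X : V → Finset V)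
    (hS : ∀ i, i ≤ k → ∀ a c, S' i a c ↔ S i a c ∧ (i = 0 → P c ∧ a ∈ X c))
    (hmin : ∀ i, i + 1 ≤ k → ∀ a b, S i a b →
      m ≤ (Finset.univ.filter (fun c => S (i + 1) b c)).card)
    (hX : ∀ w, P w → ∀ y ∈ X w, S 0 y w) :
    (∑ w ∈ Finset.univ.filter P, (X w).card) * m ^ k ≤ WW k S' := by
  have key : ∀ j, j ≤ k → (∑ w ∈ Finset.univ.filter P, (X w).card) * m ^ j ≤ WW j S' := by
    intro j
    induction j with
    | zero =>
      intro _
      rw [pow_zero, mul_one]
      exact WW_zero _ P X (fun w hw y hy =>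
        (hS 0 (Nat.zero_le _) y w).mpr ⟨hX w hw y hy, fun _ => ⟨hw, hy⟩⟩)
    | succ j ih =>
      intro hj
      rw [pow_succ, ← mul_assoc]
      refine (Nat.mul_le_mul_right m (ih (by omega))).trans (WW_step _ j m ?_)
      intro a b hab
      refine (hmin j hj a b ((hS j (by omega) a b).mp hab).1).trans (Finset.card_le_card ?_)
      intro c hc
      have hc' := (Finset.mem_filter.mp hc).2
      exact Finset.mem_filter.mpr ⟨Finset.mem_univ _,
        (hS (j + 1) hj b c).mpr ⟨hc', fun h => absurd h (by omega)⟩⟩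
  exact key k le_rfl

end walks

/-- the new layered relation -/
def Rn {V : Type} (k : ℕ) (R : ℕ → V → V → Prop) (b : Bool) (P : V → Prop)
    (X : V → Finset V) : ℕ → V → V → Prop :=
  fun i a c => R i a c ∧ (b = false → i = 0 → P c ∧ a ∈ X c) ∧
    (b = true → i = k → P a ∧ c ∈ X a)

lemma Rn_le {V : Type} (k : ℕ) (R : ℕ → V → V → Prop) (b : Bool) (P : V → Prop)
    (X : V → Finset V) : ∀ i a c, Rn k R b P X i a c → R i a c := fun _ _ _ h => h.1

lemma Stp_Rn {V : Type} (k : ℕ) (R : ℕ → V → V → Prop) (b : Bool) (P : V → Prop)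
    (X : V → Finset V) (i : ℕ) (hi : i ≤ k) (a c : V) :
    Stp k (Rn k R b P X) b i a c ↔ Stp k R b i a c ∧ (i = 0 → P c ∧ a ∈ X c) := by
  cases b with
  | false =>
    show Rn k R false P X i a c ↔ R i a c ∧ _
    unfold Rn
    constructor
    · rintro ⟨h1, h2, -⟩
      exact ⟨h1, h2 rfl⟩
    · rintro ⟨h1, h2⟩
      exact ⟨h1, fun _ => h2, fun h => absurd h (by decide)⟩
  | true =>
    show Rn k R true P X (k - i) c a ↔ R (k - i) c a ∧ _
    unfold Rn
    constructor
    · rintro ⟨h1, -, h2⟩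
      exact ⟨h1, fun h => h2 rfl (by omega)⟩
    · rintro ⟨h1, h2⟩
      refine ⟨h1, fun h => absurd h (by decide), fun _ h => ?_⟩
      have h3 : i = 0 := by omega
      exact h2 h3

lemma Stp_mono {V : Type} (k : ℕ) (R R' : ℕ → V → V → Prop) (b : Bool)
    (h : ∀ i a c, R' i a c → R i a c) (i : ℕ) (a c : V) (h' : Stp k R' b i a c) :
    Stp k R b i a c := by
  cases b with
  | false => exact h i a c h'
  | true => exact h (k - i) c a h'

lemma ER_mono {k : ℕ} {ι V : Type} (T : TE k ι) (R R' : ℕ → V → V → Prop)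
    (h : ∀ i a c, R' i a c → R i a c) (x : ι) (a b : V) (h' : ER T R' x a b) :
    ER T R x a b := by
  unfold ER at h' ⊢
  by_cases hx : T.Cn x
  · rw [if_pos hx] at h' ⊢
    exact Stp_mono k R R' _ h _ _ _ h'
  · rw [if_neg hx] at h' ⊢
    exact Stp_mono k R R' _ h _ _ _ h'

lemma RR_mono {k : ℕ} {ι V : Type} (T : TE k ι) (R R' : ℕ → V → V → Prop)
    (h : ∀ i a c, R' i a c → R i a c) (x : ι) (a b : V) (h' : RR T R' x a b) :
    RR T R x a b := by
  unfold RR at h' ⊢
  by_cases hx : T.Cn x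
  · rw [if_pos hx] at h' ⊢
    exact Stp_mono k R R' _ h _ _ _ h'
  · rw [if_neg hx] at h' ⊢
    exact Stp_mono k R R' _ h _ _ _ h'

lemma RR_iff {k : ℕ} {ι V : Type} (T : TE k ι) (R : ℕ → V → V → Prop) (s : ι)
    (hs : T.Cn s) (w y : V) : RR T R s w y ↔ Stp k R (T.kb s) 0 y w := by
  unfold RR
  rw [if_pos hs]

lemma Stp_adj {V : Type} (G : SimpleGraph V) (He : V → V → Prop) (k : ℕ)
    (R : ℕ → V → V → Prop) (hR : Hst G He k R) (b : Bool) (y w : V)
    (h : Stp k R b 0 y w) : G.Adj w y := by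
  cases b with
  | false => exact ((hR 0 (Nat.zero_le _) y w h).1).symm
  | true => exact (hR (k - 0) (Nat.sub_le _ _) w y h).1

lemma WW_Stp {V : Type} [Fintype V] (k : ℕ) (R : ℕ → V → V → Prop) (b : Bool) :
    WW k (Stp k R b) ≤ WW k R := by
  cases b with
  | false =>
    have h : WW k (Stp k R false) = WW k R := WW_congr k _ _ (fun i _ a c => Iff.rfl)
    exact h.le
  | true =>
    have h : WW k (Stp k R true) = WW k (fun i a c => R (k - i) c a) :=
      WW_congr k _ _ (fun i _ a c => Iff.rfl)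
    exact h.le.trans (WW_rev k R)

lemma Stp_min {V : Type} [Fintype V] (k m : ℕ) (R : ℕ → V → V → Prop) (hR : MinD k R m)
    (b : Bool) (i : ℕ) (hi : i + 1 ≤ k) (a c : V) (h : Stp k R b i a c) :
    m ≤ (Finset.univ.filter (fun d => Stp k R b (i + 1) c d)).card := by
  cases b with
  | false =>
    exact (hR i (by omega) a c h).2.2.1 hi
  | true =>
    have h1 := (hR (k - i) (Nat.sub_le _ _) c a h).2.2.2 (by omega)
    refine h1.trans (Finset.card_le_card ?_)
    intro d hd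
    have hd' := (Finset.mem_filter.mp hd).2
    refine Finset.mem_filter.mpr ⟨Finset.mem_univ _, ?_⟩
    show R (k - (i + 1)) d c
    have e : k - (i + 1) = k - i - 1 := by omega
    rw [e]
    exact hd'

end Pool.Agent.TH476.KK.KRed

namespace Pool.Agent.TH476.KK

open Pool.Agent.TH476 Pool.Agent.TH476.KK.KRed

theorem red_holds : S_RED := by
  intro k hk ι _ T K hK L hL Q hQ
  obtain ⟨M, hM⟩ : ∃ M, M = (L + 1) * Fintype.card ι + 1 := ⟨_, rfl⟩
  obtain ⟨m0, hm0⟩ : ∃ m0, m0 = 2 * Q * K * M := ⟨_, rfl⟩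
  refine ⟨(2 * L + 2) * Fintype.card ι + L + 1, m0 * Fintype.card ι,
    Q * (2 * Q * 2 ^ m0) * Q ^ k, by omega, by positivity, ?_⟩
  intro U u hU huU hut huC hsC V _ _ G D hG hD He R hR m hmin hDm hcount
  obtain ⟨L', hL'⟩ : ∃ L', L' = (2 * L + 2) * Fintype.card ι + L + 1 := ⟨_, rfl⟩
  rw [← hL'] at hcount
  obtain ⟨P, hP⟩ : ∃ P : V → Prop, P = fun w => PopW T (ER T R) (RR T R) (Dsc T U u) u L'
    (m0 * Fintype.card ι) Q D w := ⟨_, rfl⟩
  have hP' : ∀ w, P w ↔ PopW T (ER T R) (RR T R) (Dsc T U u) u L'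
    (m0 * Fintype.card ι) Q D w := fun w => by rw [hP]
  have hcount' : Fintype.card V ≤ Q * (Finset.univ.filter P).card := by
    rw [hP]
    exact hcount
  have key : ∀ w, ∃ (ρ : Fin m0 → ι → V) (J : Finset (Fin m0)) (X : Finset V),
      P w → M ≤ J.card ∧
      (∀ j, ∀ q ∈ Dsc T U u, ∀ q' ∈ Dsc T U u, T.Qn q → T.Qn q' → ρ j q = ρ j q' → q = q') ∧
      (∀ i j, i ≠ j → Disjoint (((Dsc T U u).filter (fun q => T.Qn q)).image (ρ i))
        (((Dsc T U u).filter (fun q => T.Qn q)).image (ρ j))) ∧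
      (∀ y ∈ X, RR T R (T.par u) w y ∧ ∀ j ∈ J,
        RichAt T (ER T R) (RR T R) (Dsc T U u) u L' y (ρ j)) ∧
      D ≤ 2 * Q * 2 ^ m0 * X.card := by
    intro w
    by_cases hw : P w
    · have hN : (Finset.univ.filter (fun y => RR T R (T.par u) w y)).card ≤ K * D := by
        refine (Finset.card_le_card ?_).trans (hG.hi w)
        intro y hy
        have hy' := (Finset.mem_filter.mp hy).2
        exact (mem_nb G w y).mpr (Stp_adj G He k R hR _ y w ((RR_iff T R _ hsC w y).mp hy'))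
      obtain ⟨ρ, J, X, h⟩ := pop_X T (ER T R) (RR T R) (Dsc T U u) u L'
        (m0 * Fintype.card ι) Q K D m0 M w ((hP' w).mp hw)
        le_rfl hN hQ hK (by omega) hD hm0
      exact ⟨ρ, J, X, fun _ => h⟩
    · exact ⟨fun _ _ => w, ∅, ∅, fun h => absurd h hw⟩
  choose ρ J X hX using key
  have hfact : ∀ w y, RR T (Rn k R (T.kb (T.par u)) P X) (T.par u) w y → P w ∧ y ∈ X w := by
    intro w y h
    rw [RR_iff T _ _ hsC, Stp_Rn k R _ P X 0 (Nat.zero_le _)] at h
    exact h.2 rfl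
  refine ⟨Rn k R (T.kb (T.par u)) P X, Rn_le k R _ P X, ?_, ?_⟩
  · have h1 := WW_ge k m (Stp k R (T.kb (T.par u)))
      (Stp k (Rn k R (T.kb (T.par u)) P X) (T.kb (T.par u))) P X
      (fun i hi a c => Stp_Rn k R _ P X i hi a c)
      (fun i hi a b h => Stp_min k m R hmin _ i hi a b h)
      (fun w hw y hy => (RR_iff T R _ hsC w y).mp ((hX w hw).2.2.2.1 y hy).1)
    have h3 := h1.trans (WW_Stp k (Rn k R (T.kb (T.par u)) P X) (T.kb (T.par u)))
    calc Fintype.card V * D ^ (k + 1)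
        = (Fintype.card V * D) * D ^ k := by ring
      _ ≤ (Q * (Finset.univ.filter P).card * D) * (Q * m) ^ k :=
          Nat.mul_le_mul (Nat.mul_le_mul_right _ hcount') (Nat.pow_le_pow_left hDm k)
      _ = (Q * ∑ _w ∈ Finset.univ.filter P, D) * (Q * m) ^ k := by
          rw [Finset.sum_const, smul_eq_mul, mul_assoc Q]
      _ ≤ (Q * ∑ w ∈ Finset.univ.filter P, 2 * Q * 2 ^ m0 * (X w).card) * (Q * m) ^ k := by
          refine Nat.mul_le_mul_right _ (Nat.mul_le_mul_left _ (Finset.sum_le_sum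
            fun w hw => ?_))
          exact (hX w (Finset.mem_filter.mp hw).2).2.2.2.2
      _ = Q * (2 * Q * 2 ^ m0) * Q ^ k *
            ((∑ w ∈ Finset.univ.filter P, (X w).card) * m ^ k) := by
          rw [← Finset.mul_sum, mul_pow]
          ring
      _ ≤ _ := Nat.mul_le_mul_left _ h3
  · intro w0 hBU
    refine transfer T (ER T R) (RR T R) (ER T (Rn k R (T.kb (T.par u)) P X))
      (RR T (Rn k R (T.kb (T.par u)) P X)) U u hU huU hut huC hsC L L' m0 M hL (by omega)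
      (by omega) (ER_mono T R _ (Rn_le k R _ P X)) (RR_mono T R _ (Rn_le k R _ P X)) ρ J
      ?_ ?_ ?_ ?_ w0 hBU
    · intro w y h
      exact (hX w (hfact w y h).1).1
    · intro w y h
      exact (hX w (hfact w y h).1).2.1
    · intro w y h
      exact (hX w (hfact w y h).1).2.2.1
    · intro w y h
      exact ((hX w (hfact w y h).1).2.2.2.1 y (hfact w y h).2).2

end Pool.Agent.TH476.KK
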