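import Pool.Agent.TH476.KHub

/-!
# The pruned family of rich paths
-/

set_option autoImplicit false

open Classical

namespace Pool.Agent.TH476.KK

open Pool.Agent.TH476

namespace KRst

/-- the extremal argument -/
lemma ext_arg {α κ β γ : Type} [DecidableEq β] [DecidableEq γ] (A : Finset α) (I : Finset κ) (f : κ → α → β) (w : κ → ℕ)
    (g : α → γ) (q0 : ℕ) (h : 2 * ∑ k ∈ I, w k * (A.image (f k)).card < q0 * A.card) :
    ∃ S ⊆ A, S.Nonempty ∧
      (∀ p ∈ S, ∀ k ∈ I, w k ≤ q0 * (S.filter (fun p' => f k p' = f k p)).card) ∧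
      ∀ p ∈ S, (A.filter (fun p' => g p' = g p)).card ≤
        2 * (S.filter (fun p' => g p' = g p)).card := by
  have hq0 : 0 < q0 := by
    by_contra hcon
    have : q0 = 0 := by omega
    rw [this, zero_mul] at h
    omega
  obtain ⟨a, ha⟩ : ∃ a : γ → ℕ, ∀ e, a e = (A.filter (fun p' => g p' = e)).card :=
    ⟨_, fun _ => rfl⟩
  obtain ⟨Φ, hΦ⟩ : ∃ Φ : Finset α → ℤ, ∀ S, Φ S = 2 * (q0 : ℤ) * (S.card : ℤ) -
      2 * ((∑ k ∈ I, w k * (S.image (f k)).card : ℕ) : ℤ) -
      (q0 : ℤ) * ((∑ e ∈ S.image g, a e : ℕ) : ℤ) := ⟨_, fun _ => rfl⟩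
  obtain ⟨S, hS, hmax⟩ := Finset.exists_max_image A.powerset Φ ⟨A, Finset.mem_powerset_self A⟩
  rw [Finset.mem_powerset] at hS
  have hmono1 : ∀ (k : κ) (S' : Finset α), S' ⊆ S →
      (S'.image (f k)).card ≤ (S.image (f k)).card := fun k S' hs =>
    Finset.card_le_card (Finset.image_subset_image hs)
  refine ⟨S, hS, ?_, ?_, ?_⟩
  · by_contra hne
    rw [Finset.not_nonempty_iff_eq_empty] at hne
    have h1 := hmax A (Finset.mem_powerset_self A)
    rw [hne, hΦ, hΦ] at h1
    have h2 : A.card = ∑ e ∈ A.image g, a e := by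
      rw [Finset.card_eq_sum_card_image g A]
      exact Finset.sum_congr rfl fun e _ => (ha e).symm
    rw [← h2] at h1
    have h3 : ((∑ k ∈ I, w k * ((∅ : Finset α).image (f k)).card : ℕ) : ℤ) = 0 := by
      simp
    have h4 : ((∑ e ∈ (∅ : Finset α).image g, a e : ℕ) : ℤ) = 0 := by
      simp
    rw [h3, h4, Finset.card_empty] at h1
    have h5 : (2 : ℤ) * ((∑ k ∈ I, w k * (A.image (f k)).card : ℕ) : ℤ) < (q0 : ℤ) * A.card := by
      exact_mod_cast h
    push_cast at h1 h5
    linarith
  · intro p hp k hk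
    obtain ⟨S', hS'⟩ : ∃ S', S' = S.filter (fun p' => ¬ f k p' = f k p) := ⟨_, rfl⟩
    have hsub : S' ⊆ S := by rw [hS']; exact Finset.filter_subset _ _
    have h1 := hmax S' (Finset.mem_powerset.2 (hsub.trans hS))
    rw [hΦ, hΦ] at h1
    have h2 : (S.filter (fun p' => f k p' = f k p)).card + S'.card = S.card := by
      rw [hS']
      exact Finset.card_filter_add_card_filter_not _
    have h3 : (∑ k' ∈ I, w k' * (S'.image (f k')).card) + w k ≤
        ∑ k' ∈ I, w k' * (S.image (f k')).card := by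
      rw [← Finset.add_sum_erase I _ hk, ← Finset.add_sum_erase I _ hk]
      have h4 : (S'.image (f k)).card + 1 ≤ (S.image (f k)).card := by
        have h5 : f k p ∉ S'.image (f k) := by
          intro hmem
          obtain ⟨p', hp', he⟩ := Finset.mem_image.1 hmem
          rw [hS', Finset.mem_filter] at hp'
          exact hp'.2 he
        rw [← Finset.card_insert_of_notMem h5]
        apply Finset.card_le_card
        intro x hx
        rcases Finset.mem_insert.1 hx with rfl | hx
        · exact Finset.mem_image_of_mem _ hp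
        · exact Finset.image_subset_image hsub hx
      have h6 : ∑ k' ∈ I.erase k, w k' * (S'.image (f k')).card ≤
          ∑ k' ∈ I.erase k, w k' * (S.image (f k')).card :=
        Finset.sum_le_sum fun k' _ => Nat.mul_le_mul_left _ (hmono1 k' S' hsub)
      have h7 : w k * (S'.image (f k)).card + w k ≤ w k * (S.image (f k)).card := by
        calc w k * (S'.image (f k)).card + w k = w k * ((S'.image (f k)).card + 1) := by ring
          _ ≤ _ := Nat.mul_le_mul_left _ h4
      omega
    have h8 : ∑ e ∈ S'.image g, a e ≤ ∑ e ∈ S.image g, a e :=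
      Finset.sum_le_sum_of_subset (Finset.image_subset_image hsub)
    have h9 : (q0 : ℤ) * ((∑ e ∈ S'.image g, a e : ℕ) : ℤ) ≤
        (q0 : ℤ) * ((∑ e ∈ S.image g, a e : ℕ) : ℤ) :=
      mul_le_mul_of_nonneg_left (by exact_mod_cast h8) (by positivity)
    have h10 : ((∑ k' ∈ I, w k' * (S'.image (f k')).card : ℕ) : ℤ) + (w k : ℤ) ≤
        ((∑ k' ∈ I, w k' * (S.image (f k')).card : ℕ) : ℤ) := by exact_mod_cast h3
    have h11 : ((S.filter (fun p' => f k p' = f k p)).card : ℤ) + (S'.card : ℤ) = S.card := by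
      exact_mod_cast h2
    have h12 : (q0 : ℤ) * (S.card : ℤ) = (q0 : ℤ) * (S'.card : ℤ) +
        (q0 : ℤ) * ((S.filter (fun p' => f k p' = f k p)).card : ℤ) := by
      rw [← h11]; ring
    have h13 : (w k : ℤ) ≤ (q0 : ℤ) * ((S.filter (fun p' => f k p' = f k p)).card : ℤ) := by
      linarith
    exact_mod_cast h13
  · intro p hp
    obtain ⟨S', hS'⟩ : ∃ S', S' = S.filter (fun p' => ¬ g p' = g p) := ⟨_, rfl⟩
    have hsub : S' ⊆ S := by rw [hS']; exact Finset.filter_subset _ _
    have h1 := hmax S' (Finset.mem_powerset.2 (hsub.trans hS))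
    rw [hΦ, hΦ] at h1
    have h2 : (S.filter (fun p' => g p' = g p)).card + S'.card = S.card := by
      rw [hS']
      exact Finset.card_filter_add_card_filter_not _
    have h3 : (∑ k' ∈ I, w k' * (S'.image (f k')).card) ≤
        ∑ k' ∈ I, w k' * (S.image (f k')).card :=
      Finset.sum_le_sum fun k' _ => Nat.mul_le_mul_left _ (hmono1 k' S' hsub)
    have h8 : (∑ e ∈ S'.image g, a e) + a (g p) ≤ ∑ e ∈ S.image g, a e := by
      rw [← Finset.sum_erase_add _ _ (Finset.mem_image_of_mem g hp)]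
      apply Nat.add_le_add_right
      apply Finset.sum_le_sum_of_subset
      intro e he
      obtain ⟨p', hp', rfl⟩ := Finset.mem_image.1 he
      have hp'2 := hp'
      rw [hS', Finset.mem_filter] at hp'2
      exact Finset.mem_erase.2 ⟨hp'2.2, Finset.mem_image_of_mem g hp'2.1⟩
    have h9 : (q0 : ℤ) * ((∑ e ∈ S'.image g, a e : ℕ) : ℤ) + (q0 : ℤ) * (a (g p) : ℤ) ≤
        (q0 : ℤ) * ((∑ e ∈ S.image g, a e : ℕ) : ℤ) := by
      rw [← mul_add]
      exact mul_le_mul_of_nonneg_left (by exact_mod_cast h8) (by positivity)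
    have h10 : ((∑ k' ∈ I, w k' * (S'.image (f k')).card : ℕ) : ℤ) ≤
        ((∑ k' ∈ I, w k' * (S.image (f k')).card : ℕ) : ℤ) := by exact_mod_cast h3
    have h11 : ((S.filter (fun p' => g p' = g p)).card : ℤ) + (S'.card : ℤ) = S.card := by
      exact_mod_cast h2
    have h12 : (q0 : ℤ) * (S.card : ℤ) = (q0 : ℤ) * (S'.card : ℤ) +
        (q0 : ℤ) * ((S.filter (fun p' => g p' = g p)).card : ℤ) := by
      rw [← h11]; ring
    have h13 : (q0 : ℤ) * (a (g p) : ℤ) ≤
        (q0 : ℤ) * (2 * ((S.filter (fun p' => g p' = g p)).card : ℤ)) := by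
      linarith
    have h14 : (a (g p) : ℤ) ≤ 2 * ((S.filter (fun p' => g p' = g p)).card : ℤ) :=
      le_of_mul_le_mul_left h13 (by exact_mod_cast hq0)
    rw [← ha]
    exact_mod_cast h14

variable {V : Type}

lemma ex_le {l : ℕ} (p : Fin (l + 1) → V) {i : ℕ} (h : i ≤ l) :
    ex l p i = p ⟨i, Nat.lt_succ_of_le h⟩ := by
  unfold ex
  congr 1
  exact Fin.ext (min_eq_left h)

/-- the positions from `i` to `j` -/
noncomputable def key [Nonempty V] (l i j : ℕ) (p : Fin (l + 1) → V) : Fin (l + 1) → V :=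
  fun m => if i ≤ m.val ∧ m.val ≤ j then p m else Classical.arbitrary V

lemma key_eq [Nonempty V] {l i j : ℕ} (hj : j ≤ l) {p p' : Fin (l + 1) → V}
    (h : key l i j p' = key l i j p) : ∀ m, i ≤ m → m ≤ j → ex l p' m = ex l p m := by
  intro m h1 h2
  have h3 := congrFun h ⟨m, Nat.lt_succ_of_le (h2.trans hj)⟩
  unfold key at h3
  rw [if_pos ⟨h1, h2⟩, if_pos ⟨h1, h2⟩] at h3
  rw [ex_le _ (h2.trans hj), ex_le _ (h2.trans hj)]
  exact h3

variable [Fintype V]

/-- the number of the keys of paths -/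
lemma key_count [Nonempty V] {G : SimpleGraph V} {D K : ℕ} (hG : AR G D K)
    (B : ℕ → V → V → Prop) (l i : ℕ) : ∀ d : ℕ, i + d ≤ l →
    ((RCs G B l).image (key l i (i + d))).card ≤ Fintype.card V * (K * D) ^ d := by
  intro d
  induction d with
  | zero =>
    intro hd
    rw [pow_zero, mul_one]
    have h1 : (RCs G B l).image (key l i (i + 0)) ⊆ (Finset.univ : Finset V).image
        (fun v => fun m : Fin (l + 1) => if i ≤ m.val ∧ m.val ≤ i + 0 then v
          else Classical.arbitrary V) := by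
      intro x hx
      obtain ⟨p, hp, rfl⟩ := Finset.mem_image.1 hx
      refine Finset.mem_image.2 ⟨p ⟨i, by omega⟩, Finset.mem_univ _, ?_⟩
      funext m
      unfold key
      by_cases hm : i ≤ m.val ∧ m.val ≤ i + 0
      · rw [if_pos hm, if_pos hm]
        congr 1
        exact Fin.ext (by
          show i = m.val
          omega)
      · rw [if_neg hm, if_neg hm]
    refine (Finset.card_le_card h1).trans (Finset.card_image_le.trans ?_)
    exact Finset.card_univ.le
  | succ d ih =>
    intro hd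
    have ih := ih (by omega)
    obtain ⟨X, hX⟩ : ∃ X, X = (RCs G B l).image (key l i (i + (d + 1))) := ⟨_, rfl⟩
    rw [← hX]
    have h1 : X.image (key l i (i + d)) ⊆ (RCs G B l).image (key l i (i + d)) := by
      intro y hy
      obtain ⟨x, hx, rfl⟩ := Finset.mem_image.1 hy
      rw [hX] at hx
      obtain ⟨p, hp, rfl⟩ := Finset.mem_image.1 hx
      refine Finset.mem_image.2 ⟨p, hp, ?_⟩
      funext m
      unfold key
      by_cases hm : i ≤ m.val ∧ m.val ≤ i + d
      · rw [if_pos hm, if_pos hm, if_pos ⟨hm.1, by omega⟩]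
      · rw [if_neg hm, if_neg hm]
    have h2 : X.card ≤ (K * D) * (X.image (key l i (i + d))).card := by
      apply Finset.card_le_mul_card_image
      intro y hy
      obtain ⟨x, hx, hxy⟩ := Finset.mem_image.1 hy
      rw [← hxy]
      have h3 : ∀ z ∈ X, ∃ p ∈ RCs G B l, z = key l i (i + (d + 1)) p := by
        intro z hz
        rw [hX] at hz
        obtain ⟨p, hp, rfl⟩ := Finset.mem_image.1 hz
        exact ⟨p, hp, rfl⟩
      refine le_trans ?_ (hG.hi (x ⟨i + d, by omega⟩))
      refine Finset.card_le_card_of_injOn (fun z => z ⟨i + (d + 1), by omega⟩) ?_ ?_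
      · intro z hz
        have hz := Finset.mem_coe.1 hz
        rw [Finset.mem_filter] at hz
        obtain ⟨p, hp, hpz⟩ := h3 z hz.1
        have h4 := congrFun hz.2 ⟨i + d, by omega⟩
        have h5 : z ⟨i + d, by omega⟩ = x ⟨i + d, by omega⟩ := by
          unfold key at h4
          rw [if_pos ⟨by show i ≤ i + d; omega, le_refl _⟩,
            if_pos ⟨by show i ≤ i + d; omega, le_refl _⟩] at h4
          exact h4
        refine Finset.mem_coe.2 ((mem_nb _ _ _).2 ?_)
        show G.Adj (x ⟨i + d, by omega⟩) (z ⟨i + (d + 1), by omega⟩)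
        rw [← h5, hpz]
        unfold key
        rw [if_pos ⟨by show i ≤ i + d; omega, by show i + d ≤ i + (d + 1); omega⟩,
          if_pos ⟨by show i ≤ i + (d + 1); omega, le_refl _⟩]
        unfold RCs at hp
        rw [Finset.mem_filter] at hp
        have h6 := hp.2.1.1 (i + d) (by omega)
        rw [ex_le _ (by omega), ex_le _ (by omega)] at h6
        exact h6
      · intro z hz z' hz' hzz
        have hz := Finset.mem_coe.1 hz
        have hz' := Finset.mem_coe.1 hz'
        rw [Finset.mem_filter] at hz hz'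
        obtain ⟨p, hp, hpz⟩ := h3 z hz.1
        obtain ⟨p', hp', hpz'⟩ := h3 z' hz'.1
        have h4 := hz.2.trans hz'.2.symm
        change z ⟨i + (d + 1), _⟩ = z' ⟨i + (d + 1), _⟩ at hzz
        funext m
        by_cases hm : i ≤ m.val ∧ m.val ≤ i + d
        · have h5 := congrFun h4 m
          unfold key at h5
          rw [if_pos hm, if_pos hm] at h5
          exact h5
        · by_cases hm2 : m.val = i + (d + 1)
          · have h6 : m = ⟨i + (d + 1), by omega⟩ := Fin.ext hm2
            rw [h6]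
            exact hzz
          · have h7 : ¬ (i ≤ m.val ∧ m.val ≤ i + (d + 1)) := by omega
            rw [hpz, hpz']
            unfold key
            rw [if_neg h7, if_neg h7]
    calc X.card ≤ (K * D) * (X.image (key l i (i + d))).card := h2
      _ ≤ (K * D) * (Fintype.card V * (K * D) ^ d) :=
          Nat.mul_le_mul_left _ ((Finset.card_le_card h1).trans ih)
      _ = Fintype.card V * (K * D) ^ (d + 1) := by ring

/-- reversal -/
def rv {l : ℕ} (p : Fin (l + 1) → V) : Fin (l + 1) → V := fun i => p i.rev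

omit [Fintype V] in
lemma rv_rv {l : ℕ} (p : Fin (l + 1) → V) : rv (rv p) = p := by
  funext i
  unfold rv
  rw [Fin.rev_rev]

omit [Fintype V] in
lemma rv_inj {l : ℕ} {p p' : Fin (l + 1) → V} (h : rv p = rv p') : p = p' := by
  rw [← rv_rv p, h, rv_rv]

omit [Fintype V] in
lemma ex_rv {l : ℕ} (p : Fin (l + 1) → V) {m : ℕ} (h : m ≤ l) :
    ex l (rv p) m = ex l p (l - m) := by
  rw [ex_le _ h, ex_le _ (by omega)]
  unfold rv
  congr 1
  apply Fin.ext
  rw [Fin.val_rev]
  show l + 1 - (m + 1) = l - m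
  omega

lemma RCs_rv {G : SimpleGraph V} {B : ℕ → V → V → Prop} (hB : BSy B) {l : ℕ}
    {p : Fin (l + 1) → V} (hp : p ∈ RCs G B l) : rv p ∈ RCs G B l := by
  unfold RCs at hp ⊢
  rw [Finset.mem_filter] at hp ⊢
  obtain ⟨-, ⟨h1, h2, h3⟩, h4⟩ := hp
  refine ⟨Finset.mem_univ _, ⟨?_, ?_, ?_⟩, ?_⟩
  · intro i hi
    rw [ex_rv p (by omega), ex_rv p (by omega)]
    have h5 := h1 (l - (i + 1)) (by omega)
    have h6 : l - (i + 1) + 1 = l - i := by omega
    rw [h6] at h5
    exact h5.symm
  · intro i i' hi hi' h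
    rw [ex_rv p hi, ex_rv p hi'] at h
    have := h2 (l - i) (l - i') (by omega) (by omega) h
    omega
  · intro a b hab hb h5 h6 h7
    rw [ex_rv p (by omega), ex_rv p hb] at h7
    have h8 := h3 (l - b) (l - a) (by omega) (by omega) (by omega) (by omega)
    have h9 : l - a - (l - b) = b - a := by omega
    rw [h9] at h8
    exact h8 (hB _ _ _ h7)
  · rw [ex_rv p (by omega), ex_rv p le_rfl, Nat.sub_zero, Nat.sub_self]
    exact hB _ _ _ h4

/-- many paths between the ends of a rich path -/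
lemma rich_card {G : SimpleGraph V} {B : ℕ → V → V → Prop} {l M : ℕ} (hl : 2 ≤ l)
    (hR : RichSp G B l M) {p : Fin (l + 1) → V} (hp : p ∈ RCs G B l) :
    M ≤ ((RCs G B l).filter (fun p' => (ex l p' 0, ex l p' l) = (ex l p 0, ex l p l))).card := by
  unfold RCs at hp
  rw [Finset.mem_filter] at hp
  obtain ⟨P, hP, hd⟩ := hR _ _ hp.2.2
  obtain ⟨F, hF⟩ : ∃ F : Fin M → Fin (l + 1) → V, ∀ t i, F t i = P t i.val := ⟨_, fun _ _ => rfl⟩
  have hex : ∀ t i, i ≤ l → ex l (F t) i = P t i := by
    intro t i hi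
    rw [ex_le _ hi, hF]
  have hcard : M = (Finset.univ : Finset (Fin M)).card := by
    rw [Finset.card_univ, Fintype.card_fin]
  conv_lhs => rw [hcard]
  refine Finset.card_le_card_of_injOn F ?_ ?_
  · intro t _
    obtain ⟨h0, hl', h1, h2, h3⟩ := hP t
    refine Finset.mem_coe.2 (Finset.mem_filter.2 ⟨?_, ?_⟩)
    · unfold RCs
      refine Finset.mem_filter.2 ⟨Finset.mem_univ _, ⟨?_, ?_, ?_⟩, ?_⟩
      · intro i hi
        rw [hex t i (by omega), hex t (i + 1) (by omega)]
        exact h1 i hi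
      · intro i i' hi hi' h
        rw [hex t i hi, hex t i' hi'] at h
        exact h2 i i' hi hi' h
      · intro a b hab hb h5 h6
        rw [hex t a (by omega), hex t b hb]
        exact h3 a b hab hb h5 h6
      · rw [hex t 0 (by omega), hex t l le_rfl, h0, hl']
        exact hp.2.2
    · rw [hex t 0 (by omega), hex t l le_rfl, h0, hl']
  · intro t _ t' _ h
    by_contra hne
    have h1 := hd t t' 1 1 hne le_rfl (by omega) le_rfl (by omega)
    apply h1
    have h2 := congrFun h ⟨1, by omega⟩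
    rw [hF, hF] at h2
    exact h2

end KRst

open KRst

theorem rst_holds : S_RST := by
  intro l K Q hl hK hQ
  obtain ⟨q0, hq0⟩ : ∃ q0, q0 = 2 * (l + 1) ^ 2 * K ^ l * Q + 1 := ⟨_, rfl⟩
  refine ⟨q0, by omega, fun M' => ⟨2 * M', ?_⟩⟩
  intro V _ _ G D B hG hD hB hR hcnt
  obtain ⟨A, hA⟩ : ∃ A, A = RCs G B l := ⟨_, rfl⟩
  obtain ⟨I, hI⟩ : ∃ I : Finset (ℕ × ℕ), I = (Finset.range (l + 1) ×ˢ Finset.range (l + 1)).filter
      (fun x => x.1 ≤ x.2) := ⟨_, rfl⟩
  have hmemI : ∀ i j, i ≤ j → j ≤ l → (i, j) ∈ I := by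
    intro i j hij hj
    rw [hI, Finset.mem_filter, Finset.mem_product, Finset.mem_range, Finset.mem_range]
    exact ⟨⟨by show i < l + 1; omega, by show j < l + 1; omega⟩, hij⟩
  have hcardI : I.card ≤ (l + 1) ^ 2 := by
    rw [hI]
    refine (Finset.card_filter_le _ _).trans ?_
    rw [Finset.card_product, Finset.card_range, sq]
  have hN : 0 < Fintype.card V := Fintype.card_pos
  have hApos : 0 < A.card := by
    by_contra hcon
    have h0 : A.card = 0 := by omega
    rw [← hA, h0, mul_zero] at hcnt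
    have : 0 < Fintype.card V * D ^ l := by positivity
    omega
  have hkey : 2 * ∑ x ∈ I, D ^ (l - (x.2 - x.1)) * (A.image (key l x.1 x.2)).card <
      q0 * A.card := by
    have h1 : ∀ x ∈ I, D ^ (l - (x.2 - x.1)) * (A.image (key l x.1 x.2)).card ≤
        K ^ l * (Fintype.card V * D ^ l) := by
      rintro ⟨i, j⟩ hx
      rw [hI, Finset.mem_filter, Finset.mem_product, Finset.mem_range, Finset.mem_range] at hx
      obtain ⟨⟨hi, hj⟩, hij⟩ := hx
      simp only at hi hj hij ⊢
      obtain ⟨d, rfl⟩ : ∃ d, j = i + d := ⟨j - i, by omega⟩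
      have h2 := key_count hG B l i d (by omega)
      rw [← hA] at h2
      have e1 : i + d - i = d := by omega
      rw [e1]
      calc D ^ (l - d) * (A.image (key l i (i + d))).card ≤
            D ^ (l - d) * (Fintype.card V * (K * D) ^ d) := Nat.mul_le_mul_left _ h2
        _ = K ^ d * (Fintype.card V * (D ^ (l - d) * D ^ d)) := by rw [mul_pow]; ring
        _ = K ^ d * (Fintype.card V * D ^ l) := by
            rw [← pow_add, Nat.sub_add_cancel (by omega)]
        _ ≤ K ^ l * (Fintype.card V * D ^ l) :=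
            Nat.mul_le_mul_right _ (Nat.pow_le_pow_right hK (by omega))
    have h3 : ∑ x ∈ I, D ^ (l - (x.2 - x.1)) * (A.image (key l x.1 x.2)).card ≤
        (l + 1) ^ 2 * (K ^ l * (Fintype.card V * D ^ l)) := by
      refine (Finset.sum_le_sum h1).trans ?_
      rw [Finset.sum_const, smul_eq_mul]
      exact Nat.mul_le_mul_right _ hcardI
    rw [← hA] at hcnt
    calc 2 * ∑ x ∈ I, D ^ (l - (x.2 - x.1)) * (A.image (key l x.1 x.2)).card ≤
          2 * ((l + 1) ^ 2 * (K ^ l * (Fintype.card V * D ^ l))) := Nat.mul_le_mul_left _ h3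
      _ ≤ 2 * ((l + 1) ^ 2 * (K ^ l * (Q * A.card))) := by gcongr
      _ < (2 * (l + 1) ^ 2 * K ^ l * Q + 1) * A.card := by
          have : (2 * (l + 1) ^ 2 * K ^ l * Q + 1) * A.card =
            2 * ((l + 1) ^ 2 * (K ^ l * (Q * A.card))) + A.card := by ring
          omega
      _ = q0 * A.card := by rw [hq0]
  obtain ⟨S, hSA, hSne, hScls, hSpr⟩ := ext_arg A I (fun x => key l x.1 x.2)
    (fun x => D ^ (l - (x.2 - x.1))) (fun p => (ex l p 0, ex l p l)) q0 hkey
  have hprS : ∀ p ∈ S, M' ≤
      (S.filter (fun p' => (ex l p' 0, ex l p' l) = (ex l p 0, ex l p l))).card := by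
    intro p hp
    have h1 := hSpr p hp
    have h2 := rich_card hl hR (hA ▸ hSA hp)
    rw [← hA] at h2
    have h3 := h2.trans h1
    omega
  refine ⟨S ∪ S.image rv, ?_, ?_, ?_, ?_, ?_⟩
  · exact hSne.mono Finset.subset_union_left
  · intro p hp
    rcases Finset.mem_union.1 hp with hp | hp
    · exact hA ▸ hSA hp
    · obtain ⟨p0, hp0, rfl⟩ := Finset.mem_image.1 hp
      exact RCs_rv hB (hA ▸ hSA hp0)
  · intro p hp
    show rv p ∈ S ∪ S.image rv
    rcases Finset.mem_union.1 hp with hp | hp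
    · exact Finset.mem_union_right _ (Finset.mem_image_of_mem _ hp)
    · obtain ⟨p0, hp0, rfl⟩ := Finset.mem_image.1 hp
      rw [rv_rv]
      exact Finset.mem_union_left _ hp0
  · intro p hp i j hij hj
    rcases Finset.mem_union.1 hp with hp | hp
    · refine (hScls p hp (i, j) (hmemI i j hij hj)).trans (Nat.mul_le_mul_left _ ?_)
      refine Finset.card_le_card fun p' hp' => ?_
      rw [Finset.mem_filter] at hp' ⊢
      exact ⟨Finset.mem_union_left _ hp'.1, key_eq hj hp'.2⟩
    · obtain ⟨p0, hp0, rfl⟩ := Finset.mem_image.1 hp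
      have h1 := hScls p0 hp0 (l - j, l - i) (hmemI (l - j) (l - i) (by omega) (by omega))
      simp only at h1
      have e1 : l - i - (l - j) = j - i := by omega
      rw [e1] at h1
      refine h1.trans (Nat.mul_le_mul_left _ ?_)
      refine Finset.card_le_card_of_injOn rv ?_ (fun a _ b _ h => rv_inj h)
      intro p' hp'
      have hp' := Finset.mem_coe.1 hp'
      rw [Finset.mem_filter] at hp'
      refine Finset.mem_coe.2 (Finset.mem_filter.2
        ⟨Finset.mem_union_right _ (Finset.mem_image_of_mem _ hp'.1), ?_⟩)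
      intro m h2 h3
      rw [ex_rv _ (by omega), ex_rv _ (by omega)]
      exact key_eq (by omega) hp'.2 (l - m) (by omega) (by omega)
  · intro p hp
    rcases Finset.mem_union.1 hp with hp | hp
    · refine (hprS p hp).trans (Finset.card_le_card fun p' hp' => ?_)
      rw [Finset.mem_filter] at hp' ⊢
      have h1 := Prod.mk.inj hp'.2
      exact ⟨Finset.mem_union_left _ hp'.1, h1.1, h1.2⟩
    · obtain ⟨p0, hp0, rfl⟩ := Finset.mem_image.1 hp
      refine (hprS p0 hp0).trans ?_
      refine Finset.card_le_card_of_injOn rv ?_ (fun a _ b _ h => rv_inj h)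
      intro p' hp'
      have hp' := Finset.mem_coe.1 hp'
      rw [Finset.mem_filter] at hp'
      have h1 := Prod.mk.inj hp'.2
      refine Finset.mem_coe.2 (Finset.mem_filter.2
        ⟨Finset.mem_union_right _ (Finset.mem_image_of_mem _ hp'.1), ?_, ?_⟩)
      · rw [ex_rv _ (by omega), ex_rv _ (by omega), Nat.sub_zero]
        exact h1.2
      · rw [ex_rv _ le_rfl, ex_rv _ le_rfl, Nat.sub_self]
        exact h1.1

end Pool.Agent.TH476.KK
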