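import Pool.Agent.TH476.KHub

set_option autoImplicit false

open Classical

namespace Pool.Agent.TH476.KK.KSw

open Finset

/-- double counting of a relation between a finset and a fintype -/
lemma dbl {α V : Type} [Fintype V] (T : Finset α) (Sel : α → Finset V) :
    ∑ v : V, (T.filter (fun a => v ∈ Sel a)).card = ∑ a ∈ T, (Sel a).card := by
  simp_rw [Finset.card_filter]
  rw [Finset.sum_comm]
  refine Finset.sum_congr rfl fun a _ => ?_
  rw [← Finset.sum_filter]
  simp

lemma card_pairs {V : Type} [Fintype V] (P : V → Prop) (R : V → V → Prop) (q D : ℕ)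
    (h1 : D ≤ q * (univ.filter (fun z => P z)).card)
    (h2 : ∀ z, P z → D ≤ q * (univ.filter (fun z' => R z z')).card) :
    D ^ 2 ≤ q ^ 2 * (univ.filter (fun a : V × V => P a.1 ∧ R a.1 a.2)).card := by
  have h3 : (univ.filter (fun a : V × V => P a.1 ∧ R a.1 a.2)).card =
      ∑ z ∈ univ.filter (fun z => P z), (univ.filter (fun z' => R z z')).card := by
    rw [← Finset.card_sigma]
    refine Finset.card_bij (fun a _ => ⟨a.1, a.2⟩) ?_ ?_ ?_
    · intro a ha
      simp only [mem_filter, mem_univ, true_and] at ha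
      simp [ha.1, ha.2]
    · intro a _ b _ h
      simp only [Sigma.mk.injEq, heq_eq_eq] at h
      exact Prod.ext h.1 h.2
    · rintro ⟨a, b⟩ hb
      simp only [mem_sigma, mem_filter, mem_univ, true_and] at hb
      exact ⟨(a, b), by simp [hb.1, hb.2], rfl⟩
  rw [h3, pow_two, pow_two, mul_assoc, Finset.mul_sum]
  calc D * D ≤ (q * (univ.filter (fun z => P z)).card) * D := Nat.mul_le_mul_right _ h1
    _ = q * ((univ.filter (fun z => P z)).card * D) := by ring
    _ ≤ q * ∑ z ∈ univ.filter (fun z => P z), q * (univ.filter (fun z' => R z z')).card := by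
        refine Nat.mul_le_mul_left _ ?_
        rw [← smul_eq_mul, ← Finset.sum_const]
        refine Finset.sum_le_sum fun z hz => ?_
        exact h2 z (by simpa using hz)

theorem core {V : Type} [Fintype V] (G : SimpleGraph V) (R : V → V → V → Prop)
    (D K q M ζ m0 : ℕ) (hD : 0 < D) (hM0 : 0 < M)
    (adj : ∀ x y z, R x y z → G.Adj x y ∧ G.Adj y z)
    (rev : ∀ x y z, R x y z → R z y x)
    (c1 : ∀ x y z, R x y z → D ≤ q * (univ.filter (fun w => R x y w)).card)
    (pr : ∀ x y z, R x y z → M ≤ (univ.filter (fun w => R x w z)).card)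
    (deg : ∀ v, (univ.filter (fun w => G.Adj v w)).card ≤ K * D)
    (h : V) (S Z : Finset V) (hS : ∀ s ∈ S, ∃ z, R s h z) (hSc : S.card ≤ ζ) (hZc : Z.card ≤ ζ)
    (hSn : S.Nonempty) (hM : 2 * q ^ 2 * K ^ 2 * (m0 + 2 * ζ + 1) ≤ M) :
    ∃ v, v ∉ Z ∧ v ∉ S ∧ v ≠ h ∧ ∃ S' ⊆ S, S.card ≤ 2 * q ^ 2 * K ^ 2 * S'.card ∧
      ∀ s ∈ S', m0 ≤ (univ.filter (fun s' => R s h s' ∧ ∃ z', R s' v z')).card := by
  -- the pairs of ends of members with middle h
  set T : Finset (V × V) := univ.filter (fun a => R a.1 h a.2) with hT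
  have hTmem : ∀ a : V × V, a ∈ T ↔ R a.1 h a.2 := fun a => by simp [hT]
  have hsel : ∀ a : V × V, ∃ t : Finset V, a ∈ T → (∀ v ∈ t, R a.1 v a.2) ∧ t.card = M := by
    intro a
    by_cases ha : a ∈ T
    · obtain ⟨t, ht1, ht2⟩ := Finset.exists_subset_card_eq (pr _ _ _ ((hTmem a).mp ha))
      exact ⟨t, fun _ => ⟨fun v hv => by simpa using ht1 hv, ht2⟩⟩
    · exact ⟨∅, fun h' => absurd h' ha⟩
  choose Sel hSel using hsel
  set Ts : V → Finset (V × V) := fun s => T.filter (fun a => R s h a.1) with hTs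
  set W : V → ℕ := fun v => (T.filter (fun a => v ∈ Sel a)).card with hW
  set P : V → V → Finset V := fun s v =>
    univ.filter (fun z => R s h z ∧ ∃ z', (z, z') ∈ T ∧ v ∈ Sel (z, z')) with hP
  set Ws : V → V → ℕ := fun s v => ((Ts s).filter (fun a => v ∈ Sel a)).card with hWs
  set good : V → V → Prop := fun s v => v ∉ Z ∧ v ∉ S ∧ v ≠ h ∧ m0 ≤ (P s v).card with hgood
  set W' : V → V → ℕ := fun s v => if good s v then Ws s v else 0 with hW'
  have hWsW : ∀ s v, Ws s v ≤ W v := fun s v =>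
    Finset.card_le_card (Finset.filter_subset_filter _ (Finset.filter_subset _ _))
  have hW'W : ∀ s v, W' s v ≤ W v := by
    intro s v
    simp only [hW']
    split_ifs
    · exact hWsW s v
    · exact Nat.zero_le _
  -- sizes
  have hTc : T.card ≤ (K * D) ^ 2 := by
    have : T ⊆ (univ.filter (fun w => G.Adj h w)) ×ˢ (univ.filter (fun w => G.Adj h w)) := by
      intro a ha
      have := adj _ _ _ ((hTmem a).mp ha)
      simp [this.2, this.1.symm]
    calc T.card ≤ _ := Finset.card_le_card this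
      _ = (univ.filter (fun w => G.Adj h w)).card * (univ.filter (fun w => G.Adj h w)).card :=
        Finset.card_product _ _
      _ ≤ (K * D) * (K * D) := Nat.mul_le_mul (deg h) (deg h)
      _ = _ := by ring
  have hTsc : ∀ s ∈ S, D ^ 2 ≤ q ^ 2 * (Ts s).card := by
    intro s hs
    obtain ⟨z, hz⟩ := hS s hs
    have := card_pairs (fun z => R s h z) (fun z z' => R z h z') q D (c1 _ _ _ hz)
      (fun z hz => c1 _ _ _ (rev _ _ _ hz))
    refine this.trans (Nat.mul_le_mul_left _ (le_of_eq ?_))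
    congr 1
    ext a
    simp only [hTs, hT, mem_filter, mem_univ, true_and]
    tauto
  have hTsT : ∀ s, Ts s ⊆ T := fun s => Finset.filter_subset _ _
  have sumW : ∑ v, W v = M * T.card := by
    simp only [hW]
    rw [dbl, Finset.sum_const_nat (m := M) (fun a ha => (hSel a ha).2), mul_comm]
  have sumWs : ∀ s, ∑ v, Ws s v = M * (Ts s).card := by
    intro s
    simp only [hWs]
    rw [dbl, Finset.sum_const_nat (m := M) (fun a ha => (hSel a (hTsT s ha)).2), mul_comm]
  -- paths of length two from h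
  have sumN : ∑ v, (univ.filter (fun z' => G.Adj h z' ∧ G.Adj v z')).card ≤ (K * D) ^ 2 := by
    have e1 : ∀ v, univ.filter (fun z' => G.Adj h z' ∧ G.Adj v z') =
        (univ.filter (fun z' => G.Adj h z')).filter
          (fun z' => v ∈ univ.filter (fun w => G.Adj z' w)) := by
      intro v
      ext z'
      simp only [mem_filter, mem_univ, true_and]
      rw [G.adj_comm v z']
    have e2 : ∑ v, (univ.filter (fun z' => G.Adj h z' ∧ G.Adj v z')).card =
        ∑ z' ∈ univ.filter (fun z' => G.Adj h z'), (univ.filter (fun w => G.Adj z' w)).card := by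
      rw [← dbl (univ.filter (fun z' => G.Adj h z')) (fun z' => univ.filter (fun w => G.Adj z' w))]
      refine Finset.sum_congr rfl fun v _ => ?_
      rw [e1 v]
    rw [e2]
    calc _ ≤ ∑ z' ∈ univ.filter (fun z' => G.Adj h z'), K * D :=
          Finset.sum_le_sum fun z' _ => deg z'
      _ = (univ.filter (fun z' => G.Adj h z')).card * (K * D) := by
          rw [Finset.sum_const, smul_eq_mul]
      _ ≤ (K * D) * (K * D) := Nat.mul_le_mul_right _ (deg h)
      _ = _ := by ring
  -- pointwise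
  have hpt : ∀ s v, Ws s v ≤ W' s v + (if v ∈ insert h (Z ∪ S) then T.card else 0) +
      m0 * (univ.filter (fun z' => G.Adj h z' ∧ G.Adj v z')).card := by
    intro s v
    by_cases hg : good s v
    · have : W' s v = Ws s v := by simp only [hW']; rw [if_pos hg]
      rw [this]
      omega
    · by_cases hv : v ∈ insert h (Z ∪ S)
      · rw [if_pos hv]
        have : Ws s v ≤ T.card :=
          (Finset.card_le_card (Finset.filter_subset _ _)).trans (Finset.card_le_card (hTsT s))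
        omega
      · have hP' : (P s v).card < m0 := by
          by_contra hcon
          apply hg
          simp only [mem_insert, mem_union, not_or] at hv
          exact ⟨hv.2.1, hv.2.2, hv.1, not_lt.mp hcon⟩
        have hsub : (Ts s).filter (fun a => v ∈ Sel a) ⊆
            (P s v) ×ˢ (univ.filter (fun z' => G.Adj h z' ∧ G.Adj v z')) := by
          intro a ha
          rw [mem_filter] at ha
          have haT := hTsT s ha.1
          have h1 := (hSel a haT).1 v ha.2
          have h2 := (hTmem a).mp haT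
          have h3 : R s h a.1 := by
            have := ha.1
            simp only [hTs, mem_filter] at this
            exact this.2
          simp only [mem_product, hP, mem_filter, mem_univ, true_and]
          exact ⟨⟨h3, a.2, haT, ha.2⟩, (adj _ _ _ h2).2, (adj _ _ _ h1).2⟩
        have h4 : Ws s v ≤ m0 * (univ.filter (fun z' => G.Adj h z' ∧ G.Adj v z')).card := by
          calc Ws s v ≤ _ := Finset.card_le_card hsub
            _ = _ := Finset.card_product _ _
            _ ≤ _ := Nat.mul_le_mul_right _ hP'.le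
        omega
  have hcard : (insert h (Z ∪ S)).card ≤ 2 * ζ + 1 := by
    have h1 := Finset.card_insert_le h (Z ∪ S)
    have h2 := Finset.card_union_le Z S
    omega
  have hsumpt : ∀ s, M * (Ts s).card ≤ ∑ v, W' s v + (m0 + 2 * ζ + 1) * (K * D) ^ 2 := by
    intro s
    rw [← sumWs s]
    calc ∑ v, Ws s v ≤ ∑ v, (W' s v + (if v ∈ insert h (Z ∪ S) then T.card else 0) +
          m0 * (univ.filter (fun z' => G.Adj h z' ∧ G.Adj v z')).card) :=
          Finset.sum_le_sum fun v _ => hpt s v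
      _ = ∑ v, W' s v + ∑ v, (if v ∈ insert h (Z ∪ S) then T.card else 0) +
          m0 * ∑ v, (univ.filter (fun z' => G.Adj h z' ∧ G.Adj v z')).card := by
          rw [Finset.sum_add_distrib, Finset.sum_add_distrib, Finset.mul_sum]
      _ ≤ ∑ v, W' s v + (2 * ζ + 1) * (K * D) ^ 2 + m0 * (K * D) ^ 2 := by
          refine Nat.add_le_add (Nat.add_le_add_left ?_ _) (Nat.mul_le_mul_left _ sumN)
          rw [← Finset.sum_filter]
          simp only [Finset.sum_const, smul_eq_mul]
          have : (univ.filter (fun v => v ∈ insert h (Z ∪ S))).card ≤ 2 * ζ + 1 := by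
            refine le_trans (Finset.card_le_card ?_) hcard
            intro v hv
            simpa using hv
          exact Nat.mul_le_mul this hTc
      _ = _ := by ring
  have hmain : ∀ s ∈ S, M * D ^ 2 ≤ 2 * q ^ 2 * ∑ v, W' s v := by
    intro s hs
    have h1 := hsumpt s
    have h2 := hTsc s hs
    have h3 : M * D ^ 2 ≤ q ^ 2 * (M * (Ts s).card) := by
      calc M * D ^ 2 ≤ M * (q ^ 2 * (Ts s).card) := Nat.mul_le_mul_left _ h2
        _ = _ := by ring
    have h4 : q ^ 2 * (M * (Ts s).card) ≤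
        q ^ 2 * (∑ v, W' s v + (m0 + 2 * ζ + 1) * (K * D) ^ 2) := Nat.mul_le_mul_left _ h1
    have h5 : 2 * (q ^ 2 * ((m0 + 2 * ζ + 1) * (K * D) ^ 2)) ≤ M * D ^ 2 := by
      calc 2 * (q ^ 2 * ((m0 + 2 * ζ + 1) * (K * D) ^ 2)) =
          (2 * q ^ 2 * K ^ 2 * (m0 + 2 * ζ + 1)) * D ^ 2 := by ring
        _ ≤ _ := Nat.mul_le_mul_right _ hM
    have h6 : q ^ 2 * (∑ v, W' s v + (m0 + 2 * ζ + 1) * (K * D) ^ 2) =
        q ^ 2 * ∑ v, W' s v + q ^ 2 * ((m0 + 2 * ζ + 1) * (K * D) ^ 2) := by ring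
    have h7 : 2 * q ^ 2 * ∑ v, W' s v = 2 * (q ^ 2 * ∑ v, W' s v) := by ring
    omega
  -- averaging
  have hsum : ∑ v, S.card * W v ≤ ∑ v, 2 * q ^ 2 * K ^ 2 * ∑ s ∈ S, W' s v := by
    rw [← Finset.mul_sum, ← Finset.mul_sum, sumW, Finset.sum_comm]
    calc S.card * (M * T.card) ≤ S.card * (M * (K * D) ^ 2) :=
          Nat.mul_le_mul_left _ (Nat.mul_le_mul_left _ hTc)
      _ = K ^ 2 * ∑ s ∈ S, M * D ^ 2 := by
          rw [Finset.sum_const, smul_eq_mul]; ring
      _ ≤ K ^ 2 * ∑ s ∈ S, 2 * q ^ 2 * ∑ v, W' s v :=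
          Nat.mul_le_mul_left _ (Finset.sum_le_sum fun s hs => hmain s hs)
      _ = _ := by rw [← Finset.mul_sum]; ring
  set Vp : Finset V := univ.filter (fun v => 0 < W v) with hVp
  have hz : ∀ v, v ∉ Vp → W v = 0 := by
    intro v hv
    by_contra hcon
    exact hv (by simp [hVp, Nat.pos_of_ne_zero hcon])
  have hz' : ∀ v, v ∉ Vp → ∀ s, W' s v = 0 := by
    intro v hv s
    have := hW'W s v
    rw [hz v hv] at this
    omega
  have hsum2 : ∑ v ∈ Vp, S.card * W v ≤ ∑ v ∈ Vp, 2 * q ^ 2 * K ^ 2 * ∑ s ∈ S, W' s v := by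
    have e1 : ∑ v ∈ Vp, S.card * W v = ∑ v, S.card * W v :=
      Finset.sum_subset (Finset.subset_univ _) fun v _ hv => by rw [hz v hv, mul_zero]
    have e2 : ∑ v ∈ Vp, 2 * q ^ 2 * K ^ 2 * ∑ s ∈ S, W' s v =
        ∑ v, 2 * q ^ 2 * K ^ 2 * ∑ s ∈ S, W' s v :=
      Finset.sum_subset (Finset.subset_univ _) fun v _ hv => by
        rw [Finset.sum_eq_zero (fun s _ => hz' v hv s), mul_zero]
    rw [e1, e2]
    exact hsum
  have hVpn : Vp.Nonempty := by
    obtain ⟨s, hs⟩ := hSn
    have h1 := hmain s hs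
    have h2 : 0 < M * D ^ 2 := by positivity
    by_contra hcon
    rw [Finset.not_nonempty_iff_eq_empty] at hcon
    have h3 : ∑ v, W' s v = 0 :=
      Finset.sum_eq_zero fun v _ => hz' v (by rw [hcon]; exact Finset.notMem_empty v) s
    rw [h3] at h1
    omega
  obtain ⟨v, hvp, hv⟩ := Finset.exists_le_of_sum_le hVpn hsum2
  have hWv : 0 < W v := by simpa [hVp] using hvp
  set S' : Finset V := S.filter (fun s => 0 < W' s v) with hS'
  have h1 : ∑ s ∈ S, W' s v ≤ S'.card * W v := by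
    calc ∑ s ∈ S, W' s v = ∑ s ∈ S', W' s v := by
          symm
          refine Finset.sum_subset (Finset.filter_subset _ _) fun s hs hs' => ?_
          by_contra hcon
          exact hs' (Finset.mem_filter.mpr ⟨hs, Nat.pos_of_ne_zero hcon⟩)
      _ ≤ ∑ s ∈ S', W v := Finset.sum_le_sum fun s _ => hW'W s v
      _ = _ := by rw [Finset.sum_const, smul_eq_mul]
  have h2 : S.card * W v ≤ (2 * q ^ 2 * K ^ 2 * S'.card) * W v := by
    calc S.card * W v ≤ 2 * q ^ 2 * K ^ 2 * ∑ s ∈ S, W' s v := hv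
      _ ≤ 2 * q ^ 2 * K ^ 2 * (S'.card * W v) := Nat.mul_le_mul_left _ h1
      _ = _ := by ring
  have h3 : S.card ≤ 2 * q ^ 2 * K ^ 2 * S'.card := Nat.le_of_mul_le_mul_right h2 hWv
  have hS'n : S'.Nonempty := by
    rw [← Finset.card_pos]
    by_contra hcon
    have h4 : S'.card = 0 := by omega
    rw [h4, mul_zero] at h3
    have := Finset.card_pos.mpr hSn
    omega
  have hgood' : ∀ s ∈ S', good s v := by
    intro s hs
    rw [hS', Finset.mem_filter] at hs
    by_contra hcon
    have : W' s v = 0 := by simp only [hW']; rw [if_neg hcon]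
    omega
  obtain ⟨s0, hs0⟩ := hS'n
  have hg0 := hgood' s0 hs0
  refine ⟨v, hg0.1, hg0.2.1, hg0.2.2.1, S', Finset.filter_subset _ _, h3, fun s hs => ?_⟩
  refine (hgood' s hs).2.2.2.trans (Finset.card_le_card ?_)
  intro z hz1
  simp only [hP, mem_filter, mem_univ, true_and] at hz1 ⊢
  obtain ⟨hz1, z', hz2, hz3⟩ := hz1
  exact ⟨hz1, z', (hSel _ hz2).1 v hz3⟩

end Pool.Agent.TH476.KK.KSw

namespace Pool.Agent.TH476.KK

open Pool.Agent.TH476

open Finset in
theorem sw_holds : S_SW := by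
  intro K q hK hq
  refine ⟨2 * q ^ 2 * K ^ 2, by positivity, fun ζ m0 =>
    ⟨2 * q ^ 2 * K ^ 2 * (m0 + 2 * ζ + 1) + 1, 1, ?_⟩⟩
  intro V _ _ G D B 𝓡 hG hD hR h S Z hS hSc hZc hSn
  have hext : ∀ p p' : Fin (2 + 1) → V, ex 2 p 0 = ex 2 p' 0 → ex 2 p 1 = ex 2 p' 1 →
      ex 2 p 2 = ex 2 p' 2 → p = p' := by
    intro p p' h0 h1 h2
    funext i
    fin_cases i
    · exact h0
    · exact h1
    · exact h2
  have hadj : ∀ p ∈ 𝓡, G.Adj (ex 2 p 0) (ex 2 p 1) ∧ G.Adj (ex 2 p 1) (ex 2 p 2) := by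
    intro p hp
    have h1 := hR.sub p hp
    simp only [RCs, mem_filter, mem_univ, true_and] at h1
    exact ⟨h1.1.1 0 (by norm_num), h1.1.1 1 (by norm_num)⟩
  have hdeg : ∀ v, (univ.filter (fun w => G.Adj v w)).card ≤ K * D := fun v => hG.hi v
  obtain ⟨Rel, hRel⟩ : ∃ Rel : V → V → V → Prop, ∀ x y z, Rel x y z ↔
      ∃ p ∈ 𝓡, ex 2 p 0 = x ∧ ex 2 p 1 = y ∧ ex 2 p 2 = z := ⟨_, fun _ _ _ => Iff.rfl⟩
  obtain ⟨v, hv1, hv2, hv3, S', hS', hS'c, hm⟩ := KSw.core G Rel D K q
    (2 * q ^ 2 * K ^ 2 * (m0 + 2 * ζ + 1) + 1) ζ m0 (by omega) (by omega)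
    (by
      intro x y z hxyz
      obtain ⟨p, hp, rfl, rfl, rfl⟩ := (hRel _ _ _).mp hxyz
      exact hadj p hp)
    (by
      intro x y z hxyz
      obtain ⟨p, hp, rfl, rfl, rfl⟩ := (hRel _ _ _).mp hxyz
      exact (hRel _ _ _).mpr ⟨_, hR.rev p hp, rfl, rfl, rfl⟩)
    (by
      intro x y z hxyz
      obtain ⟨p, hp, rfl, rfl, rfl⟩ := (hRel _ _ _).mp hxyz
      have h1 := hR.cls p hp 0 1 (by norm_num) (by norm_num)
      have h2 : D ^ (2 - (1 - 0)) = D := by norm_num
      rw [h2] at h1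
      refine h1.trans (Nat.mul_le_mul_left _ ?_)
      refine Finset.card_le_card_of_injOn (fun p' => ex 2 p' 2) ?_ ?_
      · intro p' hp'
        have hp'' := Finset.mem_filter.mp (Finset.mem_coe.mp hp')
        refine Finset.mem_coe.mpr (Finset.mem_filter.mpr ⟨Finset.mem_univ _, ?_⟩)
        exact (hRel _ _ _).mpr ⟨p', hp''.1, hp''.2 0 le_rfl (by norm_num),
          hp''.2 1 (by norm_num) le_rfl, rfl⟩
      · intro p1 h1' p2 h2' h12
        have a1 := Finset.mem_filter.mp (Finset.mem_coe.mp h1')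
        have a2 := Finset.mem_filter.mp (Finset.mem_coe.mp h2')
        exact hext p1 p2 ((a1.2 0 le_rfl (by norm_num)).trans (a2.2 0 le_rfl (by norm_num)).symm)
          ((a1.2 1 (by norm_num) le_rfl).trans (a2.2 1 (by norm_num) le_rfl).symm) h12)
    (by
      intro x y z hxyz
      obtain ⟨p, hp, rfl, rfl, rfl⟩ := (hRel _ _ _).mp hxyz
      refine (hR.pr p hp).trans ?_
      refine Finset.card_le_card_of_injOn (fun p' => ex 2 p' 1) ?_ ?_
      · intro p' hp'
        have hp'' := Finset.mem_filter.mp (Finset.mem_coe.mp hp')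
        refine Finset.mem_coe.mpr (Finset.mem_filter.mpr ⟨Finset.mem_univ _, ?_⟩)
        exact (hRel _ _ _).mpr ⟨p', hp''.1, hp''.2.1, rfl, hp''.2.2⟩
      · intro p1 h1' p2 h2' h12
        have a1 := Finset.mem_filter.mp (Finset.mem_coe.mp h1')
        have a2 := Finset.mem_filter.mp (Finset.mem_coe.mp h2')
        exact hext p1 p2 (a1.2.1.trans a2.2.1.symm) h12 (a1.2.2.trans a2.2.2.symm))
    hdeg h S Z
    (by
      intro s hs
      obtain ⟨p, hp, h1, h2⟩ := hS s hs
      exact ⟨_, (hRel _ _ _).mpr ⟨p, hp, h1, h2, rfl⟩⟩)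
    hSc hZc hSn (by omega)
  refine ⟨v, hv1, hv2, hv3, S', hS', hS'c, fun s hs => (hm s hs).trans (Finset.card_le_card ?_)⟩
  intro s' hs'
  have h1 := (Finset.mem_filter.mp hs').2
  obtain ⟨h2, z', h3⟩ := h1
  obtain ⟨p, hp, h4, h5, _⟩ := (hRel _ _ _).mp h3
  exact Finset.mem_filter.mpr ⟨Finset.mem_univ _, (hRel _ _ _).mp h2, p, hp, h4, h5⟩

end Pool.Agent.TH476.KK
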