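import Pool.Agent.TH476.KEnd0
import Pool.Agent.TH476.KAsmT
import Pool.Agent.TH476.KAsmU
import Pool.Agent.TH476.KEmb
import Pool.Agent.TH476.KFin
import Pool.Agent.TH476.KInd
import Pool.Agent.TH476.KInit
import Pool.Agent.TH476.KPrn
import Pool.Agent.TH476.KSw
import Pool.Agent.TH476.KMv2o
import Pool.Agent.TH476.KMv2e
import Pool.Agent.TH476.KMv33
import Pool.Agent.TH476.KMv35
import Pool.Agent.TH476.KMvE
import Pool.Agent.TH476.KMvO
import Pool.Agent.TH476.KRed
import Pool.Agent.TH476.KRes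
import Pool.Agent.TH476.KRst
import Pool.Agent.TH476.KCat
import Pool.Agent.TH476.KGtd
import Pool.Agent.TH476.KKmt

set_option autoImplicit false

open Classical Asymptotics Filter

namespace Pool.Agent.TH476.KK

theorem claim_holds : S_CLAIM :=
  claim_of res_holds asmT_holds asmU_holds Pool.Agent.TH476.kpigOwn

theorem ind_all : S_IND := ind_holds claim_holds prn_holds init_holds red_holds

theorem main_of (hext : S_EXT) (hisb : S_ISB) (hbnd : S_BND) : S_MAIN :=
  fin_holds emb_holds hisb hbnd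
    (mv_all rst_holds hext sw_holds mvE_holds mvO_holds mv35_holds mv2o_holds mv2e_holds)
    mv33_holds ind_all den_holds

theorem rat_of (hext : S_EXT) (hisb : S_ISB) (hbnd : S_BND) :
    ∀ p q : ℕ, 0 < p → p < q →
      ∃ k : ℕ, ∃ H : SimpleGraph (Fin k), H.Colorable 2 ∧
        (fun n : ℕ => (SimpleGraph.extremalNumber n H : ℝ)) =Θ[atTop]
          (fun n : ℕ => (n : ℝ) ^ (1 + (p : ℝ) / (q : ℝ))) :=
  rat_all (main_of hext hisb hbnd) cat_holds gtd_holds kst_exp

end Pool.Agent.TH476.KK
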