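import Pool.Agent.TH476.KCnt
import Pool.Agent.TH476.KStm2

set_option autoImplicit false

open Classical

namespace Pool.Agent.TH476.KK

variable {k : ℕ} {ι V : Type} [Fintype ι]

/-- the structure of the set of the movable nodes -/
structure KSt (T : TE k ι) (F N : Finset ι) : Prop where
  sub : N ⊆ F
  ne : N.Nonempty
  c1 : ∀ x ∈ N, T.Cn x → T.par x ∈ F → T.par x ∈ N
  c2 : ∀ x ∈ N, T.par x ∈ F → T.par x ∉ N → ¬ T.Cn x ∧ T.Cn (T.par x)
  c3 : ∀ x ∈ F, x ∉ N → T.par x ∈ N → T.Cn x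
  c5 : ∀ u ∈ N, ¬ T.Cn u → T.Cn (T.par u) → T.par u ∉ N → ∀ y ∈ F, T.par y = u → y ∈ N
  c6 : ∀ u ∈ N, ¬ T.Cn u → T.Cn (T.par u) → T.par u ∉ N → ¬ T.lg u

/-- the coordinates which are not nodes of F -/
noncomputable def RF (F : Finset ι) : Finset (ι ⊕ ι) :=
  Finset.univ.filter (fun c => ∀ x ∈ F, c ≠ Sum.inl x)

lemma mem_RF (F : Finset ι) (c : ι ⊕ ι) : c ∈ RF F ↔ ∀ x ∈ F, c ≠ Sum.inl x := by
  simp [RF]

lemma Nb.memL {T : TE k ι} {F : Finset ι} {c d : ι ⊕ ι} (h : Nb T F c d) : c ∈ UC T F := by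
  rcases h with ⟨x, hx, hQ, ⟨rfl, rfl⟩ | ⟨rfl, rfl⟩⟩ | ⟨x, hx, hp, ⟨rfl, rfl⟩ | ⟨rfl, rfl⟩⟩
  · exact (mem_UC_inl T F x).mpr hx
  · exact (mem_UC_inr T F x).mpr ⟨hx, hQ⟩
  · exact (mem_UC_inl T F x).mpr hx
  · exact (mem_UC_inl T F _).mpr hp

lemma Nb.memR {T : TE k ι} {F : Finset ι} {c d : ι ⊕ ι} (h : Nb T F c d) : d ∈ UC T F := by
  rcases h with ⟨x, hx, hQ, ⟨rfl, rfl⟩ | ⟨rfl, rfl⟩⟩ | ⟨x, hx, hp, ⟨rfl, rfl⟩ | ⟨rfl, rfl⟩⟩
  · exact (mem_UC_inr T F x).mpr ⟨hx, hQ⟩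
  · exact (mem_UC_inl T F x).mpr hx
  · exact (mem_UC_inl T F _).mpr hp
  · exact (mem_UC_inl T F x).mpr hx

lemma Nb.adj {T : TE k ι} {G : SimpleGraph V} {v0 : V} {F : Finset ι} {b : ι → V}
    {φ : ι ⊕ ι → V} (hφ : Cpy T G v0 F b φ) {c d : ι ⊕ ι} (h : Nb T F c d) :
    G.Adj (φ c) (φ d) := by
  rcases h with ⟨x, hx, hQ, ⟨rfl, rfl⟩ | ⟨rfl, rfl⟩⟩ | ⟨x, hx, hp, ⟨rfl, rfl⟩ | ⟨rfl, rfl⟩⟩
  · exact (hφ.rt x hx hQ).symm
  · exact hφ.rt x hx hQ
  · exact (hφ.pr x hx hp).symm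
  · exact hφ.pr x hx hp

lemma PthC.mem {T : TE k ι} {F : Finset ι} {j : ℕ} {c : ℕ → ι ⊕ ι} (h : PthC T F j c)
    (hj : 1 ≤ j) {i : ℕ} (hi : i ≤ j) : c i ∈ UC T F := by
  by_cases h' : i < j
  · exact (h.1 i h').memL
  · obtain ⟨m, rfl⟩ : ∃ m, i = m + 1 := ⟨i - 1, by omega⟩
    exact (h.1 m (by omega)).memR

omit [Fintype ι] in
lemma PthC.shift {T : TE k ι} {F : Finset ι} {j : ℕ} {c : ℕ → ι ⊕ ι} (h : PthC T F j c)
    {a b : ℕ} (hab : a ≤ b) (hb : b ≤ j) : PthC T F (b - a) (fun i => c (a + i)) := by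
  refine ⟨fun i hi => h.1 (a + i) (by omega), fun i i' hi hi' he => ?_⟩
  have := h.2 (a + i) (a + i') (by omega) (by omega) he
  omega

lemma norich {T : TE k ι} {G : SimpleGraph V} {E Rt : ι → V → V → Prop}
    {B : ℕ → V → V → Prop} {v0 : V} {L1 : ℕ}
    {F : Finset ι} {b : ι → V} {Γ : (ι → V) → Prop} {𝓕 : Set (ι ⊕ ι → V)}
    (h𝓕 : ∀ φ ∈ 𝓕, Fam T G E Rt B v0 F b Γ φ) (hB : BSp G k L1 B) {Lk : ℕ} (hLk : 0 < Lk)
    (hL1 : L1 ≤ Lk) {Y : Finset (ι ⊕ ι)} {φ : ι ⊕ ι → V} (hr : Rich 𝓕 Lk Y φ) {j : ℕ}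
    {c : ℕ → ι ⊕ ι} (hj : 2 ≤ j) (hjk : j ≤ k + 1) (hc : PthC T F j c) (h0 : c 0 ∈ Y)
    (hj' : c j ∈ Y) (hin : ∀ i, 1 ≤ i → i < j → c i ∉ Y) : False := by
  obtain ⟨Fm, h1, h2, h3⟩ := hr
  have h4 := (h𝓕 _ (h1 ⟨0, hLk⟩)).lt j c hj hjk hc
  apply h4
  rw [h2 _ _ h0, h2 _ _ hj']
  refine hB j hj hjk _ _ ⟨fun l i => Fm (Fin.castLE hL1 l) (c i), ?_, ?_⟩
  · intro l
    refine ⟨h2 _ _ h0, h2 _ _ hj', ?_, ?_, ?_⟩
    · intro i hi
      exact (hc.1 i hi).adj (h𝓕 _ (h1 _)).cp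
    · intro i i' hi hi' he
      exact hc.2 i i' hi hi' ((h𝓕 _ (h1 _)).ij _ (hc.mem (by omega) hi) _
        (hc.mem (by omega) hi') he)
    · intro a b hab hb h2' h3' hBB
      have h5 := (h𝓕 _ (h1 (Fin.castLE hL1 l))).lt (b - a) (fun i => c (a + i)) h2' (by omega)
        (hc.shift hab.le hb)
      apply h5
      show B (b - a) (Fm (Fin.castLE hL1 l) (c (a + 0))) (Fm (Fin.castLE hL1 l) (c (a + (b - a))))
      rw [show a + 0 = a by omega, show a + (b - a) = b by omega]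
      exact hBB
  · intro l l' i i' hne hi hi2 hi' hi2' he
    exact h3 _ _ (fun h => hne (Fin.castLE_injective hL1 h)) _ (hin i hi hi2) _ (hin i' hi' hi2') he

/-- no movable coordinate on a path between fixed coordinates -/
lemma norun {T : TE k ι} {G : SimpleGraph V} {E Rt : ι → V → V → Prop}
    {B : ℕ → V → V → Prop} {v0 : V} {L1 : ℕ}
    {F : Finset ι} {b : ι → V} {Γ : (ι → V) → Prop} {𝓕 : Set (ι ⊕ ι → V)}
    (h𝓕 : ∀ φ ∈ 𝓕, Fam T G E Rt B v0 F b Γ φ) (hB : BSp G k L1 B) {Lk : ℕ} (hLk : 0 < Lk)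
    (hL1 : L1 ≤ Lk) {Y : Finset (ι ⊕ ι)} {φ : ι ⊕ ι → V} (hr : Rich 𝓕 Lk Y φ) {j : ℕ}
    {c : ℕ → ι ⊕ ι} (hjk : j ≤ k + 1) (hc : PthC T F j c) (h0 : c 0 ∈ Y)
    (hj' : c j ∈ Y) {i0 : ℕ} (hi0 : i0 ≤ j) (hY : c i0 ∉ Y) : False := by
  have hex1 : ∃ a, a ≤ i0 ∧ c a ∈ Y := ⟨0, Nat.zero_le _, h0⟩
  have hex2 : ∃ b, i0 ≤ b ∧ b ≤ j ∧ c b ∈ Y := ⟨j, hi0, le_rfl, hj'⟩
  obtain ⟨a, ha1, ha2, ha3⟩ : ∃ a, a ≤ i0 ∧ c a ∈ Y ∧ ∀ a', a < a' → a' ≤ i0 → c a' ∉ Y := by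
    have hP : ∃ n, (n ≤ i0 ∧ c (i0 - n) ∈ Y) := ⟨i0, le_rfl, by rw [Nat.sub_self]; exact h0⟩
    obtain ⟨h1, h2⟩ := Nat.find_spec hP
    refine ⟨i0 - Nat.find hP, by omega, h2, fun a' h3 h4 h5 => ?_⟩
    refine Nat.find_min hP (m := i0 - a') (by omega) ⟨by omega, ?_⟩
    rw [show i0 - (i0 - a') = a' by omega]
    exact h5
  obtain ⟨h1, h2, h3⟩ := Nat.find_spec hex2
  have hb3 : ∀ b', i0 ≤ b' → b' < Nat.find hex2 → c b' ∉ Y := fun b' h4 h5 h6 =>
    Nat.find_min hex2 h5 ⟨h4, by omega, h6⟩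
  obtain ⟨b', hb'⟩ : ∃ b', b' = Nat.find hex2 := ⟨_, rfl⟩
  rw [← hb'] at h1 h2 h3 hb3
  have hai : a < i0 := by
    rcases Nat.lt_or_ge a i0 with h | h
    · exact h
    · exact absurd (by rw [show i0 = a by omega]; exact ha2) hY
  have hib : i0 < b' := by
    rcases Nat.lt_or_ge i0 b' with h | h
    · exact h
    · exact absurd (by rw [show i0 = b' by omega]; exact h3) hY
  refine norich h𝓕 hB hLk hL1 hr (j := b' - a) (c := fun i => c (a + i)) (by omega) (by omega)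
    (hc.shift (by omega) h2) ha2 ?_ ?_
  · show c (a + (b' - a)) ∈ Y
    rw [show a + (b' - a) = b' by omega]
    exact h3
  · intro i hi hi2
    by_cases h : a + i ≤ i0
    · exact ha3 (a + i) (by omega) h
    · exact hb3 (a + i) (by omega) (by omega)

omit [Fintype ι] in
lemma dp_iter {T : TE k ι} {F : Finset ι} (hF : T.top ∉ F) {x : ι} {n : ℕ}
    (h : ∀ i, i ≤ n → T.par^[i] x ∈ F) : ∀ i i', i < i' → i' ≤ n →
    T.dp (T.par^[i'] x) < T.dp (T.par^[i] x) := by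
  intro i i' hlt hle
  induction i' with
  | zero => omega
  | succ m ih =>
    have h1 : T.dp (T.par^[m + 1] x) < T.dp (T.par^[m] x) := by
      rw [Function.iterate_succ_apply']
      exact T.dp_par _ fun h2 => hF (h2 ▸ h m (by omega))
    by_cases hm : i < m
    · exact h1.trans (ih hm (by omega))
    · rw [show i = m by omega]
      exact h1

omit [Fintype ι] in
lemma iter_inj {T : TE k ι} {F : Finset ι} (hF : T.top ∉ F) {x : ι} {n : ℕ}
    (h : ∀ i, i ≤ n → T.par^[i] x ∈ F) {i i' : ℕ} (hi : i ≤ n) (hi' : i' ≤ n)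
    (he : T.par^[i] x = T.par^[i'] x) : i = i' := by
  rcases Nat.lt_trichotomy i i' with h1 | h1 | h1
  · have := dp_iter hF h i i' h1 hi'
    rw [he] at this
    omega
  · exact h1
  · have := dp_iter hF h i' i h1 hi
    rw [he] at this
    omega

omit [Fintype ι] in
lemma pthUp {T : TE k ι} {F : Finset ι} (hF : T.top ∉ F) {x : ι} {n : ℕ}
    (h : ∀ i, i ≤ n → T.par^[i] x ∈ F) : PthC T F n (fun i => Sum.inl (T.par^[i] x)) := by
  refine ⟨fun i hi => Or.inr ⟨T.par^[i] x, h i hi.le, ?_, Or.inl ⟨rfl, ?_⟩⟩, ?_⟩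
  · have := h (i + 1) hi
    rw [Function.iterate_succ_apply'] at this
    exact this
  · show Sum.inl (T.par^[i + 1] x) = _
    rw [Function.iterate_succ_apply']
  · intro i i' hi hi' he
    exact iter_inj hF h hi hi' (Sum.inl.inj he)

omit [Fintype ι] in
lemma pthRU {T : TE k ι} {F : Finset ι} (hF : T.top ∉ F) {x : ι} {n : ℕ} (hQ : T.Qn x)
    (h : ∀ i, i ≤ n → T.par^[i] x ∈ F) :
    PthC T F (n + 1) (fun i => if i = 0 then Sum.inr x else Sum.inl (T.par^[i - 1] x)) := by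
  have h0 := pthUp hF h
  refine ⟨fun i hi => ?_, ?_⟩
  · rcases Nat.eq_zero_or_pos i with rfl | hi0
    · exact Or.inl ⟨x, h 0 (Nat.zero_le _), hQ, Or.inr ⟨rfl, rfl⟩⟩
    · obtain ⟨m, rfl⟩ : ∃ m, i = m + 1 := ⟨i - 1, by omega⟩
      have h1 := h0.1 m (by omega)
      simp only [Nat.add_eq_zero_iff, one_ne_zero, and_false, if_false, Nat.add_sub_cancel]
      exact h1
  · intro i i' hi hi' he
    rcases Nat.eq_zero_or_pos i with rfl | hi0
    · rcases Nat.eq_zero_or_pos i' with rfl | hi0'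
      · rfl
      · simp only [if_true, show i' ≠ 0 by omega, if_false] at he
        cases he
    · rcases Nat.eq_zero_or_pos i' with rfl | hi0'
      · simp only [if_true, show i ≠ 0 by omega, if_false] at he
        cases he
      · simp only [show i ≠ 0 by omega, show i' ≠ 0 by omega, if_false] at he
        have := h0.2 (i - 1) (i' - 1) (by omega) (by omega) he
        omega

omit [Fintype ι] in
lemma pthUR {T : TE k ι} {F : Finset ι} (hF : T.top ∉ F) {x : ι} {n : ℕ}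
    (h : ∀ i, i ≤ n → T.par^[i] x ∈ F) (hQ : T.Qn (T.par^[n] x)) :
    PthC T F (n + 1) (fun i => if i ≤ n then Sum.inl (T.par^[i] x) else
      Sum.inr (T.par^[n] x)) := by
  have h0 := pthUp hF h
  refine ⟨fun i hi => ?_, ?_⟩
  · by_cases hi1 : i = n
    · subst hi1
      simp only [le_refl, if_true, show ¬ (i + 1 ≤ i) by omega, if_false]
      exact Or.inl ⟨T.par^[i] x, h i le_rfl, hQ, Or.inl ⟨rfl, rfl⟩⟩
    · have h1 := h0.1 i (by omega)
      simp only [show i ≤ n by omega, if_true, show i + 1 ≤ n by omega]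
      exact h1
  · intro i i' hi hi' he
    by_cases h1 : i ≤ n
    · by_cases h2 : i' ≤ n
      · simp only [h1, h2, if_true] at he
        exact h0.2 i i' h1 h2 he
      · simp only [h1, h2, if_true, if_false] at he
        cases he
    · by_cases h2 : i' ≤ n
      · simp only [h1, h2, if_true, if_false] at he
        cases he
      · omega

omit [Fintype ι] in
/-- upwards from a node which is not a centre -/
lemma upw {T : TE k ι} {F : Finset ι} (hF : AdmF T F) : ∀ n y, y ∈ F → ¬ T.Cn y → T.ps y = n →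
    (∀ i, i ≤ n → T.par^[i] y ∈ F) ∧ T.Cn (T.par^[n] y) ∧
      ∀ i, i < n → ¬ T.Cn (T.par^[i] y) ∧ (T.lg (T.par^[i] y) ↔ T.lg y) := by
  intro n
  induction n with
  | zero =>
    intro y hy hC hps
    have := (T.N_ps y (fun h => hF.1 (h ▸ hy)) hC).1
    omega
  | succ n ih =>
    intro y hy hC hps
    have hyt : y ≠ T.top := fun h => hF.1 (h ▸ hy)
    have hpy := hF.2 y hy hC
    have h1 := (T.N_ps y hyt hC).1
    by_cases hCp : T.Cn (T.par y)
    · have h2 := T.C_ps _ hCp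
      have hn : n = 0 := by omega
      subst hn
      refine ⟨?_, hCp, ?_⟩
      · intro i hi
        rcases Nat.eq_zero_or_pos i with rfl | h
        · exact hy
        · rw [show i = 1 by omega]
          exact hpy
      · intro i hi
        rw [show i = 0 by omega]
        exact ⟨hC, Iff.rfl⟩
    · obtain ⟨h2, h3, h4⟩ := ih (T.par y) hpy hCp (by omega)
      have hl := T.N_lg y hyt hC hCp
      refine ⟨?_, ?_, ?_⟩
      · intro i hi
        rcases Nat.eq_zero_or_pos i with rfl | h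
        · exact hy
        · obtain ⟨m, rfl⟩ : ∃ m, i = m + 1 := ⟨i - 1, by omega⟩
          rw [Function.iterate_succ_apply]
          exact h2 m (by omega)
      · rw [Function.iterate_succ_apply]
        exact h3
      · intro i hi
        rcases Nat.eq_zero_or_pos i with rfl | h
        · exact ⟨hC, Iff.rfl⟩
        · obtain ⟨m, rfl⟩ : ∃ m, i = m + 1 := ⟨i - 1, by omega⟩
          rw [Function.iterate_succ_apply]
          exact ⟨(h4 m (by omega)).1, (h4 m (by omega)).2.trans hl.symm⟩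

omit [Fintype ι] in
/-- downwards from a node which is not a centre -/
lemma dwn {T : TE k ι} {U F : Finset ι} (hF : AdmF T F) (hFU : F ⊆ U) (hU2 : FreeC T U)
    (hdc : ∀ x ∈ U, x ≠ T.top → T.par x ∈ F → x ∈ F) : ∀ n y, y ∈ F → ¬ T.Cn y →
    T.ps y + n = k →
    ∃ x ∈ F, (T.Ln x ∧ T.lg y ∧ T.par^[n] x = y ∧ ∀ i, i ≤ n → T.par^[i] x ∈ F) ∨
      (T.Cn x ∧ ¬ T.lg y ∧ T.par^[n + 1] x = y ∧ ∀ i, i ≤ n + 1 → T.par^[i] x ∈ F) := by
  intro n
  induction n with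
  | zero =>
    intro y hy hC hps
    have hyt : y ≠ T.top := fun h => hF.1 (h ▸ hy)
    by_cases hl : T.lg y
    · exact ⟨y, hy, Or.inl ⟨(T.L_iff y).mpr ⟨hyt, hl, by omega⟩, hl, rfl, fun i hi => by
        rw [show i = 0 by omega]; exact hy⟩⟩
    · have hL : ¬ T.Ln y := fun h => hl ((T.L_iff y).mp h).2.1
      obtain ⟨x, hxt, hxp⟩ := T.chd y hyt hC hL
      have hxU := hU2 y (hFU hy) hyt hC x hxt hxp
      have hxF := hdc x hxU hxt (by rw [hxp]; exact hy)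
      have hxC : T.Cn x := by
        by_contra h
        have := T.N_ps x hxt h
        rw [hxp] at this
        omega
      refine ⟨x, hxF, Or.inr ⟨hxC, hl, hxp, ?_⟩⟩
      intro i hi
      rcases Nat.eq_zero_or_pos i with rfl | h
      · exact hxF
      · rw [show i = 1 by omega]
        show T.par x ∈ F
        rw [hxp]
        exact hy
  | succ n ih =>
    intro y hy hC hps
    have hyt : y ≠ T.top := fun h => hF.1 (h ▸ hy)
    have hL : ¬ T.Ln y := fun h => by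
      have := ((T.L_iff y).mp h).2.2
      omega
    obtain ⟨z, hzt, hzp⟩ := T.chd y hyt hC hL
    have hzU := hU2 y (hFU hy) hyt hC z hzt hzp
    have hzF := hdc z hzU hzt (by rw [hzp]; exact hy)
    have hyt' : T.par z ≠ T.top := by rw [hzp]; exact hyt
    have hzC : ¬ T.Cn z := by
      intro h
      have := (T.C_par z h hyt').2.2.1
      rw [hzp] at this
      omega
    have h1 := (T.N_ps z hzt hzC).1
    rw [hzp] at h1
    have hl := T.N_lg z hzt hzC (by rw [hzp]; exact hC)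
    rw [hzp] at hl
    obtain ⟨x, hxF, ⟨h2, h3, h4, h5⟩ | ⟨h2, h3, h4, h5⟩⟩ := ih z hzF hzC (by omega)
    · refine ⟨x, hxF, Or.inl ⟨h2, hl.mp h3, ?_, ?_⟩⟩
      · rw [Function.iterate_succ_apply', h4, hzp]
      · intro i hi
        by_cases h : i ≤ n
        · exact h5 i h
        · rw [show i = n + 1 by omega, Function.iterate_succ_apply', h4, hzp]
          exact hy
    · refine ⟨x, hxF, Or.inr ⟨h2, fun h => h3 (hl.mpr h), ?_, ?_⟩⟩
      · rw [Function.iterate_succ_apply', h4, hzp]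
      · intro i hi
        by_cases h : i ≤ n + 1
        · exact h5 i h
        · rw [show i = n + 1 + 1 by omega, Function.iterate_succ_apply', h4, hzp]
          exact hy

/-- the movable nodes of a rich light copy -/
lemma kst_of_rich {T : TE k ι} (hk : 1 ≤ k) {G : SimpleGraph V} {E Rt : ι → V → V → Prop}
    {B : ℕ → V → V → Prop} {v0 : V} {L1 : ℕ}
    {U F : Finset ι} (hF : AdmF T F) (hFU : F ⊆ U) (hU2 : FreeC T U)
    (hdc : ∀ x ∈ U, x ≠ T.top → T.par x ∈ F → x ∈ F) {b : ι → V} {Γ : (ι → V) → Prop}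
    {𝓕 : Set (ι ⊕ ι → V)}
    (h𝓕 : ∀ φ ∈ 𝓕, Fam T G E Rt B v0 F b Γ φ) (hB : BSp G k L1 B) {Lk : ℕ} (hLk : 0 < Lk)
    (hL1 : L1 ≤ Lk)
    {Y : Finset (ι ⊕ ι)} (hRY : RF F ⊆ Y) (hYne : Y ≠ Finset.univ)
    {φ : ι ⊕ ι → V} (hr : Rich 𝓕 Lk Y φ) :
    KSt T F (F.filter (fun x => Sum.inl x ∉ Y)) := by
  have hroot : ∀ x, Sum.inr x ∈ Y := fun x => hRY ((mem_RF F _).mpr fun y _ h => by cases h)
  have hN : ∀ y, y ∈ F.filter (fun x => Sum.inl x ∉ Y) ↔ y ∈ F ∧ Sum.inl y ∉ Y := fun y => by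
    rw [Finset.mem_filter]
  have hnotN : ∀ y ∈ F, y ∉ F.filter (fun x => Sum.inl x ∉ Y) → Sum.inl y ∈ Y := by
    intro y hy h
    by_contra h'
    exact h ((hN y).mpr ⟨hy, h'⟩)
  -- a movable centre: all nodes above it at distance at most k are movable
  have K1a : ∀ x, x ∈ F → Sum.inl x ∉ Y → T.Cn x → ∀ m, m ≤ k → (∀ i, i ≤ m → T.par^[i] x ∈ F) →
      Sum.inl (T.par^[m] x) ∉ Y := by
    intro x hx hxY hC m hm hall hY
    refine norun h𝓕 hB hLk hL1 hr (j := m + 1) (by omega) (pthRU hF.1 (Or.inl hC) hall)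
      (i0 := 1) ?_ ?_ (by omega) ?_
    · simp only [if_true]
      exact hroot x
    · simp only [Nat.add_eq_zero_iff, one_ne_zero, and_false, if_false, Nat.add_sub_cancel]
      exact hY
    · simp only [one_ne_zero, if_false]
      exact hxY
  -- a movable centre: all nodes of its segments are movable
  have K1b : ∀ y m, m ≤ k → (∀ i, i ≤ m → T.par^[i] y ∈ F) → T.Cn (T.par^[m] y) →
      Sum.inl (T.par^[m] y) ∉ Y → Sum.inl y ∉ Y := by
    intro y m hm hall hC hmY hY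
    refine norun h𝓕 hB hLk hL1 hr (j := m + 1) (by omega) (pthUR hF.1 hall (Or.inl hC))
      (i0 := m) ?_ ?_ (by omega) ?_
    · simp only [Nat.zero_le, if_true]
      exact hY
    · simp only [show ¬ (m + 1 ≤ m) by omega, if_false]
      exact hroot _
    · simp only [le_refl, if_true]
      exact hmY
  -- legs
  have K2 : ∀ y ∈ F, ¬ T.Cn y → T.lg y → Sum.inl y ∉ Y → Sum.inl (T.par^[T.ps y] y) ∉ Y := by
    intro y hy hC hl hyY hsY
    have hyt : y ≠ T.top := fun h => hF.1 (h ▸ hy)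
    have hpsk := (T.N_ps y hyt hC).2.1
    obtain ⟨x, hxF, ⟨h2, h3, h4, h5⟩ | ⟨_, h3, _⟩⟩ := dwn hF hFU hU2 hdc (k - T.ps y) y hy hC
      (by omega)
    · obtain ⟨h6, h7, h8⟩ := upw hF (T.ps y) y hy hC rfl
      have hyx : ∀ j, T.par^[j] y = T.par^[j + (k - T.ps y)] x := fun j => by
        rw [Function.iterate_add_apply, h4]
      have hall : ∀ i, i ≤ k → T.par^[i] x ∈ F := by
        intro i hi
        by_cases h : i ≤ k - T.ps y
        · exact h5 i h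
        · have h9 := h6 (i - (k - T.ps y)) (by omega)
          rw [hyx, show i - (k - T.ps y) + (k - T.ps y) = i by omega] at h9
          exact h9
      refine norun h𝓕 hB hLk hL1 hr (j := k + 1) (by omega) (pthRU hF.1 (Or.inr h2) hall)
        (i0 := k - T.ps y + 1) ?_ ?_ (by omega) ?_
      · simp only [if_true]
        exact hroot x
      · simp only [Nat.add_eq_zero_iff, one_ne_zero, and_false, if_false, Nat.add_sub_cancel]
        rw [hyx, show T.ps y + (k - T.ps y) = k by omega] at hsY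
        exact hsY
      · simp only [Nat.add_eq_zero_iff, one_ne_zero, and_false, if_false, Nat.add_sub_cancel]
        rw [h4]
        exact hyY
    · exact absurd hl h3
  -- connections
  have K3 : ∀ y ∈ F, ¬ T.Cn y → ¬ T.lg y → Sum.inl y ∉ Y → ∃ x ∈ F, T.Cn x ∧
      T.par^[k + 1 - T.ps y] x = y ∧ (∀ i, i ≤ k + 1 → T.par^[i] x ∈ F) ∧
      T.Cn (T.par^[k + 1] x) ∧
      (Sum.inl x ∉ Y ∨ Sum.inl (T.par^[k + 1] x) ∉ Y) ∧
      ∀ i, 1 ≤ i → i ≤ k → Sum.inl (T.par^[i] x) ∉ Y := by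
    intro y hy hC hl hyY
    have hyt : y ≠ T.top := fun h => hF.1 (h ▸ hy)
    have hpsk := (T.N_ps y hyt hC).2.1
    have hps1 := (T.N_ps y hyt hC).1
    obtain ⟨x, hxF, ⟨_, h3, _⟩ | ⟨h2, h3, h4, h5⟩⟩ := dwn hF hFU hU2 hdc (k - T.ps y) y hy hC
      (by omega)
    · exact absurd h3 hl
    · obtain ⟨h6, h7, h8⟩ := upw hF (T.ps y) y hy hC rfl
      have e1 : k - T.ps y + 1 = k + 1 - T.ps y := by omega
      rw [e1] at h4 h5
      have hyx : ∀ j, T.par^[j] y = T.par^[j + (k + 1 - T.ps y)] x := fun j => by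
        rw [Function.iterate_add_apply, h4]
      have hall : ∀ i, i ≤ k + 1 → T.par^[i] x ∈ F := by
        intro i hi
        by_cases h : i ≤ k + 1 - T.ps y
        · exact h5 i h
        · have h9 := h6 (i - (k + 1 - T.ps y)) (by omega)
          rw [hyx, show i - (k + 1 - T.ps y) + (k + 1 - T.ps y) = i by omega] at h9
          exact h9
      have hs : T.par^[k + 1] x = T.par^[T.ps y] y := by
        have : T.par^[T.ps y] (T.par^[k + 1 - T.ps y] x) = T.par^[k + 1] x := by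
          rw [← Function.iterate_add_apply, show T.ps y + (k + 1 - T.ps y) = k + 1 by omega]
        rw [← this, h4]
      have hCs : T.Cn (T.par^[k + 1] x) := by rw [hs]; exact h7
      have hor : Sum.inl x ∉ Y ∨ Sum.inl (T.par^[k + 1] x) ∉ Y := by
        by_contra hcon
        push Not at hcon
        refine norun h𝓕 hB hLk hL1 hr (j := k + 1) le_rfl (pthUp hF.1 hall)
          (i0 := k + 1 - T.ps y) hcon.1 hcon.2 (by omega) ?_
        show Sum.inl (T.par^[k + 1 - T.ps y] x) ∉ Y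
        rw [h4]
        exact hyY
      refine ⟨x, hxF, h2, h4, hall, hCs, hor, ?_⟩
      intro i hi1 hi2
      rcases hor with h | h
      · exact K1a x hxF h h2 i hi2 fun i' hi' => hall i' (by omega)
      · have e2 : ∀ i', T.par^[i'] (T.par^[i] x) = T.par^[i' + i] x := fun i' =>
          (Function.iterate_add_apply _ _ _ _).symm
        refine K1b (T.par^[i] x) (k + 1 - i) (by omega) ?_ ?_ ?_
        · intro i' hi'
          rw [e2]
          exact hall _ (by omega)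
        · rw [e2, show k + 1 - i + i = k + 1 by omega]
          exact hCs
        · rw [e2, show k + 1 - i + i = k + 1 by omega]
          exact h
  -- segments of a movable centre
  have hseg : ∀ y ∈ F, ¬ T.Cn y → Sum.inl (T.par^[T.ps y] y) ∉ Y → Sum.inl y ∉ Y := by
    intro y hy hC hs
    obtain ⟨h6, h7, _⟩ := upw hF (T.ps y) y hy hC rfl
    exact K1b y (T.ps y) (T.N_ps y (fun h => hF.1 (h ▸ hy)) hC).2.1 h6 h7 hs
  have hsp : ∀ x ∈ F, ¬ T.Cn x → ¬ T.Cn (T.par x) →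
      T.par^[T.ps (T.par x)] (T.par x) = T.par^[T.ps x] x := by
    intro x hx hC hCp
    have h1 := (T.N_ps x (fun h => hF.1 (h ▸ hx)) hC).1
    rw [h1, Function.iterate_succ_apply]
  have hlg : ∀ u ∈ F.filter (fun x => Sum.inl x ∉ Y), ¬ T.Cn u → T.Cn (T.par u) →
      T.par u ∉ F.filter (fun x => Sum.inl x ∉ Y) → ¬ T.lg u := by
    intro u hu hC hCp hpN hl
    obtain ⟨huF, huY⟩ := (hN u).mp hu
    have hut : u ≠ T.top := fun h => hF.1 (h ▸ huF)
    have hpF := hF.2 u huF hC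
    have hpY := hnotN _ hpF hpN
    have h1 := (T.N_ps u hut hC).1
    rw [T.C_ps _ hCp] at h1
    have h2 := K2 u huF hC hl huY
    rw [h1] at h2
    exact h2 hpY
  refine ⟨Finset.filter_subset _ _, ?_, ?_, ?_, ?_, ?_, hlg⟩
  · by_contra h
    rw [Finset.not_nonempty_iff_eq_empty] at h
    apply hYne
    ext c
    simp only [Finset.mem_univ, iff_true]
    rcases c with x | x
    · by_cases hx : x ∈ F
      · exact hnotN x hx (by rw [h]; exact Finset.notMem_empty _)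
      · exact hRY ((mem_RF F _).mpr fun y hy h => hx (by rw [Sum.inl.inj h]; exact hy))
    · exact hroot x
  · intro x hx hC hp
    obtain ⟨hxF, hxY⟩ := (hN x).mp hx
    refine (hN _).mpr ⟨hp, K1a x hxF hxY hC 1 hk ?_⟩
    intro i hi
    rcases Nat.eq_zero_or_pos i with rfl | h
    · exact hxF
    · rw [show i = 1 by omega]
      exact hp
  · intro x hx hp hpN
    obtain ⟨hxF, hxY⟩ := (hN x).mp hx
    have hpY := hnotN _ hp hpN
    have hC : ¬ T.Cn x := by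
      intro hC
      refine K1a x hxF hxY hC 1 hk ?_ hpY
      intro i hi
      rcases Nat.eq_zero_or_pos i with rfl | h
      · exact hxF
      · rw [show i = 1 by omega]
        exact hp
    refine ⟨hC, ?_⟩
    by_contra hCp
    by_cases hl : T.lg x
    · have h1 := K2 x hxF hC hl hxY
      rw [← hsp x hxF hC hCp] at h1
      exact hseg _ hp hCp h1 hpY
    · obtain ⟨z, _, _, h4, _, _, _, h8⟩ := K3 x hxF hC hl hxY
      have h9 := T.N_ps x (fun h => hF.1 (h ▸ hxF)) hC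
      have h10 := T.N_ps (T.par x) (fun h => hF.1 (h ▸ hp)) hCp
      refine h8 (k + 1 - T.ps x + 1) (by omega) (by omega) ?_
      rw [Function.iterate_succ_apply', h4]
      exact hpY
  · intro x hxF hxN hp
    obtain ⟨hpF, hpY⟩ := (hN _).mp hp
    have hxY := hnotN x hxF hxN
    by_contra hC
    by_cases hCp : T.Cn (T.par x)
    · have h1 := (T.N_ps x (fun h => hF.1 (h ▸ hxF)) hC).1
      rw [T.C_ps _ hCp] at h1
      refine hseg x hxF hC ?_ hxY
      rw [h1]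
      exact hpY
    · by_cases hl : T.lg x
      · have hlp : T.lg (T.par x) := (T.N_lg x (fun h => hF.1 (h ▸ hxF)) hC hCp).mp hl
        have h1 := K2 _ hpF hCp hlp hpY
        rw [hsp x hxF hC hCp] at h1
        exact hseg x hxF hC h1 hxY
      · have hlp : ¬ T.lg (T.par x) := fun h =>
          hl ((T.N_lg x (fun h => hF.1 (h ▸ hxF)) hC hCp).mpr h)
        obtain ⟨z, _, _, h4, _, _, _, h8⟩ := K3 _ hpF hCp hlp hpY
        have h9 := T.N_ps x (fun h => hF.1 (h ▸ hxF)) hC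
        have h10 := T.N_ps (T.par x) (fun h => hF.1 (h ▸ hpF)) hCp
        -- x is the node above
        obtain ⟨i, hi⟩ : ∃ i, k + 1 - T.ps (T.par x) = i + 1 := ⟨k - T.ps (T.par x), by omega⟩
        rw [hi, Function.iterate_succ_apply'] at h4
        have hzi : T.par^[i] z = x := by
          refine T.one (T.par x) _ _ (fun h => hF.1 (h ▸ hpF)) hCp ?_
            (fun h => hF.1 (h ▸ hxF)) h4 rfl
          intro h
          have hm := ‹∀ i, i ≤ k + 1 → T.par^[i] z ∈ F› i (by omega)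
          exact hF.1 (h ▸ hm)
        refine h8 i (by omega) (by omega) ?_
        rw [hzi]
        exact hxY
  · intro u hu hC hCp hpN y hy hyp
    obtain ⟨huF, huY⟩ := (hN u).mp hu
    have hut : u ≠ T.top := fun h => hF.1 (h ▸ huF)
    have hpF := hF.2 u huF hC
    have hpY := hnotN _ hpF hpN
    have h1 := (T.N_ps u hut hC).1
    rw [T.C_ps _ hCp] at h1
    have hl : ¬ T.lg u := hlg u hu hC hCp hpN
    obtain ⟨z, hzF, hzC, h4, h5, _, h7, h8⟩ := K3 u huF hC hl huY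
    rw [h1, show k + 1 - (0 + 1) = k by omega] at h4
    have hzu : T.par^[k + 1] z = T.par u := by
      rw [Function.iterate_succ_apply', h4]
    have hzY : Sum.inl z ∉ Y := by
      rcases h7 with h | h
      · exact h
      · rw [hzu] at h
        exact absurd hpY h
    obtain ⟨i, hi⟩ : ∃ i, i + 1 = k := ⟨k - 1, by omega⟩
    have h4' : T.par (T.par^[i] z) = u := by
      have h9 := Function.iterate_succ_apply' T.par i z
      rw [Nat.succ_eq_add_one, hi] at h9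
      rw [← h9]
      exact h4
    have hyi : T.par^[i] z = y := by
      refine T.one u _ _ hut hC ?_ (fun h => hF.1 (h ▸ hy)) h4' hyp
      intro h
      exact hF.1 (h ▸ h5 i (by omega))
    refine (hN y).mpr ⟨hy, ?_⟩
    rw [← hyi]
    rcases Nat.eq_zero_or_pos i with rfl | h
    · exact hzY
    · exact h8 i h (by omega)

/-- restriction of a copy to the nodes of N -/
noncomputable def resN (T : TE k ι) (N : Finset ι) (v0 : V) (φ : ι ⊕ ι → V) : ι ⊕ ι → V :=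
  fun c => if c ∈ UC T N then φ c else v0

lemma resN_inl (T : TE k ι) (N : Finset ι) (v0 : V) (φ : ι ⊕ ι → V) {x : ι} (hx : x ∈ N) :
    resN T N v0 φ (Sum.inl x) = φ (Sum.inl x) :=
  if_pos ((mem_UC_inl T N x).mpr hx)

lemma resN_inr (T : TE k ι) (N : Finset ι) (v0 : V) (φ : ι ⊕ ι → V) {x : ι} (hx : x ∈ N)
    (hQ : T.Qn x) : resN T N v0 φ (Sum.inr x) = φ (Sum.inr x) :=
  if_pos ((mem_UC_inr T N x).mpr ⟨hx, hQ⟩)

lemma UC_mono (T : TE k ι) {N F : Finset ι} (h : N ⊆ F) : UC T N ⊆ UC T F := by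
  intro c hc
  rcases c with x | q
  · rw [mem_UC_inl] at *
    exact h hc
  · rw [mem_UC_inr] at *
    exact ⟨h hc.1, hc.2⟩

lemma cpy_resN {T : TE k ι} {G : SimpleGraph V} {v0 : V} {F : Finset ι} {b : ι → V}
    {φ : ι ⊕ ι → V} (hφ : Cpy T G v0 F b φ) {N : Finset ι} (hN : N ⊆ F) (b' : ι → V)
    (h : ∀ q ∈ N, T.par q ∉ N → if T.Qn q then T.par q ∉ F ∧ b' q = b q else b' q = v0) :
    Cpy T G v0 N b' (resN T N v0 φ) := by
  refine ⟨?_, ?_, ?_, ?_⟩
  · intro x hx hQ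
    rw [resN_inl T N v0 φ hx, resN_inr T N v0 φ hx hQ]
    exact hφ.rt x (hN hx) hQ
  · intro x hx hp
    rw [resN_inl T N v0 φ hx, resN_inl T N v0 φ hp]
    exact hφ.pr x (hN hx) (hN hp)
  · intro c hc
    exact if_neg hc
  · intro q hq hp
    have h1 := h q hq hp
    by_cases hQ : T.Qn q
    · rw [if_pos hQ] at h1
      rw [resN_inr T N v0 φ hq hQ, h1.2]
      exact hφ.bs q (hN hq) h1.1
    · rw [if_neg hQ] at h1
      rw [h1]
      exact if_neg fun h => hQ ((mem_UC_inr T N q).mp h).2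

lemma resN_inj {T : TE k ι} {v0 : V} {F : Finset ι} {φ : ι ⊕ ι → V}
    (hφ : ∀ c ∈ UC T F, ∀ c' ∈ UC T F, φ c = φ c' → c = c') {N : Finset ι} (hN : N ⊆ F) :
    ∀ c ∈ UC T N, ∀ c' ∈ UC T N, resN T N v0 φ c = resN T N v0 φ c' → c = c' := by
  intro c hc c' hc' h
  unfold resN at h
  rw [if_pos hc, if_pos hc'] at h
  exact hφ c (UC_mono T hN hc) c' (UC_mono T hN hc') h

/-- attached copies from a rich copy -/
lemma att_of_rich {T : TE k ι} {G : SimpleGraph V} {E Rt : ι → V → V → Prop}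
    {B : ℕ → V → V → Prop} {v0 : V}
    {F : Finset ι} {b : ι → V} {Γ : (ι → V) → Prop} {𝓕 : Set (ι ⊕ ι → V)}
    (h𝓕 : ∀ φ ∈ 𝓕, Fam T G E Rt B v0 F b Γ φ) {Lk : ℕ}
    {Y : Finset (ι ⊕ ι)} (hRY : RF F ⊆ Y)
    {φ : ι ⊕ ι → V} (hr : Rich 𝓕 Lk Y φ) {N D' : Finset ι} (hNF : N ⊆ F) (hDF : D' ⊆ F)
    (hNY : ∀ x ∈ N, Sum.inl x ∉ Y) (hDY : ∀ x ∈ D', Sum.inl x ∈ Y) (ρ : ι → V)
    (hρ : ∀ q ∈ N, T.Qn q → ρ q = φ (Sum.inr q)) (ψ : ι → V)
    (hψ : ∀ x ∈ D', ψ x = φ (Sum.inl x)) (Γ' : (ι → V) → Prop)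
    (hΓ : ∀ φ' ∈ 𝓕, (∀ c ∈ Y, φ' c = φ c) → Γ' (glu N (fun x => φ' (Sum.inl x)) ψ)) :
    Att T E Rt N D' ρ Lk Γ' ψ := by
  obtain ⟨Fm, h1, h2, h3⟩ := hr
  have hroot : ∀ x, Sum.inr x ∈ Y := fun x => hRY ((mem_RF F _).mpr fun y _ h => by cases h)
  refine ⟨fun i x => Fm i (Sum.inl x), ?_, ?_, ?_, ?_⟩
  · intro i
    have hgd := (h𝓕 _ (h1 i)).gd
    refine ⟨?_, ?_⟩
    · intro x hx hQx
      rw [hρ x hx hQx, ← h2 i _ (hroot x)]
      exact hgd.1 x (hNF hx) hQx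
    · intro x hx hp
      exact hgd.2 x (hNF hx) (hNF hp)
  · intro i q hq hp
    have hgd := (h𝓕 _ (h1 i)).gd
    rw [hψ q hq, ← h2 i _ (hDY q hq)]
    exact hgd.2 q (hDF hq) (hNF hp)
  · intro i
    exact hΓ _ (h1 i) (h2 i)
  · intro i j x x' hx hx' h
    by_cases hij : i = j
    · refine ⟨hij, ?_⟩
      subst hij
      exact Sum.inl.inj ((h𝓕 _ (h1 i)).ij _ ((mem_UC_inl T F x).mpr (hNF hx)) _
        ((mem_UC_inl T F x').mpr (hNF hx')) h)
    · exact absurd h (h3 i j hij _ (hNY x hx) _ (hNY x' hx'))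

omit [Fintype ι] in
lemma RichAt.mono {T : TE k ι} {E Rt : ι → V → V → Prop} {E0 : Finset ι} {u : ι} {L L' : ℕ}
    (hL : L ≤ L') {y : V} {ρ : ι → V} (h : RichAt T E Rt E0 u L' y ρ) :
    RichAt T E Rt E0 u L y ρ := by
  obtain ⟨α, h1, h2, h3⟩ := h
  refine ⟨fun l => α (Fin.castLE hL l), fun l => h1 _, fun l => h2 _, ?_⟩
  intro l l' x x' hx hx' h
  obtain ⟨h4, h5⟩ := h3 _ _ x x' hx hx' h
  exact ⟨Fin.castLE_injective hL h4, h5⟩

omit [Fintype ι] in
lemma PopW.mono [Fintype V] {T : TE k ι} {E Rt : ι → V → V → Prop} {E0 : Finset ι} {u : ι}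
    {L L' ζ ζ' Q Q' D : ℕ} (hL : L ≤ L') (hζ : ζ ≤ ζ') (hQ : Q' ≤ Q) {w : V}
    (h : PopW T E Rt E0 u L' ζ' Q' D w) : PopW T E Rt E0 u L ζ Q D w := by
  intro Z hZ
  obtain ⟨ρ, h1, h2, h3⟩ := h Z (hZ.trans hζ)
  refine ⟨ρ, h1, h2, h3.trans (Nat.mul_le_mul hQ (Finset.card_le_card ?_))⟩
  intro y hy
  obtain ⟨_, h4, h5⟩ := Finset.mem_filter.mp hy
  exact Finset.mem_filter.mpr ⟨Finset.mem_univ _, h4, h5.mono hL⟩

omit [Fintype ι] in
lemma BUat.mono {T : TE k ι} {E Rt : ι → V → V → Prop} {F : Finset ι} {b b' : ι → V} {L L' : ℕ}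
    {Γ Γ' : (ι → V) → Prop} {Z : Finset V} (hL : L ≤ L') (hb : ∀ q ∈ F, T.par q ∉ F → b' q = b q)
    (hΓ : ∀ ψ, Γ' ψ → Γ ψ) (h : BUat T E Rt F b' L' Γ' Z) : BUat T E Rt F b L Γ Z := by
  obtain ⟨ψ, r, h1, h2, h3, h4, h5, h6, h7, h8⟩ := h
  refine ⟨fun l => ψ (Fin.castLE hL l), r, fun q hq hp => (h1 q hq hp).trans (hb q hq hp),
    fun l => h2 _, fun l => hΓ _ (h3 _), ?_, fun l => h5 _, h6, fun l => h7 _, h8⟩
  intro l l' x x' hx hx' h
  obtain ⟨h4, h5⟩ := h4 _ _ x x' hx hx' h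
  exact ⟨Fin.castLE_injective hL h4, h5⟩

omit [Fintype ι] in
lemma Att.congr_ρ {T : TE k ι} {E Rt : ι → V → V → Prop} {N D' : Finset ι} {ρ ρ' : ι → V}
    {Lk : ℕ} {Γ : (ι → V) → Prop} {ψ : ι → V} (hρ : ∀ q ∈ N, T.Qn q → ρ q = ρ' q)
    (h : Att T E Rt N D' ρ Lk Γ ψ) : Att T E Rt N D' ρ' Lk Γ ψ := by
  obtain ⟨ν, h1, h2, h3, h4⟩ := h
  refine ⟨ν, fun l => ⟨?_, (h1 l).2⟩, h2, h3, h4⟩
  intro x hx hQ
  rw [← hρ x hx hQ]
  exact (h1 l).1 x hx hQ

lemma Fam.congr_b {T : TE k ι} {G : SimpleGraph V} {E Rt : ι → V → V → Prop}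
    {B : ℕ → V → V → Prop} {v0 : V}
    {F : Finset ι} {b b' : ι → V} {Γ : (ι → V) → Prop} {φ : ι ⊕ ι → V}
    (hb : ∀ q ∈ F, T.par q ∉ F → b q = b' q) (h : Fam T G E Rt B v0 F b Γ φ) :
    Fam T G E Rt B v0 F b' Γ φ :=
  ⟨⟨h.cp.rt, h.cp.pr, h.cp.df, fun q hq hp => (h.cp.bs q hq hp).trans (hb q hq hp)⟩,
    h.gd, h.ij, h.lt, h.gm⟩

end Pool.Agent.TH476.KK
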