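import Pool.Agent.TH476.KStm2

/-!
Restriction of members of a family (helper918), adapted from GRes.lean.
-/

set_option autoImplicit false

open Classical

namespace Pool.Agent.TH476.KK

open Pool.Agent.TH476

namespace KRes

/-- the map on coordinates -/
noncomputable def sg {k : ℕ} {ι : Type} (T : TE k ι) (N : Finset ι) : ι ⊕ ι → ι ⊕ ι
  | Sum.inl x => Sum.inl x
  | Sum.inr q => if T.par q ∈ N then Sum.inl (T.par q) else Sum.inr q

theorem mem_UC {k : ℕ} {ι : Type} [Fintype ι] (T : TE k ι) (F : Finset ι) (c : ι ⊕ ι) :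
    c ∈ UC T F ↔ (∃ x ∈ F, c = Sum.inl x) ∨ ∃ q ∈ F, T.Qn q ∧ c = Sum.inr q := by
  unfold UC
  rw [Finset.mem_filter]
  exact ⟨fun h => h.2, fun h => ⟨Finset.mem_univ _, h⟩⟩

theorem res_sg {k : ℕ} {ι V : Type} [Fintype ι] (T : TE k ι) (N D' : Finset ι) (v0 : V)
    (φ : ι ⊕ ι → V) (c : ι ⊕ ι) (hc : c ∈ UC T D') : resD T N D' v0 φ c = φ (sg T N c) := by
  rw [mem_UC] at hc
  rcases hc with ⟨x, hx, rfl⟩ | ⟨q, hq, hQ, rfl⟩
  · simp only [resD, sg]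
    rw [if_pos hx]
  · simp only [resD, sg]
    rw [if_pos ⟨hq, hQ⟩]
    split_ifs <;> rfl

theorem sg_mem {k : ℕ} {ι : Type} [Fintype ι] (T : TE k ι) (F N D' : Finset ι) (hN : N ⊆ F)
    (hD : D' ⊆ F) (c : ι ⊕ ι) (hc : c ∈ UC T D') : sg T N c ∈ UC T F := by
  rw [mem_UC] at hc ⊢
  rcases hc with ⟨x, hx, rfl⟩ | ⟨q, hq, hQ, rfl⟩
  · exact Or.inl ⟨x, hD hx, rfl⟩
  · simp only [sg]
    split_ifs with h
    · exact Or.inl ⟨_, hN h, rfl⟩
    · exact Or.inr ⟨q, hD hq, hQ, rfl⟩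

theorem sg_inj {k : ℕ} {ι : Type} [Fintype ι] (T : TE k ι) (N D' : Finset ι)
    (hDN : ∀ x ∈ D', x ∉ N)
    (hu : ∀ q ∈ D', ∀ q' ∈ D', T.par q ∈ N → T.par q = T.par q' → q = q')
    (c : ι ⊕ ι) (hc : c ∈ UC T D') (c' : ι ⊕ ι) (hc' : c' ∈ UC T D')
    (h : sg T N c = sg T N c') : c = c' := by
  rw [mem_UC] at hc hc'
  rcases hc with ⟨x, hx, rfl⟩ | ⟨q, hq, hQ, rfl⟩
  · rcases hc' with ⟨x', hx', rfl⟩ | ⟨q', hq', hQ', rfl⟩
    · exact h
    · simp only [sg] at h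
      split_ifs at h with h1
      · rw [Sum.inl.injEq] at h
        rw [← h] at h1
        exact absurd h1 (hDN x hx)
  · rcases hc' with ⟨x', hx', rfl⟩ | ⟨q', hq', hQ', rfl⟩
    · simp only [sg] at h
      split_ifs at h with h1
      · rw [Sum.inl.injEq] at h
        rw [h] at h1
        exact absurd h1 (hDN x' hx')
    · simp only [sg] at h
      split_ifs at h with h1 h2 h2
      · rw [Sum.inl.injEq] at h
        rw [hu q hq q' hq' h1 h]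
      · exact h

theorem nb_mem {k : ℕ} {ι : Type} [Fintype ι] (T : TE k ι) (F : Finset ι) (c d : ι ⊕ ι)
    (h : Nb T F c d) : c ∈ UC T F ∧ d ∈ UC T F := by
  rw [mem_UC, mem_UC]
  rcases h with ⟨x, hx, hQ, ⟨rfl, rfl⟩ | ⟨rfl, rfl⟩⟩ | ⟨x, hx, hp, ⟨rfl, rfl⟩ | ⟨rfl, rfl⟩⟩
  · exact ⟨Or.inl ⟨x, hx, rfl⟩, Or.inr ⟨x, hx, hQ, rfl⟩⟩
  · exact ⟨Or.inr ⟨x, hx, hQ, rfl⟩, Or.inl ⟨x, hx, rfl⟩⟩
  · exact ⟨Or.inl ⟨x, hx, rfl⟩, Or.inl ⟨_, hp, rfl⟩⟩
  · exact ⟨Or.inl ⟨_, hp, rfl⟩, Or.inl ⟨x, hx, rfl⟩⟩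

theorem nb_sg {k : ℕ} {ι : Type} (T : TE k ι) (F N D' : Finset ι) (hN : N ⊆ F)
    (hD : D' ⊆ F) (c d : ι ⊕ ι) (h : Nb T D' c d) : Nb T F (sg T N c) (sg T N d) := by
  rcases h with ⟨x, hx, hQ, ⟨rfl, rfl⟩ | ⟨rfl, rfl⟩⟩ | ⟨x, hx, hp, ⟨rfl, rfl⟩ | ⟨rfl, rfl⟩⟩
  · simp only [sg]
    split_ifs with h
    · exact Or.inr ⟨x, hD hx, hN h, Or.inl ⟨rfl, rfl⟩⟩
    · exact Or.inl ⟨x, hD hx, hQ, Or.inl ⟨rfl, rfl⟩⟩
  · simp only [sg]
    split_ifs with h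
    · exact Or.inr ⟨x, hD hx, hN h, Or.inr ⟨rfl, rfl⟩⟩
    · exact Or.inl ⟨x, hD hx, hQ, Or.inr ⟨rfl, rfl⟩⟩
  · simp only [sg]
    exact Or.inr ⟨x, hD hx, hD hp, Or.inl ⟨rfl, rfl⟩⟩
  · simp only [sg]
    exact Or.inr ⟨x, hD hx, hD hp, Or.inr ⟨rfl, rfl⟩⟩

end KRes

open KRes

theorem res_holds : S_RES := by
  intro k ι _ T V _ G E Rt hRS B v0 F b Γ φ hF hAF N D' hN hD hDN hAD hpar hu Γ' hΓ'
  have einl : ∀ x ∈ D', resD T N D' v0 φ (Sum.inl x) = φ (Sum.inl x) := by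
    intro x hx
    simp only [resD]
    rw [if_pos hx]
  have einr : ∀ q ∈ D', T.Qn q → resD T N D' v0 φ (Sum.inr q) =
      if T.par q ∈ N then φ (Sum.inl (T.par q)) else φ (Sum.inr q) := by
    intro q hq hQ
    simp only [resD]
    rw [if_pos ⟨hq, hQ⟩]
  have hcen : ∀ q ∈ D', T.par q ∉ D' → T.Cn q := by
    intro q hq hp
    by_contra hcon
    exact hp (hAD.2 q hq hcon)
  refine ⟨⟨?_, ?_, ?_, ?_⟩, ⟨?_, ?_⟩, ?_, ?_, hΓ'⟩
  · intro x hx hQ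
    rw [einl x hx, einr x hx hQ]
    split_ifs with h
    · exact hF.cp.pr x (hD hx) (hN h)
    · exact hF.cp.rt x (hD hx) hQ
  · intro x hx hp
    rw [einl x hx, einl _ hp]
    exact hF.cp.pr x (hD hx) (hD hp)
  · intro c hc
    rw [mem_UC] at hc
    push Not at hc
    rcases c with x | q
    · simp only [resD]
      rw [if_neg]
      intro hx
      exact hc.1 x hx rfl
    · simp only [resD]
      rw [if_neg]
      rintro ⟨hq, hQ⟩
      exact hc.2 q hq hQ rfl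
  · intro q hq hp
    have hQ : T.Qn q := Or.inl (hcen q hq hp)
    rw [einr q hq hQ]
    split_ifs with h
    · rfl
    · refine hF.cp.bs q (hD hq) ?_
      intro hcon
      rcases hpar q hq hcon with h1 | h1
      · exact hp h1
      · exact h h1
  · intro x hx hQ
    beta_reduce
    rw [einl x hx, einr x hx hQ]
    split_ifs with h
    · have hc : T.Cn x := hcen x hx (fun h' => hDN _ h' h)
      exact (hRS.sw x hc _ _).mp (hF.gd.2 x (hD hx) (hN h))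
    · exact hF.gd.1 x (hD hx) hQ
  · intro x hx hp
    beta_reduce
    rw [einl x hx, einl _ hp]
    exact hF.gd.2 x (hD hx) (hD hp)
  · intro c hc c' hc' h
    rw [res_sg T N D' v0 φ c hc, res_sg T N D' v0 φ c' hc'] at h
    exact sg_inj T N D' hDN hu c hc c' hc'
      (hF.ij _ (sg_mem T F N D' hN hD c hc) _ (sg_mem T F N D' hN hD c' hc') h)
  · intro j c hj hjk hc
    have hmem : ∀ i, i ≤ j → c i ∈ UC T D' := by
      intro i hi
      rcases Nat.lt_or_ge i j with h | h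
      · exact (nb_mem T D' _ _ (hc.1 i h)).1
      · have : i = (j - 1) + 1 := by omega
        rw [this]
        exact (nb_mem T D' _ _ (hc.1 (j - 1) (by omega))).2
    rw [res_sg T N D' v0 φ (c 0) (hmem 0 (by omega)), res_sg T N D' v0 φ (c j) (hmem j le_rfl)]
    refine hF.lt j (fun i => sg T N (c i)) hj hjk ⟨?_, ?_⟩
    · intro i hi
      exact nb_sg T F N D' hN hD _ _ (hc.1 i hi)
    · intro i i' hi hi' h
      exact hc.2 i i' hi hi' (sg_inj T N D' hDN hu _ (hmem i hi) _ (hmem i' hi') h)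

end Pool.Agent.TH476.KK
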