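import Pool.Agent.TH476.KDef

set_option autoImplicit false

open Classical

namespace Pool.Agent.TH476.KK

open Pool.Agent.TH476

/-- symmetric families of pairs -/
def BSy {V : Type} (B : ℕ → V → V → Prop) : Prop := ∀ j x y, B j x y → B j y x

/-- pairs in B l are joined by M disjoint admissible paths -/
def RichSp {V : Type} (G : SimpleGraph V) (B : ℕ → V → V → Prop) (l M : ℕ) : Prop :=
  ∀ x y, B l x y → Disj G B l M x y

/-- every pair is joined by at most F0 light paths of each length less than l -/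
def BNd {V : Type} [Fintype V] (G : SimpleGraph V) (B : ℕ → V → V → Prop) (l F0 : ℕ) : Prop :=
  ∀ j, 1 ≤ j → j < l → ∀ x y, (Finset.univ.filter (fun p : Fin (j + 1) → V =>
    PthV G B j (ex j p) ∧ (2 ≤ j → ¬ B j x y) ∧ ex j p 0 = x ∧ ex j p j = y)).card ≤ F0

/-- The moves. Bd a w s: s is a possible centre with root w in the state a; ok n a: n core moves
are possible in the state a. Legs: paths of length k+1 from many vertices of S to a common new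
vertex. Core moves: paths of length k+1 from many vertices of S to new centres around a new w'. -/
structure Mv {V : Type} (G : SimpleGraph V) (k C ζ : ℕ) (St : Type) (Bd : St → V → V → Prop)
    (ok : ℕ → St → Prop) : Prop where
  adj : ∀ a w s, Bd a w s → G.Adj w s
  leg : ∀ n a, ok n a → ∀ (w : V) (S Z : Finset V) (n' : ℕ), (∀ s ∈ S, Bd a w s) → w ∈ Z →
    C * n' ≤ S.card → S.card ≤ ζ → Z.card ≤ ζ →
    ∃ ρ, ρ ∉ Z ∧ ρ ∉ S ∧ ∃ P : Fin n' → ℕ → V,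
      (∀ l, P l 0 ∈ S ∧ P l (k + 1) = ρ ∧ (∀ i, i ≤ k → G.Adj (P l i) (P l (i + 1))) ∧
        ∀ i, 1 ≤ i → i ≤ k → P l i ∉ Z ∧ P l i ∉ S ∧ P l i ≠ ρ) ∧
      ∀ l l' i i', i ≤ k → i' ≤ k → P l i = P l' i' → l = l' ∧ i = i'
  core : ∀ n a, ok (n + 1) a → ∀ (w : V) (S Z : Finset V) (n' : ℕ), (∀ s ∈ S, Bd a w s) →
    w ∈ Z → C * n' ≤ S.card → S.card ≤ ζ → Z.card ≤ ζ →
    ∃ a', ok n a' ∧ ∃ w', w' ∉ Z ∧ w' ∉ S ∧ ∃ P : Fin n' → ℕ → V,
      (∀ l, P l 0 ∈ S ∧ Bd a' w' (P l (k + 1)) ∧ (∀ i, i ≤ k → G.Adj (P l i) (P l (i + 1))) ∧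
        ∀ i, 1 ≤ i → i ≤ k + 1 → P l i ∉ Z ∧ P l i ∉ S ∧ P l i ≠ w') ∧
      ∀ l l' i i', i ≤ k + 1 → i' ≤ k + 1 → P l i = P l' i' → l = l' ∧ i = i'

/-- large initial sets with n core moves -/
def Ini {V : Type} (ζ : ℕ) (St : Type) (Bd : St → V → V → Prop) (ok : ℕ → St → Prop)
    (n : ℕ) : Prop :=
  ∀ n0, n0 ≤ ζ → ∃ (a : St) (w : V) (S : Finset V), ok n a ∧ S.card = n0 ∧ w ∉ S ∧
    ∀ s ∈ S, Bd a w s

/-- embedding the blowup with the moves -/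
def S_EMB : Prop := ∀ (k : ℕ), 1 ≤ k → ∀ (ι : Type) [Fintype ι] (T : TE k ι) (t C : ℕ),
    0 < t → 0 < C → (∃ x, T.Cn x) → ∃ ζ : ℕ, ∀ (V : Type) (G : SimpleGraph V) (St : Type)
    (Bd : St → V → V → Prop) (ok : ℕ → St → Prop), Mv G k C ζ St Bd ok →
    Ini ζ St Bd ok (Fintype.card ι) →
    ∃ w, BUat T (fun _ => G.Adj) (fun _ => G.Adj) (Finset.univ.erase T.top) (fun _ => w) t
      (fun _ => True) ∅

/-- dense rich walks of length l give the moves -/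
def S_MV (k l : ℕ) : Prop := ∀ K Q : ℕ, 0 < K → 0 < Q → ∃ C : ℕ, 0 < C ∧ ∀ F0 ζ : ℕ,
    ∃ M D0 : ℕ, ∀ (V : Type) [Fintype V] [Nonempty V] (G : SimpleGraph V) (D : ℕ)
    (B : ℕ → V → V → Prop), AR G D K → D0 ≤ D → BSy B → RichSp G B l M → BNd G B l F0 →
    Fintype.card V * D ^ l ≤ Q * (RCs G B l).card →
    ∃ (St : Type) (Bd : St → V → V → Prop) (ok : ℕ → St → Prop), Mv G k C ζ St Bd ok ∧
      ∀ n, n ≤ ζ → Ini ζ St Bd ok n

/-- the case k = 3, l = 3: moves or a dense host with few rich walks of length 3 -/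
def S_MV3 : Prop := ∀ K n : ℕ, 0 < K → ∃ Qh : ℕ, 0 < Qh ∧ ∀ q : ℕ, ∃ C : ℕ, 0 < C ∧
    ∀ F0 ζ : ℕ, ∃ M D0 : ℕ, ∀ (V : Type) [Fintype V] [Nonempty V] (G : SimpleGraph V) (D : ℕ)
    (B : ℕ → V → V → Prop), AR G D K → D0 ≤ D → BSy B → RichSp G B 3 M → BNd G B 3 F0 →
    (∃ (St : Type) (Bd : St → V → V → Prop) (ok : ℕ → St → Prop), Mv G 3 C ζ St Bd ok ∧
      Ini ζ St Bd ok n) ∨
    ∃ He : V → V → Prop, (∀ a b, He a b → G.Adj a b) ∧ Fintype.card V * D ≤ Qh * gc He ∧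
      (RCh G B He 3).card * q ≤ Fintype.card V * D ^ 3

end Pool.Agent.TH476.KK
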