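import Pool.Agent.TH476.Hom

set_option autoImplicit false

open Classical

namespace Pool.Agent.TH476

variable {κ β : Type} [Fintype κ] [Fintype β]

lemma pi_bad1 (B : Finset β) (P : β → Prop) (u : κ) :
    ((Fintype.piFinset (fun _ : κ => B)).filter (fun ρ => P (ρ u))).card ≤
      (B.filter P).card * B.card ^ (Fintype.card κ - 1) := by
  have h := ext_le (fun _ : κ => 0) (fun (v : κ) (_ : κ → β) => if v = u then B.filter P else B)
    (fun v => if v = u then (B.filter P).card else B.card) (∅ : Finset κ)ᶜ.card ∅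
  rcases isEmpty_or_nonempty β with hβ | ⟨⟨b0⟩⟩
  · have : (Fintype.piFinset (fun _ : κ => B)).filter (fun ρ => P (ρ u)) = ∅ := by
      ext ρ
      exact (hβ.false (ρ u)).elim
    rw [this, Finset.card_empty]
    exact Nat.zero_le _
  have h := h (fun _ => b0) rfl (fun _ _ _ _ _ => rfl) (fun v _ φ => by
    show (if v = u then B.filter P else B).card ≤ if v = u then (B.filter P).card else B.card
    split <;> exact le_rfl)
  rw [Finset.compl_empty, ← Finset.mul_prod_erase _ _ (Finset.mem_univ u), if_pos rfl,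
    Finset.prod_congr rfl (g := fun _ => B.card) (fun v hv => if_neg (Finset.ne_of_mem_erase hv)),
    Finset.prod_const, Finset.card_erase_of_mem (Finset.mem_univ u), Finset.card_univ] at h
  refine (Finset.card_le_card ?_).trans h
  intro ρ hρ
  obtain ⟨h1, h2⟩ := Finset.mem_filter.mp hρ
  rw [mem_EX]
  refine ⟨by simp, fun v _ => ?_⟩
  rw [Fintype.mem_piFinset] at h1
  show ρ v ∈ if v = u then B.filter P else B
  split
  · rename_i h3
    rw [h3]
    exact Finset.mem_filter.mpr ⟨h1 u, h2⟩
  · exact h1 v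

lemma pi_bad2 (B : Finset β) (Q : β → β → Prop) (δ : ℕ)
    (hδ : ∀ a ∈ B, (B.filter (fun b => Q a b)).card ≤ δ) (u v : κ) (huv : u ≠ v) :
    ((Fintype.piFinset (fun _ : κ => B)).filter (fun ρ => Q (ρ u) (ρ v))).card ≤
      δ * B.card ^ (Fintype.card κ - 1) := by
  rcases isEmpty_or_nonempty β with hβ | ⟨⟨b0⟩⟩
  · have : (Fintype.piFinset (fun _ : κ => B)).filter (fun ρ => Q (ρ u) (ρ v)) = ∅ := by
      ext ρ
      exact (hβ.false (ρ u)).elim
    rw [this, Finset.card_empty]
    exact Nat.zero_le _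
  have h := ext_le (fun w : κ => if w = v then 1 else 0)
    (fun (w : κ) (φ : κ → β) => if w = v then (if φ u ∈ B then B.filter (fun b => Q (φ u) b) else ∅)
      else B)
    (fun w => if w = v then δ else B.card) (∅ : Finset κ)ᶜ.card ∅ (fun _ => b0) rfl
    (fun w _ φ ψ hφ => by
      by_cases hw : w = v
      · subst hw
        have := hφ u (by simp [huv])
        simp only [if_true]
        rw [this]
      · simp only [hw, if_false])
    (fun w _ φ => by
      by_cases hw : w = v
      · subst hw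
        simp only [if_true]
        split
        · rename_i h1
          exact hδ _ h1
        · simp
      · simp only [hw, if_false]
        exact le_rfl)
  rw [Finset.compl_empty, ← Finset.mul_prod_erase _ _ (Finset.mem_univ v), if_pos rfl,
    Finset.prod_congr rfl (g := fun _ => B.card) (fun w hv => if_neg (Finset.ne_of_mem_erase hv)),
    Finset.prod_const, Finset.card_erase_of_mem (Finset.mem_univ v), Finset.card_univ] at h
  refine (Finset.card_le_card ?_).trans h
  intro ρ hρ
  obtain ⟨h1, h2⟩ := Finset.mem_filter.mp hρ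
  rw [mem_EX]
  refine ⟨by simp, fun w _ => ?_⟩
  rw [Fintype.mem_piFinset] at h1
  by_cases hw : w = v
  · subst hw
    simp only [if_true, if_pos (h1 u)]
    exact Finset.mem_filter.mpr ⟨h1 w, h2⟩
  · simp only [hw, if_false]
    exact h1 w

/-- tuples from B with an entry satisfying P or two entries related by Q are few -/
lemma pi_bad (B : Finset β) (P : β → Prop) (Q : β → β → Prop) (π δ : ℕ)
    (hπ : (B.filter P).card ≤ π) (hδ : ∀ a ∈ B, (B.filter (fun b => Q a b)).card ≤ δ) :
    ((Fintype.piFinset (fun _ : κ => B)).filter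
      (fun ρ => (∃ u, P (ρ u)) ∨ ∃ u v, u ≠ v ∧ Q (ρ u) (ρ v))).card ≤
      (Fintype.card κ * π + Fintype.card κ ^ 2 * δ) * B.card ^ (Fintype.card κ - 1) := by
  have hsub : (Fintype.piFinset (fun _ : κ => B)).filter
      (fun ρ => (∃ u, P (ρ u)) ∨ ∃ u v, u ≠ v ∧ Q (ρ u) (ρ v)) ⊆
      ((Finset.univ : Finset κ).biUnion (fun u =>
        (Fintype.piFinset (fun _ : κ => B)).filter (fun ρ => P (ρ u)))) ∪
      (((Finset.univ : Finset (κ × κ)).filter (fun e => e.1 ≠ e.2)).biUnion (fun e =>
        (Fintype.piFinset (fun _ : κ => B)).filter (fun ρ => Q (ρ e.1) (ρ e.2)))) := by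
    intro ρ hρ
    obtain ⟨h1, h2⟩ := Finset.mem_filter.mp hρ
    rw [Finset.mem_union]
    rcases h2 with ⟨u, h2⟩ | ⟨u, v, h2, h3⟩
    · left
      exact Finset.mem_biUnion.mpr ⟨u, Finset.mem_univ _, Finset.mem_filter.mpr ⟨h1, h2⟩⟩
    · right
      exact Finset.mem_biUnion.mpr ⟨(u, v), Finset.mem_filter.mpr ⟨Finset.mem_univ _, h2⟩,
        Finset.mem_filter.mpr ⟨h1, h3⟩⟩
  refine (Finset.card_le_card hsub).trans ((Finset.card_union_le _ _).trans ?_)
  rw [Nat.add_mul]
  refine Nat.add_le_add ?_ ?_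
  · refine (Finset.card_biUnion_le_card_mul _ _ (π * B.card ^ (Fintype.card κ - 1))
      (fun u _ => (pi_bad1 B P u).trans (Nat.mul_le_mul_right _ hπ))).trans ?_
    rw [Finset.card_univ, mul_assoc]
  · refine (Finset.card_biUnion_le_card_mul _ _ (δ * B.card ^ (Fintype.card κ - 1))
      (fun e he => pi_bad2 B Q δ hδ e.1 e.2 (Finset.mem_filter.mp he).2)).trans ?_
    rw [mul_assoc]
    refine Nat.mul_le_mul_right _ ((Finset.card_le_univ _).trans ?_)
    rw [Fintype.card_prod, sq]

/-- the same for any decidability instance on κ -/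
lemma pi_bad' [inst : DecidableEq κ] (B : Finset β) (P : β → Prop) (Q : β → β → Prop) (π δ : ℕ)
    (hπ : (B.filter P).card ≤ π) (hδ : ∀ a ∈ B, (B.filter (fun b => Q a b)).card ≤ δ) :
    ((Fintype.piFinset (fun _ : κ => B)).filter
      (fun ρ => (∃ u, P (ρ u)) ∨ ∃ u v, u ≠ v ∧ Q (ρ u) (ρ v))).card ≤
      (Fintype.card κ * π + Fintype.card κ ^ 2 * δ) * B.card ^ (Fintype.card κ - 1) := by
  obtain rfl : inst = (fun a b => Classical.propDecidable (a = b)) := Subsingleton.elim _ _
  exact pi_bad B P Q π δ hπ hδ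

end Pool.Agent.TH476
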