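import Pool.Agent.TH476.Pi

set_option autoImplicit false

open Classical

namespace Pool.Agent.TH476

/-- vertices of the two-level tree: the root f, its neighbour x, the neighbours y b of x, the
neighbours m b j of y b, and the roots r b j -/
inductive TV (g q : ℕ) : Type
  | f : TV g q
  | x : TV g q
  | y (b : Fin g) : TV g q
  | m (b : Fin g) (j : Fin q) : TV g q
  | r (b : Fin g) (j : Fin q) : TV g q

/-- TV as a sum -/
def TVe (g q : ℕ) : TV g q ≃ Bool ⊕ Fin g ⊕ (Fin g × Fin q) ⊕ (Fin g × Fin q) where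
  toFun
    | .f => Sum.inl false
    | .x => Sum.inl true
    | .y b => Sum.inr (Sum.inl b)
    | .m b j => Sum.inr (Sum.inr (Sum.inl (b, j)))
    | .r b j => Sum.inr (Sum.inr (Sum.inr (b, j)))
  invFun
    | Sum.inl false => .f
    | Sum.inl true => .x
    | Sum.inr (Sum.inl b) => .y b
    | Sum.inr (Sum.inr (Sum.inl (b, j))) => .m b j
    | Sum.inr (Sum.inr (Sum.inr (b, j))) => .r b j
  left_inv v := by cases v <;> rfl
  right_inv v := by
    rcases v with (_ | _) | b | ⟨b, j⟩ | ⟨b, j⟩ <;> rfl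

instance (g q : ℕ) : Fintype (TV g q) := Fintype.ofEquiv _ (TVe g q).symm

lemma card_TV (g q : ℕ) : Fintype.card (TV g q) = 2 + g + 2 * (g * q) := by
  rw [Fintype.card_congr (TVe g q)]
  simp only [Fintype.card_sum, Fintype.card_bool, Fintype.card_fin, Fintype.card_prod]
  ring

/-- parent towards x -/
def par {g q : ℕ} : TV g q → TV g q
  | .f => .x
  | .x => .x
  | .y _ => .x
  | .m b _ => .y b
  | .r b j => .m b j

/-- depth -/
def dpt {g q : ℕ} : TV g q → ℕ
  | .f => 1
  | .x => 0
  | .y _ => 1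
  | .m _ _ => 2
  | .r _ _ => 3

lemma dpt_par {g q : ℕ} (v : TV g q) (hv : v ≠ .x) : dpt (par v) < dpt v := by
  cases v <;> simp_all [dpt, par]

/-- the tree -/
def TG (g q : ℕ) : SimpleGraph (TV g q) := PT par TV.x

lemma TG_conn (g q : ℕ) : (TG g q).Connected := PT_conn par TV.x dpt dpt_par

lemma TG_adj {g q : ℕ} (u v : TV g q) :
    (TG g q).Adj u v ↔ (v ≠ TV.x ∧ u = par v) ∨ (u ≠ TV.x ∧ v = par u) :=
  PT_adj par TV.x dpt dpt_par u v

lemma adj_fx (g q : ℕ) : (TG g q).Adj TV.x TV.f := by rw [TG_adj]; left; simp [par]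
lemma adj_xy {g q : ℕ} (b : Fin g) : (TG g q).Adj TV.x (TV.y b) := by rw [TG_adj]; left; simp [par]
lemma adj_ym {g q : ℕ} (b : Fin g) (j : Fin q) : (TG g q).Adj (TV.y b) (TV.m b j) := by
  rw [TG_adj]; left; simp [par]
lemma adj_mr {g q : ℕ} (b : Fin g) (j : Fin q) : (TG g q).Adj (TV.m b j) (TV.r b j) := by
  rw [TG_adj]; left; simp [par]

lemma hom_TG {g q : ℕ} {V : Type} (G : SimpleGraph V) (φ : TV g q → V) :
    Hom (TG g q) G φ ↔ G.Adj (φ .x) (φ .f) ∧ (∀ b, G.Adj (φ .x) (φ (.y b))) ∧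
      (∀ b j, G.Adj (φ (.y b)) (φ (.m b j))) ∧ (∀ b j, G.Adj (φ (.m b j)) (φ (.r b j))) := by
  unfold TG
  rw [hom_PT par TV.x dpt dpt_par]
  constructor
  · intro h
    exact ⟨h .f (by simp), fun b => h (.y b) (by simp), fun b j => h (.m b j) (by simp),
      fun b j => h (.r b j) (by simp)⟩
  · rintro ⟨h1, h2, h3, h4⟩ v hv
    cases v with
    | f => exact h1
    | x => exact absurd rfl hv
    | y b => exact h2 b
    | m b j => exact h3 b j
    | r b j => exact h4 b j

/-- the roots -/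
noncomputable def RS (g q : ℕ) : Finset (TV g q) :=
  Finset.univ.filter (fun v => v = .f ∨ ∃ b j, v = .r b j)

lemma f_mem (g q : ℕ) : (TV.f : TV g q) ∈ RS g q := by simp [RS]
lemma x_nmem (g q : ℕ) : (TV.x : TV g q) ∉ RS g q := by simp [RS]
lemma y_nmem {g q : ℕ} (b : Fin g) : (TV.y b : TV g q) ∉ RS g q := by simp [RS]
lemma m_nmem {g q : ℕ} (b : Fin g) (j : Fin q) : (TV.m b j : TV g q) ∉ RS g q := by simp [RS]
lemma r_mem {g q : ℕ} (b : Fin g) (j : Fin q) : (TV.r b j : TV g q) ∈ RS g q := by simp [RS]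

lemma card_RS (g q : ℕ) : (RS g q).card = 1 + g * q := by
  have : RS g q = insert TV.f ((Finset.univ : Finset (Fin g × Fin q)).image
      (fun p => TV.r p.1 p.2)) := by
    ext v
    simp only [RS, Finset.mem_filter, Finset.mem_univ, true_and, Finset.mem_insert,
      Finset.mem_image, Prod.exists]
    constructor
    · rintro (h | ⟨b, j, h⟩)
      · exact Or.inl h
      · exact Or.inr ⟨b, j, h.symm⟩
    · rintro (h | ⟨b, j, h⟩)
      · exact Or.inl h
      · exact Or.inr ⟨b, j, h.symm⟩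
  rw [this, Finset.card_insert_of_notMem (by simp), Finset.card_image_of_injective]
  · rw [Finset.card_univ, Fintype.card_prod, Fintype.card_fin, Fintype.card_fin]
    ring
  · rintro ⟨a, b⟩ ⟨c, d⟩ h
    simp only [TV.r.injEq] at h
    exact Prod.ext h.1 h.2

/-- G contains the t-blowup of the tree -/
def TB {V : Type} (G : SimpleGraph V) (g q t : ℕ) : Prop :=
  ∃ φ : TV g q → V, Rich {φ | Emb (TG g q) G φ} t (RS g q) φ

lemma TB_of {V : Type} (G : SimpleGraph V) (g q t : ℕ) (f : V) (r : Fin g × Fin q → V)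
    (x : Fin t → V) (y : Fin t × Fin g → V) (m : Fin t × Fin g × Fin q → V)
    (h1 : ∀ i, G.Adj (x i) f) (h2 : ∀ i b, G.Adj (x i) (y (i, b)))
    (h3 : ∀ i b j, G.Adj (y (i, b)) (m (i, b, j))) (h4 : ∀ i b j, G.Adj (m (i, b, j)) (r (b, j)))
    (ir : Function.Injective r) (ix : Function.Injective x) (iy : Function.Injective y)
    (im : Function.Injective m)
    (fr : ∀ p, f ≠ r p) (fx : ∀ i, f ≠ x i) (fy : ∀ p, f ≠ y p) (fm : ∀ p, f ≠ m p)
    (rx : ∀ p i, r p ≠ x i) (ry : ∀ p i, r p ≠ y i) (rm : ∀ p i, r p ≠ m i)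
    (xy : ∀ p i, x p ≠ y i) (xm : ∀ p i, x p ≠ m i) (ym : ∀ p i, y p ≠ m i) : TB G g q t := by
  rcases Nat.eq_zero_or_pos t with h0 | hpos
  · subst h0
    exact ⟨fun _ => f, fun i => i.elim0, fun i => i.elim0, fun i => i.elim0, fun i => i.elim0⟩
  let F : Fin t → TV g q → V := fun i v => match v with
    | .f => f
    | .x => x i
    | .y b => y (i, b)
    | .m b j => m (i, b, j)
    | .r b j => r (b, j)
  have hinj : ∀ i i' u v, F i u = F i' v → u = v ∧ (u ∈ RS g q ∨ i = i') := by
    intro i i' u v h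
    cases u <;> cases v
    all_goals simp only [F] at h
    all_goals first
      | exact absurd h (fr _)
      | exact absurd h (fx _)
      | exact absurd h (fy _)
      | exact absurd h (fm _)
      | exact absurd h (rx _ _)
      | exact absurd h (ry _ _)
      | exact absurd h (rm _ _)
      | exact absurd h (xy _ _)
      | exact absurd h (xm _ _)
      | exact absurd h (ym _ _)
      | exact absurd h.symm (fr _)
      | exact absurd h.symm (fx _)
      | exact absurd h.symm (fy _)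
      | exact absurd h.symm (fm _)
      | exact absurd h.symm (rx _ _)
      | exact absurd h.symm (ry _ _)
      | exact absurd h.symm (rm _ _)
      | exact absurd h.symm (xy _ _)
      | exact absurd h.symm (xm _ _)
      | exact absurd h.symm (ym _ _)
      | skip
    · exact ⟨rfl, Or.inl (f_mem g q)⟩
    · exact ⟨rfl, Or.inr (ix h)⟩
    · have := iy h
      simp only [Prod.mk.injEq] at this
      exact ⟨by rw [this.2], Or.inr this.1⟩
    · have := im h
      simp only [Prod.mk.injEq] at this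
      exact ⟨by rw [this.2.1, this.2.2], Or.inr this.1⟩
    · have := ir h
      simp only [Prod.mk.injEq] at this
      exact ⟨by rw [this.1, this.2], Or.inl (r_mem _ _)⟩
  refine ⟨F ⟨0, hpos⟩, F, ?_, ?_, ?_⟩
  · intro i
    refine ⟨(hom_TG G _).mpr ⟨h1 i, h2 i, h3 i, h4 i⟩, ?_⟩
    intro u v h
    exact (hinj i i u v h).1
  · intro i u hu
    cases u with
    | f => rfl
    | x => exact absurd hu (x_nmem g q)
    | y b => exact absurd hu (y_nmem b)
    | m b j => exact absurd hu (m_nmem b j)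
    | r b j => rfl
  · intro i j hij u hu v hv h
    obtain ⟨h5, h6⟩ := hinj i j u v h
    exact h6.elim hu hij

end Pool.Agent.TH476
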